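import Pool.Agent.Lib.MP_75c153_gt.Ft.SpSt
import Pool.Agent.Lib.MP_570070_gt.Level
import Pool.Agent.Lib.MP_570070_gt.Free

/-! Wreath product quotients of a free group and the chain. -/

namespace Pool.Agent.Lib.MP_75c153_gt.Ft

open Multiplicative Pool.Agent.Lib.MP_570070_gt

theorem resFin_of_injective {G H : Type} [Group G] [Group H] [Group.ResiduallyFinite H]
    (f : G →* H) (hf : Function.Injective f) : Group.ResiduallyFinite G := by
  rw [Group.residuallyFinite_iff_forall_finiteIndexNormalSubgroup]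
  intro g hg
  exact (injective_iff_map_eq_one f).1 hf g
    (Group.eq_one_iff_forall_finiteIndexNormalSubroup (f g) fun K => hg (K.comap f))

theorem freeGroup_resFin (n : ℕ) : Group.ResiduallyFinite (FreeGroup (Fin n)) := by
  induction n with
  | zero => infer_instance
  | succ n ih =>
    let φ : (⊥ : Subgroup (FreeGroup (Fin n))) ≃* (⊥ : Subgroup (FreeGroup (Fin n))) :=
      MulEquiv.refl _
    have := free_residuallyFinite φ
    let f : FreeGroup (Fin (n + 1)) →* HNNExtension (FreeGroup (Fin n)) ⊥ ⊥ φ :=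
      FreeGroup.lift (Fin.cons HNNExtension.t fun j => HNNExtension.of (FreeGroup.of j))
    let g : HNNExtension (FreeGroup (Fin n)) ⊥ ⊥ φ →* FreeGroup (Fin (n + 1)) :=
      HNNExtension.lift (FreeGroup.map Fin.succ) (FreeGroup.of 0) fun a => by
        rw [Subsingleton.elim a 1, map_one]
        simp
    have h : g.comp f = MonoidHom.id _ := by
      ext i
      refine Fin.cases ?_ (fun j => ?_) i <;> simp [f, g]
    exact resFin_of_injective f (Function.LeftInverse.injective (g := g) fun a =>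
      DFunLike.congr_fun h a)

variable {α : Type} {P : Type} [Group P] (a₀ : α) (ρ : FreeGroup α →* P)

/-- The quotients of the generators by the first one. -/
def qy (a₀ j : α) : FreeGroup α := (FreeGroup.of a₀)⁻¹ * FreeGroup.of j

open Classical in
/-- The first generator shifts, the quotients act through `ρ` in a window and trivially
elsewhere. -/
noncomputable def flev (L R : ℕ) :
    FreeGroup α →* RegularWreathProduct P (Multiplicative (ZMod L)) :=
  FreeGroup.lift fun j => ⟨fun _ => ρ (FreeGroup.of a₀), ofAdd 1⟩ *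
    ⟨fun q => if Near R 0 q.toAdd then ρ (qy a₀ j) else 1, 1⟩

theorem flev_x (L R : ℕ) :
    flev a₀ ρ L R (FreeGroup.of a₀) = ⟨fun _ => ρ (FreeGroup.of a₀), ofAdd 1⟩ := by
  rw [flev, FreeGroup.lift_apply_of]
  ext q <;> simp [qy]

open Classical in
theorem flev_y (L R : ℕ) (j : α) : flev a₀ ρ L R (qy a₀ j) =
    ⟨fun q => if Near R 0 q.toAdd then ρ (qy a₀ j) else 1, 1⟩ := by
  rw [qy, map_mul, map_inv, flev_x, flev, FreeGroup.lift_apply_of, inv_mul_cancel_left, qy]

/-- The element is seen in the middle of a large window. -/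
def Sees (g : FreeGroup α) : Prop := ∃ (d : ℤ) (k : ℕ), ∀ L R : ℕ,
  (flev a₀ ρ L R g).right = ofAdd (d : ZMod L) ∧
    ∀ i : ℤ, |i| + k ≤ R → (flev a₀ ρ L R g).left (ofAdd (i : ZMod L)) = ρ g

variable {a₀ ρ}

theorem Sees.mul {a b : FreeGroup α} (ha : Sees a₀ ρ a) (hb : Sees a₀ ρ b) : Sees a₀ ρ (a * b) := by
  obtain ⟨d, k, ha⟩ := ha
  obtain ⟨e, l, hb⟩ := hb
  refine ⟨d + e, k + l + d.natAbs, fun L R => ⟨?_, fun i hi => ?_⟩⟩
  · rw [map_mul, RegularWreathProduct.mul_right, (ha L R).1, (hb L R).1, Int.cast_add, ofAdd_add]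
  · have h1 : |i - d| ≤ |i| + |d| := abs_sub i d
    push_cast at hi
    have h2 := abs_nonneg d
    rw [map_mul, RegularWreathProduct.mul_left, Pi.mul_apply, (ha L R).1,
      (ha L R).2 i (by omega), map_mul, ← (hb L R).2 (i - d) (by omega)]
    congr 2
    rw [← ofAdd_neg, ← ofAdd_add]
    push_cast
    rw [neg_add_eq_sub]

theorem Sees.inv {a : FreeGroup α} (ha : Sees a₀ ρ a) : Sees a₀ ρ a⁻¹ := by
  obtain ⟨d, k, ha⟩ := ha
  refine ⟨-d, k + d.natAbs, fun L R => ⟨?_, fun i hi => ?_⟩⟩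
  · rw [map_inv, RegularWreathProduct.inv_right, (ha L R).1, Int.cast_neg, ofAdd_neg]
  · have h1 : |d + i| ≤ |d| + |i| := abs_add_le d i
    push_cast at hi
    rw [map_inv, RegularWreathProduct.inv_left, map_inv, ← (ha L R).2 (d + i) (by omega),
      (ha L R).1]
    simp

variable (a₀ ρ)

theorem flev_sees (g : FreeGroup α) : Sees a₀ ρ g := by
  have hx : Sees a₀ ρ (FreeGroup.of a₀) :=
    ⟨1, 0, fun L R => ⟨by simp [flev_x], fun i _ => by simp [flev_x]⟩⟩
  have hy : ∀ j, Sees a₀ ρ (qy a₀ j) := fun j => by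
    refine ⟨0, 0, fun L R => ⟨by simp [flev_y], fun i hi => ?_⟩⟩
    rw [flev_y]
    exact if_pos ⟨i, by simpa using hi, by simp⟩
  induction g using FreeGroup.induction_on with
  | C1 => simpa using hx.mul hx.inv
  | of j => simpa [qy] using hx.mul (hy j)
  | inv_of j h => exact h.inv
  | mul a b ha hb => exact ha.mul hb

theorem flev_mem (L R : ℕ) (j : α) : flev a₀ ρ L R (qy a₀ j) ∈ win P R (0 : ZMod L) := by
  rw [flev_y]
  exact ⟨rfl, fun q hq => by simp [hq]⟩

/-- The wreath product quotient as a stage. -/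
noncomputable def flevStg [Finite P] (L R : ℕ) [NeZero L] : Stg (FreeGroup.of a₀) (qy a₀) where
  H := RegularWreathProduct P (Multiplicative (ZMod L))
  π := flev a₀ ρ L R
  ι := ZMod L
  σ := Equiv.addRight 1
  I := win P R
  shift := fun u h => by
    have := conj_mem_win_iff (R := R) u (flev a₀ ρ L R (FreeGroup.of a₀)) h
    rwa [show (flev a₀ ρ L R (FreeGroup.of a₀)).right.toAdd = 1 by rw [flev_x]; rfl] at this
  norm := fun j u h => by
    have := conj_mem_win_iff (R := R) u (flev a₀ ρ L R (qy a₀ j)) h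
    rwa [(flev_mem a₀ ρ L R j).1, toAdd_one, add_zero] at this
  hit := fun u => ⟨(-u).val, fun j => by simpa using flev_mem a₀ ρ L R j⟩

theorem exists_next_stg [Group.ResiduallyFinite (FreeGroup α)] {β : ℝ}
    (S : Stg (FreeGroup.of a₀) (qy a₀)) (hS : S.tot < β * (Fintype.card S.ι : ℝ) ^ 2)
    (g : FreeGroup α) : ∃ S' : Stg (FreeGroup.of a₀) (qy a₀),
      S'.tot < β * (Fintype.card S'.ι : ℝ) ^ 2 ∧ S'.π.ker ≤ S.π.ker ∧ (g ∈ S'.π.ker → g = 1) := by
  by_cases hg : g = 1
  · exact ⟨S, hS, le_rfl, fun _ => hg⟩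
  obtain ⟨M, hM⟩ := Group.exists_finiteIndexNormalSubgroup_notMem g hg
  let ρ := QuotientGroup.mk' M.toSubgroup
  have : Finite (FreeGroup α ⧸ M.toSubgroup) := Subgroup.finite_quotient_of_finiteIndex
  obtain ⟨d, R, hR⟩ := flev_sees a₀ ρ g
  set c : ℝ := (4 * R + 1) * (Nat.card (FreeGroup α ⧸ M.toSubgroup) : ℝ) ^ (2 * R + 1) with hc
  have hc0 : 0 ≤ c := by positivity
  obtain ⟨K, hK⟩ := exists_nat_gt (S.tot * c / (β * (Fintype.card S.ι : ℝ) ^ 2 - S.tot))
  have hm : 0 < orderOf S.σ := orderOf_pos _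
  obtain ⟨L, hL⟩ : ∃ L, L = K * orderOf S.σ + 1 := ⟨_, rfl⟩
  have : NeZero L := ⟨by omega⟩
  let T := flevStg a₀ ρ L R
  refine ⟨S.prod T fun u (v : ZMod L) => ?_, ?_, fun a ha => ?_, fun h => ?_⟩
  · obtain ⟨s, hs⟩ := S.hit u
    refine ⟨s + orderOf S.σ * (K * (v.val + s)), fun j => ?_, fun j => ?_⟩
    · rw [pow_add, pow_mul, pow_orderOf_eq_one, one_pow, mul_one]
      exact hs j
    · have h0 : ((K * orderOf S.σ + 1 : ℕ) : ZMod L) = 0 := hL ▸ ZMod.natCast_self L
      have h1 : ((Equiv.addRight (1 : ZMod L)) ^ (s + orderOf S.σ * (K * (v.val + s)))) v = 0 := by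
        rw [addRight_pow]
        push_cast at h0 ⊢
        rw [ZMod.natCast_zmod_val]
        linear_combination (v + s) * h0
      have h2 := flev_mem a₀ ρ L R j
      rw [← h1] at h2
      exact h2
  · refine (Stg.tot_prod S T _).trans_lt ?_
    have h1 : T.tot ≤ L * (L + c) := by
      have : T.tot ≤ ∑ _u : ZMod L, ((L : ℝ) + c) :=
        Finset.sum_le_sum fun u _ => sum_card_win R u
      simpa [mul_add] using this
    have h2 : (Fintype.card (S.ι × ZMod L) : ℝ) = Fintype.card S.ι * L := by simp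
    change _ < β * (Fintype.card (S.ι × ZMod L) : ℝ) ^ 2
    rw [div_lt_iff₀ (by linarith)] at hK
    have h3 : (K : ℝ) + 1 ≤ L := by
      have : K + 1 ≤ L := by nlinarith
      exact_mod_cast this
    have h4 : (0 : ℝ) ≤ K := Nat.cast_nonneg K
    have h5 : S.tot * c < L * (β * (Fintype.card S.ι : ℝ) ^ 2 - S.tot) := by nlinarith
    have h6 := mul_lt_mul_of_pos_left h5 (show (0 : ℝ) < L by linarith)
    have h7 := mul_le_mul_of_nonneg_left h1 S.tot_nonneg
    rw [h2]
    nlinarith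
  · exact congrArg Prod.fst ha
  · have h1 : flev a₀ ρ L R g = 1 := congrArg Prod.snd h
    have h2 := (hR L R).2 0 (by simp)
    rw [h1] at h2
    exact absurd ((QuotientGroup.eq_one_iff g).1 h2.symm) hM

/-- A strictly decreasing residual chain of stages that starts with the whole group. -/
theorem exists_chain_stg [Group.ResiduallyFinite (FreeGroup α)] [Countable α] {β : ℝ}
    (hβ : 1 < β) : ∃ S : ℕ → Stg (FreeGroup.of a₀) (qy a₀),
      (∀ n, (S n).tot < β * (Fintype.card (S n).ι : ℝ) ^ 2) ∧ (S 0).π.ker = ⊤ ∧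
        (StrictAnti fun n => (S n).π.ker) ∧ ⨅ n, (S n).π.ker = ⊥ := by
  obtain ⟨e, he⟩ := exists_surjective_nat (FreeGroup α)
  have : Nonempty α := ⟨a₀⟩
  have key : ∀ (S : {S : Stg (FreeGroup.of a₀) (qy a₀) //
      S.tot < β * (Fintype.card S.ι : ℝ) ^ 2}) g, ∃ S' : Stg (FreeGroup.of a₀) (qy a₀),
      S'.tot < β * (Fintype.card S'.ι : ℝ) ^ 2 ∧ S'.π.ker < S.1.π.ker ∧
        (g ∈ S'.π.ker → g = 1) := by
    intro S g
    obtain ⟨S₁, h1, h2, h3⟩ := exists_next_stg a₀ S.1 S.2 g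
    obtain ⟨k, hk, hk1⟩ : ∃ k ∈ S₁.π.ker, k ≠ 1 := by
      by_contra h
      have h4 : Function.Injective S₁.π := (injective_iff_map_eq_one _).2 fun k hk =>
        by_contra fun h5 => h ⟨k, hk, h5⟩
      exact not_finite_iff_infinite.2 inferInstance (Finite.of_injective _ h4)
    obtain ⟨S₂, h4, h5, h6⟩ := exists_next_stg a₀ S₁ h1 k
    exact ⟨S₂, h4, lt_of_lt_of_le (lt_of_le_of_ne h5 fun h => hk1 (h6 (h ▸ hk))) h2,
      fun h => h3 (h5 h)⟩
  choose nx h1 h2 h3 using key
  let f : ℕ → {S : Stg (FreeGroup.of a₀) (qy a₀) // S.tot < β * (Fintype.card S.ι : ℝ) ^ 2} :=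
    fun n => n.rec ⟨Stg.triv _ _, Stg.triv_tot hβ⟩ fun n S => ⟨nx S (e n), h1 _ _⟩
  refine ⟨fun n => (f n).1, fun n => (f n).2, MonoidHom.ker_one,
    strictAnti_nat_of_succ_lt fun n => h2 (f n) (e n), ?_⟩
  rw [eq_bot_iff]
  intro g hg
  obtain ⟨n, rfl⟩ := he g
  exact h3 (f n) (e n) (Subgroup.mem_iInf.1 hg (n + 1))

end Pool.Agent.Lib.MP_75c153_gt.Ft
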