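import Pool.Agent.Lib.MP_570070_gt.An.AStar
import Pool.Agent.Lib.MP_570070_gt.An.NvWeak

/-! The Hodge star intertwines the heat flows (abstract form, any pair of degrees). -/

open MeasureTheory Filter Topology Set
open scoped InnerProductSpace
open Pool.Agent.Lib.MP_570070_gt.An

namespace Pool.Agent.Lib.MP_75c153_gt.Ft

variable {H : ℕ → Type} [∀ k, NormedAddCommGroup (H k)] [∀ k, InnerProductSpace ℝ (H k)]
  {D : ∀ k, H k → H (k + 1) → Prop} {k l : ℕ}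

/-- Two star operators and the formula of Stokes for forms of degrees k and l. -/
structure StarPair (D : ∀ k, H k → H (k + 1) → Prop) (V : H k ≃ₗᵢ[ℝ] H (l + 1))
    (V' : H (k + 1) ≃ₗᵢ[ℝ] H l) (s : ℝ) : Prop where
  sq : s * s = 1
  t : ∀ a, (∃ b, D k a b) ↔ ∃ b, D (l + 1) (V a) b
  t' : ∀ a, (∃ b, D (k + 1) a b) ↔ ∃ b, D l (V' a) b
  st : ∀ a b β x, D k a b → D l (V' β) x → ⟪b, β⟫_ℝ = s * ⟪V a, x⟫_ℝ

variable {V : H k ≃ₗᵢ[ℝ] H (l + 1)} {V' : H (k + 1) ≃ₗᵢ[ℝ] H l} {s : ℝ}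

theorem StarPair.symm (h : StarPair D V V' s) : StarPair D V'.symm V.symm s where
  sq := h.sq
  t a := by rw [h.t', V'.apply_symm_apply]
  t' a := by rw [h.t, V.apply_symm_apply]
  st a b β x h1 h2 := by
    have e := h.st (V.symm β) x (V'.symm a) b h2 (by rwa [V'.apply_symm_apply])
    rw [V.apply_symm_apply] at e
    rw [real_inner_comm x, e, ← mul_assoc, h.sq, one_mul, real_inner_comm]

/-- The codifferential of a test form. -/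
theorem StarPair.cod (h : StarPair D V V' s) {β : H (k + 1)} {x : H (l + 1)} (hx : D l (V' β) x) :
    WCod D k β (s • V.symm x) := fun a b hab => by
  rw [h.st a b β x hab hx, real_inner_smul_right, astar_l]

theorem StarPair.wcod_of_wd (h : StarPair D V V' s) {u : H k} {η : H (k + 1)} (hu : WD D k u η) :
    WCod D l (V u) (s • V' η) := fun a b hab => by
  obtain ⟨φ, rfl⟩ := V'.surjective a
  have e := hu φ _ ((h.t' φ).2 ⟨b, hab⟩) (h.cod hab)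
  rw [real_inner_smul_right, astar_l] at e
  rw [real_inner_smul_right, V'.inner_map_map, real_inner_comm η φ, ← e, ← mul_assoc, h.sq,
    one_mul, real_inner_comm]

theorem StarPair.wd_of_wcod [∀ k, CompleteSpace (H k)] (h : StarPair D V V' s)
    (dense : Dense {a : H k | ∃ b, D k a b}) {v : H (l + 1)} {ψ : H l} (hv : WCod D l v ψ) :
    WD D k (V.symm v) (s • V'.symm ψ) := fun φ χ hφ hχ => by
  obtain ⟨x, hx⟩ := (h.t' φ).1 hφ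
  rw [WCod.unique dense hχ (h.cod hx), real_inner_smul_right, V.symm.inner_map_map,
    real_inner_smul_left, astar_r, real_inner_comm x v, hv _ _ hx, real_inner_comm]

variable [∀ k, CompleteSpace (H k)]

theorem wd_top (dense : Dense {a : H k | ∃ b, D k a b}) (h0 : ∀ z : H (k + 1), z = 0) (v : H k) :
    WD D k v 0 := fun φ ψ _ hψ => by
  have h1 : WCod D k φ 0 := fun a b _ => by rw [h0 b, inner_zero_left, inner_zero_right]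
  rw [WCod.unique dense hψ h1, inner_zero_right, inner_zero_left]

theorem star_heat_zero {V : H 0 ≃ₗᵢ[ℝ] H (l + 1)} {V' : H (0 + 1) ≃ₗᵢ[ℝ] H l}
    (h : StarPair D V V' s) (dense : ∀ k, Dense {a : H k | ∃ b, D k a b})
    (h0 : ∀ z : H (l + 1 + 1), z = 0) {P : ℝ → H 0 →L[ℝ] H 0} {P' : ℝ → H (l + 1) →L[ℝ] H (l + 1)}
    (hP : IsHeat (dom D 0) P) (hP' : IsHeat (dom D (l + 1)) P') {t : ℝ} (ht : 0 ≤ t) (u : H 0) :
    P' t (V u) = V (P t u) := by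
  refine heat_equiv (isHeat₂_of_isHeat hP) (isHeat₂_of_isHeat hP') V
    (fun ξ => (WithLp.toLp 2 ((0 : H (l + 1 + 1)), (s • V' ξ.fst : H l)) : KK H (l + 1)))
    (fun ξ => (WithLp.toLp 2 ((s • V'.symm ξ.snd : H (0 + 1)), (0 : H 0)) : KK H 0)) ?_ ?_ ?_ ht u
  · intro ξ ξ'
    rw [WithLp.prod_inner_apply, WithLp.prod_inner_apply]
    change ⟪(0 : H (l + 1 + 1)), ξ'.fst⟫_ℝ + ⟪(s • V' ξ.fst : H l), ξ'.snd⟫_ℝ =
      ⟪ξ.fst, (s • V'.symm ξ'.snd : H (0 + 1))⟫_ℝ + ⟪(ξ.snd : H 0), (0 : H 0)⟫_ℝ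
    rw [inner_zero_left, inner_zero_right, real_inner_smul_left, real_inner_smul_right, astar_l,
      zero_add, add_zero]
  · intro v ξ hv
    exact (mem_domS D).mpr ⟨wd_top (dense _) h0 _, h.wcod_of_wd ((mem_domS D).mp hv).1⟩
  · intro v ξ hv
    exact (mem_domS D).mpr ⟨h.wd_of_wcod (dense 0) ((mem_domS D).mp hv).2, rfl⟩

theorem star_heat_succ {V₀ : H k ≃ₗᵢ[ℝ] H (l + 1 + 1)} {V₁ : H (k + 1) ≃ₗᵢ[ℝ] H (l + 1)}
    {V₂ : H (k + 1 + 1) ≃ₗᵢ[ℝ] H l} {s₀ s₁ : ℝ} (h₀ : StarPair D V₀ V₁ s₀)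
    (h₁ : StarPair D V₁ V₂ s₁) (dense : ∀ k, Dense {a : H k | ∃ b, D k a b})
    {P : ℝ → H (k + 1) →L[ℝ] H (k + 1)} {P' : ℝ → H (l + 1) →L[ℝ] H (l + 1)}
    (hP : IsHeat (dom D (k + 1)) P) (hP' : IsHeat (dom D (l + 1)) P') {t : ℝ} (ht : 0 ≤ t)
    (u : H (k + 1)) : P' t (V₁ u) = V₁ (P t u) := by
  refine heat_equiv (isHeat₂_of_isHeat hP) (isHeat₂_of_isHeat hP') V₁
    (fun ξ => (WithLp.toLp 2 ((s₀ • V₀ ξ.snd : H (l + 1 + 1)), (s₁ • V₂ ξ.fst : H l)) :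
      KK H (l + 1)))
    (fun ξ => (WithLp.toLp 2 ((s₁ • V₂.symm ξ.snd : H (k + 1 + 1)), (s₀ • V₀.symm ξ.fst : H k)) :
      KK H (k + 1))) ?_ ?_ ?_ ht u
  · intro ξ ξ'
    rw [WithLp.prod_inner_apply, WithLp.prod_inner_apply]
    change ⟪(s₀ • V₀ ξ.snd : H (l + 1 + 1)), ξ'.fst⟫_ℝ + ⟪(s₁ • V₂ ξ.fst : H l), ξ'.snd⟫_ℝ =
      ⟪ξ.fst, (s₁ • V₂.symm ξ'.snd : H (k + 1 + 1))⟫_ℝ +
        ⟪(ξ.snd : H k), (s₀ • V₀.symm ξ'.fst : H k)⟫_ℝ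
    rw [real_inner_smul_left, real_inner_smul_left, real_inner_smul_right, real_inner_smul_right,
      astar_l, astar_l, add_comm]
  · intro v ξ hv
    obtain ⟨h1, h2⟩ := (mem_domS D).mp hv
    exact (mem_domS D).mpr ⟨h₀.symm.wd_of_wcod (dense _) h2, h₁.wcod_of_wd h1⟩
  · intro v ξ hv
    obtain ⟨h1, h2⟩ := (mem_domS D).mp hv
    exact (mem_domS D).mpr ⟨h₁.wd_of_wcod (dense _) h2, h₀.symm.wcod_of_wd h1⟩

section

variable {U₀ : H 0 ≃ₗᵢ[ℝ] H 5} {U₁ : H 1 ≃ₗᵢ[ℝ] H 4} {U₂ : H 2 ≃ₗᵢ[ℝ] H 3} {U₃ : H 3 ≃ₗᵢ[ℝ] H 2}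
  {s₀ s₁ s₂ : ℝ}

/-- Dimension five. U₃ is the star on 3-forms (the inverse of U₂, which is not needed). -/
theorem star_heat5 (h₀ : StarPair (k := 0) (l := 4) D U₀ U₁ s₀)
    (h₁ : StarPair (k := 1) (l := 3) D U₁ U₂ s₁) (h₂ : StarPair (k := 2) (l := 2) D U₂ U₃ s₂)
    (dense : ∀ k, Dense {a : H k | ∃ b, D k a b}) (h6 : ∀ z : H 6, z = 0)
    {P : ∀ k, ℝ → H k →L[ℝ] H k} (hP : ∀ k, IsHeat (dom D k) (P k)) {t : ℝ} (ht : 0 ≤ t) :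
    (∀ u, P 5 t (U₀ u) = U₀ (P 0 t u)) ∧ (∀ u, P 4 t (U₁ u) = U₁ (P 1 t u)) ∧
      ∀ u, P 3 t (U₂ u) = U₂ (P 2 t u) :=
  ⟨star_heat_zero h₀ dense h6 (hP 0) (hP 5) ht,
    star_heat_succ (k := 0) (l := 3) h₀ h₁ dense (hP 1) (hP 4) ht,
    star_heat_succ (k := 1) (l := 2) h₁ h₂ dense (hP 2) (hP 3) ht⟩

/-- The heat flows exist. -/
theorem exists_heat5 (h₀ : StarPair (k := 0) (l := 4) D U₀ U₁ s₀)
    (h₁ : StarPair (k := 1) (l := 3) D U₁ U₂ s₁) (h₂ : StarPair (k := 2) (l := 2) D U₂ U₃ s₂)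
    (dense : ∀ k, Dense {a : H k | ∃ b, D k a b}) (h6 : ∀ k (z : H (k + 6)), z = 0) (k : ℕ) :
    ∃ P, IsHeat (dom D k) P := by
  refine exists_heat_of_cod dense (fun j φ hφ => ?_) k
  match j, φ, hφ with
  | 0, φ, hφ =>
    obtain ⟨x, hx⟩ := (h₀.t' φ).1 hφ
    exact ⟨_, h₀.cod hx⟩
  | 1, φ, hφ =>
    obtain ⟨x, hx⟩ := (h₁.t' φ).1 hφ
    exact ⟨_, h₁.cod hx⟩
  | 2, φ, hφ =>
    obtain ⟨x, hx⟩ := (h₂.t' φ).1 hφ
    exact ⟨_, h₂.cod hx⟩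
  | 3, φ, hφ =>
    obtain ⟨x, hx⟩ := (h₁.symm.t' φ).1 hφ
    exact ⟨_, h₁.symm.cod hx⟩
  | 4, φ, hφ =>
    obtain ⟨x, hx⟩ := (h₀.symm.t' φ).1 hφ
    exact ⟨_, h₀.symm.cod hx⟩
  | j + 5, φ, _ =>
    refine ⟨0, fun a b _ => ?_⟩
    rw [h6 j φ, inner_zero_right, inner_zero_right]

end

end Pool.Agent.Lib.MP_75c153_gt.Ft
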