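import Pool.Agent.Lib.MP_570070_gt.An.ATail1
import Pool.Agent.Lib.MP_570070_gt.An.AWeak
import Pool.Agent.Lib.MP_570070_gt.An.NvWeak

open MeasureTheory Filter Topology Set
open scoped InnerProductSpace
open Pool.Agent.Lib.MP_570070_gt.An

namespace Pool.Agent.Lib.MP_75c153_gt.Ft

section

variable {A K : Type} [NormedAddCommGroup A] [InnerProductSpace ℝ A]
  [NormedAddCommGroup K] [InnerProductSpace ℝ K] {Γ : Submodule ℝ (A × K)}
  {P : ℝ → A →L[ℝ] A}

/-- Lp.norm_sq. -/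
theorem eigen_nonneg {u : A} {ξ : K} {l : ℝ} (h : Lp Γ u ξ (l • u)) (hu : u ≠ 0) : 0 ≤ l := by
  have h1 := h.norm_sq
  rw [real_inner_smul_left, real_inner_self_eq_norm_sq] at h1
  have h2 : 0 < ‖u‖ ^ 2 := pow_pos (norm_pos_iff.2 hu) 2
  exact nonneg_of_mul_nonneg_left (h1 ▸ sq_nonneg _) h2

/-- IsHeat₂.eq_of_sol for t ↦ exp (-l t) • u. -/
theorem heat_eigen (hP : IsHeat₂ Γ P) {u : A} {ξ : K} {l : ℝ} (h : Lp Γ u ξ (l • u)) {t : ℝ}
    (ht : 0 < t) : P t u = Real.exp (-(l * t)) • u := by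
  have hd : ∀ s, HasDerivAt (fun r => Real.exp (-(l * r)) • u)
      (-(Real.exp (-(l * s)) • l • u)) s := fun s => by
    have h1 := (((hasDerivAt_id s).const_mul l).neg.exp).smul_const u
    refine h1.congr_deriv ?_
    simp only [id, mul_one, mul_neg, neg_smul, smul_smul, Pi.neg_apply]
  refine (hP.eq_of_sol (u := fun r => Real.exp (-(l * r)) • u) ?_ (fun s _ => ?_) ht).symm
  · simpa using (hd 0).continuousAt.tendsto.mono_left (nhdsWithin_le_nhds (s := Ioi 0))
  · refine ⟨Real.exp (-(l * s)) • ξ, _, ⟨Γ.smul_mem _ h.1, fun w ξ' hw => ?_⟩, hd s⟩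
    rw [real_inner_smul_left, real_inner_smul_left, h.2 w ξ' hw]

theorem za_le {S : Set A} {T : A →L[ℝ] A} {c : ℝ}
    (h : ∀ (m : ℕ) (e : Fin m → A), Orthonormal ℝ e → (∀ j, e j ∈ S) →
      ∑ j, ⟪T (e j), e j⟫_ℝ ≤ c) : trOn S T ≠ ⊤ :=
  ne_top_of_le_ne_top ENNReal.ofReal_ne_top (iSup_le fun m => iSup_le fun e => iSup_le fun he =>
    iSup_le fun hS => ENNReal.ofReal_le_ofReal (h m e he hS))

/-- For a finite orthonormal family f: ⟪T f, f⟫ = ∑ j, μ j ⟪e j, f⟫ ^ 2 (apply T to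
HilbertBasis.hasSum_repr) and bessel in the variable of the family; conversely finite subsets of
the basis (sum_le_tr, HasSum as a limit or supremum of finite sums). -/
theorem trOn_univ_basis {ι : Type} (e : HilbertBasis ι ℝ A) {T : A →L[ℝ] A} {μ : ι → ℝ} {s : ℝ}
    (hT : ∀ j, T (e j) = μ j • e j) (h0 : ∀ j, 0 ≤ μ j) (hs : HasSum μ s) :
    trOn univ T ≠ ⊤ ∧ (trOn univ T).toReal = s := by
  have h1 : ∀ f : A, HasSum (fun j => μ j * ⟪f, e j⟫_ℝ ^ 2) ⟪T f, f⟫_ℝ := fun f => by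
    have h2 := ((innerSL ℝ f).comp T).hasSum (e.hasSum_repr f)
    have h3 : ∀ j, ((innerSL ℝ f).comp T) (e.repr f j • e j) = μ j * ⟪f, e j⟫_ℝ ^ 2 := fun j => by
      rw [e.repr_apply_apply, map_smul, ContinuousLinearMap.comp_apply, hT, innerSL_apply_apply,
        real_inner_smul_right, real_inner_comm f, smul_eq_mul]
      ring
    simp only [h3] at h2
    rw [real_inner_comm]
    exact h2
  have h2 : ∀ (m : ℕ) (f : Fin m → A), Orthonormal ℝ f → (∀ j, f j ∈ (univ : Set A)) →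
      ∑ j, ⟪T (f j), f j⟫_ℝ ≤ s := fun m f hf _ => by
    refine hasSum_le (fun j => ?_) (hasSum_sum fun i _ => h1 (f i)) hs
    have h3 := bessel hf (e j)
    rw [e.orthonormal.1 j, one_pow] at h3
    rw [← Finset.mul_sum]
    exact mul_le_of_le_one_right (h0 j) h3
  refine ⟨za_le h2, le_antisymm (tr_le h2) (le_of_tendsto' hs fun F => ?_)⟩
  refine le_trans (le_of_eq ?_) (sum_le_tr (za_le h2)
    (e.orthonormal.comp (fun j : F => j.1) Subtype.val_injective) fun _ => trivial)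
  rw [← Finset.sum_coe_sort]
  refine Finset.sum_congr rfl fun j _ => ?_
  rw [Function.comp_apply, hT, real_inner_smul_left, real_inner_self_eq_norm_sq,
    e.orthonormal.1, one_pow, mul_one]

theorem za_key [CompleteSpace A] (hP : IsHeat₂ Γ P) {S : Submodule ℝ A} {ι : Type}
    [Fintype ι] (𝒯 : Tiling P S ι) {κ : Type} [Fintype κ] {w : κ → A} (hw : Orthonormal ℝ w)
    {t : ℝ} (ht : 0 < t) (hf : trOn (S : Set A) (P t) ≠ ⊤) :
    ∑ l, ⟪P t (w l), w l⟫_ℝ ≤ Fintype.card ι * (trOn (S : Set A) (P t)).toReal := by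
  classical
  choose z hz hwz using fun l => 𝒯.decomp (w l)
  obtain ⟨V, hV⟩ : ∃ V : Submodule ℝ A,
    V = Submodule.span ℝ (range fun x : κ × ι => z x.1 x.2) := ⟨_, rfl⟩
  have : FiniteDimensional ℝ V := by
    rw [hV]
    exact FiniteDimensional.span_of_finite ℝ (finite_range _)
  have hVS : V ≤ S := by
    rw [hV, Submodule.span_le]
    rintro _ ⟨x, rfl⟩
    exact hz _ _
  have hzV : ∀ l g, z l g ∈ V := fun l g => hV ▸ Submodule.subset_span ⟨(l, g), rfl⟩
  obtain ⟨b, hb, hbV, hbs⟩ := exists_onb V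
  have hbS : ∀ l, b l ∈ S := fun l => hVS (hbV l)
  have h2 := sum_le_tr hf hb hbS
  have hB := 𝒯.orthonormal hb hbS
  have h3 : ∀ l, w l = ∑ x : ι × Fin (Module.finrank ℝ V),
      ⟪𝒯.U x.1 (b x.2), w l⟫_ℝ • 𝒯.U x.1 (b x.2) := fun l => by
    have h4 : w l = ∑ x : ι × Fin (Module.finrank ℝ V),
        ⟪b x.2, z l x.1⟫_ℝ • 𝒯.U x.1 (b x.2) := by
      rw [Fintype.sum_prod_type, hwz l]
      refine Finset.sum_congr rfl fun g _ => ?_
      conv_lhs => rw [(hbs _ (hzV l g)).1]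
      simp only [map_sum, map_smul]
    have h5 : ∀ x : ι × Fin (Module.finrank ℝ V),
        ⟪𝒯.U x.1 (b x.2), w l⟫_ℝ = ⟪b x.2, z l x.1⟫_ℝ := fun x => by
      rw [h4]
      exact hB.inner_right_fintype (fun x => ⟪b x.2, z l x.1⟫_ℝ) x
    simp only [h5]
    exact h4
  have h6 := form_le hB hw h3 (hP.symm ht.le) fun u => by rw [hP.inner_self ht.le]; positivity
  simp only [𝒯.comm _ _ _ ht.le, LinearIsometryEquiv.inner_map_map, Fintype.sum_prod_type,
    Finset.sum_const, Finset.card_univ, nsmul_eq_mul] at h6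
  exact h6.trans (mul_le_mul_of_nonneg_left h2 (Nat.cast_nonneg _))

/-- The trace over the whole space is the number of tiles times the trace over one tile.
One inequality: Tiling.orthonormal and comm. The other: write each f i as ∑ g, U g (z i g)
(Tiling.decomp), take an orthonormal basis b of the span of all z i g (exists_onb) and use form_le
for the family U g (b l); compare atail1_key in An/ATail1.lean. -/
theorem tiling_tr_univ [CompleteSpace A] (hP : IsHeat₂ Γ P) {S : Submodule ℝ A} {ι : Type}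
    [Fintype ι] [Nonempty ι] (𝒯 : Tiling P S ι) {t : ℝ} (ht : 0 < t)
    (hf : trOn univ (P t) ≠ ⊤) : trOn (S : Set A) (P t) ≠ ⊤ ∧
      (trOn (S : Set A) (P t)).toReal = (trOn univ (P t)).toReal / Fintype.card ι := by
  have hc : (0 : ℝ) < Fintype.card ι := Nat.cast_pos.2 Fintype.card_pos
  have h1 : trOn (S : Set A) (P t) ≠ ⊤ := ne_top_of_le_ne_top hf (trOn_mono (subset_univ _) _)
  refine ⟨h1, le_antisymm (tr_le fun m e he hS => ?_) ?_⟩
  · have h2 := sum_le_tr hf (𝒯.orthonormal he hS) fun _ => trivial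
    simp only [𝒯.comm _ _ _ ht.le, LinearIsometryEquiv.inner_map_map, Fintype.sum_prod_type,
      Finset.sum_const, Finset.card_univ, nsmul_eq_mul] at h2
    exact (le_div_iff₀' hc).2 h2
  · exact (div_le_iff₀' hc).2 (tr_le fun m e he _ => za_key hP 𝒯 he ht h1)

end

section

variable {H : ℕ → Type} [∀ k, NormedAddCommGroup (H k)] [∀ k, InnerProductSpace ℝ (H k)]
  [∀ k, CompleteSpace (H k)] {D : ∀ k, H k → H (k + 1) → Prop}

omit [∀ k, CompleteSpace (H k)] in
theorem lp_of_isLap {k : ℕ} {u h : H k} (hu : IsLap (dom D k) u h) :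
    ∃ ξ, Lp (domS D k) u ξ h := by
  obtain ⟨η, ψ, h1, h2⟩ := hu
  refine ⟨WithLp.toLp 2 (η, ψ), h1, fun w ξ hw => ?_⟩
  rw [WithLp.prod_inner_apply]
  exact h2 w ξ.fst ξ.snd hw

/-- The domain contains the basis, so it is dense (HilbertBasis.dense_span); exists_isHeat₂,
isClosed_domS, isHeat_of_isHeat₂. -/
theorem exists_heat_of_basis {k : ℕ} {ι : Type} (e : HilbertBasis ι ℝ (H k)) {l : ι → ℝ}
    (h : ∀ j, IsLap (dom D k) (e j) (l j • e j)) : ∃ P, IsHeat (dom D k) P := by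
  have hd : Dense {u | ∃ ξ, (u, ξ) ∈ domS D k} := by
    have h1 : Submodule.span ℝ (range e) ≤ (domS D k).map (LinearMap.fst ℝ _ _) := by
      rw [Submodule.span_le]
      rintro _ ⟨j, rfl⟩
      obtain ⟨ξ, h1, -⟩ := lp_of_isLap (h j)
      exact ⟨_, h1, rfl⟩
    refine (Submodule.dense_iff_topologicalClosure_eq_top.2 e.dense_span).mono fun u hu => ?_
    obtain ⟨z, hz, rfl⟩ := h1 hu
    exact ⟨z.2, hz⟩
  obtain ⟨P, hP⟩ :=
    exists_isHeat₂ (A := H k) (K := KK H k) (Γ := domS D k) (isClosed_domS k) hd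
  exact ⟨P, isHeat_of_isHeat₂ hP⟩

/-- On the zero space every family is a heat flow: all vectors of H k are zero, and (0, 0, 0) is
in the domain. -/
theorem exists_heat_of_zero {k : ℕ} (h : ∀ z : H k, z = 0) : ∃ P, IsHeat (dom D k) P := by
  have hd : Dense {u | ∃ ξ, (u, ξ) ∈ domS D k} := fun u =>
    subset_closure ⟨0, h u ▸ (domS D k).zero_mem⟩
  obtain ⟨P, hP⟩ :=
    exists_isHeat₂ (A := H k) (K := KK H k) (Γ := domS D k) (isClosed_domS k) hd
  exact ⟨P, isHeat_of_isHeat₂ hP⟩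

end

/-- Forms of degree larger than the dimension vanish (ipAlt is zero because a map Fin k → Fin n
is not injective), so the test forms have norm zero and they are dense. -/
theorem l2_eq_zero {n k : ℕ} {X : RMfd n} (L : L2 X) (hk : n < k) (z : L.H k) : z = 0 := by
  have h1 : L.ι k '' {α | IsTest α} ⊆ {0} := by
    rintro _ ⟨α, hα, rfl⟩
    have h2 : ∀ x, ipAt α α x = 0 := fun x => by
      refine mul_eq_zero_of_right _ (Finset.sum_eq_zero fun I _ => Finset.sum_eq_zero fun J _ => ?_)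
      obtain ⟨a, b, hab, h3⟩ := Fintype.exists_ne_map_eq_of_card_lt J (by simpa using hk)
      rw [(α x).map_eq_zero_of_eq (fun l => bas (J l)) (congrArg bas h3) hab, mul_zero]
    have h3 := L.inner_eq k α α hα hα
    simp only [h2, integral_zero] at h3
    exact inner_self_eq_zero.1 h3
  exact closure_minimal h1 isClosed_singleton (L.dense k z)

end Pool.Agent.Lib.MP_75c153_gt.Ft
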