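import Pool.Agent.Lib.MP_570070_gt.An.Defs

/-! The Ray-Singer torsion of a closed Riemannian manifold, from the eigenvalues. -/

open MeasureTheory Filter Topology Set
open Pool.Agent.Lib.MP_570070_gt.An

namespace Pool.Agent.Lib.MP_75c153_gt.Ft

noncomputable section

/-- The Laplacian with form domain V has a Hilbert basis of eigenvectors with eigenvalues l j and
finite dimensional kernel; the sum of l j ^ (-s) over the non-zero eigenvalues converges for large
real part of s and continues to a meromorphic function ζ that is regular at 0; d = - ζ'(0) is the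
logarithm of the regularised determinant on the orthogonal complement of the kernel. -/
def IsLogDet {A B C : Type} [NormedAddCommGroup A] [InnerProductSpace ℝ A]
    [NormedAddCommGroup B] [InnerProductSpace ℝ B] [NormedAddCommGroup C] [InnerProductSpace ℝ C]
    (V : Set (A × B × C)) (d : ℝ) : Prop :=
  ∃ (ι : Type) (e : HilbertBasis ι ℝ A) (l : ι → ℝ), (∀ j, IsLap V (e j) (l j • e j)) ∧
    {j | l j = 0}.Finite ∧
    ∃ (s₀ : ℝ) (ζ : ℂ → ℂ), MeromorphicOn ζ univ ∧ AnalyticAt ℂ ζ 0 ∧
      (∀ s : ℂ, s₀ < s.re → HasSum (fun j : {j // l j ≠ 0} => ((l j : ℝ) : ℂ) ^ (-s)) (ζ s)) ∧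
      d = -(deriv ζ 0).re

/-- r is the Ray-Singer torsion of Y. -/
def IsRS {n : ℕ} (Y : RMfd n) (r : ℝ) : Prop :=
  ∃ (L : L2 Y) (d : ℕ → ℝ), (∀ p ≤ n, IsLogDet (dom L.D p) (d p)) ∧
    r = -(1 / 2) * ∑ p ∈ Finset.range (n + 1), (-1) ^ p * p * d p

end

end Pool.Agent.Lib.MP_75c153_gt.Ft
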