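import Pool.Agent.Lib.MP_75c153_gt.Ft.UOn

open MeasureTheory Filter Topology Set
open scoped ContDiff InnerProductSpace

namespace Pool.Agent.Lib.MP_75c153_gt.Ft

open Pool.Agent.Lib.MP_570070_gt.An

variable {c : Par} {P P' : Type} {Γ : Gl c P} {Γ' : Gl c P'} {k : ℕ}

theorem udens_ind {p p' : P} (h : p ≠ p') (q : P) :
    indicator {p} (1 : P → ℝ) q + indicator {p'} (1 : P → ℝ) q ≤ 1 := by
  by_cases h1 : q = p
  · have h2 : q ≠ p' := h1 ▸ h
    simp [h1, h1 ▸ h2]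
  · by_cases h2 : q = p'
    · simp [h2, h2 ▸ h1]
    · simp [h1, h2]

theorem udens_pair {p p' : P} (h : p ≠ p') (q : P) {y : Eu 5} (hy : y ∈ DR c) :
    wt Γ (indicator {p} 1) q y + wt Γ (indicator {p'} 1) q y ≤ 1 := by
  obtain ⟨e, -, he⟩ := exists_edge hy
  rw [(he Γ _ q).1, (he Γ _ q).1]
  have h1 := mul_le_mul_of_nonneg_left (udens_ind h q) (sub_nonneg.2 (kap_le_one e y))
  have h2 := mul_le_mul_of_nonneg_left (udens_ind h (Γ.σ e q)) (kap_nonneg e y)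
  linarith

theorem udens_cut_zero (n : ℕ) {p q : P} {y : Eu 5} (h : wt Γ (indicator {p} 1) q y ≤ 1 / 2) :
    cut Γ n p q y = 0 :=
  Real.smoothTransition.zero_of_nonpos (by
    linarith [mul_nonneg (Nat.cast_nonneg (α := ℝ) n) (sub_nonneg.2 h)])

theorem udens_sum_eq (S : Finset P) (n : ℕ) {p q : P} {y : Eu 5} (hy : y ∈ DR c) (hp : p ∈ S)
    (h : 1 / 2 < wt Γ (indicator {p} 1) q y) : ∑ p ∈ S, cut Γ n p q y = cut Γ n p q y :=
  Finset.sum_eq_single_of_mem p hp fun p' _ hne =>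
    udens_cut_zero n (by linarith [udens_pair (Γ := Γ) hne q hy])

theorem udens_cut_nonneg (n : ℕ) (p q : P) (y : Eu 5) : 0 ≤ cut Γ n p q y :=
  Real.smoothTransition.nonneg _

theorem udens_cut_le (n : ℕ) (p q : P) (y : Eu 5) : cut Γ n p q y ≤ 1 :=
  Real.smoothTransition.le_one _

theorem sum_cut_mem (S : Finset P) (n : ℕ) (q : P) {y : Eu 5} (hy : y ∈ DR c) :
    0 ≤ ∑ p ∈ S, cut Γ n p q y ∧ ∑ p ∈ S, cut Γ n p q y ≤ 1 := by
  refine ⟨Finset.sum_nonneg fun p _ => udens_cut_nonneg n p q y, ?_⟩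
  by_cases h : ∃ p ∈ S, 1 / 2 < wt Γ (indicator {p} 1) q y
  · obtain ⟨p, hp, h⟩ := h
    rw [udens_sum_eq S n hy hp h]
    exact udens_cut_le n p q y
  · rw [Finset.sum_eq_zero fun p hp => udens_cut_zero n (not_lt.1 fun h1 => h ⟨p, hp, h1⟩)]
    exact zero_le_one

theorem tendsto_sum_cut (S : Finset P) {q : P} {y : Eu 5} (hy : y ∈ DR c) (hq : q ∈ S)
    (hn : ∀ e, sc e y < 1 → Γ.σ e q ∈ S) (h : eta c y ≠ 1 / 2) :
    Tendsto (fun n => ∑ p ∈ S, cut Γ n p q y) atTop (𝓝 1) := by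
  obtain ⟨p, hp, h1⟩ : ∃ p ∈ S, 1 / 2 < wt Γ (indicator {p} 1) q y := by
    rcases h.lt_or_gt with h1 | h1
    · obtain ⟨e, he, he'⟩ := exists_edge hy
      have h2 : sc e y < 1 := by
        by_contra h3
        rw [kap_eq_zero (by linarith [not_lt.1 h3])] at he
        linarith
      refine ⟨Γ.σ e q, hn e h2, ?_⟩
      rw [(he' Γ _ q).1, indicator_of_notMem (notMem_singleton_iff.2 (Γ.ne e q).symm),
        indicator_of_mem (mem_singleton _), Pi.one_apply]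
      linarith
    · exact ⟨q, hq, by rwa [wt_single_self]⟩
  refine tendsto_const_nhds.congr' ?_
  filter_upwards [(tendsto_natCast_atTop_atTop.atTop_mul_const
    (sub_pos.2 h1)).eventually_ge_atTop 2] with n hn'
  rw [udens_sum_eq S n hy hp h1]
  exact (Real.smoothTransition.one_of_one_le (by linarith)).symm

/-- The squared distance is a finite sum of integrals of
eta (1 - ∑ cut) ^ 2 |Ω| ^ 2 lam ^ 2; dominated convergence, volume_mid and eta_eq_half. -/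
theorem UpL2.tendsto_cut (U : UpL2 Γ) {Ω : Fam P k} (h : IsT Γ Ω) (S : Finset P)
    (hS : ∀ p, (∃ y ∈ DR c, Ω p y ≠ 0) → p ∈ S) :
    Tendsto (fun n => ∑ p ∈ S, U.m (cut Γ n p) k (U.j k Ω)) atTop (𝓝 (U.j k Ω)) := by
  have hW : ∀ n, IsFn Γ fun q y => ∑ p ∈ S, cut Γ n p q y :=
    fun n => IsFn.sum S fun p _ => isFn_cut n p
  have hV : ∀ n, IsFn Γ fun q y => (1 - ∑ p ∈ S, cut Γ n p q y) ^ 2 :=
    fun n => ((IsFn.const 1).sub (hW n)).sq
  have hip := (h.isC_ip h).cont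
  have h1 : ∀ n, ‖U.j k Ω - ∑ p ∈ S, U.m (cut Γ n p) k (U.j k Ω)‖ ^ 2 =
      ∑ q ∈ S, ∫ y in DR c, wg c y * ((1 - ∑ p ∈ S, cut Γ n p q y) ^ 2 *
        ipUp c y (Ω q y) (Ω q y)) * vol c y := by
    intro n
    rw [← U.m_sum S fun p _ => isFn_cut n p, U.norm_sub_m_sq (hW n), U.m_j (hV n) h,
      U.inner_intF ((hV n).isT_smul h) h, intF_eq_sum S]
    · simp only [ipUp_smul_left]
    · rintro q ⟨y, hy, hne⟩
      refine hS q ⟨y, hy, fun h0 => hne ?_⟩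
      rw [h0, ipUp_zero_right]
  have hmid : ∀ᵐ y ∂(volume.restrict (DR c)), eta c y ≠ 1 / 2 ∧ y ∈ DR c := by
    rw [ae_restrict_iff' isOpen_DR.measurableSet]
    filter_upwards [compl_mem_ae_iff.2 (volume_mid (c := c))] with y hy hc
    exact ⟨fun h0 => hy ⟨hc, eta_eq_half hc h0⟩, hc⟩
  have h2 : ∀ q ∈ S, Tendsto (fun n => ∫ y in DR c, wg c y *
      ((1 - ∑ p ∈ S, cut Γ n p q y) ^ 2 * ipUp c y (Ω q y) (Ω q y)) * vol c y) atTop
      (𝓝 (∫ _ in DR c, (0 : ℝ))) := by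
    intro q hq
    refine tendsto_integral_of_dominated_convergence _
      (fun n => (integrableOn_eta
        (((hV n).smooth q).continuousOn.mul (hip q))).aestronglyMeasurable)
      (integrableOn_eta (hip q)) (fun n => ?_) ?_
    · filter_upwards [hmid] with y hy
      obtain ⟨h3, h4⟩ := sum_cut_mem (Γ := Γ) S n q hy.2
      have h5 := ipUp_self_nonneg (c := c) (y := y) (Ω q y)
      have h6 := wg_nonneg hy.2
      have h8 := (vol_pos hy.2).le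
      have h7 : (1 - ∑ p ∈ S, cut Γ n p q y) ^ 2 ≤ 1 := pow_le_one₀ (by linarith) (by linarith)
      rw [Real.norm_of_nonneg (by positivity)]
      exact mul_le_mul_of_nonneg_right
        (mul_le_mul_of_nonneg_left (mul_le_of_le_one_left h5 h7) h6) h8
    · filter_upwards [hmid] with y hy
      by_cases h0 : Ω q y = 0
      · simp only [h0, ipUp_zero_right, mul_zero, zero_mul, tendsto_const_nhds]
      · have h3 := tendsto_sum_cut (Γ := Γ) S hy.2 hq (fun e he => by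
          have hf := flip_flipPt hy.2 he
          refine hS _ ⟨_, hf.2.1, fun h4 => h0 ?_⟩
          rw [h.flip q e _ _ hf, h4]
          rfl) hy.1
        have h4 := ((((h3.const_sub 1).pow 2).mul_const (ipUp c y (Ω q y) (Ω q y))).const_mul
          (wg c y)).mul_const (vol c y)
        simpa using h4
  have h3 := tendsto_finsetSum S h2
  simp only [← h1, integral_zero, Finset.sum_const_zero] at h3
  have h4 := h3.sqrt
  simp only [Real.sqrt_sq (norm_nonneg _), Real.sqrt_zero] at h4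
  rw [tendsto_iff_norm_sub_tendsto_zero]
  simpa only [norm_sub_rev] using h4

theorem UpL2.total (U : UpL2 Γ) {z : U.H k} (h : ∀ p, ∀ w ∈ U.on k {p}, ⟪w, z⟫_ℝ = 0) :
    z = 0 := by
  refine U.ext_inner fun Ω hΩ => ?_
  have h1 := (U.tendsto_cut hΩ hΩ.fin.toFinset fun p hp => hΩ.fin.mem_toFinset.2 hp).inner
    (𝕜 := ℝ) (tendsto_const_nhds (x := z))
  have h2 : ∀ n, ⟪∑ p ∈ hΩ.fin.toFinset, U.m (cut Γ n p) k (U.j k Ω), z⟫_ℝ = 0 := fun n => by
    rw [sum_inner]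
    exact Finset.sum_eq_zero fun p _ => h p _ (U.m_cut_mem n p _)
  simp only [h2] at h1
  rw [inner_zero_right]
  exact tendsto_nhds_unique h1 tendsto_const_nhds

theorem udens_one (U : UpL2 Γ) {w : Fn P} (hw : IsFn Γ w)
    (h0 : ∀ p, ∀ y ∈ DR c, 0 ≤ w p y) (h1 : ∀ p, ∀ y ∈ DR c, w p y ≤ 1) (n : ℕ) (p : P)
    (z : U.H k) :
    ⟪U.m (cut Γ n p) k (U.m w k z), z⟫_ℝ ≤ ‖(U.onS k {p}).starProjection z‖ ^ 2 := by
  have hc := (isFn_cut (Γ := Γ) n p).mul hw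
  have h2 : U.m (cut Γ n p) k (U.m w k z) ∈ U.onS k {p} := by
    rw [← SetLike.mem_coe, U.coe_onS]
    exact U.m_cut_mem n p _
  have h3 : ‖U.m (cut Γ n p) k (U.m w k z)‖ ^ 2 ≤ ⟪U.m (cut Γ n p) k (U.m w k z), z⟫_ℝ := by
    rw [← U.m_mul (isFn_cut n p) hw, U.norm_m_sq hc]
    refine (U.m_le hc.sq hc (t := 1) (fun q y hy => ?_) z).trans (one_mul _).le
    have h4 := mul_nonneg (udens_cut_nonneg (Γ := Γ) n p q y) (h0 q y hy)
    have h5 := mul_le_one₀ (udens_cut_le (Γ := Γ) n p q y) (h0 q y hy) (h1 q y hy)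
    nlinarith
  generalize U.m (cut Γ n p) k (U.m w k z) = x at h2 h3 ⊢
  have h4 : ⟪x, z⟫_ℝ = ⟪x, (U.onS k {p}).starProjection z⟫_ℝ := by
    rw [← Submodule.inner_starProjection_left_eq_right,
      Submodule.starProjection_eq_self_iff.2 h2]
  have h5 := real_inner_le_norm x ((U.onS k {p}).starProjection z)
  nlinarith [sq_nonneg (‖x‖ - ‖(U.onS k {p}).starProjection z‖)]

/-- For a test form z: w z is the limit of the sums of x p = cut n p w z ∈ on {p}, and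
⟨x, z⟩ = ⟨x, Q z⟩ ≤ |x| |Q z|, |x| ^ 2 ≤ ⟨x, z⟩ because 0 ≤ cut w ≤ 1. -/
theorem UpL2.m_le_proj (U : UpL2 Γ) {w : Fn P} (hw : IsFn Γ w)
    (h0 : ∀ p, ∀ y ∈ DR c, 0 ≤ w p y) (h1 : ∀ p, ∀ y ∈ DR c, w p y ≤ 1) (S : Finset P)
    (hS : ∀ p, (∃ y ∈ DR c, w p y ≠ 0) → p ∈ S) (z : U.H k) :
    ⟪U.m w k z, z⟫_ℝ ≤ ∑ p ∈ S, ‖(U.onS k {p}).starProjection z‖ ^ 2 := by
  refine U.ind (q := fun z => ⟪U.m w k z, z⟫_ℝ ≤ ∑ p ∈ S, ‖(U.onS k {p}).starProjection z‖ ^ 2)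
    (isClosed_le (by fun_prop) (by fun_prop)) (fun Ω hΩ => ?_) z
  have h2 := (U.tendsto_cut (hw.isT_smul hΩ) S fun p ⟨y, hy, hne⟩ =>
    hS p ⟨y, hy, left_ne_zero_of_smul hne⟩).inner (𝕜 := ℝ) (tendsto_const_nhds (x := U.j k Ω))
  rw [← U.m_j hw hΩ] at h2
  refine le_of_tendsto' h2 fun n => ?_
  rw [sum_inner]
  exact Finset.sum_le_sum fun p _ => udens_one U hw h0 h1 n p _

end Pool.Agent.Lib.MP_75c153_gt.Ft
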