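import Pool.Agent.Lib.MP_75c153_gt.Ft.VC

open MeasureTheory Filter Topology Set
open scoped ContDiff
open Pool.Agent.Lib.MP_570070_gt.An (Eu bas)

namespace Pool.Agent.Lib.MP_75c153_gt.Ft

variable {n : ℕ}

/-- A smooth splitting of a compact set along two open sets. K minus U₂ and K minus U₁ are
disjoint compact sets; take r smooth with values in [0, 1], equal to one near the first and zero
near the second (exists_contMDiff_zero_one_nhdsSet type lemmas, or thickenings and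
exists_contMDiff_zero_one / exists_smooth_zero_one_of_isClosed),
K₁ = K ∩ tsupport r, K₂ = K ∩ tsupport (1 - r). -/
theorem exists_split {K U₁ U₂ : Set (Eu n)} (hK : IsCompact K) (h₁ : IsOpen U₁) (h₂ : IsOpen U₂)
    (hU : K ⊆ U₁ ∪ U₂) : ∃ (r : Eu n → ℝ) (K₁ K₂ : Set (Eu n)) (M : ℝ), ContDiff ℝ ∞ r ∧
      (∀ y, 0 ≤ r y ∧ r y ≤ 1) ∧ IsCompact K₁ ∧ IsCompact K₂ ∧ K₁ ⊆ U₁ ∧ K₂ ⊆ U₂ ∧ 0 ≤ M ∧
      ∀ y ∈ K, (r y ≠ 0 → y ∈ K₁) ∧ (r y ≠ 1 → y ∈ K₂) ∧
        (∀ i, pd i r y ≠ 0 → y ∈ K₁ ∩ K₂) ∧ ∑ i, pd i r y ^ 2 ≤ M := by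
  obtain ⟨f, h0, h1, hf⟩ := exists_contMDiffMap_zero_one_nhds_of_isClosed (n := ⊤)
    (modelWithCornersSelf ℝ (Eu n)) (hK.diff h₁).isClosed (hK.diff h₂).isClosed
    (disjoint_left.2 fun y hy hy' => (hU hy.1).elim hy.2 hy'.2)
  have hr : ContDiff ℝ ∞ f := f.contMDiff.contDiff
  rw [eventually_nhdsSet_iff_forall] at h0 h1
  have hc : Continuous fun y => ∑ i, pd i f y ^ 2 :=
    continuous_finsetSum _ fun i _ => (contDiff_pd i hr).continuous.pow 2
  obtain ⟨M, hM⟩ := hK.exists_bound_of_continuousOn hc.continuousOn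
  have hp : ∀ (a : ℝ) (i : Fin n) (y : Eu n), pd i f y ≠ 0 → ¬∀ᶠ z in 𝓝 y, f z = a :=
    fun a i y hy he => hy ((pd_congr i (G := fun _ => a) he).trans (pd_const i a y))
  refine ⟨f, K \ {y | ∀ᶠ z in 𝓝 y, f z = 0}, K \ {y | ∀ᶠ z in 𝓝 y, f z = 1}, |M|, hr, hf,
    hK.diff isOpen_setOfPred_eventually_nhds, hK.diff isOpen_setOfPred_eventually_nhds,
    fun y hy => by_contra fun h => hy.2 (h0 y ⟨hy.1, h⟩),
    fun y hy => by_contra fun h => hy.2 (h1 y ⟨hy.1, h⟩), abs_nonneg M, fun y hy =>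
    ⟨fun h => ⟨hy, fun he => h (Eventually.self_of_nhds (p := fun z => f z = 0) he)⟩,
      fun h => ⟨hy, fun he => h (Eventually.self_of_nhds (p := fun z => f z = 1) he)⟩,
      fun i h => ⟨⟨hy, hp 0 i y h⟩, hy, hp 1 i y h⟩, ?_⟩⟩
  exact (le_abs_self _).trans ((hM y hy).trans (le_abs_self M))

/-- A bump of mass one in a non-empty open set (ContDiffBump.normed). -/
theorem exists_bump {U : Set (Eu n)} (hU : IsOpen U) (hne : U.Nonempty) :
    ∃ (K : Set (Eu n)) (B : Eu n → ℝ), IsCompact K ∧ K ⊆ U ∧ Sm K B ∧ (∀ y, 0 ≤ B y) ∧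
      ∫ y, B y = 1 := by
  obtain ⟨x, hx⟩ := hne
  obtain ⟨ε, hε, hb⟩ := Metric.nhds_basis_closedBall.mem_iff.1 (hU.mem_nhds hx)
  let f : ContDiffBump x := ⟨ε / 2, ε, half_pos hε, half_lt_self hε⟩
  refine ⟨Metric.closedBall x ε, f.normed volume, isCompact_closedBall x ε, hb,
    ⟨f.contDiff_normed, fun y hy => Metric.ball_subset_closedBall ?_⟩, f.nonneg_normed,
    f.integral_normed⟩
  exact f.support_normed_eq (μ := volume) ▸ Function.mem_support.2 hy

/-- A cut-off function: one near K, support in a compact subset of U. -/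
theorem exists_cutoff {K U : Set (Eu n)} (hK : IsCompact K) (hU : IsOpen U) (h : K ⊆ U) :
    ∃ (K' : Set (Eu n)) (ζ : Eu n → ℝ), IsCompact K' ∧ K' ⊆ U ∧ Sm K' ζ ∧
      (∀ y, 0 ≤ ζ y ∧ ζ y ≤ 1) ∧ ∀ y ∈ K, ∀ᶠ z in 𝓝 y, ζ z = 1 := by
  obtain ⟨L, hL, hKL, hLU⟩ := exists_compact_between hK hU h
  obtain ⟨f, h1, h0, hf⟩ := exists_contMDiffMap_one_nhds_of_subset_interior (n := ⊤)
    (modelWithCornersSelf ℝ (Eu n)) hK.isClosed hKL
  exact ⟨L, f, hL, hLU, ⟨f.contMDiff.contDiff, fun y hy => by_contra fun h => hy (h0 y h)⟩, hf,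
    eventually_nhdsSet_iff_forall.1 h1⟩

/-- An open box around a point of an open set. -/
theorem exists_box {T : Set (Eu n)} (hT : IsOpen T) {z : Eu n} (hz : z ∈ T) :
    ∃ lo hi : Eu n, (∀ i, lo i < hi i) ∧ Icc lo hi ⊆ T ∧ z ∈ interior (Icc lo hi) := by
  obtain ⟨ε, hε, hb⟩ := Metric.nhds_basis_closedBall.mem_iff.1 (hT.mem_nhds hz)
  refine ⟨fun i => z i - ε, fun i => z i + ε, fun i => by linarith, fun y hy => hb ?_,
    mem_interior_iff_mem_nhds.2 (pi_Icc_mem_nhds (fun i => by linarith) fun i => by linarith)⟩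
  refine (dist_pi_le_iff hε.le).2 fun i => ?_
  have h1 : z i - ε ≤ y i := hy.1 i
  have h2 : y i ≤ z i + ε := hy.2 i
  rw [Real.dist_eq, abs_le]
  constructor <;> linarith

/-- A box around a compact set. -/
theorem exists_big_box {K : Set (Eu n)} (hK : IsCompact K) (R₀ : ℝ) :
    ∃ R : ℝ, 0 < R ∧ R₀ ≤ R ∧ K ⊆ Icc (fun _ => -R) fun _ => R := by
  obtain ⟨r, hr⟩ := hK.isBounded.exists_norm_le
  refine ⟨max (max r R₀) 1, zero_lt_one.trans_le (le_max_right _ _),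
    (le_max_right _ _).trans (le_max_left _ _), fun y hy => ?_⟩
  have h : ∀ i, |y i| ≤ max (max r R₀) 1 := fun i =>
    (norm_le_pi_norm y i).trans ((hr y hy).trans ((le_max_left _ _).trans (le_max_left _ _)))
  exact ⟨fun i => (abs_le.1 (h i)).1, fun i => (abs_le.1 (h i)).2⟩

/-- The fundamental lemma (IsOpen.ae_eq_zero_of_integral_contDiff_smul_eq_zero or a direct
argument with exists_bump). -/
theorem eq_zero_of_integral {U : Set (Eu n)} (hU : IsOpen U) {G : Eu n → ℝ}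
    (hG : ContinuousOn G U)
    (h : ∀ (K : Set (Eu n)) (f : Eu n → ℝ), IsCompact K → K ⊆ U → Sm K f →
      ∫ y in U, f y * G y = 0) {y : Eu n} (hy : y ∈ U) : G y = 0 := by
  have h1 := hU.ae_eq_zero_of_integral_contDiff_smul_eq_zero (μ := volume)
    (hG.locallyIntegrableOn hU.measurableSet) fun g hg hc hs => by
      rw [← setIntegral_eq_integral_of_forall_compl_eq_zero (s := U) fun x hx => by
        rw [image_eq_zero_of_notMem_tsupport fun hx' => hx (hs hx'), zero_smul]]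
      exact h (tsupport g) g hc hs ⟨hg, fun x hx => subset_tsupport g hx⟩
  exact Measure.eqOn_open_of_ae_eq (μ := volume) (g := fun _ => 0)
    ((ae_restrict_iff' hU.measurableSet).2 h1) hU hG continuousOn_const hy

end Pool.Agent.Lib.MP_75c153_gt.Ft
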