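import Pool.Agent.Lib.MP_75c153_gt.Ft.Ext
import Pool.Agent.Lib.MP_75c153_gt.Ft.VS

/-! Splitting of a form of a piece along the two charts. -/

open MeasureTheory Filter Topology Set
open scoped ContDiff InnerProductSpace

namespace Pool.Agent.Lib.MP_75c153_gt.Ft

open Pool.Agent.Lib.MP_570070_gt.An

variable {c : Par} {P : Type} {Γ : Gl c P} {k : ℕ} {b : Bool} {K S : Set (Eu 5)} {p₀ : P}
  {Ω : Fam P k}

/-- The part of the domain where all collar coordinates are at least a. -/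
def Ia (c : Par) (a : ℝ) : Set (Eu 5) := {y | y ∈ DR c ∧ ∀ e : Ed c, a ≤ sc e y}

/-- A part of the collar e. -/
def Ic (e : Ed c) (a : ℝ) : Set (Eu 5) := {y | y ∈ DR c ∧ |sc e y| ≤ a}

/-- A compact subset of the piece, seen in the two charts. -/
structure Cyl (c : Par) (S : Set (Eu 5)) : Prop where
  sub : S ⊆ DR c
  inv : ∀ y ∈ S, ∀ y', Same c y y' → y' ∈ S
  cpt : IsCompact {y | y ∈ S ∧ zsq y ≤ 3}

/-- isCompact_core. -/
theorem cyl_Ia {a : ℝ} (ha : -1 < a) : Cyl c (Ia c a) where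
  sub _ hy := hy.1
  inv _ hy _ h := ⟨h.2.1, fun e => by rw [h.sc_eq e]; exact hy.2 e⟩
  cpt := by
    have h := isCompact_core (c := c) ha (R := 3) (by norm_num)
    simpa only [Ia, mem_ofPred_eq, and_assoc] using h

/-- A closed subset of the compact set of isCompact_core (-a) (sc_disj for the other collars). -/
theorem cyl_Ic (e : Ed c) {a : ℝ} (ha : a < 1) : Cyl c (Ic e a) where
  sub _ hy := hy.1
  inv _ hy _ h := ⟨h.2.1, by rw [h.sc_eq e]; exact hy.2⟩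
  cpt := by
    have h := isCompact_core (c := c) (a := -a) (by linarith) (R := 3) (by norm_num)
    have h1 := ((contDiffOn_sc e).continuousOn.mono fun y (hy : y ∈ {y : Eu 5 | y ∈ DR c ∧
      (∀ e : Ed c, -a ≤ sc e y) ∧ zsq y ≤ 3}) => hy.1).preimage_isClosed_of_isClosed h.isClosed
      (isClosed_Iic (a := a))
    have h2 : {y | y ∈ Ic e a ∧ zsq y ≤ 3} = {y : Eu 5 | y ∈ DR c ∧
        (∀ e : Ed c, -a ≤ sc e y) ∧ zsq y ≤ 3} ∩ sc e ⁻¹' Iic a := by
      ext y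
      constructor
      · rintro ⟨⟨h3, h4⟩, h5⟩
        have h6 := abs_le.1 h4
        refine ⟨⟨h3, fun e' => ?_, h5⟩, h6.2⟩
        rcases eq_or_ne e e' with rfl | hne
        · exact h6.1
        · have := sc_disj h3 hne (by linarith [h6.2])
          linarith [h6.1, h6.2]
      · rintro ⟨⟨h3, h4, h5⟩, h6⟩
        exact ⟨⟨h3, abs_le.2 ⟨h4 e, h6⟩⟩, h5⟩
    rw [h2]
    exact h.of_isClosed_subset h1 inter_subset_left

/-- The part of a compact set in one chart is compact. -/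
theorem isCompact_inter_DRb (hK : IsCompact K) (h : K ⊆ DR c) (b : Bool) :
    IsCompact (K ∩ DRb c b) := by
  refine hK.of_isClosed_subset ?_ inter_subset_left
  have h1 := hK.isClosed.inter (isOpen_DRb (c := c) (!b)).isClosed_compl
  convert h1 using 1
  ext y
  refine and_congr_right fun hy => ⟨fun h2 h3 => ?_, fun h2 => ⟨h hy, ?_⟩⟩
  · have := h2.2.symm.trans h3.2
    simp at this
  · by_contra h3
    exact h2 ⟨h hy, Bool.eq_not_iff.2 h3⟩

/-- The compact part in the chart b. -/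
def Kb (c : Par) (S : Set (Eu 5)) (b : Bool) : Set (Eu 5) := {y | y ∈ S ∧ zsq y ≤ 3} ∩ DRb c b

theorem Cyl.isK (h : Cyl c S) (b : Bool) : IsK c b (Kb c S b) :=
  ⟨isCompact_inter_DRb h.cpt (fun _ hy => h.sub hy.1) b, inter_subset_right⟩

/-- Same.refl or flip_flipPt with sc_disj. -/
theorem Lcl.lk (h : Lcl Γ p₀ Ω) : LK Γ p₀ (Ia c (-1 / 2)) Ω := fun p y hy h1 => by
  rcases h p y hy h1 with ⟨h2, h3⟩ | ⟨e, h2, h3⟩
  · exact ⟨none, y, ⟨hy, h3⟩, Link.refl hy, h2⟩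
  · have h4 : Flip e y (flipPt e y) := flip_flipPt hy (by linarith)
    refine ⟨some e, flipPt e y, ⟨h4.2.1, fun e' => ?_⟩, h4, h2⟩
    rcases eq_or_ne e e' with rfl | hne
    · rw [h4.sc_eq]
      linarith
    · have := sc_disj h4.2.1 hne (by linarith [h4.symm.sc_lt])
      linarith

/-- The part of a form in the chart b. -/
noncomputable def hf (Γ : Gl c P) (p₀ : P) (b : Bool) (Ω : Fam P k) : Fam P k :=
  xt Γ p₀ b fun y => rho y • Ω p₀ y

/-- LK.self, zsq_lt_of_rho_ne. -/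
theorem Cyl.isQ (h : Cyl c S) (hT : IsT Γ Ω) (hL : LK Γ p₀ S Ω) (b : Bool) :
    IsQ c b (Kb c S b) fun y => rho y • Ω p₀ y where
  isK := h.isK b
  smooth := (contDiffOn_rho.smul (hT.smooth p₀)).mono (DRb_subset b)
  supp y hy h1 := by
    obtain ⟨y', h2, h3⟩ := hL.self hy.1 (right_ne_zero_of_smul h1)
    exact ⟨⟨h.inv y' h2 y h3.symm, (zsq_lt_of_rho_ne (left_ne_zero_of_smul h1)).le⟩, hy⟩

theorem split_hf_link (hT : IsT Γ Ω) {p : P} {y y' : Eu 5} {o : Option (Ed c)} (h : Link o y y')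
    (hb : cb y' = b) (hp : Γ.go o p = p₀) : hf Γ p₀ b Ω p y = rho y' • Ω p y := by
  rw [hf, xt_link h hb hp, hT.link p h, hp]
  rfl

theorem split_hf_zero {p : P} {y : Eu 5}
    (h : ¬ ∃ o y', Link o y y' ∧ cb y' = b ∧ Γ.go o p = p₀) : hf Γ p₀ b Ω p y = 0 := by
  by_contra h1
  obtain ⟨o, y', h2, h3, h4, -⟩ := xt_ne h1
  exact h ⟨o, y', h2, h3, h4⟩

theorem split_hf_add (hT : IsT Γ Ω) {p : P} {y y' : Eu 5} {o : Option (Ed c)} (h : Link o y y')
    (hp : Γ.go o p = p₀) : Ω p y = hf Γ p₀ (cb y') Ω p y + hf Γ p₀ (!cb y') Ω p y := by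
  rw [split_hf_link hT h rfl hp]
  by_cases h1 : ∃ o' y'', Link o' y y'' ∧ cb y'' = (!cb y') ∧ Γ.go o' p = p₀
  · obtain ⟨o', y'', h2, h3, h4⟩ := h1
    obtain rfl := h.eq_of_go h2 (hp.trans h4.symm)
    rw [split_hf_link hT h2 h3 h4, ← add_smul, add_comm,
      (h.same h2).rho_add (by rw [h3]; simp), one_smul]
  · rw [split_hf_zero h1, add_zero, rho_eq_one, one_smul]
    by_contra h2
    obtain ⟨y'', h3, h4⟩ := exists_same h.mem' (show 1 / 9 < zsq y' by linarith [not_le.1 h2])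
    exact h1 ⟨o, y'', h.same_right h3, h4, hp⟩

/-- If Link o y y' with go o p = p₀ and cb y' = b then hf b Ω p y = rho y' • Ω p y (xt_link,
IsT.link). If Ω p y ≠ 0 there is such a y'; either it has a partner in the other chart
(Same.rho_add) or zsq y' < 1 / 4 (same_other) and rho y' = 1. -/
theorem hf_add (hT : IsT Γ Ω) (hL : LK Γ p₀ S Ω) (p : P) {y : Eu 5} (hy : y ∈ DR c) :
    Ω p y = hf Γ p₀ true Ω p y + hf Γ p₀ false Ω p y := by
  by_cases h : ∃ o y', Link o y y' ∧ Γ.go o p = p₀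
  · obtain ⟨o, y', h1, h2⟩ := h
    have h3 := split_hf_add hT h1 h2
    cases hb : cb y'
    · rw [hb] at h3
      exact h3.trans (add_comm _ _)
    · rw [hb] at h3
      exact h3
  · rw [split_hf_zero fun ⟨o, y', h1, _, h2⟩ => h ⟨o, y', h1, h2⟩,
      split_hf_zero fun ⟨o, y', h1, _, h2⟩ => h ⟨o, y', h1, h2⟩, add_zero]
    by_contra h1
    obtain ⟨o, y', -, h2, h3⟩ := hL p y hy h1
    exact h ⟨o, y', h2, h3⟩

theorem UpL2.j_hf (U : UpL2 Γ) (h : Cyl c S) (hT : IsT Γ Ω) (hL : LK Γ p₀ S Ω) :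
    U.j k Ω = U.j k (hf Γ p₀ true Ω) + U.j k (hf Γ p₀ false Ω) := by
  rw [hf, hf, ← U.j_add ((h.isQ hT hL true).isT p₀) ((h.isQ hT hL false).isT p₀)]
  exact U.j_congr (((h.isQ hT hL true).isT p₀).add ((h.isQ hT hL false).isT p₀))
    fun p y hy => hf_add hT hL p hy

theorem split_int (hT : IsT Γ Ω) {w u : Eu 5 → ℝ} (h : IsQ c b K fun y => w y • Ω p₀ y)
    (hw : ContinuousOn w (DRb c b)) (hu : ContinuousOn u (DRb c b)) :
    IntegrableOn (fun y => ipUp c y (w y • Ω p₀ y) (u y • Ω p₀ y) * vol c y) (DRb c b) := by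
  refine integrableOn_of_supp (isOpen_DRb b) ?_ h.isK.cpt h.isK.sub fun y hy h1 =>
    h.supp y hy fun h2 => h1 ?_
  · simp only [ipUp_smul_left, ipUp_smul_right]
    exact (hu.mul (hw.mul ((continuousOn_ipUp (hT.smooth p₀).continuousOn
      (hT.smooth p₀).continuousOn).mono (DRb_subset b)))).mul
      (contDiffOn_vol.continuousOn.mono (DRb_subset b))
  · rw [show w y • Ω p₀ y = 0 from h2, ipUp_zero_left, zero_mul]

/-- For 0 ≤ w ≤ 1 and A = xt (w • Ω p₀): the squared norm of A is the integral of w ^ 2 |Ω| ^ 2,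
at most the integral of w |Ω| ^ 2, which is ⟪A, Ω⟫ (inner_xt, norm_xt, integrableOn_of_supp). -/
theorem UpL2.norm_xt_le (U : UpL2 Γ) (hT : IsT Γ Ω) {w : Eu 5 → ℝ}
    (h : IsQ c b K fun y => w y • Ω p₀ y) (hw : ContinuousOn w (DRb c b))
    (h01 : ∀ y ∈ DRb c b, 0 ≤ w y ∧ w y ≤ 1) :
    ‖U.j k (xt Γ p₀ b fun y => w y • Ω p₀ y)‖ ≤ ‖U.j k Ω‖ := by
  have h1 := U.norm_xt (p₀ := p₀) h
  have h2 := U.inner_xt (p₀ := p₀) h hT
  have h3 := split_int hT h hw hw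
  have h4 := split_int (u := fun _ => 1) hT h hw continuousOn_const
  simp only [one_smul] at h4
  have h5 := setIntegral_mono_on h3 h4 (isOpen_DRb b).measurableSet fun y hy => by
    rw [ipUp_smul_left, ipUp_smul_right, ipUp_smul_left]
    refine mul_le_mul_of_nonneg_right (mul_le_mul_of_nonneg_left ?_ (h01 y hy).1)
      (vol_pos hy.1).le
    exact mul_le_of_le_one_left (ipUp_self_nonneg _) (h01 y hy).2
  rw [← h1, ← h2] at h5
  have h6 := h5.trans (real_inner_le_norm _ _)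
  rcases (norm_nonneg (U.j k (xt Γ p₀ b fun y => w y • Ω p₀ y))).eq_or_lt with h7 | h7
  · rw [← h7]
    exact norm_nonneg _
  · rw [sq] at h6
    exact le_of_mul_le_mul_left h6 h7

theorem UpL2.norm_hf_le (U : UpL2 Γ) (h : Cyl c S) (hT : IsT Γ Ω) (hL : LK Γ p₀ S Ω) (b : Bool) :
    ‖U.j k (hf Γ p₀ b Ω)‖ ≤ ‖U.j k Ω‖ :=
  U.norm_xt_le hT (h.isQ hT hL b) (contDiffOn_rho.continuousOn.mono (DRb_subset b))
    fun y _ => ⟨rho_nonneg y, rho_le_one y⟩

/-- exists_cutoff gives w = 1 on K; norm_xt_le and norm_xt. -/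
theorem UpL2.chart_le (U : UpL2 Γ) (hK : IsK c b K) (hT : IsT Γ Ω) (p₀ : P) :
    ∫ y in K, ipUp c y (Ω p₀ y) (Ω p₀ y) * vol c y ≤ ‖U.j k Ω‖ ^ 2 := by
  obtain ⟨K', ζ, h1, h2, h3, h4, h5⟩ := exists_cutoff hK.cpt (isOpen_DRb b) hK.sub
  have hQ : IsQ c b K' fun y => ζ y • Ω p₀ y :=
    ⟨⟨h1, h2⟩, h3.1.contDiffOn.smul ((hT.smooth p₀).mono (DRb_subset b)),
      fun y _ h6 => h3.2 y (left_ne_zero_of_smul h6)⟩
  have hc : ContinuousOn ζ (DRb c b) := h3.1.continuous.continuousOn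
  have h6 := U.norm_xt_le hT hQ hc fun y _ => h4 y
  refine le_trans ?_ (pow_le_pow_left₀ (norm_nonneg _) h6 2)
  rw [U.norm_xt hQ]
  have h7 : ∫ y in K, ipUp c y (Ω p₀ y) (Ω p₀ y) * vol c y =
      ∫ y in K, ipUp c y (ζ y • Ω p₀ y) (ζ y • Ω p₀ y) * vol c y :=
    setIntegral_congr_fun hK.cpt.measurableSet fun y hy => by
      simp only [(h5 y hy).self_of_nhds, one_smul]
  rw [h7]
  refine setIntegral_mono_set (split_int hT hQ hc hc) ?_ hK.sub.eventuallyLE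
  filter_upwards [ae_restrict_mem (isOpen_DRb (c := c) b).measurableSet] with y hy
  exact mul_nonneg (ipUp_self_nonneg _) (vol_pos hy.1).le

/-- An additive quantity that vanishes on forms with support in one chart vanishes
(eq_zero_of_lcl, Lcl.lk, cyl_Ia, hf_add). -/
theorem eq_zero_of_chart {B : Fam P k → ℝ}
    (hadd : ∀ Ω Ω', IsT Γ Ω → IsT Γ Ω' → B (Ω + Ω') = B Ω + B Ω')
    (hc : ∀ Ω Ω', IsT Γ Ω → (∀ p, ∀ y ∈ DR c, Ω' p y = Ω p y) → B Ω' = B Ω)
    (hloc : ∀ p₀ b K Ω, IsK c b K → IsT Γ Ω → LK Γ p₀ K Ω → B Ω = 0) (h : IsT Γ Ω) :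
    B Ω = 0 := by
  refine eq_zero_of_lcl hadd (fun p₀ Ω hT hL => ?_) h
  have hS : Cyl c (Ia c (-1 / 2)) := cyl_Ia (by norm_num)
  have hQ := hS.isQ hT hL.lk
  rw [hc (hf Γ p₀ true Ω + hf Γ p₀ false Ω) Ω (((hQ true).isT p₀).add ((hQ false).isT p₀))
    fun p y hy => hf_add hT hL.lk p hy, hf, hf, hadd _ _ ((hQ true).isT p₀) ((hQ false).isT p₀),
    hloc p₀ true _ _ (hQ true).isK ((hQ true).isT p₀) ((hQ true).lk p₀),
    hloc p₀ false _ _ (hQ false).isK ((hQ false).isT p₀) ((hQ false).lk p₀), add_zero]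

/-- A continuous function is bounded on a compact part of the domain. -/
theorem exists_bd (hK : IsCompact K) (hD : K ⊆ DR c) {F : Eu 5 → ℝ} (hF : ContinuousOn F (DR c)) :
    ∃ M : ℝ, 0 ≤ M ∧ ∀ y ∈ K, F y ≤ M := by
  obtain ⟨M, hM⟩ := hK.bddAbove_image (hF.mono hD)
  exact ⟨max M 0, le_max_right _ _, fun y hy => (hM ⟨y, hy, rfl⟩).trans (le_max_left _ _)⟩

end Pool.Agent.Lib.MP_75c153_gt.Ft
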