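import Pool.Agent.Lib.MP_75c153_gt.Ft.StB
import Pool.Agent.Lib.MP_75c153_gt.Ft.Split
import Pool.Agent.Lib.MP_75c153_gt.Ft.UOn
import Pool.Agent.Lib.MP_75c153_gt.Ft.MS
import Pool.Agent.Lib.MP_570070_gt.An.AOn

/-! Duality. -/

open MeasureTheory Filter Topology Set
open scoped ContDiff InnerProductSpace

namespace Pool.Agent.Lib.MP_75c153_gt.Ft

open Pool.Agent.Lib.MP_570070_gt.An

variable {c : Par} {P : Type} {Γ : Gl c P} {k l : ℕ}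

/-- exists_unitary with ipUp_star and stF_stF. -/
theorem UpL2.exists_star (U : UpL2 Γ) (h : k + l = 5) : ∃ V : U.H k ≃ₗᵢ[ℝ] U.H l,
    ∀ Ω, IsT Γ Ω → V (U.j k Ω) = U.j l (stF Γ h Ω) := by
  have h' : l + k = 5 := by omega
  refine exists_unitary U U (stF Γ h) (fun Ω Ω' g g' => ?_) fun Θ g =>
    ⟨_, g.stF h', U.j_congr g fun p y hy => stF_stF h' h Θ p hy⟩
  rw [U.inner_eq l _ _ (g.stF h) (g'.stF h), U.inner_eq k _ _ g g']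
  refine finsum_congr fun p => setIntegral_congr_fun isOpen_DR.measurableSet fun y hy => ?_
  simp only [stF, ipUp_smul_left, ipUp_smul_right, ← mul_assoc, tau_mul_self, one_mul,
    ipUp_star hy]

theorem star_lk (h : k + l = 5) {p₀ : P} {K : Set (Eu 5)} {Ω : Fam P k} (g : LK Γ p₀ K Ω) :
    LK Γ p₀ K (stF Γ h Ω) :=
  g.of_zero fun p y _ h1 => by rw [stF, h1, star_zero, smul_zero]

/-- The formula of Stokes for a form in one chart. -/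
theorem star_chart (U : UpL2 Γ) (h₁ : k + 1 + l = 5) (h₂ : k + (l + 1) = 5) {b : Bool}
    {K : Set (Eu 5)} (hK : IsK c b K) {p₀ : P} {Ω : Fam P k} (hT : IsT Γ Ω) (hL : LK Γ p₀ K Ω)
    {Θ : Fam P l} (h' : IsT Γ Θ) :
    ⟪U.j l (stF Γ h₁ (dF Ω)), U.j l Θ⟫_ℝ =
      (-1) ^ (k + 1) * ⟪U.j (l + 1) (stF Γ h₂ Ω), U.j (l + 1) (dF Θ)⟫_ℝ := by
  have hm := (isOpen_DRb (c := c) b).measurableSet
  have e := Bp_stokes h₁ h₂ (hL.isQ hT hK) ((h'.smooth p₀).mono (DRb_subset b))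
  rw [U.chart l p₀ b _ _ (hT.dF.stF h₁) h' (star_lk h₁ ((hL.d hK.cpt hK.subDR).mono hK.sub)),
    U.chart (l + 1) p₀ b _ _ (hT.stF h₂) h'.dF (star_lk h₂ (hL.mono hK.sub)),
    setIntegral_congr_fun hm (g := fun y => tau (Γ.side p₀) * Bp h₁ (extDeriv (Ω p₀) y) (Θ p₀ y))
      fun y hy => by simp only [stF, dF, ipUp_smul_left, mul_assoc, ipUp_star_eq hy.1],
    setIntegral_congr_fun hm (f := fun y => ipUp c y (stF Γ h₂ Ω p₀ y) _ * _)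
      (g := fun y => tau (Γ.side p₀) * Bp h₂ (Ω p₀ y) (extDeriv (Θ p₀) y))
      fun y hy => by simp only [stF, ipUp_smul_left, mul_assoc, ipUp_star_eq hy.1, dF],
    integral_const_mul, integral_const_mul, e]
  ring

/-- The formula of Stokes. -/
theorem UpL2.stokes (U : UpL2 Γ) (h₁ : k + 1 + l = 5) (h₂ : k + (l + 1) = 5) {Ω : Fam P k}
    {Θ : Fam P l} (h : IsT Γ Ω) (h' : IsT Γ Θ) :
    ⟪U.j l (stF Γ h₁ (dF Ω)), U.j l Θ⟫_ℝ =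
      (-1) ^ (k + 1) * ⟪U.j (l + 1) (stF Γ h₂ Ω), U.j (l + 1) (dF Θ)⟫_ℝ := by
  obtain ⟨V, hV⟩ := U.exists_star h₂
  obtain ⟨V', hV'⟩ := U.exists_star h₁
  rw [← hV _ h, ← hV' _ h.dF]
  refine sub_eq_zero.1 (eq_zero_of_chart (B := fun Ω : Fam P k =>
    ⟪V' (U.j (k + 1) (dF Ω)), U.j l Θ⟫_ℝ -
      (-1) ^ (k + 1) * ⟪V (U.j k Ω), U.j (l + 1) (dF Θ)⟫_ℝ) (fun A B g g' => ?_)
    (fun A B g he => ?_) (fun p₀ b K A hK g hL => ?_) h)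
  · rw [U.j_dF_add g g', U.j_add g g', map_add, map_add, inner_add_left, inner_add_left]
    ring
  · rw [U.j_congr g he, U.j_congr g.dF fun p y hy => dF_congr he p hy]
  · rw [hV _ g, hV' _ g.dF, star_chart U h₁ h₂ hK g hL h', sub_self]

theorem star_inv (U : UpL2 Γ) (h : k + l = 5) (h' : l + k = 5) {V : U.H k ≃ₗᵢ[ℝ] U.H l}
    (hV : ∀ Ω, IsT Γ Ω → V (U.j k Ω) = U.j l (stF Γ h Ω)) {Θ : Fam P l} (g : IsT Γ Θ) :
    V (U.j k (stF Γ h' Θ)) = U.j l Θ :=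
  (hV _ (g.stF h')).trans (U.j_congr g fun p _ hy => stF_stF h' h Θ p hy)

/-- A star operator maps test forms onto test forms (stF_stF). -/
theorem UpL2.star_test (U : UpL2 Γ) (h : k + l = 5) {V : U.H k ≃ₗᵢ[ℝ] U.H l}
    (hV : ∀ Ω, IsT Γ Ω → V (U.j k Ω) = U.j l (stF Γ h Ω)) (a : U.H k) :
    (∃ b, U.D k a b) ↔ ∃ b, U.D l (V a) b := by
  have h' : l + k = 5 := by omega
  constructor
  · rintro ⟨_, Ω, g, rfl, -⟩
    exact ⟨_, _, g.stF h, hV Ω g, rfl⟩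
  · rintro ⟨_, Θ, g, e, -⟩
    exact ⟨_, _, g.stF h', V.injective (e.trans (star_inv U h h' hV g).symm), rfl⟩

theorem UpL2.starPair (U : UpL2 Γ) (h₁ : k + 1 + l = 5) (h₂ : k + (l + 1) = 5)
    {V : U.H k ≃ₗᵢ[ℝ] U.H (l + 1)} {V' : U.H (k + 1) ≃ₗᵢ[ℝ] U.H l}
    (hV : ∀ Ω, IsT Γ Ω → V (U.j k Ω) = U.j (l + 1) (stF Γ h₂ Ω))
    (hV' : ∀ Ω, IsT Γ Ω → V' (U.j (k + 1) Ω) = U.j l (stF Γ h₁ Ω)) :
    StarPair U.D V V' ((-1) ^ (k + 1)) where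
  sq := by rw [← mul_pow]; simp
  t := U.star_test h₂ hV
  t' := U.star_test h₁ hV'
  st := by
    rintro _ _ β _ ⟨Ω, g, rfl, rfl⟩ ⟨Θ, g', e, rfl⟩
    rw [← V'.inner_map_map, e, hV' _ g.dF, hV _ g, U.stokes h₁ h₂ g g']

theorem SuppIn.mono' {S : Set P} {Ω : Fam P k} {Θ : Fam P l} (h : SuppIn c S Ω)
    (h' : ∀ p y, Ω p y = 0 → Θ p y = 0) : SuppIn c S Θ :=
  h.imp fun _ h1 => ⟨h1.1, fun p y hy h2 => h1.2 p y hy fun h3 => h2 (h' p y h3)⟩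

/-- Port of image_on of An/Star. -/
theorem UpL2.star_on (U : UpL2 Γ) (h : k + l = 5) {V : U.H k ≃ₗᵢ[ℝ] U.H l}
    (hV : ∀ Ω, IsT Γ Ω → V (U.j k Ω) = U.j l (stF Γ h Ω)) (S : Set P) :
    V '' U.on k S = U.on l S := by
  have h' : l + k = 5 := by omega
  refine (V.toHomeomorph.image_closure _).trans (congrArg closure (Subset.antisymm ?_ ?_))
  · rintro _ ⟨_, ⟨Ω, ⟨h1, h2⟩, rfl⟩, rfl⟩
    exact ⟨_, ⟨h1.stF h, h2.mono' fun p y e => by rw [stF, e, star_zero, smul_zero]⟩,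
      (hV Ω h1).symm⟩
  · rintro _ ⟨Θ, ⟨h1, h2⟩, rfl⟩
    exact ⟨_, ⟨_, ⟨h1.stF h', h2.mono' fun p y e => by rw [stF, e, star_zero, smul_zero]⟩, rfl⟩,
      star_inv U h h' hV h1⟩

/-- Poincaré duality for the heat traces: star_heat5, trOn_equiv. -/
theorem UpL2.star_trace (U : UpL2 Γ) {Pt : ∀ k, ℝ → U.H k →L[ℝ] U.H k}
    (hP : ∀ k, IsHeat (dom U.D k) (Pt k)) (S : Set P) {t : ℝ} (ht : 0 ≤ t) :
    trOn (U.on 5 S) (Pt 5 t) = trOn (U.on 0 S) (Pt 0 t) ∧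
      trOn (U.on 4 S) (Pt 4 t) = trOn (U.on 1 S) (Pt 1 t) ∧
      trOn (U.on 3 S) (Pt 3 t) = trOn (U.on 2 S) (Pt 2 t) := by
  obtain ⟨V₀, h₀⟩ := U.exists_star (k := 0) (l := 5) rfl
  obtain ⟨V₁, h₁⟩ := U.exists_star (k := 1) (l := 4) rfl
  obtain ⟨V₂, h₂⟩ := U.exists_star (k := 2) (l := 3) rfl
  obtain ⟨V₃, h₃⟩ := U.exists_star (k := 3) (l := 2) rfl
  obtain ⟨a₀, a₁, a₂⟩ := star_heat5 (U.starPair (k := 0) (l := 4) rfl rfl h₀ h₁)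
    (U.starPair (k := 1) (l := 3) rfl rfl h₁ h₂) (U.starPair (k := 2) (l := 2) rfl rfl h₂ h₃)
    U.dense_test (U.high_eq_zero 0) hP ht
  rw [← trOn_equiv V₀ a₀, ← trOn_equiv V₁ a₁, ← trOn_equiv V₂ a₂, U.star_on rfl h₀,
    U.star_on rfl h₁, U.star_on rfl h₂]
  exact ⟨rfl, rfl, rfl⟩

/-- exists_heat5. -/
theorem UpL2.exists_heat (U : UpL2 Γ) (k : ℕ) : ∃ Pt, IsHeat (dom U.D k) Pt := by
  obtain ⟨V₀, h₀⟩ := U.exists_star (k := 0) (l := 5) rfl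
  obtain ⟨V₁, h₁⟩ := U.exists_star (k := 1) (l := 4) rfl
  obtain ⟨V₂, h₂⟩ := U.exists_star (k := 2) (l := 3) rfl
  obtain ⟨V₃, h₃⟩ := U.exists_star (k := 3) (l := 2) rfl
  exact exists_heat5 (U.starPair (k := 0) (l := 4) rfl rfl h₀ h₁)
    (U.starPair (k := 1) (l := 3) rfl rfl h₁ h₂) (U.starPair (k := 2) (l := 2) rfl rfl h₂ h₃)
    U.dense_test U.high_eq_zero k

/-- The codifferential of a test 2-form is a test form: StarPair.cod and density. -/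
theorem UpL2.cod_test (U : UpL2 Γ) {φ : U.H 2} {ψ : U.H 1} (hφ : ∃ x, U.D 2 φ x)
    (h : WCod U.D 1 φ ψ) : ∃ Ψ, IsT Γ Ψ ∧ ψ = U.j 1 Ψ := by
  obtain ⟨V₁, h₁⟩ := U.exists_star (k := 1) (l := 4) rfl
  obtain ⟨V₂, h₂⟩ := U.exists_star (k := 2) (l := 3) rfl
  have hS := U.starPair (k := 1) (l := 3) rfl rfl h₁ h₂
  obtain ⟨x, hx⟩ := (hS.t' φ).1 hφ
  have e := WCod.unique (U.dense_test 1) h (hS.cod hx)
  obtain ⟨Θ, g, -, rfl⟩ := hx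
  have g' := g.dF.stF (k := 4) (l := 1) rfl
  refine ⟨_, g'.smul ((-1) ^ (1 + 1)), ?_⟩
  rw [e, U.j_smul g', ← star_inv U (k := 1) (l := 4) rfl rfl h₁ g.dF, V₁.symm_apply_apply]

/-- The codifferential of the star of a test 2-form has the norm of its differential. -/
theorem UpL2.cod_star (U : UpL2 Γ) {Ω : Fam P 2} (h : IsT Γ Ω) : ∃ ψ : U.H 2,
    WCod U.D 2 (U.j 3 (stF Γ (k := 2) (l := 3) rfl Ω)) ψ ∧ ‖ψ‖ = ‖U.j 3 (dF Ω)‖ := by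
  obtain ⟨V₂, h₂⟩ := U.exists_star (k := 2) (l := 3) rfl
  obtain ⟨V₃, h₃⟩ := U.exists_star (k := 3) (l := 2) rfl
  refine ⟨_, h₂ Ω h ▸ (U.starPair (k := 2) (l := 2) rfl rfl h₂ h₃).wcod_of_wd
    (U.WD_of_D (U.D_j h)), ?_⟩
  rw [norm_smul, V₃.norm_map]
  simp

end Pool.Agent.Lib.MP_75c153_gt.Ft
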