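import Pool.Agent.Lib.MP_75c153_gt.Ft.Main
import Pool.Agent.Lib.MP_75c153_gt.Dc.DMain
import Pool.Agent.Lib.MP_570070_gt.Ex.XMain

/-! The L2-torsion of the covering exists. -/

open MeasureTheory Filter Topology Set

namespace Pool.Agent.Lib.MP_75c153_gt.Ft

open Pool.Agent.Lib.MP_570070_gt.An Pool.Agent.Lib.MP_570070_gt.Ex Pool.Agent.Lib.MP_75c153_gt.Dc

theorem core_base_compact (c : Par) {Q : Type} [Group Q] (g : Ed c → Q) :
    ∃ K, IsCompact K ∧ core (grpGl c g) (base Q) ⊆ K := by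
  refine ⟨⋃ b : Bool, (et (grpGl c g)).π (1, b) '' Kw c,
    isCompact_iUnion fun b => isCompact_q _ isCompact_Kw Kw_subset, fun x hx => ?_⟩
  obtain ⟨⟨q, b⟩, y, hy, h1, h2, rfl⟩ := exists_home x
  obtain rfl : q = 1 := ((core_home hy (half_le_eta hy h1)).1 hx).2
  exact mem_iUnion.2 ⟨b, y, home_mem hy h1 h2, rfl⟩

theorem exists_isTorsion_grp (c : Par) {G : Type} [Group G] [Countable G] (g : Ed c → G)
    (K : ℕ → Subgroup G) [∀ i, (K i).Normal] [∀ i, (K i).FiniteIndex] (ha : Antitone K)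
    (hi : ⨅ i, K i = ⊥) : ∃ ρ, IsTorsion (mfd (grpGl c g)) (core (grpGl c g) (base G)) ρ := by
  obtain ⟨L, Pt, hP⟩ := hasHeat_mfd (grpGl c g)
  choose L' Pt' hP' using fun i => hasHeat_mfd (grpGl c fun e => (g e : G ⧸ K i))
  obtain ⟨K₀, hK, hF⟩ := core_base_compact c g
  refine isTorsion_of L hP (isOpen_core _) hK hF ?_
  simp only [← upL2_on]
  refine det_class c g K ha hi (upL2 L) (fun k => ?_) (fun k => ?_) (fun k => ?_)
    (fun i => upL2 (L' i)) (Pt' := Pt') (fun i k => ?_) fun i k => ?_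
  · rw [upL2_D]
    exact hP k
  · rw [upL2_on]
    exact (heat_zeta L (hP k) (isOpen_core _) hK hF).1
  · rw [upL2_on]
    obtain ⟨C, hC⟩ := heat_bound L (hP k) (isOpen_core _) hK hF
    exact ⟨C, 5, hC⟩
  · rw [upL2_D]
    exact hP' i k
  · obtain ⟨K₁, h1, h2⟩ := core_base_compact c fun e => (g e : G ⧸ K i)
    rw [upL2_on]
    exact (heat_zeta (L' i) (hP' i k) (isOpen_core _) h1 h2).1

end Pool.Agent.Lib.MP_75c153_gt.Ft
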