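import Pool.Agent.Lib.MP_570070_gt.An.SpecA

/-! Resolvent bounds give lower bounds for regularised determinants. -/

namespace Pool.Agent.Lib.MP_75c153_gt.Ft

open Matrix Pool.Agent.Lib.MP_570070_gt Pool.Agent.Lib.MP_570070_gt.An

theorem spm_col {n : Type} [Fintype n] (X Y : Matrix n n ℝ) (j : n) :
    (Xᵀ * Y) j j = ∑ i, X i j * Y i j := by
  simp [mul_apply]

theorem spm_tr {n : Type} [Fintype n] [DecidableEq n] {O : Matrix n n ℝ} (hO : Oᵀ * O = 1)
    (U : Matrix n n ℝ) : ∑ j, ∑ i, (U * O) i j * (U * O) i j = (U * Uᵀ).trace := by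
  have h : ((U * O)ᵀ * (U * O)).trace = (U * Uᵀ).trace := by
    rw [trace_mul_comm, transpose_mul, mul_assoc, ← mul_assoc O, mul_eq_one_comm.1 hO, one_mul]
  rw [← h]
  exact Finset.sum_congr rfl fun j _ => (spm_col _ _ j).symm

theorem sum_inv_le {n : Type} [Fintype n] [DecidableEq n] {A U V : Matrix n n ℝ}
    (h : A * U + V = 1) (hM : (A * Aᵀ).IsHermitian) (h0 : ∀ j, 0 ≤ hM.eigenvalues j) {τ : ℝ}
    (hτ : 0 < τ) :
    ∑ j, (hM.eigenvalues j + τ)⁻¹ ≤ (U * Uᵀ).trace + τ⁻¹ * (V * Vᵀ).trace := by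
  obtain ⟨O, hO, hD⟩ := speca_diag hM
  rw [← spm_tr hO U, ← spm_tr hO V, Finset.mul_sum, ← Finset.sum_add_distrib]
  refine Finset.sum_le_sum fun j _ => ?_
  have e1 : ∑ i, (Aᵀ * O) i j * (U * O) i j + ∑ i, O i j * (V * O) i j = 1 := by
    rw [← spm_col, ← spm_col, ← Matrix.add_apply, transpose_mul, transpose_transpose, mul_assoc,
      ← mul_add, ← mul_assoc A, ← add_mul, h, one_mul, hO, one_apply_eq]
  have e2 : ∑ i, (Aᵀ * O) i j * (Aᵀ * O) i j = hM.eigenvalues j := by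
    rw [← spm_col, transpose_mul, transpose_transpose, mul_assoc, ← mul_assoc A, hD, ← mul_assoc,
      hO, one_mul, diagonal_apply_eq]
  have e3 : ∑ i, O i j * O i j = 1 := by rw [← spm_col, hO, one_apply_eq]
  set s := (hM.eigenvalues j + τ)⁻¹ with hs
  have e4 : s * (hM.eigenvalues j + τ) = 1 := inv_mul_cancel₀ (by linarith [h0 j])
  have e5 : ∑ i, (2 * s * ((Aᵀ * O) i j * (U * O) i j) - s ^ 2 * ((Aᵀ * O) i j * (Aᵀ * O) i j)) ≤
      ∑ i, (U * O) i j * (U * O) i j := Finset.sum_le_sum fun i _ => by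
    nlinarith [sq_nonneg ((U * O) i j - s * (Aᵀ * O) i j)]
  have e6 : ∑ i, (2 * s * τ * (O i j * (V * O) i j) - s ^ 2 * τ ^ 2 * (O i j * O i j)) ≤
      ∑ i, (V * O) i j * (V * O) i j := Finset.sum_le_sum fun i _ => by
    nlinarith [sq_nonneg ((V * O) i j - s * τ * O i j)]
  rw [Finset.sum_sub_distrib, ← Finset.mul_sum, ← Finset.mul_sum] at e5 e6
  rw [e2] at e5
  rw [e3] at e6
  have e7 := mul_le_mul_of_nonneg_left e6 (inv_pos.2 hτ).le
  have e8 : τ⁻¹ * (2 * s * τ * ∑ i, O i j * (V * O) i j - s ^ 2 * τ ^ 2 * 1) =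
      2 * s * ∑ i, O i j * (V * O) i j - s ^ 2 * τ := by field_simp
  rw [e8] at e7
  have e9 : s ^ 2 * hM.eigenvalues j + s ^ 2 * τ = s := by linear_combination s * e4
  have e10 : 2 * s * ∑ i, (Aᵀ * O) i j * (U * O) i j + 2 * s * ∑ i, O i j * (V * O) i j =
      2 * s := by linear_combination 2 * s * e1
  linarith

theorem sum_log_ge {n : Type} [Fintype n] (x : n → ℝ) (hx : ∀ j, 0 ≤ x j) {d : ℝ} (hd : 0 < d)
    (K : ℕ) (h : ∀ k ≤ K, ∑ j, (x j + d * ((1 / 2) ^ k) ^ 2)⁻¹ ≤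
      Fintype.card n * (4 / (d * (1 / 2) ^ k))) :
    Fintype.card n * (Real.log d - 12 + 12 * (1 / 2) ^ K) ≤
      ∑ j, Real.log (x j + d * ((1 / 2) ^ K) ^ 2) := by
  induction K with
  | zero =>
    have : ∑ _j : n, Real.log d ≤ ∑ j, Real.log (x j + d * ((1 / 2) ^ 0) ^ 2) :=
      Finset.sum_le_sum fun j _ => Real.log_le_log hd (by simpa using hx j)
    simpa using this
  | succ K ih =>
    have h1 := ih fun k hk => h k (by omega)
    have h2 := h (K + 1) le_rfl
    have e : (1 / 2 : ℝ) ^ K = 2 * (1 / 2) ^ (K + 1) := by ring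
    rw [e] at h1
    have hp : (0 : ℝ) < (1 / 2) ^ (K + 1) := by positivity
    generalize (1 / 2 : ℝ) ^ (K + 1) = p at *
    have hτ : 0 < d * p ^ 2 := by positivity
    have h3 : ∑ j, Real.log (x j + d * (2 * p) ^ 2) ≤
        ∑ j, (Real.log (x j + d * p ^ 2) + 3 * (d * p ^ 2) * (x j + d * p ^ 2)⁻¹) := by
      refine Finset.sum_le_sum fun j _ => ?_
      have h4 : 0 < x j + d * p ^ 2 := by linarith [hx j]
      have h5 : x j + d * (2 * p) ^ 2 =
          (x j + d * p ^ 2) * (1 + 3 * (d * p ^ 2) * (x j + d * p ^ 2)⁻¹) := by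
        field_simp
        ring
      have h6 : 0 < 1 + 3 * (d * p ^ 2) * (x j + d * p ^ 2)⁻¹ := by positivity
      rw [h5, Real.log_mul h4.ne' h6.ne']
      linarith [Real.log_le_sub_one_of_pos h6]
    rw [Finset.sum_add_distrib, ← Finset.mul_sum] at h3
    have h7 := mul_le_mul_of_nonneg_left h2 (show 0 ≤ 3 * (d * p ^ 2) by positivity)
    have h8 : 3 * (d * p ^ 2) * (Fintype.card n * (4 / (d * p))) = Fintype.card n * (12 * p) := by
      field_simp
      ring
    linarith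

variable {G Q : Type} [Group G] [Group Q] [Fintype Q] [DecidableEq Q]

/-- The convolution matrix of a finitely supported function. -/
noncomputable def cv (π : G →* Q) : (G →₀ ℝ) →ₗ[ℝ] Matrix Q Q ℝ :=
  Finsupp.linearCombination ℝ fun y => reg Q (π y)⁻¹

theorem cv_shift (π : G →* Q) (g : G) (u : G →₀ ℝ) :
    reg Q (π g) * cv π u = cv π (Finsupp.equivMapDomain (Equiv.mulRight g⁻¹) u) := by
  rw [Finsupp.equivMapDomain_eq_mapDomain]
  induction u using Finsupp.induction_linear with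
  | zero => simp
  | add u v hu hv => rw [Finsupp.mapDomain_add, map_add, map_add, mul_add, hu, hv]
  | single y c => simp [cv]

theorem cv_trace (π : G →* Q) (u : G →₀ ℝ) (h : Set.InjOn π u.support) :
    (cv π u * (cv π u)ᵀ).trace = Fintype.card Q * ∑ y ∈ u.support, u y ^ 2 := by
  rw [cv, Finsupp.linearCombination_apply, Finsupp.sum, transpose_sum, Finset.sum_mul_sum,
    trace_sum, Finset.mul_sum]
  refine Finset.sum_congr rfl fun y hy => ?_
  rw [trace_sum, Finset.sum_eq_single_of_mem y hy fun z hz hzy => ?_]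
  · rw [transpose_smul, ← reg_inv, smul_mul_smul_comm, ← map_mul (reg Q), trace_smul, reg_trace,
      if_pos (by simp), smul_eq_mul]
    ring
  · rw [transpose_smul, ← reg_inv, smul_mul_smul_comm, ← map_mul (reg Q), trace_smul, reg_trace,
      if_neg, smul_zero]
    rw [inv_inv, inv_mul_eq_one]
    exact fun e => hzy (h hz hy e.symm)

theorem cv_solve {E : Type} [Fintype E] (π : G →* Q) (s : E → ℝ) (g : E → G) {u v : G →₀ ℝ}
    (h : ∀ z, ∑ e, s e * u (z * g e) + v z = Finsupp.single (1 : G) (1 : ℝ) z) :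
    (∑ e, s e • reg Q (π (g e))) * cv π u + cv π v = 1 := by
  have h1 : ∑ e, s e • Finsupp.equivMapDomain (Equiv.mulRight (g e)⁻¹) u + v =
      Finsupp.single 1 1 := by
    ext z
    rw [← h z]
    simp
  have h2 := congrArg (cv π) h1
  simp only [map_add, map_sum, map_smul, ← cv_shift] at h2
  simp only [Finset.sum_mul, smul_mul_assoc, h2]
  simp [cv]

end Pool.Agent.Lib.MP_75c153_gt.Ft
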