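import Pool.Agent.Lib.MP_75c153_gt.Ft.Tree

/-! An approximate resolvent vector on the tree. -/

namespace Pool.Agent.Lib.MP_75c153_gt.Ft

variable {α : Type} [DecidableEq α] [Fintype α]

theorem exists_sphere (n : ℕ) : ∃ S : Finset (FreeGroup α × Bool), (∀ p, p ∈ S ↔ ht p = n + 1) ∧
    S.card ≤ (Fintype.card α + 1) * Fintype.card α ^ n := by
  classical
  have key : ∀ (n : ℕ) (p : FreeGroup α × Bool), ht p = n + 1 →
      ht (nb (pe p) p) = n ∧ (nb (pe p) p = (1, true) ∨ pe p ≠ pe (nb (pe p) p)) := by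
    intro n p hp
    have h1 : p ≠ (1, true) := fun h => by simp [h, ht_root] at hp
    have h2 := ht_pe h1
    refine ⟨by omega, or_iff_not_imp_left.2 fun h3 h4 => ?_⟩
    have h5 := ht_pe h3
    rw [← h4, nb_nb] at h5
    omega
  induction n with
  | zero =>
    refine ⟨Finset.univ.image fun e => nb e (1, true), fun p => ⟨fun h => ?_, fun h => ?_⟩, ?_⟩
    · obtain ⟨e, -, rfl⟩ := Finset.mem_image.1 h
      rw [ht_nb (Or.inl rfl), ht_root]
    · exact Finset.mem_image.2 ⟨pe p, Finset.mem_univ _, by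
        rw [← ht_eq_zero.1 (key 0 p h).1, nb_nb]⟩
    · simpa using Finset.card_image_le (s := Finset.univ)
        (f := fun e : Option α => nb e (1, true))
  | succ n ih =>
    obtain ⟨S, h1, h2⟩ := ih
    refine ⟨S.biUnion fun p => (Finset.univ.erase (pe p)).image fun e => nb e p,
      fun p => ⟨fun h => ?_, fun h => ?_⟩, ?_⟩
    · obtain ⟨q, hq, h⟩ := Finset.mem_biUnion.1 h
      obtain ⟨e, he, rfl⟩ := Finset.mem_image.1 h
      rw [ht_nb (Or.inr (Finset.ne_of_mem_erase he)), (h1 q).1 hq]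
    · obtain ⟨h3, h4⟩ := key _ p h
      refine Finset.mem_biUnion.2 ⟨_, (h1 _).2 h3, Finset.mem_image.2 ⟨pe p,
        Finset.mem_erase.2 ⟨h4.resolve_left fun h5 => ?_, Finset.mem_univ _⟩, nb_nb _ _⟩⟩
      simp [h5, ht_root] at h3
    · refine (Finset.card_biUnion_le_card_mul _ _ (Fintype.card α) fun p _ => ?_).trans ?_
      · exact Finset.card_image_le.trans (by simp [Finset.card_erase_of_mem])
      · rw [pow_succ, ← mul_assoc]
        exact Nat.mul_le_mul_right _ h2

/-- A radial function with finite support as a finitely supported function on one side. -/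
theorem exists_radial (f : ℕ → ℝ) (R : ℕ) (h0 : f 0 = 0) (hR : ∀ n, R < n → f n = 0)
    (χ : FreeGroup α → ℝ) (hχ : ∀ h, χ h ^ 2 = 1) (b : Bool) : ∃ u : FreeGroup α →₀ ℝ,
      (∀ h, u h = χ h * f (ht (h, b))) ∧ ∑ h ∈ u.support, u h ^ 2 ≤
        ∑ n ∈ Finset.range R, (Fintype.card α + 1) * (Fintype.card α : ℝ) ^ n * f (n + 1) ^ 2 := by
  classical
  choose S h1 h2 using exists_sphere (α := α)
  have hs : ∀ h, χ h * f (ht (h, b)) ≠ 0 →
      h ∈ (Finset.range R).biUnion fun n => (S n).image Prod.fst := by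
    intro h hh
    have h3 := right_ne_zero_of_mul hh
    obtain ⟨n, hn⟩ := Nat.exists_eq_succ_of_ne_zero (n := ht (h, b)) fun e => h3 (e ▸ h0)
    refine Finset.mem_biUnion.2 ⟨n, Finset.mem_range.2 ?_,
      Finset.mem_image.2 ⟨(h, b), (h1 n _).2 hn, rfl⟩⟩
    by_contra h4
    exact h3 (hR _ (by omega))
  refine ⟨Finsupp.onFinset _ _ hs, fun h => rfl, ?_⟩
  set T := (Finsupp.onFinset _ _ hs).support
  have e : ∀ h ∈ T, (Finsupp.onFinset _ _ hs) h ^ 2 =
      ∑ n ∈ Finset.range R, if ht (h, b) = n + 1 then f (n + 1) ^ 2 else 0 := by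
    intro h hh
    have h3 := right_ne_zero_of_mul (Finsupp.mem_support_iff.1 hh)
    obtain ⟨n, hn⟩ := Nat.exists_eq_succ_of_ne_zero (n := ht (h, b)) fun e => h3 (e ▸ h0)
    have h4 : n < R := by
      by_contra h4
      exact h3 (hR _ (by omega))
    rw [Finsupp.onFinset_apply, mul_pow, hχ, one_mul, hn]
    simp [h4]
  rw [Finset.sum_congr rfl e, Finset.sum_comm]
  refine Finset.sum_le_sum fun n _ => ?_
  rw [← Finset.sum_filter, Finset.sum_const, nsmul_eq_mul]
  refine mul_le_mul_of_nonneg_right ?_ (sq_nonneg _)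
  have h5 : (T.filter fun h => ht (h, b) = n + 1).card ≤ (S n).card :=
    Finset.card_le_card_of_injOn (fun h => (h, b))
      (fun h hh => (h1 n _).2 (Finset.mem_filter.1 hh).2) fun a _ c _ h => congrArg Prod.fst h
  exact_mod_cast h5.trans (h2 n)

theorem sum_nb (φ : ℕ → ℝ) (p : FreeGroup α × Bool) : ∑ e, φ (ht (nb e p)) =
    if ht p = 0 then (Fintype.card α + 1) * φ 1
    else φ (ht p - 1) + Fintype.card α * φ (ht p + 1) := by
  split_ifs with h
  · rw [ht_eq_zero.1 h]
    simp [ht_nb, ht_root]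
  · have h1 : p ≠ (1, true) := fun e => h (ht_eq_zero.2 e)
    rw [← Finset.add_sum_erase _ _ (Finset.mem_univ (pe p)), ← ht_pe h1, Nat.add_sub_cancel,
      ht_pe h1, Finset.sum_congr rfl fun e he => by rw [ht_nb (Or.inr (Finset.ne_of_mem_erase he))]]
    simp [Finset.card_erase_of_mem]

omit [DecidableEq α] [Fintype α] in
theorem exists_char {s : Option α → ℝ} (hs : ∀ e, s e = 1 ∨ s e = -1) (h1 : s none = 1) :
    ∃ χ : FreeGroup α → ℝ, (∀ h, χ h ^ 2 = 1) ∧ χ 1 = 1 ∧
      ∀ (e : Option α) (h : FreeGroup α), s e * χ (h * e.elim 1 FreeGroup.of) = χ h := by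
  classical
  let ψ : FreeGroup α →* ℤˣ := FreeGroup.lift fun j => if s (some j) = 1 then 1 else -1
  refine ⟨fun h => ((ψ h : ℤ) : ℝ), fun h => ?_, by simp, ?_⟩
  · rcases Int.units_eq_one_or (ψ h) with h | h <;> simp [h]
  · rintro (_ | j) h
    · simp [h1]
    · rcases hs (some j) with e | e
      · simp [ψ, e]
      · have : (-1 : ℝ) ≠ 1 := by norm_num
        simp [ψ, e, this]

theorem exists_resolvent [Nonempty α] {s : Option α → ℝ} (hs : ∀ e, s e = 1 ∨ s e = -1)
    (h1 : s none = 1) {p : ℝ} (hp : 0 < p) (hp1 : p ≤ 1) : ∃ u v : FreeGroup α →₀ ℝ,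
      (∀ z, ∑ e, s e * u (z * e.elim 1 FreeGroup.of) + v z =
        Finsupp.single (1 : FreeGroup α) (1 : ℝ) z) ∧
      ∑ h ∈ u.support, u h ^ 2 ≤ 1 / ((Fintype.card α + 1) * p) ∧
      ∑ h ∈ v.support, v h ^ 2 ≤ 3 * p := by
  classical
  obtain ⟨χ, c1, c2, c3⟩ := exists_char hs h1
  have hD : (1 : ℝ) ≤ Fintype.card α := by exact_mod_cast Fintype.card_pos
  set D : ℝ := (Fintype.card α : ℝ) with hDe
  obtain ⟨q, hq⟩ : ∃ q, q = 1 - p := ⟨_, rfl⟩
  have q0 : 0 ≤ q := by linarith
  have q1 : q < 1 := by linarith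
  obtain ⟨K, hK⟩ := exists_pow_lt_of_lt_one hp q1
  have geo : ∀ R, ∑ n ∈ Finset.range R, q ^ n ≤ 1 / p := fun R => by
    rw [le_div_iff₀ hp, show p = 1 - q by linarith, geom_sum_mul_neg]
    linarith [pow_nonneg q0 R]
  let a : ℕ → ℝ := fun k => if k ≤ K then (-q / D) ^ k / (D + 1) else 0
  let φ : ℕ → ℝ := fun n => if n % 2 = 1 then a (n / 2) else 0
  have φ0 : ∀ k, φ (2 * k) = 0 := fun k => if_neg (by omega)
  have φ1 : ∀ k, φ (2 * k + 1) = a k := fun k => by
    simp only [φ]
    rw [if_pos (by omega), show (2 * k + 1) / 2 = k by omega]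
  have φR : ∀ n, 2 * K + 1 < n → φ n = 0 := fun n hn => by
    obtain ⟨k, rfl | rfl⟩ := n.even_or_odd'
    · exact φ0 k
    · rw [φ1]
      exact if_neg (by omega)
  have sq : ∀ k, D ^ (2 * k) * ((-q / D) ^ k) ^ 2 = q ^ (2 * k) := fun k => by
    rw [← pow_mul, mul_comm k 2, ← mul_pow, mul_div_cancel₀ _ (by linarith), pow_mul, neg_sq,
      ← pow_mul]
  let ψ : ℕ → ℝ := fun n => if n = 0 then 0 else -(φ (n - 1) + D * φ (n + 1))
  obtain ⟨u, u1, u2⟩ := exists_radial φ (2 * K + 1) (φ0 0) φR χ c1 false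
  obtain ⟨v, v1, v2⟩ := exists_radial ψ (2 * K + 2) rfl (fun n hn => by
    simp only [ψ]
    rw [if_neg (by omega), φR _ (by omega), φR _ (by omega)]
    simp) χ c1 true
  refine ⟨u, v, fun z => ?_, u2.trans ?_, v2.trans ?_⟩
  · have e : ∀ e : Option α, s e * u (z * e.elim 1 FreeGroup.of) = χ z * φ (ht (nb e (z, true))) :=
      fun e => by rw [u1, ← mul_assoc, c3]; rfl
    simp only [e]
    rw [← Finset.mul_sum, sum_nb, v1]
    by_cases hz : z = 1
    · have h2 := φ1 0
      have h3 : D + 1 ≠ 0 := by linarith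
      simp only [mul_zero, zero_add] at h2
      simp [hz, ht_root, ψ, c2, h2, a, ← hDe, h3]
    · have h2 : ht (z, true) ≠ 0 := fun h => hz (congrArg Prod.fst (ht_eq_zero.1 h))
      simp only [ψ, if_neg h2, Finsupp.single_eq_of_ne hz]
      ring
  · rw [show 1 / ((D + 1) * p) = 1 / (D + 1) * (1 / p) by field_simp]
    refine le_trans (Finset.sum_le_sum fun n _ => ?_) ((Finset.mul_sum _ _ _).symm.le.trans
      (mul_le_mul_of_nonneg_left (geo (2 * K + 1)) (by positivity)))
    obtain ⟨k, rfl | rfl⟩ := n.even_or_odd'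
    · rw [φ1]
      simp only [a]
      split_ifs
      · rw [← sq k, ← hDe]
        exact le_of_eq (by field_simp)
      · simp only [ne_eq, OfNat.ofNat_ne_zero, not_false_eq_true, zero_pow, mul_zero]
        positivity
    · rw [show 2 * k + 1 + 1 = 2 * (k + 1) by ring, φ0]
      simp only [ne_eq, OfNat.ofNat_ne_zero, not_false_eq_true, zero_pow, mul_zero]
      positivity
  · have h2 : ∀ n ∈ Finset.range (2 * K + 2), (D + 1) * D ^ n * ψ (n + 1) ^ 2 ≤
        p ^ 2 * q ^ (n - 1) + if n = 2 * K + 1 then p else 0 := by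
      intro n hn
      rw [Finset.mem_range] at hn
      have h3 : 0 ≤ p ^ 2 * q ^ (n - 1) := by positivity
      simp only [ψ, if_neg (Nat.succ_ne_zero n), Nat.add_sub_cancel]
      obtain ⟨k, rfl | rfl⟩ := n.even_or_odd'
      · rw [show 2 * k + 1 + 1 = 2 * (k + 1) by ring, φ0, φ0, if_neg (by omega)]
        simpa using h3
      · rw [show 2 * k + 1 + 1 + 1 = 2 * (k + 1) + 1 by ring, φ1, φ1, Nat.add_sub_cancel]
        have h4 : D / (D + 1) ≤ 1 := div_le_one_of_le₀ (by linarith) (by linarith)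
        have h5 : 0 ≤ q ^ (2 * k) := by positivity
        simp only [a]
        rw [if_pos (by omega)]
        by_cases hk : k = K
        · subst hk
          rw [if_neg (by omega), if_pos rfl]
          have h6 : (D + 1) * D ^ (2 * k + 1) * (-((-q / D) ^ k / (D + 1) + D * 0)) ^ 2 =
              D / (D + 1) * q ^ (2 * k) := by
            rw [← sq k]
            field_simp
            ring
          have h7 : q ^ (2 * k) ≤ q ^ k := pow_le_pow_of_le_one q0 q1.le (by omega)
          rw [h6]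
          nlinarith [mul_nonneg (sq_nonneg p) h5]
        · rw [if_pos (by omega), if_neg (by omega)]
          have h6 : (D + 1) * D ^ (2 * k + 1) *
              (-((-q / D) ^ k / (D + 1) + D * ((-q / D) ^ (k + 1) / (D + 1)))) ^ 2 =
              D / (D + 1) * (p ^ 2 * q ^ (2 * k)) := by
            rw [← sq k, show p = 1 - q by linarith, pow_succ (-q / D)]
            field_simp
            ring
          rw [h6]
          nlinarith [mul_nonneg (sq_nonneg p) h5]
    refine (Finset.sum_le_sum h2).trans ?_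
    rw [Finset.sum_add_distrib, Finset.sum_ite_eq', if_pos (by simp), ← Finset.mul_sum,
      Finset.sum_range_succ']
    have h3 := mul_le_mul_of_nonneg_left (geo (2 * K + 1)) (sq_nonneg p)
    have h4 : p ^ 2 * (1 / p) = p := by field_simp
    simp only [Nat.add_sub_cancel, Nat.zero_sub, pow_zero]
    nlinarith

end Pool.Agent.Lib.MP_75c153_gt.Ft
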