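import Pool.Agent.Lib.MP_75c153_gt.Ft.UDefs
import Pool.Agent.Lib.MP_75c153_gt.Ft.SpLev
import Pool.Agent.Lib.MP_75c153_gt.Ft.SpMat
import Pool.Agent.Lib.MP_75c153_gt.Ft.SpTree
import Pool.Agent.Lib.MP_570070_gt.An.SpecC

/-! The spectrum of the plumbing operator along the chain. -/

open Filter Topology Set Matrix

namespace Pool.Agent.Lib.MP_75c153_gt.Ft

open Pool.Agent.Lib.MP_570070_gt
open Pool.Agent.Lib.MP_570070_gt.An (speca_reg exists_small_space specb_transfer specb_pt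
  tendsto_card_quot)

theorem spec_true (c : Par) {Q : Type} [Group Q] [Fintype Q] [DecidableEq Q] (g : Ed c → Q)
    (w : Q × Bool → ℝ) (h : Q) : ahat (grpGl c g) w (h, true) =
      ((∑ e, (sg e * c.ε e) • reg Q (g e)) *ᵥ fun k => w (k, false)) h := by
  rw [sum_mulVec, Finset.sum_apply]
  exact Finset.sum_congr rfl fun e _ => by
    rw [smul_mulVec, Pi.smul_apply, speca_reg]
    rfl

theorem spec_false (c : Par) {Q : Type} [Group Q] [Fintype Q] [DecidableEq Q] (g : Ed c → Q)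
    (w : Q × Bool → ℝ) (h : Q) : ahat (grpGl c g) w (h, false) =
      ((∑ e, (sg e * c.ε e) • reg Q (g e))ᵀ *ᵥ fun k => w (k, true)) h := by
  rw [transpose_sum, sum_mulVec, Finset.sum_apply]
  exact Finset.sum_congr rfl fun e _ => by
    rw [transpose_smul, ← reg_inv, smul_mulVec, Pi.smul_apply, speca_reg]
    rfl

/-- Put v on the pieces (h, true) and u on the pieces (h, false):
ahat w (h, true) = (A w(·, false)) h and ahat w (h, false) = (Aᵀ w(·, true)) h (reg_inv). -/
theorem exists_small_space_grp (c : Par) {Q : Type} [Group Q] [Fintype Q] [DecidableEq Q]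
    (g : Ed c → Q) (A : Matrix Q Q ℝ) (hA : A = ∑ e, (sg e * c.ε e) • reg Q (g e))
    (hM : (A * Aᵀ).IsHermitian) (s : ℝ) : ∃ W : Submodule ℝ (Q × Bool → ℝ),
    Module.finrank ℝ W =
      (Finset.univ.filter fun j => 0 < hM.eigenvalues j ∧ hM.eigenvalues j ≤ s).card ∧
    ∀ v ∈ W, ∑ p, ahat (grpGl c g) v p ^ 2 ≤ s * ∑ p, v p ^ 2 ∧
      ∃ u, ahat (grpGl c g) u = v := by
  obtain ⟨W, h1, h2⟩ := exists_small_space A hM s
  let ψ : (Q → ℝ) →ₗ[ℝ] Q × Bool → ℝ :=
    { toFun := fun v p => if p.2 then v p.1 else 0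
      map_add' := fun a b => by
        funext ⟨h, t⟩
        cases t <;> simp
      map_smul' := fun r a => by
        funext ⟨h, t⟩
        cases t <;> simp }
  have hψ : Function.Injective ψ := fun a b hab => funext fun h => congrFun hab (h, true)
  refine ⟨W.map ψ, (Submodule.equivMapOfInjective ψ hψ W).finrank_eq.symm.trans h1, ?_⟩
  rintro _ ⟨v, hv, rfl⟩
  obtain ⟨h3, u, h4⟩ := h2 v hv
  have e1 : (fun k => ψ v (k, false)) = 0 := rfl
  have e2 : (fun k => ψ v (k, true)) = v := rfl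
  refine ⟨?_, fun p => if p.2 then 0 else u p.1, ?_⟩
  · simp only [Fintype.sum_prod_type, Fintype.sum_bool, spec_true, spec_false, ← hA, e1, e2,
      mulVec_zero]
    simpa [ψ] using h3
  · funext ⟨h, t⟩
    cases t
    · rw [spec_false]
      exact congrFun (mulVec_zero _) h
    · rw [spec_true, ← hA]
      exact congrFun h4 h

theorem ahat_symm {c : Par} {P : Type} [Fintype P] (Γ : Gl c P) (u v : P → ℝ) :
    ∑ p, ahat Γ u p * v p = ∑ p, u p * ahat Γ v p := by
  simp only [ahat, Finset.sum_mul, Finset.mul_sum]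
  rw [Finset.sum_comm, Finset.sum_comm (s := Finset.univ (α := P))]
  refine Finset.sum_congr rfl fun e _ => ?_
  have hi : Function.Involutive (Γ.σ e) := Γ.invol e
  rw [← Equiv.sum_comp hi.toPerm]
  exact Finset.sum_congr rfl fun p _ => by
    rw [Function.Involutive.coe_toPerm, Γ.invol]
    ring

/-- If the labels generate and one label is 1, the graph of pieces is connected
(Subgroup.closure_induction; (h, true) and (h, false) are adjacent). -/
theorem grpGl_conn (c : Par) {Q : Type} [Group Q] (g : Ed c → Q) (h1 : g none = 1)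
    (hg : Subgroup.closure (range g) = ⊤) (p q : Q × Bool) :
    Relation.ReflTransGen (fun a b => ∃ e, (grpGl c g).σ e a = b) p q := by
  set R := Relation.ReflTransGen (fun a b => ∃ e, (grpGl c g).σ e a = b) with hR
  have f1 : ∀ e h, R (h, true) (h * g e, false) := fun e h => .single ⟨e, rfl⟩
  have f2 : ∀ e h, R (h, false) (h * (g e)⁻¹, true) := fun e h => .single ⟨e, rfl⟩
  have f3 : ∀ h, R (h, true) (h, false) := fun h => by simpa [h1] using f1 none h
  have f4 : ∀ h, R (h, false) (h, true) := fun h => by simpa [h1] using f2 none h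
  have key : ∀ k : Q, ∀ h, R (h, true) (h * k, true) ∧ R (h, true) (h * k⁻¹, true) := by
    intro k
    have hk : k ∈ Subgroup.closure (range g) := hg ▸ Subgroup.mem_top k
    induction hk using Subgroup.closure_induction with
    | mem k hk =>
      obtain ⟨e, rfl⟩ := hk
      exact fun h => ⟨(f1 e h).trans (f4 _), (f3 h).trans (f2 e h)⟩
    | one => exact fun h => by simpa using Relation.ReflTransGen.refl
    | mul a b _ _ ha hb =>
      intro h
      rw [_root_.mul_inv_rev, ← mul_assoc, ← mul_assoc]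
      exact ⟨(ha h).1.trans (hb _).1, (hb h).2.trans (ha _).2⟩
    | inv a _ ha =>
      intro h
      rw [inv_inv]
      exact ⟨(ha h).2, (ha h).1⟩
  obtain ⟨a, s⟩ := p
  obtain ⟨b, t⟩ := q
  have h2 : R (a, true) (b, true) := by simpa using (key (a⁻¹ * b) a).1
  cases s <;> cases t
  · exact ((f4 a).trans h2).trans (f3 b)
  · exact (f4 a).trans h2
  · exact h2.trans (f3 b)
  · exact h2

theorem eventually_injOn_grp {G : Type} [Group G] (K : ℕ → Subgroup G) [∀ i, (K i).Normal]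
    (ha : Antitone K) (hi : ⨅ i, K i = ⊥) (B : Finset G) :
    ∀ᶠ i in atTop, InjOn (QuotientGroup.mk' (K i)) B := by
  have key : ∀ x : G, ∀ᶠ i in atTop, x ∈ K i → x = 1 := by
    intro x
    by_cases hx : x = 1
    · exact Eventually.of_forall fun _ _ => hx
    · have h1 : ¬ ∀ i, x ∈ K i := fun h => hx (Subgroup.mem_bot.1 (hi ▸ Subgroup.mem_iInf.2 h))
      obtain ⟨j, hj⟩ := not_forall.1 h1
      filter_upwards [eventually_ge_atTop j] with i hij h
      exact absurd (ha hij h) hj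
  filter_upwards [(eventually_all_finset B).2 fun p _ => (eventually_all_finset B).2 fun q _ =>
    key (p⁻¹ * q)] with i h p hp q hq hpq
  exact inv_mul_eq_one.1 (h p hp q hq (QuotientGroup.eq.1 hpq))

/-- Lower bound for the regularised determinant along every residual chain. -/
theorem spec_lower {α : Type} [DecidableEq α] [Fintype α] [Nonempty α] {s : Option α → ℝ}
    (hs : ∀ e, s e = 1 ∨ s e = -1) (h1 : s none = 1) (K : ℕ → Subgroup (FreeGroup α))
    [∀ i, (K i).Normal] [∀ i, Fintype (FreeGroup α ⧸ K i)] [∀ i, DecidableEq (FreeGroup α ⧸ K i)]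
    (ha : Antitone K) (hi : ⨅ i, K i = ⊥)
    {A : ∀ i, Matrix (FreeGroup α ⧸ K i) (FreeGroup α ⧸ K i) ℝ}
    (hA : ∀ i, A i = ∑ e, s e • reg _ (QuotientGroup.mk' (K i) (e.elim 1 FreeGroup.of)))
    (hM : ∀ i, (A i * (A i)ᵀ).IsHermitian) (h0 : ∀ i j, 0 ≤ (hM i).eigenvalues j) {τ : ℝ}
    (hτ : 0 < τ) : ∀ᶠ i in atTop, (Fintype.card (FreeGroup α ⧸ K i) : ℝ) *
      (Real.log (Fintype.card α + 1) - 13) ≤ ∑ j, Real.log (max ((hM i).eigenvalues j) τ) := by
  have hd : (0 : ℝ) < Fintype.card α + 1 := by positivity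
  obtain ⟨N, hN⟩ := exists_pow_lt_of_lt_one (div_pos hτ hd) (show (1 / 2 : ℝ) < 1 by norm_num)
  have hp : ∀ k : ℕ, (0 : ℝ) < (1 / 2) ^ k := fun k => by positivity
  have hp1 : ∀ k : ℕ, (1 / 2 : ℝ) ^ k ≤ 1 := fun k => pow_le_one₀ (by norm_num) (by norm_num)
  choose u v h2 h3 h4 using fun k : ℕ => exists_resolvent hs h1 (hp k) (hp1 k)
  filter_upwards [(eventually_all_finset (Finset.range (N + 1))).2 fun k _ =>
    (eventually_injOn_grp K ha hi (u k).support).and (eventually_injOn_grp K ha hi (v k).support)]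
    with i h
  have hc : (0 : ℝ) ≤ Fintype.card (FreeGroup α ⧸ K i) := Nat.cast_nonneg _
  have h5 := sum_log_ge _ (h0 i) hd N fun k hk => by
    obtain ⟨h6, h7⟩ := h k (Finset.mem_range.2 (by omega))
    have h8 := cv_solve (QuotientGroup.mk' (K i)) s _ (h2 k)
    rw [← hA] at h8
    have h9 : 0 < (Fintype.card α + 1 : ℝ) * ((1 / 2) ^ k) ^ 2 := mul_pos hd (pow_pos (hp k) 2)
    refine (sum_inv_le h8 (hM i) (h0 i) h9).trans ?_
    rw [cv_trace _ _ h6, cv_trace _ _ h7, mul_left_comm, ← mul_add]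
    refine mul_le_mul_of_nonneg_left ((add_le_add (h3 k)
      (mul_le_mul_of_nonneg_left (h4 k) (inv_pos.2 h9).le)).trans (le_of_eq ?_)) hc
    have := (hp k).ne'
    field_simp
    ring
  have h6 : (Fintype.card α + 1 : ℝ) * ((1 / 2) ^ N) ^ 2 ≤ τ := by
    rw [lt_div_iff₀ hd] at hN
    nlinarith [mul_le_mul_of_nonneg_left (hp1 N) (mul_pos hd (hp N)).le]
  have h7 : ∑ j, Real.log ((hM i).eigenvalues j + (Fintype.card α + 1) * ((1 / 2) ^ N) ^ 2) ≤
      ∑ j, (1 + Real.log (max ((hM i).eigenvalues j) τ)) := Finset.sum_le_sum fun j _ => by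
    have h8 : 0 < max ((hM i).eigenvalues j) τ := hτ.trans_le (le_max_right _ _)
    refine (Real.log_le_log (y := 2 * max ((hM i).eigenvalues j) τ)
      (by linarith [h0 i j, mul_pos hd (pow_pos (hp N) 2)])
      (by linarith [le_max_left ((hM i).eigenvalues j) τ,
        le_max_right ((hM i).eigenvalues j) τ])).trans ?_
    rw [Real.log_mul two_ne_zero h8.ne']
    linarith [Real.log_two_lt_d9]
  rw [Finset.sum_add_distrib, Finset.sum_const, Finset.card_univ, nsmul_eq_mul] at h7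
  nlinarith [mul_nonneg hc (hp N).le]

theorem exists_signs (n : ℕ) : ∃ t : Fin (2 * n + 1 + 1) → ℤ,
    (∀ j, t j = 1 ∨ t j = -1) ∧ ∑ j, t j = 0 := by
  refine ⟨fun j => (-1) ^ (j : ℕ), fun j => neg_one_pow_eq_or ℤ j, ?_⟩
  rw [Fin.sum_univ_eq_sum_range (fun j => (-1 : ℤ) ^ j), neg_one_geom_sum, if_pos ⟨n + 1, by ring⟩]

theorem exists_spec : ∃ (c : Par) (K : ℕ → Subgroup (FreeGroup (Fin (c.m + 1))))
    (_ : ∀ i, (K i).Normal) (_ : ∀ i, Fintype (FreeGroup (Fin (c.m + 1)) ⧸ K i))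
    (x : ∀ i, FreeGroup (Fin (c.m + 1)) ⧸ K i → ℝ), K 0 = ⊤ ∧ StrictAnti K ∧ ⨅ i, K i = ⊥ ∧
    (∀ i, (K i).FiniteIndex) ∧
    (∀ d : ℝ, ∀ᶠ i in atTop, d ≤ Fintype.card (FreeGroup (Fin (c.m + 1)) ⧸ K i)) ∧
    (∀ i (s : ℝ), ∃ W : Submodule ℝ ((FreeGroup (Fin (c.m + 1)) ⧸ K i) × Bool → ℝ),
      Module.finrank ℝ W = (Finset.univ.filter fun j => 0 < x i j ∧ x i j ≤ s).card ∧
      ∀ v ∈ W, ∑ p, ahat (grpGl c fun e => ((e.elim 1 FreeGroup.of : FreeGroup (Fin (c.m + 1))) :
          FreeGroup (Fin (c.m + 1)) ⧸ K i)) v p ^ 2 ≤ s * ∑ p, v p ^ 2 ∧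
        ∃ u, ahat (grpGl c fun e => ((e.elim 1 FreeGroup.of : FreeGroup (Fin (c.m + 1))) :
          FreeGroup (Fin (c.m + 1)) ⧸ K i)) u = v) ∧
    ∀ T : ℝ, 1 ≤ T → ∀ᶠ i in atTop, (Fintype.card (FreeGroup (Fin (c.m + 1)) ⧸ K i) : ℝ) ≤
      ∑ j, if 0 < x i j then max 0 (-Real.log (T * x i j)) else 0 := by
  classical
  obtain ⟨n, hn⟩ := exists_nat_gt (Real.exp 15)
  obtain ⟨t, t1, t2⟩ := exists_signs n
  let c : Par := ⟨2 * n + 1, fun e => e.elim (-1) fun j => t j, by
    rintro (_ | j)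
    · exact Or.inr rfl
    · change (t j : ℝ) = 1 ∨ (t j : ℝ) = -1
      exact_mod_cast t1 j⟩
  have := freeGroup_resFin (c.m + 1)
  obtain ⟨a, ha⟩ : ∃ a, a = elj (FreeGroup.of (0 : Fin (c.m + 1))) (qy 0) fun j => -t j :=
    ⟨_, rfl⟩
  have hc0 := l1_nonneg (a * bar a * (a * bar a) - a * bar a)
  have hδ : 0 < 1 / (l1 (a * bar a * (a * bar a) - a * bar a) + 1) := by positivity
  obtain ⟨S, h0, h1, h2, h3⟩ := exists_chain_stg (0 : Fin (c.m + 1))
    (β := 1 + 1 / (l1 (a * bar a * (a * bar a) - a * bar a) + 1)) (by linarith)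
  let iF : ∀ i, Fintype (FreeGroup (Fin (c.m + 1)) ⧸ (S i).π.ker) := fun i => Fintype.ofFinite _
  let : ∀ i, Fintype (S i).H := fun i => Fintype.ofFinite _
  have hr : ∀ {k : Type} [Fintype k] [DecidableEq k] (ρ : FreeGroup (Fin (c.m + 1)) →* Matrix k k ℝ),
      rep ρ a = ∑ e : Ed c, (sg e * c.ε e) • ρ (e.elim 1 FreeGroup.of) := by
    intro k _ _ ρ
    rw [Fintype.sum_option]
    change _ = ((-1 : ℝ) * -1) • ρ 1 + ∑ j, ((1 : ℝ) * t j) • ρ (FreeGroup.of j)
    have e : ∑ j : Fin (c.m + 1), t j • ρ (FreeGroup.of 0) = 0 := by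
      rw [← Finset.sum_smul, show ∑ j : Fin (c.m + 1), t j = 0 from t2, zero_smul]
    have e2 : ∀ j, ρ (FreeGroup.of 0) * ρ (qy 0 j) = ρ (FreeGroup.of j) := fun j => by
      rw [← map_mul, qy, mul_inv_cancel_left]
    simp only [ha, elj, map_add, map_one, map_mul, map_sum, map_sub, map_zsmul, rep_single,
      one_smul]
    simp only [mul_neg, Finset.mul_sum, mul_smul_comm, mul_sub, mul_one, e2, neg_smul, smul_sub,
      Finset.sum_sub_distrib, Finset.sum_neg_distrib, e, neg_zero, zero_sub, neg_neg,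
      one_smul, one_mul, Int.cast_smul_eq_zsmul]
    rfl
  choose hM g1 _ _ using fun i => exists_eigs (QuotientGroup.mk' (S i).π.ker) a
  have g0 : ∀ i j, 0 ≤ (hM i).eigenvalues j := fun i j =>
    (g1 i _ (Multiset.mem_map_of_mem _ (Finset.mem_univ_val j))).1
  refine ⟨c, fun i => (S i).π.ker, inferInstance, iF, fun i => (hM i).eigenvalues, h1, h2, h3,
    fun i => inferInstance, fun d => ?_, fun i s => ?_, fun T hT => ?_⟩
  · filter_upwards [tendsto_card_quot _ h2.antitone h3 (fun i => inferInstance) d] with i h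
    rwa [Nat.card_eq_fintype_card] at h
  · exact exists_small_space_grp c _ _ (hr ((reg _).comp (QuotientGroup.mk' (S i).π.ker))) (hM i) s
  · filter_upwards [spec_lower (s := fun e : Ed c => sg e * c.ε e) (fun e => by
      rcases e with _ | j
      · exact Or.inl (by simp [sg, c])
      · simpa [sg] using c.hε (some j)) (by simp [sg, c]) _ h2.antitone h3
      (fun i => hr ((reg _).comp (QuotientGroup.mk' (S i).π.ker))) hM g0
      (inv_pos.2 (zero_lt_one.trans_le hT))] with i h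
    obtain ⟨hN, -⟩ := exists_eigs (S i).π a
    have hH : (0 : ℝ) < Fintype.card (S i).H := by exact_mod_cast Fintype.card_pos
    have hQ : (0 : ℝ) ≤ Fintype.card (FreeGroup (Fin (c.m + 1)) ⧸ (S i).π.ker) := Nat.cast_nonneg _
    have h4 : ((eigs hN).map Real.log).sum ≤ l1 (a * bar a * (a * bar a) - a * bar a) *
        (1 / (l1 (a * bar a * (a * bar a) - a * bar a) + 1) * Fintype.card (S i).H) := by
      have := h0 i
      subst ha
      exact (S i).sum_log_le (fun j => -t j) this hN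
    have h5 : l1 (a * bar a * (a * bar a) - a * bar a) *
        (1 / (l1 (a * bar a * (a * bar a) - a * bar a) + 1)) ≤ 1 := by
      rw [mul_one_div, div_le_one (by positivity)]
      linarith
    rw [← mul_assoc] at h4
    have h6 := h4.trans (mul_le_mul_of_nonneg_right h5 hH.le)
    have h7 := specb_transfer (S i).π (QuotientGroup.mk' (S i).π.ker) (QuotientGroup.ker_mk' _) _
      hN (hM i) Real.log Real.log_zero
    rw [eigs_sum (hM i)] at h7
    have h8 : ∑ j, Real.log ((hM i).eigenvalues j) ≤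
        Fintype.card (FreeGroup (Fin (c.m + 1)) ⧸ (S i).π.ker) := by
      refine le_of_mul_le_mul_left ?_ hH
      rw [h7, mul_comm (Fintype.card (S i).H : ℝ)]
      exact mul_le_mul_of_nonneg_left (by linarith) hQ
    have h9 := Finset.sum_le_sum fun j (_ : j ∈ Finset.univ) => specb_pt hT (g0 i j)
    rw [Finset.sum_add_distrib] at h9
    have h10 : 15 ≤ Real.log (Fintype.card (Fin (c.m + 1)) + 1) := by
      rw [Real.le_log_iff_exp_le (by positivity), Fintype.card_fin]
      change _ ≤ ((2 * n + 1 + 1 : ℕ) : ℝ) + 1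
      push_cast
      linarith [Nat.cast_nonneg (α := ℝ) n]
    nlinarith [mul_le_mul_of_nonneg_left h10 hQ]

end Pool.Agent.Lib.MP_75c153_gt.Ft
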