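import Pool.Agent.Lib.MP_75c153_gt.Ft.GeoA

open MeasureTheory Filter Topology Set
open scoped ContDiff InnerProductSpace

namespace Pool.Agent.Lib.MP_75c153_gt.Ft

open Pool.Agent.Lib.MP_570070_gt.An

noncomputable section

variable {c : Par}

/-- smoothTransition (1 - x) = 1 - smoothTransition x (unfold; the denominator is symmetric). -/
theorem smoothTransition_one_sub (x : ℝ) :
    Real.smoothTransition (1 - x) = 1 - Real.smoothTransition x := by
  have h := Real.smoothTransition.pos_denom x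
  unfold Real.smoothTransition
  rw [sub_sub_cancel, add_comm (expNegInvGlue (1 - x)), eq_sub_iff_add_eq, ← add_div,
    add_comm (expNegInvGlue (1 - x)), div_self h.ne']

theorem geob_glue_lt {x y : ℝ} (hy : 0 < y) (h : x < y) : expNegInvGlue x < expNegInvGlue y := by
  rcases le_or_gt x 0 with hx | hx
  · rw [expNegInvGlue.zero_of_nonpos hx]
    exact expNegInvGlue.pos_of_pos hy
  · unfold expNegInvGlue
    rw [if_neg hx.not_ge, if_neg hy.not_ge]
    exact Real.exp_lt_exp.2 (neg_lt_neg (inv_strictAnti₀ hx h))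

/-- expNegInvGlue is strictly increasing on [0, ∞). -/
theorem half_lt_smoothTransition (x : ℝ) : 1 / 2 < Real.smoothTransition x ↔ 1 / 2 < x := by
  have h := Real.smoothTransition.pos_denom x
  unfold Real.smoothTransition
  rw [lt_div_iff₀ h]
  constructor
  · intro h1
    by_contra h2
    have h3 : expNegInvGlue x ≤ expNegInvGlue (1 - x) :=
      expNegInvGlue.monotone (by linarith [not_lt.1 h2])
    linarith
  · intro h1
    have h3 : expNegInvGlue (1 - x) < expNegInvGlue x := geob_glue_lt (by linarith) (by linarith)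
    linarith

theorem half_lt_eta {y : Eu 5} (hy : y ∈ DR c) : 1 / 2 < eta c y ↔ ∀ e : Ed c, 0 < sc e y := by
  by_cases h : ∃ e : Ed c, sc e y ≤ 2
  · obtain ⟨e, he⟩ := h
    have h1 : 1 / 2 < eta c y ↔ 0 < sc e y := by
      rw [eta_collar hy he, kap, ← smoothTransition_one_sub, half_lt_smoothTransition]
      constructor <;> intro h <;> linarith
    rw [h1]
    refine ⟨fun h2 e' => ?_, fun h2 => h2 e⟩
    by_cases hee : e = e'
    · exact hee ▸ h2
    · linarith [sc_disj hy hee he]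
  · have h1 : ∀ e : Ed c, 2 < sc e y := fun e => not_le.1 fun he => h ⟨e, he⟩
    rw [eta_eq_one fun e => by linarith [h1 e]]
    exact ⟨fun _ e => by linarith [h1 e], fun _ => by norm_num⟩

theorem eta_lt_half {y : Eu 5} (hy : y ∈ DR c) : eta c y < 1 / 2 ↔ ∃ e : Ed c, sc e y < 0 := by
  by_cases h : ∃ e : Ed c, sc e y ≤ 2
  · obtain ⟨e, he⟩ := h
    have h1 : eta c y < 1 / 2 ↔ sc e y < 0 := by
      have h2 := half_lt_smoothTransition (1 / 2 - sc e y)
      rw [eta_collar hy he, kap]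
      constructor
      · intro h
        linarith [h2.1 (by linarith)]
      · intro h
        linarith [h2.2 (by linarith)]
    rw [h1]
    refine ⟨fun h2 => ⟨e, h2⟩, fun ⟨e', h2⟩ => ?_⟩
    by_cases hee : e = e'
    · exact hee ▸ h2
    · linarith [sc_disj hy hee he]
  · have h1 : ∀ e : Ed c, 2 < sc e y := fun e => not_le.1 fun he => h ⟨e, he⟩
    rw [eta_eq_one fun e => by linarith [h1 e]]
    exact ⟨fun h2 => by norm_num at h2, fun ⟨e, h2⟩ => by linarith [h1 e]⟩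

theorem eta_eq_half {y : Eu 5} (hy : y ∈ DR c) (h : eta c y = 1 / 2) :
    ∃ e : Ed c, sc e y = 0 := by
  by_contra h1
  refine h.not_gt ((half_lt_eta hy).2 fun e => lt_of_le_of_ne ?_ fun h2 => h1 ⟨e, h2.symm⟩)
  exact not_lt.1 fun h2 => h.not_lt ((eta_lt_half hy).2 ⟨e, h2⟩)

theorem geob_some {a : ℝ} {j : Fin (c.m + 1)} {y : Eu 5} (h : 0 < rsq (c := c) (some j) y) :
    a ≤ sc (c := c) (some j) y ↔ Real.exp (2 * (a - 3)) ≤ rsq (c := c) (some j) y := by
  rw [← Real.le_log_iff_exp_le h]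
  simp only [sc, sg, mid]
  constructor <;> intro h <;> linarith

theorem geob_none {a : ℝ} {y : Eu 5} (h : 0 < rsq (c := c) none y) :
    a ≤ sc (c := c) none y ↔ rsq (c := c) none y ≤ Real.exp (2 * (c.m + 4 - a)) := by
  rw [← Real.log_le_iff_le_exp h]
  simp only [sc, sg, mid]
  constructor <;> intro h <;> linarith

theorem mem_DRb_iff {b : Bool} {y : Eu 5} : y ∈ DRb c b ↔
    (∀ e : Ed c, 0 < rsq e y ∧ -1 < sc e y) ∧ |y 3 - 4 * tau b| < 3 ∧ |y 4| < 3 := by
  refine ⟨?_, fun h => ?_⟩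
  · rintro ⟨h, rfl⟩
    exact h
  · have h1 : cb y = b := by
      have h2 := abs_lt.1 h.2.1
      cases b <;> simp only [tau, cb, decide_eq_true_eq, decide_eq_false_iff_not, if_true,
        Bool.false_eq_true, if_false] at h2 ⊢ <;> linarith [h2.1, h2.2]
    exact ⟨⟨h.1, by rw [zc, h1]; exact h.2.1, h.2.2⟩, h1⟩

theorem zc_of_mem {b : Bool} {y : Eu 5} (h : y ∈ DRb c b) : zc y = y 3 - 4 * tau b := by
  rw [zc, h.2]

theorem DR_eq : DR c = DRb c true ∪ DRb c false := by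
  ext y
  refine ⟨fun h => ?_, fun h => h.elim And.left And.left⟩
  cases hb : cb y
  exacts [Or.inr ⟨h, hb⟩, Or.inl ⟨h, hb⟩]

/-- Compact parts of one chart. -/
theorem isCompact_coreb {a t : ℝ} (ha : -1 < a) (ht : t < 3) (b : Bool) :
    IsCompact {y : Eu 5 | y ∈ DRb c b ∧ (∀ e : Ed c, a ≤ sc e y) ∧ |zc y| ≤ t ∧ |y 4| ≤ t} := by
  have hK : {y : Eu 5 | y ∈ DRb c b ∧ (∀ e : Ed c, a ≤ sc e y) ∧ |zc y| ≤ t ∧ |y 4| ≤ t} =
      (⋂ j : Fin (c.m + 1), {y : Eu 5 | Real.exp (2 * (a - 3)) ≤ rsq (c := c) (some j) y}) ∩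
        ({y : Eu 5 | rsq (c := c) none y ≤ Real.exp (2 * (c.m + 4 - a))} ∩
          ({y : Eu 5 | |y 3 - 4 * tau b| ≤ t} ∩ {y : Eu 5 | |y 4| ≤ t})) := by
    ext y
    simp only [mem_ofPred_eq, mem_inter_iff, mem_iInter]
    constructor
    · rintro ⟨hy, h1, h2, h3⟩
      exact ⟨fun j => (geob_some (hy.1.1 _).1).1 (h1 _), (geob_none (hy.1.1 _).1).1 (h1 _),
        zc_of_mem hy ▸ h2, h3⟩
    · rintro ⟨h1, h2, h3, h3'⟩
      have h4 : ∀ e : Ed c, 0 < rsq e y := by
        rintro (_ | j)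
        · have h5 := (Real.exp_pos _).trans_le (h1 0)
          simpa [rsq, ctr] using h5
        · exact (Real.exp_pos _).trans_le (h1 j)
      have h5 : ∀ e : Ed c, a ≤ sc e y := by
        rintro (_ | j)
        · exact (geob_none (h4 _)).2 h2
        · exact (geob_some (h4 _)).2 (h1 j)
      have h6 : y ∈ DRb c b :=
        mem_DRb_iff.2 ⟨fun e => ⟨h4 e, ha.trans_le (h5 e)⟩, h3.trans_lt ht, h3'.trans_lt ht⟩
      exact ⟨h6, h5, (zc_of_mem h6).symm ▸ h3, h3'⟩
  rw [hK]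
  have hc : ∀ e : Ed c, Continuous (rsq e) := fun e => (contDiff_rsq e).continuous
  obtain ⟨R, hR⟩ : ∃ R, R = Real.exp (2 * (c.m + 4 - a)) := ⟨_, rfl⟩
  have hR0 : 0 < R := hR ▸ Real.exp_pos _
  rw [← hR]
  refine (isCompact_closedBall (0 : Eu 5) (R + 7)).of_isClosed_subset ?_ ?_
  · exact (isClosed_iInter fun j => isClosed_le continuous_const (hc _)).inter
      ((isClosed_le (hc _) continuous_const).inter ((isClosed_le (by fun_prop) continuous_const).inter
        (isClosed_le (by fun_prop) continuous_const)))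
  · rintro y ⟨-, h2, h3, h3'⟩
    have h4 : y 0 ^ 2 + y 1 ^ 2 + y 2 ^ 2 ≤ R := by simpa [rsq, ctr] using h2
    have h5 : ∀ u : ℝ, u ^ 2 ≤ R → |u| ≤ R + 7 := fun u hu =>
      abs_le.2 ⟨by nlinarith [sq_nonneg (u + 1)], by nlinarith [sq_nonneg (u - 1)]⟩
    have n0 := sq_nonneg (y 0)
    have n1 := sq_nonneg (y 1)
    have n2 := sq_nonneg (y 2)
    rw [mem_ofPred_eq, abs_le] at h3 h3'
    rw [mem_closedBall_zero_iff, pi_norm_le_iff_of_nonneg (by linarith)]
    intro i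
    fin_cases i
    · exact h5 (y 0) (by linarith)
    · exact h5 (y 1) (by linarith)
    · exact h5 (y 2) (by linarith)
    · show |y 3| ≤ R + 7
      rcases tau_cases b with e | e <;> rw [e] at h3 <;>
        exact abs_le.2 ⟨by linarith [h3.1], by linarith [h3.2]⟩
    · exact abs_le.2 ⟨by show _ ≤ y 4; linarith [h3'.1], by show y 4 ≤ _; linarith [h3'.2]⟩

theorem isCompact_core' {a t : ℝ} (ha : -1 < a) (ht : t < 3) :
    IsCompact {y : Eu 5 | y ∈ DR c ∧ (∀ e : Ed c, a ≤ sc e y) ∧ |zc y| ≤ t ∧ |y 4| ≤ t} := by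
  convert (isCompact_coreb (c := c) ha ht true).union (isCompact_coreb (c := c) ha ht false) using 1
  ext y
  simp only [mem_ofPred_eq, mem_union, DR_eq (c := c), or_and_right]

theorem isCompact_core {a : ℝ} (ha : -1 < a) {R : ℝ} (hR : R < 9) :
    IsCompact {y : Eu 5 | y ∈ DR c ∧ (∀ e : Ed c, a ≤ sc e y) ∧ zsq y ≤ R} := by
  have h1 : √R < 3 := Real.sqrt_lt' (by norm_num) |>.2 (by linarith)
  have h2 := isCompact_core' (c := c) ha h1
  have h3 := (contDiffOn_zsq.continuousOn.mono fun _ h => h.1).preimage_isClosed_of_isClosed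
    h2.isClosed (isClosed_Iic (a := R))
  convert h2.of_isClosed_subset h3 inter_subset_left using 1
  ext y
  refine ⟨fun h => ⟨⟨h.1, h.2.1, Real.abs_le_sqrt ?_, Real.abs_le_sqrt ?_⟩, h.2.2⟩,
    fun h => ⟨h.1.1, h.1.2.1, h.2⟩⟩
  · exact (le_add_of_nonneg_right (sq_nonneg _)).trans h.2.2
  · exact (le_add_of_nonneg_left (sq_nonneg _)).trans h.2.2

theorem abs_le_of_zsq {y : Eu 5} (h : zsq y ≤ 4) : |zc y| ≤ 2 ∧ |y 4| ≤ 2 := by
  rw [zsq] at h
  exact ⟨abs_le_of_sq_le_sq (by nlinarith [sq_nonneg (y 4)]) zero_le_two,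
    abs_le_of_sq_le_sq (by nlinarith [sq_nonneg (zc y)]) zero_le_two⟩

/-- A compact set that carries the weight. -/
def Kw (c : Par) : Set (Eu 5) :=
  {y | y ∈ DR c ∧ (∀ e : Ed c, -1 / 2 ≤ sc e y) ∧ |zc y| ≤ 2 ∧ |y 4| ≤ 2}

theorem isCompact_Kw : IsCompact (Kw c) := isCompact_core' (by norm_num) (by norm_num)

theorem Kw_subset : Kw c ⊆ DR c := fun _ h => h.1

theorem mem_Kw_of_wg {y : Eu 5} (hy : y ∈ DR c) (h : wg c y ≠ 0) : y ∈ Kw c :=
  ⟨hy, sc_ge_of_eta_ne hy (left_ne_zero_of_mul h),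
    abs_le_of_zsq (by linarith [zsq_lt_of_rho_ne (right_ne_zero_of_mul h)])⟩

theorem geob_convex (e : Ed c) (r : ℝ) : Convex ℝ {y : Eu 5 | rsq e y < r} := by
  refine convex_iff_forall_pos.2 fun x hx y hy a b ha hb hab => ?_
  obtain rfl : b = 1 - a := by linarith
  simp only [mem_ofPred_eq, rsq, Pi.add_apply, Pi.smul_apply, smul_eq_mul] at hx hy ⊢
  have h1 := mul_lt_mul_of_pos_left hx ha
  have h2 := mul_lt_mul_of_pos_left hy hb
  have h3 := mul_nonneg (mul_pos ha hb).le (sq_nonneg (x 0 - y 0))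
  have h4 := mul_nonneg (mul_pos ha hb).le (sq_nonneg (x 1 - y 1))
  have h5 := mul_nonneg (mul_pos ha hb).le (sq_nonneg (x 2 - y 2))
  nlinarith

theorem geob_null (e : Ed c) {r : ℝ} (hr : 0 < r) : volume {y : Eu 5 | rsq e y = r} = 0 := by
  refine measure_mono_null (fun y hy => ?_) ((geob_convex e r).addHaar_frontier volume)
  have hy' : rsq e y = r := hy
  rw [(isOpen_lt (contDiff_rsq e).continuous continuous_const).frontier_eq]
  refine ⟨?_, fun h => hy'.not_lt h⟩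
  refine closure_mono ?_ (segment_subset_closure_openSegment
    (right_mem_segment ℝ (![ctr e, 0, 0, y 3, y 4] : Eu 5) y))
  rintro z ⟨a, b, ha, hb, hab, rfl⟩
  obtain rfl : a = 1 - b := by linarith
  have h1 : rsq e ((1 - b) • (![ctr e, 0, 0, y 3, y 4] : Eu 5) + b • y) = b ^ 2 * rsq e y := by
    simp [rsq]
    ring
  show rsq e _ < r
  rw [h1, hy']
  have h2 : b ^ 2 < 1 := by nlinarith
  nlinarith

/-- The middle hypersurfaces are null. -/
theorem volume_mid : volume {y : Eu 5 | y ∈ DR c ∧ ∃ e : Ed c, sc e y = 0} = 0 := by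
  refine measure_mono_null (t := ⋃ e : Ed c, {y : Eu 5 | rsq e y = Real.exp (2 * mid e)}) ?_
    (measure_iUnion_null fun e => geob_null e (Real.exp_pos _))
  rintro y ⟨hy, e, he⟩
  refine mem_iUnion.2 ⟨e, ?_⟩
  have h1 : sg e ≠ 0 := fun h => by simpa [h] using sg_sq e
  have h2 : Real.log (rsq e y) = 2 * mid e := by
    have h3 := (mul_eq_zero.1 he).resolve_left h1
    linarith
  show rsq e y = _
  rw [← h2, Real.exp_log (hy.1 e).1]

theorem geob_fderiv_zero {e : Ed c} {y : Eu 5} (hy : y ∈ DR c) (h : 1 / 2 < |sc e y|) :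
    fderiv ℝ (kap e) y = 0 := by
  have hc : ContinuousAt (sc e) y :=
    (contDiffOn_sc e).continuousOn.continuousAt (isOpen_DR.mem_nhds hy)
  rcases lt_abs.1 h with h1 | h1
  · have h2 : kap e =ᶠ[𝓝 y] fun _ => 0 :=
      (hc.eventually (lt_mem_nhds h1)).mono fun z hz => kap_eq_zero (le_of_lt hz)
    rw [h2.fderiv_eq, fderiv_fun_const, Pi.zero_apply]
  · have h3 : sc e y < -1 / 2 := by linarith
    have h2 : kap e =ᶠ[𝓝 y] fun _ => 1 :=
      (hc.eventually (gt_mem_nhds h3)).mono fun z hz => kap_eq_one (le_of_lt hz)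
    rw [h2.fderiv_eq, fderiv_fun_const, Pi.zero_apply]

theorem geob_hasFDerivAt_sc (e : Ed c) {y : Eu 5} (h : 0 < rsq e y) :
    ∃ D : Eu 5 →L[ℝ] ℝ, HasFDerivAt (sc e) D y ∧
      ∀ v, D v = sg e * (((y 0 - ctr e) * v 0 + y 1 * v 1 + y 2 * v 2) / rsq e y) := by
  have h0 : HasFDerivAt (fun y : Eu 5 => y 0) (ContinuousLinearMap.proj 0 : Eu 5 →L[ℝ] ℝ) y :=
    hasFDerivAt_apply 0 y
  have h1 : HasFDerivAt (fun y : Eu 5 => y 1) (ContinuousLinearMap.proj 1 : Eu 5 →L[ℝ] ℝ) y :=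
    hasFDerivAt_apply 1 y
  have h1' : HasFDerivAt (fun y : Eu 5 => y 2) (ContinuousLinearMap.proj 2 : Eu 5 →L[ℝ] ℝ) y :=
    hasFDerivAt_apply 2 y
  have h2 : HasFDerivAt (rsq e) _ y :=
    (((h0.sub_const (ctr e)).pow 2).add (h1.pow 2)).add (h1'.pow 2)
  have h3 := (((h2.log h.ne').mul_const (2 : ℝ)⁻¹).sub_const (mid e)).const_mul (sg e)
  refine ⟨_, h3, fun v => ?_⟩
  simp
  ring

/-- The gradient of kap e is bounded. -/
theorem exists_grad_kap (c : Par) : ∃ c₀ : ℝ, 0 ≤ c₀ ∧ ∀ (e : Ed c), ∀ y ∈ DR c,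
    gsq c y (fderiv ℝ (kap e) y) ≤ c₀ ^ 2 := by
  have hT : ContDiff ℝ 1 Real.smoothTransition := Real.smoothTransition.contDiff (n := 1)
  obtain ⟨C, hC⟩ := (isCompact_Icc (a := (0 : ℝ)) (b := 1)).exists_bound_of_continuousOn
    (hT.continuous_deriv le_rfl).continuousOn
  have hC0 : 0 ≤ C := (norm_nonneg _).trans (hC 0 (left_mem_Icc.2 zero_le_one))
  refine ⟨C, hC0, fun e y hy => ?_⟩
  rcases lt_or_ge (1 / 2) |sc e y| with h | h
  · rw [geob_fderiv_zero hy h]
    simpa [gsq] using sq_nonneg C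
  · obtain ⟨h1, h2⟩ := abs_le.1 h
    have hr := (hy.1 e).1
    obtain ⟨D, hD, hD'⟩ := geob_hasFDerivAt_sc e hr
    have h3 : HasFDerivAt (kap e) _ y :=
      (hT.differentiable one_ne_zero _).hasDerivAt.comp_hasFDerivAt y (hD.const_sub (1 / 2))
    have h4 := hC (1 / 2 - sc e y) ⟨by linarith, by linarith⟩
    rw [h3.fderiv]
    generalize deriv Real.smoothTransition (1 / 2 - sc e y) = d at h4 ⊢
    have h5 : gsq c y (d • -D) = d ^ 2 := by
      have h6 : √(rsq e y) ^ 2 = rsq e y := Real.sq_sqrt hr.le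
      have h7 : (y 0 - ctr e) ^ 2 + y 1 ^ 2 + y 2 ^ 2 = rsq e y := rfl
      have h8 := sg_sq e
      rw [gsq, Fin.sum_univ_five]
      simp only [fr, ell, lam_collar hy (show sc e y ≤ 1 by linarith), inv_inv, Matrix.cons_val_zero,
        Matrix.cons_val_one, Matrix.cons_val, smul_apply,
        neg_apply, hD', smul_eq_mul, Pi.smul_apply, bas]
      simp
      generalize √(rsq e y) = q at h6
      generalize rsq e y = r at hr h6 h7
      field_simp
      rw [h8, h6, h7]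
      ring
    rw [h5, ← sq_abs d]
    exact pow_le_pow_left₀ (abs_nonneg d) h4 2

theorem fderiv_kap_eq_zero {e : Ed c} {y : Eu 5} (hy : y ∈ DR c) (h : 1 / 2 < |sc e y|) :
    fderiv ℝ (kap e) y = 0 := by
  exact geob_fderiv_zero hy h

end

end Pool.Agent.Lib.MP_75c153_gt.Ft
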