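import Pool.Agent.Lib.MP_75c153_gt.Ft.VD
import Pool.Agent.Lib.MP_75c153_gt.Ft.VS

open MeasureTheory Filter Topology Set
open scoped ContDiff
open Pool.Agent.Lib.MP_570070_gt.An (Eu bas)

namespace Pool.Agent.Lib.MP_75c153_gt.Ft

variable {n : ℕ}

variable {T T' K K' U U' : Set (Eu n)}

theorem Solv.mono (h : Solv T K) (hT : T ⊆ T') (hK : K' ⊆ K) : Solv T' K' := by
  obtain ⟨L, C, h1, h2, h3, h4⟩ := h
  exact ⟨L, C, h1, h2.trans hT, h3, fun F hF => h4 F (hF.mono hK)⟩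

/-- Solvable for all compact subsets of U. -/
def SolvO (T U : Set (Eu n)) : Prop := ∀ K, IsCompact K → K ⊆ U → Solv T K

theorem ve_part {L N : Set (Eu n)} {B s : Eu n → ℝ} (hK : IsCompact K) (hN : IsCompact N)
    (hB : Sm N B) (h1 : ∫ y, B y = 1) (hs : ContDiff ℝ ∞ s) (h01 : ∀ y, 0 ≤ s y ∧ s y ≤ 1)
    (hL : ∀ y ∈ K, s y ≠ 0 → y ∈ L) (h : Solv T (L ∪ N)) :
    ∃ (K' : Set (Eu n)) (C : ℝ), IsCompact K' ∧ K' ⊆ T ∧ 0 ≤ C ∧ ∀ F : Eu n → ℝ, Sm K F →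
      ∃ V : Eu n → Eu n, Sm K' V ∧ (∀ y, dvg V y = s y * F y - (∫ z, s z * F z) * B y) ∧
        ∫ y, ∑ i, V y i ^ 2 ≤ C * ∫ y, F y ^ 2 := by
  obtain ⟨K', C, h2, h3, h4, h5⟩ := h
  obtain ⟨C₀, h6, h7⟩ := exists_integral_sq_le hK
  have h8 : 0 ≤ ∫ y, B y ^ 2 := integral_nonneg fun y => sq_nonneg _
  refine ⟨K', C * (2 + 2 * C₀ * ∫ y, B y ^ 2), h2, h3, by positivity, fun F hF => ?_⟩
  have a1 : Sm K fun y => s y * F y := hF.smul hs
  have a2 : Sm L fun y => s y * F y := ⟨a1.1, fun y hy => hL y (a1.2 y hy) (left_ne_zero_of_mul hy)⟩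
  have a3 := h7 _ a1.1.continuous a1.2
  generalize hm : ∫ z, s z * F z = m at a3 ⊢
  have a4 : Sm N fun y => m * B y := hB.smul contDiff_const
  have a5 : ∀ y, (s y * F y) ^ 2 ≤ F y ^ 2 := fun y => by
    rw [mul_pow]
    exact mul_le_of_le_one_left (sq_nonneg _) (pow_le_one₀ (h01 y).1 (h01 y).2)
  have a6 := mul_le_mul_of_nonneg_left
    (integral_mono (a1.integrable_sq hK) (hF.integrable_sq hK) a5) h6
  obtain ⟨V, b1, b2, b3⟩ := h5 _ (a2.sub a4) (by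
    rw [integral_sub (integrable_of_supp a1.1.continuous hK a1.2)
      (integrable_of_supp a4.1.continuous hN a4.2), integral_const_mul, hm, h1, mul_one, sub_self])
  refine ⟨V, b1, b2, b3.trans ?_⟩
  have b4 := (hF.integrable_sq hK).const_mul 2
  have b5 := (hB.integrable_sq hN).const_mul (2 * m ^ 2)
  have b6 : ∫ y, (s y * F y - m * B y) ^ 2 ≤ ∫ y, 2 * F y ^ 2 + 2 * m ^ 2 * B y ^ 2 :=
    integral_mono ((a1.sub a4).integrable_sq (hK.union hN)) (b4.add b5) fun y => by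
      have := a5 y
      change (s y * F y - m * B y) ^ 2 ≤ 2 * F y ^ 2 + 2 * m ^ 2 * B y ^ 2
      nlinarith [sq_nonneg (s y * F y + m * B y)]
  rw [integral_add b4 b5, integral_const_mul, integral_const_mul] at b6
  rw [mul_assoc]
  refine mul_le_mul_of_nonneg_left (b6.trans ?_) h4
  nlinarith [mul_le_mul_of_nonneg_right (a3.trans a6) h8]

/-- exists_split, a bump B in U ∩ U' (exists_bump), F₁ = r F - (∫ r F) B,
F₂ = (1 - r) F + (∫ r F) B, exists_integral_sq_le. -/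
theorem SolvO.union (h : SolvO T U) (h' : SolvO T U') (hU : IsOpen U) (hU' : IsOpen U')
    (hne : (U ∩ U').Nonempty) : SolvO T (U ∪ U') := by
  intro K hK hKU
  obtain ⟨r, K₁, K₂, M, h1, h2, h3, h4, h5, h6, -, h7⟩ := exists_split hK hU hU' hKU
  obtain ⟨N, B, a1, a2, a3, -, a4⟩ := exists_bump (hU.inter hU') hne
  obtain ⟨L₁, C₁, b1, b2, b3, b4⟩ := ve_part hK a1 a3 a4 h1 h2 (fun y hy => (h7 y hy).1)
    (h _ (h3.union a1) (union_subset h5 (a2.trans inter_subset_left)))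
  obtain ⟨L₂, C₂, c1, c2, c3, c4⟩ := ve_part (s := fun y => 1 - r y) hK a1 a3 a4
    (contDiff_const.sub h1) (fun y => ⟨sub_nonneg.2 (h2 y).2, sub_le_self _ (h2 y).1⟩)
    (fun y hy h0 => (h7 y hy).2.1 (sub_ne_zero.1 h0).symm)
    (h' _ (h4.union a1) (union_subset h6 (a2.trans inter_subset_right)))
  refine ⟨L₁ ∪ L₂, 2 * C₁ + 2 * C₂, b1.union c1, union_subset b2 c2, by positivity,
    fun F hF h0 => ?_⟩
  obtain ⟨V, d1, d2, d3⟩ := b4 F hF
  obtain ⟨W, e1, e2, e3⟩ := c4 F hF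
  refine ⟨fun y => V y + W y, d1.add e1, fun y => ?_, ?_⟩
  · have f1 : Sm K fun y => r y * F y := hF.smul h1
    have f2 : ∫ z, (1 - r z) * F z = -∫ z, r z * F z := by
      simp only [sub_mul, one_mul]
      rw [integral_sub (integrable_of_supp hF.1.continuous hK hF.2)
        (integrable_of_supp f1.1.continuous hK f1.2), h0, zero_sub]
    rw [dvg_add (d1.1.differentiable (by simp) y) (e1.1.differentiable (by simp) y), d2, e2, f2]
    ring
  · have f1 := (d1.integrable_sum_sq b1).const_mul 2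
    have f2 := (e1.integrable_sum_sq c1).const_mul 2
    have f3 : ∫ y, ∑ i, (V y + W y) i ^ 2 ≤ ∫ y, 2 * ∑ i, V y i ^ 2 + 2 * ∑ i, W y i ^ 2 :=
      integral_mono ((d1.add e1).integrable_sum_sq (b1.union c1)) (f1.add f2) fun y => by
        change ∑ i, (V y i + W y i) ^ 2 ≤ 2 * ∑ i, V y i ^ 2 + 2 * ∑ i, W y i ^ 2
        rw [Finset.mul_sum, Finset.mul_sum, ← Finset.sum_add_distrib]
        exact Finset.sum_le_sum fun i _ => by nlinarith [sq_nonneg (V y i - W y i)]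
    rw [integral_add f1 f2, integral_const_mul, integral_const_mul] at f3
    linarith

theorem ve_box (hT : IsOpen T) {z : Eu n} (hz : z ∈ T) :
    ∃ W, IsOpen W ∧ z ∈ W ∧ SolvO T W := by
  obtain ⟨lo, hi, h1, h2, h3⟩ := exists_box hT hz
  exact ⟨_, isOpen_interior, h3, fun K _ hK =>
    (solv_box h1 h2).mono Subset.rfl (hK.trans interior_subset)⟩

/-- Fix x₀ ∈ T. The union G of all open U ⊆ T with x₀ ∈ U and SolvO T U is open and SolvO
(finite subcover and union); it is closed in T (exists_box, solv_box, union), so it contains T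
(IsPreconnected.subset_of_closure_inter_subset). If T is empty, K is empty. -/
theorem exists_div (hT : IsOpen T) (hc : IsPreconnected T) (hK : IsCompact K) (hKT : K ⊆ T) :
    Solv T K := by
  rcases K.eq_empty_or_nonempty with rfl | ⟨x₀, h0⟩
  · refine ⟨∅, 0, isCompact_empty, empty_subset _, le_rfl, fun F hF _ =>
      ⟨fun _ => 0, Sm.zero, fun y => ?_, by simp⟩⟩
    rw [not_not.1 (hF.2 y)]
    simp [dvg, pd_const]
  obtain ⟨W₀, a1, a2, a3⟩ := ve_box hT (hKT h0)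
  have h1 : T ⊆ ⋃₀ {U | IsOpen U ∧ x₀ ∈ U ∧ SolvO T U} := by
    refine hc.subset_of_closure_inter_subset (isOpen_sUnion fun U hU => hU.1)
      ⟨x₀, hKT h0, W₀, ⟨a1, a2, a3⟩, a2⟩ fun z hz => ?_
    obtain ⟨W, b1, b2, b3⟩ := ve_box hT hz.2
    obtain ⟨x, b4, U, ⟨b5, b6, b7⟩, b8⟩ := mem_closure_iff.1 hz.1 W b1 b2
    exact ⟨U ∪ W, ⟨b5.union b1, Or.inl b6, b7.union b3 b5 b1 ⟨x, b8, b4⟩⟩, Or.inr b2⟩
  obtain ⟨U, -, -, h2, h3⟩ := hK.induction_on
    (p := fun s => ∃ U, IsOpen U ∧ x₀ ∈ U ∧ SolvO T U ∧ s ⊆ U) ⟨W₀, a1, a2, a3, empty_subset _⟩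
    (fun s t hst ⟨U, b1, b2, b3, b4⟩ => ⟨U, b1, b2, b3, hst.trans b4⟩)
    (fun s t ⟨U, b1, b2, b3, b4⟩ ⟨U', c1, c2, c3, c4⟩ => ⟨U ∪ U', b1.union c1, Or.inl b2,
      b3.union c3 b1 c1 ⟨x₀, b2, c2⟩, union_subset_union b4 c4⟩)
    fun x hx => by
      obtain ⟨U, ⟨b1, b2, b3⟩, b4⟩ := h1 (hKT hx)
      exact ⟨U, mem_nhdsWithin_of_mem_nhds (b1.mem_nhds b4), U, b1, b2, b3, Subset.rfl⟩
  exact h2 K hK h3

end Pool.Agent.Lib.MP_75c153_gt.Ft
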