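import Pool.Agent.Lib.MP_75c153_gt.Ft.GeoC
import Pool.Agent.Lib.MP_75c153_gt.Ft.VE

/-! Vector fields on the base that are radial on one collar and vanish on the other collars. -/

open MeasureTheory Filter Topology Set
open scoped ContDiff InnerProductSpace

namespace Pool.Agent.Lib.MP_75c153_gt.Ft

open Pool.Agent.Lib.MP_570070_gt.An

noncomputable section

variable {c : Par} {t a b : ℝ} {x : Eu 3}

/-- The square of the distance to the point (t, 0, 0). -/
def q3 (t : ℝ) (x : Eu 3) : ℝ := (x 0 - t) ^ 2 + x 1 ^ 2 + x 2 ^ 2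

/-- The logarithm of the distance. -/
def lg (t : ℝ) (x : Eu 3) : ℝ := Real.log (q3 t x) / 2

/-- Radial fields. -/
def rad (t : ℝ) (H : ℝ → ℝ) (x : Eu 3) : Eu 3 := H (lg t x) • ![x 0 - t, x 1, x 2]

/-- A spherical shell. -/
def shell (t a b : ℝ) : Set (Eu 3) := {x | Real.exp (2 * a) ≤ q3 t x ∧ q3 t x ≤ Real.exp (2 * b)}

theorem contDiff_q3 : ContDiff ℝ ∞ (q3 t) := by
  unfold q3
  fun_prop

theorem contDiffAt_lg (h : 0 < q3 t x) : ContDiffAt ℝ ∞ (lg t) x :=
  (contDiff_q3.contDiffAt.log h.ne').div_const 2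

theorem alpha_pos : ContDiff ℝ ∞ fun x : Eu 3 => (![x 0 - t, x 1, x 2] : Eu 3) := by
  refine contDiff_pi.2 fun i => ?_
  fin_cases i <;> simp <;> fun_prop

theorem contDiffAt_rad {H : ℝ → ℝ} (hH : ContDiff ℝ ∞ H) (h : 0 < q3 t x) :
    ContDiffAt ℝ ∞ (rad t H) x :=
  (hH.contDiffAt.comp x (contDiffAt_lg h)).smul alpha_pos.contDiffAt

theorem dvg_rad {H : ℝ → ℝ} {d : ℝ} (hH : HasDerivAt H d (lg t x)) (h : 0 < q3 t x) :
    dvg (rad t H) x = d + 3 * H (lg t x) := by
  have h0 : ∀ i : Fin 3, HasFDerivAt (fun y : Eu 3 => y i)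
      (ContinuousLinearMap.proj (R := ℝ) (φ := fun _ : Fin 3 => ℝ) i) x := fun i =>
    hasFDerivAt_apply i x
  have h1 := hH.comp_hasFDerivAt x ((((((h0 0).sub_const t).pow 2).add ((h0 1).pow 2)).add
    ((h0 2).pow 2)).log h.ne' |>.mul_const (2 : ℝ)⁻¹)
  have h2 := (h1.mul ((h0 0).sub_const t)).fderiv
  have h3 := (h1.mul (h0 1)).fderiv
  have h4 := (h1.mul (h0 2)).fderiv
  rw [dvg, Fin.sum_univ_three]
  refine (congrArg₂ (· + ·) (congrArg₂ (· + ·) (DFunLike.congr_fun h2 (bas 0))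
    (DFunLike.congr_fun h3 (bas 1))) (DFunLike.congr_fun h4 (bas 2))).trans ?_
  have h5 : (x 0 - t) ^ 2 + x 1 ^ 2 + x 2 ^ 2 ≠ 0 := h.ne'
  simp [bas, lg, q3, div_eq_mul_inv]
  field_simp
  ring

theorem mem_shell : x ∈ shell t a b ↔ 0 < q3 t x ∧ a ≤ lg t x ∧ lg t x ≤ b := by
  refine ⟨fun h => ?_, fun h => ?_⟩
  · have h0 := (Real.exp_pos _).trans_le h.1
    have h1 := (Real.le_log_iff_exp_le h0).2 h.1
    have h2 := (Real.log_le_iff_le_exp h0).2 h.2
    exact ⟨h0, by rw [lg]; linarith, by rw [lg]; linarith⟩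
  · obtain ⟨h0, h1, h2⟩ := h
    rw [lg] at h1 h2
    exact ⟨(Real.le_log_iff_exp_le h0).1 (by linarith), (Real.log_le_iff_le_exp h0).1 (by linarith)⟩

theorem isCompact_shell : IsCompact (shell t a b) := by
  refine (isCompact_closedBall (![t, 0, 0] : Eu 3) (Real.exp b)).of_isClosed_subset
    ((isClosed_le continuous_const contDiff_q3.continuous).inter
      (isClosed_le contDiff_q3.continuous continuous_const)) fun x hx => ?_
  have h := hx.2
  rw [mul_comm, Real.exp_mul, Real.rpow_two, q3] at h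
  refine (dist_pi_le_iff (Real.exp_pos b).le).2 fun i => ?_
  rw [Real.dist_eq]
  refine abs_le_of_sq_le_sq ?_ (Real.exp_pos b).le
  fin_cases i <;> simp <;> nlinarith [sq_nonneg (x 0 - t), sq_nonneg (x 1), sq_nonneg (x 2)]

theorem sm_shell {B : Type} [NormedAddCommGroup B] [NormedSpace ℝ B] {G : Eu 3 → B}
    (h1 : ∀ x, 0 < q3 t x → ContDiffAt ℝ ∞ G x) (h2 : ∀ x, G x ≠ 0 → x ∈ shell t a b) :
    Sm (shell t a b) G := by
  refine ⟨contDiff_iff_contDiffAt.2 fun x => ?_, h2⟩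
  by_cases h : 0 < q3 t x
  · exact h1 x h
  · refine (contDiffAt_const (c := 0)).congr_of_eventuallyEq ?_
    filter_upwards [contDiff_q3.continuous.continuousAt.eventually
      (gt_mem_nhds ((not_lt.1 h).trans_lt (Real.exp_pos (2 * a))))] with z hz
    exact by_contra fun h0 => (h2 z h0).1.not_gt hz

theorem alpha_ne {x : ℝ} (h : deriv Real.smoothTransition x ≠ 0) : 0 ≤ x ∧ x ≤ 1 := by
  constructor <;> by_contra hx <;> refine h ?_
  · have : Real.smoothTransition =ᶠ[𝓝 x] fun _ => 0 :=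
      (gt_mem_nhds (not_le.1 hx)).mono fun t ht => Real.smoothTransition.zero_of_nonpos ht.le
    rw [this.deriv_eq, deriv_const]
  · have : Real.smoothTransition =ᶠ[𝓝 x] fun _ => 1 :=
      (lt_mem_nhds (not_le.1 hx)).mono fun t ht => Real.smoothTransition.one_of_one_le ht.le
    rw [this.deriv_eq, deriv_const]

theorem alpha_slope : ∃ x ∈ Ioo (0 : ℝ) 1, 0 < deriv Real.smoothTransition x := by
  have hT : ContDiff ℝ 1 Real.smoothTransition := Real.smoothTransition.contDiff (n := 1)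
  obtain ⟨x, hx, h⟩ := exists_deriv_eq_slope Real.smoothTransition zero_lt_one
    hT.continuous.continuousOn (hT.differentiable one_ne_zero).differentiableOn
  exact ⟨x, hx, by rw [h]; simp⟩

/-- The profile of the cut-off solid angle field. -/
def hh (e : Ed c) (s : ℝ) : ℝ :=
  Real.smoothTransition (4 - 2 * (sg e * (s - mid e))) * Real.exp (-3 * s)

/-- The profile of its divergence. -/
def gg (e : Ed c) (s : ℝ) : ℝ :=
  2 * deriv Real.smoothTransition (4 - 2 * (sg e * (s - mid e))) * Real.exp (-3 * s)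

theorem contDiff_hh (e : Ed c) : ContDiff ℝ ∞ (hh e) :=
  (Real.smoothTransition.contDiff.comp (by fun_prop)).mul (by fun_prop)

theorem contDiff_gg (e : Ed c) : ContDiff ℝ ∞ (gg e) :=
  (contDiff_const.mul ((contDiff_infty_iff_deriv.1 Real.smoothTransition.contDiff).2.comp
    (by fun_prop))).mul (by fun_prop)

theorem alpha_exp (s : ℝ) : HasDerivAt (fun s => Real.exp (-3 * s)) (-3 * Real.exp (-3 * s)) s := by
  simpa [mul_comm] using ((hasDerivAt_id s).const_mul (-3 : ℝ)).exp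

theorem hasDerivAt_hh (e : Ed c) (s : ℝ) :
    HasDerivAt (hh e) (-(sg e * gg e s) - 3 * hh e s) s := by
  have hT : ContDiff ℝ 1 Real.smoothTransition := Real.smoothTransition.contDiff (n := 1)
  have h1 := (hT.differentiable one_ne_zero _).hasDerivAt.comp s
    (((((hasDerivAt_id s).sub_const (mid e)).const_mul (sg e)).const_mul 2).const_sub 4)
  refine (h1.mul (alpha_exp s)).congr_deriv ?_
  simp only [gg, hh, Function.comp_apply, id]
  ring

/-- The shell that carries the divergence. -/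
def sh (e : Ed c) : Set (Eu 3) :=
  shell (ctr e) (mid e + sg e * (7 / 4) - 1 / 4) (mid e + sg e * (7 / 4) + 1 / 4)

theorem alpha_gg {e : Ed c} (h : gg e (lg t x) ≠ 0) :
    x ∈ shell t (mid e + sg e * (7 / 4) - 1 / 4) (mid e + sg e * (7 / 4) + 1 / 4) := by
  have hm : (0 : ℝ) ≤ c.m := Nat.cast_nonneg _
  obtain ⟨h1, h2⟩ := alpha_ne (right_ne_zero_of_mul (left_ne_zero_of_mul h))
  have h0 : 0 < q3 t x := (show 0 ≤ q3 t x by unfold q3; positivity).lt_of_ne fun h0 => by
    rw [lg, ← h0, Real.log_zero] at h1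
    cases e <;> simp only [sg, mid] at h1 <;> linarith
  refine mem_shell.2 ⟨h0, ?_⟩
  cases e <;> simp only [sg, mid] at h1 h2 ⊢ <;> constructor <;> linarith

theorem sm_gg (e : Ed c) (t : ℝ) :
    Sm (shell t (mid e + sg e * (7 / 4) - 1 / 4) (mid e + sg e * (7 / 4) + 1 / 4))
      fun x => gg e (lg t x) :=
  sm_shell (fun x h => (contDiff_gg e).contDiffAt.comp x (contDiffAt_lg h)) fun _ => alpha_gg

theorem integral_gg (e : Ed c) :
    ∫ x, gg e (lg (ctr e) x) = ∫ x, gg (none : Ed c) (lg 0 x) := by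
  rcases e with _ | j
  · rfl
  have hm : (0 : ℝ) ≤ c.m := Nat.cast_nonneg _
  have h1 : ∫ x, gg (some j : Ed c) (lg (ctr (some j : Ed c)) x) =
      ∫ x, gg (some j : Ed c) (lg 0 x) := by
    rw [← integral_add_right_eq_self _ (![ctr (some j : Ed c), 0, 0] : Eu 3)]
    simp [lg, q3]
  have hi : ∀ e : Ed c, Integrable fun x => gg e (lg 0 x) := fun e =>
    integrable_of_supp (sm_gg e 0).1.continuous isCompact_shell (sm_gg e 0).2
  let Ψ : ℝ → ℝ := fun s => hh (none : Ed c) s + hh (some j : Ed c) s - Real.exp (-3 * s)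
  have h2 : Sm (shell 0 (-3 / 2) (c.m + 5 / 2)) (rad 0 Ψ) := by
    refine sm_shell (fun x h => contDiffAt_rad (((contDiff_hh _).add (contDiff_hh _)).sub
      (by fun_prop)) h) fun x h => mem_shell.2 ⟨?_, ?_, ?_⟩
    · refine (show 0 ≤ q3 0 x by unfold q3; positivity).lt_of_ne fun h0 => h ?_
      rw [q3] at h0
      have e0 : x 0 - 0 = 0 := by nlinarith [sq_nonneg (x 0 - 0), sq_nonneg (x 1), sq_nonneg (x 2)]
      have e1 : x 1 = 0 := by nlinarith [sq_nonneg (x 0 - 0), sq_nonneg (x 1), sq_nonneg (x 2)]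
      have e2 : x 2 = 0 := by nlinarith [sq_nonneg (x 0 - 0), sq_nonneg (x 1), sq_nonneg (x 2)]
      rw [rad, e0, e1, e2]
      simp
    · refine not_lt.1 fun h0 => left_ne_zero_of_smul h ?_
      simp only [Ψ, hh, sg, mid]
      rw [Real.smoothTransition.zero_of_nonpos (by linarith),
        Real.smoothTransition.one_of_one_le (by linarith)]
      ring
    · refine not_lt.1 fun h0 => left_ne_zero_of_smul h ?_
      simp only [Ψ, hh, sg, mid]
      rw [Real.smoothTransition.one_of_one_le (by linarith),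
        Real.smoothTransition.zero_of_nonpos (by linarith)]
      ring
  rw [h1, eq_comm, ← sub_eq_zero, ← integral_sub (hi _) (hi _)]
  refine (integral_congr_ae (Eventually.of_forall fun x => ?_)).trans
    (integral_dvg h2 isCompact_shell)
  by_cases h : 0 < q3 0 x
  · refine Eq.trans ?_ (dvg_rad (H := Ψ) (((hasDerivAt_hh none _).add
      (hasDerivAt_hh (some j) _)).sub (alpha_exp _)) h).symm
    simp only [Ψ, sg]
    ring
  · have h3 : ∀ e : Ed c, gg e (lg 0 x) = 0 := fun e =>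
      by_contra fun h0 => h (mem_shell.1 (alpha_gg h0)).1
    simp only [h3, sub_self]
    exact (by_contra fun h0 =>
      h (mem_shell.1 ((h2.dvg isCompact_shell.isClosed).2 x h0)).1 : dvg _ x = 0).symm

theorem alpha_mem {e : Ed c} {z : Eu 5} (h0 : 0 < rsq e z) (h1 : -1 < sc e z) (h2 : sc e z ≤ 2)
    (e' : Ed c) : 0 < rsq e' z ∧ -1 < sc e' z := by
  by_cases hne : e' = e
  · rw [hne]; exact ⟨h0, h1⟩
  have hm : (0 : ℝ) ≤ c.m := Nat.cast_nonneg _
  have hj : ∀ j : Fin (c.m + 1), (0 : ℝ) ≤ (j : ℕ) ∧ ((j : ℕ) : ℝ) ≤ c.m := fun j =>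
    ⟨Nat.cast_nonneg _, by exact_mod_cast Nat.lt_succ_iff.1 j.2⟩
  have xp : ∀ x : ℝ, 0 ≤ x → (x + 1) ^ 2 ≤ Real.exp (2 * x) := fun x xp => by
    rw [two_mul, Real.exp_add, sq]
    exact mul_self_le_mul_self (by linarith) (Real.add_one_le_exp x)
  rcases e with _ | j
  · rcases e' with _ | j'
    · exact absurd rfl hne
    have h3 : ((c.m : ℝ) + 2 + 1) ^ 2 ≤ rsq (none : Ed c) z := by
      refine (xp _ (by linarith)).trans ((Real.le_log_iff_exp_le h0).1 ?_)
      simp only [sc, sg, mid] at h2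
      linarith
    have h4 : 1 < rsq (some j' : Ed c) z := by
      by_contra h
      simp only [rsq, ctr, not_lt, sub_zero] at h h3
      obtain ⟨k1, k2⟩ := hj j'
      have k3 := abs_le.1 ((sq_le_one_iff_abs_le_one (z 0 - (j' : ℕ))).1
        (by nlinarith [sq_nonneg (z 1), sq_nonneg (z 2)]))
      nlinarith [sq_nonneg (z 0 - (j' : ℕ)), k3.1, k3.2]
    refine ⟨by linarith, ?_⟩
    have := Real.log_pos h4
    simp only [sc, sg, mid]
    linarith
  have h3 := geoa_in h0 h2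
  obtain ⟨k1, k2⟩ := hj j
  have k3 : |z 0 - (j : ℕ)| < 1 / 2 := by
    refine abs_lt_of_sq_lt_sq ?_ (by norm_num)
    simp only [rsq, ctr] at h3
    nlinarith [sq_nonneg (z 1), sq_nonneg (z 2)]
  obtain ⟨k4, k5⟩ := abs_lt.1 k3
  rcases e' with _ | j'
  · have h4 : 0 < rsq (none : Ed c) z := by
      rcases Nat.eq_zero_or_pos j with h | h
      · simpa only [rsq, ctr, h, Nat.cast_zero] using h0
      · have : (1 : ℝ) ≤ (j : ℕ) := by exact_mod_cast h
        simp only [rsq, ctr, sub_zero]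
        nlinarith [sq_nonneg (z 1), sq_nonneg (z 2)]
    refine ⟨h4, ?_⟩
    have h5 : Real.log (rsq (none : Ed c) z) < 2 * (c.m + 5) := by
      refine (Real.log_lt_iff_lt_exp h4).2 (lt_of_lt_of_le ?_ (xp _ (by linarith)))
      simp only [rsq, ctr, sub_zero] at h3 ⊢
      nlinarith [sq_nonneg (z 0 - (j : ℕ))]
    simp only [sc, sg, mid]
    linarith
  have h4 : 1 / 4 < rsq (some j' : Ed c) z := by
    have k6 : (j' : ℕ) ≠ j := fun h => hne (congrArg some (Fin.ext h))
    simp only [rsq, ctr]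
    rcases k6.lt_or_gt with h | h
    · have : ((j' : ℕ) : ℝ) + 1 ≤ (j : ℕ) := by exact_mod_cast h
      nlinarith [sq_nonneg (z 1), sq_nonneg (z 2)]
    · have : ((j : ℕ) : ℝ) + 1 ≤ (j' : ℕ) := by exact_mod_cast h
      nlinarith [sq_nonneg (z 1), sq_nonneg (z 2)]
  refine ⟨by linarith, ?_⟩
  have h5 : -(2 * 2) < Real.log (rsq (some j' : Ed c) z) := by
    refine (Real.lt_log_iff_exp_lt (by linarith)).2 (lt_of_le_of_lt ?_ h4)
    rw [Real.exp_neg, one_div]
    exact inv_anti₀ (by norm_num) (le_trans (by norm_num) (xp 2 (by norm_num)))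
  simp only [sc, sg, mid]
  linarith

theorem sh_subset (e : Ed c) : sh e ⊆ {x | em x ∈ Wa c 1} := fun x hx => by
  obtain ⟨h0, h1, h2⟩ := mem_shell.1 hx
  have h3 : 3 / 2 ≤ sc e (em x) ∧ sc e (em x) ≤ 2 := by
    change 3 / 2 ≤ sg e * (lg (ctr e) x - mid e) ∧ sg e * (lg (ctr e) x - mid e) ≤ 2
    cases e <;> simp only [sg] at h1 h2 ⊢ <;> constructor <;> linarith
  have h4 : em x ∈ DR c :=
    ⟨alpha_mem (e := e) h0 (by linarith [h3.1]) h3.2, by simp [zc, cb, em, tau], by simp [em]⟩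
  refine ⟨h4, fun e' => ?_⟩
  by_cases h : e = e'
  · rw [← h]
    linarith [h3.1]
  · linarith [sc_disj h4 h h3.2]

/-- The fields a e and the common divergence. -/
structure IsAlpha (c : Par) (a : Ed c → Eu 3 → Eu 3) (γ : Eu 3 → ℝ) : Prop where
  smooth : ∀ e, ∀ y ∈ DR c, ContDiffAt ℝ ∞ (a e) (xp y)
  cont : Continuous γ
  collar : ∀ e, ∀ y ∈ DR c, sc e y < 1 →
    a e (xp y) = (√(rsq e y) ^ 3)⁻¹ • ![y 0 - ctr e, y 1, y 2] ∧ ∀ e', e' ≠ e → a e' (xp y) = 0
  div : ∀ e, ∀ y ∈ DR c, dvg (a e) (xp y) = -(sg e * γ (xp y))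
  nonneg : ∀ x, 0 ≤ γ x
  supp : ∀ y, γ (xp y) ≠ 0 → ∀ e : Ed c, 1 < sc e y
  pos : ∃ y ∈ DR c, zsq y < 3 ∧ 0 < γ (xp y)

theorem exists_isAlpha (c : Par) : ∃ a γ, IsAlpha c a γ := by
  have hT : IsOpen {x | em x ∈ Wa c 1} := (isOpen_Wa 1).preimage (by
    refine continuous_pi fun i => ?_
    fin_cases i <;> simp [em] <;> fun_prop)
  have key : ∀ e : Ed c, ∃ U : Eu 3 → Eu 3, ContDiff ℝ ∞ U ∧ (∀ x, U x ≠ 0 → em x ∈ Wa c 1) ∧
      ∀ x, dvg U x = gg (none : Ed c) (lg 0 x) - gg e (lg (ctr e) x) := fun e => by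
    obtain ⟨K, C, -, hK, -, h⟩ := exists_div hT (isPreconnected_base (by norm_num) le_rfl)
      (isCompact_shell.union isCompact_shell) (union_subset (sh_subset none) (sh_subset e))
    obtain ⟨U, h1, h2, -⟩ := h _ ((sm_gg none 0).sub (sm_gg e (ctr e))) (by
      rw [integral_sub (integrable_of_supp (sm_gg none 0).1.continuous isCompact_shell
        (sm_gg none 0).2) (integrable_of_supp (sm_gg e _).1.continuous isCompact_shell
        (sm_gg e _).2), integral_gg, sub_self])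
    exact ⟨U, h1.1, fun x hx => hK (h1.2 x hx), h2⟩
  choose U h1 h2 h3 using key
  have h4 : ∀ e, ∀ y ∈ DR c, ContDiffAt ℝ ∞ (rad (ctr e) (hh e)) (xp y) := fun e y hy =>
    contDiffAt_rad (contDiff_hh e) (hy.1 e).1
  refine ⟨fun e x => rad (ctr e) (hh e) x - sg e • U e x, fun x => gg (none : Ed c) (lg 0 x),
    fun e y hy => (h4 e y hy).sub ((h1 e).const_smul _).contDiffAt, (sm_gg none 0).1.continuous,
    fun e y hy he => ?_, fun e y hy => ?_, fun x => ?_, fun y h e => ?_, ?_⟩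
  · have h5 : ∀ e', U e' (xp y) = 0 := fun e' =>
      by_contra fun h => he.not_gt ((h2 e' _ h).2 e)
    simp only [h5, smul_zero, sub_zero]
    refine ⟨?_, fun e' hne => ?_⟩
    · change (Real.smoothTransition (4 - 2 * sc e y) *
        Real.exp (-3 * (Real.log (rsq e y) / 2))) • _ = _
      rw [Real.smoothTransition.one_of_one_le (by linarith), one_mul, neg_mul, Real.exp_neg,
        ← Real.log_sqrt (hy.1 e).1.le, show (3 : ℝ) = (3 : ℕ) by norm_num, Real.exp_nat_mul,
        Real.exp_log (Real.sqrt_pos.2 (hy.1 e).1)]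
      rfl
    · change (Real.smoothTransition (4 - 2 * sc e' y) * _) • _ = _
      rw [Real.smoothTransition.zero_of_nonpos (by linarith [sc_disj hy hne.symm (by linarith)]),
        zero_mul, zero_smul]
  · have h5 : dvg (fun x => sg e • U e x) (xp y) = sg e * dvg (U e) (xp y) := by
      simp only [dvg, Pi.smul_apply, smul_eq_mul, pd_const_mul, Finset.mul_sum]
    rw [dvg_sub ((h4 e y hy).differentiableAt (by simp))
      (((h1 e).const_smul _).differentiable (by simp) _), h5, h3,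
      dvg_rad (t := ctr e) (x := xp y) (hasDerivAt_hh e _) (hy.1 e).1]
    ring
  · exact mul_nonneg (mul_nonneg two_pos.le Real.smoothTransition.monotone.deriv_nonneg)
      (Real.exp_pos _).le
  · exact (sh_subset none (alpha_gg h)).2 e
  · obtain ⟨s, hs, h⟩ := alpha_slope
    obtain ⟨y, hy, h5, h6⟩ := exists_sc_eq (none : Ed c) (a := 2 - s / 2) (by linarith [hs.2])
      (by linarith [hs.1]) true
    refine ⟨y, hy.1, by rw [h6]; norm_num, mul_pos (mul_pos two_pos ?_) (Real.exp_pos _)⟩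
    change 0 < deriv Real.smoothTransition (4 - 2 * sc (none : Ed c) y)
    rwa [h5, show 4 - 2 * (2 - s / 2) = s by ring]

end

end Pool.Agent.Lib.MP_75c153_gt.Ft
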