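import Pool.Agent.Lib.MP_75c153_gt.Ft.ZDefs

/-! Coverings of Riemannian manifolds. -/

namespace Pool.Agent.Lib.MP_75c153_gt.Ft

open Pool.Agent.Lib.MP_570070_gt.An

/-- The map π identifies Y, with its metric, with the quotient of X by K. -/
def IsCover {n : ℕ} {G : Type} [Group G] (K : Subgroup G) (X Y : RMfd n) [MulAction G X.M]
    (π : X.M → Y.M) : Prop :=
  Function.Surjective π ∧ IsLocIso X Y π ∧ ∀ x y, π x = π y ↔ ∃ γ ∈ K, γ • x = y

end Pool.Agent.Lib.MP_75c153_gt.Ft
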