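import Pool.Agent.Lib.MP_75c153_gt.Ft.FlipB

open MeasureTheory Filter Topology Set
open scoped ContDiff InnerProductSpace

namespace Pool.Agent.Lib.MP_75c153_gt.Ft

open Pool.Agent.Lib.MP_570070_gt.An

variable {c : Par} {e : Ed c} {o : Option (Ed c)} {y y' : Eu 5} {k : ℕ}

theorem flipc_expand {n : ℕ} (b b' : Fin n → Eu n) (O : Matrix (Fin n) (Fin n) ℝ)
    (hb : ∀ i, b' i = ∑ j, O i j • b j) (α : Alt n k) (I : Fin k → Fin n) :
    α (fun l => b' (I l)) =
      ∑ J : Fin k → Fin n, (∏ l, O (I l) (J l)) * α (fun l => b (J l)) := by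
  classical
  simp only [hb]
  rw [α.map_sum]
  exact Finset.sum_congr rfl fun J _ => by rw [α.map_smul_univ, smul_eq_mul]

theorem flipc_gram {n : ℕ} (b b' : Fin n → Eu n) (O : Matrix (Fin n) (Fin n) ℝ)
    (hb : ∀ i, b' i = ∑ j, O i j • b j) (α β : Alt n k) :
    ∑ I : Fin k → Fin n, α (fun l => b' (I l)) * β (fun l => b' (I l)) =
      ∑ J : Fin k → Fin n, ∑ K : Fin k → Fin n, (∏ l, (O.transpose * O) (J l) (K l)) *
        α (fun l => b (J l)) * β (fun l => b (K l)) := by
  classical
  simp only [flipc_expand b b' O hb, Finset.sum_mul_sum]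
  rw [Finset.sum_comm]
  refine Finset.sum_congr rfl fun J _ => ?_
  rw [Finset.sum_comm]
  refine Finset.sum_congr rfl fun K _ => ?_
  simp only [Matrix.mul_apply, Matrix.transpose_apply]
  rw [Finset.prod_univ_sum, Fintype.piFinset_univ, Finset.sum_mul, Finset.sum_mul]
  refine Finset.sum_congr rfl fun I _ => ?_
  rw [Finset.prod_mul_distrib]
  ring

/-- Change of orthonormal frame: if b' i = ∑ j, O i j • b j with O orthogonal, the sum over all
multi-indices does not change (MultilinearMap.map_sum, map_smul_univ, Finset.prod_univ_sum). -/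
theorem sum_frame_eq {n : ℕ} (b b' : Fin n → Eu n) (O : Matrix (Fin n) (Fin n) ℝ)
    (hO : O.transpose * O = 1) (hb : ∀ i, b' i = ∑ j, O i j • b j) (α β : Alt n k) :
    ∑ I : Fin k → Fin n, α (fun l => b' (I l)) * β (fun l => b' (I l)) =
      ∑ I : Fin k → Fin n, α (fun l => b (I l)) * β (fun l => b (I l)) := by
  classical
  rw [flipc_gram b b' O hb, hO]
  refine Finset.sum_congr rfl fun J _ => ?_
  rw [Finset.sum_eq_single J]
  · simp
  · intro K _ hK
    obtain ⟨l, hl⟩ := Function.ne_iff.1 hK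
    have h0 : ∏ l, (1 : Matrix (Fin n) (Fin n) ℝ) (J l) (K l) = 0 :=
      Finset.prod_eq_zero (Finset.mem_univ l) (Matrix.one_apply_ne hl.symm)
    rw [h0, zero_mul, zero_mul]
  · simp

theorem gUp_fr (hy : y ∈ DR c) (i j : Fin 5) :
    gUp c y (fr c y i) (fr c y j) = if i = j then 1 else 0 := by
  have h := (lam_pos hy).ne'
  have h' := (mu_pos y).ne'
  fin_cases i <;> fin_cases j <;> simp [gUp, fr, ell, bas] <;> field_simp

theorem eq_sum_fr (hy : y ∈ DR c) (v : Eu 5) : v = ∑ j, gUp c y v (fr c y j) • fr c y j := by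
  have h := (lam_pos hy).ne'
  have h' := (mu_pos y).ne'
  funext i
  fin_cases i <;> simp [gUp, fr, ell, bas, Fin.sum_univ_five] <;> field_simp

theorem flipc_parseval (hy : y ∈ DR c) (v w : Eu 5) :
    gUp c y v w = ∑ j, gUp c y v (fr c y j) * gUp c y w (fr c y j) := by
  have h := (lam_pos hy).ne'
  have h' := (mu_pos y).ne'
  simp [gUp, fr, ell, bas, Fin.sum_univ_five]
  field_simp
  ring

/-- Any gUp-orthonormal frame computes ipUp. -/
theorem ipUp_eq_of_frame (hy : y ∈ DR c) (b : Fin 5 → Eu 5)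
    (hb : ∀ i j, gUp c y (b i) (b j) = if i = j then 1 else 0) (α β : Alt 5 k) :
    ipUp c y α β = ((k.factorial : ℝ))⁻¹ * ∑ I : Fin k → Fin 5,
      α (fun l => b (I l)) * β (fun l => b (I l)) := by
  have h1 : (Matrix.of fun i j => gUp c y (b i) (fr c y j)) *
      (Matrix.of fun i j => gUp c y (b i) (fr c y j)).transpose = 1 := by
    ext i j
    rw [Matrix.mul_apply, Matrix.one_apply, ← hb, flipc_parseval hy]
    rfl
  rw [ipUp, sum_frame_eq (fr c y) b _ (mul_eq_one_comm.1 h1) fun i => eq_sum_fr hy (b i)]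

theorem Link.ipUp_lk (h : Link o y y') (α β : Alt 5 k) :
    ipUp c y (α.compContinuousLinearMap (lk o y y')) (β.compContinuousLinearMap (lk o y y')) =
      ipUp c y' α β := by
  rw [ipUp_eq_of_frame h.mem' (fun i => lk o y y' (fr c y i))
    (fun i j => by rw [h.gUp_lk, gUp_fr h.mem]) α β]
  rfl

theorem Flip.ipUp_fl (h : Flip e y y') (α β : Alt 5 k) :
    ipUp c y (α.compContinuousLinearMap (fl e y y')) (β.compContinuousLinearMap (fl e y y')) =
      ipUp c y' α β :=
  Link.ipUp_lk (o := some e) h α β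

theorem Same.ipUp_iv (h : Same c y y') (α β : Alt 5 k) :
    ipUp c y (α.compContinuousLinearMap (iv y y')) (β.compContinuousLinearMap (iv y y')) =
      ipUp c y' α β :=
  Link.ipUp_lk (o := none) h α β

theorem gram_eq (y : Eu 5) : (Matrix.of fun i j => gUp c y (bas i) (bas j)) =
    Matrix.diagonal fun i => ell c y i ^ 2 := by
  ext i j
  fin_cases i <;> fin_cases j <;> simp [gUp, ell, bas]

/-- The Gram matrix formula of the definitions file agrees with ipUp. -/
theorem ipAlt_gUp (hy : y ∈ DR c) (α β : Alt 5 k) :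
    ipAlt (Matrix.of fun i j => gUp c y (bas i) (bas j)) α β = ipUp c y α β := by
  have h := (lam_pos hy).ne'
  have h' := (mu_pos y).ne'
  have h1 : (Matrix.of fun i j => gUp c y (bas i) (bas j))⁻¹ =
      (Matrix.of fun i j => fr c y i j).transpose * Matrix.of fun i j => fr c y i j := by
    refine Matrix.inv_eq_left_inv ?_
    ext i j
    fin_cases i <;> fin_cases j <;>
      simp [Matrix.mul_apply, Fin.sum_univ_five, gUp, fr, ell, bas] <;> field_simp
  rw [ipAlt, ipUp, h1, flipc_gram bas (fr c y) (Matrix.of fun i j => fr c y i j)]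
  intro i
  funext j
  simp [bas, Finset.sum_apply, Pi.single_apply]

theorem sqrt_det_gUp (hy : y ∈ DR c) :
    √(Matrix.det (Matrix.of fun i j => gUp c y (bas i) (bas j))) = vol c y := by
  rw [gram_eq, Matrix.det_diagonal, Finset.prod_pow, prod_ell, Real.sqrt_sq (vol_pos hy).le]

theorem ipUp_comm (α β : Alt 5 k) : ipUp c y α β = ipUp c y β α := by
  simp only [ipUp, mul_comm]
theorem ipUp_add_left (α α' β : Alt 5 k) :
    ipUp c y (α + α') β = ipUp c y α β + ipUp c y α' β := by
  simp only [ipUp, ContinuousAlternatingMap.add_apply, add_mul, Finset.sum_add_distrib, mul_add]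
theorem ipUp_smul_left (a : ℝ) (α β : Alt 5 k) : ipUp c y (a • α) β = a * ipUp c y α β := by
  simp only [ipUp, ContinuousAlternatingMap.smul_apply, smul_eq_mul, mul_assoc,
    ← Finset.mul_sum]
  ring
theorem ipUp_add_right (α β β' : Alt 5 k) :
    ipUp c y α (β + β') = ipUp c y α β + ipUp c y α β' := by
  rw [ipUp_comm, ipUp_add_left, ipUp_comm β, ipUp_comm β']
theorem ipUp_smul_right (a : ℝ) (α β : Alt 5 k) : ipUp c y α (a • β) = a * ipUp c y α β := by
  rw [ipUp_comm, ipUp_smul_left, ipUp_comm β]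
theorem ipUp_zero_left (β : Alt 5 k) : ipUp c y 0 β = 0 := by simp [ipUp]
theorem ipUp_zero_right (α : Alt 5 k) : ipUp c y α 0 = 0 := by simp [ipUp]
theorem ipUp_self_nonneg (α : Alt 5 k) : 0 ≤ ipUp c y α α :=
  mul_nonneg (by positivity) (Finset.sum_nonneg fun _ _ => mul_self_nonneg _)

/-- Cauchy-Schwarz. -/
theorem ipUp_sq_le (α β : Alt 5 k) : ipUp c y α β ^ 2 ≤ ipUp c y α α * ipUp c y β β := by
  have h := Finset.sum_mul_sq_le_sq_mul_sq Finset.univ
    (fun I : Fin k → Fin 5 => α fun l => fr c y (I l)) fun I => β fun l => fr c y (I l)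
  simp only [ipUp, ← sq]
  rw [mul_pow, mul_mul_mul_comm, ← sq]
  exact mul_le_mul_of_nonneg_left h (sq_nonneg _)

theorem contDiffOn_fr (i : Fin 5) : ContDiffOn ℝ ∞ (fun y => fr c y i) (DR c) :=
  ((contDiffOn_ell i).inv fun _ hy => (ell_pos hy i).ne').smul contDiffOn_const

theorem flipc_continuousOn_fr (i : Fin 5) : ContinuousOn (fun y => fr c y i) (DR c) :=
  (contDiffOn_fr i).continuousOn

theorem continuousOn_ipUp {α β : Eu 5 → Alt 5 k} (hα : ContinuousOn α (DR c))
    (hβ : ContinuousOn β (DR c)) : ContinuousOn (fun y => ipUp c y (α y) (β y)) (DR c) := by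
  have h : ∀ I : Fin k → Fin 5, ContinuousOn (fun y => fun l => fr c y (I l)) (DR c) :=
    fun I => continuousOn_pi.2 fun l => flipc_continuousOn_fr (I l)
  exact continuousOn_const.mul
    (continuousOn_finsetSum _ fun I _ => (hα.eval (h I)).mul (hβ.eval (h I)))

end Pool.Agent.Lib.MP_75c153_gt.Ft
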