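import Pool.Agent.Lib.MP_570070_gt.An.Defs

/-! Vector calculus on Eu n: divergence of vector fields and of antisymmetric matrix fields. -/

open MeasureTheory Filter Topology Set
open scoped ContDiff
open Pool.Agent.Lib.MP_570070_gt.An (Eu bas)

namespace Pool.Agent.Lib.MP_75c153_gt.Ft

noncomputable section

variable {n : ℕ}

/-- Partial derivative. -/
def pd (i : Fin n) (F : Eu n → ℝ) (y : Eu n) : ℝ := fderiv ℝ F y (bas i)

/-- Divergence of a vector field. -/
def dvg (V : Eu n → Eu n) (y : Eu n) : ℝ := ∑ i, pd i (fun z => V z i) y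

/-- Divergence of a matrix field, in the second index. -/
def dvm (A : Eu n → Fin n → Fin n → ℝ) (y : Eu n) : Eu n :=
  fun j => ∑ i, pd i (fun z => A z j i) y

/-- Primitive in the direction i. -/
def prim (i : Fin n) (a : ℝ) (F : Eu n → ℝ) (y : Eu n) : ℝ :=
  ∫ t in a..y i, F (Function.update y i t)

/-- Total integral in the direction i. -/
def tot (i : Fin n) (a b : ℝ) (F : Eu n → ℝ) (y : Eu n) : ℝ :=
  ∫ t in a..b, F (Function.update y i t)

/-- Smooth with support in K. -/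
def Sm {B : Type} [NormedAddCommGroup B] [NormedSpace ℝ B] (K : Set (Eu n)) (F : Eu n → B) :
    Prop :=
  ContDiff ℝ ∞ F ∧ ∀ y, F y ≠ 0 → y ∈ K

/-- Functions with support in K and integral zero are divergences of fields with support in a
fixed compact subset of T, with an L2 bound. -/
def Solv (T K : Set (Eu n)) : Prop :=
  ∃ (K' : Set (Eu n)) (C : ℝ), IsCompact K' ∧ K' ⊆ T ∧ 0 ≤ C ∧
    ∀ F : Eu n → ℝ, Sm K F → ∫ y, F y = 0 → ∃ V : Eu n → Eu n, Sm K' V ∧
      (∀ y, dvg V y = F y) ∧ ∫ y, ∑ i, V y i ^ 2 ≤ C * ∫ y, F y ^ 2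

/-- Divergence free fields with support in K whose components in S vanish are divergences of
antisymmetric matrix fields with support in a fixed compact subset of T, with an L2 bound. -/
def Red (T K : Set (Eu n)) (S : Finset (Fin n)) : Prop :=
  ∃ (K' : Set (Eu n)) (C : ℝ), IsCompact K' ∧ K' ⊆ T ∧ 0 ≤ C ∧
    ∀ V : Eu n → Eu n, Sm K V → (∀ y, dvg V y = 0) → (∀ j ∈ S, ∀ y, V y j = 0) →
      ∃ A : Eu n → Fin n → Fin n → ℝ, Sm K' A ∧ (∀ y i j, A y i j = -A y j i) ∧
        (∀ y, dvm A y = V y) ∧ ∫ y, ∑ j, ∑ i, A y j i ^ 2 ≤ C * ∫ y, ∑ j, V y j ^ 2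

end

end Pool.Agent.Lib.MP_75c153_gt.Ft
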