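import Pool.Agent.Lib.MP_75c153_gt.Ft.Geo
import Pool.Agent.Lib.MP_75c153_gt.Ft.VDefs
import Pool.Agent.Lib.MP_570070_gt.An.ADefs

/-! Definitions for the upstairs calculus. -/

open MeasureTheory Filter Topology Set
open scoped ContDiff InnerProductSpace

namespace Pool.Agent.Lib.MP_75c153_gt.Ft

open Pool.Agent.Lib.MP_570070_gt.An

noncomputable section

variable {c : Par} {P P' : Type} {k : ℕ}

/-- Exterior product of a covector and a form. -/
def wedge (ℓ : Eu 5 →L[ℝ] ℝ) (α : Alt 5 k) : Alt 5 (k + 1) :=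
  ContinuousAlternatingMap.alternatizeUncurryFin (ℓ.smulRight α)

/-- The coordinate covectors. -/
def dx (i : Fin 5) : Eu 5 →L[ℝ] ℝ := ContinuousLinearMap.proj i

/-- Forms from components; the matrix A is meant to be antisymmetric. -/
def f0 (h : ℝ) : Alt 5 0 := ContinuousAlternatingMap.constOfIsEmpty ℝ (Eu 5) (Fin 0) h
def f1 (a : Eu 5) : Alt 5 1 := ∑ i, a i • wedge (dx i) (f0 1)
def f2 (A : Fin 5 → Fin 5 → ℝ) : Alt 5 2 := (1 / 2 : ℝ) • ∑ i, wedge (dx i) (f1 (A i))

/-- The value of a 0-form. -/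
def c0 (α : Alt 5 0) : ℝ := α ![]

/-- The vector density of a 1-form and the 1-form of a vector density. -/
def vec (c : Par) (y : Eu 5) (α : Alt 5 1) : Eu 5 :=
  fun i => vol c y / ell c y i ^ 2 * α ![bas i]
def cov (c : Par) (y : Eu 5) (V : Eu 5) : Alt 5 1 := f1 fun i => ell c y i ^ 2 / vol c y * V i

/-- The 2-form of an antisymmetric matrix density. -/
def cov2 (c : Par) (y : Eu 5) (A : Fin 5 → Fin 5 → ℝ) : Alt 5 2 :=
  f2 fun i j => ell c y i ^ 2 * ell c y j ^ 2 / vol c y * A i j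

/-- The determinant as a continuous multilinear map. -/
def detM (n : ℕ) : ContinuousMultilinearMap ℝ (fun _ : Fin n => Eu n) ℝ :=
  ⟨(Matrix.detRowAlternating (n := Fin n) (R := ℝ)).toMultilinearMap,
    (continuous_id.matrix_det : Continuous fun M : Matrix (Fin n) (Fin n) ℝ => M.det)⟩

/-- The first k and the last l of n places. -/
def spl {l n : ℕ} (h : k + l = n) : Fin k ⊕ Fin l ≃ Fin n := finSumFinEquiv.trans (finCongr h)

/-- The determinant of k + l = n vectors. -/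
def det2 {l n : ℕ} (h : k + l = n) (u : Fin k → Eu n) (v : Fin l → Eu n) : ℝ :=
  Matrix.det (Matrix.of fun i => Sum.elim u v ((spl h).symm i))

/-- The form v ↦ det2 h u v. -/
def insR {l n : ℕ} (h : k + l = n) (u : Fin k → Eu n) : Alt n l where
  toContinuousMultilinearMap := ((detM n).domDomCongr (spl h).symm).currySum u
  map_eq_zero_of_eq' v i j hv hij :=
    Matrix.det_zero_of_row_eq (M := Matrix.of fun i => Sum.elim u v ((spl h).symm i))
      (i := spl h (Sum.inr i)) (j := spl h (Sum.inr j))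
      (fun e => hij (Sum.inr_injective ((spl h).injective e))) (by
        funext a
        simp [hv])

theorem insR_apply {l n : ℕ} (h : k + l = n) (u : Fin k → Eu n) (v : Fin l → Eu n) :
    insR h u v = det2 h u v := rfl

/-- The Hodge star for the orientation of the coordinates. -/
def star (c : Par) {l : ℕ} (h : k + l = 5) (y : Eu 5) (α : Alt 5 k) : Alt 5 l :=
  (((k.factorial : ℝ))⁻¹ * vol c y) • ∑ I : Fin k → Fin 5,
    α (fun a => fr c y (I a)) • insR h fun a => fr c y (I a)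

/-- The Hodge star of a family, for the orientation that alternates with the side. -/
def stF (Γ : Gl c P) {l : ℕ} (h : k + l = 5) (Ω : Fam P k) : Fam P l :=
  fun p y => tau (Γ.side p) • star c h y (Ω p y)

/-- The coefficient of the exterior product of a k-form and an l-form, k + l = 5. -/
def Bp {l : ℕ} (h : k + l = 5) (α : Alt 5 k) (γ : Alt 5 l) : ℝ :=
  ((k.factorial : ℝ))⁻¹ * ((l.factorial : ℝ))⁻¹ * ∑ I : Fin k → Fin 5, ∑ J : Fin l → Fin 5,
    det2 h (fun a => bas (I a)) (fun a => bas (J a)) * α (fun a => bas (I a)) *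
      γ fun a => bas (J a)

/-- Functions read in all pieces. -/
abbrev Fn (P : Type) : Type := P → Eu 5 → ℝ

/-- Smooth functions that are bounded with bounded gradient. -/
structure IsFn (Γ : Gl c P) (w : Fn P) : Prop where
  smooth : ∀ p, ContDiffOn ℝ ∞ (w p) (DR c)
  same : ∀ p y y', Same c y y' → w p y = w p y'
  flip : ∀ p e y y', Flip e y y' → w p y = w (Γ.σ e p) y'
  bdd : ∃ B, ∀ p, ∀ y ∈ DR c, |w p y| ≤ B ∧ gsq c y (fderiv ℝ (w p) y) ≤ B

/-- Pull back along f and multiply by w. -/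
structure Tr (Γ : Gl c P) (Γ' : Gl c P') where
  f : P' → P
  w : Fn P'
  fn : IsFn Γ' w
  eqv : ∀ p e, ∀ y ∈ DR c, w p y ≠ 0 → sc e y < 1 → f (Γ'.σ e p) = Γ.σ e (f p)
  inj : ∀ p q, (∃ y ∈ DR c, w p y ≠ 0) → (∃ y ∈ DR c, w q y ≠ 0) → f p = f q → p = q

variable {Γ : Gl c P} {Γ' : Gl c P'}

def Tr.mul (τ : Tr Γ Γ') (Ω : Fam P k) : Fam P' k := fun p y => τ.w p y • Ω (τ.f p) y

def Tr.wed (τ : Tr Γ Γ') (Ω : Fam P k) : Fam P' (k + 1) :=
  fun p y => wedge (fderiv ℝ (τ.w p) y) (Ω (τ.f p) y)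

/-- Multiplication by a function. -/
def Tr.ofFn {w : Fn P} (hw : IsFn Γ w) : Tr Γ Γ where
  f := id
  w := w
  fn := hw
  eqv _ _ _ _ _ _ := rfl
  inj _ _ _ _ h := h

/-- τ' is the adjoint of τ. -/
def Tr.Pair (τ : Tr Γ Γ') (τ' : Tr Γ' Γ) : Prop :=
  (∀ p, ∀ y ∈ DR c, τ.w p y ≠ 0 → τ'.f (τ.f p) = p ∧ τ'.w (τ.f p) y = τ.w p y) ∧
  ∀ p, ∀ y ∈ DR c, τ'.w p y ≠ 0 → τ.f (τ'.f p) = p ∧ τ.w (τ'.f p) y = τ'.w p y

/-- The function that interpolates the values a p across the collars. -/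
def wt (Γ : Gl c P) (a : P → ℝ) : Fn P :=
  fun p y => a p + ∑ e, (a (Γ.σ e p) - a p) * kap e y

/-- The integral over the manifold of a function read in all pieces. -/
def intF (c : Par) (F : Fn P) : ℝ := ∑ᶠ p, ∫ y in DR c, wg c y * F p y * vol c y

/-- Continuous and living on finitely many pieces. -/
structure IsC (c : Par) (F : Fn P) : Prop where
  cont : ∀ p, ContinuousOn (F p) (DR c)
  fin : {p | ∃ y ∈ DR c, F p y ≠ 0}.Finite

open Classical in
/-- The operator on L2 that extends a map of families (zero if there is none). -/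
def extOp (U : UpL2 Γ) (U' : UpL2 Γ') {k l : ℕ} (Φ : Fam P k → Fam P' l) :
    U.H k →L[ℝ] U'.H l :=
  if h : ∃ M : U.H k →L[ℝ] U'.H l, ∀ Ω, IsT Γ Ω → M (U.j k Ω) = U'.j l (Φ Ω) then h.choose else 0

def Tr.M (τ : Tr Γ Γ') (U : UpL2 Γ) (U' : UpL2 Γ') (k : ℕ) : U.H k →L[ℝ] U'.H k :=
  extOp U U' τ.mul

def Tr.E (τ : Tr Γ Γ') (U : UpL2 Γ) (U' : UpL2 Γ') (k : ℕ) : U.H k →L[ℝ] U'.H (k + 1) :=
  extOp U U' τ.wed

/-- Multiplication by a function on L2. -/
def UpL2.m (U : UpL2 Γ) (w : Fn P) (k : ℕ) : U.H k →L[ℝ] U.H k :=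
  extOp U U fun Ω p y => w p y • Ω p y

/-- The operator on pairs (derivative, codifferential). -/
def pairOp {H H' : ℕ → Type} [∀ k, NormedAddCommGroup (H k)] [∀ k, InnerProductSpace ℝ (H k)]
    [∀ k, NormedAddCommGroup (H' k)] [∀ k, InnerProductSpace ℝ (H' k)]
    (T : ∀ k, H k →L[ℝ] H' k) (k : ℕ) : KK H k →L[ℝ] KK H' k :=
  (WithLp.prodContinuousLinearEquiv 2 ℝ (H' (k + 1)) (H' (k - 1))).symm.toContinuousLinearMap ∘L
    ((T (k + 1)).prodMap (T (k - 1))) ∘L
      (WithLp.prodContinuousLinearEquiv 2 ℝ (H (k + 1)) (H (k - 1))).toContinuousLinearMap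

/-- The defect of the codifferential. -/
def Tr.cod (τ' : Tr Γ' Γ) (U : UpL2 Γ) (U' : UpL2 Γ') : ∀ k, U.H k →L[ℝ] U'.H (k - 1)
  | 0 => 0
  | k + 1 => ContinuousLinearMap.adjoint (τ'.E U' U k)

/-- The defect on pairs. -/
def defect (τ : Tr Γ Γ') (τ' : Tr Γ' Γ) (U : UpL2 Γ) (U' : UpL2 Γ') (k : ℕ) :
    U.H k →L[ℝ] KK U'.H k :=
  (WithLp.prodContinuousLinearEquiv 2 ℝ (U'.H (k + 1)) (U'.H (k - 1))).symm.toContinuousLinearMap
    ∘L (τ.E U U' k).prod (-τ'.cod U U' k)

open Classical in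
/-- Extension to all charts of a form given in the chart b of the piece p₀. -/
def extC (Γ : Gl c P) (p₀ : P) (b : Bool) (α : Eu 5 → Alt 5 k) : Fam P k := fun p y =>
  ∑ o : Option (Ed c), if Γ.go o p = p₀ ∧ Link o y (lkMap o b y) then
    (α (lkMap o b y)).compContinuousLinearMap (fderiv ℝ (lkMap o b) y) else 0

/-- The signed adjacency operator. -/
def ahat (Γ : Gl c P) (v : P → ℝ) (p : P) : ℝ := ∑ e, sg e * c.ε e * v (Γ.σ e p)

/-- Neighbours. -/
def Gl.Adj (Γ : Gl c P) (p q : P) : Prop := ∃ e, Γ.σ e p = q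

/-- A function as a family of 0-forms. -/
def ofFn (w : Fn P) : Fam P 0 := fun p y => f0 (w p y)

open Classical in
/-- Balls around a finite set of pieces. -/
def Gl.ball (Γ : Gl c P) (S : Finset P) : ℕ → Finset P
  | 0 => S
  | n + 1 => Γ.ball S n ∪ Finset.univ.biUnion fun e => (Γ.ball S n).image (Γ.σ e)

/-- The cut-off of the core of the piece p. -/
def cut (Γ : Gl c P) (n : ℕ) (p : P) : Fn P := fun q y =>
  Real.smoothTransition (n * (wt Γ (indicator {p} 1) q y - 1 / 2) - 1)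

/-- The part of the domain where all collar coordinates are larger than a. -/
def Wa (c : Par) (a : ℝ) : Set (Eu 5) := {y | y ∈ DR c ∧ ∀ e : Ed c, a < sc e y}

/-- The compact part of the domain where all collar coordinates are at least a and the fibre
coordinate is in the support of rho. -/
def Kc (c : Par) (a : ℝ) : Set (Eu 5) := {y | y ∈ DR c ∧ (∀ e : Ed c, a ≤ sc e y) ∧ zsq y ≤ 3}

/-- The derivative of the partition function of p on the collar e of p, zero elsewhere. -/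
def th (Γ : Gl c P) (p : P) (e : Ed c) : Fam P 1 := fun q y =>
  (indicator {Γ.σ e p} (1 : P → ℝ) q - indicator {p} (1 : P → ℝ) q) •
    wedge (fderiv ℝ (kap e) y) (f0 1)

end

end Pool.Agent.Lib.MP_75c153_gt.Ft
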