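import Mathlib

/-!
Simple connectivity of a union of simply connected open sets whose nerve is a tree.
-/

open Set Topology
open scoped unitInterval

namespace Pool.Agent.Lib.MP_75c153_gt.Ft

noncomputable section

variable {X : Type*} [TopologicalSpace X]

open Path.Homotopic.Quotient in
/-- If classes of paths from a base point are compatible with all small paths, then every loop
is null-homotopic. -/
theorem simplyConnected_of_classes {ι : Type*} (U : ι → Set X) (hU : ∀ i, IsOpen (U i))
    (hc : ∀ x, ∃ i, x ∈ U i) (x₀ : X) (c : ∀ x, Path.Homotopic.Quotient x₀ x)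
    (h : ∀ i x y (γ : Path x y), (∀ t, γ t ∈ U i) → (c x).trans (mk γ) = c y) :
    SimplyConnectedSpace X := by
  have key : ∀ x y (γ : Path x y), (c x).trans (mk γ) = c y := by
    intro x y γ
    obtain ⟨t, h0, hm, ⟨n, hn⟩, hs⟩ := exists_monotone_Icc_subset_open_cover_unitInterval
      (c := fun i => γ ⁻¹' U i) (fun i => (hU i).preimage γ.continuous)
      (fun s _ => mem_iUnion.2 (hc (γ s)))
    have h1 : ∀ k, (c (γ (t 0))).trans (mk (γ.subpath (t 0) (t k))) = c (γ (t k)) := by
      intro k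
      induction k with
      | zero => simp
      | succ k ih =>
        obtain ⟨i, hi⟩ := hs k
        have h2 := h i _ _ (γ.subpath (t k) (t (k + 1))) fun s => by
          have : γ.subpath (t k) (t (k + 1)) s ∈ range (γ.subpath (t k) (t (k + 1))) := ⟨s, rfl⟩
          rw [Path.range_subpath_of_le _ _ _ (hm k.le_succ)] at this
          obtain ⟨u, hu, e⟩ := this
          exact e ▸ hi hu
        have h3 : mk (γ.subpath (t 0) (t (k + 1))) =
            (mk (γ.subpath (t 0) (t k))).trans (mk (γ.subpath (t k) (t (k + 1)))) := by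
          rw [← mk_trans]
          exact (eq.2 ⟨Path.Homotopy.subpathTransSubpath γ _ _ _⟩).symm
        rw [h3, ← trans_assoc, ih, h2]
    have h4 := h1 n
    have h5 := hn n le_rfl
    generalize t n = b at h4 h5
    generalize t 0 = a at h4 h0
    subst h0 h5
    rw [Path.subpath_zero_one] at h4
    have h6 : ∀ x' y' (e0 : x' = x) (e1 : y' = y),
        (c x').trans (mk (γ.cast e0 e1)) = c y' → (c x).trans (mk γ) = c y := by
      rintro _ _ rfl rfl h
      exact h
    exact h6 _ _ _ _ h4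
  refine simply_connected_iff_loops_nullhomotopic.2 ⟨⟨⟨x₀⟩, fun x y => ?_⟩, fun x γ => ?_⟩
  · exact ⟨(c x).out.symm.trans (c y).out⟩
  · rw [← eq]
    calc mk γ = ((c x).symm.trans (c x)).trans (mk γ) := by simp
      _ = mk (Path.refl x) := by rw [trans_assoc, key]; simp

open Path.Homotopic.Quotient in
/-- Two paths inside a simply connected set are homotopic. -/
theorem mk_eq_of_mem {A : Set X} (hA : IsSimplyConnected A) {x y : X} (γ γ' : Path x y)
    (h : ∀ t, γ t ∈ A) (h' : ∀ t, γ' t ∈ A) : mk γ = mk γ' := by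
  obtain ⟨F, -⟩ := (isSimplyConnected_iff_exists_homotopy_refl_forall_mem.1 hA).2 x
    (γ.trans γ'.symm) fun t => by
      have : γ.trans γ'.symm t ∈ range (γ.trans γ'.symm) := ⟨t, rfl⟩
      rw [Path.trans_range, Path.symm_range] at this
      rcases this with ⟨s, e⟩ | ⟨s, e⟩
      exacts [e ▸ h s, e ▸ h' s]
  have h1 : (mk γ).trans (mk γ').symm = refl x := by
    simpa using eq.2 ⟨F⟩
  calc mk γ = ((mk γ).trans (mk γ').symm).trans (mk γ') := by simp
    _ = mk γ' := by rw [h1]; simp

/-- An open cover by simply connected sets whose nerve is a rooted tree. -/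
structure TreeCover (X : Type*) [TopologicalSpace X] (V : Type*) where
  U : V → Set X
  root : V
  par : V → V
  rk : V → ℕ
  isOpen : ∀ v, IsOpen (U v)
  cover : ∀ x, ∃ v, x ∈ U v
  sc : ∀ v, IsSimplyConnected (U v)
  lt : ∀ v, v ≠ root → rk (par v) < rk v
  pc : ∀ v, v ≠ root → IsPathConnected (U v ∩ U (par v))
  nerve : ∀ v w x, x ∈ U v → x ∈ U w → v = w ∨ (v ≠ root ∧ w = par v) ∨ (w ≠ root ∧ v = par w)

namespace TreeCover

variable {V : Type*} (T : TreeCover X V)

/-- The class of the paths from x to y inside U v. -/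
def q (v : V) {x y : X} (hx : x ∈ T.U v) (hy : y ∈ T.U v) : Path.Homotopic.Quotient x y :=
  .mk ((T.sc v).isPathConnected.joinedIn x hx y hy).somePath

theorem q_eq (v : V) {x y : X} (hx : x ∈ T.U v) (hy : y ∈ T.U v) (γ : Path x y)
    (h : ∀ t, γ t ∈ T.U v) : T.q v hx hy = .mk γ :=
  mk_eq_of_mem (T.sc v) _ _ (JoinedIn.somePath_mem _) h

theorem q_trans (v : V) {x y z : X} (hx : x ∈ T.U v) (hy : y ∈ T.U v) (hz : z ∈ T.U v) :
    (T.q v hx hy).trans (T.q v hy hz) = T.q v hx hz := by
  rw [q, q, ← Path.Homotopic.Quotient.mk_trans]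
  refine (T.q_eq v hx hz _ fun t => ?_).symm
  have := mem_range_self (f := (((T.sc v).isPathConnected.joinedIn x hx y hy).somePath.trans
    ((T.sc v).isPathConnected.joinedIn y hy z hz).somePath)) t
  rw [Path.trans_range] at this
  rcases this with ⟨s, e⟩ | ⟨s, e⟩
  exacts [e ▸ JoinedIn.somePath_mem _ s, e ▸ JoinedIn.somePath_mem _ s]

/-- The base point. -/
def x₀ : X := (T.sc T.root).nonempty.some

theorem x₀_mem : T.x₀ ∈ T.U T.root := (T.sc T.root).nonempty.some_mem

/-- A point common to a vertex and its parent. -/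
def b {v : V} (h : v ≠ T.root) : X := (T.pc v h).nonempty.some

theorem b_mem {v : V} (h : v ≠ T.root) : T.b h ∈ T.U v ∩ T.U (T.par v) :=
  (T.pc v h).nonempty.some_mem

open Classical in
/-- The class of the paths from the base point that follow the tree. -/
def cl (v : V) (x : X) (hx : x ∈ T.U v) : Path.Homotopic.Quotient T.x₀ x :=
  if h : v = T.root then T.q v (h ▸ T.x₀_mem) hx
  else (cl (T.par v) (T.b h) (T.b_mem h).2).trans (T.q v (T.b_mem h).1 hx)
termination_by T.rk v
decreasing_by exact T.lt v h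

theorem cl_trans (v : V) {x y : X} (hx : x ∈ T.U v) (hy : y ∈ T.U v) :
    (T.cl v x hx).trans (T.q v hx hy) = T.cl v y hy := by
  rw [cl, cl]
  split_ifs with h
  · exact T.q_trans ..
  · rw [Path.Homotopic.Quotient.trans_assoc, T.q_trans]

theorem cl_par {v : V} (h : v ≠ T.root) {x : X} (hx : x ∈ T.U v) (hx' : x ∈ T.U (T.par v)) :
    T.cl v x hx = T.cl (T.par v) x hx' := by
  obtain ⟨γ, hγ⟩ := (T.pc v h).joinedIn _ (T.b_mem h) x ⟨hx, hx'⟩
  rw [cl, dif_neg h, T.q_eq v _ hx γ fun t => (hγ t).1,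
    ← T.q_eq _ (T.b_mem h).2 hx' γ fun t => (hγ t).2, T.cl_trans]

theorem cl_eq {v w : V} {x : X} (hx : x ∈ T.U v) (hx' : x ∈ T.U w) :
    T.cl v x hx = T.cl w x hx' := by
  rcases T.nerve v w x hx hx' with rfl | ⟨h, rfl⟩ | ⟨h, rfl⟩
  · rfl
  · exact T.cl_par h _ _
  · exact (T.cl_par h _ _).symm

include T in
theorem simplyConnected : SimplyConnectedSpace X := by
  choose w hw using T.cover
  refine simplyConnected_of_classes T.U T.isOpen T.cover T.x₀ (fun x => T.cl (w x) x (hw x))
    fun v x y γ hγ => ?_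
  have hx : x ∈ T.U v := γ.source ▸ hγ 0
  have hy : y ∈ T.U v := γ.target ▸ hγ 1
  rw [T.cl_eq (hw x) hx, T.cl_eq (hw y) hy, ← T.q_eq v hx hy γ hγ, T.cl_trans]

end TreeCover

theorem isSimplyConnected_val {S A : Set X} (h : A ⊆ S) (hA : IsSimplyConnected A) :
    IsSimplyConnected ((↑) ⁻¹' A : Set S) := by
  rw [← IsEmbedding.subtypeVal.isSimplyConnected_image, Subtype.image_preimage_coe,
    inter_eq_self_of_subset_right h]
  exact hA

/-- The union of two simply connected open sets with path connected intersection. -/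
theorem isSimplyConnected_union {A B : Set X} (hA : IsOpen A) (hB : IsOpen B)
    (hA' : IsSimplyConnected A) (hB' : IsSimplyConnected B) (h : IsPathConnected (A ∩ B)) :
    IsSimplyConnected (A ∪ B) := by
  refine TreeCover.simplyConnected (X := (A ∪ B : Set X)) (V := Bool)
    { U := fun s => (↑) ⁻¹' (bif s then A else B)
      root := true
      par := fun _ => true
      rk := fun s => bif s then 0 else 1
      isOpen := ?_, cover := ?_, sc := ?_, lt := ?_, pc := ?_, nerve := ?_ }
  · rintro (_ | _)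
    exacts [hB.preimage continuous_subtype_val, hA.preimage continuous_subtype_val]
  · rintro ⟨x, hx | hx⟩
    exacts [⟨true, hx⟩, ⟨false, hx⟩]
  · rintro (_ | _)
    exacts [isSimplyConnected_val subset_union_right hB',
      isSimplyConnected_val subset_union_left hA']
  · rintro (_ | _) <;> simp
  · rintro (_ | _) hv
    · rw [← preimage_inter, inter_comm]
      exact h.preimage_coe (inter_subset_left.trans subset_union_left)
    · exact absurd rfl hv
  · rintro (_ | _) (_ | _) <;> simp

/-- A set that can be pushed along segments into a convex subset is simply connected. -/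
theorem isSimplyConnected_of_push {E : Type*} [NormedAddCommGroup E] [NormedSpace ℝ E]
    {S C : Set E} {τ : E → E} (hτ : ContinuousOn τ S) (hs : ∀ x ∈ S, segment ℝ x (τ x) ⊆ S)
    (hC : Convex ℝ C) (hCS : C ⊆ S) (hm : MapsTo τ S C) {p : E} (hp : p ∈ C) :
    IsSimplyConnected S := by
  have hc : Continuous fun x : S => τ x := hτ.domRestrict
  have m : ∀ (t : I) (x y : E), (1 - (t : ℝ)) • x + (t : ℝ) • y ∈ segment ℝ x y := fun t x y =>
    ⟨_, _, unitInterval.one_minus_nonneg t, t.2.1, sub_add_cancel _ _, rfl⟩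
  let f : C(S, S) := ⟨fun x => ⟨τ x, hCS (hm x.2)⟩, hc.subtype_mk _⟩
  have h1 : (ContinuousMap.id S).Homotopic f :=
    ⟨{ toFun := fun z => ⟨(1 - (z.1 : ℝ)) • (z.2 : E) + (z.1 : ℝ) • τ z.2, hs _ z.2.2 (m _ _ _)⟩
       continuous_toFun := Continuous.subtype_mk (((by fun_prop : Continuous fun z : I × S =>
         (1 - (z.1 : ℝ)) • (z.2 : E)).add ((by fun_prop : Continuous fun z : I × S =>
         (z.1 : ℝ)).smul (hc.comp continuous_snd)))) _
       map_zero_left := fun x => by simp
       map_one_left := fun x => by simp [f] }⟩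
  have h2 : f.Homotopic (ContinuousMap.const S ⟨p, hCS hp⟩) :=
    ⟨{ toFun := fun z => ⟨(1 - (z.1 : ℝ)) • τ z.2 + (z.1 : ℝ) • p,
         hCS (hC.segment_subset (hm z.2.2) hp (m _ _ _))⟩
       continuous_toFun := Continuous.subtype_mk ((((by fun_prop : Continuous fun z : I × S =>
         (1 - (z.1 : ℝ))).smul (hc.comp continuous_snd))).add (by fun_prop)) _
       map_zero_left := fun x => by simp [f]
       map_one_left := fun x => by simp }⟩
  have : ContractibleSpace S := (contractible_iff_id_nullhomotopic S).2 ⟨_, h1.trans h2⟩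
  exact SimplyConnectedSpace.ofContractible S

theorem isSimplyConnected_prod {Y : Type*} [TopologicalSpace Y] {A : Set X} {B : Set Y}
    (hA : IsSimplyConnected A) (hB : IsSimplyConnected B) : IsSimplyConnected (A ×ˢ B) := by
  refine isSimplyConnected_iff_exists_homotopy_refl_forall_mem.2
    ⟨hA.isPathConnected.prod hB.isPathConnected, fun x p hp => ?_⟩
  obtain ⟨F, hF⟩ := (isSimplyConnected_iff_exists_homotopy_refl_forall_mem.1 hA).2 x.1
    (p.map continuous_fst) fun t => (hp t).1
  obtain ⟨G, hG⟩ := (isSimplyConnected_iff_exists_homotopy_refl_forall_mem.1 hB).2 x.2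
    (p.map continuous_snd) fun t => (hp t).2
  exact ⟨{ toFun := fun t => (F t, G t)
           map_zero_left := fun t => by simp
           map_one_left := fun t => by simp
           prop' := fun t s hs => Prod.ext (F.prop' t s hs) (G.prop' t s hs) },
    fun t => ⟨hF t, hG t⟩⟩

/-- A retract of a simply connected set is simply connected. -/
theorem isSimplyConnected_of_retract {Y : Type*} [TopologicalSpace Y] {A : Set X} {B : Set Y}
    (hA : IsSimplyConnected A) {f : X → Y} {s : Y → X} (hf : ContinuousOn f A)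
    (hs : ContinuousOn s B) (hfm : MapsTo f A B) (hsm : MapsTo s B A) (h : ∀ y ∈ B, f (s y) = y) :
    IsSimplyConnected B := by
  have hA' := hA.simplyConnectedSpace
  let f' : C(A, B) := ⟨hfm.restrict, hf.mapsToRestrict hfm⟩
  let s' : C(B, A) := ⟨hsm.restrict, hs.mapsToRestrict hsm⟩
  have e : ∀ y, f' (s' y) = y := fun y => Subtype.ext (h y y.2)
  refine simply_connected_iff_loops_nullhomotopic.2 ⟨?_, fun x p => ?_⟩
  · exact Function.Surjective.pathConnectedSpace (fun y => ⟨s' y, e y⟩) f'.continuous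
  · obtain ⟨F⟩ := SimplyConnectedSpace.paths_homotopic (p.map s'.continuous) (.refl _)
    exact ⟨{ toFun := fun t => f' (F t)
             map_zero_left := fun t => by simp [e]
             map_one_left := fun t => by simp [e]
             prop' := fun t u hu => (congrArg f' (F.prop' t u hu)).trans (e _) }⟩

/-- A convex open set that contains a cube, minus finitely many closed balls with centres on an
axis. -/
theorem holes_aux {J : Type} [Finite J] (a : J → ℝ) {r ρ : ℝ}
    {B : Set (Fin 3 → ℝ)} (hB : Convex ℝ B) (hO : IsOpen B) (hr : 0 ≤ r) (hρ : r < ρ)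
    (ha : ∀ j, |a j| + r < ρ) (hc : ∀ x : Fin 3 → ℝ, (∀ l, |x l| ≤ ρ) → x ∈ B) :
    IsSimplyConnected {x | x ∈ B ∧ ∀ j, r ^ 2 < (x 0 - a j) ^ 2 + x 1 ^ 2 + x 2 ^ 2} ∧
      IsPathConnected {x | x ∈ B ∧ ∀ j, r ^ 2 < (x 0 - a j) ^ 2 + x 1 ^ 2} := by
  have hρ0 : 0 < ρ := hr.trans_lt hρ
  let S (i k : Fin 3) (s κ : ℝ) : Set (Fin 3 → ℝ) :=
    {x | x ∈ B ∧ ∀ j, r ^ 2 < (x 0 - a j) ^ 2 + κ * x k ^ 2 + max (s * x i) 0 ^ 2}
  have hSo : ∀ i k s κ, IsOpen (S i k s κ) := fun i k s κ => by
    refine hO.inter ?_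
    change IsOpen {x : Fin 3 → ℝ | ∀ j, _}
    rw [ofPred_forall]
    exact isOpen_iInter_of_finite fun j => isOpen_lt continuous_const (by fun_prop)
  have hS : ∀ i k s κ, i ≠ 0 → k ≠ i → (s = 1 ∨ s = -1) → (κ = 0 ∨ κ = 1) →
      IsSimplyConnected (S i k s κ) := by
    intro i k s κ hi hk hs hκ
    have hs2 : s * s = 1 := by rcases hs with rfl | rfl <;> norm_num
    have hκ0 : 0 ≤ κ := by rcases hκ with rfl | rfl <;> norm_num
    let τ (x : Fin 3 → ℝ) : Fin 3 → ℝ := fun l => if l = i then s * ρ else max (-ρ) (min ρ (x l))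
    have hτ : ∀ x, τ x ∈ B ∩ {x | r < s * x i} := fun x => by
      refine ⟨hc _ fun l => ?_, ?_⟩
      · simp only [τ]
        split_ifs
        · rcases hs with rfl | rfl <;> simp [abs_of_pos hρ0]
        · exact abs_le.2 ⟨le_max_left _ _, max_le (by linarith) (min_le_left _ _)⟩
      · simp only [τ, mem_ofPred_eq, if_true, ← mul_assoc, hs2, one_mul, hρ]
    have big : ∀ (x : Fin 3 → ℝ) j, r < s * x i →
        r ^ 2 < (x 0 - a j) ^ 2 + κ * x k ^ 2 + max (s * x i) 0 ^ 2 := fun x j h => by
      rw [max_eq_left (hr.trans h.le)]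
      nlinarith [sq_nonneg (x 0 - a j), mul_nonneg hκ0 (sq_nonneg (x k))]
    refine isSimplyConnected_of_push (τ := τ) (C := B ∩ {x | r < s * x i}) ?_ ?_ ?_ ?_
      (fun x _ => hτ x) (hτ 0)
    · refine Continuous.continuousOn (continuous_pi fun l => ?_)
      simp only [τ]
      split_ifs <;> fun_prop
    · rintro x hx _ ⟨u, v, hu, hv, huv, rfl⟩
      refine ⟨hB hx.1 (hτ x).1 hu hv huv, fun j => ?_⟩
      have h1 : ∀ l, l ≠ i → (u • x + v • τ x) l = x l ∨ ρ ≤ |(u • x + v • τ x) l| := by
        intro l hl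
        simp only [τ, Pi.add_apply, Pi.smul_apply, smul_eq_mul, if_neg hl]
        rcases le_total (x l) (-ρ) with h | h
        · rw [min_eq_right (by linarith), max_eq_left h]
          exact Or.inr (le_abs.2 (Or.inr (by nlinarith)))
        · rcases le_total ρ (x l) with h' | h'
          · rw [min_eq_left h', max_eq_right (by linarith)]
            exact Or.inr (le_abs.2 (Or.inl (by nlinarith)))
          · rw [min_eq_right h', max_eq_right h, ← add_mul, huv, one_mul]
            exact Or.inl rfl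
      have h2 : s * (u • x + v • τ x) i = u * (s * x i) + v * ρ := by
        simp only [τ, Pi.add_apply, Pi.smul_apply, smul_eq_mul, if_true]
        linear_combination v * ρ * hs2
      have h3 := hx.2 j
      have h4 := ha j
      generalize u • x + v • τ x = y at h1 h2 ⊢
      have n1 := sq_nonneg (y 0 - a j)
      have n2 := mul_nonneg hκ0 (sq_nonneg (y k))
      have n3 := sq_nonneg (max (s * y i) 0)
      by_cases h5 : r < s * y i
      · exact big y j h5
      have h6 : max (s * x i) 0 ^ 2 ≤ max (s * y i) 0 ^ 2 := by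
        refine pow_le_pow_left₀ (le_max_right _ _) (max_le_max_right _ ?_) 2
        rcases le_total ρ (s * x i) with h | h <;> nlinarith
      rcases h1 0 hi.symm with h7 | h7
      · rcases hκ with rfl | rfl
        · rw [h7]
          linarith
        · rcases h1 k hk with h8 | h8
          · rw [h7, h8]
            linarith
          · have := sq_abs (y k)
            nlinarith
      · have h8 : r < |y 0 - a j| := by
          have := abs_sub_abs_le_abs_sub (y 0) (a j)
          linarith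
        have := sq_abs (y 0 - a j)
        nlinarith
    · refine hB.inter (convex_halfSpace_gt (f := fun x : Fin 3 → ℝ => s * x i) ⟨?_, ?_⟩ r)
      · intro x y
        simp [mul_add]
      · intro t x
        simp [mul_left_comm]
    · exact fun x hx => ⟨hx.1, fun j => big x j hx.2⟩
  have mx : ∀ t : ℝ, max (1 * t) 0 ^ 2 ≤ t ^ 2 ∧ max (-1 * t) 0 ^ 2 ≤ t ^ 2 ∧
      ((max (1 * t) 0 ^ 2 = t ^ 2 ∧ max (-1 * t) 0 = 0) ∨
        (max (-1 * t) 0 ^ 2 = t ^ 2 ∧ max (1 * t) 0 = 0)) := fun t => by
    rcases le_total 0 t with h | h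
    · rw [max_eq_left (by linarith), max_eq_right (by linarith)]
      simp [sq_nonneg]
    · rw [max_eq_right (by linarith), max_eq_left (by linarith)]
      simp [sq_nonneg]
  have e1 : {x | x ∈ B ∧ ∀ j, r ^ 2 < (x 0 - a j) ^ 2 + x 1 ^ 2 + x 2 ^ 2} =
      S 2 1 1 1 ∪ S 2 1 (-1) 1 := by
    ext x
    obtain ⟨m1, m2, m3⟩ := mx (x 2)
    constructor
    · rintro ⟨h, h'⟩
      rcases m3 with m | m
      exacts [Or.inl ⟨h, fun j => by linarith [h' j, m.1]⟩,
        Or.inr ⟨h, fun j => by linarith [h' j, m.1]⟩]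
    · rintro (⟨h, h'⟩ | ⟨h, h'⟩) <;> exact ⟨h, fun j => by linarith [h' j]⟩
  have e2 : S 2 1 1 1 ∩ S 2 1 (-1) 1 = S 1 2 1 0 ∪ S 1 2 (-1) 0 := by
    ext x
    obtain ⟨m1, m2, m3⟩ := mx (x 1)
    constructor
    · rintro ⟨⟨h, h1⟩, -, h2⟩
      have h' : ∀ j, r ^ 2 < (x 0 - a j) ^ 2 + x 1 ^ 2 := fun j => by
        have h3 := h1 j
        have h4 := h2 j
        rcases (mx (x 2)).2.2 with m | m
        · rw [m.2] at h4
          linarith
        · rw [m.2] at h3
          linarith
      rcases m3 with m | m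
      exacts [Or.inl ⟨h, fun j => by linarith [h' j, m.1]⟩,
        Or.inr ⟨h, fun j => by linarith [h' j, m.1]⟩]
    · have n1 := sq_nonneg (max (1 * x 2) 0)
      have n2 := sq_nonneg (max (-1 * x 2) 0)
      rintro (⟨h, h'⟩ | ⟨h, h'⟩) <;>
        exact ⟨⟨h, fun j => by linarith [h' j]⟩, h, fun j => by linarith [h' j]⟩
  have hp : ∀ s, (![ρ, 0, 0] : Fin 3 → ℝ) ∈ S 1 2 s 0 := fun s => by
    refine ⟨hc _ fun l => by fin_cases l <;> simp [hρ0.le, abs_of_pos hρ0], fun j => ?_⟩
    have h1 := ha j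
    have h2 := le_abs_self (a j)
    have h3 : r ^ 2 < (ρ - a j) ^ 2 := by nlinarith
    simpa using h3
  have e3 : {x | x ∈ B ∧ ∀ j, r ^ 2 < (x 0 - a j) ^ 2 + x 1 ^ 2} =
      S 1 2 1 0 ∪ S 1 2 (-1) 0 := by
    ext x
    obtain ⟨m1, m2, m3⟩ := mx (x 1)
    constructor
    · rintro ⟨h, h'⟩
      rcases m3 with m | m
      exacts [Or.inl ⟨h, fun j => by linarith [h' j, m.1]⟩,
        Or.inr ⟨h, fun j => by linarith [h' j, m.1]⟩]
    · rintro (⟨h, h'⟩ | ⟨h, h'⟩) <;> exact ⟨h, fun j => by linarith [h' j]⟩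
  have pc := (hS 1 2 1 0 (by decide) (by decide) (by simp) (by simp)).isPathConnected.union
    (hS 1 2 (-1) 0 (by decide) (by decide) (by simp) (by simp)).isPathConnected ⟨_, hp _, hp _⟩
  rw [e1, e3]
  exact ⟨isSimplyConnected_union (hSo ..) (hSo ..) (hS _ _ _ _ (by decide) (by decide)
    (by simp) (by simp)) (hS _ _ _ _ (by decide) (by decide) (by simp) (by simp)) (e2 ▸ pc), pc⟩

theorem isSimplyConnected_holes {J : Type} [Finite J] (a : J → ℝ) {r ρ : ℝ}
    {B : Set (Fin 3 → ℝ)} (hB : Convex ℝ B) (hO : IsOpen B) (hr : 0 ≤ r) (hρ : r < ρ)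
    (ha : ∀ j, |a j| + r < ρ) (hc : ∀ x : Fin 3 → ℝ, (∀ l, |x l| ≤ ρ) → x ∈ B) :
    IsSimplyConnected {x | x ∈ B ∧ ∀ j, r ^ 2 < (x 0 - a j) ^ 2 + x 1 ^ 2 + x 2 ^ 2} :=
  (holes_aux a hB hO hr hρ ha hc).1

end

end Pool.Agent.Lib.MP_75c153_gt.Ft
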