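import Pool.Agent.Lib.MP_75c153_gt.Ft.FlipA
import Pool.Agent.Lib.MP_75c153_gt.Ft.UDefs
import Pool.Agent.Lib.MP_75c153_gt.Ft.VK

/-! Connectedness of the sets on which divergence equations are solved. -/

open MeasureTheory Filter Topology Set
open scoped ContDiff InnerProductSpace

namespace Pool.Agent.Lib.MP_75c153_gt.Ft

open Pool.Agent.Lib.MP_570070_gt.An

noncomputable section

variable {c : Par}

/-- The part of a chart at depth more than a. -/
def DRa (c : Par) (a : ℝ) (b : Bool) : Set (Eu 5) := {y | y ∈ DRb c b ∧ ∀ e : Ed c, a < sc e y}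

theorem geoc_mem {a : ℝ} {y : Eu 5} : (∀ e : Ed c, 0 < rsq e y ∧ a < sc e y) ↔
    y 0 ^ 2 + y 1 ^ 2 + y 2 ^ 2 < Real.exp (c.m + 4 - a) ^ 2 ∧
    ∀ j : Fin (c.m + 1), Real.exp (a - 3) ^ 2 < (y 0 - (j : ℕ)) ^ 2 + y 1 ^ 2 + y 2 ^ 2 := by
  simp only [sq (Real.exp _), ← Real.exp_add]
  constructor
  · intro h
    refine ⟨?_, fun j => ?_⟩
    · obtain ⟨h1, h2⟩ := h none
      simp only [sc, sg, mid, rsq, ctr, sub_zero] at h1 h2
      rw [← Real.log_lt_iff_lt_exp h1]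
      linarith
    · obtain ⟨h1, h2⟩ := h (some j)
      simp only [sc, sg, mid, rsq, ctr] at h1 h2
      rw [← Real.lt_log_iff_exp_lt h1]
      linarith
  · rintro ⟨h, h'⟩ (_ | j)
    · have h1 : 0 < y 0 ^ 2 + y 1 ^ 2 + y 2 ^ 2 := by simpa using (Real.exp_pos _).trans (h' 0)
      rw [← Real.log_lt_iff_lt_exp h1] at h
      simp only [sc, sg, mid, rsq, ctr, sub_zero]
      exact ⟨h1, by linarith⟩
    · have h1 := (Real.exp_pos _).trans (h' j)
      have h2 := (Real.lt_log_iff_exp_lt h1).2 (h' j)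
      simp only [sc, sg, mid, rsq, ctr]
      exact ⟨h1, by linarith⟩

theorem mem_DRa {a : ℝ} (ha : -1 ≤ a) {b : Bool} {y : Eu 5} : y ∈ DRa c a b ↔
    (y 0 ^ 2 + y 1 ^ 2 + y 2 ^ 2 < Real.exp (c.m + 4 - a) ^ 2 ∧
    ∀ j : Fin (c.m + 1), Real.exp (a - 3) ^ 2 < (y 0 - (j : ℕ)) ^ 2 + y 1 ^ 2 + y 2 ^ 2) ∧
    |y 3 - 4 * tau b| < 3 ∧ |y 4| < 3 := by
  rw [← geoc_mem, DRa, mem_ofPred_eq, mem_DRb_iff]
  exact ⟨fun h => ⟨fun e => ⟨(h.1.1 e).1, h.2 e⟩, h.1.2⟩, fun h =>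
    ⟨⟨fun e => ⟨(h.1 e).1, ha.trans_lt (h.1 e).2⟩, h.2⟩, fun e => (h.1 e).2⟩⟩

theorem DRa_neg_one (b : Bool) : DRa c (-1) b = DRb c b :=
  Subset.antisymm (fun _ h => h.1) fun _ h => ⟨h, fun e => (h.1.1 e).2⟩

theorem isOpen_DRa (a : ℝ) (b : Bool) : IsOpen (DRa c a b) :=
  isOpen_iff_mem_nhds.2 fun _ hy => ((isOpen_DRb b).eventually_mem hy.1).and
    (eventually_all.2 fun e =>
      (geoa_sc (hy.1.1.1 e).1).continuousAt.eventually (lt_mem_nhds (hy.2 e)))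

theorem geoc_big {a : ℝ} (ha : a ≤ 1) : 3 * (c.m + 1 : ℝ) ^ 2 < Real.exp (c.m + 4 - a) ^ 2 := by
  have hm : (0 : ℝ) ≤ c.m := Nat.cast_nonneg _
  have h1 := Real.add_one_le_exp (c.m : ℝ)
  have h2 := Real.add_one_le_exp (3 : ℝ)
  have h3 : Real.exp c.m * Real.exp 3 ≤ Real.exp (c.m + 4 - a) := by
    rw [← Real.exp_add]
    exact Real.exp_le_exp.2 (by linarith)
  have h4 : (c.m + 1 : ℝ) * 4 ≤ Real.exp (c.m + 4 - a) :=
    (mul_le_mul h1 (by linarith) (by norm_num) (Real.exp_pos _).le).trans h3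
  nlinarith

theorem geoc_convex (B : ℝ) : Convex ℝ {y : Eu 3 | y 0 ^ 2 + y 1 ^ 2 + y 2 ^ 2 < B} := by
  refine convex_iff_forall_pos.2 fun x hx y hy a b ha hb hab => ?_
  obtain rfl : b = 1 - a := by linarith
  simp only [mem_ofPred_eq, Pi.add_apply, Pi.smul_apply, smul_eq_mul] at hx hy ⊢
  have h1 := mul_lt_mul_of_pos_left hx ha
  have h2 := mul_lt_mul_of_pos_left hy hb
  have h3 := mul_nonneg (mul_pos ha hb).le (sq_nonneg (x 0 - y 0))
  have h4 := mul_nonneg (mul_pos ha hb).le (sq_nonneg (x 1 - y 1))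
  have h5 := mul_nonneg (mul_pos ha hb).le (sq_nonneg (x 2 - y 2))
  nlinarith

/-- Base and fibre coordinates. -/
def split : Eu 5 ≃ₜ Eu 3 × ℝ × ℝ where
  toFun y := (![y 0, y 1, y 2], y 3, y 4)
  invFun z := ![z.1 0, z.1 1, z.1 2, z.2.1, z.2.2]
  left_inv y := by
    funext i
    fin_cases i <;> rfl
  right_inv z := by
    refine Prod.ext ?_ rfl
    funext i
    fin_cases i <;> rfl

/-- The base domain at depth more than a. -/
def W3 (c : Par) (a : ℝ) : Set (Eu 3) :=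
  {x | x ∈ {y : Eu 3 | y 0 ^ 2 + y 1 ^ 2 + y 2 ^ 2 < Real.exp (c.m + 4 - a) ^ 2} ∧
    ∀ j : Fin (c.m + 1), Real.exp (a - 3) ^ 2 < (x 0 - (j : ℕ)) ^ 2 + x 1 ^ 2 + x 2 ^ 2}

theorem isSimplyConnected_W3 {a : ℝ} (ha' : a ≤ 1) : IsSimplyConnected (W3 c a) := by
  have hm : (0 : ℝ) ≤ c.m := Nat.cast_nonneg _
  have h0 : Real.exp (a - 3) < 1 := Real.exp_lt_one_iff.2 (by linarith)
  refine isSimplyConnected_holes (ρ := c.m + 1) _ (geoc_convex _)
    (isOpen_lt (by fun_prop) continuous_const) (Real.exp_pos _).le (by linarith) (fun j => ?_)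
    fun x hx => lt_of_le_of_lt ?_ (geoc_big ha')
  · have hj : ((j : ℕ) : ℝ) ≤ c.m := Nat.cast_le.2 (Nat.le_of_lt_succ j.2)
    rw [abs_of_nonneg (Nat.cast_nonneg _)]
    linarith
  · have h1 := fun l => sq_le_sq' (abs_le.1 (hx l)).1 (abs_le.1 (hx l)).2
    linarith [h1 0, h1 1, h1 2]

theorem DRa_eq {a : ℝ} (ha : -1 ≤ a) (b : Bool) : DRa c a b =
    split ⁻¹' (W3 c a ×ˢ (Metric.ball (4 * tau b) 3 ×ˢ Metric.ball 0 3)) := by
  ext y
  rw [mem_DRa ha]
  simp only [mem_preimage, mem_prod, Metric.mem_ball, Real.dist_eq, sub_zero]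
  rfl

theorem isSimplyConnected_DRa {a : ℝ} (ha : -1 ≤ a) (ha' : a ≤ 1) (b : Bool) :
    IsSimplyConnected (DRa c a b) := by
  rw [DRa_eq ha, Homeomorph.isSimplyConnected_preimage]
  refine isSimplyConnected_prod (isSimplyConnected_W3 ha') ?_
  have h := (convex_ball (4 * tau b) 3).prod (convex_ball (0 : ℝ) 3)
  have := h.contractibleSpace ((Metric.nonempty_ball.2 (by norm_num)).prod
    (Metric.nonempty_ball.2 (by norm_num)))
  exact SimplyConnectedSpace.ofContractible _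

theorem isSimplyConnected_DRb (b : Bool) : IsSimplyConnected (DRb c b) :=
  DRa_neg_one (c := c) b ▸ isSimplyConnected_DRa le_rfl (by norm_num) b

theorem isPreconnected_DRa {a : ℝ} (ha : -1 ≤ a) (ha' : a ≤ 1) (b : Bool) :
    IsPreconnected (DRa c a b) :=
  (isSimplyConnected_DRa ha ha' b).isPathConnected.isConnected.isPreconnected

theorem isPreconnected_DRb (b : Bool) : IsPreconnected (DRb c b) :=
  (isSimplyConnected_DRb b).isPathConnected.isConnected.isPreconnected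

theorem nonempty_DRb (b : Bool) : (DRb c b).Nonempty := (isSimplyConnected_DRb b).nonempty

theorem nonempty_DR : (DR c).Nonempty := (nonempty_DRb true).mono (DRb_subset true)

/-- Every middle hypersurface is non-empty. -/
theorem exists_sc_eq' (e : Ed c) {a : ℝ} (ha : -1 < a) (ha' : a ≤ 2) (b : Bool) {s t : ℝ}
    (hs : |s| < 3) (ht : |t| < 3) :
    ∃ y ∈ DRb c b, sc e y = a ∧ zc y = s ∧ y 4 = t := by
  have hm : (0 : ℝ) ≤ c.m := Nat.cast_nonneg _
  have e2 : ∀ t : ℝ, Real.exp t ^ 2 = Real.exp (2 * t) := fun t => by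
    rw [two_mul, Real.exp_add, sq]
  have h : (![ctr e, Real.exp (mid e + sg e * a), 0, 4 * tau b + s, t] : Eu 5) ∈ DRb c b := by
    rw [← DRa_neg_one, mem_DRa le_rfl]
    simp only [Matrix.cons_val_one, Matrix.cons_val_zero, Matrix.cons_val, add_sub_cancel_left,
      zero_pow two_ne_zero, add_zero]
    refine ⟨⟨?_, fun j => ?_⟩, hs, ht⟩
    · rcases e with _ | j
      · simp only [ctr, mid, sg, e2]
        rw [zero_pow two_ne_zero, zero_add, Real.exp_lt_exp]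
        linarith
      · have hj : ((j : ℕ) : ℝ) ≤ c.m := Nat.cast_le.2 (Nat.le_of_lt_succ j.2)
        have hj0 : (0 : ℝ) ≤ (j : ℕ) := Nat.cast_nonneg _
        simp only [ctr, mid, sg]
        refine lt_of_le_of_lt ?_ (geoc_big (by norm_num))
        have h1 : Real.exp (-3 + 1 * a) ^ 2 ≤ 1 := by
          rw [e2, Real.exp_le_one_iff]
          linarith
        nlinarith
    · refine lt_of_lt_of_le ?_ (le_add_of_nonneg_left (sq_nonneg _))
      rw [e2, e2, Real.exp_lt_exp]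
      rcases e with _ | j <;> simp only [mid, sg] <;> linarith
  refine ⟨_, h, ?_, ?_, rfl⟩
  · simp only [sc, rsq, Matrix.cons_val_one, Matrix.cons_val_zero, Matrix.cons_val, sub_self, e2]
    rw [zero_pow two_ne_zero, zero_add, add_zero, Real.log_exp]
    linear_combination a * sg_sq e
  · rw [zc_of_mem h]
    simp

/-- Every middle hypersurface meets the overlap of the two charts. -/
theorem exists_sc_eq (e : Ed c) {a : ℝ} (ha : -1 < a) (ha' : a ≤ 2) (b : Bool) :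
    ∃ y ∈ DRb c b, sc e y = a ∧ zsq y = 1 := by
  obtain ⟨y, h1, h2, h3, h4⟩ := exists_sc_eq' e ha ha' b (s := 1) (t := 0) (by norm_num)
    (by norm_num)
  exact ⟨y, h1, h2, by rw [zsq, h3, h4]; norm_num⟩

/-- The point with base x in the middle of the square b. -/
def em (x : Eu 3) : Eu 5 := ![x 0, x 1, x 2, 4, 0]

theorem Wa_inter (a : ℝ) (b : Bool) : {y | y ∈ Wa c a ∧ cb y = b} = DRa c a b :=
  Set.ext fun _ => ⟨fun h => ⟨⟨h.1.1, h.2⟩, h.1.2⟩, fun h => ⟨⟨h.1.1, h.2⟩, h.1.2⟩⟩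

theorem isOpen_Wa (a : ℝ) : IsOpen (Wa c a) :=
  isOpen_iff_mem_nhds.2 fun _ hy => (isOpen_DR.eventually_mem hy.1).and
    (eventually_all.2 fun e =>
      (geoa_sc (hy.1.1 e).1).continuousAt.eventually (lt_mem_nhds (hy.2 e)))

theorem isCompact_Kc {a : ℝ} (ha : -1 < a) : IsCompact (Kc c a) := isCompact_core ha (by norm_num)

theorem mem_Kc_of_wg {y : Eu 5} (hy : y ∈ DR c) (h : wg c y ≠ 0) : y ∈ Kc c (-1 / 2) :=
  ⟨hy, sc_ge_of_eta_ne hy (left_ne_zero_of_mul h), (zsq_lt_of_rho_ne (right_ne_zero_of_mul h)).le⟩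

theorem isPreconnected_split {S : Set (Eu 3)} {S' : Set (ℝ × ℝ)} (h : IsPreconnected S)
    (h' : IsPreconnected S') : IsPreconnected (split ⁻¹' (S ×ˢ S')) :=
  split.isPreconnected_preimage.2 (h.prod h')

theorem isPreconnected_prod {S : Set (Eu 3)} {S' : Set (Eu 2)} (h : IsPreconnected S)
    (h' : IsPreconnected S') :
    IsPreconnected {y : Eu 5 | ![y 0, y 1, y 2] ∈ S ∧ ![y 3, y 4] ∈ S'} := by
  convert isPreconnected_split h (h'.image (fun z => (z 0, z 1)) (by fun_prop)) using 1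
  ext y
  refine and_congr_right fun _ => ⟨fun h => ⟨_, h, rfl⟩, ?_⟩
  rintro ⟨z, hz, e⟩
  obtain ⟨e0, e1⟩ : z 0 = y 3 ∧ z 1 = y 4 := Prod.ext_iff.1 e
  convert hz using 1
  funext i
  fin_cases i
  exacts [e0.symm, e1.symm]

theorem em_mem {a : ℝ} (ha : -1 ≤ a) {x : Eu 3} : em x ∈ Wa c a ↔ x ∈ W3 c a := by
  have h : cb (em x) = true := by simp [cb, em]
  have h1 : em x ∈ Wa c a ↔ em x ∈ DRa c a true := by
    rw [← Wa_inter]
    exact (and_iff_left h).symm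
  rw [h1, mem_DRa ha]
  exact and_iff_left (by simp [em, tau])

theorem isPreconnected_W3 {a : ℝ} (ha' : a ≤ 1) : IsPreconnected (W3 c a) :=
  (isSimplyConnected_W3 ha').isPathConnected.isConnected.isPreconnected

theorem isPreconnected_base {a : ℝ} (ha : -1 ≤ a) (ha' : a ≤ 1) :
    IsPreconnected {x : Eu 3 | em x ∈ Wa c a} := by
  simp only [em_mem ha]
  exact isPreconnected_W3 ha'

theorem isPreconnected_Wa {a : ℝ} (ha : -1 ≤ a) (ha' : a ≤ 1) (b : Bool) :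
    IsPreconnected {y | y ∈ Wa c a ∧ cb y = b} :=
  (Wa_inter (c := c) a b).symm ▸ isPreconnected_DRa ha ha' b

theorem isPreconnected_sq (b : Bool) :
    IsPreconnected (Metric.ball (4 * tau b) 3 ×ˢ Metric.ball (0 : ℝ) 3) :=
  ((convex_ball (4 * tau b) 3).prod (convex_ball (0 : ℝ) 3)).isPreconnected

theorem isPreconnected_unit : IsPreconnected {v : Eu 3 | dot v v = 1} := by
  have h := (isSimplyConnected_holes (J := Unit) (fun _ => 0) (r := 0) (ρ := 1) convex_univ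
    isOpen_univ le_rfl one_pos (by simp) fun _ _ => trivial).isPathConnected.isConnected.isPreconnected
  have h1 : ∀ x ∈ {x : Eu 3 | x ∈ univ ∧ ∀ _ : Unit, 0 ^ 2 < (x 0 - 0) ^ 2 + x 1 ^ 2 + x 2 ^ 2},
      0 < dot x x := fun x hx => by simpa [dot, ← sq] using hx.2 ()
  convert h.image (fun x => (√(dot x x))⁻¹ • x) (ContinuousOn.smul (ContinuousOn.inv₀
    (by unfold dot; fun_prop) fun x hx => (Real.sqrt_pos.2 (h1 x hx)).ne') continuousOn_id) using 1
  ext v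
  constructor
  · intro hv
    have hv' : dot v v = 1 := hv
    refine ⟨v, ⟨trivial, fun _ => ?_⟩, by simp [hv']⟩
    rw [dot] at hv'
    nlinarith
  · rintro ⟨x, hx, rfl⟩
    have h2 := h1 x hx
    have h3 := Real.sq_sqrt h2.le
    have h4 := (Real.sqrt_pos.2 h2).ne'
    dsimp only
    generalize √(dot x x) = q at h3 h4 ⊢
    simp only [mem_ofPred_eq, dot, Pi.smul_apply, smul_eq_mul] at h3 ⊢
    field_simp
    linarith

/-- A spherical shell times a square. -/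
theorem isPreconnected_collar (e : Ed c) {a : ℝ} (ha : a ≤ 1) (b : Bool) :
    IsPreconnected {y | y ∈ DRb c b ∧ |sc e y| < a} := by
  have h := ((isPreconnected_Ioo (a := -a) (b := a)).prod isPreconnected_unit).image
    (fun z : ℝ × Eu 3 => (![ctr e, 0, 0] : Eu 3) + Real.exp (mid e + sg e * z.1) • z.2)
    (by fun_prop)
  convert isPreconnected_split h (isPreconnected_sq b) using 1
  ext y
  simp only [mem_ofPred_eq, mem_DRb_iff, mem_preimage, mem_prod, Metric.mem_ball, Real.dist_eq,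
    sub_zero]
  constructor
  · rintro ⟨⟨h1, h2⟩, h3⟩
    refine ⟨⟨(sc e y, nv e y), ⟨abs_lt.1 h3, dot_nv (h1 e).1⟩, ?_⟩, h2⟩
    have h4 : Real.exp (mid e + sg e * sc e y) = √(rsq e y) := by
      rw [sc, ← mul_assoc, ← sq, sg_sq, one_mul, add_sub_cancel, Real.exp_half,
        Real.exp_log (h1 e).1]
    simp only [h4]
    exact (xp_eq_nv (h1 e).1).symm
  · rintro ⟨⟨⟨s, v⟩, ⟨hs, hv⟩, h1⟩, h2⟩
    have h3 : rsq e y = Real.exp (mid e + sg e * s) ^ 2 := by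
      have e0 : y 0 = ctr e + Real.exp (mid e + sg e * s) * v 0 := (congrFun h1 0).symm
      have e1 : y 1 = 0 + Real.exp (mid e + sg e * s) * v 1 := (congrFun h1 1).symm
      have e2 : y 2 = 0 + Real.exp (mid e + sg e * s) * v 2 := (congrFun h1 2).symm
      have hv' : v 0 * v 0 + v 1 * v 1 + v 2 * v 2 = 1 := hv
      rw [rsq, e0, e1, e2]
      linear_combination Real.exp (mid e + sg e * s) ^ 2 * hv'
    have h4 : sc e y = s := by
      rw [sc, h3, Real.log_pow, Real.log_exp]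
      push_cast
      linear_combination s * sg_sq e
    have h5 : -a < s ∧ s < a := hs
    rw [h4]
    exact ⟨⟨flipa_mem (e := e) (h3 ▸ pow_pos (Real.exp_pos _) 2) (by linarith) (by linarith), h2⟩,
      abs_lt.2 h5⟩

theorem isPreconnected_annulus (t : ℝ) {r R : ℝ} (hr : 0 ≤ r) :
    IsPreconnected {z : ℝ × ℝ | r ^ 2 < (z.1 - t) ^ 2 + z.2 ^ 2 ∧ (z.1 - t) ^ 2 + z.2 ^ 2 < R ^ 2 ∧
      0 ≤ R} := by
  convert ((isPreconnected_Ioo (a := r) (b := R)).prod (isPreconnected_univ (α := ℝ))).image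
    (fun z : ℝ × ℝ => (t + z.1 * Real.cos z.2, z.1 * Real.sin z.2)) (by fun_prop) using 1
  ext ⟨u, v⟩
  constructor
  · rintro ⟨h1, h2, h3⟩
    have h4 := Complex.norm_eq_sqrt_sq_add_sq ⟨u - t, v⟩
    refine ⟨(‖(⟨u - t, v⟩ : ℂ)‖, Complex.arg ⟨u - t, v⟩), ⟨⟨?_, ?_⟩, trivial⟩, ?_⟩
    · exact h4 ▸ Real.lt_sqrt_of_sq_lt h1
    · exact h4 ▸ (Real.sqrt_lt_sqrt (by positivity) h2).trans_eq (Real.sqrt_sq h3)
    · simp only [Complex.norm_mul_cos_arg, Complex.norm_mul_sin_arg, add_sub_cancel]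
  · rintro ⟨⟨s, θ⟩, ⟨⟨h1, h2⟩, -⟩, h3⟩
    obtain ⟨rfl, rfl⟩ := Prod.ext_iff.1 h3
    have h4 : (t + s * Real.cos θ - t) ^ 2 + (s * Real.sin θ) ^ 2 = s ^ 2 := by
      linear_combination s ^ 2 * Real.cos_sq_add_sin_sq θ
    simp only [mem_ofPred_eq, h4] at h1 h2 ⊢
    exact ⟨by nlinarith, by nlinarith, by linarith⟩

/-- The base times an annulus. -/
theorem isPreconnected_ann' {a : ℝ} (ha : -1 ≤ a) (ha' : a ≤ 1) (b : Bool) {r R : ℝ} (hr : 0 ≤ r)
    (hR : 0 ≤ R) (hR' : R ≤ 3) :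
    IsPreconnected {y | y ∈ Wa c a ∧ cb y = b ∧ r ^ 2 < zsq y ∧ zsq y < R ^ 2} := by
  convert isPreconnected_split (isPreconnected_W3 (c := c) ha')
    (isPreconnected_annulus (4 * tau b) (R := R) hr) using 1
  ext y
  rw [mem_ofPred_eq, ← and_assoc]
  change y ∈ {y | y ∈ Wa c a ∧ cb y = b} ∧ _ ↔ _
  rw [Wa_inter]
  constructor
  · rintro ⟨h1, h2⟩
    rw [zsq, zc_of_mem h1.1] at h2
    exact ⟨((mem_DRa ha).1 h1).1, h2.1, h2.2, hR⟩
  · rintro ⟨h1, h2, h3, -⟩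
    change _ < (y 3 - _) ^ 2 + y 4 ^ 2 at h2
    change (y 3 - _) ^ 2 + y 4 ^ 2 < _ at h3
    have h4 : y ∈ DRa c a b := (mem_DRa ha).2 ⟨h1,
      abs_lt_of_sq_lt_sq (by nlinarith [sq_nonneg (y 4)]) (by norm_num),
      abs_lt_of_sq_lt_sq (by nlinarith [sq_nonneg (y 3 - 4 * tau b)]) (by norm_num)⟩
    rw [zsq, zc_of_mem h4.1]
    exact ⟨h4, h2, h3⟩

theorem isPreconnected_ann {a : ℝ} (ha : -1 ≤ a) (ha' : a ≤ 1) (b : Bool) :
    IsPreconnected {y | y ∈ Wa c a ∧ cb y = b ∧ 1 / 4 < zsq y ∧ zsq y < 4} := by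
  have := isPreconnected_ann' (c := c) ha ha' b (r := 1 / 2) (R := 2) (by norm_num) (by norm_num)
    (by norm_num)
  norm_num at this ⊢
  exact this

/-- A ball minus vertical cylinders, times a square. -/
theorem isPreconnected_cyl (b : Bool) :
    IsPreconnected {y | y ∈ DRb c b ∧ -7 / 8 < sc (none : Ed c) y ∧
      ∀ j : Fin (c.m + 1), Real.exp (-8) < (y 0 - (j : ℕ)) ^ 2 + y 1 ^ 2} := by
  have hm : (0 : ℝ) ≤ c.m := Nat.cast_nonneg _
  have h0 : Real.exp (-4) < 1 := Real.exp_lt_one_iff.2 (by linarith)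
  have e8 : Real.exp (-4) ^ 2 = Real.exp (-8) := by
    rw [sq, ← Real.exp_add]
    norm_num
  have h := (holes_aux (ρ := c.m + 1) (fun j : Fin (c.m + 1) => ((j : ℕ) : ℝ))
    (geoc_convex (Real.exp (c.m + 4 - -7 / 8) ^ 2))
    (isOpen_lt (by fun_prop) continuous_const) (Real.exp_pos (-4)).le (by linarith) (fun j => ?_)
    fun x hx => lt_of_le_of_lt ?_ (geoc_big (by norm_num))).2.isConnected.isPreconnected
  · convert isPreconnected_split h (isPreconnected_sq b) using 1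
    ext y
    simp only [mem_ofPred_eq, mem_DRb_iff, mem_preimage, mem_prod, Metric.mem_ball, Real.dist_eq,
      sub_zero, e8]
    have h1 : 0 < rsq (none : Ed c) y → (-7 / 8 < sc (none : Ed c) y ↔
        y 0 ^ 2 + y 1 ^ 2 + y 2 ^ 2 < Real.exp (c.m + 4 - -7 / 8) ^ 2) := fun h => by
      simp only [sc, sg, mid, rsq, ctr, sub_zero] at h ⊢
      rw [sq (Real.exp _), ← Real.exp_add, ← Real.log_lt_iff_lt_exp h]
      constructor <;> intro h <;> linarith
    constructor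
    · rintro ⟨⟨h2, h3⟩, h4, h5⟩
      exact ⟨⟨(h1 (h2 none).1).1 h4, h5⟩, h3⟩
    · rintro ⟨⟨h2, h3⟩, h4⟩
      change y 0 ^ 2 + y 1 ^ 2 + y 2 ^ 2 < _ at h2
      change ∀ j : Fin (c.m + 1), _ < (y 0 - _) ^ 2 + y 1 ^ 2 at h3
      have h5 : ∀ e : Ed c, 0 < rsq e y ∧ -1 < sc e y := geoc_mem.2
        ⟨h2.trans_le (pow_le_pow_left₀ (Real.exp_pos _).le (Real.exp_le_exp.2 (by linarith)) 2),
          fun j => by
            rw [show (-1 - 3 : ℝ) = -4 by norm_num, e8]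
            linarith [h3 j, sq_nonneg (y 2)]⟩
      exact ⟨⟨h5, h4⟩, (h1 (h5 none).1).2 h2, h3⟩
  · have hj : ((j : ℕ) : ℝ) ≤ c.m := Nat.cast_le.2 (Nat.le_of_lt_succ j.2)
    rw [abs_of_nonneg (Nat.cast_nonneg _)]
    linarith
  · have h1 := fun l => sq_le_sq' (abs_le.1 (hx l)).1 (abs_le.1 (hx l)).2
    linarith [h1 0, h1 1, h1 2]

end

end Pool.Agent.Lib.MP_75c153_gt.Ft
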