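import Pool.Agent.Lib.MP_570070_gt.An.CEt
import Pool.Agent.Lib.MP_75c153_gt.Ft.FlipC
import Pool.Agent.Lib.MP_75c153_gt.Ft.GeoC

/-!
The manifold of a gluing pattern.
-/

open MeasureTheory Filter Topology Set
open scoped Manifold ContDiff

namespace Pool.Agent.Lib.MP_75c153_gt.Ft

open Pool.Agent.Lib.MP_570070_gt.An

noncomputable section

variable {c : Par} {P : Type} {k : ℕ}

/-- The gluing relation. -/
def Rel (Γ : Gl c P) (p : P) (y : Eu 5) (p' : P) (y' : Eu 5) : Prop :=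
  ∃ o, Link o y y' ∧ p' = Γ.go o p

theorem Rel.same {Γ : Gl c P} {p : P} {y y' : Eu 5} (h : Rel Γ p y p y') : Same c y y' := by
  obtain ⟨_ | e, h, h'⟩ := h
  exacts [h, absurd h'.symm (Γ.ne e p)]

/-- The gluing data. -/
def et (Γ : Gl c P) [Nonempty P] : Etale P (Eu 5) where
  U := DR c
  R := Rel Γ
  isOpen := isOpen_DR
  mem h := let ⟨_, h, _⟩ := h; h.mem
  refl p y hy := ⟨none, Same.refl hy, rfl⟩
  symm := by
    rintro p y p' y' ⟨o, h, rfl⟩
    exact ⟨o, h.symm, (Γ.go_go o p).symm⟩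
  trans := by
    rintro p y p' y' p'' y'' ⟨o, h, rfl⟩ ⟨o', h', rfl⟩
    exact ⟨_, h.trans h', (h.go_cmp h' Γ p).symm⟩
  loc := by
    rintro p y p' y' ⟨o, h, rfl⟩
    obtain ⟨τ, h1, h2, h3⟩ := h.exists_local
    exact ⟨τ, h2, h1, h3.mono fun z hz => ⟨o, hz.1, rfl⟩⟩
  inj y hy := ⟨_, cb_eventually hy, fun p a ha b hb h =>
    (h.same.eq_of_cb (Eq.trans hb (Eq.symm ha))).symm⟩
  v0 := Classical.arbitrary P
  x0 := (nonempty_DR (c := c)).choose
  mem0 := (nonempty_DR (c := c)).choose_spec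

variable {Γ : Gl c P} [Nonempty P]

theorem q_eq {p p' : P} {y y' : Eu 5} (hy : y ∈ DR c) (hy' : y' ∈ DR c) :
    (et Γ).π p y = (et Γ).π p' y' ↔ Rel Γ p y p' y' := Etale.π_eq (S := et Γ) hy hy'

theorem q_link (p : P) {o : Option (Ed c)} {y y' : Eu 5} (h : Link o y y') :
    (et Γ).π (Γ.go o p) y' = (et Γ).π p y :=
  ((q_eq h.mem h.mem').2 ⟨o, h, rfl⟩).symm

theorem q_same (p : P) {y y' : Eu 5} (h : Same c y y') : (et Γ).π p y' = (et Γ).π p y :=
  q_link p (o := none) h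

theorem q_flip (p : P) {e : Ed c} {y y' : Eu 5} (h : Flip e y y') :
    (et Γ).π (Γ.σ e p) y' = (et Γ).π p y :=
  q_link p (o := some e) h

theorem D_link (p : P) {o : Option (Ed c)} {y y' : Eu 5} (h : Link o y y') :
    (et Γ).D p y = ((et Γ).D (Γ.go o p) y').comp (lk o y y') := by
  obtain ⟨τ, h1, h2, h3⟩ := h.exists_local
  have h4 : (et Γ).Loc τ p y (Γ.go o p) := ⟨h2, h3.mono fun z hz => ⟨o, hz.1, rfl⟩⟩
  rw [h4.D_eq, h3.self_of_nhds.2.fderiv, h1]

/-- The relation with the chosen representative. -/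
theorem rep_cases (p : P) {y : Eu 5} (hy : y ∈ DR c) {x : (et Γ).X} (hx : (et Γ).π p y = x) :
    ∃ o, Etale.rv x = Γ.go o p ∧ Link o y (Etale.rx x) ∧ (et Γ).D p y = lk o y (Etale.rx x) := by
  obtain ⟨o, f, h⟩ := (q_eq hy (Etale.rx_mem x)).1 (hx.trans (Etale.π_rx x).symm)
  exact ⟨o, h, f, by rw [D_link p f, ← h, Etale.D_rx x]; rfl⟩

/-- Every point lies in the closed core of a piece. -/
theorem exists_home (x : (et Γ).X) : ∃ p, ∃ y ∈ DR c, (∀ e : Ed c, 0 ≤ sc e y) ∧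
    zsq y ≤ 1 ∧ (et Γ).π p y = x := by
  have h1 : ∃ p, ∃ y ∈ DR c, (∀ e : Ed c, 0 ≤ sc e y) ∧ (et Γ).π p y = x := by
    obtain ⟨p, y, hy, rfl⟩ := Etale.exists_rep x
    by_cases h : ∀ e : Ed c, 0 ≤ sc e y
    · exact ⟨p, y, hy, h, rfl⟩
    · obtain ⟨e, he⟩ := not_forall.1 h
      have he := not_le.1 he
      have f := flip_flipPt hy (show sc e y < 1 by linarith)
      refine ⟨_, _, f.2.1, fun e' => ?_, q_flip p f⟩
      have h2 : 1 / 2 < eta c (flipPt e y) := by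
        rw [f.eta_eq]; linarith [(eta_lt_half hy).2 ⟨e, he⟩]
      exact ((half_lt_eta f.2.1).1 h2 e').le
  obtain ⟨p, y, hy, h, rfl⟩ := h1
  obtain ⟨y', h1, h2⟩ := exists_same_le hy
  exact ⟨p, y', h1.2.1, fun e => (h1.sc_eq e).symm ▸ h e, h2, q_same p h1⟩

omit [Nonempty P] in
theorem home_mem {y : Eu 5} (hy : y ∈ DR c) (h : ∀ e : Ed c, 0 ≤ sc e y) (h' : zsq y ≤ 1) :
    y ∈ Kw c :=
  ⟨hy, fun e => by linarith [h e], abs_le_of_zsq (by linarith)⟩

theorem half_le_eta {y : Eu 5} (hy : y ∈ DR c) (h : ∀ e : Ed c, 0 ≤ sc e y) : 1 / 2 ≤ eta c y :=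
  not_lt.1 fun h' => let ⟨e, he⟩ := (eta_lt_half hy).1 h'; (h e).not_gt he

/-- A function on the manifold from compatible functions on the pieces. -/
theorem fun_rep {Z : Type} {f : P → Eu 5 → Z}
    (h : ∀ p o y y', Link o y y' → f (Γ.go o p) y' = f p y) (p : P) {y : Eu 5} (hy : y ∈ DR c) :
    f (Etale.rv ((et Γ).π p y)) (Etale.rx ((et Γ).π p y)) = f p y := by
  obtain ⟨o, h1, f, -⟩ := rep_cases p hy rfl
  rw [h1, h p o _ _ f]

/-- The partition of unity of the sphere as a function of the height. -/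
def hsp (b : Bool) (v : Eu 3) : ℝ := Real.smoothTransition (1 / 2 + tau b * v 2)

theorem hsp_add (v : Eu 3) : hsp true v + hsp false v = 1 := by
  rw [hsp, hsp, show 1 / 2 + tau false * v 2 = 1 - (1 / 2 + tau true * v 2) by simp [tau]; ring,
    smoothTransition_one_sub, add_sub_cancel]

theorem le_of_hsp {b : Bool} {v : Eu 3} (h : hsp b v ≠ 0) : -3 / 5 ≤ tau b * v 2 :=
  not_lt.1 fun h' => h (Real.smoothTransition.zero_of_nonpos (by linarith))

theorem continuous_hsp (b : Bool) : Continuous (hsp b) :=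
  Real.smoothTransition.continuous.comp (by fun_prop)

open Classical in
/-- The partition of unity in the piece `p`. -/
def etaP (Γ : Gl c P) (p₀ : P) (b : Bool) (p : P) (y : Eu 5) : ℝ :=
  (if p = p₀ then eta c y * hsp b (sph y) else 0) +
    ∑ e, if Γ.σ e p = p₀ then kap e y * hsp b (nv e y) else 0

/-- The partition of unity. -/
def etaN (Γ : Gl c P) (p₀ : P) (b : Bool) (x : (et Γ).X) : ℝ :=
  etaP Γ p₀ b (Etale.rv x) (Etale.rx x)

omit [Nonempty P] in
open Classical in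
theorem etaP_collar (p₀ : P) (b : Bool) (p : P) {y : Eu 5} (hy : y ∈ DR c) {e : Ed c}
    (he : sc e y ≤ 2) : etaP Γ p₀ b p y = (if p = p₀ then (1 - kap e y) * hsp b (sph y) else 0) +
      if Γ.σ e p = p₀ then kap e y * hsp b (nv e y) else 0 := by
  rw [etaP, eta_collar hy he, sum_collar hy he]
  intro e' h
  rw [kap_eq_zero (by linarith), zero_mul, ite_self]

theorem etaN_q (p₀ : P) (b : Bool) (p : P) {y : Eu 5} (hy : y ∈ DR c) :
    etaN Γ p₀ b ((et Γ).π p y) = etaP Γ p₀ b p y := by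
  refine fun_rep (f := etaP Γ p₀ b) ?_ p hy
  rintro p (_ | e) y y' f
  · simp only [etaP, Gl.go, id, Same.eta_eq f, Same.kap_eq f, Same.sph_eq f, Same.nv_eq f]
    rfl
  · replace f : Flip e y y' := f
    rw [Gl.go, etaP_collar p₀ b p f.1 (e := e) (by linarith [f.sc_lt]),
      etaP_collar p₀ b _ f.2.1 (e := e) (by linarith [f.symm.sc_lt]), Γ.invol, f.kap_eq,
      sub_sub_cancel, add_comm, f.sph_eq, f.nv_eq]
    rfl

omit [Nonempty P] in
theorem etaP_self (p : P) {b : Bool} {y : Eu 5} (hy : cb y = b) : etaP Γ p b p y = wg c y := by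
  simp [etaP, Γ.ne, wg, rho_eq, hsp, hy]

theorem continuous_etaN (p₀ : P) (b : Bool) : Continuous (etaN Γ p₀ b) := by
  refine Etale.continuous_iff.2 fun p => ContinuousOn.congr ?_ fun y hy => etaN_q p₀ b p hy
  refine ContinuousOn.add ?_ (continuousOn_finsetSum _ fun e _ => ?_)
  · split_ifs
    exacts [contDiffOn_eta.continuousOn.mul
      ((continuous_hsp b).comp_continuousOn contDiffOn_sph.continuousOn), continuousOn_const]
  · split_ifs
    exacts [(contDiffOn_kap e).continuousOn.mul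
      ((continuous_hsp b).comp_continuousOn (contDiffOn_nv e).continuousOn), continuousOn_const]

omit [Nonempty P] in
theorem sc_lt_of_kap {y : Eu 5} {e : Ed c} (h : kap e y ≠ 0) : sc e y < 1 := by
  linarith [not_le.1 fun h' => h (kap_eq_zero h')]

theorem mem_of_kap (p : P) {y : Eu 5} (hy : y ∈ DR c) {e : Ed c} (h : kap e y ≠ 0) :
    ∃ y' ∈ DR c, (et Γ).π (Γ.σ e p) y' = (et Γ).π p y :=
  let f := flip_flipPt hy (sc_lt_of_kap h)
  ⟨_, f.2.1, q_flip p f⟩

theorem mem_of_etaN {p₀ : P} {b : Bool} {x : (et Γ).X} (h : etaN Γ p₀ b x ≠ 0) :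
    ∃ y ∈ DRb c b, (et Γ).π p₀ y = x := by
  classical
  obtain ⟨p, y, hy, rfl⟩ := Etale.exists_rep x
  rw [etaN_q p₀ b p hy, etaP] at h
  by_cases e : p = p₀
  · subst e
    simp only [if_true, Γ.ne, if_false, Finset.sum_const_zero, add_zero] at h
    obtain ⟨h1, h2, -⟩ := same_invMap hy (le_of_hsp (right_ne_zero_of_mul h))
    exact ⟨_, ⟨h1.2.1, h2⟩, q_same p h1⟩
  · rw [if_neg e, zero_add] at h
    obtain ⟨e, -, he⟩ := Finset.exists_ne_zero_of_sum_ne_zero h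
    obtain ⟨rfl, h2⟩ := ite_ne_right_iff.1 he
    obtain ⟨h3, h4, -⟩ := flip_flipMap hy (sc_lt_of_kap (left_ne_zero_of_mul h2))
      (le_of_hsp (right_ne_zero_of_mul h2))
    exact ⟨_, ⟨h3.2.1, h4⟩, q_flip p h3⟩

theorem good_DRb (p : P) (b : Bool) : (et Γ).Good p (DRb c b) :=
  ⟨isOpen_DRb b, DRb_subset b, fun _ ha _ hb e =>
    (((q_eq ha.1 hb.1).1 e).same.eq_of_cb (hb.2.trans ha.2.symm)).symm⟩

instance t2_et : T2Space (et Γ).X := by
  refine ⟨fun x x' hne => ?_⟩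
  obtain ⟨p, y, hy, h, h', rfl⟩ := exists_home x
  by_cases e : etaN Γ p (cb y) ((et Γ).π p y) = etaN Γ p (cb y) x'
  · have h1 : etaN Γ p (cb y) x' ≠ 0 := by
      rw [← e, etaN_q p _ p hy, etaP_self p rfl]
      refine (mul_pos (by linarith [half_le_eta hy h]) (Real.smoothTransition.pos_of_pos ?_)).ne'
      linarith [div_nonneg (sub_nonneg.2 h') (one_add_zsq_pos y).le]
    obtain ⟨y', hy', rfl⟩ := mem_of_etaN h1
    have g := good_DRb (Γ := Γ) p (cb y)
    obtain ⟨A, B, hA, hB, a, b, d⟩ := t2_separation (x := y) (y := y')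
      fun h => hne (congrArg _ h)
    refine ⟨_, _, Etale.isOpen_image p (hA.inter g.isOpen) fun z hz => hz.2.1,
      Etale.isOpen_image p (hB.inter g.isOpen) fun z hz => hz.2.1,
      ⟨y, ⟨a, hy, rfl⟩, rfl⟩, ⟨_, ⟨b, hy'⟩, rfl⟩, ?_⟩
    rw [Set.disjoint_left]
    rintro _ ⟨z, hz, rfl⟩ ⟨z', hz', e'⟩
    obtain rfl := g.inj hz'.2 hz.2 e'
    exact Set.disjoint_left.1 d hz.1 hz'.1
  · exact separated_by_continuous (continuous_etaN p _) e

/-- The metric in coordinates. -/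
def gB (c : Par) (y : Eu 5) : Eu 5 →L[ℝ] Eu 5 →L[ℝ] ℝ :=
  ∑ i, ell c y i ^ 2 • (ContinuousLinearMap.mul ℝ ℝ).bilinearComp (.proj i) (.proj i)

theorem gB_apply (y v w : Eu 5) : gB c y v w = gUp c y v w := by
  simp [gB, gUp_eq_sum]

theorem gUp_rep (p : P) {y : Eu 5} (hy : y ∈ DR c) (v w : Eu 5) :
    gUp c (Etale.rx ((et Γ).π p y)) ((et Γ).D p y v) ((et Γ).D p y w) = gUp c y v w := by
  obtain ⟨o, -, f, d⟩ := rep_cases p hy rfl
  rw [d, f.gUp_lk]

theorem gUp_pos {y : Eu 5} (hy : y ∈ DR c) {v : Eu 5} (hv : v ≠ 0) : 0 < gUp c y v v := by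
  obtain ⟨i, hi⟩ := Function.ne_iff.1 hv
  rw [gUp_eq_sum]
  exact Finset.sum_pos' (fun j _ => mul_nonneg (sq_nonneg _) (mul_self_nonneg _))
    ⟨i, Finset.mem_univ i, mul_pos (pow_pos (ell_pos hy i) 2) (mul_self_pos.2 hi)⟩

/-- The Riemannian manifold of a gluing pattern. -/
abbrev mfd (Γ : Gl c P) [Countable P] : RMfd 5 :=
  haveI := Etale.secondCountable (S := et Γ)
  { M := (et Γ).X
    g := fun x => gB c (Etale.rx x)
    symm := fun x v w => by rw [ev, ev, gB_apply, gB_apply, gUp, gUp]; ring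
    pos := fun x v hv => by rw [ev, gB_apply]; exact gUp_pos (Etale.rx_mem x) hv
    smooth := by
      rintro _ ⟨p, W, h, rfl⟩ i j
      refine ContDiffOn.congr (f := fun y => gUp c y (bas i) (bas j)) ?_ fun y hy => ?_
      · exact (((contDiffOn_lam.mono h.sub).pow 2).mul contDiffOn_const).add
          (((contDiffOn_mu.mono h.sub).pow 2).mul contDiffOn_const)
      · exact (gB_apply _ _ _).trans (gUp_rep p (h.sub hy) _ _) }

/-- Compact sets meet finitely many pieces. -/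
theorem finite_pieces {K : Set (et Γ).X} (hK : IsCompact K) :
    {p | ∃ y ∈ DR c, (et Γ).π p y ∈ K}.Finite := by
  obtain ⟨S, hS⟩ := hK.elim_finite_subcover (fun p => (et Γ).π p '' DR c)
    (fun p => Etale.isOpen_image p isOpen_DR Subset.rfl) fun x _ =>
      let ⟨p, y, hy, e⟩ := Etale.exists_rep x; mem_iUnion.2 ⟨p, y, hy, e⟩
  refine (finite_iUnion fun o => S.finite_toSet.image (Γ.go o)).subset ?_
  rintro p ⟨y, hy, h⟩
  obtain ⟨p', hp', y', hy', h'⟩ := mem_iUnion₂.1 (hS h)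
  obtain ⟨o, -, rfl⟩ := (q_eq hy' hy).1 h'
  exact mem_iUnion.2 ⟨o, p', hp', rfl⟩

theorem isCompact_q (p : P) {K : Set (Eu 5)} (hK : IsCompact K) (h : K ⊆ DR c) :
    IsCompact ((et Γ).π p '' K) :=
  hK.image_of_continuousOn ((Etale.continuousOn_π p).mono h)

theorem isOpen_eta : IsOpen {y | y ∈ DR c ∧ 1 / 2 < eta c y} :=
  contDiffOn_eta.continuousOn.isOpen_inter_preimage isOpen_DR isOpen_Ioi

/-- The union of the open cores of the pieces in `S`. -/
def core (Γ : Gl c P) (S : Set P) : Set (et Γ).X :=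
  ⋃ p ∈ S, (et Γ).π p '' {y | y ∈ DR c ∧ 1 / 2 < eta c y}

theorem isOpen_core (S : Set P) : IsOpen (core Γ S) :=
  isOpen_biUnion fun p _ => Etale.isOpen_image p isOpen_eta fun _ h => h.1

theorem core_home {S : Set P} {p : P} {y : Eu 5} (hy : y ∈ DR c) (h : 1 / 2 ≤ eta c y) :
    (et Γ).π p y ∈ core Γ S ↔ 1 / 2 < eta c y ∧ p ∈ S := by
  refine ⟨fun hx => ?_, fun h => mem_iUnion₂.2 ⟨p, h.2, y, ⟨hy, h.1⟩, rfl⟩⟩
  obtain ⟨p', hp', y', ⟨hy', h'⟩, e⟩ := mem_iUnion₂.1 hx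
  obtain ⟨_ | e, f, rfl⟩ := (q_eq hy' hy).1 e
  · exact ⟨by rwa [Same.eta_eq f], hp'⟩
  · rw [Flip.eta_eq f] at h
    linarith

/-- The distance of the partition of unity from one half. -/
def phi (Γ : Gl c P) (x : (et Γ).X) : ℝ := |eta c (Etale.rx x) - 1 / 2|

theorem phi_q (p : P) {y : Eu 5} (hy : y ∈ DR c) :
    phi Γ ((et Γ).π p y) = |eta c y - 1 / 2| := by
  refine fun_rep (f := fun _ y => |eta c y - 1 / 2|) ?_ p hy
  rintro p (_ | e) y y' f
  · rw [Same.eta_eq f]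
  · rw [Flip.eta_eq f, ← abs_neg]
    congr 1
    ring

theorem continuous_phi : Continuous (phi Γ) :=
  Etale.continuous_iff.2 fun p => ContinuousOn.congr
    (contDiffOn_eta.continuousOn.sub continuousOn_const).abs fun _ hy => phi_q p hy

theorem exists_inv_D (p : P) {y : Eu 5} (hy : y ∈ DR c) :
    ∃ A : Eu 5 →L[ℝ] Eu 5, ∀ v, (et Γ).D p y (A v) = v := by
  obtain ⟨o, -, f, d⟩ := rep_cases p hy rfl
  exact ⟨_, fun v => by rw [d]; exact DFunLike.congr_fun f.symm.lk_inv v⟩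

instance compactSpace_et [Finite P] : CompactSpace (et Γ).X := by
  refine ⟨(isCompact_iUnion fun p => isCompact_q (Γ := Γ) p isCompact_Kw Kw_subset).of_isClosed_subset
    isClosed_univ fun x _ => ?_⟩
  obtain ⟨p, y, hy, h1, h2, rfl⟩ := exists_home x
  exact mem_iUnion.2 ⟨p, y, home_mem hy h1 h2, rfl⟩

end

end Pool.Agent.Lib.MP_75c153_gt.Ft
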