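import Pool.Agent.Lib.MP_75c153_gt.Ft.CGl

/-!
Integration on the manifold of a gluing pattern.
-/

open MeasureTheory Filter Topology Set
open scoped Manifold ContDiff

namespace Pool.Agent.Lib.MP_75c153_gt.Ft

open Pool.Agent.Lib.MP_570070_gt.An

noncomputable section

variable {c : Par} {P : Type} {Γ : Gl c P} [Nonempty P]

instance measN : MeasurableSpace (et Γ).X := borel _

instance borelN : BorelSpace (et Γ).X := ⟨rfl⟩

/-- The volume formula in the pieces. -/
def VolN (Γ : Gl c P) (μ : Measure (et Γ).X) : Prop :=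
  ∀ (p : P) (W : Set (Eu 5)) (h : (et Γ).Good p W) (A : Set (et Γ).X), MeasurableSet A →
    A ⊆ (et Γ).π p '' W → μ A = ∫⁻ y in Etale.chart h '' A, ENNReal.ofReal (vol c y)

theorem chart_image {p : P} {W : Set (Eu 5)} (h : (et Γ).Good p W) {A : Set (et Γ).X}
    (hA : A ⊆ (et Γ).π p '' W) : Etale.chart h '' A = W ∩ (et Γ).π p ⁻¹' A := by
  ext y
  constructor
  · rintro ⟨x, hx, rfl⟩
    obtain ⟨z, hz, rfl⟩ := hA hx
    rw [Etale.chart_π h hz]
    exact ⟨hz, hx⟩
  · exact fun hy => ⟨_, hy.2, Etale.chart_π h hy.1⟩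

theorem measurableSet_pre {p : P} {W : Set (Eu 5)} (h : (et Γ).Good p W) {A : Set (et Γ).X}
    (hA : MeasurableSet A) : MeasurableSet (W ∩ (et Γ).π p ⁻¹' A) := by
  have h1 : Measurable (W.domRestrict ((et Γ).π p)) :=
    ((Etale.continuousOn_π p).mono h.sub).domRestrict.measurable
  have h2 := h.isOpen.measurableSet.subtype_image (h1 hA)
  convert h2 using 1
  ext y
  exact ⟨fun h => ⟨⟨y, h.1⟩, h.2, rfl⟩, fun ⟨z, h1, h2⟩ => h2 ▸ ⟨z.2, h1⟩⟩

theorem volN_of_isVolume [Countable P] {μ : Measure (mfd Γ).M} (h : IsVolume (mfd Γ) μ) :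
    VolN Γ μ := by
  intro p W g A hA hs
  rw [h _ (Etale.chart_mem g) A hA hs, chart_image g hs]
  refine setLIntegral_congr_fun (measurableSet_pre g hA) fun y hy => ?_
  rw [← sqrt_det_gUp (g.sub hy.1)]
  congr 3
  ext i j
  exact (gB_apply _ _ _).trans (gUp_rep p (g.sub hy.1) _ _)

variable {μ : Measure (et Γ).X}

theorem VolN.restrict (h : VolN Γ μ) {p : P} {W : Set (Eu 5)} (g : (et Γ).Good p W) :
    μ.restrict ((et Γ).π p '' W) = Measure.map ((et Γ).π p)
      ((volume.restrict W).withDensity fun y => ENNReal.ofReal (vol c y)) := by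
  have h0 := (Etale.isOpen_image p g.isOpen g.sub).measurableSet
  have h1 : AEMeasurable ((et Γ).π p) (volume.restrict W) :=
    ((Etale.continuousOn_π p).mono g.sub).aemeasurable g.isOpen.measurableSet
  ext A hA
  rw [Measure.restrict_apply hA, h p W g _ (hA.inter h0) inter_subset_right,
    chart_image g inter_subset_right,
    Measure.map_apply_of_aemeasurable (h1.mono_ac (withDensity_absolutelyContinuous _ _)) hA,
    withDensity_apply₀ _ (h1.nullMeasurable hA), Measure.restrict_restrict₀ (h1.nullMeasurable hA)]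
  congr 2
  ext y
  exact ⟨fun h => ⟨h.2.1, h.1⟩, fun h => ⟨h.2, h.1, y, h.2, rfl⟩⟩

theorem VolN.setIntegral (h : VolN Γ μ) {p : P} {W : Set (Eu 5)} (g : (et Γ).Good p W)
    {F : (et Γ).X → ℝ} (hF : Continuous F) :
    ∫ x in (et Γ).π p '' W, F x ∂μ = ∫ y in W, F ((et Γ).π p y) * vol c y := by
  have h1 : AEMeasurable ((et Γ).π p) (volume.restrict W) :=
    ((Etale.continuousOn_π p).mono g.sub).aemeasurable g.isOpen.measurableSet
  have h2 : AEMeasurable (fun y => vol c y) (volume.restrict W) :=
    (contDiffOn_vol.continuousOn.mono g.sub).aemeasurable g.isOpen.measurableSet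
  rw [h.restrict g, integral_map (h1.mono_ac (withDensity_absolutelyContinuous _ _))
    hF.aestronglyMeasurable, integral_withDensity_eq_integral_toReal_smul₀ h2.ennreal_ofReal
    (Eventually.of_forall fun _ => ENNReal.ofReal_lt_top)]
  refine setIntegral_congr_fun g.isOpen.measurableSet fun y hy => ?_
  simp only [ENNReal.toReal_ofReal (vol_pos (g.sub hy)).le, smul_eq_mul, mul_comm]

/-- The integral of a function that lives in one chart. -/
theorem VolN.chart (h : VolN Γ μ) (p : P) (b : Bool) {F : (et Γ).X → ℝ} (hF : Continuous F)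
    (hs : ∀ x, F x ≠ 0 → ∃ y ∈ DRb c b, (et Γ).π p y = x) :
    ∫ x, F x ∂μ = ∫ y in DRb c b, F ((et Γ).π p y) * vol c y := by
  rw [← h.setIntegral (good_DRb p b) hF, setIntegral_eq_integral_of_forall_compl_eq_zero
    (s := (et Γ).π p '' DRb c b) fun x hx => by_contra fun h' => hx (hs x h')]

theorem VolN.locallyFinite (h : VolN Γ μ) : IsLocallyFiniteMeasure μ := by
  refine ⟨fun x => ?_⟩
  obtain ⟨p, y, hy, rfl⟩ := Etale.exists_rep x
  obtain ⟨W, g, hW⟩ := Etale.exists_good p hy
  obtain ⟨K, h1, h2, h3⟩ := local_compact_nhds (g.isOpen.mem_nhds hW)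
  refine ⟨_, Etale.image_mem_nhds p hy h1, ?_⟩
  rw [h p W g _ (isCompact_q p h3 (h2.trans g.sub)).measurableSet (image_mono h2)]
  have h4 : Etale.chart g '' ((et Γ).π p '' K) ⊆ K := by
    rintro _ ⟨_, ⟨z, hz, rfl⟩, rfl⟩
    rwa [Etale.chart_π g (h2 hz)]
  exact (lintegral_mono_set h4).trans_lt (ContinuousOn.integrableOn_compact h3
    (contDiffOn_vol.continuousOn.mono (h2.trans g.sub))).lintegral_lt_top

theorem sum_etaN {S : Finset P} {x : (et Γ).X} (hS : ∀ p, (∃ y ∈ DR c, (et Γ).π p y = x) → p ∈ S) :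
    ∑ p ∈ S, (etaN Γ p true x + etaN Γ p false x) = 1 := by
  classical
  obtain ⟨p, y, hy, rfl⟩ := Etale.exists_rep x
  have h1 : ∀ p', etaN Γ p' true ((et Γ).π p y) + etaN Γ p' false ((et Γ).π p y) =
      (if p = p' then eta c y else 0) + ∑ e, if Γ.σ e p = p' then kap e y else 0 := fun p' => by
    rw [etaN_q _ _ p hy, etaN_q _ _ p hy, etaP, etaP, add_add_add_comm, ← Finset.sum_add_distrib]
    congr 1
    · split_ifs
      · rw [← mul_add, hsp_add, mul_one]
      · exact add_zero _
    · refine Finset.sum_congr rfl fun e _ => ?_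
      split_ifs
      · rw [← mul_add, hsp_add, mul_one]
      · exact add_zero _
  simp only [h1, Finset.sum_add_distrib]
  rw [Finset.sum_comm]
  simp only [Finset.sum_ite_eq]
  rw [if_pos (hS p ⟨y, hy, rfl⟩), eta, sub_add_eq_add_sub, sub_eq_iff_eq_add, add_right_inj]
  refine Finset.sum_congr rfl fun e _ => ?_
  by_cases h : kap e y = 0
  · rw [h, ite_self]
  · exact if_pos (hS _ (mem_of_kap p hy h))

omit [Nonempty P] in
theorem integrableOn_wg {f : Eu 5 → ℝ} (hf : ContinuousOn f (DR c)) :
    IntegrableOn (fun y => wg c y * f y * vol c y) (DR c) := by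
  refine IntegrableOn.of_forall_sdiff_eq_zero (s := Kw c) (ContinuousOn.integrableOn_compact
    isCompact_Kw (((contDiffOn_wg.continuousOn.mul hf).mul contDiffOn_vol.continuousOn).mono
      Kw_subset)) isOpen_DR.measurableSet fun y hy => ?_
  rw [show wg c y = 0 from by_contra fun h => hy.2 (mem_Kw_of_wg hy.1 h), zero_mul, zero_mul]

/-- The integral through the partition of unity. -/
theorem VolN.partition (h : VolN Γ μ) {F : (et Γ).X → ℝ} (hF : Continuous F)
    (hc : HasCompactSupport F) :
    ∫ x, F x ∂μ = ∑ᶠ p, ∫ y in DR c, wg c y * F ((et Γ).π p y) * vol c y := by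
  have := h.locallyFinite
  have hf := finite_pieces hc
  have hi : ∀ p b, Integrable (fun x => etaN Γ p b x * F x) μ := fun p b =>
    ((continuous_etaN p b).mul hF).integrable_of_hasCompactSupport hc.mul_left
  rw [finsum_eq_sum_of_support_subset (s := hf.toFinset)]
  · have h1 : ∀ x, F x = ∑ p ∈ hf.toFinset, (etaN Γ p true x * F x + etaN Γ p false x * F x) :=
      fun x => by
        by_cases h0 : F x = 0
        · simp [h0]
        · simp only [← add_mul]
          rw [← Finset.sum_mul, sum_etaN, one_mul]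
          rintro p ⟨y, hy, rfl⟩
          exact hf.mem_toFinset.2 ⟨y, hy, subset_tsupport F h0⟩
    rw [integral_congr_ae (Eventually.of_forall h1), integral_finsetSum
      (f := fun p x => etaN Γ p true x * F x + etaN Γ p false x * F x) _ fun p _ =>
      (hi p true).add (hi p false)]
    refine Finset.sum_congr rfl fun p _ => ?_
    have h2 : ∀ b, ∫ x, etaN Γ p b x * F x ∂μ =
        ∫ y in DRb c b, wg c y * F ((et Γ).π p y) * vol c y := fun b => by
      rw [h.chart p b (F := fun x => etaN Γ p b x * F x) ((continuous_etaN p b).mul hF)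
        fun x hx => mem_of_etaN (left_ne_zero_of_mul hx)]
      refine setIntegral_congr_fun (isOpen_DRb b).measurableSet fun y hy => ?_
      simp only [etaN_q p b p hy.1, etaP_self p hy.2]
    have h3 := integrableOn_wg (f := fun y => F ((et Γ).π p y))
      (hF.comp_continuousOn (Etale.continuousOn_π (S := et Γ) p))
    rw [integral_add (hi p true) (hi p false), h2, h2, ← setIntegral_union
      (Set.disjoint_left.2 fun y a b => by simpa using a.2.symm.trans b.2)
      (isOpen_DRb false).measurableSet (h3.mono_set (DRb_subset true))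
      (h3.mono_set (DRb_subset false)), ← DR_eq]
  · intro p hp
    refine hf.mem_toFinset.2 (by_contra fun h' => hp ?_)
    refine setIntegral_eq_zero_of_forall_eq_zero fun y hy => ?_
    rw [show F ((et Γ).π p y) = 0 from by_contra fun h0 => h' ⟨y, hy, subset_tsupport F h0⟩,
      mul_zero, zero_mul]

end

end Pool.Agent.Lib.MP_75c153_gt.Ft
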