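import Pool.Agent.Lib.MP_75c153_gt.Ft.CAct
import Pool.Agent.Lib.MP_75c153_gt.Ft.CDic
import Pool.Agent.Lib.MP_75c153_gt.Ft.CInt

open MeasureTheory Filter Topology Set
open scoped ContDiff InnerProductSpace

namespace Pool.Agent.Lib.MP_75c153_gt.Ft

open Pool.Agent.Lib.MP_570070_gt.An

section

variable {c : Par} {P : Type} {Γ : Gl c P} [Nonempty P] [Countable P]

theorem continuous_ipAt_down {k : ℕ} {Ω Ω' : Fam P k} (h : IsT Γ Ω) (h' : IsT Γ Ω') :
    Continuous (ipAt (X := mfd Γ) (down Γ Ω) (down Γ Ω')) :=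
  Etale.continuous_iff.2 fun p => (continuousOn_ipUp (h.smooth p).continuousOn
    (h'.smooth p).continuousOn).congr fun _ hy => ipAt_down h h' p hy

theorem ne_of_ipAt_down {k : ℕ} {Ω Ω' : Fam P k} {x : (et Γ).X}
    (h : ipAt (X := mfd Γ) (down Γ Ω) (down Γ Ω') x ≠ 0) : down Γ Ω x ≠ 0 := fun h' => h (by
  simp [ipAt, ipAlt, h'])

/-- The L2 spaces of the manifold seen from upstairs. -/
noncomputable def upL2 (L : L2 (mfd Γ)) : UpL2 Γ where
  H := L.H
  j k Ω := L.ι k (down Γ Ω)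
  inner_eq k Ω Ω' h h' := by
    rw [L.inner_eq k _ _ (isTest_down h) (isTest_down h'),
      (volN_of_isVolume L.vol).partition (continuous_ipAt_down h h')
        ((hasCompactSupport_down h).mono fun _ => ne_of_ipAt_down)]
    refine finsum_congr fun p => setIntegral_congr_fun isOpen_DR.measurableSet fun y hy => ?_
    simp only [ipAt_down h h' p hy]
  chart k p₀ b Ω Ω' h h' hp := by
    rw [L.inner_eq k _ _ (isTest_down h) (isTest_down h'),
      (volN_of_isVolume L.vol).chart p₀ b (continuous_ipAt_down h h')]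
    · refine setIntegral_congr_fun (isOpen_DRb b).measurableSet fun y hy => ?_
      simp only [ipAt_down h h' p₀ hy.1]
    · intro x hx
      obtain ⟨p, y, hy, rfl⟩ := Etale.exists_rep x
      obtain ⟨o, y', hy', f, rfl⟩ := hp p y hy (ne_of_down h hy (ne_of_ipAt_down hx))
      exact ⟨y', hy', q_link p f⟩
  dense k := (L.dense k).mono (by
    rintro _ ⟨α, hα, rfl⟩
    exact ⟨up α, isT_up hα, congrArg (L.ι k) (down_up α)⟩)

theorem upL2_D (L : L2 (mfd Γ)) : (upL2 L).D = L.D := by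
  funext k a b
  refine propext ⟨?_, ?_⟩
  · rintro ⟨Ω, h, h1, h2⟩
    exact ⟨down Γ Ω, isTest_down h, h1, by rw [extD_down h]; exact h2⟩
  · rintro ⟨α, h, h1, h2⟩
    refine ⟨up α, isT_up h, h1.trans (congrArg (L.ι k) (down_up α).symm), h2.trans ?_⟩
    refine congrArg (L.ι (k + 1)) ?_
    rw [← extD_down (isT_up h), down_up]

theorem upL2_on (L : L2 (mfd Γ)) (k : ℕ) (S : Set P) : (upL2 L).on k S = L.on k (core Γ S) := by
  refine congrArg closure (Subset.antisymm ?_ ?_)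
  · rintro _ ⟨Ω, ⟨h, h1⟩, rfl⟩
    exact ⟨down Γ Ω, ⟨isTest_down h, tsupport_down h h1⟩, rfl⟩
  · rintro _ ⟨α, ⟨h, h1⟩, rfl⟩
    exact ⟨up α, ⟨isT_up h, suppIn_up h.2 h1⟩, congrArg (L.ι k) (down_up α)⟩

theorem upTorsion_of {S : Set P} {ρ : ℝ} (h : IsTorsion (mfd Γ) (core Γ S) ρ) :
    UpTorsion Γ S ρ := by
  obtain ⟨L, Pt, I, h1, h2, h3⟩ := h
  refine ⟨upL2 L, Pt, I, fun k => ?_, fun k hk => ?_, h3⟩
  · rw [upL2_D]
    exact h1 k
  · rw [upL2_on]
    exact h2 k hk

end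

/-- Block C: the manifolds, the actions and the coverings. -/
theorem exists_geometry (c : Par) {G : Type} [Group G] [Countable G] (g : Ed c → G)
    (K : ℕ → Subgroup G) [∀ i, (K i).Normal] :
    IsAction G (mfd (grpGl c g)) ∧ IsFund G (mfd (grpGl c g)) (core (grpGl c g) (base G)) ∧
      ∃ π : ∀ i, (mfd (grpGl c g)).M → (mfd (grpGl c fun e => (g e : G ⧸ K i))).M,
        ∀ i, IsCover (K i) (mfd (grpGl c g)) (mfd (grpGl c fun e => (g e : G ⧸ K i))) (π i) := by
  choose π hπ using fun i => exists_cover (g := g) (K i)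
  exact ⟨isAction_grp, isFund_grp, π, hπ⟩

theorem compactSpace_mfd {c : Par} {P : Type} (Γ : Gl c P) [Nonempty P] [Countable P] [Finite P] :
    CompactSpace (mfd Γ).M := compactSpace_et

end Pool.Agent.Lib.MP_75c153_gt.Ft
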