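import Pool.Agent.Lib.MP_75c153_gt.Ft.Split
import Pool.Agent.Lib.MP_75c153_gt.Ft.VE

/-! The codifferential in one chart. -/

open MeasureTheory Filter Topology Set
open scoped ContDiff InnerProductSpace

namespace Pool.Agent.Lib.MP_75c153_gt.Ft

open Pool.Agent.Lib.MP_570070_gt.An

variable {c : Par} {P : Type} {Γ : Gl c P} {b : Bool} {K : Set (Eu 5)} {p₀ : P}

section

variable {H : ℕ → Type} [∀ k, NormedAddCommGroup (H k)] [∀ k, InnerProductSpace ℝ (H k)]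
  {D : ∀ k, H k → H (k + 1) → Prop} {k : ℕ} {u u' : H (k + 1)} {ψ ψ' : H k}

theorem wcod_add (h : WCod D k u ψ) (h' : WCod D k u' ψ') : WCod D k (u + u') (ψ + ψ') :=
  fun a b hab => by rw [inner_add_right, inner_add_right, h a b hab, h' a b hab]
theorem wcod_sub (h : WCod D k u ψ) (h' : WCod D k u' ψ') : WCod D k (u - u') (ψ - ψ') :=
  fun a b hab => by rw [inner_sub_right, inner_sub_right, h a b hab, h' a b hab]
theorem wcod_smul (h : WCod D k u ψ) (t : ℝ) : WCod D k (t • u) (t • ψ) :=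
  fun a b hab => by rw [real_inner_smul_right, real_inner_smul_right, h a b hab]
theorem wcod_sum {ι : Type} (s : Finset ι) {f : ι → H (k + 1)} {g : ι → H k}
    (h : ∀ i ∈ s, WCod D k (f i) (g i)) : WCod D k (∑ i ∈ s, f i) (∑ i ∈ s, g i) :=
  fun a b hab => by
    rw [inner_sum, inner_sum]
    exact Finset.sum_congr rfl fun i hi => h i hi a b hab

end

/-- The function with density F. -/
noncomputable def den (c : Par) (F : Eu 5 → ℝ) (y : Eu 5) : Alt 5 0 := f0 (F y / vol c y)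

theorem IsK.isQ_den (hK : IsK c b K) {F : Eu 5 → ℝ} (h : Sm K F) : IsQ c b K (den c F) := by
  refine ⟨hK, contDiff_f0.comp_contDiffOn (h.1.contDiffOn.div (contDiffOn_vol.mono (DRb_subset b))
    fun y hy => (vol_pos hy.1).ne'), fun y _ h1 => h.2 y fun h2 => h1 ?_⟩
  rw [den, h2, zero_div, f0_zero]

theorem IsK.isQ_cov (hK : IsK c b K) {V : Eu 5 → Eu 5} (h : Sm K V) :
    IsQ c b K fun y => cov c y (V y) := by
  refine ⟨hK, contDiffOn_cov (DRb_subset b) h.1.contDiffOn, fun y _ h1 => h.2 y fun h2 => h1 ?_⟩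
  rw [h2, cov_zero]

theorem IsK.isQ_cov2 (hK : IsK c b K) {A : Eu 5 → Fin 5 → Fin 5 → ℝ} (h : Sm K A) :
    IsQ c b K fun y => cov2 c y (A y) := by
  refine ⟨hK, contDiffOn_cov2 (DRb_subset b) h.1.contDiffOn, fun y _ h1 => h.2 y fun h2 => h1 ?_⟩
  rw [h2, cov2_zero]


theorem chart_congr {F G : Eu 5 → ℝ} (h : ∀ y ∈ DRb c b, F y = G y) :
    ∫ y in DRb c b, F y = ∫ y in DRb c b, G y :=
  setIntegral_congr_fun (isOpen_DRb b).measurableSet h

theorem chart_dvg {V : Eu 5 → Eu 5} (hV : ContDiffOn ℝ ∞ V (DRb c b)) :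
    ContinuousOn (dvg V) (DRb c b) :=
  continuousOn_finsetSum _ fun i _ => ((contDiffOn_pi.1 hV i).continuousOn_fderiv_of_isOpen
    (isOpen_DRb b) (by simp)).clm_apply continuousOn_const

theorem chart_ibp (hK : IsK c b K) {f : Eu 5 → ℝ} {V : Eu 5 → Eu 5}
    (hf : ContDiffOn ℝ ∞ f (DRb c b)) (hV : ContDiffOn ℝ ∞ V (DRb c b))
    (h1 : ∀ y ∈ DRb c b, f y • V y ≠ 0 → y ∈ K) (h2 : ∀ y ∈ DRb c b, f y * dvg V y ≠ 0 → y ∈ K) :
    IntegrableOn (fun y => ∑ i, pd i f y * V y i) (DRb c b) ∧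
      IntegrableOn (fun y => f y * dvg V y) (DRb c b) ∧
      ∫ y in DRb c b, ∑ i, pd i f y * V y i = -∫ y in DRb c b, f y * dvg V y := by
  have hO := isOpen_DRb (c := c) b
  have hW := sm_indicator (F := fun y => f y • V y) hO (hf.smul hV) hK.cpt hK.sub h1
  have hd := hW.dvg hK.cpt.isClosed
  have i1 := (integrable_of_supp hd.1.continuous hK.cpt hd.2).integrableOn (s := DRb c b)
  have i2 : IntegrableOn (fun y => f y * dvg V y) (DRb c b) :=
    integrableOn_of_supp hO (hf.continuousOn.mul (chart_dvg hV)) hK.cpt hK.sub h2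
  have e : ∀ y ∈ DRb c b, ∑ i, pd i f y * V y i =
      dvg ((DRb c b).indicator fun y => f y • V y) y - f y * dvg V y := fun y hy => by
    rw [dvg_congr (indicator_eventuallyEq _ hO hy), dvg_smul
      ((hf.contDiffAt (hO.mem_nhds hy)).differentiableAt (by simp))
      ((hV.contDiffAt (hO.mem_nhds hy)).differentiableAt (by simp)), add_sub_cancel_right]
  refine ⟨(i1.sub i2).congr_fun (fun y hy => (e y hy).symm) hO.measurableSet, i2, ?_⟩
  rw [chart_congr e, integral_sub i1 i2, integral_eq_on fun y h => hK.sub (hd.2 y h),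
    integral_dvg hW hK.cpt, zero_sub]

/-- For a test function f with F = c0 (f p₀): inner_xt, ipUp_cov, extDeriv_bas0 give the integral
over the chart of ∑ i, pd i F * V i; the field indicator (DRb c b) (F • V) is Sm K (sm_indicator),
its divergence has integral zero (integral_dvg, dvg_smul, dvg_congr, integral_eq_on). -/
theorem UpL2.wcod_cov (U : UpL2 Γ) (hK : IsK c b K) {V : Eu 5 → Eu 5} (h : Sm K V) :
    WCod U.D 0 (U.j 1 (xt Γ p₀ b fun y => cov c y (V y)))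
      (U.j 0 (xt Γ p₀ b (den c fun y => -dvg V y))) := by
  rintro _ _ ⟨Ω, hT, rfl, rfl⟩
  have hd := h.dvg hK.cpt.isClosed
  have hn : Sm K fun y => -dvg V y := ⟨hd.1.neg, fun y h1 => hd.2 y (neg_ne_zero.1 h1)⟩
  rw [real_inner_comm, U.inner_xt (hK.isQ_cov h) hT.dF, real_inner_comm,
    U.inner_xt (hK.isQ_den hn) hT]
  have key := (chart_ibp hK (f := fun z => c0 (Ω p₀ z))
    (contDiff_c0.comp_contDiffOn ((hT.smooth p₀).mono (DRb_subset b))) h.1.contDiffOn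
    (fun y _ h1 => h.2 y (right_ne_zero_of_smul h1))
    fun y _ h1 => hd.2 y (right_ne_zero_of_mul h1)).2.2
  rw [← integral_neg] at key
  refine (chart_congr fun y hy => ?_).trans (key.trans (chart_congr fun y hy => ?_))
  · simp only [ipUp_comm (cov c y _), ipUp_cov hy.1, dF,
      extDeriv_bas0 (hT.differentiableAt p₀ hy.1)]
  · have := (vol_pos hy.1).ne'
    rw [ipUp_zero_deg, den, c0_f0]
    field_simp


/-- For a test form a with components a j: inner_xt, ipUp_cov2, extDeriv_bas1 and antisymmetry give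
the integral of ∑ i j, pd i (a j) * A i j; the field W i = ∑ j, a j * A i j (extended by zero) has
divergence ∑ i j, pd i (a j) * A i j - ∑ j, a j * dvm A j. -/
theorem UpL2.wcod_cov2 (U : UpL2 Γ) (hK : IsK c b K) {A : Eu 5 → Fin 5 → Fin 5 → ℝ} (h : Sm K A)
    (ha : ∀ y i j, A y i j = -A y j i) :
    WCod U.D 1 (U.j 2 (xt Γ p₀ b fun y => cov2 c y (A y)))
      (U.j 1 (xt Γ p₀ b fun y => cov c y (dvm A y))) := by
  rintro _ _ ⟨Ω, hT, rfl, rfl⟩
  have hd := fun j => (h.apply j).dvg hK.cpt.isClosed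
  rw [real_inner_comm, U.inner_xt (hK.isQ_cov2 h) hT.dF, real_inner_comm,
    U.inner_xt (hK.isQ_cov (V := dvm A) (Sm.pi hd)) hT]
  have key := fun j => chart_ibp hK (f := fun z => Ω p₀ z ![bas j])
    ((comp_ev _).comp_contDiffOn ((hT.smooth p₀).mono (DRb_subset b))) (h.apply j).1.contDiffOn
    (fun y _ h1 => (h.apply j).2 y (right_ne_zero_of_smul h1))
    fun y _ h1 => (hd j).2 y (right_ne_zero_of_mul h1)
  have e := Finset.sum_congr (s₁ := Finset.univ) rfl fun j _ => (key j).2.2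
  rw [Finset.sum_neg_distrib, ← integral_finsetSum _ fun j _ => (key j).1,
    ← integral_finsetSum _ fun j _ => (key j).2.1, ← neg_eq_iff_eq_neg, ← integral_neg] at e
  refine (chart_congr fun y hy => ?_).trans (e.trans (chart_congr fun y hy => ?_))
  · simp only [ipUp_comm (cov2 c y _), ipUp_cov2 hy.1 _ (ha y), dF,
      extDeriv_bas1 (hT.differentiableAt p₀ hy.1), sub_mul, Finset.sum_sub_distrib]
    rw [Finset.sum_comm]
    have : ∀ (a : ℝ) i j, a * A y i j = -(a * A y j i) := fun a i j => by rw [ha y i j, mul_neg]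
    rw [Finset.sum_congr rfl fun j _ => Finset.sum_congr rfl fun i _ => this _ i j]
    simp only [Finset.sum_neg_distrib]
    ring
  · rw [ipUp_comm, ipUp_cov hy.1]
    rfl


/-- eq_zero_of_integral on the chart of y: test with xt (f0 f) for f with compact support in the
chart (LK.d, U.chart, ipUp_vec, extDeriv_bas0), and integrate by parts as above. -/
theorem UpL2.dvg_of_wcod (U : UpL2 Γ) {ψ : Fam P 1} (h : IsT Γ ψ) (h0 : WCod U.D 0 (U.j 1 ψ) 0)
    (p : P) {y : Eu 5} (hy : y ∈ DR c) : dvg (fun z => vec c z (ψ p z)) y = 0 := by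
  have hV : ∀ b, ContDiffOn ℝ ∞ (fun z => vec c z (ψ p z)) (DRb c b) := fun b =>
    contDiffOn_vec (DRb_subset b) ((h.smooth p).mono (DRb_subset b))
  refine eq_zero_of_integral (isOpen_DRb _) (chart_dvg (hV _)) (fun K f h1 h2 hf => ?_) (mem_DRb hy)
  generalize cb y = b at h2 ⊢
  have hK : IsK c b K := ⟨h1, h2⟩
  have hQ : IsQ c b K fun z => f0 (f z) := ⟨hK, (contDiff_f0.comp hf.1).contDiffOn,
    fun z _ h3 => hf.2 z fun h4 => h3 (by rw [h4, f0_zero])⟩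
  have hT : IsT Γ _ := hQ.isT p
  have e := h0 _ _ (U.D_j hT)
  rw [inner_zero_right, U.chart 1 p b _ _ hT.dF h (((hQ.lk p).d h1 hK.subDR).mono h2)] at e
  have key := (chart_ibp hK hf.1.contDiffOn (hV b) (fun y _ h => hf.2 y (left_ne_zero_of_smul h))
    fun y _ h => hf.2 y (left_ne_zero_of_mul h)).2.2
  rw [← neg_eq_zero, ← key, ← e]
  refine chart_congr fun z hz => ?_
  rw [ipUp_vec]
  refine Finset.sum_congr rfl fun i _ => ?_
  rw [dF, extDeriv_bas0 (hT.differentiableAt p hz.1), pd_congr (F := f)]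
  filter_upwards [(isOpen_DRb b).mem_nhds hz] with w hw
  rw [xt_self hw, c0_f0]


theorem chart_le (U : UpL2 Γ) {k : ℕ} {α : Eu 5 → Alt 5 k} (h : IsQ c b K α) {M : ℝ} (hM : 0 ≤ M)
    {G : Eu 5 → ℝ} (hG : Integrable G) (h0 : ∀ y, 0 ≤ G y)
    (hb : ∀ y ∈ K, ipUp c y (α y) (α y) * vol c y ≤ M * G y) :
    ‖U.j k (xt Γ p₀ b α)‖ ^ 2 ≤ M * ∫ y, G y := by
  have hm := (isOpen_DRb (c := c) b).measurableSet
  rw [U.norm_xt h, ← integral_const_mul]
  refine (integral_mono_of_nonneg ?_ (hG.const_mul M).integrableOn ?_).trans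
    (setIntegral_le_integral (hG.const_mul M) (.of_forall fun y => mul_nonneg hM (h0 y)))
  · exact (ae_restrict_mem hm).mono fun y hy => mul_nonneg (ipUp_self_nonneg _) (vol_pos hy.1).le
  · refine (ae_restrict_mem hm).mono fun y hy => ?_
    by_cases h1 : α y = 0
    · simp only [h1, ipUp_zero_left, zero_mul]
      exact mul_nonneg hM (h0 y)
    · exact hb y (h.supp y hy h1)

theorem chart_ge (U : UpL2 Γ) (hK : IsK c b K) {k : ℕ} {Ω : Fam P k} (hT : IsT Γ Ω)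
    (hL : LK Γ p₀ K Ω) {M : ℝ} (hM : 0 ≤ M) {G : Eu 5 → ℝ} (h0 : ∀ y, 0 ≤ G y)
    (hs : ∀ y, G y ≠ 0 → y ∈ K)
    (hb : ∀ y ∈ K, G y ≤ M * (ipUp c y (Ω p₀ y) (Ω p₀ y) * vol c y)) :
    ∫ y, G y ≤ M * ‖U.j k Ω‖ ^ 2 := by
  rw [← real_inner_self_eq_norm_sq, U.chart k p₀ b _ _ hT hT (hL.mono hK.sub),
    ← integral_eq_on fun y h => hK.sub (hs y h), ← integral_const_mul]
  refine integral_mono_of_nonneg (.of_forall h0) (Integrable.const_mul (integrableOn_of_supp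
    (isOpen_DRb b) ((((hT.isC_ip hT).cont p₀).mul contDiffOn_vol.continuousOn).mono (DRb_subset b))
    hK.cpt hK.sub fun y hy h => hL.mem hK.sub hy fun h1 => h ?_) M)
    ((ae_restrict_mem (isOpen_DRb b).measurableSet).mono fun y hy => ?_)
  · simp only [Pi.mul_apply, h1, ipUp_zero_left, zero_mul]
  · by_cases h1 : G y = 0
    · exact h1.trans_le (mul_nonneg hM (mul_nonneg (ipUp_self_nonneg _) (vol_pos hy.1).le))
    · exact hb y (hs y h1)

theorem chart_bd (hK : IsK c b K) {ι : Type} [Fintype ι] {F : ι → Eu 5 → ℝ}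
    (hF : ∀ i, ContinuousOn (F i) (DR c)) : ∃ M : ℝ, 0 ≤ M ∧ ∀ y ∈ K, ∀ i, F i y ≤ M := by
  choose M h0 hM using fun i => exists_bd hK.cpt hK.subDR (hF i)
  exact ⟨∑ i, M i, Finset.sum_nonneg fun i _ => h0 i, fun y hy i => (hM i y hy).trans
    (Finset.single_le_sum (fun i _ => h0 i) (Finset.mem_univ i))⟩

/-- Norms of forms given by densities: norm_xt, ipUp_zero_deg, ipUp_cov, ipUp_cov2, exists_bd,
integral_eq_on. -/
theorem IsK.norm_den (hK : IsK c b K) : ∃ C : ℝ, 0 ≤ C ∧ ∀ {P : Type} (Γ : Gl c P) (U : UpL2 Γ)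
    (p₀ : P) (F : Eu 5 → ℝ), Sm K F →
      ‖U.j 0 (xt Γ p₀ b (den c F))‖ ^ 2 ≤ C * ∫ y, F y ^ 2 := by
  obtain ⟨M, hM, hb⟩ := exists_bd hK.cpt hK.subDR
    (contDiffOn_vol.continuousOn.inv₀ fun y hy => (vol_pos hy).ne')
  refine ⟨M, hM, fun Γ U p₀ F h => chart_le U (hK.isQ_den h) hM (h.integrable_sq hK.cpt)
    (fun _ => sq_nonneg _) fun y hy => ?_⟩
  have := (vol_pos (hK.subDR hy)).ne'
  refine le_trans (le_of_eq ?_) (mul_le_mul_of_nonneg_right (hb y hy) (sq_nonneg _))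
  rw [ipUp_zero_deg, den, c0_f0, Pi.inv_apply]
  field_simp

theorem IsK.norm_cov (hK : IsK c b K) : ∃ C : ℝ, 0 ≤ C ∧ ∀ {P : Type} (Γ : Gl c P) (U : UpL2 Γ)
    (p₀ : P) (V : Eu 5 → Eu 5), Sm K V →
      ‖U.j 1 (xt Γ p₀ b fun y => cov c y (V y))‖ ^ 2 ≤ C * ∫ y, ∑ i, V y i ^ 2 := by
  obtain ⟨M, hM, hb⟩ := chart_bd hK (F := fun i y => ell c y i ^ 2 / vol c y) fun i =>
    ((contDiffOn_ell i).continuousOn.pow 2).div contDiffOn_vol.continuousOn
      fun y hy => (vol_pos hy).ne'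
  refine ⟨M, hM, fun Γ U p₀ V h => chart_le U (hK.isQ_cov h) hM (h.integrable_sum_sq hK.cpt)
    (fun _ => by positivity) fun y hy => ?_⟩
  rw [ipUp_cov (hK.subDR hy), Finset.mul_sum]
  refine Finset.sum_le_sum fun i _ => ?_
  rw [cov_bas, mul_assoc, ← sq]
  exact mul_le_mul_of_nonneg_right (hb y hy i) (sq_nonneg _)

theorem IsK.norm_cov2 (hK : IsK c b K) : ∃ C : ℝ, 0 ≤ C ∧ ∀ {P : Type} (Γ : Gl c P) (U : UpL2 Γ)
    (p₀ : P) (A : Eu 5 → Fin 5 → Fin 5 → ℝ), Sm K A → (∀ y i j, A y i j = -A y j i) →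
      ‖U.j 2 (xt Γ p₀ b fun y => cov2 c y (A y))‖ ^ 2 ≤ C * ∫ y, ∑ j, ∑ i, A y j i ^ 2 := by
  obtain ⟨M, hM, hb⟩ := chart_bd hK
    (F := fun (i : Fin 5 × Fin 5) y => ell c y i.1 ^ 2 * ell c y i.2 ^ 2 / vol c y) fun i =>
    (((contDiffOn_ell i.1).continuousOn.pow 2).mul ((contDiffOn_ell i.2).continuousOn.pow 2)).div
      contDiffOn_vol.continuousOn fun y hy => (vol_pos hy).ne'
  refine ⟨M, hM, fun Γ U p₀ A h ha => chart_le U (hK.isQ_cov2 h) hM
    (h.integrable_sum_sum_sq hK.cpt) (fun _ => by positivity) fun y hy => ?_⟩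
  have : ∑ i, ∑ j, cov2 c y (A y) ![bas i, bas j] * A y i j ≤ M * ∑ j, ∑ i, A y j i ^ 2 := by
    simp only [Finset.mul_sum]
    refine Finset.sum_le_sum fun i _ => Finset.sum_le_sum fun j _ => ?_
    rw [cov2_bas (ha y), mul_assoc, ← sq (A y i j)]
    exact mul_le_mul_of_nonneg_right (hb y hy (i, j)) (sq_nonneg _)
  have h0 : 0 ≤ M * ∑ j, ∑ i, A y j i ^ 2 := by positivity
  rw [ipUp_cov2 (hK.subDR hy) _ (ha y)]
  linarith


/-- F = indicator (DRb c b) (c0 (f p₀) * vol): sm_indicator, LK.isQ, j_eq_of_chart, U.chart. -/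
theorem IsK.exists_den (hK : IsK c b K) : ∃ C : ℝ, 0 ≤ C ∧ ∀ {P : Type} (Γ : Gl c P) (U : UpL2 Γ)
    (p₀ : P) (f : Fam P 0), IsT Γ f → LK Γ p₀ K f → ∃ F : Eu 5 → ℝ, Sm K F ∧
      U.j 0 f = U.j 0 (xt Γ p₀ b (den c F)) ∧ ∫ y, F y ^ 2 ≤ C * ‖U.j 0 f‖ ^ 2 := by
  obtain ⟨M, hM, hb⟩ := exists_bd hK.cpt hK.subDR contDiffOn_vol.continuousOn
  refine ⟨M, hM, fun Γ U p₀ f hT hL => ?_⟩
  have hQ := hL.isQ hT hK
  have hF := sm_indicator (F := fun y => c0 (f p₀ y) * vol c y) (isOpen_DRb b)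
    ((contDiff_c0.comp_contDiffOn hQ.smooth).mul (contDiffOn_vol.mono (DRb_subset b))) hK.cpt hK.sub
    fun y hy h => hQ.supp y hy fun h1 => h (by rw [h1, c0_zero, zero_mul])
  refine ⟨_, hF, U.j_eq_of_chart hT ((hK.isQ_den hF).isT p₀) (hL.mono hK.sub)
    (((hK.isQ_den hF).lk p₀).mono hK.sub) fun y hy => ?_, chart_ge U hK hT hL hM
    (fun _ => sq_nonneg _) (fun y h => hF.2 y (pow_ne_zero_iff two_ne_zero |>.1 h)) fun y hy => ?_⟩
  · rw [xt_self hy, den, indicator_of_mem hy, mul_div_cancel_right₀ _ (vol_pos hy.1).ne', f0_c0]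
  · rw [indicator_of_mem (hK.sub hy), ipUp_zero_deg]
    refine le_trans (le_of_eq (by ring)) (mul_le_mul_of_nonneg_right (hb y hy)
      (mul_nonneg (mul_self_nonneg _) (vol_pos (hK.subDR hy)).le))


/-- V = indicator (DRb c b) (vec (ψ p₀)); cov_vec, ipUp_vec. -/
theorem IsK.exists_cov (hK : IsK c b K) : ∃ C : ℝ, 0 ≤ C ∧ ∀ {P : Type} (Γ : Gl c P) (U : UpL2 Γ)
    (p₀ : P) (ψ : Fam P 1), IsT Γ ψ → LK Γ p₀ K ψ → ∃ V : Eu 5 → Eu 5, Sm K V ∧
      (∀ y ∈ DRb c b, V y = vec c y (ψ p₀ y)) ∧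
      U.j 1 ψ = U.j 1 (xt Γ p₀ b fun y => cov c y (V y)) ∧
      ∫ y, ∑ i, V y i ^ 2 ≤ C * ‖U.j 1 ψ‖ ^ 2 := by
  obtain ⟨M, hM, hb⟩ := chart_bd hK (F := fun i y => vol c y / ell c y i ^ 2) fun i =>
    contDiffOn_vol.continuousOn.div ((contDiffOn_ell i).continuousOn.pow 2)
      fun y hy => pow_ne_zero _ (ell_pos hy i).ne'
  refine ⟨M, hM, fun Γ U p₀ ψ hT hL => ?_⟩
  have hQ := hL.isQ hT hK
  have hV := sm_indicator (isOpen_DRb b) (contDiffOn_vec (DRb_subset b) hQ.smooth) hK.cpt hK.sub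
    fun y hy h => hQ.supp y hy fun h1 => h (by rw [h1, vec_zero])
  refine ⟨_, hV, fun y hy => indicator_of_mem hy _, U.j_eq_of_chart hT ((hK.isQ_cov hV).isT p₀)
    (hL.mono hK.sub) (((hK.isQ_cov hV).lk p₀).mono hK.sub) fun y hy => ?_, chart_ge U hK hT hL hM
    (fun _ => by positivity) (fun y h => hV.2 y fun h1 => h (by simp [h1])) fun y hy => ?_⟩
  · rw [xt_self hy, indicator_of_mem hy, cov_vec hy.1]
  · rw [indicator_of_mem (hK.sub hy), ipUp_vec, Finset.mul_sum]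
    refine Finset.sum_le_sum fun i _ => ?_
    have := vol_pos (hK.subDR hy)
    have h0 : 0 ≤ ψ p₀ y ![bas i] * vec c y (ψ p₀ y) i := by
      rw [vec, mul_left_comm]
      exact mul_nonneg (by positivity) (mul_self_nonneg _)
    refine le_trans (le_of_eq ?_) (mul_le_mul_of_nonneg_right (hb y hy i) h0)
    rw [vec]
    ring


theorem isT_one [Finite P] : IsT Γ (ofFn fun _ _ => (1 : ℝ)) :=
  (IsFn.const 1).isT_ofFn (toFinite _)

/-- The constant function. -/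
noncomputable def UpL2.one (U : UpL2 Γ) : U.H 0 := U.j 0 (ofFn fun _ _ => 1)

theorem UpL2.D_one [Finite P] (U : UpL2 Γ) : U.D 0 U.one 0 := by
  have h2 := U.D_j (isT_one (Γ := Γ))
  rwa [show dF (ofFn fun (_ : P) _ => (1 : ℝ)) = 0 from funext₂ fun p y => by
    rw [dF, extDeriv, show ofFn (fun (_ : P) _ => (1 : ℝ)) p = fun _ => f0 1 from rfl,
      fderiv_fun_const]
    ext v
    simp [ContinuousAlternatingMap.alternatizeUncurryFin_apply], U.j_zero] at h2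

/-- inner_xt, ipUp_zero_deg, integral_eq_on. -/
theorem UpL2.one_den [Finite P] (U : UpL2 Γ) (hK : IsK c b K) {F : Eu 5 → ℝ} (h : Sm K F) :
    ⟪U.one, U.j 0 (xt Γ p₀ b (den c F))⟫_ℝ = ∫ y, F y := by
  rw [real_inner_comm, UpL2.one, U.inner_xt (hK.isQ_den h) isT_one,
    ← integral_eq_on fun y h1 => hK.sub (h.2 y h1)]
  refine chart_congr fun y hy => ?_
  rw [ipUp_zero_deg, den, ofFn, c0_f0, c0_f0, mul_one, div_mul_cancel₀ _ (vol_pos hy.1).ne']


end Pool.Agent.Lib.MP_75c153_gt.Ft
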