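import Pool.Agent.Lib.MP_75c153_gt.Ft.VA

open MeasureTheory Filter Topology Set
open scoped ContDiff
open Pool.Agent.Lib.MP_570070_gt.An (Eu bas)

namespace Pool.Agent.Lib.MP_75c153_gt.Ft

variable {n : ℕ}

section

variable {B B' : Type} [NormedAddCommGroup B] [NormedSpace ℝ B] [NormedAddCommGroup B']
  [NormedSpace ℝ B'] {K K' : Set (Eu n)}

theorem Sm.mono {F : Eu n → B} (h : Sm K F) (hK : K ⊆ K') : Sm K' F :=
  ⟨h.1, fun y hy => hK (h.2 y hy)⟩

theorem Sm.zero : Sm K (fun _ : Eu n => (0 : B)) := ⟨contDiff_const, fun _ h => (h rfl).elim⟩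

theorem Sm.add {F G : Eu n → B} (h : Sm K F) (h' : Sm K' G) :
    Sm (K ∪ K') fun y => F y + G y :=
  ⟨h.1.add h'.1, fun y hy => by
    by_contra hn
    rw [mem_union, not_or] at hn
    exact hy (by simp [not_not.1 (mt (h.2 y) hn.1), not_not.1 (mt (h'.2 y) hn.2)])⟩

theorem Sm.sub {F G : Eu n → B} (h : Sm K F) (h' : Sm K' G) :
    Sm (K ∪ K') fun y => F y - G y :=
  ⟨h.1.sub h'.1, fun y hy => by
    by_contra hn
    rw [mem_union, not_or] at hn
    exact hy (by simp [not_not.1 (mt (h.2 y) hn.1), not_not.1 (mt (h'.2 y) hn.2)])⟩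

theorem Sm.smul {F : Eu n → B} (h : Sm K F) {f : Eu n → ℝ} (hf : ContDiff ℝ ∞ f) :
    Sm K fun y => f y • F y :=
  ⟨hf.smul h.1, fun y hy => h.2 y fun h0 => hy (by simp [h0])⟩

theorem Sm.apply {ι : Type} [Fintype ι] {F : Eu n → ι → B} (h : Sm K F) (i : ι) :
    Sm K fun y => F y i :=
  ⟨contDiff_pi.1 h.1 i, fun y hy => h.2 y fun h0 => hy (by simp [h0])⟩

theorem Sm.pi {ι : Type} [Fintype ι] {F : Eu n → ι → B} (h : ∀ i, Sm K fun y => F y i) :
    Sm K F :=
  ⟨contDiff_pi.2 fun i => (h i).1, fun y hy => by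
    obtain ⟨i, hi⟩ := Function.ne_iff.1 hy
    exact (h i).2 y hi⟩

theorem Sm.hasCompactSupport {F : Eu n → B} (h : Sm K F) (hK : IsCompact K) :
    HasCompactSupport F :=
  HasCompactSupport.intro hK fun y hy => not_not.1 (mt (h.2 y) hy)

/-- A continuous function that vanishes outside a compact set is integrable. -/
theorem integrable_of_supp {F : Eu n → ℝ} (hF : Continuous F) (hK : IsCompact K)
    (hs : ∀ y, F y ≠ 0 → y ∈ K) : Integrable F :=
  hF.integrable_of_hasCompactSupport
    (HasCompactSupport.intro hK fun y hy => not_not.1 (mt (hs y) hy))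

theorem Sm.integrable_sq {F : Eu n → ℝ} (h : Sm K F) (hK : IsCompact K) :
    Integrable fun y => F y ^ 2 :=
  integrable_of_supp (h.1.continuous.pow 2) hK fun y hy => h.2 y fun h0 => hy (by simp [h0])

theorem Sm.integrable_sum_sq {ι : Type} [Fintype ι] {V : Eu n → ι → ℝ} (h : Sm K V)
    (hK : IsCompact K) : Integrable fun y => ∑ i, V y i ^ 2 :=
  integrable_finsetSum _ fun i _ => (h.apply i).integrable_sq hK

theorem Sm.integrable_sum_sum_sq {ι κ : Type} [Fintype ι] [Fintype κ] {A : Eu n → ι → κ → ℝ}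
    (h : Sm K A) (hK : IsCompact K) : Integrable fun y => ∑ j, ∑ i, A y j i ^ 2 :=
  integrable_finsetSum _ fun j _ => (h.apply j).integrable_sum_sq hK

theorem Sm.pd {F : Eu n → ℝ} (h : Sm K F) (hK : IsClosed K) (i : Fin n) : Sm K (pd i F) :=
  ⟨contDiff_pd i h.1, fun y hy => by
    by_contra hn
    have h0 : F =ᶠ[𝓝 y] fun _ => 0 := by
      filter_upwards [hK.isOpen_compl.mem_nhds hn] with z hz using not_not.1 (mt (h.2 z) hz)
    exact hy (by simp [Ft.pd, h0.fderiv_eq])⟩

theorem Sm.dvg {V : Eu n → Eu n} (h : Sm K V) (hK : IsClosed K) : Sm K (dvg V) :=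
  ⟨ContDiff.sum fun i _ => ((h.apply i).pd hK i).1, fun y hy => by
    obtain ⟨i, -, hi⟩ := Finset.exists_ne_zero_of_sum_ne_zero hy
    exact ((h.apply i).pd hK i).2 y hi⟩

theorem integral_eq_box {F : Eu n → ℝ} {lo hi : Eu n} (hs : ∀ y, F y ≠ 0 → y ∈ Icc lo hi) :
    ∫ y, F y = ∫ y in Icc lo hi, F y :=
  (setIntegral_eq_integral_of_forall_compl_eq_zero fun y hy => not_not.1 (mt (hs y) hy)).symm

/-- Cauchy-Schwarz on a compact set. -/
theorem exists_integral_sq_le (hK : IsCompact K) : ∃ C : ℝ, 0 ≤ C ∧ ∀ F : Eu n → ℝ,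
    Continuous F → (∀ y, F y ≠ 0 → y ∈ K) → (∫ y, F y) ^ 2 ≤ C * ∫ y, F y ^ 2 := by
  refine ⟨volume.real K, measureReal_nonneg, fun F hF hs => ?_⟩
  have h0 : ∀ y, y ∉ K → F y = 0 := fun y hy => not_not.1 (mt (hs y) hy)
  have h1 : IntegrableOn F K := hF.continuousOn.integrableOn_compact hK
  have h2 : IntegrableOn (fun y => F y ^ 2) K := (hF.pow 2).continuousOn.integrableOn_compact hK
  rw [← setIntegral_eq_integral_of_forall_compl_eq_zero h0,
    ← setIntegral_eq_integral_of_forall_compl_eq_zero (f := fun y => F y ^ 2) (s := K)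
      fun y hy => by simp [h0 y hy]]
  have h3 := discrim_le_zero (a := volume.real K) (b := 2 * ∫ y in K, F y)
    (c := ∫ y in K, F y ^ 2) fun t => by
      have h4 : IntegrableOn (fun _ => t * t) K := continuousOn_const.integrableOn_compact hK
      have h5 : 0 ≤ ∫ y in K, (t * t + 2 * t * F y + F y ^ 2) :=
        integral_nonneg fun y => by
          simp only [Pi.zero_apply]
          nlinarith [sq_nonneg (t + F y)]
      have h6 : IntegrableOn (fun y => t * t + 2 * t * F y) K := h4.add (h1.const_mul _)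
      rw [integral_add h6 h2, integral_add h4 (h1.const_mul _),
        integral_const_mul (2 * t), setIntegral_const, smul_eq_mul] at h5
      linarith
  rw [discrim] at h3
  linarith

end

section

variable {F G : Eu n → ℝ} {V W : Eu n → Eu n} {y : Eu n} {K : Set (Eu n)}

theorem pd_const (i : Fin n) (a : ℝ) (y : Eu n) : pd i (fun _ => a) y = 0 := by
  simp [pd]

theorem pd_congr (i : Fin n) (h : F =ᶠ[𝓝 y] G) : pd i F y = pd i G y := by
  rw [pd, pd, h.fderiv_eq]

theorem pd_add (i : Fin n) (hF : DifferentiableAt ℝ F y) (hG : DifferentiableAt ℝ G y) :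
    pd i (fun z => F z + G z) y = pd i F y + pd i G y := by
  rw [pd, fderiv_fun_add hF hG]
  rfl

theorem pd_sub (i : Fin n) (hF : DifferentiableAt ℝ F y) (hG : DifferentiableAt ℝ G y) :
    pd i (fun z => F z - G z) y = pd i F y - pd i G y := by
  rw [pd, fderiv_fun_sub hF hG]
  rfl

theorem pd_neg (i : Fin n) (F : Eu n → ℝ) (y : Eu n) : pd i (fun z => -F z) y = -pd i F y := by
  rw [pd, fderiv_fun_neg]
  rfl

theorem pd_const_mul (i : Fin n) (a : ℝ) (F : Eu n → ℝ) (y : Eu n) :
    pd i (fun z => a * F z) y = a * pd i F y := by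
  have h := fderiv_const_smul_field (𝕜 := ℝ) (f := F) a
  exact congrArg (fun L : Eu n → Eu n →L[ℝ] ℝ => L y (bas i)) h

theorem pd_mul (i : Fin n) (hF : DifferentiableAt ℝ F y) (hG : DifferentiableAt ℝ G y) :
    pd i (fun z => F z * G z) y = pd i F y * G y + F y * pd i G y := by
  rw [pd, fderiv_fun_mul hF hG]
  simp only [pd, add_apply, smul_apply, smul_eq_mul]
  ring

theorem pd_sum {ι : Type} (s : Finset ι) (i : Fin n) {f : ι → Eu n → ℝ}
    (hf : ∀ a ∈ s, DifferentiableAt ℝ (f a) y) :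
    pd i (fun z => ∑ a ∈ s, f a z) y = ∑ a ∈ s, pd i (f a) y := by
  rw [pd, fderiv_fun_sum hf]
  simp only [pd, sum_apply]

theorem pd_comp_apply (i j : Fin n) {u : ℝ → ℝ} (hu : DifferentiableAt ℝ u (y j)) :
    pd i (fun z : Eu n => u (z j)) y = if i = j then deriv u (y j) else 0 := by
  have h := (hu.hasDerivAt.comp_hasFDerivAt y (hasFDerivAt_apply (𝕜 := ℝ) j y)).fderiv
  rw [pd]
  refine (congrArg (fun L : Eu n →L[ℝ] ℝ => L (bas i)) h).trans ?_
  simp [bas, Pi.single_apply, eq_comm]

theorem pd_comm (i j : Fin n) (hF : ContDiffAt ℝ ∞ F y) :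
    pd i (pd j F) y = pd j (pd i F) y := by
  have h1 : DifferentiableAt ℝ (fderiv ℝ F) y :=
    (hF.fderiv_right (m := 1) (by norm_cast)).differentiableAt (by simp)
  have h2 : ∀ i j : Fin n, pd i (pd j F) y = fderiv ℝ (fderiv ℝ F) y (bas i) (bas j) := fun i j => by
    change fderiv ℝ (fun z => fderiv ℝ F z (bas j)) y (bas i) = _
    rw [fderiv_clm_apply h1 (differentiableAt_const _)]
    simp
  rw [h2, h2]
  exact (hF.isSymmSndFDerivAt (by simpa using by norm_cast)).eq _ _

theorem dvg_congr (h : V =ᶠ[𝓝 y] W) : dvg V y = dvg W y :=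
  Finset.sum_congr rfl fun i _ => pd_congr i (h.mono fun _ hz => congrFun hz i)

theorem dvg_add (hV : DifferentiableAt ℝ V y) (hW : DifferentiableAt ℝ W y) :
    dvg (fun z => V z + W z) y = dvg V y + dvg W y := by
  rw [dvg, dvg, dvg, ← Finset.sum_add_distrib]
  exact Finset.sum_congr rfl fun i _ =>
    pd_add i (differentiableAt_pi.1 hV i) (differentiableAt_pi.1 hW i)

theorem dvg_sub (hV : DifferentiableAt ℝ V y) (hW : DifferentiableAt ℝ W y) :
    dvg (fun z => V z - W z) y = dvg V y - dvg W y := by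
  rw [dvg, dvg, dvg, ← Finset.sum_sub_distrib]
  exact Finset.sum_congr rfl fun i _ =>
    pd_sub i (differentiableAt_pi.1 hV i) (differentiableAt_pi.1 hW i)

theorem dvg_smul (hF : DifferentiableAt ℝ F y) (hV : DifferentiableAt ℝ V y) :
    dvg (fun z => F z • V z) y = ∑ i, pd i F y * V y i + F y * dvg V y := by
  rw [dvg, dvg, Finset.mul_sum, ← Finset.sum_add_distrib]
  exact Finset.sum_congr rfl fun i _ => pd_mul i hF (differentiableAt_pi.1 hV i)

theorem dvg_single (i : Fin n) (F : Eu n → ℝ) (y : Eu n) :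
    dvg (fun z => Pi.single i (F z)) y = pd i F y := by
  rw [dvg, Finset.sum_eq_single i (fun j _ hj => ?_) (by simp)]
  · simp only [Pi.single_eq_same]
  · simp only [Pi.single_eq_of_ne hj, pd_const]

theorem dvm_add {A A' : Eu n → Fin n → Fin n → ℝ} (hA : DifferentiableAt ℝ A y)
    (hA' : DifferentiableAt ℝ A' y) :
    dvm (fun z => A z + A' z) y = dvm A y + dvm A' y := by
  funext j
  rw [Pi.add_apply, dvm, dvm, dvm, ← Finset.sum_add_distrib]
  exact Finset.sum_congr rfl fun i _ =>
    pd_add i (differentiableAt_pi.1 (differentiableAt_pi.1 hA j) i)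
      (differentiableAt_pi.1 (differentiableAt_pi.1 hA' j) i)

/-- Integration by parts with the constant function, or hasDerivAt_pd and Fubini. -/
theorem integral_pd (h : Sm K F) (hK : IsCompact K) (i : Fin n) : ∫ y, pd i F y = 0 := by
  have h1 := h.pd hK.isClosed i
  have h2 := integral_mul_fderiv_eq_neg_fderiv_mul_of_integrable (μ := volume) (v := bas i)
    (f := fun _ : Eu n => (1 : ℝ)) (g := F) (by simp)
    (by simpa only [one_mul] using! integrable_of_supp h1.1.continuous hK h1.2)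
    (by simpa only [one_mul] using integrable_of_supp h.1.continuous hK h.2)
    (fun _ _ => differentiableAt_const _) fun y _ => h.1.differentiable (by simp) y
  simpa [pd] using h2

theorem integral_dvg (h : Sm K V) (hK : IsCompact K) : ∫ y, dvg V y = 0 := by
  have h1 := fun i => (h.apply i).pd hK.isClosed i
  simp only [dvg]
  rw [integral_finsetSum _ fun i _ => integrable_of_supp (h1 i).1.continuous hK (h1 i).2]
  exact Finset.sum_eq_zero fun i _ => integral_pd (h.apply i) hK i

/-- Integration by parts. -/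
theorem integral_mul_dvg (hF : ContDiff ℝ ∞ F) (h : Sm K V) (hK : IsCompact K) :
    ∫ y, F y * dvg V y = -∫ y, ∑ i, pd i F y * V y i := by
  have h1 := integral_dvg (h.smul hF) hK
  have h2 := (h.dvg hK.isClosed).smul hF
  have h3 := fun i => (h.apply i).smul (contDiff_pd i hF)
  simp only [dvg_smul (hF.differentiable (by simp) _) (h.1.differentiable (by simp) _)] at h1
  have h4 : Integrable fun y => ∑ i, pd i F y * V y i :=
    integrable_finsetSum _ fun i _ => integrable_of_supp (h3 i).1.continuous hK (h3 i).2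
  have h5 : Integrable fun y => F y * dvg V y := integrable_of_supp h2.1.continuous hK h2.2
  rw [integral_add h4 h5] at h1
  linarith

end

end Pool.Agent.Lib.MP_75c153_gt.Ft
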