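import Pool.Agent.Lib.MP_75c153_gt.Ft.Wedge
import Pool.Agent.Lib.MP_75c153_gt.Ft.VC

open MeasureTheory Filter Topology Set
open scoped ContDiff InnerProductSpace

namespace Pool.Agent.Lib.MP_75c153_gt.Ft

open Pool.Agent.Lib.MP_570070_gt.An

variable {c : Par} {y : Eu 5}

theorem f0_apply (h : ℝ) (v : Fin 0 → Eu 5) : f0 h v = h := rfl
theorem f1_apply (a : Eu 5) (v : Fin 1 → Eu 5) : f1 a v = ∑ i, a i * v 0 i := by
  simp [f1, wedge_apply, f0_apply, dx, ContinuousAlternatingMap.sum_apply]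
theorem f2_apply (A : Fin 5 → Fin 5 → ℝ) (v : Fin 2 → Eu 5) :
    f2 A v = 1 / 2 * ∑ i, ∑ j, A i j * (v 0 i * v 1 j - v 1 i * v 0 j) := by
  simp only [f2, ContinuousAlternatingMap.smul_apply, ContinuousAlternatingMap.sum_apply,
    wedge_apply, f1_apply, smul_eq_mul]
  congr 1
  refine Finset.sum_congr rfl fun i _ => ?_
  simp only [dx, ContinuousLinearMap.proj_apply, Fin.removeNth, Finset.mul_sum, mul_sub,
    Finset.sum_sub_distrib]
  simp [Fin.succAbove, sub_eq_add_neg, mul_comm, mul_left_comm]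
  exact Finset.sum_congr rfl fun j _ => by ring
theorem f1_bas (a : Eu 5) (i : Fin 5) : f1 a ![bas i] = a i := by
  simp [f1_apply, bas, Pi.single_apply]
theorem f2_bas {A : Fin 5 → Fin 5 → ℝ} (h : ∀ i j, A i j = -A j i) (i j : Fin 5) :
    f2 A ![bas i, bas j] = A i j := by
  simp only [f2_apply, bas, Matrix.cons_val_zero, Matrix.cons_val_one, Pi.single_apply, mul_sub,
    Finset.sum_sub_distrib, mul_ite, mul_one, mul_zero,
    Finset.sum_ite_eq', Finset.mem_univ, if_true]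
  rw [h j i]
  ring

@[simp] theorem c0_f0 (h : ℝ) : c0 (f0 h) = h := rfl

theorem comp_ext {k : ℕ} {α β : Alt 5 k} (h : ∀ I : Fin k → Fin 5, Function.Injective I →
    α (fun l => bas (I l)) = β fun l => bas (I l)) : α = β :=
  ContinuousAlternatingMap.toAlternatingMap_injective
    (Module.Basis.ext_alternating (Pi.basisFun ℝ (Fin 5)) fun I hI => by
      simpa [bas] using h I hI)

theorem comp_swap (α : Alt 5 2) (u v : Eu 5) : α ![u, v] = -α ![v, u] := by
  have h := α.toAlternatingMap.map_swap ![v, u] (i := 0) (j := 1) (by decide)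
  have e : ![v, u] ∘ Equiv.swap (0 : Fin 2) 1 = ![u, v] := by
    funext l
    fin_cases l <;> rfl
  rw [e] at h
  exact h

theorem comp_ext1 {α β : Alt 5 1} (h : ∀ i, α ![bas i] = β ![bas i]) : α = β :=
  comp_ext fun I _ => by
    have e : (fun l => (bas (I l) : Eu 5)) = ![bas (I 0)] := by
      funext l
      fin_cases l
      rfl
    rw [e, h]

theorem comp_ext2 {α β : Alt 5 2} (h : ∀ i j, α ![bas i, bas j] = β ![bas i, bas j]) : α = β :=
  comp_ext fun I _ => by
    have e : (fun l => (bas (I l) : Eu 5)) = ![bas (I 0), bas (I 1)] := by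
      funext l
      fin_cases l <;> rfl
    rw [e, h]

@[simp] theorem f0_c0 (α : Alt 5 0) : f0 (c0 α) = α := by
  ext v
  rw [f0_apply, c0, Subsingleton.elim v ![]]
theorem f1_self (α : Alt 5 1) : (f1 fun i => α ![bas i]) = α := comp_ext1 fun i => f1_bas _ i
theorem f2_self (α : Alt 5 2) : (f2 fun i j => α ![bas i, bas j]) = α :=
  comp_ext2 fun i j => f2_bas (fun _ _ => comp_swap α _ _) i j

theorem f0_add (a b : ℝ) : f0 (a + b) = f0 a + f0 b := by
  ext v
  simp [f0_apply]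
theorem f1_add (a b : Eu 5) : f1 (a + b) = f1 a + f1 b := by
  ext v
  simp [f1_apply, add_mul, Finset.sum_add_distrib]
theorem f2_add (a b : Fin 5 → Fin 5 → ℝ) : f2 (a + b) = f2 a + f2 b := by
  ext v
  simp only [f2_apply, Pi.add_apply, add_mul, Finset.sum_add_distrib, mul_add,
    ContinuousAlternatingMap.add_apply]
theorem f0_smul (t a : ℝ) : f0 (t * a) = t • f0 a := by
  ext v
  simp [f0_apply]
theorem f1_smul (t : ℝ) (a : Eu 5) : f1 (t • a) = t • f1 a := by
  ext v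
  simp [f1_apply, Finset.mul_sum, mul_assoc]
theorem f2_smul (t : ℝ) (a : Fin 5 → Fin 5 → ℝ) : f2 (t • a) = t • f2 a := by
  ext v
  simp only [f2_apply, Pi.smul_apply, smul_eq_mul, ContinuousAlternatingMap.smul_apply, mul_assoc,
    ← Finset.mul_sum]
  ring
@[simp] theorem f0_zero : f0 0 = 0 := by
  ext v
  simp [f0_apply]
@[simp] theorem f1_zero : f1 0 = 0 := by simp [f1]
@[simp] theorem f2_zero : f2 0 = 0 := by simp [f2, wedge_zero_right]
theorem c0_add (α β : Alt 5 0) : c0 (α + β) = c0 α + c0 β := rfl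
theorem c0_smul (t : ℝ) (α : Alt 5 0) : c0 (t • α) = t * c0 α := rfl
@[simp] theorem c0_zero : c0 0 = 0 := rfl

theorem comp_ev {k : ℕ} (v : Fin k → Eu 5) : ContDiff ℝ ∞ fun α : Alt 5 k => α v :=
  (ContinuousAlternatingMap.apply ℝ (Eu 5) ℝ v).contDiff

theorem contDiff_f0 : ContDiff ℝ ∞ f0 :=
  (IsLinearMap.mk' f0 ⟨f0_add, f0_smul⟩).toContinuousLinearMap.contDiff
theorem contDiff_f1 : ContDiff ℝ ∞ f1 :=
  (IsLinearMap.mk' f1 ⟨f1_add, f1_smul⟩).toContinuousLinearMap.contDiff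
theorem contDiff_f2 : ContDiff ℝ ∞ f2 :=
  (IsLinearMap.mk' f2 ⟨f2_add, f2_smul⟩).toContinuousLinearMap.contDiff
theorem contDiff_c0 : ContDiff ℝ ∞ c0 := comp_ev _

theorem comp_sum {k : ℕ} (F : (Fin (k + 1) → Fin 5) → ℝ) :
    ∑ I, F I = ∑ a, ∑ J : Fin k → Fin 5, F (Matrix.vecCons a J) := by
  rw [← (Fin.consEquiv fun _ => Fin 5).sum_comp, Fintype.sum_prod_type]
  rfl

/-- A form on the frame. -/
theorem apply_fr {k : ℕ} (α : Alt 5 k) (I : Fin k → Fin 5) :
    (α fun l => fr c y (I l)) = (∏ l, (ell c y (I l))⁻¹) * α fun l => bas (I l) :=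
  α.toContinuousMultilinearMap.map_smul_univ (fun l => (ell c y (I l))⁻¹) fun l => bas (I l)

theorem ipUp_zero_deg (α β : Alt 5 0) : ipUp c y α β = c0 α * c0 β := by
  rw [← f0_c0 α, ← f0_c0 β, ipUp]
  simp only [f0_apply, c0_f0]
  simp
theorem ipUp_one_deg (α β : Alt 5 1) :
    ipUp c y α β = ∑ i, (ell c y i ^ 2)⁻¹ * (α ![bas i] * β ![bas i]) := by
  have e : ∀ (a : Fin 5) (J : Fin 0 → Fin 5),
      (fun l => (bas (Matrix.vecCons a J l) : Eu 5)) = ![bas a] := fun a J => by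
    funext l
    fin_cases l
    rfl
  simp only [ipUp, apply_fr, comp_sum, e, Finset.univ_unique, Finset.sum_singleton,
    Finset.prod_singleton, Nat.factorial_one, Nat.cast_one, inv_one, one_mul]
  refine Finset.sum_congr rfl fun i _ => ?_
  simp only [Fin.default_eq_zero, Matrix.cons_val_zero]
  ring
theorem ipUp_two_deg (α β : Alt 5 2) : ipUp c y α β = 1 / 2 * ∑ i, ∑ j,
    (ell c y i ^ 2 * ell c y j ^ 2)⁻¹ * (α ![bas i, bas j] * β ![bas i, bas j]) := by
  have e : ∀ (a b : Fin 5) (J : Fin 0 → Fin 5),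
      (fun l => (bas (Matrix.vecCons a (Matrix.vecCons b J) l) : Eu 5)) = ![bas a, bas b] :=
    fun a b J => by
      funext l
      fin_cases l <;> rfl
  simp only [ipUp, apply_fr, comp_sum, e, Finset.univ_unique, Finset.sum_singleton,
    Fin.prod_univ_two, Matrix.cons_val_zero, Matrix.cons_val_one]
  congr 1
  · norm_num [Nat.factorial]
  · exact Finset.sum_congr rfl fun i _ => Finset.sum_congr rfl fun j _ => by ring

theorem wedge_f0_bas (ℓ : Eu 5 →L[ℝ] ℝ) (α : Alt 5 0) (i : Fin 5) :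
    wedge ℓ α ![bas i] = ℓ (bas i) * c0 α := by
  have h0 : (0 : Fin 1).removeNth ![(bas i : Eu 5)] = ![] := Subsingleton.elim _ _
  rw [wedge_apply, Fin.sum_univ_one, h0]
  simp [c0]

theorem extDeriv_bas0 {α : Eu 5 → Alt 5 0} (h : DifferentiableAt ℝ α y) (i : Fin 5) :
    extDeriv α y ![bas i] = pd i (fun z => c0 (α z)) y := by
  have h0 : (0 : Fin 1).removeNth ![(bas i : Eu 5)] = ![] := Subsingleton.elim _ _
  rw [extDeriv_apply h, Fin.sum_univ_one, h0]
  simp [pd, c0]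
theorem extDeriv_bas1 {α : Eu 5 → Alt 5 1} (h : DifferentiableAt ℝ α y) (i j : Fin 5) :
    extDeriv α y ![bas i, bas j] =
      pd i (fun z => α z ![bas j]) y - pd j (fun z => α z ![bas i]) y := by
  have h0 : (0 : Fin 2).removeNth ![(bas i : Eu 5), bas j] = ![bas j] := by
    funext l
    fin_cases l
    rfl
  have h1 : (1 : Fin 2).removeNth ![(bas i : Eu 5), bas j] = ![bas i] := by
    funext l
    fin_cases l
    rfl
  rw [extDeriv_apply h, Fin.sum_univ_two, h0, h1]
  simp [pd, sub_eq_add_neg]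

theorem cov_bas (V : Eu 5) (i : Fin 5) : cov c y V ![bas i] = ell c y i ^ 2 / vol c y * V i :=
  f1_bas _ i
theorem cov2_bas {A : Fin 5 → Fin 5 → ℝ} (h : ∀ i j, A i j = -A j i) (i j : Fin 5) :
    cov2 c y A ![bas i, bas j] = ell c y i ^ 2 * ell c y j ^ 2 / vol c y * A i j :=
  f2_bas (fun i j => by rw [h i j]; ring) i j
theorem vec_cov (hy : y ∈ DR c) (V : Eu 5) : vec c y (cov c y V) = V := by
  funext i
  have := (ell_pos hy i).ne'
  have := (vol_pos hy).ne'
  rw [vec, cov_bas]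
  field_simp
theorem cov_vec (hy : y ∈ DR c) (α : Alt 5 1) : cov c y (vec c y α) = α := comp_ext1 fun i => by
  have := (ell_pos hy i).ne'
  have := (vol_pos hy).ne'
  rw [cov_bas, vec]
  field_simp
theorem vec_add (α β : Alt 5 1) : vec c y (α + β) = vec c y α + vec c y β := by
  funext i
  simp [vec, mul_add]
theorem vec_smul (t : ℝ) (α : Alt 5 1) : vec c y (t • α) = t • vec c y α := by
  funext i
  simp only [vec, ContinuousAlternatingMap.smul_apply, Pi.smul_apply, smul_eq_mul]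
  ring
theorem vec_zero : vec c y 0 = 0 := by
  funext i
  simp [vec]
theorem cov_add (V W : Eu 5) : cov c y (V + W) = cov c y V + cov c y W := comp_ext1 fun i => by
  simp [cov_bas, mul_add]
theorem cov_zero : cov c y 0 = 0 := comp_ext1 fun i => by simp [cov_bas]
theorem cov2_zero : cov2 c y 0 = 0 := comp_ext2 fun i j => by
  rw [cov2_bas (by simp)]
  simp

/-- The pairing of a 1-form with the form of a vector density. -/
theorem ipUp_cov (hy : y ∈ DR c) (α : Alt 5 1) (V : Eu 5) :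
    ipUp c y α (cov c y V) * vol c y = ∑ i, α ![bas i] * V i := by
  rw [ipUp_one_deg, Finset.sum_mul]
  refine Finset.sum_congr rfl fun i _ => ?_
  have := (ell_pos hy i).ne'
  have := (vol_pos hy).ne'
  rw [cov_bas]
  field_simp
theorem ipUp_vec (α β : Alt 5 1) :
    ipUp c y α β * vol c y = ∑ i, α ![bas i] * vec c y β i := by
  rw [ipUp_one_deg, Finset.sum_mul]
  refine Finset.sum_congr rfl fun i _ => ?_
  rw [vec]
  ring
theorem ipUp_cov2 (hy : y ∈ DR c) (α : Alt 5 2) {A : Fin 5 → Fin 5 → ℝ}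
    (h : ∀ i j, A i j = -A j i) :
    ipUp c y α (cov2 c y A) * vol c y = 1 / 2 * ∑ i, ∑ j, α ![bas i, bas j] * A i j := by
  rw [ipUp_two_deg, mul_assoc, Finset.sum_mul]
  congr 1
  refine Finset.sum_congr rfl fun i _ => ?_
  rw [Finset.sum_mul]
  refine Finset.sum_congr rfl fun j _ => ?_
  have := (ell_pos hy i).ne'
  have := (ell_pos hy j).ne'
  have := (vol_pos hy).ne'
  rw [cov2_bas h]
  field_simp

theorem contDiffOn_vec {α : Eu 5 → Alt 5 1} {s : Set (Eu 5)} (hs : s ⊆ DR c)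
    (h : ContDiffOn ℝ ∞ α s) : ContDiffOn ℝ ∞ (fun y => vec c y (α y)) s :=
  contDiffOn_pi.2 fun i => ((contDiffOn_vol.mono hs).div (((contDiffOn_ell i).mono hs).pow 2)
    fun _ hy => pow_ne_zero _ (ell_pos (hs hy) i).ne').mul ((comp_ev _).comp_contDiffOn h)
theorem contDiffOn_cov {V : Eu 5 → Eu 5} {s : Set (Eu 5)} (hs : s ⊆ DR c)
    (h : ContDiffOn ℝ ∞ V s) : ContDiffOn ℝ ∞ (fun y => cov c y (V y)) s :=
  contDiff_f1.comp_contDiffOn (contDiffOn_pi.2 fun i =>
    ((((contDiffOn_ell i).mono hs).pow 2).div (contDiffOn_vol.mono hs)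
      fun _ hy => (vol_pos (hs hy)).ne').mul (contDiffOn_pi.1 h i))
theorem contDiffOn_cov2 {A : Eu 5 → Fin 5 → Fin 5 → ℝ} {s : Set (Eu 5)} (hs : s ⊆ DR c)
    (h : ContDiffOn ℝ ∞ A s) : ContDiffOn ℝ ∞ (fun y => cov2 c y (A y)) s :=
  contDiff_f2.comp_contDiffOn (contDiffOn_pi.2 fun i => contDiffOn_pi.2 fun j =>
    (((((contDiffOn_ell i).mono hs).pow 2).mul (((contDiffOn_ell j).mono hs).pow 2)).div
      (contDiffOn_vol.mono hs) fun _ hy => (vol_pos (hs hy)).ne').mul
        (contDiffOn_pi.1 (contDiffOn_pi.1 h i) j))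

end Pool.Agent.Lib.MP_75c153_gt.Ft
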