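import Pool.Agent.Lib.MP_75c153_gt.Ft.SBas

/-! Extension to all charts of a form given in one chart. -/

open MeasureTheory Filter Topology Set
open scoped ContDiff InnerProductSpace

namespace Pool.Agent.Lib.MP_75c153_gt.Ft

open Pool.Agent.Lib.MP_570070_gt.An

variable {c : Par} {P : Type} {Γ : Gl c P} {k l : ℕ}

theorem ext_contDiffAt {F : Eu 5 → Alt 5 k} {y : Eu 5}
    (h : ∀ v : Fin k → Eu 5, ContDiffAt ℝ ∞ (fun z => F z v) y) : ContDiffAt ℝ ∞ F y := by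
  let ev : Alt 5 k →L[ℝ] ((Fin k → Fin 5) → ℝ) := ContinuousLinearMap.pi fun I =>
    ContinuousAlternatingMap.apply ℝ (Eu 5) ℝ fun l => Pi.basisFun ℝ (Fin 5) (I l)
  obtain ⟨g, hg⟩ := ContinuousLinearMap.HasLeftInverse.of_injective_of_finiteDimensional (f := ev)
    fun α β e => ContinuousAlternatingMap.toAlternatingMap_injective
      ((Pi.basisFun ℝ (Fin 5)).ext_alternating fun I _ => congrFun e I)
  rw [show F = fun z => g (ev (F z)) from funext fun z => (hg (F z)).symm]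
  exact g.contDiff.contDiffAt.comp y (contDiffAt_pi.2 fun I => h _)

theorem ext_contDiffAt_comp {α : Eu 5 → Alt 5 k} {A : Eu 5 → Eu 5 →L[ℝ] Eu 5} {y : Eu 5}
    (hα : ContDiffAt ℝ ∞ α y) (hA : ContDiffAt ℝ ∞ A y) :
    ContDiffAt ℝ ∞ (fun z => (α z).compContinuousLinearMap (A z)) y := by
  refine ext_contDiffAt fun v => ?_
  exact ((ContinuousAlternatingMap.toContinuousMultilinearMapCLM ℝ : Alt 5 k →L[ℝ]
    _).analyticAt_uncurry_of_multilinear.contDiffAt (n := ∞)).comp y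
    (hα.prodMk (contDiffAt_pi.2 fun l => hA.clm_apply (contDiffAt_const (c := v l))))

open Classical in
/-- Extension to all charts of a form given in the chart b of the piece p₀. -/
noncomputable def xt (Γ : Gl c P) (p₀ : P) (b : Bool) (α : Eu 5 → Alt 5 k) : Fam P k := fun p y =>
  if h : ∃ x : Option (Ed c) × Eu 5, Link x.1 y x.2 ∧ cb x.2 = b ∧ Γ.go x.1 p = p₀ then
    (α h.choose.2).compContinuousLinearMap (lk h.choose.1 y h.choose.2) else 0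

/-- A compact subset of one chart. -/
structure IsK (c : Par) (b : Bool) (K : Set (Eu 5)) : Prop where
  cpt : IsCompact K
  sub : K ⊆ DRb c b

/-- Smooth in the chart b, with support in the compact set K. -/
structure IsQ (c : Par) (b : Bool) (K : Set (Eu 5)) (α : Eu 5 → Alt 5 k) : Prop where
  isK : IsK c b K
  smooth : ContDiffOn ℝ ∞ α (DRb c b)
  supp : ∀ y ∈ DRb c b, α y ≠ 0 → y ∈ K

variable {b : Bool} {K K' S : Set (Eu 5)} {α : Eu 5 → Alt 5 k} {p₀ p : P} {y y' : Eu 5}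
  {o : Option (Ed c)} {Ω Ω' : Fam P k}

theorem IsK.subDR (h : IsK c b K) : K ⊆ DR c := fun _ hy => (h.sub hy).1
theorem IsK.union (h : IsK c b K) (h' : IsK c b K') : IsK c b (K ∪ K') :=
  ⟨h.cpt.union h'.cpt, union_subset h.sub h'.sub⟩

theorem ext_zero (A : Eu 5 →L[ℝ] Eu 5) : (0 : Alt 5 k).compContinuousLinearMap A = 0 := rfl

theorem ext_smul (t : ℝ) (a : Alt 5 k) (A : Eu 5 →L[ℝ] Eu 5) :
    (t • a).compContinuousLinearMap A = t • a.compContinuousLinearMap A := rfl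

theorem ext_comp (a : Alt 5 k) (A B : Eu 5 →L[ℝ] Eu 5) :
    (a.compContinuousLinearMap A).compContinuousLinearMap B =
      a.compContinuousLinearMap (A.comp B) := rfl

theorem ext_id (a : Alt 5 k) :
    a.compContinuousLinearMap (ContinuousLinearMap.id ℝ (Eu 5)) = a := rfl

/-- Link.eq_of_go, Link.unique. -/
theorem xt_link (h : Link o y y') (hb : cb y' = b) (hp : Γ.go o p = p₀) :
    xt Γ p₀ b α p y = (α y').compContinuousLinearMap (lk o y y') := by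
  have h0 : ∃ x : Option (Ed c) × Eu 5, Link x.1 y x.2 ∧ cb x.2 = b ∧ Γ.go x.1 p = p₀ :=
    ⟨(o, y'), h, hb, hp⟩
  obtain ⟨h1, h2, h3⟩ := h0.choose_spec
  have e1 : h0.choose.1 = o := h1.eq_of_go h (h3.trans hp.symm)
  rw [e1] at h1
  rw [xt, dif_pos h0, e1, h.unique h1 (h2.trans hb.symm)]

/-- xt_link with Same.refl and iv_self. -/
theorem xt_self (hy : y ∈ DRb c b) : xt Γ p₀ b α p₀ y = α y := by
  rw [xt_link (o := none) (p₀ := p₀) (p := p₀) (Link.refl hy.1) hy.2 rfl, lk_none, iv_self hy.1,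
    ext_id]

theorem xt_ne (h : xt Γ p₀ b α p y ≠ 0) :
    ∃ o y', Link o y y' ∧ cb y' = b ∧ Γ.go o p = p₀ ∧ α y' ≠ 0 := by
  by_cases h0 : ∃ x : Option (Ed c) × Eu 5, Link x.1 y x.2 ∧ cb x.2 = b ∧ Γ.go x.1 p = p₀
  · obtain ⟨⟨o, y'⟩, h1, h2, h3⟩ := h0
    exact ⟨o, y', h1, h2, h3, fun h4 => h (by rw [xt_link h1 h2 h3, h4, ext_zero])⟩
  · exact absurd (dif_neg h0) h

theorem IsQ.lk (h : IsQ c b K α) (p₀ : P) : LK Γ p₀ K (xt Γ p₀ b α) := fun _ _ _ h1 =>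
  let ⟨o, y', h2, h3, h4, h5⟩ := xt_ne h1
  ⟨o, y', h.supp y' ⟨h2.mem', h3⟩ h5, h2, h4⟩

theorem LK.mono (h : LK Γ p₀ K Ω) (hK : K ⊆ K') : LK Γ p₀ K' Ω := fun p y hy h1 =>
  let ⟨o, y', h2, h3⟩ := h p y hy h1
  ⟨o, y', hK h2, h3⟩

theorem LK.of_zero (h : LK Γ p₀ K Ω) {Θ : Fam P l} (h' : ∀ p, ∀ y ∈ DR c, Ω p y = 0 → Θ p y = 0) :
    LK Γ p₀ K Θ := fun p y hy h1 => h p y hy fun h2 => h1 (h' p y hy h2)

theorem LK.add (h : LK Γ p₀ K Ω) (h' : LK Γ p₀ K Ω') : LK Γ p₀ K (Ω + Ω') := fun p y hy h1 => by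
  by_cases h2 : Ω p y = 0
  · exact h' p y hy fun h3 => h1 (by simp [h2, h3])
  · exact h p y hy h2

theorem LK.smul (h : LK Γ p₀ K Ω) (t : ℝ) : LK Γ p₀ K (t • Ω) :=
  h.of_zero fun p y _ h1 => by simp [h1]

theorem LK.sub (h : LK Γ p₀ K Ω) (h' : LK Γ p₀ K Ω') : LK Γ p₀ K (Ω - Ω') := fun p y hy h1 => by
  by_cases h2 : Ω p y = 0
  · exact h' p y hy fun h3 => h1 (by simp [h2, h3])
  · exact h p y hy h2

theorem LK.sum {ι : Type} (s : Finset ι) {A : ι → Fam P k} (h : ∀ i ∈ s, LK Γ p₀ K (A i)) :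
    LK Γ p₀ K (∑ i ∈ s, A i) := fun p y hy h1 => by
  rw [Finset.sum_apply, Finset.sum_apply] at h1
  obtain ⟨i, hi, h2⟩ := Finset.exists_ne_zero_of_sum_ne_zero h1
  exact h i hi p y hy h2

/-- Link.same_right. -/
theorem LK.same (h : LK Γ p₀ K Ω) (hK : ∀ y ∈ K, ∃ y' ∈ K', Same c y y') : LK Γ p₀ K' Ω :=
  fun p y hy h1 =>
    let ⟨o, y', h2, h3, h4⟩ := h p y hy h1
    let ⟨y'', h5, h6⟩ := hK y' h2
    ⟨o, y'', h5, h3.same_right h6, h4⟩

/-- Link.trans, Link.go_cmp. -/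
theorem LK.flip {e : Ed c} (h : LK Γ (Γ.σ e p₀) K Ω) (hK : ∀ y ∈ K, ∃ y' ∈ K', Flip e y y') :
    LK Γ p₀ K' Ω := fun p y hy h1 => by
  obtain ⟨o, y', h2, h3, h4⟩ := h p y hy h1
  obtain ⟨y'', h5, h6⟩ := hK y' h2
  have h7 : Link (some e) y' y'' := h6
  exact ⟨_, y'', h5, h3.trans h7, by rw [h3.go_cmp h7, h4]; exact Γ.invol e p₀⟩

theorem LK.inPiece (h : LK Γ p₀ K Ω) : InPiece Γ p₀ Ω := fun p y hy h1 => by
  obtain ⟨o, y', -, h3, h4⟩ := h p y hy h1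
  cases o with
  | none => exact Or.inl h4
  | some e => exact Or.inr ⟨e, h4, Flip.sc_lt h3⟩

/-- In the piece itself the identification is of the first kind (Gl.ne). -/
theorem LK.self (h : LK Γ p₀ K Ω) (hy : y ∈ DR c) (h1 : Ω p₀ y ≠ 0) :
    ∃ y' ∈ K, Same c y y' := by
  obtain ⟨o, y', h2, h3, h4⟩ := h p₀ y hy h1
  cases o with
  | none => exact ⟨y', h2, h3⟩
  | some e => exact absurd h4 (Γ.ne e p₀)

theorem LK.mem (h : LK Γ p₀ K Ω) (hK : K ⊆ DRb c b) (hy : y ∈ DRb c b) (h1 : Ω p₀ y ≠ 0) :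
    y ∈ K := by
  obtain ⟨y', h2, h3⟩ := h.self hy.1 h1
  rwa [← h3.eq_of_cb ((hK h2).2.trans hy.2.symm)]

/-- eventually_not_link for the finitely many o. -/
theorem LK.eventually (h : LK Γ p₀ K Ω) (hK : IsCompact K) (hD : K ⊆ DR c) (hy : y ∈ DR c)
    (h' : ¬ ∃ o, ∃ y' ∈ K, Link o y y' ∧ Γ.go o p = p₀) : ∀ᶠ z in 𝓝 y, Ω p z = 0 := by
  have h2 : ∀ᶠ z in 𝓝 y, ∀ o, Γ.go o p = p₀ → ∀ y' ∈ K, ¬ Link o z y' := by
    refine eventually_all.2 fun o => ?_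
    by_cases h3 : Γ.go o p = p₀
    · exact (eventually_not_link hK hD hy fun y' h4 h5 => h' ⟨o, y', h4, h5, h3⟩).mono
        fun z hz _ => hz
    · exact Eventually.of_forall fun _ h4 => absurd h4 h3
  filter_upwards [isOpen_DR.eventually_mem hy, h2] with z h3 h4
  by_contra h5
  obtain ⟨o, y', h6, h7, h8⟩ := h p z h3 h5
  exact h4 o h8 y' h6 h7

theorem LK.d (h : LK Γ p₀ K Ω) (hK : IsCompact K) (hD : K ⊆ DR c) : LK Γ p₀ K (dF Ω) :=
  fun _ _ hy h1 => by_contra fun h2 => h1 (dF_eq_zero (h.eventually hK hD hy h2))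

/-- IsT.of_link. Smoothness: Link.exists_local, cb_eventually, xt_link, ext_contDiffAt_comp if y is
identified with a point of the chart, LK.eventually otherwise. Compatibility: Link.trans,
Link.go_cmp, Link.lk_comp. -/
theorem IsQ.isT (h : IsQ c b K α) (p₀ : P) : IsT Γ (xt Γ p₀ b α) := by
  refine IsT.of_link (fun p y hy => ContDiffAt.contDiffWithinAt ?_) (fun p o' y y'' f => ?_) ?_
  · by_cases h1 : ∃ o, ∃ y' ∈ K, Link o y y' ∧ Γ.go o p = p₀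
    · obtain ⟨o, y', h2, f, h3⟩ := h1
      have hb := (h.isK.sub h2).2
      refine (ext_contDiffAt_comp (α := α ∘ lkMap o (cb y')) (ContDiffAt.comp y ?_ f.contDiffAt)
        (f.contDiffAt.fderiv_right (m := ∞) le_rfl)).congr_of_eventuallyEq
        (f.eventually.mono fun z hz => ?_)
      · rw [f.map_eq]
        exact h.smooth.contDiffAt ((isOpen_DRb b).mem_nhds (h.isK.sub h2))
      · rw [xt_link hz.1 (hz.2.trans hb) h3, Ft.lk, hz.2]
        rfl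
    · exact contDiffAt_const.congr_of_eventuallyEq
        ((h.lk p₀).eventually h.isK.cpt h.isK.subDR hy h1)
  · by_cases h1 : ∃ o, ∃ y' ∈ K, Link o y y' ∧ Γ.go o p = p₀
    · obtain ⟨o, y', h2, g, h3⟩ := h1
      have hb := (h.isK.sub h2).2
      rw [xt_link g hb h3, xt_link (f.symm.trans g) hb
        (by rw [f.symm.go_cmp g, Γ.go_go, h3]), f.symm.lk_comp g, ext_comp,
        ContinuousLinearMap.comp_assoc, f.lk_inv, ContinuousLinearMap.comp_id]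
    · have h2 : xt Γ p₀ b α p y = 0 := by_contra fun h2 => h1 (h.lk p₀ p y f.mem h2)
      have h3 : xt Γ p₀ b α (Γ.go o' p) y'' = 0 := by_contra fun h3 => by
        obtain ⟨o, y', h4, g, h5⟩ := h.lk p₀ _ y'' f.mem' h3
        exact h1 ⟨_, y', h4, f.trans g, by rw [f.go_cmp g, h5]⟩
      rw [h2, h3, ext_zero]
  · refine (finite_range fun o => Γ.go o p₀).subset fun p ⟨y, hy, h1⟩ => ?_
    obtain ⟨o, -, -, -, h2⟩ := h.lk p₀ p y hy h1
    exact ⟨o, by rw [← h2]; exact Γ.go_go o p⟩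

theorem LK.isQ (h : LK Γ p₀ K Ω) (hT : IsT Γ Ω) (hK : IsK c b K) : IsQ c b K (Ω p₀) :=
  ⟨hK, (hT.smooth p₀).mono (DRb_subset b), fun _ hy h1 => h.mem hK.sub hy h1⟩

theorem ext_eq_of_LK (h : IsT Γ Ω) (h' : IsT Γ Ω') (g : LK Γ p₀ (DRb c b) Ω)
    (g' : LK Γ p₀ (DRb c b) Ω') (he : ∀ y ∈ DRb c b, Ω p₀ y = Ω' p₀ y) (p : P) (hy : y ∈ DR c) :
    Ω p y = Ω' p y := by
  by_cases h1 : ∃ o, ∃ y' ∈ DRb c b, Link o y y' ∧ Γ.go o p = p₀
  · obtain ⟨o, y', h2, f, h3⟩ := h1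
    rw [h.link p f, h'.link p f, h3, he y' h2]
  · rw [by_contra fun h2 : ¬ Ω p y = 0 => h1 (g p y hy h2),
      by_contra fun h2 : ¬ Ω' p y = 0 => h1 (g' p y hy h2)]

/-- Forms that live in one chart are determined by their values there (U.chart, U.ext_inner). -/
theorem UpL2.j_eq_of_chart (U : UpL2 Γ) (h : IsT Γ Ω) (h' : IsT Γ Ω')
    (g : LK Γ p₀ (DRb c b) Ω) (g' : LK Γ p₀ (DRb c b) Ω') (e : ∀ y ∈ DRb c b, Ω p₀ y = Ω' p₀ y) :
    U.j k Ω = U.j k Ω' :=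
  U.j_congr h' fun p _ hy => ext_eq_of_LK h h' g g' e p hy

theorem UpL2.inner_xt (U : UpL2 Γ) (h : IsQ c b K α) (h' : IsT Γ Ω) :
    ⟪U.j k (xt Γ p₀ b α), U.j k Ω⟫_ℝ = ∫ y in DRb c b, ipUp c y (α y) (Ω p₀ y) * vol c y := by
  rw [U.chart k p₀ b _ _ (h.isT p₀) h' ((h.lk p₀).mono h.isK.sub)]
  exact setIntegral_congr_fun (isOpen_DRb b).measurableSet fun y hy => by simp only [xt_self hy]

theorem UpL2.norm_xt (U : UpL2 Γ) (h : IsQ c b K α) :
    ‖U.j k (xt Γ p₀ b α)‖ ^ 2 = ∫ y in DRb c b, ipUp c y (α y) (α y) * vol c y := by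
  rw [← real_inner_self_eq_norm_sq, U.inner_xt h (h.isT p₀)]
  exact setIntegral_congr_fun (isOpen_DRb b).measurableSet fun y hy => by simp only [xt_self hy]

end Pool.Agent.Lib.MP_75c153_gt.Ft
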