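import Pool.Agent.Lib.MP_75c153_gt.Ft.Split

/-! More on the extension from one chart; comparison of norms. -/

open MeasureTheory Filter Topology Set
open scoped ContDiff InnerProductSpace

namespace Pool.Agent.Lib.MP_75c153_gt.Ft

open Pool.Agent.Lib.MP_570070_gt.An

variable {c : Par} {P : Type} {Γ : Gl c P} {k : ℕ} {b : Bool} {K K' : Set (Eu 5)}
  {α β : Eu 5 → Alt 5 k} {p₀ p : P} {y : Eu 5} {Ω : Fam P k}

theorem IsQ.mono (h : IsQ c b K α) (hK : IsK c b K') (hKK : K ⊆ K') : IsQ c b K' α :=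
  ⟨hK, h.smooth, fun y hy h1 => hKK (h.supp y hy h1)⟩

theorem IsQ.eventually (h : IsQ c b K α) (hy : y ∈ DRb c b) (h1 : y ∉ K) :
    ∀ᶠ z in 𝓝 y, α z = 0 := by
  filter_upwards [(isOpen_DRb b).eventually_mem hy,
    h.isK.cpt.isClosed.isOpen_compl.eventually_mem h1] with z h2 h3
  exact by_contra fun h4 => h3 (h.supp z h2 h4)

theorem IsQ.d (h : IsQ c b K α) : IsQ c b K (extDeriv α) :=
  ⟨h.isK, contDiffOn_extDeriv (isOpen_DRb b) h.smooth, fun _ hy h1 => by_contra fun h2 =>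
    h1 (dF_eq_zero (Ω := fun _ : Unit => α) (p := ()) (h.eventually hy h2))⟩

theorem IsQ.add (h : IsQ c b K α) (h' : IsQ c b K β) : IsQ c b K fun y => α y + β y :=
  ⟨h.isK, h.smooth.add h'.smooth, fun y hy h1 => by
    by_cases h2 : α y = 0
    · exact h'.supp y hy fun h3 => h1 (by simp [h2, h3])
    · exact h.supp y hy h2⟩

theorem IsQ.smul (h : IsQ c b K α) {w : Eu 5 → ℝ} (hw : ContDiffOn ℝ ∞ w (DRb c b)) :
    IsQ c b K fun y => w y • α y :=
  ⟨h.isK, hw.smul h.smooth, fun y hy h1 => h.supp y hy fun h2 => h1 (by simp [h2])⟩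

theorem IsT.isQ (h : IsT Γ Ω) (p : P) {w : Eu 5 → ℝ} (hw : ContDiffOn ℝ ∞ w (DRb c b))
    (hK : IsK c b K) (h1 : ∀ y ∈ DRb c b, w y ≠ 0 → Ω p y ≠ 0 → y ∈ K) :
    IsQ c b K fun y => w y • Ω p y :=
  ⟨hK, hw.smul ((h.smooth p).mono (DRb_subset b)), fun y hy h2 =>
    h1 y hy (fun h3 => h2 (by simp [h3])) fun h3 => h2 (by simp [h3])⟩

theorem dF_xt_self (hy : y ∈ DRb c b) : dF (xt Γ p₀ b α) p₀ y = extDeriv α y := by
  refine Filter.EventuallyEq.extDeriv_eq ?_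
  filter_upwards [(isOpen_DRb b).eventually_mem hy] with z hz using xt_self hz

/-- The extension commutes with d. -/
theorem IsQ.dF_xt (h : IsQ c b K α) (p₀ p : P) (hy : y ∈ DR c) :
    dF (xt Γ p₀ b α) p y = xt Γ p₀ b (extDeriv α) p y :=
  ext_eq_of_LK (h.isT p₀).dF (h.d.isT p₀) (((h.lk p₀).d h.isK.cpt h.isK.subDR).mono h.isK.sub)
    ((h.d.lk p₀).mono h.isK.sub) (fun z hz => by rw [dF_xt_self hz, xt_self hz]) p hy

theorem IsQ.j_dF (U : UpL2 Γ) (h : IsQ c b K α) (p₀ : P) :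
    U.j (k + 1) (dF (xt Γ p₀ b α)) = U.j (k + 1) (xt Γ p₀ b (extDeriv α)) :=
  U.j_congr (h.d.isT p₀) fun p _ hy => h.dF_xt p₀ p hy

theorem xt_add (α β : Eu 5 → Alt 5 k) :
    xt Γ p₀ b (fun y => α y + β y) = xt Γ p₀ b α + xt Γ p₀ b β := by
  funext p y
  simp only [xt, Pi.add_apply]
  split_ifs
  exacts [rfl, (add_zero _).symm]

theorem xt_smul (t : ℝ) (α : Eu 5 → Alt 5 k) :
    xt Γ p₀ b (fun y => t • α y) = t • xt Γ p₀ b α := by
  funext p y
  simp only [xt, Pi.smul_apply]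
  split_ifs
  exacts [rfl, (smul_zero _).symm]

theorem xt_congr (h : ∀ y ∈ DRb c b, α y = β y) : xt Γ p₀ b α = xt Γ p₀ b β := by
  funext p y
  simp only [xt]
  split_ifs with h1
  exacts [by rw [h _ ⟨h1.choose_spec.1.mem', h1.choose_spec.2.1⟩], rfl]

theorem LK.eq_xt (g : LK Γ p₀ K Ω) (h : IsT Γ Ω) (hK : IsK c b K) (p : P) (hy : y ∈ DR c) :
    Ω p y = xt Γ p₀ b (Ω p₀) p y :=
  ext_eq_of_LK h ((g.isQ h hK).isT p₀) (g.mono hK.sub) (((g.isQ h hK).lk p₀).mono hK.sub)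
    (fun _ hz => (xt_self hz).symm) p hy

theorem xt_mul_link {o : Option (Ed c)} {y' : Eu 5} (h : IsT Γ Ω) (w : Eu 5 → ℝ)
    (hl : Link o y y') (hb : cb y' = b) (hp : Γ.go o p = p₀) :
    xt Γ p₀ b (fun y => w y • Ω p₀ y) p y = w y' • Ω p y := by
  rw [xt_link hl hb hp, ext_smul, h.link p hl, hp]

/-- Bounds for the metric on a compact set. -/
theorem ext3_ell_bd (hK : IsCompact K) (hD : K ⊆ DR c) : ∃ L : ℝ, 1 ≤ L ∧ ∀ y ∈ K,
    (∀ i, ell c y i ≤ L ∧ (ell c y i)⁻¹ ≤ L) ∧ vol c y ≤ L ∧ (vol c y)⁻¹ ≤ L := by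
  have hc : ContinuousOn (fun y => (∑ i, (ell c y i + (ell c y i)⁻¹)) + (vol c y + (vol c y)⁻¹))
      (DR c) := (continuousOn_finsetSum _ fun i _ => (contDiffOn_ell i).continuousOn.add
        ((contDiffOn_ell i).continuousOn.inv₀ fun y hy => (ell_pos hy i).ne')).add
      (contDiffOn_vol.continuousOn.add (contDiffOn_vol.continuousOn.inv₀ fun y hy =>
        (vol_pos hy).ne'))
  obtain ⟨A, hA⟩ := hK.bddAbove_image (hc.mono hD)
  refine ⟨max 1 A, le_max_left _ _, fun y hy => ?_⟩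
  have h1 : _ ≤ max 1 A := (hA ⟨y, hy, rfl⟩).trans (le_max_right _ _)
  have h2 := fun i => ell_pos (hD hy) i
  have h3 := fun i => inv_pos.2 (h2 i)
  have h4 := vol_pos (hD hy)
  have h5 := inv_pos.2 h4
  have h6 := fun i => Finset.single_le_sum (f := fun i => ell c y i + (ell c y i)⁻¹)
    (fun i _ => (add_pos (h2 i) (h3 i)).le) (Finset.mem_univ i)
  have h7 := Finset.sum_nonneg (s := Finset.univ) fun i _ => (add_pos (h2 i) (h3 i)).le
  simp only at h1 h6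
  exact ⟨fun i => ⟨by linarith [h6 i, h3 i], by linarith [h6 i, h2 i]⟩, by linarith, by linarith⟩

/-- Comparison of the metric norm with the norm of the coordinates on a compact set. -/
theorem ext3_ipUp_cmp (hK : IsCompact K) (hD : K ⊆ DR c) (k : ℕ) : ∃ C : ℝ, 0 ≤ C ∧ ∀ y ∈ K,
    ∀ a : Alt 5 k, ipUp c y a a * vol c y ≤ C * ∑ I : Fin k → Fin 5, (a fun l => bas (I l)) ^ 2 ∧
      ∑ I : Fin k → Fin 5, (a fun l => bas (I l)) ^ 2 ≤ C * (ipUp c y a a * vol c y) := by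
  obtain ⟨L, hL, H⟩ := ext3_ell_bd hK hD
  refine ⟨k.factorial * (L ^ k) ^ 2 * L, by positivity, fun y hy a => ?_⟩
  obtain ⟨h1, h2, h3⟩ := H y hy
  have hv := vol_pos (hD hy)
  have hl := fun i => ell_pos (hD hy) i
  have hf : (1 : ℝ) ≤ k.factorial := Nat.one_le_cast.2 k.factorial_pos
  have e1 : ipUp c y a a = ((k.factorial : ℝ))⁻¹ * ∑ I : Fin k → Fin 5,
      (∏ l, (ell c y (I l))⁻¹) ^ 2 * (a fun l => bas (I l)) ^ 2 := by
    rw [ipUp]
    exact congrArg _ (Finset.sum_congr rfl fun I _ => by rw [apply_fr]; ring)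
  have b1 : ∀ I : Fin k → Fin 5, ∏ l, (ell c y (I l))⁻¹ ≤ L ^ k := fun I => by
    simpa using Finset.prod_le_prod (s := Finset.univ) (fun l _ => (inv_pos.2 (hl (I l))).le)
      fun l _ => (h1 (I l)).2
  have b2 : ∀ I : Fin k → Fin 5, 1 ≤ L ^ k * ∏ l, (ell c y (I l))⁻¹ := fun I => by
    have : ∏ l, ell c y (I l) ≤ L ^ k := by
      simpa using Finset.prod_le_prod (s := Finset.univ) (fun l _ => (hl (I l)).le)
        fun l _ => (h1 (I l)).1
    rw [Finset.prod_inv_distrib, ← div_eq_mul_inv,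
      one_le_div (Finset.prod_pos fun l _ => hl (I l))]
    exact this
  have p1 : ∀ I : Fin k → Fin 5, 0 ≤ ∏ l, (ell c y (I l))⁻¹ := fun I =>
    Finset.prod_nonneg fun l _ => (inv_pos.2 (hl (I l))).le
  set S := ∑ I : Fin k → Fin 5, (a fun l => bas (I l)) ^ 2
  set T := ∑ I : Fin k → Fin 5, (∏ l, (ell c y (I l))⁻¹) ^ 2 * (a fun l => bas (I l)) ^ 2
  have s0 : 0 ≤ S := Finset.sum_nonneg fun _ _ => sq_nonneg _
  have t0 : 0 ≤ T := Finset.sum_nonneg fun _ _ => by positivity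
  have s1 : T ≤ (L ^ k) ^ 2 * S := by
    rw [Finset.mul_sum]
    exact Finset.sum_le_sum fun I _ => mul_le_mul_of_nonneg_right
      (pow_le_pow_left₀ (p1 I) (b1 I) 2) (sq_nonneg _)
  have s2 : S ≤ (L ^ k) ^ 2 * T := by
    rw [Finset.mul_sum]
    refine Finset.sum_le_sum fun I _ => ?_
    rw [← mul_assoc, ← mul_pow]
    exact le_mul_of_one_le_left (sq_nonneg _) (one_le_pow₀ (b2 I))
  have v1 : 1 ≤ L * vol c y := by
    rw [← div_le_iff₀ hv, one_div]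
    exact h3
  rw [e1]
  constructor
  · have : ((k.factorial : ℝ))⁻¹ ≤ k.factorial := (inv_le_one_of_one_le₀ hf).trans hf
    calc _ ≤ k.factorial * ((L ^ k) ^ 2 * S) * L := by gcongr
      _ = _ := by ring
  · calc S ≤ (L ^ k) ^ 2 * T * (L * vol c y) :=
          s2.trans (le_mul_of_one_le_right (by positivity) v1)
      _ = _ := by field_simp

end Pool.Agent.Lib.MP_75c153_gt.Ft
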