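import Pool.Agent.Lib.MP_75c153_gt.Ft.GeoB

/-!
The two kinds of identification.
-/

open MeasureTheory Filter Topology Set
open scoped ContDiff InnerProductSpace

namespace Pool.Agent.Lib.MP_75c153_gt.Ft

open Pool.Agent.Lib.MP_570070_gt.An

noncomputable section

variable {c : Par} {e : Ed c} {y y' y'' : Eu 5} {o o' : Option (Ed c)}

theorem sph_sq (y : Eu 5) : sph y 0 ^ 2 + sph y 1 ^ 2 + sph y 2 ^ 2 = 1 := by
  simpa only [dot, ← sq] using dot_sph y

theorem nv_sq (h : 0 < rsq e y) : nv e y 0 ^ 2 + nv e y 1 ^ 2 + nv e y 2 ^ 2 = 1 := by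
  simpa only [dot, ← sq] using dot_nv h

theorem Same.refl (hy : y ∈ DR c) : Same c y y := ⟨hy, hy, rfl, rfl, rfl, rfl⟩

theorem Same.symm (h : Same c y y') : Same c y' y :=
  ⟨h.2.1, h.1, h.2.2.1.symm, h.2.2.2.1.symm, h.2.2.2.2.1.symm, h.2.2.2.2.2.symm⟩

theorem Same.trans (h : Same c y y') (h' : Same c y' y'') : Same c y y'' :=
  ⟨h.1, h'.2.1, h'.2.2.1.trans h.2.2.1, h'.2.2.2.1.trans h.2.2.2.1,
    h'.2.2.2.2.1.trans h.2.2.2.2.1, h'.2.2.2.2.2.trans h.2.2.2.2.2⟩

theorem Same.sph_eq (h : Same c y y') : sph y' = sph y := h.2.2.2.2.2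
theorem Same.xp_eq (h : Same c y y') : xp y' = xp y := eu3_ext h.2.2.1 h.2.2.2.1 h.2.2.2.2.1
theorem Same.rsq_eq (h : Same c y y') (e : Ed c) : rsq e y' = rsq e y :=
  rsq_congr e h.2.2.1 h.2.2.2.1 h.2.2.2.2.1
theorem Same.sc_eq (h : Same c y y') (e : Ed c) : sc e y' = sc e y :=
  sc_congr e h.2.2.1 h.2.2.2.1 h.2.2.2.2.1
theorem Same.kap_eq (h : Same c y y') (e : Ed c) : kap e y' = kap e y :=
  kap_congr e h.2.2.1 h.2.2.2.1 h.2.2.2.2.1
theorem Same.bet_eq (h : Same c y y') (e : Ed c) : bet e y' = bet e y :=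
  bet_congr e h.2.2.1 h.2.2.2.1 h.2.2.2.2.1
theorem Same.lam_eq (h : Same c y y') : lam c y' = lam c y :=
  lam_congr h.2.2.1 h.2.2.2.1 h.2.2.2.2.1
theorem Same.eta_eq (h : Same c y y') : eta c y' = eta c y :=
  eta_congr h.2.2.1 h.2.2.2.1 h.2.2.2.2.1
theorem Same.nv_eq (h : Same c y y') (e : Ed c) : nv e y' = nv e y := by
  rw [nv, nv, h.rsq_eq, h.2.2.1, h.2.2.2.1, h.2.2.2.2.1]

theorem Same.eq_of_cb (h : Same c y y') (hb : cb y' = cb y) : y' = y :=
  eq_of_sph h.2.2.1 h.2.2.2.1 h.2.2.2.2.1 h.sph_eq hb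

theorem Same.mu_add (h : Same c y y') (hb : cb y' ≠ cb y) : mu y' + mu y = 2 := by
  rw [← one_add_sph, ← one_add_sph, h.sph_eq, Bool.eq_not.2 hb, tau_not]
  ring

/-- The two parts of the partition of unity of the sphere. -/
theorem Same.rho_add (h : Same c y y') (hb : cb y' ≠ cb y) : rho y' + rho y = 1 := by
  rw [rho_eq, rho_eq, h.sph_eq, Bool.eq_not.2 hb, tau_not,
    show 1 / 2 + -tau (cb y) * sph y 2 = 1 - (1 / 2 + tau (cb y) * sph y 2) by ring,
    smoothTransition_one_sub, sub_add_cancel]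

theorem Same.rho_eq (h : Same c y y') (hb : cb y' ≠ cb y) : rho y' = 1 - rho y :=
  eq_sub_of_add_eq (h.rho_add hb)

theorem Same.eq_invMap (h : Same c y y') : y' = invMap (cb y') y := by
  rw [invMap, ← h.sph_eq, ← h.2.2.1, ← h.2.2.2.1, ← h.2.2.2.2.1]
  exact (pt_sph y').symm

theorem Same.zsq_mul (h : Same c y y') (hb : cb y' ≠ cb y) : zsq y * zsq y' = 1 := by
  have h1 := h.mu_add hb
  have h2 := (one_add_zsq_pos y).ne'
  have h3 := (one_add_zsq_pos y').ne'
  rw [mu, mu] at h1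
  field_simp at h1
  linarith

/-- The point of the piece in the square b. -/
theorem same_invMap {b : Bool} (hy : y ∈ DR c) (h : -3 / 5 ≤ tau b * sph y 2) :
    Same c y (invMap b y) ∧ cb (invMap b y) = b ∧ zsq (invMap b y) ≤ 4 := by
  obtain ⟨h1, h2⟩ : cb (invMap b y) = b ∧ zsq (invMap b y) ≤ 4 := pt_mem (xp y) (dot_sph y) h
  obtain ⟨h3, h4⟩ := abs_le_of_zsq h2
  exact ⟨⟨hy, mem_DR_congr (y := y) rfl rfl rfl hy (by linarith) (by linarith), rfl, rfl, rfl,
    sph_pt (dot_sph y) (by linarith) h1⟩, h1, h2⟩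

theorem mu_le_iff {t : ℝ} (ht : 0 ≤ t) : mu y ≤ 2 / (1 + t) ↔ t ≤ zsq y := by
  rw [mu, div_le_div_iff_of_pos_left two_pos (one_add_zsq_pos y) (by linarith), add_le_add_iff_left]

/-- Points that are not close to the centre of their square are seen in the other square. -/
theorem same_other (hy : y ∈ DR c) (h : 1 / 4 ≤ zsq y) :
    Same c y (invMap (!cb y) y) ∧ cb (invMap (!cb y) y) = (!cb y) ∧
      zsq (invMap (!cb y) y) ≤ 4 := by
  refine same_invMap hy ?_
  have h1 := (mu_le_iff (by norm_num)).2 h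
  rw [← one_add_sph] at h1
  rw [tau_not]
  linarith

theorem same_other' (hy : y ∈ DR c) (h : 1 / 9 < zsq y) :
    Same c y (invMap (!cb y) y) ∧ cb (invMap (!cb y) y) = !cb y := by
  have h0 : -4 / 5 < tau (!cb y) * sph y 2 := by
    have h1 : mu y < 9 / 5 := by
      rw [mu, div_lt_iff₀ (one_add_zsq_pos y)]
      linarith
    rw [← one_add_sph] at h1
    rw [tau_not]
    linarith
  obtain ⟨h1, h2⟩ : cb (invMap (!cb y) y) = (!cb y) ∧ zsq (invMap (!cb y) y) < 9 :=
    pt_mem' (xp y) (dot_sph y) h0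
  obtain ⟨h3, h4⟩ := abs_lt_of_zsq h2
  exact ⟨⟨hy, mem_DR_congr (y := y) rfl rfl rfl hy h3 h4, rfl, rfl, rfl,
    sph_pt (dot_sph y) (by linarith) h1⟩, h1⟩

theorem exists_same (hy : y ∈ DR c) (h : 1 / 9 < zsq y) :
    ∃ y', Same c y y' ∧ cb y' = !cb y := ⟨_, same_other' hy h⟩

/-- Every point of a piece has a representative in a unit disc. -/
theorem exists_same_le (hy : y ∈ DR c) : ∃ y', Same c y y' ∧ zsq y' ≤ 1 := by
  rcases le_total (zsq y) 1 with h | h
  · exact ⟨y, .refl hy, h⟩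
  · obtain ⟨h1, h2, -⟩ := same_other hy (by linarith)
    refine ⟨_, h1, ?_⟩
    have h3 := h1.zsq_mul (by rw [h2]; simp)
    nlinarith [zsq_nonneg (invMap (!cb y) y)]

theorem Flip.sc_eq (h : Flip e y y') : sc e y' = -sc e y := h.2.2.1
theorem Flip.nv_eq (h : Flip e y y') : nv e y' = rf e (sph y) := h.2.2.2.1
theorem Flip.sph_eq (h : Flip e y y') : sph y' = rf e (nv e y) := h.2.2.2.2

theorem Flip.symm (h : Flip e y y') : Flip e y' y :=
  ⟨h.2.1, h.1, by rw [h.sc_eq, neg_neg], by rw [h.sph_eq, rf_rf], by rw [h.nv_eq, rf_rf]⟩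

theorem Flip.sc_lt (h : Flip e y y') : sc e y < 1 := by
  have h1 := (h.2.1.1 e).2
  rw [h.2.2.1] at h1
  linarith

theorem Flip.edge_eq {e' : Ed c} (h : Flip e y y') (h' : Flip e' y y'') : e = e' := by
  by_contra hne
  have h1 := sc_disj h.1 hne (by linarith [h.sc_lt])
  linarith [h'.sc_lt]

theorem Flip.rsq_mul (h : Flip e y y') : rsq e y * rsq e y' = Real.exp (4 * mid e) := by
  have h1 := h.2.2.1
  have h2 : sg e ≠ 0 := fun h0 => by simpa [h0] using sg_sq e
  rw [sc, sc, ← mul_neg] at h1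
  have h3 := mul_left_cancel₀ h2 h1
  rw [← Real.exp_log (h.1.1 e).1, ← Real.exp_log (h.2.1.1 e).1, ← Real.exp_add]
  congr 1
  linarith

theorem Flip.sqrt_eq (h : Flip e y y') : Real.exp (2 * mid e) / √(rsq e y) = √(rsq e y') := by
  rw [div_eq_iff (Real.sqrt_pos.2 (h.1.1 e).1).ne', mul_comm √_, ← Real.sqrt_mul (h.1.1 e).1.le,
    h.rsq_mul, eq_comm, Real.sqrt_eq_iff_mul_self_eq (by positivity) (by positivity),
    ← Real.exp_add]
  congr 1
  ring

theorem Flip.same_left (h : Flip e y y') (h' : Same c y y'') : Flip e y'' y' :=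
  ⟨h'.2.1, h.2.1, by rw [h'.sc_eq, h.sc_eq], by rw [h'.sph_eq, h.nv_eq],
    by rw [h'.nv_eq, h.sph_eq]⟩

theorem Flip.same_right (h : Flip e y y') (h' : Same c y' y'') : Flip e y y'' :=
  (h.symm.same_left h').symm

theorem xp_eq_nv (h : 0 < rsq e y) : xp y = ![ctr e, 0, 0] + √(rsq e y) • nv e y := by
  have h1 := (Real.sqrt_pos.2 h).ne'
  refine eu3_ext ?_ ?_ ?_ <;> simp [xp_zero, xp_one, xp_two, nv_zero, nv_one, nv_two] <;>
    field_simp
  ring

theorem Flip.xp_eq (h : Flip e y y') :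
    xp y' = ![ctr e, 0, 0] + (Real.exp (2 * mid e) / √(rsq e y)) • rf e (sph y) := by
  rw [h.sqrt_eq, ← h.nv_eq, ← xp_eq_nv (h.2.1.1 e).1]

theorem Flip.unique (h : Flip e y y') (h' : Flip e y y'') : Same c y' y'' := by
  have h1 := h'.xp_eq.trans h.xp_eq.symm
  exact ⟨h.2.1, h'.2.1, congrFun h1 0, congrFun h1 1, congrFun h1 2, h'.sph_eq.trans h.sph_eq.symm⟩

theorem flipa_mem {z : Eu 5} (h0 : 0 < rsq e z) (h1 : -1 < sc e z) (h2 : sc e z < 1) :
    ∀ e' : Ed c, 0 < rsq e' z ∧ -1 < sc e' z := by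
  intro e'
  by_cases hne : e' = e
  · rw [hne]; exact ⟨h0, h1⟩
  have hm : (0 : ℝ) ≤ c.m := Nat.cast_nonneg _
  have hj : ∀ j : Fin (c.m + 1), (0 : ℝ) ≤ (j : ℕ) ∧ ((j : ℕ) : ℝ) ≤ c.m := fun j =>
    ⟨Nat.cast_nonneg _, by exact_mod_cast Nat.lt_succ_iff.1 j.2⟩
  have xp : ∀ x : ℝ, 0 ≤ x → (x + 1) ^ 2 ≤ Real.exp (2 * x) := fun x xp => by
    rw [two_mul, Real.exp_add, sq]
    exact mul_self_le_mul_self (by linarith) (Real.add_one_le_exp x)
  rcases e with _ | j
  · rcases e' with _ | j'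
    · exact absurd rfl hne
    have h3 : ((c.m : ℝ) + 3 + 1) ^ 2 < rsq (none : Ed c) z := by
      refine (xp _ (by linarith)).trans_lt ((Real.lt_log_iff_exp_lt h0).1 ?_)
      simp only [sc, sg, mid] at h2
      linarith
    have h4 : 1 < rsq (some j' : Ed c) z := by
      by_contra h
      simp only [rsq, ctr, not_lt, sub_zero] at h h3
      obtain ⟨k1, k2⟩ := hj j'
      have k3 := abs_le.1 ((sq_le_one_iff_abs_le_one (z 0 - (j' : ℕ))).1
        (by nlinarith [sq_nonneg (z 1), sq_nonneg (z 2)]))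
      nlinarith [sq_nonneg (z 0 - (j' : ℕ)), k3.1, k3.2]
    refine ⟨by linarith, ?_⟩
    have := Real.log_pos h4
    simp only [sc, sg, mid]
    linarith
  have h3 : rsq (some j : Ed c) z < 1 / 4 := by
    have k1 : rsq (some j : Ed c) z < Real.exp (-(2 * 2)) := by
      refine (Real.log_lt_iff_lt_exp h0).1 ?_
      simp only [sc, sg, mid] at h2
      linarith
    refine k1.trans_le ?_
    rw [Real.exp_neg, one_div]
    exact inv_anti₀ (by norm_num) (le_trans (by norm_num) (xp 2 (by norm_num)))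
  obtain ⟨k1, k2⟩ := hj j
  have k3 : |z 0 - (j : ℕ)| < 1 / 2 := by
    refine abs_lt_of_sq_lt_sq ?_ (by norm_num)
    simp only [rsq, ctr] at h3
    nlinarith [sq_nonneg (z 1), sq_nonneg (z 2)]
  obtain ⟨k4, k5⟩ := abs_lt.1 k3
  rcases e' with _ | j'
  · have h4 : 0 < rsq (none : Ed c) z := by
      rcases Nat.eq_zero_or_pos j with h | h
      · simpa only [rsq, ctr, h, Nat.cast_zero] using h0
      · have : (1 : ℝ) ≤ (j : ℕ) := by exact_mod_cast h
        simp only [rsq, ctr, sub_zero]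
        nlinarith [sq_nonneg (z 1), sq_nonneg (z 2)]
    refine ⟨h4, ?_⟩
    have h5 : Real.log (rsq (none : Ed c) z) < 2 * (c.m + 5) := by
      refine (Real.log_lt_iff_lt_exp h4).2 (lt_of_lt_of_le ?_ (xp _ (by linarith)))
      simp only [rsq, ctr, sub_zero] at h3 ⊢
      nlinarith [sq_nonneg (z 0 - (j : ℕ))]
    simp only [sc, sg, mid]
    linarith
  have h4 : 1 / 4 < rsq (some j' : Ed c) z := by
    have k6 : (j' : ℕ) ≠ j := fun h => hne (congrArg some (Fin.ext h))
    simp only [rsq, ctr]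
    rcases k6.lt_or_gt with h | h
    · have : ((j' : ℕ) : ℝ) + 1 ≤ (j : ℕ) := by exact_mod_cast h
      nlinarith [sq_nonneg (z 1), sq_nonneg (z 2)]
    · have : ((j : ℕ) : ℝ) + 1 ≤ (j' : ℕ) := by exact_mod_cast h
      nlinarith [sq_nonneg (z 1), sq_nonneg (z 2)]
  refine ⟨by linarith, ?_⟩
  have h5 : -(2 * 2) < Real.log (rsq (some j' : Ed c) z) := by
    refine (Real.lt_log_iff_exp_lt (by linarith)).2 (lt_of_le_of_lt ?_ h4)
    rw [Real.exp_neg, one_div]
    exact inv_anti₀ (by norm_num) (le_trans (by norm_num) (xp 2 (by norm_num)))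
  simp only [sc, sg, mid]
  linarith

theorem rsq_flipMap (b : Bool) (y : Eu 5) :
    rsq e (flipMap e b y) = (Real.exp (2 * mid e) / √(rsq e y)) ^ 2 := by
  have h := (dot_rf (e := e) _ _).trans (dot_sph y)
  rw [dot] at h
  simp only [rsq, flipMap, pt_zero, pt_one, pt_two, Pi.add_apply, Pi.smul_apply, smul_eq_mul,
    Matrix.cons_val_zero, Matrix.cons_val_one, Matrix.cons_val]
  generalize Real.exp (2 * mid e) / _ = R
  linear_combination R ^ 2 * h

theorem sc_flipMap (b : Bool) (h : 0 < rsq e y) : sc e (flipMap e b y) = -sc e y := by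
  rw [sc, sc, rsq_flipMap, div_pow, Real.sq_sqrt h.le, Real.log_div (by positivity) h.ne',
    Real.log_pow, Real.log_exp]
  push_cast
  ring

theorem nv_flipMap (b : Bool) (h : 0 < rsq e y) : nv e (flipMap e b y) = rf e (sph y) := by
  have h1 : 0 < Real.exp (2 * mid e) / √(rsq e y) := div_pos (Real.exp_pos _) (Real.sqrt_pos.2 h)
  refine eu3_ext ?_ ?_ ?_
  · rw [nv_zero, rsq_flipMap, Real.sqrt_sq h1.le, div_eq_iff h1.ne']
    simp only [flipMap, pt_zero, Pi.add_apply, Pi.smul_apply]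
    simp [mul_comm]
  · rw [nv_one, rsq_flipMap, Real.sqrt_sq h1.le, div_eq_iff h1.ne']
    simp only [flipMap, pt_one, Pi.add_apply, Pi.smul_apply]
    simp [mul_comm]
  · rw [nv_two, rsq_flipMap, Real.sqrt_sq h1.le, div_eq_iff h1.ne']
    simp only [flipMap, pt_two, Pi.add_apply, Pi.smul_apply]
    simp [mul_comm]

theorem flip_flipMap {b : Bool} (hy : y ∈ DR c) (he : sc e y < 1)
    (h : -3 / 5 ≤ tau b * nv e y 2) :
    Flip e y (flipMap e b y) ∧ cb (flipMap e b y) = b ∧ zsq (flipMap e b y) ≤ 4 := by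
  have h0 := (hy.1 e).1
  have hv := (dot_rf (e := e) _ _).trans (dot_nv h0)
  obtain ⟨h1, h2⟩ : cb (flipMap e b y) = b ∧ zsq (flipMap e b y) ≤ 4 := pt_mem _ hv h
  obtain ⟨h3, h4⟩ := abs_le_of_zsq h2
  refine ⟨⟨hy, ⟨flipa_mem (e := e) ?_ ?_ ?_, by linarith, by linarith⟩, sc_flipMap b h0,
    nv_flipMap b h0, sph_pt hv (by rw [rf_two]; linarith) h1⟩, h1, h2⟩
  · rw [rsq_flipMap]
    exact pow_pos (div_pos (Real.exp_pos _) (Real.sqrt_pos.2 h0)) 2
  · rw [sc_flipMap b h0]
    linarith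
  · rw [sc_flipMap b h0]
    linarith [(hy.1 e).2]

theorem flip_flipPt (hy : y ∈ DR c) (he : sc e y < 1) : Flip e y (flipPt e y) := by
  refine (flip_flipMap hy he ?_).1
  have := div_nonneg (tau_decide (y 2)) (Real.sqrt_nonneg (rsq e y))
  rw [nv_two, ← mul_div_assoc]
  linarith

theorem zsq_flipPt (hy : y ∈ DR c) (e : Ed c) : zsq (flipPt e y) ≤ 1 := by
  have hv := (dot_rf (e := e) _ _).trans (dot_nv (hy.1 e).1)
  have h : 0 ≤ tau (decide (0 ≤ y 2)) * rf e (nv e y) 2 := by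
    rw [rf_two, nv_two, ← mul_div_assoc]
    exact div_nonneg (tau_decide (y 2)) (Real.sqrt_nonneg (rsq e y))
  refine (zsq_pt hv (by linarith) (pt_mem _ hv (by linarith)).1).le.trans ?_
  rw [div_le_iff₀ (by linarith)]
  linarith

theorem Flip.kap_eq (h : Flip e y y') : kap e y' = 1 - kap e y := by
  rw [kap, kap, h.sc_eq, ← smoothTransition_one_sub]
  congr 1
  ring

theorem Flip.eta_eq (h : Flip e y y') : eta c y' = 1 - eta c y := by
  rw [eta_collar h.1 (e := e) (by linarith [h.sc_lt]),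
    eta_collar h.2.1 (e := e) (by linarith [h.symm.sc_lt]), h.kap_eq]

theorem Flip.lam_eq (h : Flip e y y') : lam c y = (√(rsq e y))⁻¹ := lam_collar h.1 h.sc_lt.le

theorem Link.mem (h : Link o y y') : y ∈ DR c := by
  cases o
  exacts [h.1, h.1]

theorem Link.mem' (h : Link o y y') : y' ∈ DR c := by
  cases o
  exacts [h.2.1, h.2.1]

theorem Link.symm (h : Link o y y') : Link o y' y := by
  cases o
  exacts [Same.symm h, Flip.symm h]

theorem Link.same (h : Link o y y') (h' : Link o y y'') : Same c y' y'' := by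
  cases o
  exacts [(Same.symm h).trans h', Flip.unique h h']

theorem Link.same_left (h : Link o y y') (h' : Same c y y'') : Link o y'' y' := by
  cases o
  exacts [h'.symm.trans h, Flip.same_left h h']

theorem Link.same_right (h : Link o y y') (h' : Same c y' y'') : Link o y y'' :=
  (h.symm.same_left h').symm

theorem Link.refl (hy : y ∈ DR c) : Link (none : Option (Ed c)) y y := Same.refl hy

theorem Link.unique (h : Link o y y') (h' : Link o y y'') (hb : cb y'' = cb y') : y'' = y' :=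
  (h.same h').eq_of_cb hb

/-- The composite of two identifications. -/
def cmp : Option (Ed c) → Option (Ed c) → Option (Ed c)
  | none, o => o
  | some e, none => some e
  | some _, some _ => none

theorem Link.trans (h : Link o y y') (h' : Link o' y' y'') : Link (cmp o o') y y'' := by
  rcases o with _ | e
  · exact h'.same_left (Same.symm h)
  · rcases o' with _ | e'
    · exact h.same_right h'
    · obtain rfl := (Flip.symm h).edge_eq h'
      exact (Flip.symm h).unique h'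

section

variable {P : Type} {Γ : Gl c P}

theorem Gl.go_go (Γ : Gl c P) (o : Option (Ed c)) (p : P) : Γ.go o (Γ.go o p) = p := by
  cases o
  exacts [rfl, Γ.invol _ _]

theorem Link.go_cmp (h : Link o y y') (h' : Link o' y' y'') (Γ : Gl c P) (p : P) :
    Γ.go (cmp o o') p = Γ.go o' (Γ.go o p) := by
  rcases o with _ | e
  · rfl
  · rcases o' with _ | e'
    · rfl
    · obtain rfl := (Flip.symm h).edge_eq h'
      exact (Γ.invol e p).symm

theorem Link.eq_of_go (h : Link o y y') (h' : Link o' y y'') {p : P}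
    (hp : Γ.go o p = Γ.go o' p) : o = o' := by
  rcases o with _ | e <;> rcases o' with _ | e'
  · rfl
  · exact absurd hp.symm (Γ.ne e' p)
  · exact absurd hp (Γ.ne e p)
  · exact congrArg some (Flip.edge_eq h h')

end

theorem lk_none : lk (none : Option (Ed c)) y y' = iv y y' := rfl

theorem lk_some : lk (some e) y y' = fl e y y' := rfl

/-- The base part of the transition maps. -/
def lkX : Option (Ed c) → Eu 5 → Eu 3
  | none => xp
  | some e => fun y => ![ctr e, 0, 0] + (Real.exp (2 * mid e) / √(rsq e y)) • rf e (sph y)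

/-- The fibre part of the transition maps. -/
def lkV : Option (Ed c) → Eu 5 → Eu 3
  | none => sph
  | some e => fun y => rf e (nv e y)

theorem lkMap_eq (o : Option (Ed c)) (b : Bool) :
    lkMap o b = fun y => pt (lkX o y) (lkV o y) b := by
  cases o <;> rfl

theorem Link.xp_eq (h : Link o y y') : xp y' = lkX o y := by
  cases o
  exacts [Same.xp_eq h, Flip.xp_eq h]

theorem Link.sph_eq (h : Link o y y') : sph y' = lkV o y := by
  cases o
  exacts [Same.sph_eq h, Flip.sph_eq h]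

theorem Link.map_eq (h : Link o y y') : lkMap o (cb y') y = y' := by
  rw [lkMap_eq]
  simp only [← h.xp_eq, ← h.sph_eq, pt_sph]

theorem Link.eq_lkMap (h : Link o y y') : y' = lkMap o (cb y') y := h.map_eq.symm

theorem Flip.eq_flipMap (h : Flip e y y') : y' = flipMap e (cb y') y :=
  Link.eq_lkMap (o := some e) h

theorem dot_lkV (hy : y ∈ DR c) : dot (lkV o y) (lkV o y) = 1 := by
  cases o
  exacts [dot_sph y, (dot_rf _ _).trans (dot_nv (hy.1 _).1)]

theorem contDiffAt_lkX (hy : y ∈ DR c) : ContDiffAt ℝ ∞ (lkX o) y := by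
  rcases o with _ | e
  · exact contDiff_xp.contDiffAt
  · have h := (hy.1 e).1
    refine contDiffAt_const.add (ContDiffAt.smul (contDiffAt_const.div
      ((contDiff_rsq e).contDiffAt.sqrt h.ne') (Real.sqrt_pos.2 h).ne') ?_)
    rw [rf_eq]
    exact (rfL e).contDiff.contDiffAt.comp y (contDiffAt_sph (ne_of_zc hy.2.1))

theorem contDiffAt_lkV (hy : y ∈ DR c) : ContDiffAt ℝ ∞ (lkV o) y := by
  rcases o with _ | e
  · exact contDiffAt_sph (ne_of_zc hy.2.1)
  · change ContDiffAt ℝ ∞ (fun y => rf e (nv e y)) y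
    rw [rf_eq]
    exact (rfL e).contDiff.contDiffAt.comp y (contDiffAt_nv (hy.1 e).1)

theorem link_lkMap {b : Bool} (hy : y ∈ DR c) (h : 1 + tau b * lkV o y 2 ≠ 0)
    (h1 : lkMap o b y ∈ DR c) (hb : cb (lkMap o b y) = b) : Link o y (lkMap o b y) := by
  rcases o with _ | e
  · exact ⟨hy, h1, rfl, rfl, rfl, sph_pt (dot_sph y) h hb⟩
  · exact ⟨hy, h1, sc_flipMap b (hy.1 e).1, nv_flipMap b (hy.1 e).1,
      sph_pt (dot_lkV (o := some e) hy) h hb⟩

theorem Link.contDiffAt (h : Link o y y') : ContDiffAt ℝ ∞ (lkMap o (cb y')) y := by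
  rw [lkMap_eq]
  refine contDiffAt_pt (contDiffAt_lkX h.mem) (contDiffAt_lkV h.mem) ?_
  rw [← h.sph_eq, one_add_sph]
  exact (mu_pos y').ne'

theorem Link.hasFDerivAt (h : Link o y y') : HasFDerivAt (lkMap o (cb y')) (lk o y y') y :=
  (h.contDiffAt.differentiableAt (by simp)).hasFDerivAt

theorem Link.tendsto (h : Link o y y') : Tendsto (lkMap o (cb y')) (𝓝 y) (𝓝 y') := by
  have := h.contDiffAt.continuousAt.tendsto
  rwa [h.map_eq] at this

theorem Link.eventually (h : Link o y y') :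
    ∀ᶠ z in 𝓝 y, Link o z (lkMap o (cb y') z) ∧ cb (lkMap o (cb y') z) = cb y' := by
  have h1 : ∀ᶠ z in 𝓝 y, 1 + tau (cb y') * lkV o z 2 ≠ 0 := by
    refine ContinuousAt.eventually_ne (continuousAt_const.add (continuousAt_const.mul
      (continuousAt_pi.1 (contDiffAt_lkV h.mem).continuousAt 2))) ?_
    rw [← h.sph_eq, one_add_sph]
    exact (mu_pos y').ne'
  filter_upwards [h1, isOpen_DR.eventually_mem h.mem,
    h.tendsto.eventually (isOpen_DR.eventually_mem h.mem'),
    h.tendsto.eventually (cb_eventually h.mem')] with z h1 h2 h3 h4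
  exact ⟨link_lkMap h2 h1 h3 h4, h4⟩

/-- The identifications are locally smooth maps with differential lk. -/
theorem Link.exists_local (h : Link o y y') : ∃ τ : Eu 5 → Eu 5, τ y = y' ∧
    ContDiffAt ℝ ∞ τ y ∧
    ∀ᶠ z in 𝓝 y, Link o z (τ z) ∧ HasFDerivAt τ (lk o z (τ z)) z := by
  refine ⟨_, h.map_eq, h.contDiffAt, h.eventually.mono fun z hz => ⟨hz.1, ?_⟩⟩
  have := hz.1.hasFDerivAt
  rwa [hz.2] at this

theorem Flip.exists_local (h : Flip e y y') : ∃ τ : Eu 5 → Eu 5, τ y = y' ∧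
    ContDiffAt ℝ ∞ τ y ∧
    ∀ᶠ z in 𝓝 y, Flip e z (τ z) ∧ HasFDerivAt τ (fl e z (τ z)) z :=
  Link.exists_local (o := some e) h

theorem Same.exists_local (h : Same c y y') : ∃ τ : Eu 5 → Eu 5, τ y = y' ∧
    ContDiffAt ℝ ∞ τ y ∧
    ∀ᶠ z in 𝓝 y, Same c z (τ z) ∧ HasFDerivAt τ (iv z (τ z)) z :=
  Link.exists_local (o := none) h

/-- Chain rule for functions that are compatible with an identification. -/
theorem Link.fderiv_eq {F : Type} [NormedAddCommGroup F] [NormedSpace ℝ F] {f g : Eu 5 → F}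
    (h : Link o y y') (hf : DifferentiableAt ℝ f y') (hg : ∀ z z', Link o z z' → g z = f z') :
    fderiv ℝ g y = (fderiv ℝ f y').comp (lk o y y') := by
  have h1 : HasFDerivAt f (fderiv ℝ f y') (lkMap o (cb y') y) := by
    rw [h.map_eq]
    exact hf.hasFDerivAt
  exact ((h1.comp y h.hasFDerivAt).congr_of_eventuallyEq
    (h.eventually.mono fun z hz => hg _ _ hz.1)).fderiv

/-- The differentials compose. -/
theorem Link.lk_comp' {o'' : Option (Ed c)} (h : Link o y y') (h' : Link o' y' y'')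
    (h'' : ∀ z z' z'', Link o z z' → Link o' z' z'' → Link o'' z z'') :
    (lk o' y' y'').comp (lk o y y') = lk o'' y y'' := by
  have h1 : HasFDerivAt (lkMap o' (cb y'')) (lk o' y' y'') (lkMap o (cb y') y) := by
    rw [h.map_eq]
    exact h'.hasFDerivAt
  refine ((h1.comp y h.hasFDerivAt).congr_of_eventuallyEq ?_).unique (h'' _ _ _ h h').hasFDerivAt
  filter_upwards [h.eventually, h.tendsto.eventually h'.eventually] with z h2 h3
  have h4 := (h'' _ _ _ h2.1 h3.1).map_eq
  rwa [h3.2] at h4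

theorem Link.lk_comp (h : Link o y y') (h' : Link o' y' y'') :
    lk (cmp o o') y y'' = (lk o' y' y'').comp (lk o y y') :=
  (h.lk_comp' h' fun _ _ _ a b => a.trans b).symm

theorem iv_self (hy : y ∈ DR c) : iv y y = ContinuousLinearMap.id ℝ (Eu 5) := by
  refine ((hasFDerivAt_id y).congr_of_eventuallyEq ?_).fderiv
  exact (cb_eventually hy).mono fun z hz => by rw [← hz]; exact pt_sph z

theorem Link.lk_inv (h : Link o y y') :
    (lk o y' y).comp (lk o y y') = ContinuousLinearMap.id ℝ (Eu 5) :=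
  (h.lk_comp' h.symm (o'' := none) fun _ _ _ a b => a.symm.same b).trans (iv_self h.mem)

theorem Flip.fl_comp (h : Flip e y y') :
    (fl e y' y).comp (fl e y y') = ContinuousLinearMap.id ℝ (Eu 5) :=
  Link.lk_inv (o := some e) h

theorem Same.iv_comp (h : Same c y y') :
    (iv y' y).comp (iv y y') = ContinuousLinearMap.id ℝ (Eu 5) :=
  Link.lk_inv (o := none) h

theorem Link.same_comp (h : Link o y' y'') (h' : Same c y y') :
    (lk o y' y'').comp (iv y y') = lk o y y'' :=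
  Link.lk_comp' (o := none) h' h fun _ _ _ a b => b.same_left (Same.symm a)

theorem Link.comp_same (h : Link o y y') (h' : Same c y' y'') :
    (iv y' y'').comp (lk o y y') = lk o y y'' :=
  Link.lk_comp' (o' := none) h h' fun _ _ _ a b => a.same_right b

theorem Link.comp_link (h : Link o y y') (h' : Link o y' y'') :
    (lk o y' y'').comp (lk o y y') = iv y y'' :=
  Link.lk_comp' (o'' := none) h h' fun _ _ _ a b => a.symm.same b

theorem link_of_eq (hy : y ∈ DR c) (hy' : y' ∈ DR c) (h1 : xp y' = lkX o y)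
    (h2 : sph y' = lkV o y) : Link o y y' := by
  have h3 : lkMap o (cb y') y = y' := by
    rw [lkMap_eq]
    simp only [← h1, ← h2, pt_sph]
  have h4 := link_lkMap (o := o) (b := cb y') hy
    (by rw [← h2, one_add_sph]; exact (mu_pos y').ne') (h3.symm ▸ hy') (by rw [h3])
  rwa [h3] at h4

/-- The relation is closed. -/
theorem eventually_not_link {K : Set (Eu 5)} (hK : IsCompact K) (hD : K ⊆ DR c) (hy : y ∈ DR c)
    (h : ∀ y' ∈ K, ¬ Link o y y') : ∀ᶠ z in 𝓝 y, ∀ y' ∈ K, ¬ Link o z y' := by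
  refine hK.eventually_forall_of_forall_eventually fun y' hy' => ?_
  have h1 : ContinuousAt (fun z : Eu 5 × Eu 5 => (xp z.2, sph z.2) - (lkX o z.1, lkV o z.1))
      (y, y') :=
    (ContinuousAt.snd' (f := fun z => (xp z, sph z)) (contDiff_xp.continuous.continuousAt.prodMk
      (contDiffAt_sph (ne_of_zc (hD hy').2.1)).continuousAt)).sub
      (ContinuousAt.fst' (f := fun z => (lkX o z, lkV o z))
        ((contDiffAt_lkX hy).continuousAt.prodMk (contDiffAt_lkV hy).continuousAt))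
  refine (h1.eventually_ne (y := 0) fun h2 => h y' hy' ?_).mono fun z hz h2 => hz ?_
  · obtain ⟨h3, h4⟩ := Prod.ext_iff.1 (sub_eq_zero.1 h2)
    exact link_of_eq hy (hD hy') h3 h4
  · rw [h2.xp_eq, h2.sph_eq, sub_self]

theorem exists_compact_same {K : Set (Eu 5)} (hK : IsCompact K)
    (h : ∀ y ∈ K, y ∈ DR c ∧ 1 / 9 < zsq y) : ∃ K', IsCompact K' ∧
      (∀ y' ∈ K', ∃ y ∈ K, Same c y y' ∧ cb y' = !cb y) ∧
      ∀ y ∈ K, ∃ y' ∈ K', Same c y y' ∧ cb y' = !cb y := by
  refine ⟨(fun z => invMap (!cb z) z) '' K, hK.image_of_continuousOn fun y hy => ?_, ?_,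
    fun y hy => ⟨_, mem_image_of_mem _ hy, same_other' (h y hy).1 (h y hy).2⟩⟩
  · obtain ⟨h1, h2⟩ := same_other' (h y hy).1 (h y hy).2
    have h3 := (Link.contDiffAt (o := none) h1).continuousAt
    rw [h2] at h3
    exact (h3.congr ((cb_eventually (h y hy).1).mono fun z hz => by
      rw [hz]; rfl)).continuousWithinAt
  · rintro _ ⟨y, hy, rfl⟩
    exact ⟨y, hy, same_other' (h y hy).1 (h y hy).2⟩

end

end Pool.Agent.Lib.MP_75c153_gt.Ft
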