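import Pool.Agent.Lib.MP_75c153_gt.Ft.FlipA

/-!
The differentials of the identifications: isometries of determinant 1 or -1.
-/

open MeasureTheory Filter Topology Set
open scoped ContDiff InnerProductSpace

namespace Pool.Agent.Lib.MP_75c153_gt.Ft

open Pool.Agent.Lib.MP_570070_gt.An

noncomputable section

variable {c : Par} {e : Ed c} {o : Option (Ed c)} {y y' : Eu 5}

theorem differentiableAt_sph (hy : y ∈ DR c) : DifferentiableAt ℝ sph y :=
  (contDiffAt_sph (ne_of_zc hy.2.1)).differentiableAt (by simp)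

theorem differentiableAt_nv (hy : y ∈ DR c) : DifferentiableAt ℝ (nv e) y :=
  (contDiffAt_nv (hy.1 e).1).differentiableAt (by simp)

theorem differentiableAt_sc (hy : y ∈ DR c) : DifferentiableAt ℝ (sc e) y :=
  (geoa_sc (hy.1 e).1).differentiableAt (by simp)

theorem fderiv_rf {f : Eu 5 → Eu 3} (hf : DifferentiableAt ℝ f y) (v : Eu 5) :
    fderiv ℝ (fun z => rf e (f z)) y v = rf e (fderiv ℝ f y v) := by
  rw [rf_eq]
  exact DFunLike.congr_fun ((rfL e).hasFDerivAt.comp y hf.hasFDerivAt).fderiv v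

theorem Same.iv_low (h : Same c y y') (v : Eu 5) : xp (iv y y' v) = xp v := by
  have h1 : ∀ (i : Fin 5), (∀ z z', Same c z z' → z i = z' i) → iv y y' v i = v i := fun i hi => by
    have h2 := Link.fderiv_eq (o := none) (f := fun z => z i) (g := fun z => z i) h
      (differentiableAt_apply i y') hi
    rw [(hasFDerivAt_apply i y).fderiv, (hasFDerivAt_apply i y').fderiv] at h2
    exact (DFunLike.congr_fun h2 v).symm
  exact eu3_ext (h1 0 fun _ _ h => h.2.2.1.symm) (h1 1 fun _ _ h => h.2.2.2.1.symm)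
    (h1 2 fun _ _ h => h.2.2.2.2.1.symm)

theorem Same.iv_zero (h : Same c y y') (v : Eu 5) : iv y y' v 0 = v 0 := congrFun (h.iv_low v) 0
theorem Same.iv_one (h : Same c y y') (v : Eu 5) : iv y y' v 1 = v 1 := congrFun (h.iv_low v) 1
theorem Same.iv_two (h : Same c y y') (v : Eu 5) : iv y y' v 2 = v 2 := congrFun (h.iv_low v) 2

theorem Same.iv_base (h : Same c y y') (v : Eu 5) :
    iv y y' v 0 = v 0 ∧ iv y y' v 1 = v 1 ∧ iv y y' v 2 = v 2 :=
  ⟨h.iv_zero v, h.iv_one v, h.iv_two v⟩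

theorem Same.fderiv_sph_iv (h : Same c y y') (v : Eu 5) :
    fderiv ℝ sph y' (iv y y' v) = fderiv ℝ sph y v :=
  (DFunLike.congr_fun (Link.fderiv_eq (o := none) h (differentiableAt_sph h.2.1)
    fun _ _ h => (Same.sph_eq h).symm) v).symm

theorem Flip.fderiv_sc_fl (h : Flip e y y') (v : Eu 5) :
    fderiv ℝ (sc e) y' (fl e y y' v) = -fderiv ℝ (sc e) y v := by
  have h1 := Link.fderiv_eq (o := some e) (g := fun z => -sc e z) h (differentiableAt_sc h.2.1)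
    fun _ _ h => (Flip.sc_eq h).symm
  rw [fderiv_fun_neg] at h1
  exact (DFunLike.congr_fun h1 v).symm

theorem Flip.fderiv_nv_fl (h : Flip e y y') (v : Eu 5) :
    fderiv ℝ (nv e) y' (fl e y y' v) = rf e (fderiv ℝ sph y v) := by
  rw [← fderiv_rf (differentiableAt_sph h.1)]
  exact (DFunLike.congr_fun (Link.fderiv_eq (o := some e) h (differentiableAt_nv h.2.1)
    fun _ _ h => (Flip.nv_eq h).symm) v).symm

theorem Flip.fderiv_sph_fl (h : Flip e y y') (v : Eu 5) :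
    fderiv ℝ sph y' (fl e y y' v) = rf e (fderiv ℝ (nv e) y v) := by
  rw [← fderiv_rf (differentiableAt_nv h.1)]
  exact (DFunLike.congr_fun (Link.fderiv_eq (o := some e) h (differentiableAt_sph h.2.1)
    fun _ _ h => (Flip.sph_eq h).symm) v).symm

/-- On a collar the metric is the product metric. -/
theorem gUp_collar (hy : y ∈ DR c) (he : sc e y ≤ 1) (v w : Eu 5) : gUp c y v w =
    fderiv ℝ (sc e) y v * fderiv ℝ (sc e) y w +
      dot (fderiv ℝ (nv e) y v) (fderiv ℝ (nv e) y w) +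
      dot (fderiv ℝ sph y v) (fderiv ℝ sph y w) := by
  have h := (hy.1 e).1
  have h1 := dot_nv h
  rw [gUp, lam_collar hy he, dot_fderiv_sph (ne_of_zc hy.2.1), fderiv_sc h, fderiv_sc h,
    fderiv_nv h, fderiv_nv h]
  generalize (√(rsq e y))⁻¹ = q
  generalize nv e y = n at h1
  simp only [dot, Pi.smul_apply, Pi.sub_apply, smul_eq_mul, xp_zero, xp_one, xp_two] at h1 ⊢
  linear_combination (-(q ^ 2) * (n 0 * v 0 + n 1 * v 1 + n 2 * v 2) *
    (n 0 * w 0 + n 1 * w 1 + n 2 * w 2)) * (sg_sq e + h1)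

theorem Same.gUp_iv (h : Same c y y') (v w : Eu 5) :
    gUp c y' (iv y y' v) (iv y y' w) = gUp c y v w := by
  rw [gUp, gUp, ← dot_fderiv_sph (ne_of_zc h.1.2.1), ← dot_fderiv_sph (ne_of_zc h.2.1.2.1),
    h.fderiv_sph_iv, h.fderiv_sph_iv, h.lam_eq]
  simp only [h.iv_zero, h.iv_one, h.iv_two]

theorem Flip.gUp_fl (h : Flip e y y') (v w : Eu 5) :
    gUp c y' (fl e y y' v) (fl e y y' w) = gUp c y v w := by
  rw [gUp_collar h.1 h.sc_lt.le, gUp_collar h.2.1 h.symm.sc_lt.le]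
  simp only [h.fderiv_sc_fl, h.fderiv_nv_fl, h.fderiv_sph_fl, dot_rf]
  ring

theorem Link.gUp_lk (h : Link o y y') (v w : Eu 5) :
    gUp c y' (lk o y y' v) (lk o y y' w) = gUp c y v w := by
  cases o
  exacts [Same.gUp_iv h v w, Flip.gUp_fl h v w]

theorem Same.area (h : Same c y y') (v w : Eu 5) :
    mu y' ^ 2 * (iv y y' v 3 * iv y y' w 4 - iv y y' v 4 * iv y y' w 3) =
      mu y ^ 2 * (v 3 * w 4 - v 4 * w 3) := by
  rw [← det3_fderiv_sph (ne_of_zc h.1.2.1), ← det3_fderiv_sph (ne_of_zc h.2.1.2.1),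
    h.fderiv_sph_iv, h.fderiv_sph_iv, h.sph_eq]

/-- The area form of the fibre on the other side is the solid angle form of the collar. -/
theorem Flip.area (h : Flip e y y') (v w : Eu 5) :
    mu y' ^ 2 * (fl e y y' v 3 * fl e y y' w 4 - fl e y y' v 4 * fl e y y' w 3) =
      c.ε e * (((y 0 - ctr e) * (v 1 * w 2 - v 2 * w 1) + y 1 * (v 2 * w 0 - v 0 * w 2) +
        y 2 * (v 0 * w 1 - v 1 * w 0)) / √(rsq e y) ^ 3) := by
  have h0 := (Real.sqrt_pos.2 (h.1.1 e).1).ne'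
  rw [← det3_fderiv_sph (ne_of_zc h.2.1.2.1), h.fderiv_sph_fl, h.fderiv_sph_fl, h.sph_eq, det3_rf,
    fderiv_nv (h.1.1 e).1, fderiv_nv (h.1.1 e).1]
  congr 1
  generalize dot (nv e y) (xp v) = s
  generalize dot (nv e y) (xp w) = t
  simp only [det3, Pi.smul_apply, Pi.sub_apply, smul_eq_mul, nv_zero, nv_one, nv_two, xp_zero,
    xp_one, xp_two]
  field_simp
  ring

theorem dot_s3_fderiv (hy : y ∈ DR c) (v : Eu 5) :
    dot (s3 y) (fderiv ℝ sph y v) = mu y ^ 2 * v 3 := by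
  have h1 := dot_s33 y
  have h2 := dot_s34 y
  simp only [fderiv_sph (ne_of_zc hy.2.1), dot, Pi.add_apply, Pi.smul_apply, smul_eq_mul]
    at h1 h2 ⊢
  linear_combination v 3 * h1 + v 4 * h2

theorem dot_s4_fderiv (hy : y ∈ DR c) (v : Eu 5) :
    dot (s4 y) (fderiv ℝ sph y v) = mu y ^ 2 * v 4 := by
  have h1 := dot_s44 y
  have h2 := dot_s34 y
  simp only [fderiv_sph (ne_of_zc hy.2.1), dot, Pi.add_apply, Pi.smul_apply, smul_eq_mul]
    at h1 h2 ⊢
  linear_combination v 4 * h1 + v 3 * h2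

theorem Same.iv_three (h : Same c y y') (v : Eu 5) : iv y y' v 3 =
    (mu y' ^ 2)⁻¹ * (v 3 * dot (s3 y') (s3 y) + v 4 * dot (s3 y') (s4 y)) := by
  rw [eq_inv_mul_iff_mul_eq₀ (pow_pos (mu_pos y') 2).ne', ← dot_s3_fderiv h.2.1, h.fderiv_sph_iv,
    fderiv_sph (ne_of_zc h.1.2.1)]
  simp only [dot, Pi.add_apply, Pi.smul_apply, smul_eq_mul]
  ring

theorem Same.iv_four (h : Same c y y') (v : Eu 5) : iv y y' v 4 =
    (mu y' ^ 2)⁻¹ * (v 3 * dot (s4 y') (s3 y) + v 4 * dot (s4 y') (s4 y)) := by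
  rw [eq_inv_mul_iff_mul_eq₀ (pow_pos (mu_pos y') 2).ne', ← dot_s4_fderiv h.2.1, h.fderiv_sph_iv,
    fderiv_sph (ne_of_zc h.1.2.1)]
  simp only [dot, Pi.add_apply, Pi.smul_apply, smul_eq_mul]
  ring

/-- The base part of the differential of the gluing map. -/
theorem Flip.fl_low (h : Flip e y y') (v : Eu 5) : xp (fl e y y' v) =
    √(rsq e y') • (v 3 • rf e (s3 y) + v 4 • rf e (s4 y) -
      ((√(rsq e y))⁻¹ * dot (nv e y) (xp v)) • nv e y') := by
  have h0 := (Real.sqrt_pos.2 (h.2.1.1 e).1).ne'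
  have h1 := h.fderiv_sc_fl v
  have h2 := h.fderiv_nv_fl v
  have h3 : sg e ≠ 0 := fun h0 => by simpa [h0] using sg_sq e
  rw [fderiv_sc (h.1.1 e).1, fderiv_sc (h.2.1.1 e).1, ← mul_neg, mul_right_inj' h3,
    inv_mul_eq_iff_eq_mul₀ h0] at h1
  rw [fderiv_nv (h.2.1.1 e).1, fderiv_sph (ne_of_zc h.1.2.1), inv_smul_eq_iff₀ h0, h1,
    sub_eq_iff_eq_add, rf_eq, map_add, map_smul, map_smul, ← rf_eq] at h2
  rw [h2, smul_sub, smul_smul, sub_eq_add_neg, ← neg_smul, mul_neg]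

theorem Flip.fl_aux (h : Flip e y y') (v : Eu 5) {s : Eu 3} (hs : dot (sph y') s = 0) :
    dot s (fderiv ℝ sph y' (fl e y y' v)) = (√(rsq e y))⁻¹ * dot (rf e s) (xp v) := by
  rw [h.sph_eq, dot_rf_left] at hs
  rw [h.fderiv_sph_fl, fderiv_nv (h.1.1 e).1, ← dot_rf_left]
  simp only [dot, Pi.smul_apply, Pi.sub_apply, smul_eq_mul] at hs ⊢
  linear_combination (-(√(rsq e y))⁻¹ *
    (nv e y 0 * xp v 0 + nv e y 1 * xp v 1 + nv e y 2 * xp v 2)) * hs

theorem Flip.fl_three (h : Flip e y y') (v : Eu 5) : fl e y y' v 3 =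
    (mu y' ^ 2)⁻¹ * ((√(rsq e y))⁻¹ * dot (rf e (s3 y')) (xp v)) := by
  rw [eq_inv_mul_iff_mul_eq₀ (pow_pos (mu_pos y') 2).ne', ← dot_s3_fderiv h.2.1,
    h.fl_aux v (dot_sph_s3 y')]

theorem Flip.fl_four (h : Flip e y y') (v : Eu 5) : fl e y y' v 4 =
    (mu y' ^ 2)⁻¹ * ((√(rsq e y))⁻¹ * dot (rf e (s4 y')) (xp v)) := by
  rw [eq_inv_mul_iff_mul_eq₀ (pow_pos (mu_pos y') 2).ne', ← dot_s4_fderiv h.2.1,
    h.fl_aux v (dot_sph_s4 y')]

theorem det_eq_of (L : Eu 5 →L[ℝ] Eu 5) :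
    LinearMap.det (L : Eu 5 →ₗ[ℝ] Eu 5) = Matrix.det (Matrix.of fun i j => L (bas j) i) := by
  rw [← LinearMap.det_toMatrix']
  congr 1

theorem det_block (a b d f : ℝ) : Matrix.det
    !![1, 0, 0, 0, 0; 0, 1, 0, 0, 0; 0, 0, 1, 0, 0; 0, 0, 0, a, b; 0, 0, 0, d, f] =
      a * f - b * d := by
  simp [Matrix.det_succ_row_zero, Fin.sum_univ_succ, Fin.succAbove]
  ring

theorem det_flip (k : ℝ) (n n' a b u w : Eu 3) : Matrix.det
    !![k * n 0 * n' 0, k * n 1 * n' 0, k * n 2 * n' 0, a 0, b 0;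
      k * n 0 * n' 1, k * n 1 * n' 1, k * n 2 * n' 1, a 1, b 1;
      k * n 0 * n' 2, k * n 1 * n' 2, k * n 2 * n' 2, a 2, b 2;
      u 0, u 1, u 2, 0, 0; w 0, w 1, w 2, 0, 0] = k * det3 n' a b * det3 n u w := by
  simp [Matrix.det_succ_row_zero, Fin.sum_univ_succ, Fin.succAbove, det3]
  ring

theorem det3_smul (s t : ℝ) (u v w : Eu 3) : det3 u (s • v) (t • w) = s * t * det3 u v w := by
  simp only [det3, Pi.smul_apply, smul_eq_mul]
  ring

theorem Same.det_iv (h : Same c y y') :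
    vol c y' * LinearMap.det (iv y y' : Eu 5 →ₗ[ℝ] Eu 5) = vol c y := by
  have h0 := (mu_pos y').ne'
  have h1 : (Matrix.of fun i j => iv y y' (bas j) i) =
      !![1, 0, 0, 0, 0; 0, 1, 0, 0, 0; 0, 0, 1, 0, 0;
        0, 0, 0, (mu y' ^ 2)⁻¹ * dot (s3 y') (s3 y), (mu y' ^ 2)⁻¹ * dot (s3 y') (s4 y);
        0, 0, 0, (mu y' ^ 2)⁻¹ * dot (s4 y') (s3 y), (mu y' ^ 2)⁻¹ * dot (s4 y') (s4 y)] := by
    ext i j
    fin_cases i <;> fin_cases j <;>
      simp [h.iv_zero, h.iv_one, h.iv_two, h.iv_three, h.iv_four, bas]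
  have h2 : dot (s3 y') (s3 y) * dot (s4 y') (s4 y) - dot (s3 y') (s4 y) * dot (s4 y') (s3 y) =
      mu y' ^ 2 * mu y ^ 2 := by
    have k0 := det3_s (bas 0) y'
    have k1 := det3_s (bas 1) y'
    have k2 := det3_s (bas 2) y'
    have k3 := det3_s (sph y) y
    rw [dot_sph, mul_one] at k3
    rw [h.sph_eq] at k0 k1 k2
    simp [det3, dot, bas] at k0 k1 k2 k3 ⊢
    linear_combination (s3 y 1 * s4 y 2 - s3 y 2 * s4 y 1) * k0 +
      (s3 y 2 * s4 y 0 - s3 y 0 * s4 y 2) * k1 + (s3 y 0 * s4 y 1 - s3 y 1 * s4 y 0) * k2 +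
      mu y' ^ 2 * k3
  rw [det_eq_of, h1, det_block, vol, vol, h.lam_eq]
  field_simp
  linear_combination lam c y ^ 3 * h2

theorem Flip.det_fl (h : Flip e y y') :
    vol c y' * LinearMap.det (fl e y y' : Eu 5 →ₗ[ℝ] Eu 5) = -vol c y := by
  have h0 := (mu_pos y').ne'
  have r0 := (Real.sqrt_pos.2 (h.1.1 e).1).ne'
  have r1 := (Real.sqrt_pos.2 (h.2.1.1 e).1).ne'
  have l0 : ∀ v, fl e y y' v 0 = _ := fun v => congrFun (h.fl_low v) 0
  have l1 : ∀ v, fl e y y' v 1 = _ := fun v => congrFun (h.fl_low v) 1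
  have l2 : ∀ v, fl e y y' v 2 = _ := fun v => congrFun (h.fl_low v) 2
  have h1 := det_flip (-(√(rsq e y') * (√(rsq e y))⁻¹)) (nv e y) (nv e y')
    (√(rsq e y') • rf e (s3 y)) (√(rsq e y') • rf e (s4 y))
    (((mu y' ^ 2)⁻¹ * (√(rsq e y))⁻¹) • rf e (s3 y'))
    (((mu y' ^ 2)⁻¹ * (√(rsq e y))⁻¹) • rf e (s4 y'))
  have h2 : det3 (nv e y') (rf e (s3 y)) (rf e (s4 y)) = c.ε e * mu y ^ 2 := by
    rw [h.nv_eq, det3_rf, det3_s, dot_sph, mul_one]
  have h3 : det3 (nv e y) (rf e (s3 y')) (rf e (s4 y')) = c.ε e * mu y' ^ 2 := by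
    rw [h.symm.nv_eq, det3_rf, det3_s, dot_sph, mul_one]
  rw [det3_smul, det3_smul, h2, h3] at h1
  rw [det_eq_of, (congrArg Matrix.det ?_).trans h1, vol, vol, h.lam_eq, h.symm.lam_eq]
  · field_simp
    rw [eps_sq, one_mul]
  · ext i j
    fin_cases i <;> fin_cases j <;>
      simp [l0, l1, l2, h.fl_three, h.fl_four, bas, dot, xp_zero, xp_one, xp_two] <;> ring

/-- The sign of the determinant. -/
def osg : Option (Ed c) → ℝ
  | none => 1
  | some _ => -1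

theorem Link.det_lk (h : Link o y y') :
    vol c y' * LinearMap.det (lk o y y' : Eu 5 →ₗ[ℝ] Eu 5) = osg o * vol c y := by
  cases o
  · exact (Same.det_iv h).trans (one_mul _).symm
  · exact (Flip.det_fl h).trans (neg_one_mul _).symm

theorem Gl.tau_go {P : Type} (Γ : Gl c P) (o : Option (Ed c)) (p : P) :
    tau (Γ.side (Γ.go o p)) = osg o * tau (Γ.side p) := by
  cases o
  · exact (one_mul _).symm
  · exact ((congrArg tau (Γ.side_σ _ p)).trans (tau_not _)).trans (neg_one_mul _).symm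

end

end Pool.Agent.Lib.MP_75c153_gt.Ft
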