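import Pool.Agent.Lib.MP_570070_gt.An.Defs

/-!
The building block of the example and the upstairs description of forms.
A point of a piece is y = (y 0, y 1, y 2, y 3, y 4): a point of a domain of 3-space and a point of
one of two squares, which are stereographic charts of the sphere.
-/

open MeasureTheory Filter Topology Set
open scoped ContDiff InnerProductSpace

namespace Pool.Agent.Lib.MP_75c153_gt.Ft

open Pool.Agent.Lib.MP_570070_gt.An

noncomputable section

/-- Number of holes (m + 1 inner holes and the outer sphere) and the gluing signs. -/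
structure Par where
  m : ℕ
  ε : Option (Fin (m + 1)) → ℝ
  hε : ∀ e, ε e = 1 ∨ ε e = -1

/-- Boundary spheres of the domain: none is the outer sphere. -/
abbrev Ed (c : Par) : Type := Option (Fin (c.m + 1))

variable {c : Par}

/-- The centre (ctr e, 0, 0) of the sphere e. -/
def ctr : Ed c → ℝ
  | none => 0
  | some j => (j : ℕ)

/-- Inner spheres have sign 1, the outer sphere has sign -1. -/
def sg : Ed c → ℝ
  | none => -1
  | some _ => 1

/-- Logarithm of the radius of the middle sphere of the collar. -/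
def mid : Ed c → ℝ
  | none => c.m + 4
  | some _ => -3

/-- Squared distance to the centre. -/
def rsq (e : Ed c) (y : Eu 5) : ℝ := (y 0 - ctr e) ^ 2 + y 1 ^ 2 + y 2 ^ 2

/-- Collar coordinate, increasing towards the inside of the piece. -/
def sc (e : Ed c) (y : Eu 5) : ℝ := sg e * (Real.log (rsq e y) / 2 - mid e)

/-- The sign of a Boolean. -/
def tau (b : Bool) : ℝ := if b then 1 else -1

/-- The square that contains the point. -/
def cb (y : Eu 5) : Bool := decide (0 < y 3)

/-- The first stereographic coordinate; the second one is y 4. -/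
def zc (y : Eu 5) : ℝ := y 3 - 4 * tau (cb y)

/-- Squared length of the stereographic coordinate. -/
def zsq (y : Eu 5) : ℝ := zc y ^ 2 + y 4 ^ 2

/-- The domain of 3-space times the two squares. -/
def DR (c : Par) : Set (Eu 5) :=
  {y | (∀ e : Ed c, 0 < rsq e y ∧ -1 < sc e y) ∧ |zc y| < 3 ∧ |y 4| < 3}

/-- One chart. -/
def DRb (c : Par) (b : Bool) : Set (Eu 5) := {y | y ∈ DR c ∧ cb y = b}

/-- The point of the fibre sphere. -/
def sph (y : Eu 5) : Eu 3 :=
  ![2 * zc y / (1 + zsq y), tau (cb y) * (2 * y 4 / (1 + zsq y)),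
    tau (cb y) * ((1 - zsq y) / (1 + zsq y))]

/-- The direction from the centre of the sphere e. -/
def nv (e : Ed c) (y : Eu 5) : Eu 3 :=
  ![(y 0 - ctr e) / √(rsq e y), y 1 / √(rsq e y), y 2 / √(rsq e y)]

/-- The identity or a reflection. -/
def rf (e : Ed c) (v : Eu 3) : Eu 3 := ![v 0, c.ε e * v 1, v 2]

/-- The point with base x and fibre v, in the square b. -/
def pt (x v : Eu 3) (b : Bool) : Eu 5 :=
  ![x 0, x 1, x 2, 4 * tau b + v 0 / (1 + tau b * v 2), tau b * v 1 / (1 + tau b * v 2)]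

/-- y and y' are the same point of the piece. -/
def Same (c : Par) (y y' : Eu 5) : Prop :=
  y ∈ DR c ∧ y' ∈ DR c ∧ y' 0 = y 0 ∧ y' 1 = y 1 ∧ y' 2 = y 2 ∧ sph y' = sph y

/-- y and y' are glued along the collar e. -/
def Flip (e : Ed c) (y y' : Eu 5) : Prop :=
  y ∈ DR c ∧ y' ∈ DR c ∧ sc e y' = -sc e y ∧ nv e y' = rf e (sph y) ∧ sph y' = rf e (nv e y)

/-- The change of chart to the square b. -/
def invMap (b : Bool) (y : Eu 5) : Eu 5 := pt ![y 0, y 1, y 2] (sph y) b

/-- The gluing map along e to the square b. -/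
def flipMap (e : Ed c) (b : Bool) (y : Eu 5) : Eu 5 :=
  pt (![ctr e, 0, 0] + (Real.exp (2 * mid e) / √(rsq e y)) • rf e (sph y)) (rf e (nv e y)) b

/-- The differential of the change of chart at y. -/
def iv (y y' : Eu 5) : Eu 5 →L[ℝ] Eu 5 := fderiv ℝ (invMap (cb y')) y

/-- The differential of the gluing map at y. -/
def fl (e : Ed c) (y y' : Eu 5) : Eu 5 →L[ℝ] Eu 5 := fderiv ℝ (flipMap e (cb y')) y

/-- One point glued to y along e (for y in the collar e). -/
def flipPt (e : Ed c) (y : Eu 5) : Eu 5 := flipMap e (decide (0 ≤ y 2)) y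

/-- Both kinds of identification. -/
def Link : Option (Ed c) → Eu 5 → Eu 5 → Prop
  | none => Same c
  | some e => Flip e

/-- Both kinds of transition maps. -/
def lkMap : Option (Ed c) → Bool → Eu 5 → Eu 5
  | none => invMap
  | some e => flipMap e

/-- Both kinds of differentials. -/
def lk (o : Option (Ed c)) (y y' : Eu 5) : Eu 5 →L[ℝ] Eu 5 := fderiv ℝ (lkMap o (cb y')) y

/-- Equal to 1 on the collar e, zero for sc e y ≥ 2. -/
def bet (e : Ed c) (y : Eu 5) : ℝ := Real.smoothTransition (2 - sc e y)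

/-- The conformal factor of the base. -/
def lam (c : Par) (y : Eu 5) : ℝ := 1 + ∑ e : Ed c, bet e y * ((√(rsq e y))⁻¹ - 1)

/-- The conformal factor of the round sphere. -/
def mu (y : Eu 5) : ℝ := 2 / (1 + zsq y)

/-- The lengths of the coordinate vectors. -/
def ell (c : Par) (y : Eu 5) : Fin 5 → ℝ := ![lam c y, lam c y, lam c y, mu y, mu y]

/-- The density of the volume. -/
def vol (c : Par) (y : Eu 5) : ℝ := lam c y ^ 3 * mu y ^ 2

/-- The metric in coordinates. -/
def gUp (c : Par) (y v w : Eu 5) : ℝ :=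
  lam c y ^ 2 * (v 0 * w 0 + v 1 * w 1 + v 2 * w 2) + mu y ^ 2 * (v 3 * w 3 + v 4 * w 4)

/-- An orthonormal frame. -/
def fr (c : Par) (y : Eu 5) (i : Fin 5) : Eu 5 := (ell c y i)⁻¹ • bas i

/-- The scalar product of forms in coordinates. -/
def ipUp (c : Par) {k : ℕ} (y : Eu 5) (α β : Alt 5 k) : ℝ :=
  ((k.factorial : ℝ))⁻¹ * ∑ I : Fin k → Fin 5,
    α (fun l => fr c y (I l)) * β (fun l => fr c y (I l))

/-- Squared length of a covector. -/
def gsq (c : Par) (y : Eu 5) (ℓ : Eu 5 →L[ℝ] ℝ) : ℝ := ∑ i, ℓ (fr c y i) ^ 2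

/-- The part of the partition of unity that belongs to the neighbour across e. -/
def kap (e : Ed c) (y : Eu 5) : ℝ := Real.smoothTransition (1 / 2 - sc e y)

/-- The part of the partition of unity that belongs to the piece itself. -/
def eta (c : Par) (y : Eu 5) : ℝ := 1 - ∑ e : Ed c, kap e y

/-- The part of the partition of unity of the sphere that belongs to the square of y. -/
def rho (y : Eu 5) : ℝ := Real.smoothTransition (1 / 2 + (1 - zsq y) / (1 + zsq y))

/-- The weight of the integral; it has compact support in DR. -/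
def wg (c : Par) (y : Eu 5) : ℝ := eta c y * rho y

/-- Gluing pattern: the piece p is glued to σ e p along e, and neighbours have different sides. -/
structure Gl (c : Par) (P : Type) where
  σ : Ed c → P → P
  invol : ∀ e p, σ e (σ e p) = p
  side : P → Bool
  side_σ : ∀ e p, side (σ e p) = !side p

variable {P : Type} {k : ℕ}

theorem Gl.ne (Γ : Gl c P) (e : Ed c) (p : P) : Γ.σ e p ≠ p := fun h => by
  have := Γ.side_σ e p
  rw [h] at this
  simp at this

/-- The piece on the other side of an identification. -/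
def Gl.go (Γ : Gl c P) : Option (Ed c) → P → P
  | none => id
  | some e => Γ.σ e

/-- Forms read in all pieces. -/
abbrev Fam (P : Type) (k : ℕ) : Type := P → Eu 5 → Alt 5 k

/-- Families that come from smooth compactly supported forms. -/
structure IsT (Γ : Gl c P) (Ω : Fam P k) : Prop where
  smooth : ∀ p, ContDiffOn ℝ ∞ (Ω p) (DR c)
  same : ∀ p y y', Same c y y' → Ω p y = (Ω p y').compContinuousLinearMap (iv y y')
  flip : ∀ p e y y', Flip e y y' →
    Ω p y = (Ω (Γ.σ e p) y').compContinuousLinearMap (fl e y y')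
  fin : {p | ∃ y ∈ DR c, Ω p y ≠ 0}.Finite

/-- Exterior derivative of a family. -/
def dF (Ω : Fam P k) : Fam P (k + 1) := fun p y => extDeriv (Ω p) y

/-- The form vanishes outside the open piece p₀. -/
def InPiece (Γ : Gl c P) (p₀ : P) (Ω : Fam P k) : Prop :=
  ∀ p, ∀ y ∈ DR c, Ω p y ≠ 0 → p = p₀ ∨ ∃ e, Γ.σ e p = p₀ ∧ sc e y < 1

/-- The form vanishes outside the image of the set K of points of the piece p₀. -/
def LK (Γ : Gl c P) (p₀ : P) (K : Set (Eu 5)) (Ω : Fam P k) : Prop :=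
  ∀ p, ∀ y ∈ DR c, Ω p y ≠ 0 → ∃ o, ∃ y' ∈ K, Link o y y' ∧ Γ.go o p = p₀

/-- The support is a compact subset of the union of the cores (eta > 1 / 2) of the pieces in S. -/
def SuppIn (c : Par) (S : Set P) (Ω : Fam P k) : Prop :=
  ∃ δ > 0, ∀ p, ∀ y ∈ DR c, Ω p y ≠ 0 → δ ≤ |eta c y - 1 / 2| ∧ (1 / 2 < eta c y → p ∈ S)

/-- The L2 spaces seen from upstairs. -/
structure UpL2 (Γ : Gl c P) where
  H : ℕ → Type
  [nacg : ∀ k, NormedAddCommGroup (H k)]
  [ips : ∀ k, InnerProductSpace ℝ (H k)]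
  [cs : ∀ k, CompleteSpace (H k)]
  j : ∀ k, Fam P k → H k
  inner_eq : ∀ k (Ω Ω' : Fam P k), IsT Γ Ω → IsT Γ Ω' → ⟪j k Ω, j k Ω'⟫_ℝ =
    ∑ᶠ p, ∫ y in DR c, wg c y * ipUp c y (Ω p y) (Ω' p y) * vol c y
  chart : ∀ k (p₀ : P) (b : Bool) (Ω Ω' : Fam P k), IsT Γ Ω → IsT Γ Ω' →
    LK Γ p₀ (DRb c b) Ω →
    ⟪j k Ω, j k Ω'⟫_ℝ = ∫ y in DRb c b, ipUp c y (Ω p₀ y) (Ω' p₀ y) * vol c y
  dense : ∀ k, Dense (j k '' {Ω | IsT Γ Ω})

attribute [instance] UpL2.nacg UpL2.ips UpL2.cs

/-- The graph of d on test families. -/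
def UpL2.D {Γ : Gl c P} (U : UpL2 Γ) (k : ℕ) (a : U.H k) (b : U.H (k + 1)) : Prop :=
  ∃ Ω : Fam P k, IsT Γ Ω ∧ a = U.j k Ω ∧ b = U.j (k + 1) (dF Ω)

/-- L2 forms on the union of the cores of the pieces in S. -/
def UpL2.on {Γ : Gl c P} (U : UpL2 Γ) (k : ℕ) (S : Set P) : Set (U.H k) :=
  closure (U.j k '' {Ω | IsT Γ Ω ∧ SuppIn c S Ω})

/-- The torsion predicate upstairs. -/
def UpTorsion (Γ : Gl c P) (S : Set P) (ρ : ℝ) : Prop :=
  ∃ (U : UpL2 Γ) (Pt : ∀ k, ℝ → U.H k →L[ℝ] U.H k) (I : ℕ → ℝ),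
    (∀ k, IsHeat (dom U.D k) (Pt k)) ∧
    (∀ k ≤ 5, (∀ t, 0 < t → trOn (U.on k S) (Pt k t) ≠ ⊤) ∧
      IsRegInt (fun t => (trOn (U.on k S) (Pt k t)).toReal) (I k)) ∧
    ρ = 1 / 2 * ∑ k ∈ Finset.range (5 + 1), (-1) ^ k * k * I k

/-- The gluing pattern of a group Q with labels g: pieces (h, true) and (h g_e, false) are
glued along e. -/
def grpGl (c : Par) {Q : Type} [Group Q] (g : Ed c → Q) : Gl c (Q × Bool) where
  σ e p := if p.2 then (p.1 * g e, false) else (p.1 * (g e)⁻¹, true)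
  invol e p := by rcases p with ⟨h, _ | _⟩ <;> simp
  side p := p.2
  side_σ e p := by rcases p with ⟨h, _ | _⟩ <;> simp

/-- The two base pieces. -/
def base (Q : Type) [Group Q] : Set (Q × Bool) := {p | p.1 = 1}

end

end Pool.Agent.Lib.MP_75c153_gt.Ft
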