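import Pool.Agent.Lib.MP_75c153_gt.Ft.Sph

open MeasureTheory Filter Topology Set
open scoped ContDiff InnerProductSpace

namespace Pool.Agent.Lib.MP_75c153_gt.Ft

open Pool.Agent.Lib.MP_570070_gt.An

variable {c : Par}

theorem mem_DRb {y : Eu 5} (hy : y ∈ DR c) : y ∈ DRb c (cb y) := ⟨hy, rfl⟩

theorem rho_eq_one {y : Eu 5} (h : zsq y ≤ 1 / 3) : rho y = 1 := by
  refine Real.smoothTransition.one_of_one_le ?_
  have := (le_div_iff₀ (one_add_zsq_pos y)).2 (show 1 / 2 * (1 + zsq y) ≤ 1 - zsq y by linarith)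
  linarith

theorem rho_pos {y : Eu 5} (h : zsq y < 3) : 0 < rho y := by
  refine Real.smoothTransition.pos_of_pos ?_
  have := (lt_div_iff₀ (one_add_zsq_pos y)).2 (show -(1 / 2) * (1 + zsq y) < 1 - zsq y by linarith)
  linarith

theorem vol_eq_prod (y : Eu 5) : vol c y = ∏ i, ell c y i := (prod_ell y).symm

theorem gUp_eq_sum (y v w : Eu 5) : gUp c y v w = ∑ i, ell c y i ^ 2 * (v i * w i) := by
  simp [gUp, ell, Fin.sum_univ_five]
  ring

end Pool.Agent.Lib.MP_75c153_gt.Ft
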