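import Pool.Agent.Lib.MP_75c153_gt.Ft.UInt
import Pool.Agent.Lib.MP_75c153_gt.Ft.UFn

/-! Localisation of test families and extension of isometries. -/

open MeasureTheory Filter Topology Set
open scoped ContDiff InnerProductSpace

namespace Pool.Agent.Lib.MP_75c153_gt.Ft

open Pool.Agent.Lib.MP_570070_gt.An

variable {c : Par} {P P' : Type} {Γ : Gl c P} {Γ' : Gl c P'} {k l : ℕ} {Ω Ω' : Fam P k}

theorem dF_eq_zero {p : P} {y : Eu 5} (h : ∀ᶠ z in 𝓝 y, Ω p z = 0) : dF Ω p y = 0 := by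
  rw [dF, EventuallyEq.extDeriv_eq (ω₂ := fun _ => 0) h, extDeriv, fderiv_fun_const]
  ext v
  simp [ContinuousAlternatingMap.alternatizeUncurryFin_apply]

theorem UpL2.j_dF_add (U : UpL2 Γ) (h : IsT Γ Ω) (h' : IsT Γ Ω') :
    U.j (k + 1) (dF (Ω + Ω')) = U.j (k + 1) (dF Ω) + U.j (k + 1) (dF Ω') := by
  rw [← U.j_add h.dF h'.dF]
  exact U.j_congr (h.dF.add h'.dF) fun p _ hy =>
    extDeriv_add (h.differentiableAt p hy) (h'.differentiableAt p hy)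

/-- The form lives well inside the piece p₀. -/
def Lcl (Γ : Gl c P) (p₀ : P) (Ω : Fam P k) : Prop :=
  ∀ p, ∀ y ∈ DR c, Ω p y ≠ 0 →
    (p = p₀ ∧ ∀ e : Ed c, -1 / 2 ≤ sc e y) ∨ ∃ e, Γ.σ e p = p₀ ∧ sc e y ≤ 1 / 2

theorem Lcl.inPiece {p₀ : P} (h : Lcl Γ p₀ Ω) : InPiece Γ p₀ Ω := fun p y hy h1 =>
  (h p y hy h1).imp And.left fun ⟨e, h2, h3⟩ => ⟨e, h2, by linarith⟩

theorem Lcl.core {p₀ : P} (h : Lcl Γ p₀ Ω) {y : Eu 5} (hy : y ∈ DR c) (h1 : Ω p₀ y ≠ 0)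
    (e : Ed c) : -1 / 2 ≤ sc e y :=
  (h p₀ y hy h1).elim (fun h => h.2 e) fun ⟨e', h2, _⟩ => absurd h2 (Γ.ne e' p₀)

theorem Lcl.mono {p₀ : P} (h : Lcl Γ p₀ Ω) {Θ : Fam P l}
    (h' : ∀ p, ∀ y ∈ DR c, Ω p y = 0 → Θ p y = 0) : Lcl Γ p₀ Θ :=
  fun p y hy h1 => h p y hy fun h2 => h1 (h' p y hy h2)

theorem Lcl.d {p₀ : P} (h : Lcl Γ p₀ Ω) : Lcl Γ p₀ (dF Ω) := by
  intro p y hy h1
  by_contra h2
  rw [not_or, not_and_or, not_forall, not_exists] at h2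
  have hc : ∀ e : Ed c, ContinuousAt (sc e) y := fun e =>
    (contDiffOn_sc e).continuousOn.continuousAt (isOpen_DR.mem_nhds hy)
  have h3 : ∀ᶠ z in 𝓝 y, ¬(p = p₀ ∧ ∀ e : Ed c, -1 / 2 ≤ sc e z) := by
    rcases h2.1 with h3 | ⟨e, h3⟩
    · exact Eventually.of_forall fun _ h => h3 h.1
    · exact ((hc e).eventually_lt continuousAt_const (not_le.1 h3)).mono
        fun z hz h => (h.2 e).not_gt hz
  have h4 : ∀ᶠ z in 𝓝 y, ∀ e, ¬(Γ.σ e p = p₀ ∧ sc e z ≤ 1 / 2) := by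
    refine eventually_all.2 fun e => ?_
    rcases not_and_or.1 (h2.2 e) with h4 | h4
    · exact Eventually.of_forall fun _ h => h4 h.1
    · exact (continuousAt_const.eventually_lt (hc e) (not_le.1 h4)).mono
        fun z hz h => h.2.not_gt hz
  refine h1 (dF_eq_zero ?_)
  filter_upwards [isOpen_DR.eventually_mem hy, h3, h4] with z h5 h6 h7
  exact by_contra fun h8 => (h p z h5 h8).elim h6 fun ⟨e, he⟩ => h7 e he

theorem lcl_wt (p₀ : P) (Ω : Fam P k) :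
    Lcl Γ p₀ fun p y => wt Γ (indicator {p₀} 1) p y • Ω p y := by
  intro p y hy h
  have h1 := left_ne_zero_of_smul h
  by_cases e : p = p₀
  · rw [e, wt_single_self] at h1
    exact Or.inl ⟨e, sc_ge_of_eta_ne hy h1⟩
  · rcases wt_ne_zero h1 hy with h2 | ⟨e', h2, h3⟩
    · exact absurd (mem_singleton_iff.1 (mem_of_indicator_ne_zero h2)) e
    · exact Or.inr ⟨e', mem_singleton_iff.1 (mem_of_indicator_ne_zero h2), h3.le⟩

theorem IsT.ne_flip (h : IsT Γ Ω) {p : P} {y : Eu 5} (hy : y ∈ DR c) (h1 : Ω p y ≠ 0) {e : Ed c}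
    (he : sc e y < 1) : ∃ y' ∈ DR c, Ω (Γ.σ e p) y' ≠ 0 :=
  have f := flip_flipPt hy he
  ⟨_, f.2.1, fun h2 => h1 (by rw [h.flip p e _ _ f, h2]; rfl)⟩

/-- An additive quantity that vanishes on local test families vanishes. -/
theorem eq_zero_of_lcl {B : Fam P k → ℝ}
    (hadd : ∀ Ω Ω', IsT Γ Ω → IsT Γ Ω' → B (Ω + Ω') = B Ω + B Ω')
    (hloc : ∀ p₀ Ω, IsT Γ Ω → Lcl Γ p₀ Ω → B Ω = 0) (h : IsT Γ Ω) : B Ω = 0 := by
  classical
  rcases isEmpty_or_nonempty P with hP | ⟨⟨p₁⟩⟩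
  · have := hadd Ω Ω h h
    rw [Subsingleton.elim (Ω + Ω) Ω] at this
    linarith
  have hs : ∀ S : Finset P, IsFn Γ fun p y => ∑ q ∈ S, wt Γ (indicator {q} 1) p y := fun S =>
    IsFn.sum S fun q _ => isFn_wt_ind {q}
  have h1 : ∀ S : Finset P,
      B (fun p y => (∑ q ∈ S, wt Γ (indicator {q} 1) p y) • Ω p y) = 0 := fun S => by
    induction S using Finset.induction_on with
    | empty => exact hloc p₁ _ ((hs ∅).isT_smul h) fun p y _ h => absurd (by simp) h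
    | insert q S hq ih =>
      have e : (fun p y => (∑ q ∈ insert q S, wt Γ (indicator {q} 1) p y) • Ω p y) =
          (fun p y => wt Γ (indicator {q} 1) p y • Ω p y) +
            fun p y => (∑ q ∈ S, wt Γ (indicator {q} 1) p y) • Ω p y := by
        funext p y
        simp only [Finset.sum_insert hq, add_smul, Pi.add_apply]
      rw [e, hadd _ _ ((isFn_wt_ind {q}).isT_smul h) ((hs S).isT_smul h), ih,
        hloc q _ ((isFn_wt_ind {q}).isT_smul h) (lcl_wt q Ω), add_zero]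
  have e : Ω = (fun p y => (∑ q ∈ h.fin.toFinset, wt Γ (indicator {q} 1) p y) • Ω p y) +
      fun p y => (1 - ∑ q ∈ h.fin.toFinset, wt Γ (indicator {q} 1) p y) • Ω p y := by
    funext p y
    simp only [Pi.add_apply, ← add_smul, add_sub_cancel, one_smul]
  have h2 := ((IsFn.const 1).sub (hs h.fin.toFinset)).isT_smul h
  rw [e, hadd _ _ ((hs _).isT_smul h) h2, h1, zero_add]
  refine hloc p₁ _ h2 fun p y hy h3 => absurd ?_ (left_ne_zero_of_smul h3)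
  have h4 := right_ne_zero_of_smul h3
  rw [sum_wt_single _ hy (h.fin.mem_toFinset.2 ⟨y, hy, h4⟩), sub_self]
  exact fun e he => h.fin.mem_toFinset.2 (h.ne_flip hy h4 he)

/-- Two dense families with the same scalar products differ by a unitary map. -/
theorem exists_unitary_of_dense {T A B : Type} [NormedAddCommGroup A] [InnerProductSpace ℝ A]
    [CompleteSpace A] [NormedAddCommGroup B] [InnerProductSpace ℝ B] [CompleteSpace B]
    {a : T → A} {b : T → B} (ha : DenseRange a) (hb : DenseRange b)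
    (h : ∀ s t, ⟪b s, b t⟫_ℝ = ⟪a s, a t⟫_ℝ) : ∃ V : A ≃ₗᵢ[ℝ] B, ∀ t, V (a t) = b t := by
  have h1 : DenseRange (Finsupp.linearCombination ℝ a) :=
    ha.mono (by rintro _ ⟨t, rfl⟩; exact ⟨Finsupp.single t 1, by simp⟩)
  have h2 : DenseRange (Finsupp.linearCombination ℝ b) :=
    hb.mono (by rintro _ ⟨t, rfl⟩; exact ⟨Finsupp.single t 1, by simp⟩)
  have h3 : ∀ x, ‖Finsupp.linearCombination ℝ b (LinearEquiv.refl ℝ (T →₀ ℝ) x)‖ =
      ‖Finsupp.linearCombination ℝ a x‖ := fun x => by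
    rw [norm_eq_sqrt_real_inner, norm_eq_sqrt_real_inner]
    simp only [LinearEquiv.refl_apply, Finsupp.linearCombination_apply, Finsupp.sum, sum_inner,
      inner_sum, real_inner_smul_left, real_inner_smul_right, h]
  refine ⟨(LinearEquiv.refl ℝ (T →₀ ℝ)).extendOfIsometry _ _ h1 h2 h3, fun t => ?_⟩
  simpa using (LinearEquiv.refl ℝ (T →₀ ℝ)).extendOfIsometry_eq _ _ h1 h2 h3 (Finsupp.single t 1)

theorem exists_unitary (U : UpL2 Γ) (U' : UpL2 Γ') (Φ : Fam P k → Fam P' l)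
    (hin : ∀ Ω Ω', IsT Γ Ω → IsT Γ Ω' →
      ⟪U'.j l (Φ Ω), U'.j l (Φ Ω')⟫_ℝ = ⟪U.j k Ω, U.j k Ω'⟫_ℝ)
    (hs : ∀ Θ, IsT Γ' Θ → ∃ Ω, IsT Γ Ω ∧ U'.j l (Φ Ω) = U'.j l Θ) :
    ∃ V : U.H k ≃ₗᵢ[ℝ] U'.H l, ∀ Ω, IsT Γ Ω → V (U.j k Ω) = U'.j l (Φ Ω) := by
  obtain ⟨V, hV⟩ := exists_unitary_of_dense (T := {Ω : Fam P k // IsT Γ Ω})
    (a := fun Ω => U.j k Ω.1) (b := fun Ω => U'.j l (Φ Ω.1))
    ((U.dense k).mono (by rintro _ ⟨Ω, h, rfl⟩; exact ⟨⟨Ω, h⟩, rfl⟩))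
    ((U'.dense l).mono (by
      rintro _ ⟨Θ, h, rfl⟩
      obtain ⟨Ω, h1, h2⟩ := hs Θ h
      exact ⟨⟨Ω, h1⟩, h2⟩)) fun s t => hin _ _ s.2 t.2
  exact ⟨V, fun Ω h => hV ⟨Ω, h⟩⟩

end Pool.Agent.Lib.MP_75c153_gt.Ft
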