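import Pool.Agent.Lib.MP_75c153_gt.Ft.UOp
import Pool.Agent.Lib.MP_75c153_gt.Ft.SBas

/-! Neighbours of a piece. -/

open MeasureTheory Filter Topology Set
open scoped ContDiff InnerProductSpace

namespace Pool.Agent.Lib.MP_75c153_gt.Ft

open Pool.Agent.Lib.MP_570070_gt.An

variable {c : Par} {P : Type} {Γ : Gl c P}

/-- A piece and its neighbours. -/
def Gl.nb (Γ : Gl c P) (p : P) : Set P := {q | q = p ∨ ∃ e, Γ.σ e q = p}

theorem wt_nb {p q : P} {y : Eu 5} (hy : y ∈ DR c)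
    (h : q = p ∨ ∃ e, Γ.σ e q = p ∧ sc e y < 1) : wt Γ (indicator (Γ.nb p) 1) q y = 1 := by
  rcases h with rfl | ⟨e, h1, h2⟩
  · rw [wt_congr (a' := fun _ => 1) (indicator_of_mem (s := Γ.nb q) (Or.inl rfl) _)
      fun e => indicator_of_mem (s := Γ.nb q) (Or.inr ⟨e, Γ.invol e q⟩) _, wt_const]
  · rw [wt, sum_collar hy (e := e) (by linarith) _ fun e' h => by
      rw [kap_eq_zero (by linarith), mul_zero], indicator_of_mem (s := Γ.nb p) (Or.inl h1),
      indicator_of_mem (s := Γ.nb p) (Or.inr ⟨e, h1⟩)]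
    simp

theorem UpL2.inner_sq_le_nb (U : UpL2 Γ) {k : ℕ} {p : P} {Ω : Fam P k} (h : IsT Γ Ω)
    (g : InPiece Γ p Ω) (η : U.H k) : ⟪η, U.j k Ω⟫_ℝ ^ 2 ≤
      ⟪U.m (wt Γ (indicator (Γ.nb p) 1)) k η, η⟫_ℝ * ‖U.j k Ω‖ ^ 2 := by
  have hw := isFn_wt_ind (Γ := Γ) (Γ.nb p)
  have e : U.m (wt Γ (indicator (Γ.nb p) 1)) k (U.j k Ω) = U.j k Ω := by
    rw [U.m_j hw h]
    refine U.j_congr h fun q y hy => ?_
    by_cases h0 : Ω q y = 0
    · rw [h0, smul_zero]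
    · rw [wt_nb hy (g q y hy h0), one_smul]
  have := U.inner_m_sq_le hw (fun q y hy => wt_ind_nonneg _ q hy) η (U.j k Ω)
  rwa [U.m_sym hw η, e, real_inner_self_eq_norm_sq] at this

variable [Fintype P]

theorem UpL2.sum_m (U : UpL2 Γ) {k : ℕ} (f : U.H k) :
    ∑ p, U.m (wt Γ (indicator {p} 1)) k f = f := by
  rw [← U.m_sum _ fun p _ => isFn_wt_ind {p}, U.m_congr (IsFn.sum _ fun p _ => isFn_wt_ind {p})
    (IsFn.const 1) fun q y hy => sum_wt_single _ hy (Finset.mem_univ _)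
      fun _ _ => Finset.mem_univ _, U.m_const, one_smul]

theorem UpL2.sum_inner_m (U : UpL2 Γ) {k : ℕ} (f : U.H k) :
    ∑ p, ⟪U.m (wt Γ (indicator {p} 1)) k f, f⟫_ℝ = ‖f‖ ^ 2 := by
  rw [← sum_inner, U.sum_m, real_inner_self_eq_norm_sq]

theorem UpL2.sum_nb (U : UpL2 Γ) {k : ℕ} (f : U.H k) :
    ∑ p, ⟪U.m (wt Γ (indicator (Γ.nb p) 1)) k f, f⟫_ℝ ≤ (Fintype.card (Ed c) + 1) * ‖f‖ ^ 2 := by
  classical
  have h : ∀ q, ∑ p, indicator (Γ.nb p) (1 : P → ℝ) q ≤ Fintype.card (Ed c) + 1 := fun q => by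
    refine (Finset.sum_le_sum (g := fun p => (∑ e, if Γ.σ e q = p then 1 else 0) +
      if q = p then 1 else 0) fun p _ => ?_).trans_eq ?_
    · have h1 : ∀ e, (0 : ℝ) ≤ if Γ.σ e q = p then 1 else 0 := fun e => by positivity
      have h2 := Finset.sum_nonneg (s := Finset.univ) fun e _ => h1 e
      have h3 : (0 : ℝ) ≤ if q = p then 1 else 0 := by positivity
      by_cases h : q ∈ Γ.nb p
      · rw [indicator_of_mem h, Pi.one_apply]
        rcases h with h | ⟨e, h⟩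
        · rw [if_pos h]
          linarith
        · have h4 := Finset.single_le_sum (fun e _ => h1 e) (Finset.mem_univ e)
          rw [if_pos h] at h4
          linarith
      · rw [indicator_of_notMem h]
        linarith
    · rw [Finset.sum_add_distrib, Finset.sum_comm]
      simp
  rw [← sum_inner, ← U.m_sum _ fun p _ => isFn_wt_ind (Γ.nb p)]
  refine U.m_le_const (IsFn.sum _ fun p _ => isFn_wt_ind _) (fun q y hy => ?_) f
  exact (wt_sum Finset.univ (fun p => indicator (Γ.nb p) (1 : P → ℝ)) q y).symm.trans_le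
    (wt_le (a := fun q => ∑ p, indicator (Γ.nb p) (1 : P → ℝ) q) (h q) (fun e => h _) hy)

/-- Forms that live in different pieces are almost orthogonal. -/
theorem UpL2.norm_sum_le (U : UpL2 Γ) {k : ℕ} {A : P → Fam P k} (h : ∀ p, IsT Γ (A p))
    (g : ∀ p, InPiece Γ p (A p)) :
    ‖∑ p, U.j k (A p)‖ ^ 2 ≤ (Fintype.card (Ed c) + 1) * ∑ p, ‖U.j k (A p)‖ ^ 2 := by
  set z := ∑ p, U.j k (A p) with hz
  have h1 : ‖z‖ ^ 2 = ∑ p, ⟪z, U.j k (A p)⟫_ℝ := by
    rw [← inner_sum, ← hz, real_inner_self_eq_norm_sq]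
  have h2 : (∑ p, ⟪z, U.j k (A p)⟫_ℝ) ^ 2 ≤ _ :=
    Finset.sum_sq_le_sum_mul_sum_of_sq_le_mul _ (fun p _ => U.m_pos (isFn_wt_ind (Γ.nb p))
      (fun q y hy => wt_ind_nonneg _ q hy) z) (fun p _ => sq_nonneg _)
      fun p _ => U.inner_sq_le_nb (h p) (g p) z
  have h3 := mul_le_mul_of_nonneg_right (U.sum_nb z)
    (Finset.sum_nonneg (s := Finset.univ) fun p _ => sq_nonneg ‖U.j k (A p)‖)
  rw [← h1] at h2
  rcases (sq_nonneg ‖z‖).eq_or_lt with h0 | h0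
  · rw [← h0]
    positivity
  · exact le_of_mul_le_mul_left (by nlinarith) h0

end Pool.Agent.Lib.MP_75c153_gt.Ft
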