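import Pool.Agent.Lib.MP_75c153_gt.Ft.Sol1
import Pool.Agent.Lib.MP_75c153_gt.Ft.Nb
import Pool.Agent.Lib.MP_75c153_gt.Ft.Star

/-! A uniform bound for the inverse of the codifferential on coexact 1-forms. -/

open MeasureTheory Filter Topology Set
open scoped ContDiff InnerProductSpace

namespace Pool.Agent.Lib.MP_75c153_gt.Ft

open Pool.Agent.Lib.MP_570070_gt.An

variable {c : Par} {P : Type} {Γ : Gl c P}

/-- The pointwise scalar product as a function. -/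
noncomputable def ipF (c : Par) (θ ψ : Fam P 1) : Fam P 0 :=
  fun p y => f0 (ipUp c y (θ p y) (ψ p y))

theorem h1_f0_comp (h : ℝ) (A : Eu 5 →L[ℝ] Eu 5) : (f0 h).compContinuousLinearMap A = f0 h := by
  ext v
  rfl

theorem h1_f0_zero : f0 0 = 0 := by
  ext v
  rfl

theorem h1_c0_f0 (t : ℝ) : c0 (f0 t) = t := rfl

theorem h1_eq_smul (α : Alt 5 0) : α = c0 α • f0 1 := by
  ext v
  rw [Subsingleton.elim v ![]]
  simp [c0, f0_apply]

theorem h1_contDiffOn_ip {α β : Eu 5 → Alt 5 1} (hα : ContDiffOn ℝ ∞ α (DR c))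
    (hβ : ContDiffOn ℝ ∞ β (DR c)) :
    ContDiffOn ℝ ∞ (fun y => ipUp c y (α y) (β y)) (DR c) := by
  simp only [ipUp_one_deg]
  refine ContDiffOn.sum fun i _ => ?_
  exact (((contDiffOn_ell i).pow 2).inv fun y hy => pow_ne_zero 2 (ell_pos hy i).ne').mul
    (((comp_ev _).comp_contDiffOn hα).mul ((comp_ev _).comp_contDiffOn hβ))

theorem h1_smul_comp {k : ℕ} (t : ℝ) (α : Alt 5 k) (A : Eu 5 →L[ℝ] Eu 5) :
    (t • α).compContinuousLinearMap A = t • α.compContinuousLinearMap A := by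
  ext v
  simp

theorem h1_diff_kap (e : Ed c) {y : Eu 5} (hy : y ∈ DR c) : DifferentiableAt ℝ (kap e) y :=
  ((contDiffOn_kap e).contDiffAt (isOpen_DR.mem_nhds hy)).differentiableAt (by simp)

theorem h1_ind (p q : P) (e : Ed c) :
    indicator {p} (1 : P → ℝ) (Γ.σ e q) = indicator {Γ.σ e p} (1 : P → ℝ) q := by
  by_cases h : q = Γ.σ e p
  · rw [indicator_of_mem (s := {Γ.σ e p}) h,
      indicator_of_mem (s := {p}) (by rw [h, Γ.invol]; rfl)]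
    rfl
  · rw [indicator_of_notMem (s := {Γ.σ e p}) h, indicator_of_notMem (s := {p})
      (fun h1 => h (by rw [← mem_singleton_iff.1 h1, Γ.invol]))]

theorem h1_mem {p q : P} {e : Ed c} {y : Eu 5} (h : th Γ p e q y ≠ 0) :
    q = p ∨ q = Γ.σ e p := by
  by_contra hc
  rw [not_or] at hc
  refine h ?_
  rw [th, indicator_of_notMem (s := {Γ.σ e p}) hc.2, indicator_of_notMem (s := {p}) hc.1,
    sub_self, zero_smul]

theorem h1_wedge_sum {k : ℕ} {ι : Type} (s : Finset ι) (ℓ : ι → Eu 5 →L[ℝ] ℝ) (α : Alt 5 k) :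
    wedge (∑ i ∈ s, ℓ i) α = ∑ i ∈ s, wedge (ℓ i) α := by
  classical
  induction s using Finset.induction_on with
  | empty => simp [wedge_zero_left]
  | insert a s ha ih => rw [Finset.sum_insert ha, Finset.sum_insert ha, wedge_add_left, ih]

theorem h1_ip_sum {k : ℕ} {ι : Type} (s : Finset ι) (y : Eu 5) (α : ι → Alt 5 k) (β : Alt 5 k) :
    ipUp c y (∑ i ∈ s, α i) β = ∑ i ∈ s, ipUp c y (α i) β := by
  classical
  induction s using Finset.induction_on with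
  | empty => simp [ipUp_zero_left]
  | insert a s ha ih => rw [Finset.sum_insert ha, Finset.sum_insert ha, ipUp_add_left, ih]

theorem h1_isT_neg {k : ℕ} {Ω : Fam P k} (h : IsT Γ Ω) : IsT Γ (-Ω) := by
  rw [← neg_one_smul ℝ Ω]
  exact h.smul _

theorem h1_j_neg {k : ℕ} (U : UpL2 Γ) {Ω : Fam P k} (h : IsT Γ Ω) : U.j k (-Ω) = -U.j k Ω := by
  rw [← neg_one_smul ℝ Ω, U.j_smul h, neg_one_smul]

theorem h1_lk_neg {k : ℕ} {Ω : Fam P k} {p : P} {K : Set (Eu 5)} (h : LK Γ p K Ω) :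
    LK Γ p K (-Ω) :=
  h.of_zero fun q y _ h0 => by rw [Pi.neg_apply, Pi.neg_apply, h0, neg_zero]

theorem h1_ipF_neg (θ ψ : Fam P 1) : ipF c (-θ) ψ = -ipF c θ ψ := by
  funext q y
  rw [Pi.neg_apply, Pi.neg_apply, ipF, ipF, Pi.neg_apply, Pi.neg_apply, ← neg_one_smul ℝ (θ q y),
    ipUp_smul_left, f0_smul]
  ext v
  simp

theorem h1_Ic_sub (e : Ed c) : Ic e (3 / 4) ⊆ Ia c (-3 / 4) := fun y hy => by
  refine ⟨hy.1, fun e' => ?_⟩
  have h := abs_le.1 hy.2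
  by_cases he : e = e'
  · rw [← he]
    linarith [h.1]
  · linarith [sc_disj hy.1 he (by linarith [h.2])]

theorem h1_Ic_flip {e : Ed c} {a : ℝ} (ha : a < 1) {y : Eu 5} (hy : y ∈ Ic e a) :
    flipPt e y ∈ Ic e a ∧ Flip e y (flipPt e y) := by
  have h := flip_flipPt hy.1 ((le_abs_self _).trans_lt (hy.2.trans_lt ha))
  exact ⟨⟨h.2.1, by rw [h.sc_eq, abs_neg]; exact hy.2⟩, h⟩

/-- IsT.of_link, IsT.link, Link.ipUp_lk; smooth by ipUp_one_deg. -/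
theorem IsT.ipF {θ ψ : Fam P 1} (h : IsT Γ θ) (h' : IsT Γ ψ) : IsT Γ (ipF c θ ψ) := by
  refine IsT.of_link (fun p => contDiff_f0.comp_contDiffOn
    (h1_contDiffOn_ip (h.smooth p) (h'.smooth p))) (fun p o y y' hl => ?_) ?_
  · rw [Ft.ipF, Ft.ipF, h1_f0_comp, h.link p hl, h'.link p hl, hl.ipUp_lk]
  · refine h.fin.subset ?_
    rintro p ⟨y, hy, hne⟩
    refine ⟨y, hy, fun h0 => hne ?_⟩
    rw [Ft.ipF, h0, ipUp_zero_left, h1_f0_zero]

/-- The differential of kap e is compatible with the identifications: Link.fderiv_eq with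
Same.kap_eq, Flip.kap_eq; for another edge both sides vanish (fderiv_kap_eq_zero, sc_disj). -/
theorem isT_th (p : P) (e : Ed c) : IsT Γ (th Γ p e) := by
  refine ⟨fun q => (ContDiffOn.wedge ((contDiffOn_kap e).fderiv_of_isOpen isOpen_DR (by simp))
    contDiffOn_const).const_smul _, fun q y y' h => ?_, fun q e' y y' h => ?_, ?_⟩
  · have h1 := Link.fderiv_eq (o := none) h (h1_diff_kap e h.2.1)
      fun z z' hz => (Same.kap_eq hz e).symm
    rw [th, th, h1_smul_comp, wedge_comp, h1_f0_comp, h1, lk_none]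
  · rw [th, th, h1_smul_comp, wedge_comp, h1_f0_comp]
    by_cases he : e' = e
    · subst he
      have h1 := Link.fderiv_eq (o := some e') (f := fun z => 1 - kap e' z) (g := kap e') h
        ((h1_diff_kap e' h.2.1).const_sub 1) fun z z' hz => by
          rw [Flip.kap_eq hz, sub_sub_cancel]
      rw [h1, fderiv_const_sub, ContinuousLinearMap.neg_comp, lk_some, ← neg_one_smul ℝ
        ((fderiv ℝ (kap e') y').comp (fl e' y y')), wedge_smul_left, smul_smul, h1_ind, h1_ind,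
        Γ.invol]
      congr 1
      ring
    · have h1 := sc_disj h.1 he (by linarith [h.sc_lt])
      have h2 := sc_disj h.2.1 he (by linarith [h.symm.sc_lt])
      rw [fderiv_kap_eq_zero h.1 (by linarith [le_abs_self (sc e y)]),
        fderiv_kap_eq_zero h.2.1 (by linarith [le_abs_self (sc e y')]),
        ContinuousLinearMap.zero_comp, wedge_zero_left, smul_zero, smul_zero]
  · refine ((finite_singleton (Γ.σ e p)).insert p).subset ?_
    rintro q ⟨y, -, h⟩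
    exact h1_mem h

/-- wedge (fderiv kap) (f0 1) is extDeriv of f0 ∘ kap near y; extDeriv_extDeriv_apply. -/
theorem dF_th (p : P) (e : Ed c) (q : P) {y : Eu 5} (hy : y ∈ DR c) : dF (th Γ p e) q y = 0 := by
  set a := indicator {Γ.σ e p} (1 : P → ℝ) q - indicator {p} (1 : P → ℝ) q with ha
  have h1 : th Γ p e q =ᶠ[𝓝 y] extDeriv fun z => (a * kap e z) • f0 1 := by
    filter_upwards [isOpen_DR.mem_nhds hy] with z hz
    have h2 : extDeriv (fun _ : Eu 5 => f0 1) z = 0 := by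
      rw [extDeriv]
      ext v
      simp [ContinuousAlternatingMap.alternatizeUncurryFin_apply]
    rw [extDeriv_fun_smul' ((h1_diff_kap e hz).const_mul a) (differentiableAt_const _), h2,
      smul_zero, zero_add, fderiv_const_mul (h1_diff_kap e hz), wedge_smul_left, th]
  rw [dF, h1.extDeriv_eq]
  exact extDeriv_extDeriv_apply ((contDiffAt_const.mul
    ((contDiffOn_kap e).contDiffAt (isOpen_DR.mem_nhds hy))).smul contDiffAt_const) ualg_min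

theorem th_σ (p : P) (e : Ed c) : th Γ (Γ.σ e p) e = -th Γ p e := by
  funext q y
  rw [Pi.neg_apply, Pi.neg_apply, th, th, Γ.invol, ← neg_sub]
  ext v
  simp [sub_mul]

theorem sum_th (p q : P) {y : Eu 5} (hy : y ∈ DR c) :
    wedge (fderiv ℝ (wt Γ (indicator {p} 1) q) y) (f0 1) = ∑ e, th Γ p e q y := by
  have h1 : HasFDerivAt (wt Γ (indicator {p} 1) q)
      (∑ e, (indicator {p} (1 : P → ℝ) (Γ.σ e q) - indicator {p} (1 : P → ℝ) q) •
        fderiv ℝ (kap e) y) y :=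
    (HasFDerivAt.fun_sum fun e _ => (h1_diff_kap e hy).hasFDerivAt.const_mul _).const_add _
  rw [h1.fderiv, h1_wedge_sum]
  refine Finset.sum_congr rfl fun e _ => ?_
  rw [wedge_smul_left, h1_ind, th]

/-- fderiv_kap_eq_zero, Same.refl or flip_flipPt. -/
theorem lk_th (p : P) (e : Ed c) : LK Γ p (Ic e (1 / 2)) (th Γ p e) := by
  intro q y hy h
  have h1 : y ∈ Ic e (1 / 2) := ⟨hy, not_lt.1 fun h2 => h (by
    rw [th, fderiv_kap_eq_zero hy h2, wedge_zero_left, smul_zero])⟩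
  rcases h1_mem h with h2 | h2
  · exact ⟨none, y, h1, Same.refl hy, h2⟩
  · obtain ⟨h3, h4⟩ := h1_Ic_flip (by norm_num) h1
    exact ⟨some e, _, h3, h4, by rw [h2]; exact Γ.invol e p⟩

/-- Pointwise: ipUp_sq_le, ipUp_wedge_le, exists_grad_kap, wt_nb with LK.inPiece. -/
theorem norm_ipF_th (c : Par) : ∃ C : ℝ, 0 ≤ C ∧ ∀ {P : Type} (Γ : Gl c P) (U : UpL2 Γ) (p : P)
    (e : Ed c) (ψ : Fam P 1), IsT Γ ψ → ‖U.j 0 (ipF c (th Γ p e) ψ)‖ ^ 2 ≤
      C * ⟪U.m (wt Γ (indicator (Γ.nb p) 1)) 1 (U.j 1 ψ), U.j 1 ψ⟫_ℝ := by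
  obtain ⟨c₀, -, hc⟩ := exists_grad_kap c
  refine ⟨c₀ ^ 2, sq_nonneg _, fun {P} Γ U p e ψ h => ?_⟩
  have hw := isFn_wt_ind (Γ := Γ) (Γ.nb p)
  have h1 := (isT_th (Γ := Γ) p e).ipF h
  have h2 := (hw.isT_smul h).isC_ip h
  rw [U.norm_sq_intF h1, U.m_j hw h, U.inner_intF (hw.isT_smul h) h, ← intF_const_mul h2]
  refine intF_mono (h1.isC_ip h1) (h2.const_mul _) fun q y hy => ?_
  have h3 := ipUp_self_nonneg (c := c) (y := y) (ψ q y)
  rw [ipUp_smul_left, ipUp_zero_deg, ipF, h1_c0_f0, ← sq]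
  by_cases h0 : th Γ p e q y = 0
  · rw [h0, ipUp_zero_left, zero_pow two_ne_zero]
    exact mul_nonneg (sq_nonneg _) (mul_nonneg (wt_ind_nonneg _ q hy) h3)
  · rw [wt_nb hy ((lk_th p e).inPiece q y hy h0), one_mul]
    refine (ipUp_sq_le _ _).trans (mul_le_mul_of_nonneg_right ?_ h3)
    have h4 := ipUp_wedge_le (c := c) (y := y) (fderiv ℝ (kap e) y) (f0 1)
    have h5 := ipUp_self_nonneg (c := c) (y := y) (wedge (fderiv ℝ (kap e) y) (f0 1))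
    have h6 := hc e y hy
    rw [ipUp_zero_deg, h1_c0_f0] at h4
    have a1 := ufn_ind_nonneg {Γ.σ e p} q
    have a2 := ufn_ind_le {Γ.σ e p} q
    have a3 := ufn_ind_nonneg {p} q
    have a4 := ufn_ind_le {p} q
    rw [th, ipUp_smul_left, ipUp_smul_right, ← mul_assoc]
    set a := indicator {Γ.σ e p} (1 : P → ℝ) q - indicator {p} (1 : P → ℝ) q with ha
    have a5 : a * a ≤ 1 := by nlinarith
    have a6 := mul_le_mul_of_nonneg_right a5 h5
    simp only [Nat.cast_zero, zero_add, one_mul, mul_one] at h4 a6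
    linarith

theorem UpL2.one_ipF [Finite P] (U : UpL2 Γ) {θ ψ : Fam P 1} (h : IsT Γ θ) (h' : IsT Γ ψ) :
    ⟪U.one, U.j 0 (ipF c θ ψ)⟫_ℝ = ⟪U.j 1 θ, U.j 1 ψ⟫_ℝ := by
  rw [UpL2.one, U.inner_intF isT_one (h.ipF h'), U.inner_intF h h']
  refine intF_congr fun p y _ => ?_
  rw [ipUp_zero_deg, ofFn, Ft.ipF, h1_c0_f0, h1_c0_f0, one_mul]

/-- Leibniz rule. For a test function f: w df = d (w f) - f dw (Tr.dF_mul for Tr.ofFn), the first
term pairs to zero with ψ, and wedge ℓ (f q y) = c0 (f q y) • wedge ℓ (f0 1); sum_th. -/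
theorem UpL2.wcod_chi (U : UpL2 Γ) {ψ : Fam P 1} (h : IsT Γ ψ) (h0 : WCod U.D 0 (U.j 1 ψ) 0)
    (p : P) : WCod U.D 0 (U.j 1 fun q y => wt Γ (indicator {p} 1) q y • ψ q y)
      (-∑ e, U.j 0 (ipF c (th Γ p e) ψ)) := by
  rintro _ _ ⟨f, hf, rfl, rfl⟩
  have hw := isFn_wt_ind (Γ := Γ) {p}
  have h1 := h0 _ _ (U.D_j (hw.isT_smul hf))
  have h2 : ∀ e ∈ Finset.univ, IsT Γ (ipF c (th Γ p e) ψ) := fun e _ => (isT_th p e).ipF h
  rw [inner_zero_right, U.inner_intF (hw.isT_smul hf).dF h] at h1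
  rw [inner_neg_right, ← U.j_sum _ h2, eq_neg_iff_add_eq_zero, ← h1,
    U.inner_intF hf.dF (hw.isT_smul h), U.inner_intF hf (IsT.sum _ h2),
    ← intF_add (hf.dF.isC_ip (hw.isT_smul h)) (hf.isC_ip (IsT.sum _ h2))]
  refine intF_congr fun q y hy => ?_
  have h3 : dF (fun q y => wt Γ (indicator {p} 1) q y • f q y) q y =
      wt Γ (indicator {p} 1) q y • dF f q y +
        wedge (fderiv ℝ (wt Γ (indicator {p} 1) q) y) (f q y) := (Tr.ofFn hw).dF_mul hf q hy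
  have h4 : c0 ((∑ e, ipF c (th Γ p e) ψ) q y) = ∑ e, ipUp c y (th Γ p e q y) (ψ q y) := by
    rw [Finset.sum_apply, Finset.sum_apply, c0, ContinuousAlternatingMap.sum_apply]
    rfl
  rw [h3, ipUp_add_left, ipUp_smul_left, ipUp_smul_right, ipUp_zero_deg, h4, ← h1_ip_sum,
    ← sum_th p q hy, ← ipUp_smul_left (c0 (f q y)), ← wedge_smul_right, ← h1_eq_smul]

/-- The corrections on the collars. sol0_Ic gives γ₀ p e for f = ipF (th p e) ψ (lk_th,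
LK.of_zero, one_ipF, dF_th); γ p e = γ₀ p e if side p = true and - γ₀ (σ e p) e otherwise (th_σ,
side_σ, LK.flip with flip_flipPt, sc_disj); norm_ipF_th and sum_nb. -/
theorem exists_gam (c : Par) : ∃ C : ℝ, 0 ≤ C ∧ ∀ {P : Type} [Fintype P] (Γ : Gl c P) (U : UpL2 Γ)
    (ψ : Fam P 1), IsT Γ ψ → (∀ a, U.D 1 a 0 → ⟪a, U.j 1 ψ⟫_ℝ = 0) →
      ∃ γ : P → Ed c → Fam P 1, (∀ p e, IsT Γ (γ p e) ∧ LK Γ p (Ia c (-3 / 4)) (γ p e) ∧
        WCod U.D 0 (U.j 1 (γ p e)) (U.j 0 (ipF c (th Γ p e) ψ)) ∧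
        γ (Γ.σ e p) e = -γ p e) ∧
        ∀ e, ∑ p, ‖U.j 1 (γ p e)‖ ^ 2 ≤ C * ‖U.j 1 ψ‖ ^ 2 := by
  obtain ⟨C₁, hC₁, H₁⟩ := sol0_Ic c
  obtain ⟨C₂, hC₂, H₂⟩ := norm_ipF_th c
  refine ⟨2 * (C₁ * (C₂ * (Fintype.card (Ed c) + 1))), by positivity,
    fun {P} _ Γ U ψ h h0 => ?_⟩
  have h1 : ∀ (p : P) (e : Ed c), ⟪U.one, U.j 0 (ipF c (th Γ p e) ψ)⟫_ℝ = 0 := fun p e => by
    rw [U.one_ipF (isT_th p e) h]
    refine h0 _ ?_
    have h2 := U.D_j (isT_th (Γ := Γ) p e)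
    rwa [U.j_congr (Ω' := dF (th Γ p e)) IsT.zero fun q y hy => dF_th p e q hy, U.j_zero] at h2
  choose γ g1 g2 g3 g4 using fun (p : P) (e : Ed c) => H₁ Γ U p e _ ((isT_th p e).ipF h)
    ((lk_th p e).of_zero fun q y _ h2 => by rw [ipF, h2, ipUp_zero_left, h1_f0_zero]) (h1 p e)
  refine ⟨fun p e => if Γ.side p = true then γ p e else -γ (Γ.σ e p) e, fun p e => ?_,
    fun e => ?_⟩
  · beta_reduce
    rw [Γ.side_σ, Γ.invol]
    cases Γ.side p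
    · simp only [Bool.false_eq_true, if_false, Bool.not_false, if_true, neg_neg, and_true]
      refine ⟨h1_isT_neg (g1 _ e), h1_lk_neg ((g2 _ e).flip fun y hy => ?_), ?_⟩
      · obtain ⟨h3, h4⟩ := h1_Ic_flip (by norm_num) hy
        exact ⟨_, h1_Ic_sub e h3, h4⟩
      · have h3 := wcod_smul (g3 (Γ.σ e p) e) (-1)
        rwa [th_σ, h1_ipF_neg, h1_j_neg U ((isT_th p e).ipF h), neg_one_smul, neg_one_smul,
          neg_neg, ← h1_j_neg U (g1 _ e)] at h3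
    · simp only [Bool.false_eq_true, if_false, Bool.not_true, if_true, and_true]
      exact ⟨g1 p e, (g2 p e).mono (h1_Ic_sub e), g3 p e⟩
  · have h2 : ∑ p, ‖U.j 1 (γ p e)‖ ^ 2 ≤
        C₁ * (C₂ * (Fintype.card (Ed c) + 1)) * ‖U.j 1 ψ‖ ^ 2 := by
      refine (Finset.sum_le_sum fun p _ => (g4 p e).trans
        (mul_le_mul_of_nonneg_left (H₂ Γ U p e ψ h) hC₁)).trans ?_
      rw [← Finset.mul_sum, ← Finset.mul_sum, mul_assoc, mul_assoc]
      exact mul_le_mul_of_nonneg_left (mul_le_mul_of_nonneg_left (U.sum_nb _) hC₂) hC₁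
    have h3 : ∑ p, ‖U.j 1 (γ (Γ.σ e p) e)‖ ^ 2 = ∑ p, ‖U.j 1 (γ p e)‖ ^ 2 :=
      Equiv.sum_comp (Function.Involutive.toPerm _ (Γ.invol e)) fun p => ‖U.j 1 (γ p e)‖ ^ 2
    refine (Finset.sum_le_sum (g := fun p => ‖U.j 1 (γ p e)‖ ^ 2 + ‖U.j 1 (γ (Γ.σ e p) e)‖ ^ 2)
      fun p _ => ?_).trans ?_
    · beta_reduce
      split_ifs
      · exact le_add_of_nonneg_right (sq_nonneg _)
      · rw [h1_j_neg U (g1 _ e), norm_neg]
        exact le_add_of_nonneg_left (sq_nonneg _)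
    · rw [Finset.sum_add_distrib, h3]
      linarith

/-- ψ p = wt p • ψ + ∑ e, γ p e is coclosed (wcod_chi; ψ is coclosed by U.dd), lives in
Ia (-3 / 4) of p (lcl_wt, Lcl.lk), the sum over p is ψ (sum_m; Finset.sum_involution or
Equiv.sum_comp for γ); sol1_piece, wcod_sum, norm_sum_le. -/
theorem exists_h1' (c : Par) : ∃ C : ℝ, 0 ≤ C ∧ ∀ {P : Type} [Fintype P] (Γ : Gl c P) (U : UpL2 Γ)
    (ψ : Fam P 1), IsT Γ ψ → (∀ a, U.D 1 a 0 → ⟪a, U.j 1 ψ⟫_ℝ = 0) →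
      ∃ φ : Fam P 2, IsT Γ φ ∧ WCod U.D 1 (U.j 2 φ) (U.j 1 ψ) ∧
        ‖U.j 2 φ‖ ^ 2 ≤ C * ‖U.j 1 ψ‖ ^ 2 := by
  obtain ⟨C₁, hC₁, H₁⟩ := exists_gam c
  obtain ⟨C₂, hC₂, H₂⟩ := sol1_piece c
  refine ⟨(Fintype.card (Ed c) + 1) *
    (C₂ * (2 + 2 * (Fintype.card (Ed c) * (Fintype.card (Ed c) * C₁)))), by positivity,
    fun {P} _ Γ U ψ h h0 => ?_⟩
  obtain ⟨γ, g, g5⟩ := H₁ Γ U ψ h h0
  have h1 : WCod U.D 0 (U.j 1 ψ) 0 := fun a b hab => by rw [h0 b (U.dd hab), inner_zero_right]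
  have hw : ∀ p, IsFn Γ (wt Γ (indicator {p} 1)) := fun p => isFn_wt_ind {p}
  set χ : P → Fam P 1 := fun p =>
    (fun q y => wt Γ (indicator {p} 1) q y • ψ q y) + ∑ e, γ p e with hχ
  have t1 : ∀ p, IsT Γ (∑ e, γ p e) := fun p => IsT.sum _ fun e _ => (g p e).1
  have t2 : ∀ p, U.j 1 (χ p) = U.j 1 (fun q y => wt Γ (indicator {p} 1) q y • ψ q y) +
      ∑ e, U.j 1 (γ p e) := fun p => by
    rw [hχ, U.j_add ((hw p).isT_smul h) (t1 p), U.j_sum _ fun e _ => (g p e).1]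
  have t3 : ∀ p, WCod U.D 0 (U.j 1 (χ p)) 0 := fun p => by
    have := wcod_add (U.wcod_chi h h1 p) (wcod_sum Finset.univ fun e _ => (g p e).2.2.1)
    rwa [neg_add_cancel, ← t2] at this
  have t4 : ∀ p, LK Γ p (Ia c (-3 / 4)) (χ p) := fun p =>
    LK.add ((lcl_wt p ψ).lk.mono fun y hy => ⟨hy.1, fun e => by linarith [hy.2 e]⟩)
      (LK.sum _ fun e _ => (g p e).2.1)
  choose φ f1 f2 f3 f4 using fun p =>
    H₂ Γ U p (χ p) (((hw p).isT_smul h).add (t1 p)) (t4 p) (t3 p)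
  have s1 : ∀ e, ∑ p, U.j 1 (γ p e) = 0 := fun e => by
    have h3 : ∑ p, U.j 1 (γ (Γ.σ e p) e) = ∑ p, U.j 1 (γ p e) :=
      Equiv.sum_comp (Function.Involutive.toPerm _ (Γ.invol e)) fun p => U.j 1 (γ p e)
    rw [Finset.sum_congr rfl fun p _ => by rw [(g p e).2.2.2, h1_j_neg U (g p e).1],
      Finset.sum_neg_distrib, neg_eq_iff_add_eq_zero, ← two_smul ℝ] at h3
    exact (smul_eq_zero.1 h3).resolve_left two_ne_zero
  have s2 : ∑ p, U.j 1 (χ p) = U.j 1 ψ := by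
    rw [Finset.sum_congr rfl fun p _ => by rw [t2, ← U.m_j (hw p) h], Finset.sum_add_distrib,
      U.sum_m, Finset.sum_comm, Finset.sum_eq_zero fun e _ => s1 e, add_zero]
  have s3 : ∀ p, ‖U.j 1 (χ p)‖ ^ 2 ≤
      2 * ⟪U.m (wt Γ (indicator {p} 1)) 1 (U.j 1 ψ), U.j 1 ψ⟫_ℝ +
        2 * (Fintype.card (Ed c) * ∑ e, ‖U.j 1 (γ p e)‖ ^ 2) := fun p => by
    have a1 : ‖U.m (wt Γ (indicator {p} 1)) 1 (U.j 1 ψ)‖ ^ 2 ≤
        1 * ⟪U.m (wt Γ (indicator {p} 1)) 1 (U.j 1 ψ), U.j 1 ψ⟫_ℝ := by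
      rw [U.norm_m_sq (hw p)]
      refine U.m_le (hw p).sq (hw p) (fun q y hy => ?_) _
      nlinarith [wt_ind_nonneg (Γ := Γ) {p} q hy, wt_ind_le_one (Γ := Γ) {p} q hy]
    have a2 : ‖∑ e, U.j 1 (γ p e)‖ ^ 2 ≤ Fintype.card (Ed c) * ∑ e, ‖U.j 1 (γ p e)‖ ^ 2 :=
      (pow_le_pow_left₀ (norm_nonneg _) (norm_sum_le _ _) 2).trans sq_sum_le_card_mul_sum_sq
    have a3 := pow_le_pow_left₀ (norm_nonneg _)
      (norm_add_le (U.m (wt Γ (indicator {p} 1)) 1 (U.j 1 ψ)) (∑ e, U.j 1 (γ p e))) 2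
    rw [t2, ← U.m_j (hw p) h]
    nlinarith [sq_nonneg (‖U.m (wt Γ (indicator {p} 1)) 1 (U.j 1 ψ)‖ - ‖∑ e, U.j 1 (γ p e)‖)]
  have s4 : ∑ p, ‖U.j 1 (χ p)‖ ^ 2 ≤
      (2 + 2 * (Fintype.card (Ed c) * (Fintype.card (Ed c) * C₁))) * ‖U.j 1 ψ‖ ^ 2 := by
    refine (Finset.sum_le_sum fun p _ => s3 p).trans ?_
    rw [Finset.sum_add_distrib, ← Finset.mul_sum, ← Finset.mul_sum, ← Finset.mul_sum,
      U.sum_inner_m, Finset.sum_comm]
    have a1 := Finset.sum_le_card_nsmul Finset.univ _ _ fun e _ => g5 e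
    rw [nsmul_eq_mul, Finset.card_univ] at a1
    have a2 := mul_le_mul_of_nonneg_left a1 (Nat.cast_nonneg (α := ℝ) (Fintype.card (Ed c)))
    linarith
  refine ⟨∑ p, φ p, IsT.sum _ fun p _ => f1 p, ?_, ?_⟩
  · rw [U.j_sum _ fun p _ => f1 p, ← s2]
    exact wcod_sum _ fun p _ => f3 p
  · rw [U.j_sum _ fun p _ => f1 p, mul_assoc]
    refine (U.norm_sum_le f1 f2).trans (mul_le_mul_of_nonneg_left ?_ (by positivity))
    refine (Finset.sum_le_sum fun p _ => f4 p).trans ?_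
    rw [← Finset.mul_sum, mul_assoc]
    exact mul_le_mul_of_nonneg_left s4 hC₂

theorem exists_h1 (c : Par) : ∃ C : ℝ, 0 ≤ C ∧ ∀ {P : Type} [Fintype P] (Γ : Gl c P) (U : UpL2 Γ)
    (φ : U.H 2) (ψ : U.H 1), (∃ x, U.D 2 φ x) → WCod U.D 1 φ ψ →
      ∃ φ', (∃ x, U.D 2 φ' x) ∧ WCod U.D 1 φ' ψ ∧ ‖φ'‖ ^ 2 ≤ C * ‖ψ‖ ^ 2 := by
  obtain ⟨C, hC, H⟩ := exists_h1' c
  refine ⟨C, hC, fun {P} _ Γ U φ ψ h1 h2 => ?_⟩
  obtain ⟨Ψ, h3, rfl⟩ := U.cod_test h1 h2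
  obtain ⟨φ', h4, h5, h6⟩ := H Γ U Ψ h3 fun a ha => by rw [← h2 a 0 ha, inner_zero_left]
  exact ⟨_, ⟨_, U.D_j h4⟩, h5, h6⟩

end Pool.Agent.Lib.MP_75c153_gt.Ft
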