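import Pool.Agent.Lib.MP_75c153_gt.Ft.GeoC
import Pool.Agent.Lib.MP_75c153_gt.Ft.VC

open MeasureTheory Filter Topology Set
open scoped ContDiff InnerProductSpace

namespace Pool.Agent.Lib.MP_75c153_gt.Ft

open Pool.Agent.Lib.MP_570070_gt.An

variable {c : Par} {K U : Set (Eu 5)}

/-- Extension by zero of a map with support in a compact subset of an open set. -/
theorem sm_indicator {B : Type} [NormedAddCommGroup B] [NormedSpace ℝ B] {F : Eu 5 → B}
    (hU : IsOpen U) (hF : ContDiffOn ℝ ∞ F U) (hK : IsCompact K) (hKU : K ⊆ U)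
    (hs : ∀ y ∈ U, F y ≠ 0 → y ∈ K) : Sm K (U.indicator F) := by
  have h0 : ∀ y, U.indicator F y ≠ 0 → y ∈ K := fun y hy => by
    have h1 : y ∈ U := mem_of_indicator_ne_zero hy
    rw [indicator_of_mem h1] at hy
    exact hs y h1 hy
  refine ⟨contDiff_iff_contDiffAt.2 fun y => ?_, h0⟩
  by_cases hy : y ∈ U
  · refine (hF.contDiffAt (hU.mem_nhds hy)).congr_of_eventuallyEq ?_
    filter_upwards [hU.mem_nhds hy] with z hz using indicator_of_mem hz _
  · refine (contDiffAt_const (c := 0)).congr_of_eventuallyEq ?_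
    filter_upwards [hK.isClosed.isOpen_compl.mem_nhds fun h => hy (hKU h)] with z hz
    by_contra h
    exact hz (h0 z h)

theorem indicator_eventuallyEq {B : Type} [Zero B] (F : Eu 5 → B) (hU : IsOpen U) {y : Eu 5}
    (hy : y ∈ U) : U.indicator F =ᶠ[𝓝 y] F := by
  filter_upwards [hU.mem_nhds hy] with z hz using indicator_of_mem hz _

theorem integrableOn_of_supp {F : Eu 5 → ℝ} (hU : IsOpen U) (hF : ContinuousOn F U)
    (hK : IsCompact K) (hKU : K ⊆ U) (hs : ∀ y ∈ U, F y ≠ 0 → y ∈ K) : IntegrableOn F U := by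
  refine ((hF.mono hKU).integrableOn_compact hK).of_forall_sdiff_eq_zero hU.measurableSet
    fun y hy => ?_
  by_contra h0
  exact hy.2 (hs y hy.1 h0)

/-- The integral of a function with support in U. -/
theorem integral_eq_on {F : Eu 5 → ℝ} (hs : ∀ y, F y ≠ 0 → y ∈ U) :
    ∫ y in U, F y = ∫ y, F y :=
  setIntegral_eq_integral_of_forall_compl_eq_zero fun y hy => by
    by_contra h
    exact hy (hs y h)

end Pool.Agent.Lib.MP_75c153_gt.Ft
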