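import Pool.Agent.Lib.MP_75c153_gt.Ft.UOp
import Pool.Agent.Lib.MP_570070_gt.An.AIface

open MeasureTheory Filter Topology Set
open scoped ContDiff InnerProductSpace

namespace Pool.Agent.Lib.MP_75c153_gt.Ft

open Pool.Agent.Lib.MP_570070_gt.An

variable {c : Par} {P P' : Type} {Γ : Gl c P} {Γ' : Gl c P'} {k : ℕ}

theorem udef_lin {x b g : ℝ} (s : ℝ) (h : x ^ 2 ≤ b * g) (hb : 0 ≤ b) (hg : 0 ≤ g) :
    2 * s * x ≤ s ^ 2 * b + g := by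
  refine (abs_le_of_sq_le_sq' ?_ (by positivity)).2
  nlinarith [mul_le_mul_of_nonneg_left h (sq_nonneg s), sq_nonneg (s ^ 2 * b - g)]

theorem udef_test (τ : Tr Γ Γ') {w₁ : Fn P'} {w₂ : Fn P}
    (h₁ : IsFn Γ' w₁) (h₂ : IsFn Γ w₂) (p₁ : ∀ p, ∀ y ∈ DR c, 0 ≤ w₁ p y)
    (p₂ : ∀ p, ∀ y ∈ DR c, 0 ≤ w₂ p y) {a : ℝ}
    (h : ∀ p, ∀ y ∈ DR c, gsq c y (fderiv ℝ (τ.w p) y) ≤ a ^ 2 * w₁ p y * w₂ (τ.f p) y)
    {Ω : Fam P k} {Θ : Fam P' (k + 1)} (hΩ : IsT Γ Ω) (hΘ : IsT Γ' Θ) :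
    intF c (fun p y => ipUp c y (Θ p y) (τ.wed Ω p y)) ^ 2 ≤
      (k + 1) * a ^ 2 * intF c (fun p y => w₁ p y * ipUp c y (Θ p y) (Θ p y)) *
        intF c fun p y => w₂ p y * ipUp c y (Ω p y) (Ω p y) := by
  classical
  have cX := hΘ.isC_ip (τ.isT_wed hΩ)
  have cB := (hΘ.isC_ip hΘ).mul fun p => (h₁.smooth p).continuousOn
  have cA := (hΩ.isC_ip hΩ).mul fun p => (h₂.smooth p).continuousOn
  have cB' := cB.mul (G := fun p _ => if ∃ y ∈ DR c, τ.w p y ≠ 0 then 1 else 0)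
    fun _ => continuousOn_const
  have hK : (0 : ℝ) ≤ (k + 1) * a ^ 2 := by positivity
  have hB : ∀ p, ∀ y ∈ DR c, 0 ≤ w₁ p y * ipUp c y (Θ p y) (Θ p y) := fun p y hy =>
    mul_nonneg (p₁ p y hy) (ipUp_self_nonneg _)
  have hA : ∀ p, ∀ y ∈ DR c, 0 ≤ (k + 1) * a ^ 2 * (w₂ p y * ipUp c y (Ω p y) (Ω p y)) :=
    fun p y hy => mul_nonneg hK (mul_nonneg (p₂ p y hy) (ipUp_self_nonneg _))
  have hX : ∀ p, (¬ ∃ y ∈ DR c, τ.w p y ≠ 0) → ∀ y ∈ DR c,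
      ipUp c y (Θ p y) (τ.wed Ω p y) = 0 := fun p hp y hy => by
    have h0 : fderiv ℝ (τ.w p) y = 0 := by
      by_contra h0
      exact hp (exists_ne_of_fderiv_ne h0 (isOpen_DR.mem_nhds hy))
    rw [Tr.wed, h0, wedge_zero_left, ipUp_zero_right]
  have hle := intF_mono cB' cB fun p y hy => by
    split_ifs
    · rw [one_mul]
    · rw [zero_mul]
      exact hB p y hy
  have key : ∀ s : ℝ, 0 ≤ intF c (fun p y => w₁ p y * ipUp c y (Θ p y) (Θ p y)) * (s * s) +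
      -2 * intF c (fun p y => ipUp c y (Θ p y) (τ.wed Ω p y)) * s +
      (k + 1) * a ^ 2 * intF c fun p y => w₂ p y * ipUp c y (Ω p y) (Ω p y) := fun s => by
    have hS : ∀ p, (∃ y ∈ DR c, 2 * s * ipUp c y (Θ p y) (τ.wed Ω p y) + -s ^ 2 *
        ((if ∃ y ∈ DR c, τ.w p y ≠ 0 then 1 else 0) * (w₁ p y * ipUp c y (Θ p y) (Θ p y))) ≠ 0) →
        ∃ y ∈ DR c, τ.w p y ≠ 0 := fun p ⟨y, hy, hne⟩ => by
      by_contra hp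
      rw [hX p hp y hy, if_neg hp] at hne
      simp at hne
    have h1 := intF_comp_le ((cX.const_mul (2 * s)).add (cB'.const_mul (-s ^ 2)))
      (cA.const_mul ((k + 1) * a ^ 2)) τ.f hA (fun p y hy => by
        by_cases hp : ∃ y ∈ DR c, τ.w p y ≠ 0
        · rw [if_pos hp]
          have h2 := ipUp_sq_le (c := c) (y := y) (Θ p y) (τ.wed Ω p y)
          have h3 := ipUp_wedge_le (c := c) (y := y) (fderiv ℝ (τ.w p) y) (Ω (τ.f p) y)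
          have h4 := mul_le_mul_of_nonneg_right
            (mul_le_mul_of_nonneg_left (h p y hy) (by positivity : (0 : ℝ) ≤ k + 1))
            (ipUp_self_nonneg (c := c) (y := y) (Ω (τ.f p) y))
          have h5 := h2.trans (mul_le_mul_of_nonneg_left (h3.trans h4) (ipUp_self_nonneg _))
          have h6 := udef_lin s (h5.trans (le_of_eq (by ring))) (hB p y hy) (hA (τ.f p) y hy)
          linarith
        · rw [hX p hp y hy, if_neg hp]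
          simpa using hA (τ.f p) y hy)
      fun p q hp hq => τ.inj p q (hS p hp) (hS q hq)
    rw [intF_add (cX.const_mul _) (cB'.const_mul _), intF_const_mul cX, intF_const_mul cB',
      intF_const_mul cA] at h1
    nlinarith [mul_le_mul_of_nonneg_left hle (sq_nonneg s)]
  have h7 := discrim_le_zero key
  rw [discrim] at h7
  nlinarith

/-- On test forms: pointwise, for every real s,
2 s ⟨η, ℓ ∧ α⟩ ≤ s ^ 2 w₁ |η| ^ 2 + (k + 1) a ^ 2 w₂ |α| ^ 2 (ipUp_sq_le, ipUp_wedge_le), and the left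
side vanishes where ℓ = 0. Apply intF_comp_le to the function that is
2 s ⟨η, ℓ ∧ α⟩ - s ^ 2 w₁ |η| ^ 2 on the pieces where τ.w is not identically zero and zero on the
others (or sum over a finite set directly); then the discriminant; then UpL2.ind₂. -/
theorem Tr.E_bound (τ : Tr Γ Γ') (U : UpL2 Γ) (U' : UpL2 Γ') {w₁ : Fn P'} {w₂ : Fn P}
    (h₁ : IsFn Γ' w₁) (h₂ : IsFn Γ w₂) (p₁ : ∀ p, ∀ y ∈ DR c, 0 ≤ w₁ p y)
    (p₂ : ∀ p, ∀ y ∈ DR c, 0 ≤ w₂ p y) {a : ℝ}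
    (h : ∀ p, ∀ y ∈ DR c, gsq c y (fderiv ℝ (τ.w p) y) ≤ a ^ 2 * w₁ p y * w₂ (τ.f p) y)
    (u : U.H k) (η : U'.H (k + 1)) : ⟪η, τ.E U U' k u⟫_ℝ ^ 2 ≤
      (k + 1) * a ^ 2 * ⟪U'.m w₁ (k + 1) η, η⟫_ℝ * ⟪U.m w₂ k u, u⟫_ℝ := by
  refine U.ind₂ U' (q := fun u η => ⟪η, τ.E U U' k u⟫_ℝ ^ 2 ≤
    (k + 1) * a ^ 2 * ⟪U'.m w₁ (k + 1) η, η⟫_ℝ * ⟪U.m w₂ k u, u⟫_ℝ)
    (isClosed_le (by fun_prop) (by fun_prop)) (fun Ω Θ hΩ hΘ => ?_) u η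
  rw [τ.E_j U U' hΩ, U'.m_j h₁ hΘ, U.m_j h₂ hΩ, U'.inner_intF hΘ (τ.isT_wed hΩ),
    U'.inner_intF (h₁.isT_smul hΘ) hΘ, U.inner_intF (h₂.isT_smul hΩ) hΩ]
  simp only [ipUp_smul_left]
  exact udef_test τ h₁ h₂ p₁ p₂ h hΩ hΘ

section

variable {H H' : ℕ → Type} [∀ k, NormedAddCommGroup (H k)] [∀ k, InnerProductSpace ℝ (H k)]
  [∀ k, NormedAddCommGroup (H' k)] [∀ k, InnerProductSpace ℝ (H' k)]

theorem pairOp_fst (T : ∀ k, H k →L[ℝ] H' k) (ξ : KK H k) :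
    (pairOp T k ξ).fst = T (k + 1) ξ.fst := rfl
theorem pairOp_snd (T : ∀ k, H k →L[ℝ] H' k) (ξ : KK H k) :
    (pairOp T k ξ).snd = T (k - 1) ξ.snd := rfl
theorem inner_pairOp (T : ∀ k, H k →L[ℝ] H' k) (ξ : KK H k) (ξ' : KK H' k) :
    ⟪pairOp T k ξ, ξ'⟫_ℝ = ⟪T (k + 1) ξ.fst, ξ'.fst⟫_ℝ + ⟪T (k - 1) ξ.snd, ξ'.snd⟫_ℝ := by
  rw [WithLp.prod_inner_apply]
  rfl
theorem pairOp_adj (T : ∀ k, H k →L[ℝ] H' k) (T' : ∀ k, H' k →L[ℝ] H k)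
    (h : ∀ k u v, ⟪T k u, v⟫_ℝ = ⟪u, T' k v⟫_ℝ) (ξ : KK H k) (ξ' : KK H' k) :
    ⟪pairOp T k ξ, ξ'⟫_ℝ = ⟪ξ, pairOp T' k ξ'⟫_ℝ := by
  rw [inner_pairOp, h, h, WithLp.prod_inner_apply]
  rfl

end

theorem defect_fst (τ : Tr Γ Γ') (τ' : Tr Γ' Γ) (U : UpL2 Γ) (U' : UpL2 Γ') (u : U.H k) :
    (defect τ τ' U U' k u).fst = τ.E U U' k u := rfl
theorem defect_snd (τ : Tr Γ Γ') (τ' : Tr Γ' Γ) (U : UpL2 Γ) (U' : UpL2 Γ') (u : U.H k) :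
    (defect τ τ' U U' k u).snd = -τ'.cod U U' k u := rfl

/-- WD.map, WCod.map, Tr.D_map, Tr.Pair.adj; cases k. -/
theorem Tr.Pair.mem {τ : Tr Γ Γ'} {τ' : Tr Γ' Γ} (h : τ.Pair τ') (U : UpL2 Γ) (U' : UpL2 Γ')
    (u : U.H k) (ξ : KK U.H k) (hu : (u, ξ) ∈ domS U.D k) :
    (τ.M U U' k u, pairOp (τ.M U U') k ξ + defect τ τ' U U' k u) ∈ domS U'.D k := by
  obtain ⟨h1, h2⟩ := (mem_domS _).1 hu
  refine (mem_domS _).2 ⟨?_, ?_⟩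
  · exact WD.map (τ.M U U') (τ'.M U' U) (τ.E U U') (τ'.E U' U) (h.adj U U') (τ.D_map U U')
      (τ'.D_map U' U) h1
  · rw [WithLp.add_snd, pairOp_snd, defect_snd]
    cases k with
    | zero =>
      have h3 : ξ.snd = 0 := h2
      change τ.M U U' 0 ξ.snd + -(0 : U.H 0 →L[ℝ] U'.H 0) u = 0
      rw [h3]
      simp
    | succ k =>
      have h3 := WCod.map (τ.M U U') (τ'.M U' U) (τ'.E U' U) (h.adj U U') (τ'.D_map U' U)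
        (show WCod U.D k u ξ.snd from h2)
      rw [sub_eq_add_neg] at h3
      exact h3

/-- Two applications of Tr.E_bound and (x + y) ^ 2 ≤ 2 x ^ 2 + 2 y ^ 2. -/
theorem defect_bound (τ : Tr Γ Γ') (τ' : Tr Γ' Γ) (U : UpL2 Γ) (U' : UpL2 Γ') {w₁ : Fn P'}
    {w₂ : Fn P} (h₁ : IsFn Γ' w₁) (h₂ : IsFn Γ w₂) (p₁ : ∀ p, ∀ y ∈ DR c, 0 ≤ w₁ p y)
    (p₂ : ∀ p, ∀ y ∈ DR c, 0 ≤ w₂ p y) {a : ℝ}
    (h : ∀ p, ∀ y ∈ DR c, gsq c y (fderiv ℝ (τ.w p) y) ≤ a ^ 2 * w₁ p y * w₂ (τ.f p) y)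
    (h' : ∀ p, ∀ y ∈ DR c, gsq c y (fderiv ℝ (τ'.w p) y) ≤ a ^ 2 * w₂ p y * w₁ (τ'.f p) y)
    (hk : k ≤ 2) (u : U.H k) (ξ : KK U'.H k) : ⟪ξ, defect τ τ' U U' k u⟫_ℝ ^ 2 ≤
      (3 * a) ^ 2 * ⟪pairOp (U'.m w₁) k ξ, ξ⟫_ℝ * ⟪U.m w₂ k u, u⟫_ℝ := by
  have h1 := τ.E_bound U U' h₁ h₂ p₁ p₂ h u ξ.fst
  have b1 := U'.m_pos h₁ p₁ ξ.fst
  have b2 := U'.m_pos h₁ p₁ ξ.snd
  have b3 := U.m_pos h₂ p₂ u
  have hk' : (k : ℝ) ≤ 2 := by exact_mod_cast hk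
  have h2 : ⟪ξ.snd, -τ'.cod U U' k u⟫_ℝ ^ 2 ≤
      2 * a ^ 2 * ⟪U'.m w₁ (k - 1) ξ.snd, ξ.snd⟫_ℝ * ⟪U.m w₂ k u, u⟫_ℝ := by
    cases k with
    | zero =>
      have h3 : τ'.cod U U' 0 u = 0 := rfl
      rw [h3, neg_zero, inner_zero_right, zero_pow two_ne_zero]
      positivity
    | succ k =>
      have h3 := τ'.E_bound U' U h₂ h₁ p₂ p₁ h' (k := k) ξ.snd u
      have h4 : ⟪ξ.snd, τ'.cod U U' (k + 1) u⟫_ℝ = ⟪u, τ'.E U' U k ξ.snd⟫_ℝ :=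
        (ContinuousLinearMap.adjoint_inner_right (τ'.E U' U k) ξ.snd u).trans
          (real_inner_comm _ _)
      rw [inner_neg_right, neg_sq, h4]
      refine h3.trans ?_
      have h5 : ((k : ℝ) + 1) ≤ 2 := by
        push_cast at hk'
        linarith
      have h6 : 0 ≤ a ^ 2 * ⟪U'.m w₁ k ξ.snd, ξ.snd⟫_ℝ * ⟪U.m w₂ (k + 1) u, u⟫_ℝ :=
        mul_nonneg (mul_nonneg (sq_nonneg a) b2) b3
      change _ ≤ 2 * a ^ 2 * ⟪U'.m w₁ k ξ.snd, ξ.snd⟫_ℝ * ⟪U.m w₂ (k + 1) u, u⟫_ℝ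
      nlinarith [mul_le_mul_of_nonneg_right h5 h6]
  have h7 : ⟪ξ, defect τ τ' U U' k u⟫_ℝ =
      ⟪ξ.fst, τ.E U U' k u⟫_ℝ + ⟪ξ.snd, -τ'.cod U U' k u⟫_ℝ := by
    rw [WithLp.prod_inner_apply]
    rfl
  rw [h7, inner_pairOp]
  have h8 : 0 ≤ a ^ 2 * ⟪U'.m w₁ (k + 1) ξ.fst, ξ.fst⟫_ℝ * ⟪U.m w₂ k u, u⟫_ℝ :=
    mul_nonneg (mul_nonneg (sq_nonneg a) b1) b3
  have h9 : ((k : ℝ) + 1) ≤ 3 := by linarith
  have h10 : 0 ≤ a ^ 2 * ⟪U'.m w₁ (k - 1) ξ.snd, ξ.snd⟫_ℝ * ⟪U.m w₂ k u, u⟫_ℝ :=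
    mul_nonneg (mul_nonneg (sq_nonneg a) b2) b3
  nlinarith [mul_le_mul_of_nonneg_right h9 h8,
    sq_nonneg (⟪ξ.fst, τ.E U U' k u⟫_ℝ - ⟪ξ.snd, -τ'.cod U U' k u⟫_ℝ)]

theorem exists_wt (U : UpL2 Γ) {w : Fn P} (hw : IsFn Γ w) (h : ∀ p, ∀ y ∈ DR c, 0 ≤ w p y)
    (k : ℕ) : ∃ W : Wt (domS U.D k), W.M = U.m w k ∧ W.M₁ = pairOp (U.m w) k ∧
      W.C = defect (Tr.ofFn hw) (Tr.ofFn hw) U U k := by
  refine ⟨{ M := U.m w k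
            M₁ := pairOp (U.m w) k
            C := defect (Tr.ofFn hw) (Tr.ofFn hw) U U k
            sym := U.m_sym hw
            sym₁ := pairOp_adj (U.m w) (U.m w) fun _ => U.m_sym hw
            pos := U.m_pos hw h
            pos₁ := fun ξ => ?_
            mem := fun u ξ hu => ?_ }, rfl, rfl, rfl⟩
  · rw [inner_pairOp]
    exact add_nonneg (U.m_pos hw h _) (U.m_pos hw h _)
  · have h1 : U.m w = (Tr.ofFn hw).M U U := funext (U.m_eq hw)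
    rw [h1]
    exact (Tr.pair_ofFn hw).mem U U u ξ hu

theorem pairOp_m_one (U : UpL2 Γ) (ξ : KK U.H k) :
    ⟪pairOp (U.m fun _ _ => 1) k ξ, ξ⟫_ℝ = ‖ξ‖ ^ 2 := by
  rw [inner_pairOp, U.m_const, U.m_const, one_smul, one_smul, ← real_inner_self_eq_norm_sq ξ,
    WithLp.prod_inner_apply]
  rfl

theorem udef_E (τ : Tr Γ Γ') (U : UpL2 Γ) (U' : UpL2 Γ') (h : τ.w = fun _ _ => 1) (k : ℕ) :
    τ.E U U' k = 0 := by
  ext u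
  have h1 := τ.E_bound U U' (IsFn.const 1) (IsFn.const 1) (fun _ _ _ => zero_le_one)
    (fun _ _ _ => zero_le_one) (a := 0) (fun p y _ => by
      rw [h]
      simp [gsq_zero]) u (τ.E U U' k u)
  rw [zero_pow two_ne_zero, mul_zero, zero_mul, zero_mul] at h1
  exact inner_self_eq_zero.1 (pow_eq_zero_iff two_ne_zero |>.1 (le_antisymm h1 (sq_nonneg _)))

/-- A constant weight has no defect. -/
theorem defect_eq_zero (τ : Tr Γ Γ') (τ' : Tr Γ' Γ) (U : UpL2 Γ) (U' : UpL2 Γ')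
    (h : τ.w = fun _ _ => 1) (h' : τ'.w = fun _ _ => 1) (u : U.H k) :
    defect τ τ' U U' k u = 0 := by
  have h1 : (defect τ τ' U U' k u).fst = 0 := by
    rw [defect_fst, udef_E τ U U' h]
    rfl
  have h2 : (defect τ τ' U U' k u).snd = 0 := by
    rw [defect_snd, neg_eq_zero]
    cases k with
    | zero => rfl
    | succ k =>
      change ContinuousLinearMap.adjoint (τ'.E U' U k) u = 0
      rw [udef_E τ' U' U h', map_zero]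
      rfl
  rw [← inner_self_eq_zero (𝕜 := ℝ), WithLp.prod_inner_apply]
  change ⟪(defect τ τ' U U' k u).fst, (defect τ τ' U U' k u).fst⟫_ℝ +
    ⟪(defect τ τ' U U' k u).snd, (defect τ τ' U U' k u).snd⟫_ℝ = 0
  rw [h1, h2, inner_zero_left, inner_zero_left, add_zero]

end Pool.Agent.Lib.MP_75c153_gt.Ft
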