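import Pool.Agent.Lib.MP_75c153_gt.Ft.LocTr
import Pool.Agent.Lib.MP_75c153_gt.Ft.LocPt
import Pool.Agent.Lib.MP_75c153_gt.Ft.UDef
import Pool.Agent.Lib.MP_75c153_gt.Ft.UDens

open MeasureTheory Filter Topology Set
open scoped ContDiff InnerProductSpace

namespace Pool.Agent.Lib.MP_75c153_gt.Ft

open Pool.Agent.Lib.MP_570070_gt.An

variable {c : Par} {P P' : Type} {Γ : Gl c P} {Γ' : Gl c P'} {k : ℕ}

theorem locdat_pow {ρ : ℝ} (hρ : 1 ≤ ρ) {a b r : ℕ} (h : b + r ≤ a) :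
    (ρ ^ a)⁻¹ * ρ ^ b ≤ (ρ ^ r)⁻¹ := by
  have h0 : 0 < ρ := by linarith
  rw [inv_mul_le_iff₀ (by positivity), ← div_eq_mul_inv, le_div_iff₀ (by positivity), ← pow_add]
  exact pow_le_pow_right₀ hρ h

theorem exists_locData [Nonempty P] {c₀ : ℝ}
    (hc : ∀ (e : Ed c), ∀ y ∈ DR c, gsq c y (fderiv ℝ (kap e) y) ≤ c₀ ^ 2) (π : P → P')
    (hπ : ∀ e p, π (Γ.σ e p) = Γ'.σ e (π p)) {ℓ : P → ℕ} (hℓ : ∀ e p, ℓ (Γ.σ e p) ≤ ℓ p + 1)
    {L : ℕ} (hL : ∀ p, ℓ p ≤ L) (r : ℕ) (inj : InjOn π {p | ℓ p ≤ 2 * r + 4 + 2}) {S : Set P}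
    (hS : ∀ p ∈ S, ℓ p = 0) (B : Finset P) (hB : ∀ p, ℓ p ≤ 2 * r + 4 + 2 → p ∈ B) {G : ℝ}
    (hG : (B.card : ℝ) ≤ G ^ r) (hk : k ≤ 2) (U : UpL2 Γ) (U' : UpL2 Γ')
    {Pt : ℝ → U.H k →L[ℝ] U.H k}
    (htr : ∀ p t, 0 < t → trOn (U.on k {p}) (Pt t) ≤ trOn (U.on k S) (Pt t)) :
    Nonempty (LocData (domS U.D k) (domS U'.D k) Pt (U.onS k S) (U'.onS k (π '' S))
      (3 * (2 * c₀)) G r) := by
  obtain ⟨τ, τ', hp, hf, hw⟩ := exists_pair π hπ hℓ (2 * r + 4) inj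
  have mS : ∀ {z}, z ∈ U.onS k S → z ∈ U.on k S := fun h => by rwa [← U.coe_onS]
  have mS' : ∀ {z}, z ∈ U'.onS k (π '' S) ↔ z ∈ U'.on k (π '' S) := by
    intro z
    rw [← U'.coe_onS]
    rfl
  have hN := isFn_wt_ind (Γ := Γ) {p | 2 * r + 4 ≤ ℓ p + 1 ∧ ℓ p ≤ 2 * r + 4 + 1}
  have N0 := wt_ind_nonneg (Γ := Γ) {p | 2 * r + 4 ≤ ℓ p + 1 ∧ ℓ p ≤ 2 * r + 4 + 1}
  have hν := isFn_wt_ind (Γ := Γ) {p | ℓ p ≤ r + 1}
  have hζ := (isFn_wt_ind (Γ := Γ) {p | 2 * r + 4 ≤ ℓ p}).sq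
  have hχ := (isFn_wt_ind (Γ := Γ) {p | ℓ p ≤ 2 * r + 4}).sq
  obtain ⟨Z, hZ, hZ₁, hZC⟩ := exists_wt U hζ (fun _ _ _ => sq_nonneg _) k
  have gN : ∀ p, ∀ y ∈ DR c, gsq c y (fderiv ℝ (τ'.w p) y) ≤ (2 * c₀) ^ 2 *
      wt Γ (indicator {p | 2 * r + 4 ≤ ℓ p + 1 ∧ ℓ p ≤ 2 * r + 4 + 1} 1) p y :=
    fun p y hy => by rw [hw]; exact gsq_ball_ann hℓ hc _ hy
  have gZ : ∀ p, ∀ y ∈ DR c, gsq c y (fderiv ℝ (τ'.w p) y) ≤ (2 * c₀) ^ 2 *
      wt Γ (indicator {p | 2 * r + 4 ≤ ℓ p} 1) p y ^ 2 :=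
    fun p y hy => by rw [hw]; exact gsq_ball_far hℓ hc _ hy
  have one : ∀ p ∈ S, ∀ y ∈ DR c, τ'.w p y = 1 := fun p h y hy => by
    rw [hw]
    exact ball_eq_one hℓ (by rw [hS p h]; omega) hy
  refine ⟨{
    N := U.m (wt Γ (indicator {p | 2 * r + 4 ≤ ℓ p + 1 ∧ ℓ p ≤ 2 * r + 4 + 1} 1)) k
    N_sym := U.m_sym hN
    N_pos := U.m_pos hN fun p _ hy => N0 p hy
    ν := U.m (wt Γ (indicator {p | ℓ p ≤ r + 1} 1)) k
    exp := fun ρ hρ => ?_
    n := B.card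
    n_le := hG
    Sp := fun i => U.onS k {(B.equivFin.symm i : P)}
    Q := fun i => (U.onS k {(B.equivFin.symm i : P)}).starProjection
    Q_mem := fun i z => Submodule.starProjection_apply_mem _ z
    Q_orth := fun i z w h => ?_
    N_le := fun z => ?_
    tr_le := fun i t ht => ?_
    Z := Z
    Z_C := fun u ξ => ?_
    Z_S := fun z hz => ?_
    T := τ.M U U' k
    T₁ := pairOp (τ.M U U') k
    C := defect τ τ' U U' k
    T' := τ'.M U' U k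
    T₁' := pairOp (τ'.M U' U) k
    C' := defect τ' τ U' U k
    adj := hp.adj U U' k
    adj₁ := pairOp_adj _ _ (hp.adj U U')
    mem := hp.mem U U'
    mem' := hp.symm.mem U' U
    C_le := fun u ξ => ?_
    C'_le := fun ξ v => ?_
    T_le := fun u => ?_
    le_T := fun u => ?_
    T_S := fun z hz => ?_
    T_onto := fun z hz => ?_ }⟩
  · have h0 : 0 < ρ := by linarith
    have hW := isFn_pow (Γ := Γ) hL hρ
    have W0 : ∀ p, ∀ y ∈ DR c, 0 ≤ wt Γ (fun p => ρ ^ ℓ p) p y :=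
      fun _ _ hy => pow_nonneg_wt hρ hy
    obtain ⟨W, h1, h2, h3⟩ := exists_wt U hW W0 k
    refine ⟨W, (ρ ^ (2 * r + 3))⁻¹, ρ ^ (r + 1 + 1), (ρ ^ (r + 1 + 1))⁻¹, ρ ^ 1, by positivity,
      by positivity, by positivity, by positivity, locdat_pow hρ (by omega),
      locdat_pow hρ (by omega), fun u ξ => ?_, fun z => ?_, fun z => ?_, fun z => ?_,
      fun z hz => ?_⟩
    · rw [h1, h2, h3, mul_assoc 3]
      have h4 := fun p y (hy : y ∈ DR c) => gsq_pow (p := p) hℓ hc hρ hy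
      exact defect_bound (Tr.ofFn hW) (Tr.ofFn hW) U U hW hW W0 W0 (a := 2 * c₀ * (ρ - 1)) h4 h4
        hk u ξ
    · rw [h1]
      refine U.m_le hN hW (fun p y hy => wt_le_mul (fun q => ?_) hy) z
      by_cases hq : q ∈ {p | 2 * r + 4 ≤ ℓ p + 1 ∧ ℓ p ≤ 2 * r + 4 + 1}
      · rw [indicator_of_mem hq, Pi.one_apply, le_inv_mul_iff₀ (by positivity), mul_one]
        exact pow_le_pow_right₀ hρ (by have := hq.1; omega)
      · rw [indicator_of_notMem hq]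
        positivity
    · rw [h1, U.inner_m_m hW hν]
      exact U.m_le_const (hW.mul hν.sq) (fun p y hy => pow_mul_sq_le hℓ hρ _ hy) z
    · rw [h1, U.norm_sub_m_sq hν]
      exact U.m_le ((IsFn.const 1).sub hν).sq hW (fun p y hy => one_sub_sq_le hρ _ hy) z
    · rw [h1]
      refine U.m_le_on hW (fun p hp y hy => ?_) (mS hz)
      simpa [hS p hp] using pow_wt_le (p := p) hℓ hρ hy
  · rw [Submodule.inner_starProjection_left_eq_right, Submodule.starProjection_eq_self_iff.2 h]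
  · refine (U.m_le_proj hN (fun p _ hy => N0 p hy) (fun p _ hy => wt_ind_le_one _ p hy) B
      (fun p ⟨y, hy, h⟩ => hB p (lev_le_of_ne hℓ (m := 2 * r + 4 + 1) (fun q hq => hq.2) hy h))
      z).trans_eq ?_
    rw [← Finset.sum_coe_sort B, ← B.equivFin.symm.sum_comp]
  · rw [U.coe_onS, U.coe_onS]
    exact htr _ t ht
  · rw [hZC, hZ₁]
    have h4 := fun p y (hy : y ∈ DR c) => gsq_far_sq (p := p) hℓ hc (2 * r + 4) hy
    exact defect_bound (Tr.ofFn hζ) (Tr.ofFn hζ) U U hζ hN (fun _ _ _ => sq_nonneg _)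
      (fun p _ hy => N0 p hy) (a := 2 * c₀) h4
      (fun p y hy => (h4 p y hy).trans_eq (mul_right_comm _ _ _)) hk u ξ
  · rw [hZ, U.m_eq_on hζ (t := 0) (fun p hp y hy => ?_) (mS hz), zero_smul, inner_zero_left]
    rw [far_eq_zero hℓ (by rw [hS p hp]; omega) hy]
    norm_num
  · have := defect_bound τ τ' U U' (IsFn.const 1) hN (fun _ _ _ => zero_le_one)
      (fun p _ hy => N0 p hy) (a := 2 * c₀)
      (fun p y hy => by rw [mul_one]; exact hp.gsq_le gN p hy)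
      (fun p y hy => by rw [mul_one]; exact gN p y hy) hk u ξ
    rwa [pairOp_m_one, real_inner_comm, mul_right_comm] at this
  · have := defect_bound τ' τ U' U hζ (IsFn.const 1) (fun _ _ _ => sq_nonneg _)
      (fun _ _ _ => zero_le_one) (a := 2 * c₀)
      (fun p y hy => by rw [mul_one]; exact gZ p y hy)
      (fun p y hy => by rw [mul_one]; exact hp.gsq_le gZ p hy) hk v ξ
    rwa [U'.m_const, one_smul, real_inner_self_eq_norm_sq, ← hZ₁] at this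
  · refine le_of_sq_le_sq ?_ (norm_nonneg _)
    rw [hp.norm_sq, hw, ← one_mul (‖u‖ ^ 2)]
    exact U.m_le_const hχ (fun p y hy =>
      pow_le_one₀ (wt_ind_nonneg _ p hy) (wt_ind_le_one _ p hy)) u
  · rw [hp.norm_sq, hw, hZ, ← inner_add_left, ← U.m_add hχ hζ]
    have := U.m_le (IsFn.const 1) (hχ.add hζ) (t := 1)
      (fun p y hy => by rw [one_mul]; exact one_le_ball_far hℓ _ hy) u
    rwa [U.m_const, one_smul, real_inner_self_eq_norm_sq, one_mul] at this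
  · refine mS'.2 (τ.M_mem_on U U' (fun p ⟨y, hy, h⟩ h1 => mem_image_of_mem π h1 |>.imp ?_) (mS hz))
    rintro q ⟨h2, h3⟩
    refine ⟨h2, h3.trans ?_⟩
    rw [← hf]
    exact (hp.1 p y hy h).1
  · refine ⟨τ'.M U' U k z, ?_, ?_⟩
    · rw [← SetLike.mem_coe, U.coe_onS]
      refine τ'.M_mem_on U' U (fun p ⟨y, hy, h⟩ h1 => ?_) (mS'.1 hz)
      rw [hf] at h1
      rw [hw] at h
      obtain ⟨q, hq, h2⟩ := h1
      have h3 := lev_le_of_ne hℓ (m := 2 * r + 4) (fun q hq => hq) hy h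
      rwa [← inj (show ℓ q ≤ _ by rw [hS q hq]; omega) (show ℓ p ≤ _ by omega) h2]
    · rw [hp.symm.comp, U'.m_eq_on τ.fn.sq (t := 1) ?_ (mS'.1 hz), one_smul]
      rintro _ ⟨p, h, rfl⟩ y hy
      have h1 := (hp.2 p y hy (by rw [one p h y hy]; exact one_ne_zero)).2
      rw [hf] at h1
      rw [h1, one p h y hy, one_pow]

end Pool.Agent.Lib.MP_75c153_gt.Ft
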