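import Pool.Agent.Lib.MP_570070_gt.An.AFin

/-! The final inequality between the regularised integrals. -/

open MeasureTheory Filter Topology Set
open Pool.Agent.Lib.MP_570070_gt.An

namespace Pool.Agent.Lib.MP_75c153_gt.Ft

/-- Upper bound from a uniform tail; the tail also gives liminf b' ≥ b. -/
theorem reg_upper' {θ : ℝ → ℝ} {φ : ℕ → ℝ → ℝ} {I : ℝ} {J : ℕ → ℝ}
    (h : IsRegInt θ I) (g : ∀ i, IsRegInt (φ i) (J i))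
    (m : AntitoneOn θ (Ioi 0)) (n : ∀ i, AntitoneOn (φ i) (Ioi 0))
    (l : ∀ T ε : ℝ, 0 < ε → ∀ᶠ i in atTop, ∀ t ∈ Ioc (0 : ℝ) T, |φ i t - θ t| ≤ ε * t)
    {C γ : ℝ} (hγ : 0 < γ)
    (t₀ : ∀ᶠ i in atTop, ∀ b, Tendsto (φ i) atTop (𝓝 b) → ∀ t, 4 ≤ t → φ i t - b ≤ C * t ^ (-γ))
    {δ : ℝ} (hδ : 0 < δ) : ∀ᶠ i in atTop, J i ≤ I + δ := by
  obtain ⟨b, z, hb, hi, hz, rfl⟩ := h.split
  have hδ3 : 0 < δ / 3 := by positivity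
  obtain ⟨T, hT, hL, ht⟩ := ((eventually_ge_atTop (4 : ℝ)).and (afin_log.and
    (tail_rpow (C := C) hγ hδ3))).exists
  have hT0 : 0 < T := by linarith
  have hT1 : 1 ≤ T := by linarith
  set L := gam + Real.log T with hLdef
  have hη : 0 < δ / (6 * (L + 1)) := by positivity
  have hη' : δ / (6 * (L + 1)) * (6 * (L + 1)) = δ := div_mul_cancel₀ _ (by positivity)
  set η := δ / (6 * (L + 1))
  have h0 : Tendsto (fun t : ℝ => C * t ^ (-γ)) atTop (𝓝 (C * 0)) :=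
    (tendsto_rpow_neg_atTop hγ).const_mul C
  rw [mul_zero] at h0
  obtain ⟨S, hS, hS'⟩ := ((eventually_ge_atTop (4 : ℝ)).and (h0.eventually_le_const hη)).exists
  have hS0 : 0 < S := by linarith
  have htail : 0 ≤ ∫ t in Ioi T, t⁻¹ * (θ t - b) :=
    setIntegral_nonneg measurableSet_Ioi fun t ht' => by
      have ht0 : 0 < t := hT0.trans ht'
      exact mul_nonneg (inv_pos.2 ht0).le (sub_nonneg.2 (le_of_antitone hb m ht0))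
  filter_upwards [l T (δ / 3 / T) (by positivity), l S (η / S) (by positivity), t₀] with i h1 h2 h3
  obtain ⟨b', z', hb', hi', hz', e⟩ := (g i).split
  have h4 := reg_sub hT1 m (n i) hi hi' hz hz' h1
  have h5 := h2 S ⟨hS0, le_rfl⟩
  have h6 := ht (fun t => φ i t - b') (hi'.mono_set (Ioi_subset_Ioi hT1))
    fun t ht' => h3 b' hb' t (hT.trans ht'.le)
  have h7 := h3 b' hb' S hS
  have h11 := le_of_antitone hb m hS0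
  rw [div_mul_cancel₀ _ hT0.ne', ← e, ← hLdef] at h4
  rw [div_mul_cancel₀ _ hS0.ne'] at h5
  have h8 := (abs_le.1 h4).2
  have h9 := (abs_le.1 h5).1
  have h10 : (b - b') * L ≤ 2 * η * L := mul_le_mul_of_nonneg_right (by linarith) hL
  linarith

/-- The final inequality in dimension five. -/
theorem final_gap5 {θ₀ θ₁ θ₂ : ℝ → ℝ} {φ₀ φ₁ φ₂ : ℕ → ℝ → ℝ} {I₀ I₁ I₂ : ℝ} {J₀ J₁ J₂ : ℕ → ℝ}
    (h₀ : IsRegInt θ₀ I₀) (h₁ : IsRegInt θ₁ I₁) (h₂ : IsRegInt θ₂ I₂)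
    (g₀ : ∀ i, IsRegInt (φ₀ i) (J₀ i)) (g₁ : ∀ i, IsRegInt (φ₁ i) (J₁ i))
    (g₂ : ∀ i, IsRegInt (φ₂ i) (J₂ i))
    (m₀ : AntitoneOn θ₀ (Ioi 0)) (m₁ : AntitoneOn θ₁ (Ioi 0)) (m₂ : AntitoneOn θ₂ (Ioi 0))
    (n₀ : ∀ i, AntitoneOn (φ₀ i) (Ioi 0)) (n₁ : ∀ i, AntitoneOn (φ₁ i) (Ioi 0))
    (n₂ : ∀ i, AntitoneOn (φ₂ i) (Ioi 0))
    (l₀ : ∀ T ε : ℝ, 0 < ε → ∀ᶠ i in atTop, ∀ t ∈ Ioc (0 : ℝ) T, |φ₀ i t - θ₀ t| ≤ ε * t)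
    (l₁ : ∀ T ε : ℝ, 0 < ε → ∀ᶠ i in atTop, ∀ t ∈ Ioc (0 : ℝ) T, |φ₁ i t - θ₁ t| ≤ ε * t)
    (l₂ : ∀ T ε : ℝ, 0 < ε → ∀ᶠ i in atTop, ∀ t ∈ Ioc (0 : ℝ) T, |φ₂ i t - θ₂ t| ≤ ε * t)
    {C γ : ℝ} (hγ : 0 < γ)
    (t₁ : ∀ᶠ i in atTop, ∀ b, Tendsto (φ₁ i) atTop (𝓝 b) → ∀ t, 4 ≤ t → φ₁ i t - b ≤ C * t ^ (-γ))
    {c : ℝ} (hc : 0 < c)
    (t₂ : ∀ T, 1 ≤ T → ∀ᶠ i in atTop, ∀ b, Tendsto (φ₂ i) atTop (𝓝 b) →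
      IntegrableOn (fun t => t⁻¹ * (φ₂ i t - b)) (Ioi 1) → c ≤ ∫ t in Ioi T, t⁻¹ * (φ₂ i t - b)) :
    ∀ᶠ i in atTop, -5 * J₀ i + 3 * J₁ i - J₂ i ≤ -5 * I₀ + 3 * I₁ - I₂ - c / 2 := by
  have hδ : 0 < c / 18 := by positivity
  have t₀ : ∀ T : ℝ, 1 ≤ T → ∀ᶠ i in atTop, ∀ b, Tendsto (φ₀ i) atTop (𝓝 b) →
      IntegrableOn (fun t => t⁻¹ * (φ₀ i t - b)) (Ioi 1) →
        0 ≤ ∫ t in Ioi T, t⁻¹ * (φ₀ i t - b) := fun T hT =>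
    Eventually.of_forall fun i b hb _ => setIntegral_nonneg measurableSet_Ioi fun t ht => by
      have ht0 : 0 < t := (one_pos.trans_le hT).trans ht
      exact mul_nonneg (inv_pos.2 ht0).le (sub_nonneg.2 (le_of_antitone hb (n₀ i) ht0))
  filter_upwards [reg_lower h₀ g₀ m₀ n₀ l₀ t₀ hδ, reg_upper' h₁ g₁ m₁ n₁ l₁ hγ t₁ hδ,
    reg_lower h₂ g₂ m₂ n₂ l₂ t₂ hδ] with i a b d
  linarith

end Pool.Agent.Lib.MP_75c153_gt.Ft
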