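import Pool.Agent.Lib.MP_570070_gt.An.ATail0
import Pool.Agent.Lib.MP_570070_gt.An.AWeak

/-! Upper bound for the heat trace modulo harmonic forms, and the Hodge decomposition. -/

open MeasureTheory Filter Topology Set
open scoped InnerProductSpace
open Pool.Agent.Lib.MP_570070_gt.An

namespace Pool.Agent.Lib.MP_75c153_gt.Ft

section

variable {A K : Type} [NormedAddCommGroup A] [InnerProductSpace ℝ A] [CompleteSpace A]
  [NormedAddCommGroup K] [InnerProductSpace ℝ K] {Γ : Submodule ℝ (A × K)}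
  {P : ℝ → A →L[ℝ] A}

/-- The projection to the vectors that are fixed by the flow. -/
theorem exists_fix (hP : IsHeat₂ Γ P) : ∃ Q : A →L[ℝ] A,
    (∀ s, 0 ≤ s → ∀ x, P s (Q x) = Q x) ∧ (∀ s, 0 ≤ s → ∀ x, Q (P s x) = Q x) ∧
    (∀ x y, ⟪Q x, y - Q y⟫_ℝ = 0) ∧ (∀ x, ‖Q x‖ ≤ ‖x‖) ∧
    ∀ h, (h, (0 : K)) ∈ Γ → Q h = h := by
  let Z : Submodule ℝ A :=
    ⨅ s : Ici (0 : ℝ), LinearMap.ker (P s - ContinuousLinearMap.id ℝ A).toLinearMap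
  have hZ : ∀ x, x ∈ Z ↔ ∀ s, 0 ≤ s → P s x = x := fun x => by
    simp only [Z, Submodule.mem_iInf, LinearMap.mem_ker, Subtype.forall, mem_Ici,
      ContinuousLinearMap.coe_coe, sub_apply, ContinuousLinearMap.id_apply,
      sub_eq_zero]
  have hc : IsClosed (Z : Set A) := by
    have : (Z : Set A) = ⋂ s : Ici (0 : ℝ), {x | P s x = x} := by
      ext x
      simp only [SetLike.mem_coe, hZ, mem_iInter, Subtype.forall, mem_Ici, mem_ofPred_eq]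
    rw [this]
    exact isClosed_iInter fun s => isClosed_eq (P s).continuous continuous_id
  have := hc.completeSpace_coe
  have h1 : ∀ s, 0 ≤ s → ∀ x, P s (Z.starProjection x) = Z.starProjection x := fun s hs x =>
    (hZ _).1 (Z.starProjection_apply_mem x) s hs
  refine ⟨Z.starProjection, h1, fun s hs x => ?_, fun x y => ?_, Z.norm_starProjection_apply_le,
    fun h hh => Submodule.starProjection_eq_self_iff.2 ((hZ h).2 fun s hs => hP.fix hh hs)⟩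
  · refine ext_inner_left ℝ fun v => ?_
    rw [← Submodule.inner_starProjection_left_eq_right, ← hP.symm hs, h1 s hs,
      Submodule.inner_starProjection_left_eq_right]
  · exact Z.sub_starProjection_mem_orthogonal y _ (Z.starProjection_apply_mem x)

/-- Upper bound for the trace modulo the harmonic part. -/
theorem tail_mix (hP : IsHeat₂ Γ P) {S : Submodule ℝ A} {ι : Type} [Fintype ι] [Nonempty ι]
    (𝒯 : Tiling P S ι) (hf : ∀ t, 0 < t → trOn (S : Set A) (P t) ≠ ⊤)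
    (W : Submodule ℝ A) [FiniteDimensional ℝ W] {a : ℝ} (ha : 0 ≤ a)
    (hW : ∀ v ξ, (v, ξ) ∈ Γ → ∀ f, (∀ w ∈ W, ⟪w, f⟫_ℝ = 0) →
      (∀ h, (h, (0 : K)) ∈ Γ → ⟪h, f⟫_ℝ = 0) → ⟪v, f⟫_ℝ ^ 2 ≤ a * ‖ξ‖ ^ 2 * ‖f‖ ^ 2)
    (hH : ∀ w ∈ W, ∀ h, (h, (0 : K)) ∈ Γ → ⟪h, w⟫_ℝ = 0)
    {b : ℝ} (hb : Tendsto (fun t => (trOn (S : Set A) (P t)).toReal) atTop (𝓝 b))
    {t : ℝ} (ht : 0 < t) :
    (trOn (S : Set A) (P (2 * t + 2))).toReal - b ≤
      Module.finrank ℝ W / Fintype.card ι + a * (trOn (S : Set A) (P 2)).toReal / t := by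
  obtain ⟨c, hc, hc1, hc2⟩ := exists_onb W
  obtain ⟨Q, q1, q2, q3, q4, q5⟩ := exists_fix hP
  have hQc : ∀ x l, ⟪c l, Q x⟫_ℝ = 0 := fun x l => by
    have h1 : Tendsto (fun s => ⟪P s (c l), c l⟫_ℝ) atTop (𝓝 0) :=
      hP.tendsto_zero fun h hh => hH _ (hc1 l) h hh
    have h2 : ⟪c l, Q x⟫_ℝ ^ 2 ≤ 0 * ‖Q x‖ ^ 2 := by
      refine ge_of_tendsto (h1.mul_const _) ((eventually_ge_atTop 0).mono fun s hs => ?_)
      rw [hP.inner_self hs, ← q1 (s / 2) (by positivity) x, ← hP.symm (by positivity),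
        q1 (s / 2) (by positivity) x, ← mul_pow]
      exact sq_le_sq' (abs_le.1 (abs_real_inner_le_norm _ _)).1
        (abs_le.1 (abs_real_inner_le_norm _ _)).2
    rw [zero_mul] at h2
    exact pow_eq_zero_iff two_ne_zero |>.1 (le_antisymm h2 (sq_nonneg _))
  have key : ∀ x s, 0 ≤ s → ‖P (t + 1) x‖ ^ 2 ≤ ‖P s x‖ ^ 2 + ∑ l, ⟪c l, P (t + 1) x⟫_ℝ ^ 2 +
      a / (2 * t) * ‖P 1 x‖ ^ 2 := fun x s hs => by
    obtain ⟨ξ, hξ, hle⟩ := hP.grad_le ht (P 1 x)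
    rw [← hP.add ht.le zero_le_one] at hξ
    have h0 : ‖Q (P (t + 1) x)‖ ≤ ‖P s x‖ := by
      rw [q2 _ (by positivity), ← q2 s hs]
      exact q4 _
    generalize P (t + 1) x = v at hξ h0 ⊢
    set w := ∑ l, ⟪c l, v⟫_ℝ • c l with hw
    have e1 : ⟪v, w⟫_ℝ = ∑ l, ⟪c l, v⟫_ℝ ^ 2 := by
      rw [hw, inner_sum]
      exact Finset.sum_congr rfl fun l _ => by rw [real_inner_smul_right, real_inner_comm, sq]
    have e2 : ‖w‖ ^ 2 = ∑ l, ⟪c l, v⟫_ℝ ^ 2 := norm_sq_sum_smul hc _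
    have e3 : ∀ x, ⟪Q x, w⟫_ℝ = 0 := fun x => by
      rw [hw, inner_sum]
      exact Finset.sum_eq_zero fun l _ => by
        rw [real_inner_smul_right, real_inner_comm (c l) (Q x), hQc, mul_zero]
    have e4 : ⟪v, Q v⟫_ℝ = ‖Q v‖ ^ 2 := by
      have := q3 v v
      rw [inner_sub_right, real_inner_self_eq_norm_sq, sub_eq_zero, real_inner_comm] at this
      exact this
    have h2 := hW v ξ hξ (v - Q v - w)
      (fun u hu => atail0_zero hc2 hu fun l => by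
        rw [inner_sub_right, inner_sub_right, hQc, hw, hc.inner_right_fintype, sub_zero, sub_self])
      fun h hh => by rw [← q5 h hh, inner_sub_right, q3, e3, sub_zero]
    have e5 : ⟪v, v - Q v - w⟫_ℝ = ‖v‖ ^ 2 - ‖Q v‖ ^ 2 - ∑ l, ⟪c l, v⟫_ℝ ^ 2 := by
      rw [inner_sub_right, inner_sub_right, real_inner_self_eq_norm_sq, e4, e1]
    have e6 : ‖v - Q v - w‖ ^ 2 = ‖v‖ ^ 2 - ‖Q v‖ ^ 2 - ∑ l, ⟪c l, v⟫_ℝ ^ 2 := by
      rw [norm_sub_sq_real, norm_sub_sq_real, inner_sub_left, e1, e2, e3, e4]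
      ring
    rw [e5, e6] at h2
    have h3 : a * ‖ξ‖ ^ 2 ≤ a / (2 * t) * ‖P 1 x‖ ^ 2 := by
      rw [div_mul_eq_mul_div, le_div_iff₀ (by positivity)]
      nlinarith [mul_le_mul_of_nonneg_left hle ha]
    have h4 : 0 ≤ a * ‖ξ‖ ^ 2 := by positivity
    have h5 := pow_le_pow_left₀ (norm_nonneg _) h0 2
    by_contra hcon
    nlinarith
  rw [sub_le_comm]
  refine ge_of_tendsto hb ((eventually_gt_atTop 0).mono fun s hs => ?_)
  rw [sub_le_iff_le_add]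
  refine hP.tr_le_of_sq (by positivity) fun m e he hS => ?_
  rw [show (2 * t + 2) / 2 = t + 1 by ring]
  have hcard : (0 : ℝ) < Fintype.card ι := Nat.cast_pos.2 Fintype.card_pos
  have hs' : ∀ s, 0 ≤ s → ∑ x : ι × Fin m, ‖P s (𝒯.U x.1 (e x.2))‖ ^ 2 =
      Fintype.card ι * ∑ j, ‖P s (e j)‖ ^ 2 := fun s hs => by
    simp only [𝒯.comm _ s _ hs, LinearIsometryEquiv.norm_map, Fintype.sum_prod_type,
      Finset.sum_const, Finset.card_univ, nsmul_eq_mul]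
  have h1 := Finset.sum_le_sum fun (x : ι × Fin m) (_ : x ∈ Finset.univ) =>
    key (𝒯.U x.1 (e x.2)) (s / 2) (by positivity)
  rw [Finset.sum_add_distrib, Finset.sum_add_distrib, ← Finset.mul_sum, hs' _ (by positivity),
    hs' _ zero_le_one, hs' _ (by positivity), Finset.sum_comm] at h1
  have h2 : ∑ l, ∑ x : ι × Fin m, ⟪c l, P (t + 1) (𝒯.U x.1 (e x.2))⟫_ℝ ^ 2 ≤
      Module.finrank ℝ W := by
    refine (Finset.sum_le_card_nsmul _ _ 1 fun l _ => ?_).trans (by simp)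
    have h3 := bessel (𝒯.orthonormal he hS) (P (t + 1) (c l))
    have h4 := hP.norm_le (t := t + 1) (by positivity) (c l)
    rw [hc.1] at h4
    refine le_trans (le_of_eq (Finset.sum_congr rfl fun x _ => ?_))
      (h3.trans (pow_le_one₀ (norm_nonneg _) h4))
    rw [← hP.symm (by positivity), real_inner_comm]
  have h5 := hP.sum_sq_le zero_le_two (hf 2 two_pos) he hS
  rw [div_self two_ne_zero] at h5
  have h6 := (mul_le_mul_of_nonneg_left h5 (by positivity : 0 ≤ a / (2 * t))).trans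
    (atail0_half ha ENNReal.toReal_nonneg ht)
  have h7 := hP.sum_sq_le hs.le (hf s hs) he hS
  rw [← add_assoc, ← sub_le_iff_le_add, ← sub_le_iff_le_add', le_div_iff₀ hcard]
  nlinarith [mul_le_mul_of_nonneg_left h6 hcard.le, mul_le_mul_of_nonneg_left h7 hcard.le]

end

section

variable {H : ℕ → Type} [∀ k, NormedAddCommGroup (H k)] [∀ k, InnerProductSpace ℝ (H k)]
  [∀ k, CompleteSpace (H k)] {D : ∀ k, H k → H (k + 1) → Prop}

/-- The coexact projection in any positive degree. -/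
theorem exists_coex' {k : ℕ} (hdd : ∀ f b, D k f b → D (k + 1) b 0) :
    ∃ Pr : H (k + 1) →L[ℝ] H (k + 1),
    (∀ a b, D (k + 1) a b →
      (Pr a, (WithLp.toLp 2 (b, 0) : KK H (k + 1))) ∈ domS D (k + 1)) ∧
    (∀ a h, (h, (0 : KK H (k + 1))) ∈ domS D (k + 1) → ⟪h, Pr a⟫_ℝ = 0) ∧
    ∀ a b φ ψ, D (k + 1) a b → (∃ x, D (k + 1 + 1) φ x) → WCod D (k + 1) φ ψ →
      ⟪b, φ⟫_ℝ = ⟪Pr a, ψ⟫_ℝ := by
  have hW : ∀ a b, D (k + 1) a b → WD D (k + 1) a b := fun a b hab φ ψ _ hφ => (hφ a b hab).symm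
  let Z : Submodule ℝ (H (k + 1)) :=
    (Submodule.span ℝ {ψ | ∃ φ, (∃ x, D (k + 1 + 1) φ x) ∧ WCod D (k + 1) φ ψ})ᗮ
  have hZ : ∀ u, u ∈ Z ↔ WD D (k + 1) u 0 := fun u => by
    refine ⟨fun hu φ ψ h1 h2 => ?_, fun hu v hv => ?_⟩
    · rw [inner_zero_left, real_inner_comm]
      exact hu ψ (Submodule.subset_span ⟨φ, h1, h2⟩)
    · induction hv using Submodule.span_induction with
      | mem ψ hψ =>
        obtain ⟨φ, h1, h2⟩ := hψ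
        rw [real_inner_comm, hu φ ψ h1 h2, inner_zero_left]
      | zero => exact inner_zero_left _
      | add x y _ _ hx hy => rw [inner_add_left, hx, hy, add_zero]
      | smul c x _ hx => rw [inner_smul_left, hx, mul_zero]
  have h1 : ∀ a, a - Zᗮ.starProjection a ∈ Z := fun a => by
    have h := Zᗮ.sub_starProjection_mem_orthogonal a
    rwa [Submodule.orthogonal_orthogonal] at h
  have h2 : ∀ a, ∀ h ∈ Z, ⟪h, Zᗮ.starProjection a⟫_ℝ = 0 := fun a h hh =>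
    Zᗮ.starProjection_apply_mem a h hh
  have h3 : ∀ a b, D (k + 1) a b → WD D (k + 1) (Zᗮ.starProjection a) b :=
    fun a b hab φ ψ hφ hψ => by
      have h4 := (hZ _).1 (h1 a) φ ψ hφ hψ
      rw [inner_sub_left, inner_zero_left, sub_eq_zero] at h4
      rw [← h4]
      exact hW a b hab φ ψ hφ hψ
  refine ⟨Zᗮ.starProjection, fun a b hab => ⟨h3 a b hab, fun f c hc => ?_⟩,
    fun a h hh => h2 a h ((hZ h).2 hh.1), fun a b φ ψ hab hφ hψ => (h3 a b hab φ ψ hφ hψ).symm⟩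
  exact (h2 a c ((hZ c).2 (hW c 0 (hdd f c hc)))).trans (inner_zero_right _).symm

/-- The projection to the closure of a subspace. -/
theorem exists_proj {A : Type} [NormedAddCommGroup A] [InnerProductSpace ℝ A] [CompleteSpace A]
    (E : Submodule ℝ A) : ∃ Q : A → A, (∀ x, ∀ e ∈ E, ⟪e, x - Q x⟫_ℝ = 0) ∧
      ∀ x (p : A → Prop), IsClosed {z | p z} → (∀ e ∈ E, p e) → p (Q x) := by
  have := E.isClosed_topologicalClosure.completeSpace_coe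
  refine ⟨E.topologicalClosure.starProjection, fun x e he =>
    E.topologicalClosure.sub_starProjection_mem_orthogonal x e (E.le_topologicalClosure he),
    fun x p hp h => ?_⟩
  exact closure_minimal (s := (E : Set A)) (t := {z | p z}) h hp
    (E.topologicalClosure.starProjection_apply_mem x)

/-- Hodge decomposition in degree one: a Poincare inequality for functions orthogonal to the
test functions χ x and a bound for coexact forms give the hypotheses of tail_mix. -/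
theorem amix (hadd : ∀ k a b a' b', D k a b → D k a' b' → D k (a + a') (b + b'))
    (hsm : ∀ k (t : ℝ) a b, D k a b → D k (t • a) (t • b)) (hz : ∀ k, D k 0 0)
    (hdd : ∀ f b, D 0 f b → D 1 b 0) {κ : Type} [Fintype κ] {χ : κ → H 0} {β : κ → H 1}
    (hχ : ∀ x, D 0 (χ x) (β x)) {a₀ a₁ : ℝ} (ha₀ : 0 ≤ a₀) (ha₁ : 0 ≤ a₁)
    (h0 : ∀ g b, D 0 g b → (∀ x, ⟪χ x, g⟫_ℝ = 0) → ‖g‖ ^ 2 ≤ a₀ * ‖b‖ ^ 2)
    (h1 : ∀ φ ψ, (∃ x, D 2 φ x) → WCod D 1 φ ψ →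
      ∃ φ', (∃ x, D 2 φ' x) ∧ WCod D 1 φ' ψ ∧ ‖φ'‖ ^ 2 ≤ a₁ * ‖ψ‖ ^ 2) :
    ∃ w : κ → H 1, (∀ x, β x = 0 → w x = 0) ∧
      (∀ x h, (h, (0 : KK H 1)) ∈ domS D 1 → ⟪h, w x⟫_ℝ = 0) ∧
      ∀ v ξ, (v, ξ) ∈ domS D 1 → ∀ f, (∀ x, ⟪w x, f⟫_ℝ = 0) →
        (∀ h, (h, (0 : KK H 1)) ∈ domS D 1 → ⟪h, f⟫_ℝ = 0) →
        ⟪v, f⟫_ℝ ^ 2 ≤ (a₀ + a₁) * ‖ξ‖ ^ 2 * ‖f‖ ^ 2 := by
  let E : Submodule ℝ (H 1) :=
    { carrier := {b | ∃ g, D 0 g b ∧ ∀ x, ⟪χ x, g⟫_ℝ = 0}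
      add_mem' := by
        rintro _ _ ⟨g, h1, h2⟩ ⟨g', h3, h4⟩
        exact ⟨g + g', hadd 0 _ _ _ _ h1 h3, fun x => by rw [inner_add_right, h2, h4, add_zero]⟩
      zero_mem' := ⟨0, hz 0, fun x => inner_zero_right _⟩
      smul_mem' := by
        rintro t _ ⟨g, h1, h2⟩
        exact ⟨t • g, hsm 0 t _ _ h1, fun x => by rw [real_inner_smul_right, h2, mul_zero]⟩ }
  let C : Submodule ℝ (H 1) :=
    { carrier := {ψ | ∃ φ, (∃ x, D 2 φ x) ∧ WCod D 1 φ ψ}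
      add_mem' := by
        rintro _ _ ⟨φ, ⟨x, h1⟩, h2⟩ ⟨φ', ⟨x', h3⟩, h4⟩
        refine ⟨φ + φ', ⟨_, hadd 2 _ _ _ _ h1 h3⟩, fun a b hab => ?_⟩
        rw [inner_add_right, inner_add_right, h2 a b hab, h4 a b hab]
      zero_mem' := ⟨0, ⟨0, hz 2⟩, fun a b _ => by rw [inner_zero_right, inner_zero_right]⟩
      smul_mem' := by
        rintro t _ ⟨φ, ⟨x, h1⟩, h2⟩
        refine ⟨t • φ, ⟨_, hsm 2 t _ _ h1⟩, fun a b hab => ?_⟩
        rw [real_inner_smul_right, real_inner_smul_right, h2 a b hab] }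
  obtain ⟨QE, e1, e2⟩ := exists_proj E
  obtain ⟨QC, c1, c2⟩ := exists_proj C
  have cl : ∀ u : H 1, IsClosed {z | ⟪u, z⟫_ℝ = 0} := fun u =>
    isClosed_eq (continuous_const.inner continuous_id) continuous_const
  have cl' : ∀ u : H 1, IsClosed {z | ⟪z, u⟫_ℝ = 0} := fun u =>
    isClosed_eq (continuous_id.inner continuous_const) continuous_const
  have ex : ∀ g b, D 0 g b → ∀ x, ⟪b, QC x⟫_ℝ = 0 := fun g b hb x =>
    c2 x _ (cl b) (by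
      rintro ψ ⟨φ, -, h2⟩
      rw [← h2 b 0 (hdd g b hb), inner_zero_left])
  have ec : ∀ x y, ⟪QE x, QC y⟫_ℝ = 0 := fun x y =>
    e2 x _ (cl' _) fun e ⟨g, hg, _⟩ => ex g e hg y
  have ee : ∀ x y, ⟪QE x, y - QE y⟫_ℝ = 0 := fun x y => e2 x _ (cl' _) (e1 y)
  have cc : ∀ x y, ⟪QC x, y - QC y⟫_ℝ = 0 := fun x y => c2 x _ (cl' _) (c1 y)
  have hh : ∀ h, (h, (0 : KK H 1)) ∈ domS D 1 → ∀ g b, D 0 g b → ⟪h, b⟫_ℝ = 0 :=
    fun h hh g b hb => by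
      have h2 : ⟪b, h⟫_ℝ = ⟪g, (0 : H 0)⟫_ℝ := ((mem_domS D).1 hh).2 g b hb
      rw [real_inner_comm, h2, inner_zero_right]
  refine ⟨fun x => β x - QE (β x), fun x hx => ?_, fun x h hm => ?_, fun v ξ hv f hf hf' => ?_⟩
  · have h2 := ee (β x) (β x)
    rw [hx, zero_sub, inner_neg_right, neg_eq_zero, inner_self_eq_zero] at h2
    simp only [hx, h2, sub_zero]
  · have h2 : ⟪h, QE (β x)⟫_ℝ = 0 := e2 _ _ (cl h) fun e ⟨g, hg, _⟩ => hh h hm g e hg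
    rw [inner_sub_right, hh h hm _ _ (hχ x), h2, sub_zero]
  obtain ⟨hv1, hv2⟩ := (mem_domS D).1 hv
  have r1 : ∀ e ∈ E, ⟪e, f - QE f - QC f⟫_ℝ = 0 := by
    rintro e ⟨g, hg, hg'⟩
    rw [inner_sub_right, e1 f e ⟨g, hg, hg'⟩, ex g e hg, sub_zero]
  have r2 : ∀ ψ ∈ C, ⟪ψ, f - QE f - QC f⟫_ℝ = 0 := fun ψ hψ => by
    have h2 : ⟪QE f, ψ⟫_ℝ = 0 := e2 f _ (cl' ψ) (by
      rintro e ⟨g, hg, -⟩
      obtain ⟨φ, -, h2⟩ := hψ
      rw [← h2 e 0 (hdd g e hg), inner_zero_left])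
    rw [sub_right_comm, inner_sub_right, c1 f ψ hψ, real_inner_comm, h2, sub_zero]
  have r3 : ∀ x, ⟪QE x, f - QE f - QC f⟫_ℝ = 0 := fun x => e2 x _ (cl' _) r1
  have r4 : ∀ x, ⟪β x, f - QE f - QC f⟫_ℝ = 0 := fun x => by
    have h2 : ⟪β x - QE (β x), f - QE f - QC f⟫_ℝ = 0 := by
      rw [inner_sub_right, inner_sub_right, hf x, real_inner_comm (QE f), ee, inner_sub_left,
        ex _ _ (hχ x), ec]
      ring
    rwa [inner_sub_left, r3, sub_zero] at h2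
  have r5 : ∀ g b, D 0 g b → ⟪b, f - QE f - QC f⟫_ℝ = 0 := fun g b hb => by
    let V : Submodule ℝ (H 0) := Submodule.span ℝ (range χ)
    have := FiniteDimensional.span_of_finite ℝ (finite_range χ)
    have h2 : ∀ u ∈ V, ∃ b', D 0 u b' ∧ ⟪b', f - QE f - QC f⟫_ℝ = 0 := fun u hu => by
      induction hu using Submodule.span_induction with
      | mem u hu =>
        obtain ⟨x, rfl⟩ := hu
        exact ⟨β x, hχ x, r4 x⟩
      | zero => exact ⟨0, hz 0, inner_zero_left _⟩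
      | add x y _ _ hx hy =>
        obtain ⟨b₁, p1, p2⟩ := hx
        obtain ⟨b₂, p3, p4⟩ := hy
        exact ⟨b₁ + b₂, hadd 0 _ _ _ _ p1 p3, by rw [inner_add_left, p2, p4, add_zero]⟩
      | smul t x _ hx =>
        obtain ⟨b₁, p1, p2⟩ := hx
        exact ⟨t • b₁, hsm 0 t _ _ p1, by rw [real_inner_smul_left, p2, mul_zero]⟩
    obtain ⟨b', p1, p2⟩ := h2 _ (V.starProjection_apply_mem g)
    have h3 := r1 (b + (-1 : ℝ) • b') ⟨_, hadd 0 _ _ _ _ hb (hsm 0 (-1) _ _ p1), fun x => by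
      rw [neg_one_smul, ← sub_eq_add_neg]
      exact V.sub_starProjection_mem_orthogonal g _ (Submodule.subset_span ⟨x, rfl⟩)⟩
    rwa [inner_add_left, real_inner_smul_left, p2, mul_zero, add_zero] at h3
  have r6 : (f - QE f - QC f, (0 : KK H 1)) ∈ domS D 1 := by
    refine (mem_domS D).2 ⟨fun φ ψ p1 p2 => ?_, fun g b hb => ?_⟩
    · rw [real_inner_comm, r2 ψ ⟨φ, p1, p2⟩]
      exact (inner_zero_left _).symm
    · exact (r5 g b hb).trans (inner_zero_right _).symm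
  have r7 : f = QE f + QC f := by
    have h2 : ⟪QC f, f - QE f - QC f⟫_ℝ = 0 := c2 f _ (cl' _) r2
    have h3 : ⟪f - QE f - QC f, f - QE f - QC f⟫_ℝ = 0 := by
      rw [inner_sub_left, inner_sub_left, r3, h2, real_inner_comm, hf' _ r6]
      ring
    rwa [inner_self_eq_zero, sub_sub, sub_eq_zero] at h3
  have cl2 : ∀ M : ℝ, IsClosed {z : H 1 | ⟪v, z⟫_ℝ ^ 2 ≤ M * ‖z‖ ^ 2} := fun M =>
    isClosed_le ((continuous_const.inner continuous_id).pow 2)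
      (continuous_const.mul (continuous_norm.pow 2))
  have cs : ∀ {B : Type} [NormedAddCommGroup B] [InnerProductSpace ℝ B] (x y : B),
      ⟪x, y⟫_ℝ ^ 2 ≤ ‖x‖ ^ 2 * ‖y‖ ^ 2 := fun x y => by
    rw [← mul_pow]
    exact sq_le_sq' (abs_le.1 (abs_real_inner_le_norm _ _)).1
      (abs_le.1 (abs_real_inner_le_norm _ _)).2
  have b1 : ⟪v, QE f⟫_ℝ ^ 2 ≤ a₀ * ‖ξ‖ ^ 2 * ‖QE f‖ ^ 2 := e2 f _ (cl2 _) (by
    rintro e ⟨g, hg, hg'⟩
    have h2 : ⟪e, v⟫_ℝ = ⟪g, (ξ.snd : H 0)⟫_ℝ := hv2 g e hg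
    have h3 : ‖(ξ.snd : H 0)‖ ^ 2 ≤ ‖ξ‖ ^ 2 :=
      pow_le_pow_left₀ (norm_nonneg _) (WithLp.norm_snd_le _ ξ) 2
    rw [real_inner_comm, h2]
    refine (cs _ _).trans ((mul_le_mul (h0 g e hg hg') h3 (sq_nonneg _) (by positivity)).trans_eq ?_)
    ring)
  have b2 : ⟪v, QC f⟫_ℝ ^ 2 ≤ a₁ * ‖ξ‖ ^ 2 * ‖QC f‖ ^ 2 := c2 f _ (cl2 _) (by
    rintro ψ ⟨φ, p1, p2⟩
    obtain ⟨φ', p3, p4, p5⟩ := h1 φ ψ p1 p2
    have h3 : ‖ξ.fst‖ ^ 2 ≤ ‖ξ‖ ^ 2 := pow_le_pow_left₀ (norm_nonneg _) (WithLp.norm_fst_le _ ξ) 2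
    rw [hv1 φ' ψ p3 p4]
    refine (cs _ _).trans ((mul_le_mul h3 p5 (sq_nonneg _) (sq_nonneg _)).trans_eq ?_)
    ring)
  have b3 : ‖f‖ ^ 2 = ‖QE f‖ ^ 2 + ‖QC f‖ ^ 2 := by
    conv_lhs => rw [r7]
    rw [norm_add_sq_real, ec]
    ring
  have b4 : ⟪v, f⟫_ℝ = ⟪v, QE f⟫_ℝ + ⟪v, QC f⟫_ℝ := by
    conv_lhs => rw [r7]
    exact inner_add_right _ _ _
  rw [b3, b4]
  generalize ⟪v, QE f⟫_ℝ = x at b1 ⊢
  generalize ⟪v, QC f⟫_ℝ = y at b2 ⊢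
  have p1 : 0 ≤ a₀ * ‖ξ‖ ^ 2 := by positivity
  have p2 : 0 ≤ a₁ * ‖ξ‖ ^ 2 := by positivity
  have p3 := sq_nonneg ‖QE f‖
  have p4 := sq_nonneg ‖QC f‖
  have p5 : (x * y) ^ 2 ≤ (a₀ * ‖ξ‖ ^ 2 * ‖QC f‖ ^ 2) * (a₁ * ‖ξ‖ ^ 2 * ‖QE f‖ ^ 2) := by
    rw [mul_pow]
    exact (mul_le_mul b1 b2 (sq_nonneg _) (by positivity)).trans_eq (by ring)
  have p6 : 2 * (x * y) ≤ a₀ * ‖ξ‖ ^ 2 * ‖QC f‖ ^ 2 + a₁ * ‖ξ‖ ^ 2 * ‖QE f‖ ^ 2 := by
    refine abs_le_of_sq_le_sq' ?_ (by positivity) |>.2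
    nlinarith [sq_nonneg (a₀ * ‖ξ‖ ^ 2 * ‖QC f‖ ^ 2 - a₁ * ‖ξ‖ ^ 2 * ‖QE f‖ ^ 2)]
  nlinarith

/-- The two previous results together. -/
theorem tail_deg_one (hadd : ∀ k a b a' b', D k a b → D k a' b' → D k (a + a') (b + b'))
    (hsm : ∀ k (t : ℝ) a b, D k a b → D k (t • a) (t • b)) (hz : ∀ k, D k 0 0)
    (hdd : ∀ f b, D 0 f b → D 1 b 0) {κ : Type} [Fintype κ] {χ : κ → H 0} {β : κ → H 1}
    (hχ : ∀ x, D 0 (χ x) (β x)) {a₀ a₁ : ℝ} (ha₀ : 0 ≤ a₀) (ha₁ : 0 ≤ a₁)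
    (h0 : ∀ g b, D 0 g b → (∀ x, ⟪χ x, g⟫_ℝ = 0) → ‖g‖ ^ 2 ≤ a₀ * ‖b‖ ^ 2)
    (h1 : ∀ φ ψ, (∃ x, D 2 φ x) → WCod D 1 φ ψ →
      ∃ φ', (∃ x, D 2 φ' x) ∧ WCod D 1 φ' ψ ∧ ‖φ'‖ ^ 2 ≤ a₁ * ‖ψ‖ ^ 2)
    {P : ℝ → H 1 →L[ℝ] H 1} (hP : IsHeat (dom D 1) P) {S : Submodule ℝ (H 1)} {ι : Type}
    [Fintype ι] [Nonempty ι] (𝒯 : Tiling P S ι)
    (hf : ∀ t, 0 < t → trOn (S : Set (H 1)) (P t) ≠ ⊤) {b : ℝ}
    (hb : Tendsto (fun t => (trOn (S : Set (H 1)) (P t)).toReal) atTop (𝓝 b)) {t : ℝ}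
    (ht : 0 < t) :
    (trOn (S : Set (H 1)) (P (2 * t + 2))).toReal - b ≤ Fintype.card κ / Fintype.card ι +
      (a₀ + a₁) * (trOn (S : Set (H 1)) (P 2)).toReal / t ∧
    ((∀ x, β x = 0) → (trOn (S : Set (H 1)) (P (2 * t + 2))).toReal - b ≤
      (a₀ + a₁) * (trOn (S : Set (H 1)) (P 2)).toReal / t) := by
  obtain ⟨w, w0, w1, w2⟩ := amix hadd hsm hz hdd hχ ha₀ ha₁ h0 h1
  have := FiniteDimensional.span_of_finite ℝ (finite_range w)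
  have key := tail_mix (isHeat₂_of_isHeat hP) 𝒯 hf (Submodule.span ℝ (range w))
    (add_nonneg ha₀ ha₁)
    (fun v ξ hv f h2 h3 => w2 v ξ hv f (fun x => h2 _ (Submodule.subset_span ⟨x, rfl⟩)) h3)
    (fun u hu h hh => by
      induction hu using Submodule.span_induction with
      | mem u hu =>
        obtain ⟨x, rfl⟩ := hu
        exact w1 x h hh
      | zero => exact inner_zero_right _
      | add x y _ _ hx hy => rw [inner_add_right, hx, hy, add_zero]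
      | smul t x _ hx => rw [real_inner_smul_right, hx, mul_zero]) hb ht
  refine ⟨key.trans (add_le_add (div_le_div_of_nonneg_right
    (Nat.cast_le.2 (finrank_range_le_card (R := ℝ) w)) (Nat.cast_nonneg _)) le_rfl), fun h => ?_⟩
  rwa [Submodule.span_eq_bot.2 (by
    rintro _ ⟨x, rfl⟩
    exact w0 x (h x)), finrank_bot, Nat.cast_zero, zero_div, zero_add] at key

end

end Pool.Agent.Lib.MP_75c153_gt.Ft
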