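import Mathlib

/-!
The graph of pieces for a free group is a rooted tree.
-/

namespace Pool.Agent.Lib.MP_75c153_gt.Ft

variable {α : Type} [DecidableEq α]

theorem toWord_letter (j : α) (s : Bool) (k : FreeGroup α) :
    (FreeGroup.mk [(j, s)] * k).toWord =
      if k.toWord.head? = some (j, !s) then k.toWord.tail else (j, s) :: k.toWord := by
  conv_lhs => rw [← FreeGroup.mk_toWord (x := k), FreeGroup.mul_mk, FreeGroup.toWord_mk,
    List.singleton_append, FreeGroup.reduce.cons, FreeGroup.reduce_toWord]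
  rcases k.toWord with _ | ⟨⟨i, t⟩, tl⟩
  · simp
  · cases s <;> cases t <;> simp [eq_comm]

/-- The neighbour of a vertex along an edge. -/
def nb (e : Option α) (p : FreeGroup α × Bool) : FreeGroup α × Bool :=
  if p.2 then (p.1 * e.elim 1 FreeGroup.of, false) else (p.1 * (e.elim 1 FreeGroup.of)⁻¹, true)

omit [DecidableEq α] in
theorem nb_none (h : FreeGroup α) (b : Bool) : nb none (h, b) = (h, !b) := by
  cases b <;> simp [nb]

omit [DecidableEq α] in
theorem nb_some (j : α) (h : FreeGroup α) (b : Bool) :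
    nb (some j) (h, b) = ((FreeGroup.mk [(j, !b)] * h⁻¹)⁻¹, !b) := by
  cases b
  · simp [nb, FreeGroup.of]
  · have : FreeGroup.mk [(j, false)] = (FreeGroup.of j)⁻¹ := by
      simp [FreeGroup.of, FreeGroup.inv_mk, FreeGroup.invRev]
    simp [nb, this]

omit [DecidableEq α] in
theorem nb_nb (e : Option α) (p : FreeGroup α × Bool) : nb e (nb e p) = p := by
  rcases p with ⟨h, _ | _⟩ <;> simp [nb]

omit [DecidableEq α] in
theorem nb_inj {e e' : Option α} {p : FreeGroup α × Bool} (h : nb e p = nb e' p) : e = e' := by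
  have h1 : (e.elim 1 FreeGroup.of : FreeGroup α) = e'.elim 1 FreeGroup.of := by
    rcases p with ⟨h, _ | _⟩ <;> simpa [nb] using h
  rcases e with _ | i <;> rcases e' with _ | j
  · rfl
  · exact absurd h1.symm (FreeGroup.of_ne_one j)
  · exact absurd h1 (FreeGroup.of_ne_one i)
  · exact congrArg some (FreeGroup.of_injective h1)

/-- The edge to the parent. -/
def pe (p : FreeGroup α × Bool) : Option α :=
  (p.1⁻¹.toWord.head?.filter fun x => x.2 = p.2).map Prod.fst

/-- A rank that decreases towards the root. -/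
def rk (p : FreeGroup α × Bool) : ℕ :=
  2 * p.1⁻¹.toWord.length + if (p.1⁻¹.toWord.head?.elim true Prod.snd) = p.2 then 0 else 1

theorem rk_lt {p : FreeGroup α × Bool} (hp : p ≠ (1, true)) : rk (nb (pe p) p) < rk p := by
  rcases p with ⟨h, b⟩
  rcases hw : h⁻¹.toWord with _ | ⟨⟨j, s⟩, tl⟩
  · obtain rfl : h = 1 := inv_eq_one.1 (FreeGroup.toWord_eq_nil_iff.1 hw)
    cases b
    · simp [pe, rk, nb_none]
    · exact absurd rfl hp
  · by_cases hs : s = b
    · subst hs
      have h1 : pe (h, s) = some j := by simp [pe, hw]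
      rw [h1, nb_some]
      simp only [rk, inv_inv, toWord_letter, hw, List.head?_cons, Bool.not_not, if_true,
        List.tail_cons, List.length_cons, Option.elim]
      split_ifs <;> omega
    · have h1 : pe (h, b) = none := by simp [pe, hw, hs]
      rw [h1, nb_none]
      cases s <;> cases b <;> simp [rk, hw] at hs ⊢

theorem pe_cases (p : FreeGroup α × Bool) (e : Option α) :
    (p ≠ (1, true) ∧ pe p = e) ∨ (nb e p ≠ (1, true) ∧ pe (nb e p) = e) := by
  rcases p with ⟨h, b⟩
  have ne : ∀ (k : FreeGroup α) (b : Bool), k⁻¹.toWord ≠ [] → (k, b) ≠ (1, true) := by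
    rintro k b hk ⟨⟩
    simp at hk
  rcases e with _ | i
  · rw [nb_none]
    rcases hw : h⁻¹.toWord with _ | ⟨⟨j, s⟩, tl⟩
    · cases b <;> simp [pe, hw]
    · have h1 := fun b => ne h b (by simp [hw])
      cases s <;> cases b <;> simp [pe, hw, h1]
  · rw [nb_some]
    by_cases hw : h⁻¹.toWord.head? = some (i, b)
    · exact Or.inl ⟨ne _ _ fun h' => by simp [h'] at hw, by simp only [pe, hw]; simp⟩
    · have h1 : (FreeGroup.mk [(i, !b)] * h⁻¹).toWord = (i, !b) :: h⁻¹.toWord := by
        rw [toWord_letter, Bool.not_not, if_neg hw]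
      refine Or.inr ⟨ne _ _ (by rw [inv_inv, h1]; simp), ?_⟩
      simp only [pe, inv_inv, h1]
      simp

/-- The distance to the root. -/
def ht (p : FreeGroup α × Bool) : ℕ :=
  if _h : p = (1, true) then 0 else ht (nb (pe p) p) + 1
termination_by rk p
decreasing_by exact rk_lt _h

theorem ht_root : ht ((1, true) : FreeGroup α × Bool) = 0 := by rw [ht, dif_pos rfl]

theorem ht_pe {p : FreeGroup α × Bool} (hp : p ≠ (1, true)) : ht (nb (pe p) p) + 1 = ht p := by
  rw [ht.eq_1 p, dif_neg hp]

theorem ht_nb {p : FreeGroup α × Bool} {e : Option α} (h : p = (1, true) ∨ e ≠ pe p) :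
    ht (nb e p) = ht p + 1 := by
  rcases pe_cases p e with ⟨h1, h2⟩ | ⟨h1, h2⟩
  · exact absurd h (not_or.2 ⟨h1, not_not.2 h2.symm⟩)
  · rw [← ht_pe h1, h2, nb_nb]

theorem ht_eq_zero {p : FreeGroup α × Bool} : ht p = 0 ↔ p = (1, true) :=
  ⟨fun h => by_contra fun hp => by rw [← ht_pe hp] at h; omega, fun h => h ▸ ht_root⟩

end Pool.Agent.Lib.MP_75c153_gt.Ft
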