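import Pool.Agent.Lib.MP_75c153_gt.Ft.CGl
import Pool.Agent.Lib.MP_75c153_gt.Ft.Tree

/-! The manifold of a gluing pattern that is a tree is simply connected. -/

open Set Topology

namespace Pool.Agent.Lib.MP_75c153_gt.Ft

open Pool.Agent.Lib.MP_570070_gt.An

variable {c : Par} {P : Type} [Nonempty P] {Γ : Gl c P}

theorem isPathConnected_q (p : P) {W : Set (Eu 5)} (hW : IsOpen W) (h : W ⊆ DR c)
    (hc : IsPreconnected W) (hn : W.Nonempty) : IsPathConnected ((et Γ).π p '' W) :=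
  (hW.isConnected_iff_isPathConnected.1 ⟨hn, hc⟩).image' ((Etale.continuousOn_π p).mono h)

/-- The round part of a chart. -/
def DRo (c : Par) (b : Bool) : Set (Eu 5) := {y | y ∈ DRb c b ∧ zsq y < 9}

theorem isOpen_DRo (b : Bool) : IsOpen (DRo c b) :=
  (contDiffOn_zsq.continuousOn.mono (DRb_subset b)).isOpen_inter_preimage (isOpen_DRb b) isOpen_Iio

theorem isSimplyConnected_DRo (b : Bool) : IsSimplyConnected (DRo c b) := by
  have e : DRo c b = split ⁻¹' (W3 c (-1) ×ˢ {z | (z.1 - 4 * tau b) ^ 2 + z.2 ^ 2 < 9}) := by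
    ext y
    rw [DRo, mem_ofPred_eq, ← DRa_neg_one]
    constructor
    · rintro ⟨h1, h2⟩
      rw [zsq, zc_of_mem h1.1] at h2
      exact ⟨((mem_DRa le_rfl).1 h1).1, h2⟩
    · rintro ⟨h1, h2⟩
      change (y 3 - _) ^ 2 + y 4 ^ 2 < _ at h2
      have h4 : y ∈ DRa c (-1) b := (mem_DRa le_rfl).2 ⟨h1,
        abs_lt_of_sq_lt_sq (by nlinarith [sq_nonneg (y 4)]) (by norm_num),
        abs_lt_of_sq_lt_sq (by nlinarith [sq_nonneg (y 3 - 4 * tau b)]) (by norm_num)⟩
      rw [zsq, zc_of_mem h4.1]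
      exact ⟨h4, h2⟩
  rw [e, Homeomorph.isSimplyConnected_preimage]
  refine isSimplyConnected_prod (isSimplyConnected_W3 (by norm_num)) ?_
  have h : Convex ℝ {z : ℝ × ℝ | (z.1 - 4 * tau b) ^ 2 + z.2 ^ 2 < 9} := by
    refine convex_iff_forall_pos.2 fun x hx y hy s t hs ht hst => ?_
    obtain rfl : t = 1 - s := by linarith
    simp only [mem_ofPred_eq, Prod.fst_add, Prod.snd_add, Prod.smul_fst, Prod.smul_snd,
      smul_eq_mul] at hx hy ⊢
    have h1 := mul_lt_mul_of_pos_left hx hs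
    have h2 := mul_lt_mul_of_pos_left hy ht
    have h3 := mul_nonneg (mul_pos hs ht).le (sq_nonneg (x.1 - y.1))
    have h4 := mul_nonneg (mul_pos hs ht).le (sq_nonneg (x.2 - y.2))
    nlinarith
  have := h.contractibleSpace ⟨(4 * tau b, 0), by simp⟩
  exact SimplyConnectedSpace.ofContractible _

theorem isSimplyConnected_chart (p : P) (b : Bool) :
    IsSimplyConnected ((et Γ).π p '' DRo c b) := by
  have g := good_DRb (Γ := Γ) p b
  refine isSimplyConnected_of_retract (isSimplyConnected_DRo b) (s := Etale.chart g)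
    ((Etale.continuousOn_π p).mono fun _ h => h.1.1)
    ((Etale.chart g).continuousOn.mono (image_mono fun _ h => h.1)) (mapsTo_image _ _) ?_ ?_
  · rintro _ ⟨y, hy, rfl⟩
    rwa [Etale.chart_π g hy.1]
  · rintro _ ⟨y, hy, rfl⟩
    rw [Etale.chart_π g hy.1]

/-- The two charts of a piece meet in a path connected set. -/
theorem isPathConnected_overlap (p : P) :
    IsPathConnected ((et Γ).π p '' DRo c true ∩ (et Γ).π p '' DRo c false) := by
  have h := isPreconnected_ann' (c := c) le_rfl (by norm_num) true (r := 1 / 3) (R := 3)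
    (by norm_num) (by norm_num) le_rfl
  have e : {y | y ∈ Wa c (-1) ∧ cb y = true ∧ (1 / 3) ^ 2 < zsq y ∧ zsq y < 3 ^ 2} =
      DRo c true ∩ zsq ⁻¹' Ioi (1 / 9) := by
    ext y
    exact ⟨fun h => ⟨⟨⟨h.1.1, h.2.1⟩, by linarith [h.2.2.2]⟩, 
      show 1 / 9 < zsq y by linarith [h.2.2.1]⟩,
      fun h => ⟨⟨h.1.1.1, fun e => (h.1.1.1.1 e).2⟩, h.1.1.2, by linarith [show 1 / 9 < zsq y from h.2],
        by linarith [h.1.2]⟩⟩
  rw [e] at h
  obtain ⟨y₀, h1, -, h2⟩ := exists_sc_eq (none : Ed c) (a := 0) (by norm_num) (by norm_num) true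
  convert isPathConnected_q (Γ := Γ) p ((contDiffOn_zsq.continuousOn.mono
    fun _ h => h.1.1).isOpen_inter_preimage (isOpen_DRo true) isOpen_Ioi) (fun _ h => h.1.1.1) h
    ⟨y₀, ⟨h1, by linarith⟩, show 1 / 9 < zsq y₀ by linarith⟩ using 1
  ext x
  constructor
  · rintro ⟨⟨y, hy, rfl⟩, y', hy', e⟩
    have h3 := ((q_eq hy'.1.1 hy.1.1).1 e).same.zsq_mul (by rw [hy.1.2, hy'.1.2]; simp)
    exact ⟨y, ⟨hy, show 1 / 9 < zsq y from not_le.1 fun h4 => by
      nlinarith [hy'.2, zsq_nonneg y']⟩, rfl⟩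
  · rintro ⟨y, ⟨hy, h3⟩, rfl⟩
    obtain ⟨y', h4, h5⟩ := exists_same hy.1.1 h3
    have h6 := h4.zsq_mul (by rw [h5]; simp)
    have h7 : 1 / 9 < zsq y := h3
    exact ⟨⟨y, hy, rfl⟩, y', ⟨⟨h4.2.1, by rw [h5, hy.1.2]; rfl⟩, by nlinarith [zsq_nonneg y']⟩,
      q_same p h4⟩

theorem isSimplyConnected_piece (p : P) : IsSimplyConnected ((et Γ).π p '' DR c) := by
  have e : (et Γ).π p '' DR c = (et Γ).π p '' DRo c true ∪ (et Γ).π p '' DRo c false := by
    refine Subset.antisymm ?_ (union_subset (image_mono fun _ h => h.1.1)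
      (image_mono fun _ h => h.1.1))
    rintro _ ⟨y, hy, rfl⟩
    obtain ⟨y', h1, h2⟩ := exists_same_le hy
    cases hb : cb y'
    exacts [Or.inr ⟨y', ⟨⟨h1.2.1, hb⟩, by linarith⟩, q_same p h1⟩,
      Or.inl ⟨y', ⟨⟨h1.2.1, hb⟩, by linarith⟩, q_same p h1⟩]
  rw [e]
  exact isSimplyConnected_union (Etale.isOpen_image p (isOpen_DRo _) fun _ h => h.1.1)
    (Etale.isOpen_image p (isOpen_DRo _) fun _ h => h.1.1) (isSimplyConnected_chart p _)
    (isSimplyConnected_chart p _) (isPathConnected_overlap p)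

theorem isPathConnected_collar (p : P) (e : Ed c) :
    IsPathConnected ((et Γ).π p '' {y | y ∈ DR c ∧ sc e y < 1}) := by
  obtain ⟨y, h1, h2, h3⟩ := exists_sc_eq e (a := 0) (by norm_num) (by norm_num) true
  obtain ⟨y', h4, h5⟩ := exists_same h1.1 (by linarith)
  have m : y ∈ {y | y ∈ DRb c true ∧ |sc e y| < 1} := ⟨h1, by simp [h2]⟩
  have m' : y' ∈ {y | y ∈ DRb c false ∧ |sc e y| < 1} :=
    ⟨⟨h4.2.1, by rw [h5, h1.2]; rfl⟩, by simp [h4.sc_eq, h2]⟩
  have o : ∀ b, IsOpen {y | y ∈ DRb c b ∧ |sc e y| < 1} := fun b =>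
    ((contDiffOn_sc e).continuousOn.mono (DRb_subset b)).abs.isOpen_inter_preimage (isOpen_DRb b)
      isOpen_Iio
  convert (isPathConnected_q (Γ := Γ) p (o true) (fun _ h => h.1.1)
    (isPreconnected_collar e le_rfl true) ⟨y, m⟩).union (isPathConnected_q p (o false)
    (fun _ h => h.1.1) (isPreconnected_collar e le_rfl false) ⟨y', m'⟩)
    ⟨_, ⟨y, m, rfl⟩, y', m', q_same p h4⟩ using 1
  rw [← image_union]
  congr 1
  ext z
  constructor
  · rintro ⟨h, h'⟩
    have h6 : |sc e z| < 1 := abs_lt.2 ⟨(h.1 e).2, h'⟩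
    cases hb : cb z
    exacts [Or.inr ⟨⟨h, hb⟩, h6⟩, Or.inl ⟨⟨h, hb⟩, h6⟩]
  · rintro (h | h) <;> exact ⟨h.1.1, (abs_lt.1 h.2).2⟩

theorem simplyConnected_et (Γ : Gl c P) (ht : P → ℕ) (root : P)
    (h0 : ∀ p, ht p = 0 ↔ p = root)
    (h1 : ∀ p e, ht (Γ.σ e p) = ht p + 1 ∨ ht (Γ.σ e p) + 1 = ht p)
    (h2 : ∀ p, p ≠ root → ∃! e, ht (Γ.σ e p) + 1 = ht p) : SimplyConnectedSpace (et Γ).X := by
  classical
  have : ∀ p, ∃ e, p ≠ root → ht (Γ.σ e p) + 1 = ht p ∧
      ∀ e', ht (Γ.σ e' p) + 1 = ht p → e' = e := fun p => by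
    by_cases h : p = root
    exacts [⟨none, fun h' => absurd h h'⟩, (h2 p h).imp fun _ h _ => h]
  choose pe hpe using this
  have key : ∀ p e, ht (Γ.σ e p) + 1 = ht p → p ≠ root ∧ Γ.σ e p = Γ.σ (pe p) p := fun p e h => by
    have h3 : p ≠ root := fun h' => by rw [(h0 p).2 h'] at h; omega
    exact ⟨h3, by rw [(hpe p h3).2 e h]⟩
  refine TreeCover.simplyConnected
    { U := fun p => (et Γ).π p '' DR c
      root := root
      par := fun p => Γ.σ (pe p) p
      rk := ht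
      isOpen := fun p => Etale.isOpen_image p isOpen_DR Subset.rfl
      cover := fun x => let ⟨p, y, hy, e⟩ := Etale.exists_rep x; ⟨p, y, hy, e⟩
      sc := isSimplyConnected_piece
      lt := fun p h => by have := (hpe p h).1; omega
      pc := fun p h => ?_
      nerve := ?_ }
  · convert isPathConnected_collar (Γ := Γ) p (pe p) using 1
    ext x
    constructor
    · rintro ⟨⟨y, hy, rfl⟩, y', hy', e⟩
      obtain ⟨_ | e', f, h3⟩ := (q_eq hy hy').1 e.symm
      · exact absurd h3 (Γ.ne _ p)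
      · obtain rfl := (hpe p h).2 e' (by rw [← (hpe p h).1, h3]; rfl)
        exact ⟨y, ⟨hy, Flip.sc_lt f⟩, rfl⟩
    · rintro ⟨y, ⟨hy, h3⟩, rfl⟩
      exact ⟨⟨y, hy, rfl⟩, _, (flip_flipPt hy h3).2.1, q_flip p (flip_flipPt hy h3)⟩
  · rintro p q _ ⟨y, hy, rfl⟩ ⟨y', hy', h3⟩
    obtain ⟨_ | e, -, rfl⟩ := (q_eq hy hy').1 h3.symm
    · exact Or.inl rfl
    · rcases h1 p e with h | h
      · have := key (Γ.σ e p) e (by rw [Γ.invol, h])
        rw [Γ.invol] at this
        exact Or.inr (Or.inr this)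
      · exact Or.inr (Or.inl (key p e h))

theorem simplyConnected_mfd [Countable P] (Γ : Gl c P) (ht : P → ℕ) (root : P)
    (h0 : ∀ p, ht p = 0 ↔ p = root)
    (h1 : ∀ p e, ht (Γ.σ e p) = ht p + 1 ∨ ht (Γ.σ e p) + 1 = ht p)
    (h2 : ∀ p, p ≠ root → ∃! e, ht (Γ.σ e p) + 1 = ht p) : SimplyConnectedSpace (mfd Γ).M :=
  simplyConnected_et Γ ht root h0 h1 h2

/-- The manifold of the free group is simply connected. -/
theorem simplyConnected_free (c : Par) : SimplyConnectedSpace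
    (mfd (grpGl c fun e => (e.elim 1 FreeGroup.of : FreeGroup (Fin (c.m + 1))))).M := by
  refine simplyConnected_mfd _ ht (1, true) (fun _ => ht_eq_zero) (fun p e => ?_) fun p hp => ?_
  · by_cases h : p = (1, true) ∨ e ≠ pe p
    · exact Or.inl (ht_nb h)
    · obtain ⟨h1, h2⟩ := not_or.1 h
      obtain rfl := not_not.1 h2
      exact Or.inr (ht_pe h1)
  · refine ⟨pe p, ht_pe hp, fun e he => by_contra fun h => ?_⟩
    have h1 : ht (nb e p) + 1 = ht p := he
    rw [ht_nb (Or.inr h)] at h1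
    omega

end Pool.Agent.Lib.MP_75c153_gt.Ft
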