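import Pool.Agent.Lib.MP_75c153_gt.Ft.TF
import Pool.Agent.Lib.MP_75c153_gt.Ft.Star
import Pool.Agent.Lib.MP_75c153_gt.Ft.Sym
import Pool.Agent.Lib.MP_75c153_gt.Ft.MT

/-! Small singular values of the adjacency operator give small eigenvalues in degree two. -/

open MeasureTheory Filter Topology Set
open scoped ContDiff InnerProductSpace

namespace Pool.Agent.Lib.MP_75c153_gt.Ft

open Pool.Agent.Lib.MP_570070_gt.An

theorem tail2_symm {c : Par} {P : Type} [Fintype P] (Γ : Gl c P) (u v : P → ℝ) :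
    ∑ p, ahat Γ u p * v p = ∑ p, u p * ahat Γ v p := by
  simp only [ahat, Finset.sum_mul, Finset.mul_sum]
  rw [Finset.sum_comm, Finset.sum_comm (s := Finset.univ (α := P))]
  refine Finset.sum_congr rfl fun e _ => ?_
  have hi : Function.Involutive (Γ.σ e) := Γ.invol e
  rw [← Equiv.sum_comp hi.toPerm]
  refine Finset.sum_congr rfl fun p _ => ?_
  simp only [Function.Involutive.coe_toPerm, Γ.invol]
  ring

theorem tail2_tau {c : Par} {P : Type} (Γ : Gl c P) (u : P → ℝ) (p : P) :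
    ahat Γ (fun p => tau (Γ.side p) * u p) p ^ 2 = ahat Γ u p ^ 2 := by
  have h : ahat Γ (fun p => tau (Γ.side p) * u p) p = -tau (Γ.side p) * ahat Γ u p := by
    simp only [ahat, Γ.side_σ, tau_not, Finset.mul_sum]
    exact Finset.sum_congr rfl fun e _ => by ring
  rw [h, mul_pow, neg_sq, tau_sq, one_mul]

/-- Small singular values of the adjacency operator give coexact forms of small energy. -/
theorem exists_small_forms (c : Par) : ∃ κ : ℝ, 0 < κ ∧ ∀ {P : Type} [Fintype P] (Γ : Gl c P)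
    (U : UpL2 Γ) (s : ℝ) (W : Submodule ℝ (P → ℝ)), 0 ≤ s →
    (∀ v ∈ W, ∑ p, ahat Γ v p ^ 2 ≤ s * ∑ p, v p ^ 2 ∧ ∃ u, ahat Γ u = v) →
    ∃ W' : Submodule ℝ (U.H 2), FiniteDimensional ℝ W' ∧
      Module.finrank ℝ W' = Module.finrank ℝ W ∧ ∀ w ∈ W',
        (∃ ξ, (w, ξ) ∈ domS U.D 2 ∧ κ * ‖ξ‖ ^ 2 ≤ s * ‖w‖ ^ 2) ∧
        ∀ h, (h, (0 : KK U.H 2)) ∈ domS U.D 2 → ⟪h, w⟫_ℝ = 0 := by
  obtain ⟨A, γ, hA⟩ := exists_isAlpha c
  set I := ∫ y in DR c, wg c y * γ (xp y) * mu y ^ 2 with hI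
  set C := ∫ y in DR c, wg c y * (γ (xp y) ^ 2 * (lam c y ^ 6)⁻¹) * vol c y with hC
  have hI0 : 0 < I := hA.integral_pos
  have hC0 : 0 ≤ C := uint_nonneg fun y _ => by positivity
  refine ⟨I ^ 2 / (C ^ 2 + 1), by positivity, fun {P} _ Γ U s W hs hW => ?_⟩
  obtain ⟨Pr, h1, h2, h3⟩ := exists_coex' (D := U.D) (k := 1) fun f b h => U.dd h
  let J : (P → ℝ) →ₗ[ℝ] U.H 2 :=
    { toFun := fun v => U.j 2 (om Γ A v)
      map_add' := fun u v => by rw [om_add, U.j_add (hA.isT_om u) (hA.isT_om v)]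
      map_smul' := fun t v => by rw [om_smul, U.j_smul (hA.isT_om v)]; rfl }
  let L : (P → ℝ) →ₗ[ℝ] U.H 2 := Pr.toLinearMap ∘ₗ J
  have hL : ∀ v, L v = Pr (U.j 2 (om Γ A v)) := fun v => rfl
  have key : ∀ v ∈ W, I ^ 2 * ∑ p, v p ^ 2 ≤ C * ‖L v‖ ^ 2 := by
    intro v hv
    obtain ⟨-, u, hu⟩ := hW v hv
    obtain ⟨ψ, hcod, hψ⟩ := U.cod_star (hA.isT_om fun p => tau (Γ.side p) * u p)
    have e1 := h3 _ _ _ _ (U.D_j (hA.isT_om v)) ⟨_, U.D_j ((hA.isT_om _).stF _)⟩ hcod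
    have e0 : ∑ p, ahat Γ v p * u p = ∑ p, v p * v p := by
      rw [tail2_symm, hu]
    rw [hA.inner_d_star, ← hL] at e1
    simp only [← mul_assoc, tau_mul_self, one_mul, e0] at e1
    have e2 := abs_real_inner_le_norm (L v) ψ
    have e3 := hA.norm_d U fun p => tau (Γ.side p) * u p
    simp only [tail2_tau, hu, ← hC] at e3
    rw [hψ, ← e1, abs_neg, ← hI] at e2
    set S := ∑ p, v p ^ 2 with hS
    have hS' : ∑ p, v p * v p = S := Finset.sum_congr rfl fun p _ => (sq _).symm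
    have hS0 : 0 ≤ S := Finset.sum_nonneg fun p _ => sq_nonneg _
    rw [hS', abs_of_nonneg (by positivity)] at e2
    have e4 : (I * S) ^ 2 ≤ ‖L v‖ ^ 2 * (C * S) := by
      rw [← e3, ← mul_pow]
      exact pow_le_pow_left₀ (by positivity) e2 2
    rcases hS0.eq_or_lt with h0 | h0
    · rw [← h0, mul_zero]
      positivity
    · exact le_of_mul_le_mul_right (by nlinarith) h0
  have hinj : Function.Injective (L.domRestrict W) := by
    rw [injective_iff_map_eq_zero]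
    intro v hv
    have h0 := key v v.2
    have hv' : L v = 0 := hv
    rw [hv', norm_zero] at h0
    have h4 : ∑ p, (v : P → ℝ) p ^ 2 ≤ 0 :=
      le_of_mul_le_mul_left (by simpa using h0) (by positivity : 0 < I ^ 2)
    have h5 := (Finset.sum_eq_zero_iff_of_nonneg fun p _ => sq_nonneg ((v : P → ℝ) p)).1
      (le_antisymm h4 (Finset.sum_nonneg fun p _ => sq_nonneg _))
    ext p
    exact pow_eq_zero_iff two_ne_zero |>.1 (h5 p (Finset.mem_univ p))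
  refine ⟨LinearMap.range (L.domRestrict W), inferInstance, LinearMap.finrank_range_of_inj hinj, ?_⟩
  rintro _ ⟨v, rfl⟩
  refine ⟨⟨_, h1 _ _ (U.D_j (hA.isT_om (v : P → ℝ))), ?_⟩, fun h hh => h2 _ h hh⟩
  have e1 : ‖(WithLp.toLp 2 (U.j 3 (dF (om Γ A v)), 0) : KK U.H 2)‖ ^ 2 =
      C * ∑ p, ahat Γ v p ^ 2 := by
    rw [WithLp.prod_norm_sq_eq_of_L2, ← hA.norm_d U v]
    simp
  have e2 := key v v.2
  have e3 := (hW v v.2).1
  change _ * ‖(WithLp.toLp 2 (U.j 3 (dF (om Γ A v)), 0) : KK U.H 2)‖ ^ 2 ≤ s * ‖L v‖ ^ 2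
  rw [e1, div_mul_eq_mul_div, div_le_iff₀ (by positivity)]
  have e4 : I ^ 2 * (C * ∑ p, ahat Γ v p ^ 2) ≤ C * s * (I ^ 2 * ∑ p, (v : P → ℝ) p ^ 2) := by
    have := mul_le_mul_of_nonneg_left e3 (by positivity : 0 ≤ I ^ 2 * C)
    linarith
  have e5 := mul_le_mul_of_nonneg_left e2 (by positivity : 0 ≤ C * s)
  have e6 : 0 ≤ s * ‖L v‖ ^ 2 := by positivity
  nlinarith

theorem tail_two_grp (c : Par) : ∃ κ : ℝ, 0 < κ ∧ ∀ {Q : Type} [Group Q] [Fintype Q]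
    (g : Ed c → Q) (U : UpL2 (grpGl c g)) {Pt : ℝ → U.H 2 →L[ℝ] U.H 2}, IsHeat (dom U.D 2) Pt →
    (∀ t, 0 < t → trOn (U.on 2 (base Q)) (Pt t) ≠ ⊤) → ∀ t : ℝ, 0 < t →
    ∀ W : Submodule ℝ (Q × Bool → ℝ),
      (∀ v ∈ W, ∑ p, ahat (grpGl c g) v p ^ 2 ≤ κ / (2 * t) * ∑ p, v p ^ 2 ∧
        ∃ u, ahat (grpGl c g) u = v) →
      ∀ b, Tendsto (fun t => (trOn (U.on 2 (base Q)) (Pt t)).toReal) atTop (𝓝 b) →
        (Module.finrank ℝ W : ℝ) / (2 * Fintype.card Q) ≤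
          (trOn (U.on 2 (base Q)) (Pt t)).toReal - b := by
  obtain ⟨κ, hκ, h⟩ := exists_small_forms c
  refine ⟨κ, hκ, fun {Q} _ _ g U Pt hP hf t ht W hW b hb => ?_⟩
  obtain ⟨W', _, h1, h2⟩ := h (grpGl c g) U (κ / (2 * t)) W (by positivity) hW
  obtain ⟨𝒯⟩ := exists_tiling c g U hP
  rw [← U.coe_onS] at hf hb ⊢
  rw [← h1]
  refine tail_one (isHeat₂_of_isHeat hP) 𝒯 hf W' ht (fun w hw => ?_) hb
  obtain ⟨⟨ξ, h3, h4⟩, h5⟩ := h2 w hw
  refine ⟨⟨ξ, h3, ?_⟩, h5⟩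
  rw [div_mul_eq_mul_div, le_div_iff₀ (by positivity)] at h4
  exact le_of_mul_le_mul_left (by linarith) hκ

end Pool.Agent.Lib.MP_75c153_gt.Ft
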