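import Pool.Agent.Lib.MP_570070_gt.An.AMel

open MeasureTheory Filter Topology Set
open scoped InnerProductSpace
open Pool.Agent.Lib.MP_570070_gt.An

namespace Pool.Agent.Lib.MP_75c153_gt.Ft

theorem isRegInt_congr {θ θ' : ℝ → ℝ} {I : ℝ} (h : IsRegInt θ I) (e : ∀ t, 0 < t → θ' t = θ t) :
    IsRegInt θ' I := by
  obtain ⟨b, h1, h2, s₀, ζ, h3, h4, h5, h6⟩ := h
  have e1 : EqOn (fun t => t⁻¹ * (θ t - b)) (fun t => t⁻¹ * (θ' t - b)) (Ioi 1) := fun t ht => by
    simp only [e t (one_pos.trans ht)]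
  have e2 : ∀ s : ℂ, EqOn (fun t : ℝ => (t : ℂ) ^ (s - 1) * ((θ t - b : ℝ) : ℂ))
      (fun t : ℝ => (t : ℂ) ^ (s - 1) * ((θ' t - b : ℝ) : ℂ)) (Ioc 0 1) := fun s t ht => by
    simp only [e t ht.1]
  refine ⟨b, h1.congr' ((eventually_gt_atTop 0).mono fun t ht => (e t ht).symm),
    h2.congr_fun e1 measurableSet_Ioi, s₀, ζ, h3, h4, fun s hs =>
      ⟨(h5 s hs).1.congr_fun (e2 s) measurableSet_Ioc, ?_⟩, ?_⟩
  · rw [(h5 s hs).2, setIntegral_congr_fun measurableSet_Ioc (e2 s)]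
  · rw [h6, setIntegral_congr_fun measurableSet_Ioi e1]

theorem isRegInt_div {θ : ℝ → ℝ} {I : ℝ} (h : IsRegInt θ I) (N : ℝ) :
    IsRegInt (fun t => θ t / N) (I / N) := by
  obtain ⟨b, h1, h2, s₀, ζ, h3, h4, h5, h6⟩ := h
  have e1 : ∀ t : ℝ, t⁻¹ * (θ t / N - b / N) = t⁻¹ * (θ t - b) / N := fun t => by ring
  have e2 : ∀ (s : ℂ) (t : ℝ), (t : ℂ) ^ (s - 1) * ((θ t / N - b / N : ℝ) : ℂ) =
      (t : ℂ) ^ (s - 1) * ((θ t - b : ℝ) : ℂ) / N := fun s t => by
    push_cast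
    ring
  refine ⟨b / N, h1.div_const N, ?_, s₀, fun s => ζ s / N,
    fun s hs => (h3 s hs).div (MeromorphicAt.const _ _), h4.div_const, fun s hs => ?_, ?_⟩
  · simp only [e1]
    exact h2.div_const N
  · simp only [e2]
    exact ⟨(h5 s hs).1.div_const _, by rw [integral_div, (h5 s hs).2, mul_div_assoc]⟩
  · simp only [e1]
    rw [integral_div, deriv_div_const, Complex.div_ofReal_re, h6, add_div]

theorem zb_term {x t : ℝ} (hx : 0 < x) (ht : 0 < t) (n : ℕ) :
    Real.exp (-(x * t)) ≤ x ^ (-(n : ℝ)) * (n.factorial * t ^ (-(n : ℝ))) := by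
  have h := Real.pow_div_factorial_le_exp _ (mul_pos hx ht).le n
  rw [Real.exp_neg, Real.rpow_neg hx.le, Real.rpow_neg ht.le, Real.rpow_natCast, Real.rpow_natCast]
  refine (inv_anti₀ (by positivity) h).trans_eq ?_
  rw [mul_pow]
  field_simp

theorem zb_real {κ : Type} {p : κ → ℝ} (hp : ∀ i, 0 < p i) {x : ℝ}
    (hs : Summable fun i => ((p i : ℝ) : ℂ) ^ (-(x : ℂ))) : Summable fun i => p i ^ (-x) :=
  hs.norm.congr fun i => by
    rw [Complex.norm_cpow_eq_rpow_re_of_pos (hp i), Complex.neg_re, Complex.ofReal_re]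

theorem zb_sum {κ : Type} {p : κ → ℝ} (hp : ∀ i, 0 < p i) {n : ℕ}
    (hs : Summable fun i => p i ^ (-(n : ℝ))) {t : ℝ} (ht : 0 < t) :
    Summable fun i => Real.exp (-(p i * t)) :=
  (hs.mul_right _).of_nonneg_of_le (fun _ => (Real.exp_pos _).le) fun i => zb_term (hp i) ht n

/-- exp (-x) ≤ C x ^ (-σ) for x > 0 (for example from Real.pow_div_factorial_le_exp with a natural
number σ), and the zero eigenvalues are finitely many. -/
theorem summable_exp_of_zeta {ι : Type} {l : ι → ℝ} (h0 : ∀ j, 0 ≤ l j) (hf : {j | l j = 0}.Finite)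
    {s₀ : ℝ} (hs : ∀ s : ℂ, s₀ < s.re → Summable fun j : {j // l j ≠ 0} => ((l j : ℝ) : ℂ) ^ (-s))
    {t : ℝ} (ht : 0 < t) : Summable fun j => Real.exp (-(l j * t)) := by
  obtain ⟨n, hn⟩ := exists_nat_gt s₀
  have hp : ∀ j : {j // l j ≠ 0}, 0 < l j := fun j => (h0 j).lt_of_ne' j.2
  exact (hf.summable_compl_iff (f := fun j => Real.exp (-(l j * t)))).1
    (zb_sum hp (zb_real hp (x := n) (hs _ hn)) ht)

theorem zb_core {g : ℝ → ℝ} (hl : LocallyIntegrableOn (fun t => ((g t : ℝ) : ℂ)) (Ioi 0)) {m : ℕ}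
    (hO : ∀ n : ℕ, m ≤ n → ∃ C, ∀ t, 0 < t → |g t| ≤ C * t ^ (-(n : ℝ))) {ζ : ℂ → ℂ}
    (hm : MeromorphicOn ζ univ) (ha : AnalyticAt ℂ ζ 0) (hs : ∀ s : ℂ, m < s.re →
      mellin (fun t => ((g t : ℝ) : ℂ)) s = Complex.Gamma s * ζ s) (b : ℝ) :
    IsRegInt (fun t => b + g t) (deriv ζ 0).re := by
  have hB : ∀ n : ℕ, m ≤ n → ∀ F : Filter ℝ, (∀ᶠ t in F, 0 < t) →
      (fun t => ((g t : ℝ) : ℂ)) =O[F] fun t : ℝ => t ^ (-(n : ℝ)) := fun n hn F hF => by
    obtain ⟨C, hC⟩ := hO n hn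
    refine Asymptotics.IsBigO.of_bound C (hF.mono fun t ht => ?_)
    rw [Complex.norm_real, Real.norm_eq_abs, Real.norm_of_nonneg (Real.rpow_nonneg ht.le _)]
    exact hC t ht
  have hT := fun n hn => hB n hn atTop (eventually_gt_atTop 0)
  have hn : ∀ s : ℂ, s.re < (m + ⌈s.re⌉₊ + 1 : ℕ) := fun s => by
    push_cast
    linarith [Nat.le_ceil s.re, m.cast_nonneg (α := ℝ)]
  set G := indicator (Ioi (1 : ℝ)) fun t => ((g t : ℝ) : ℂ) with hG
  have l1 : LocallyIntegrableOn G (Ioi 0) := fun x hx =>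
    (hl x hx).imp fun _ h => ⟨h.1, h.2.indicator measurableSet_Ioi⟩
  have t1 : ∀ n : ℕ, m ≤ n → G =O[atTop] fun t : ℝ => t ^ (-(n : ℝ)) := fun n hn =>
    (Asymptotics.isBigO_of_le _ fun t => norm_indicator_le_norm_self _ t).trans (hT n hn)
  have b1 : ∀ a : ℝ, G =O[𝓝[>] 0] fun t : ℝ => t ^ (-a) := fun a => by
    refine Asymptotics.IsBigO.of_bound 0 ?_
    filter_upwards [Ioc_mem_nhdsGT (zero_lt_one' ℝ)] with t ht
    rw [hG, indicator_of_notMem (notMem_Ioi.2 ht.2), norm_zero, zero_mul]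
  have hE : Differentiable ℂ (mellin G) := fun s =>
    mellin_differentiableAt_of_isBigO_rpow l1 (t1 _ (by omega)) (hn s) (b1 _) (sub_one_lt _)
  have e1 : ∀ s : ℂ, (fun t : ℝ => (t : ℂ) ^ (s - 1) • G t) =
      indicator (Ioi 1) fun t : ℝ => (t : ℂ) ^ (s - 1) * ((g t : ℝ) : ℂ) := fun s =>
    funext fun t => (indicator_const_smul_apply _ _ _ _).symm.trans (by
      simp only [indicator, smul_eq_mul])
  have e2 : Ioi (1 : ℝ) ⊆ Ioi 0 := Ioi_subset_Ioi zero_le_one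
  have e3 : ∀ s, mellin G s = ∫ t in Ioi (1 : ℝ), (t : ℂ) ^ (s - 1) * ((g t : ℝ) : ℂ) := fun s => by
    rw [mellin, e1, setIntegral_indicator measurableSet_Ioi, inter_eq_self_of_subset_right e2]
  have e4 : (fun t : ℝ => (t : ℂ) ^ ((0 : ℂ) - 1) * ((g t : ℝ) : ℂ)) =
      fun t => ((t⁻¹ * g t : ℝ) : ℂ) := funext fun t => by
    rw [zero_sub, Complex.cpow_neg_one, Complex.ofReal_mul, Complex.ofReal_inv]
  have hK : Differentiable ℂ fun s => (Complex.Gamma s)⁻¹ * mellin G s :=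
    Complex.differentiable_one_div_Gamma.mul hE
  simp only [IsRegInt]
  refine ⟨b, ?_, ?_, m, fun s => ζ s - (Complex.Gamma s)⁻¹ * mellin G s,
    fun s hs => (hm s hs).sub (hK.analyticAt s).meromorphicAt, ha.sub (hK.analyticAt 0),
    fun s hs' => ?_, ?_⟩
  · have h1 := (Complex.continuous_re.tendsto 0).comp ((hT (m + 1) (by omega)).trans_tendsto
      (tendsto_rpow_neg_atTop (by positivity)))
    simpa using (tendsto_const_nhds (x := b)).add h1
  · have h1 := mellinConvergent_of_isBigO_rpow l1 (t1 _ (by omega)) (hn 0) (b1 _) (sub_one_lt _)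
    rw [MellinConvergent, e1, integrableOn_indicator_iff measurableSet_Ioi,
      inter_eq_self_of_subset_left e2, e4] at h1
    simp only [add_sub_cancel_left]
    exact h1.re
  · have h1 : IntegrableOn (fun t : ℝ => (t : ℂ) ^ (s - 1) * ((g t : ℝ) : ℂ)) (Ioi 0) :=
      mellinConvergent_of_isBigO_rpow hl (hT _ (by omega)) (hn s)
        (hB m le_rfl _ self_mem_nhdsWithin) hs'
    have h2 := hs s hs'
    rw [mellin, ← Ioc_union_Ioi_eq_Ioi zero_le_one] at h2
    simp only [smul_eq_mul, add_sub_cancel_left] at h2 ⊢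
    rw [setIntegral_union (Ioc_disjoint_Ioi le_rfl) measurableSet_Ioi
      (h1.mono_set Ioc_subset_Ioi_self) (h1.mono_set e2)] at h2
    refine ⟨h1.mono_set Ioc_subset_Ioi_self, ?_⟩
    rw [e3, eq_sub_of_add_eq h2, mul_sub, inv_mul_cancel_left₀
      (Complex.Gamma_ne_zero_of_re_pos (m.cast_nonneg.trans_lt hs'))]
  · have h1 : HasDerivAt (fun s => ζ s - (Complex.Gamma s)⁻¹ * mellin G s)
        (deriv ζ 0 - mellin G 0) 0 := (ha.differentiableAt.hasDerivAt.sub
      (amel_gam0.mul (hE 0).hasDerivAt)).congr_deriv (by simp [Complex.Gamma_zero])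
    simp only [add_sub_cancel_left]
    rw [h1.deriv, e3, e4, integral_complex_ofReal, Complex.sub_re, Complex.ofReal_re,
      sub_add_cancel]

/-- Let b be the number of zero eigenvalues and g t = θ t - b the sum over the non-zero ones.
Then g t ≤ C t ^ (-n) for t > 0 and every natural number n > s₀. For re s large: hasSum_mellin (the
index type is countable because the family is summable with non-zero terms) gives
mellin g s = Gamma s * ζ s. The function E s = ∫ t in Ioi 1, t ^ (s - 1) g t is entire. Take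
ζ₁ s = ζ s - (Gamma s)⁻¹ * E s; its derivative at 0 is deriv ζ 0 - E 0. -/
theorem isRegInt_of_zeta {ι : Type} {l : ι → ℝ} (h0 : ∀ j, 0 ≤ l j) (hf : {j | l j = 0}.Finite)
    {s₀ : ℝ} {ζ : ℂ → ℂ} (hm : MeromorphicOn ζ univ) (ha : AnalyticAt ℂ ζ 0)
    (hs : ∀ s : ℂ, s₀ < s.re → HasSum (fun j : {j // l j ≠ 0} => ((l j : ℝ) : ℂ) ^ (-s)) (ζ s)) :
    IsRegInt (fun t => ∑' j, Real.exp (-(l j * t))) (deriv ζ 0).re := by
  obtain ⟨m, hm₀⟩ := exists_nat_gt s₀
  have hp : ∀ j : {j // l j ≠ 0}, 0 < l j := fun j => (h0 j).lt_of_ne' j.2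
  have h1 : ∀ x : ℝ, m ≤ x → Summable fun j : {j // l j ≠ 0} => l j ^ (-x) := fun x hx =>
    zb_real hp (hs _ (hm₀.trans_le hx)).summable
  have h2 := fun t => zb_sum hp (h1 m le_rfl) (t := t)
  have : Countable {j // l j ≠ 0} := countable_univ_iff.1
    ((h1 m le_rfl).countable_support.mono fun j _ => (Real.rpow_pos_of_pos (hp j) _).ne')
  refine isRegInt_congr (zb_core (m := m) (g := fun t => ∑' j : {j // l j ≠ 0},
    Real.exp (-(l j * t))) ?_ (fun n hn => ?_) hm ha (fun s hs' => ?_)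
    (∑' _ : {j | l j = 0}, 1)) fun t ht => ?_
  · refine (locallyIntegrableOn_iff isOpen_Ioi.isLocallyClosed).2 fun k hk hc =>
      (AntitoneOn.integrableOn_isCompact hc fun a ha b hb hab => ?_).ofReal
    exact (h2 b (hk hb)).tsum_le_tsum (fun j => Real.exp_le_exp.2
      (neg_le_neg (mul_le_mul_of_nonneg_left hab (h0 j)))) (h2 a (hk ha))
  · have h3 := h1 n (Nat.cast_le.2 hn)
    refine ⟨(∑' j : {j // l j ≠ 0}, l j ^ (-(n : ℝ))) * n.factorial, fun t ht => ?_⟩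
    rw [abs_of_nonneg (tsum_nonneg fun _ => (Real.exp_pos _).le), mul_assoc, ← tsum_mul_right]
    exact (h2 t ht).tsum_le_tsum (fun j => zb_term (hp j) ht n) (h3.mul_right _)
  · refine (hasSum_mellin (a := fun _ => 1) (fun j => Or.inr (hp j)) (m.cast_nonneg.trans_lt hs')
      (fun t ht => ?_) ?_).unique ?_
    · simpa only [one_mul, neg_mul] using Complex.hasSum_ofReal.2 (h2 t ht).hasSum
    · exact (h1 _ hs'.le).congr fun j => by rw [norm_one, Real.rpow_neg (h0 _), one_div]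
    · simpa only [mul_one, Complex.cpow_neg, div_eq_mul_inv] using
        (hs s (hm₀.trans hs')).mul_left (Complex.Gamma s)
  · rw [← (summable_exp_of_zeta h0 hf (fun s h => (hs s h).summable)
      ht).tsum_subtype_add_tsum_subtype_compl {j | l j = 0}]
    congr 1
    exact tsum_congr fun j => by rw [show l j = 0 from j.2, zero_mul, neg_zero, Real.exp_zero]

end Pool.Agent.Lib.MP_75c153_gt.Ft
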