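import Pool.Agent.Lib.MP_75c153_gt.Ft.ZDefs
import Pool.Agent.Lib.MP_75c153_gt.Ft.ZA
import Pool.Agent.Lib.MP_75c153_gt.Ft.ZB

open MeasureTheory Filter Topology Set
open scoped InnerProductSpace
open Pool.Agent.Lib.MP_570070_gt.An

namespace Pool.Agent.Lib.MP_75c153_gt.Ft

variable {H : ℕ → Type} [∀ k, NormedAddCommGroup (H k)] [∀ k, InnerProductSpace ℝ (H k)]
  [∀ k, CompleteSpace (H k)] {D : ∀ k, H k → H (k + 1) → Prop}

theorem IsLogDet.heat {k : ℕ} {d : ℝ} (h : IsLogDet (dom D k) d) :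
    ∃ P, IsHeat (dom D k) P ∧ (∀ t, 0 < t → trOn univ (P t) ≠ ⊤) ∧
      IsRegInt (fun t => (trOn univ (P t)).toReal) (-d) := by
  obtain ⟨ι, e, l, hl, hf, s₀, ζ, hm, ha, hs, rfl⟩ := h
  obtain ⟨P, hP⟩ := exists_heat_of_basis e hl
  choose ξ hξ using fun j => lp_of_isLap (hl j)
  have h0 : ∀ j, 0 ≤ l j := fun j => eigen_nonneg (hξ j) (e.orthonormal.ne_zero j)
  have key := fun t (ht : 0 < t) => trOn_univ_basis e
    (fun j => heat_eigen (isHeat₂_of_isHeat hP) (hξ j) ht) (fun j => (Real.exp_pos _).le)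
    (summable_exp_of_zeta h0 hf (fun s h => (hs s h).summable) ht).hasSum
  refine ⟨P, hP, fun t ht => (key t ht).1, ?_⟩
  rw [neg_neg]
  exact isRegInt_congr (isRegInt_of_zeta h0 hf hm ha hs) fun t ht => (key t ht).2

/-- The Ray-Singer torsion in terms of the heat traces. -/
theorem IsRS.heat {n : ℕ} {Y : RMfd n} {r : ℝ} (h : IsRS Y r) :
    ∃ (L : L2 Y) (P : ∀ k, ℝ → L.H k →L[ℝ] L.H k) (I : ℕ → ℝ), (∀ k, IsHeat (dom L.D k) (P k)) ∧
      (∀ k ≤ n, (∀ t, 0 < t → trOn univ (P k t) ≠ ⊤) ∧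
        IsRegInt (fun t => (trOn univ (P k t)).toReal) (I k)) ∧
      r = 1 / 2 * ∑ k ∈ Finset.range (n + 1), (-1) ^ k * k * I k := by
  obtain ⟨L, d, hd, rfl⟩ := h
  have key : ∀ k, ∃ P, IsHeat (dom L.D k) P ∧ (k ≤ n → (∀ t, 0 < t → trOn univ (P t) ≠ ⊤) ∧
      IsRegInt (fun t => (trOn univ (P t)).toReal) (-d k)) := fun k => by
    by_cases hk : k ≤ n
    · obtain ⟨P, h1, h2⟩ := (hd k hk).heat
      exact ⟨P, h1, fun _ => h2⟩
    · obtain ⟨P, h1⟩ := exists_heat_of_zero (D := L.D) (l2_eq_zero L (not_le.1 hk))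
      exact ⟨P, h1, fun h => absurd h hk⟩
  choose P hP hP' using key
  refine ⟨L, P, fun k => -d k, hP, hP', ?_⟩
  simp only [mul_neg, Finset.sum_neg_distrib, neg_mul]

/-- From the whole space to one tile. -/
theorem tile_reg {k : ℕ} {P : ℝ → H k →L[ℝ] H k} (hP : IsHeat (dom D k) P)
    {S : Submodule ℝ (H k)} {ι : Type} [Fintype ι] [Nonempty ι] (𝒯 : Tiling P S ι)
    (hf : ∀ t, 0 < t → trOn univ (P t) ≠ ⊤) {I : ℝ}
    (hI : IsRegInt (fun t => (trOn univ (P t)).toReal) I) :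
    (∀ t, 0 < t → trOn (S : Set (H k)) (P t) ≠ ⊤) ∧
      IsRegInt (fun t => (trOn (S : Set (H k)) (P t)).toReal) (I / Fintype.card ι) :=
  ⟨fun t ht => (tiling_tr_univ (isHeat₂_of_isHeat hP) 𝒯 ht (hf t ht)).1,
    isRegInt_congr (isRegInt_div hI _) fun t ht =>
      (tiling_tr_univ (isHeat₂_of_isHeat hP) 𝒯 ht (hf t ht)).2⟩

end Pool.Agent.Lib.MP_75c153_gt.Ft
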