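import Pool.Agent.Lib.MP_75c153_gt.Ft.Tail1
import Pool.Agent.Lib.MP_75c153_gt.Ft.Tail2
import Pool.Agent.Lib.MP_75c153_gt.Ft.MR
import Pool.Agent.Lib.MP_75c153_gt.Ft.ZC
import Pool.Agent.Lib.MP_75c153_gt.Ft.LocMain
import Pool.Agent.Lib.MP_75c153_gt.Ft.CMain
import Pool.Agent.Lib.MP_75c153_gt.Ft.SC
import Pool.Agent.Lib.MP_570070_gt.An.NvL2
import Pool.Agent.Lib.MP_570070_gt.An.NvVol

open MeasureTheory Filter Topology Set
open scoped ContDiff InnerProductSpace

namespace Pool.Agent.Lib.MP_75c153_gt.Ft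

open Pool.Agent.Lib.MP_570070_gt.An

/-- By duality only the degrees zero, one and two matter. -/
theorem UpTorsion.reduce {c : Par} {P : Type} {Γ : Gl c P} {S : Set P} {ρ : ℝ}
    (h : UpTorsion Γ S ρ) : ∃ (U : UpL2 Γ) (Pt : ∀ k, ℝ → U.H k →L[ℝ] U.H k) (I : ℕ → ℝ),
      (∀ k, IsHeat (dom U.D k) (Pt k)) ∧
      (∀ k ≤ 5, (∀ t, 0 < t → trOn (U.on k S) (Pt k t) ≠ ⊤) ∧
        IsRegInt (fun t => (trOn (U.on k S) (Pt k t)).toReal) (I k)) ∧
      2 * ρ = -5 * I 0 + 3 * I 1 - I 2 := by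
  obtain ⟨U, Pt, I, hP, hI, rfl⟩ := h
  have e5 : I 5 = I 0 := (hI 0 (by norm_num)).2.unique (hI 5 le_rfl).2
    (heat_tr_antitone (isHeat₂_of_isHeat (hP 0)) _ (hI 0 (by norm_num)).1) fun t ht => by
      rw [(U.star_trace hP S ht.le).1]
  have e4 : I 4 = I 1 := (hI 1 (by norm_num)).2.unique (hI 4 (by norm_num)).2
    (heat_tr_antitone (isHeat₂_of_isHeat (hP 1)) _ (hI 1 (by norm_num)).1) fun t ht => by
      rw [(U.star_trace hP S ht.le).2.1]
  have e3 : I 3 = I 2 := (hI 2 (by norm_num)).2.unique (hI 3 (by norm_num)).2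
    (heat_tr_antitone (isHeat₂_of_isHeat (hP 2)) _ (hI 2 (by norm_num)).1) fun t ht => by
      rw [(U.star_trace hP S ht.le).2.2]
  refine ⟨U, Pt, I, hP, hI, ?_⟩
  simp only [Finset.sum_range_succ, Finset.sum_range_zero, e3, e4, e5]
  push_cast
  ring

/-- The Ray-Singer torsion of a finite cover divided by the degree is the torsion per tile. -/
theorem upTorsion_of_isRS {c : Par} {Q : Type} [Group Q] [Fintype Q] {g : Ed c → Q} {r : ℝ}
    (h : IsRS (mfd (grpGl c g)) r) : UpTorsion (grpGl c g) (base Q) (r / Fintype.card Q) := by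
  obtain ⟨L, Pt, I, hP, hI, rfl⟩ := h.heat
  rw [← upL2_D] at hP
  refine ⟨upL2 L, Pt, fun k => I k / Fintype.card Q, hP, fun k hk => ?_, ?_⟩
  · obtain ⟨𝒯⟩ := exists_tiling c g (upL2 L) (hP k)
    rw [← (upL2 L).coe_onS]
    exact tile_reg (hP k) 𝒯 (hI k hk).1 (hI k hk).2
  · simp only [mul_div_assoc', ← Finset.sum_div]

theorem up_main : ∃ (c : Par) (K : ℕ → Subgroup (FreeGroup (Fin (c.m + 1))))
    (_ : ∀ i, (K i).Normal), K 0 = ⊤ ∧ StrictAnti K ∧ ⨅ i, K i = ⊥ ∧ (∀ i, (K i).FiniteIndex) ∧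
    ∀ (ρ : ℝ) (r : ℕ → ℝ),
      UpTorsion (grpGl c fun e => (e.elim 1 FreeGroup.of : FreeGroup (Fin (c.m + 1)))) (base _) ρ →
      (∀ i, UpTorsion (grpGl c fun e => ((e.elim 1 FreeGroup.of : FreeGroup (Fin (c.m + 1))) :
        FreeGroup (Fin (c.m + 1)) ⧸ K i)) (base _) (r i)) →
      ∀ᶠ i in atTop, r i ≤ ρ - 1 / 8 := by
  obtain ⟨c, K, _, _, x, h0, hs, hi, hfi, -, hW, hlog⟩ := exists_spec
  refine ⟨c, K, inferInstance, h0, hs, hi, hfi, fun ρ r hρ hr => ?_⟩
  have ha := hs.antitone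
  set g : Ed c → FreeGroup (Fin (c.m + 1)) := fun e => e.elim 1 FreeGroup.of
  have h1 : g none = 1 := rfl
  have hg : Subgroup.closure (range g) = ⊤ := top_le_iff.1 <|
    (FreeGroup.closure_range_of _).ge.trans (Subgroup.closure_mono (by
      rintro _ ⟨j, rfl⟩
      exact ⟨some j, rfl⟩))
  obtain ⟨U, Pt, I, hP, hI, e⟩ := hρ.reduce
  choose U' Pt' J hP' hJ e' using fun i => (hr i).reduce
  have l := fun k (hk : k ≤ 2) => local_grp c g K ha hi hk U (hP k) (hI k (by omega)).1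
    (hI k (by omega)).2 U' (fun i => hP' i k) fun i => (hJ i k (by omega)).1
  have m := fun k (hk : k ≤ 5) => heat_tr_antitone (isHeat₂_of_isHeat (hP k)) _ (hI k hk).1
  have n := fun k (hk : k ≤ 5) i => heat_tr_antitone (isHeat₂_of_isHeat (hP' i k)) _ (hJ i k hk).1
  obtain ⟨C, hC⟩ := tail_one_grp c ((trOn (U.on 1 (base _)) (Pt 1 2)).toReal + 2)
  obtain ⟨κ, hκ, hT⟩ := tail_two_grp c
  have gen : ∀ i, Subgroup.closure (range fun e => (g e : _ ⧸ K i)) = ⊤ := fun i => by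
    have := congrArg (Subgroup.map (QuotientGroup.mk' (K i))) hg
    rwa [MonoidHom.map_closure, ← range_comp,
      Subgroup.map_top_of_surjective _ (QuotientGroup.mk'_surjective _)] at this
  have key := final_gap5 (hI 0 (by norm_num)).2 (hI 1 (by norm_num)).2 (hI 2 (by norm_num)).2
    (fun i => (hJ i 0 (by norm_num)).2) (fun i => (hJ i 1 (by norm_num)).2)
    (fun i => (hJ i 2 (by norm_num)).2) (m 0 (by norm_num)) (m 1 (by norm_num)) (m 2 (by norm_num))
    (n 0 (by norm_num)) (n 1 (by norm_num)) (n 2 (by norm_num)) (l 0 (by norm_num))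
    (l 1 (by norm_num)) (l 2 le_rfl) (C := C) (γ := 1 / 4) (by norm_num)
    ((l 1 (by norm_num) 2 1 one_pos).mono fun i h => hC (fun e => (g e : _ ⧸ K i))
      (by simp [h1]) (gen i) (U' i) (hP' i 1) (hJ i 1 (by norm_num)).1 (by
        have := (abs_le.1 (h 2 ⟨two_pos, le_rfl⟩)).2
        linarith))
    (c := 1 / 2) (by norm_num) (fun T hT1 => by
      filter_upwards [hlog (max 1 (2 * T / κ)) (le_max_left _ _)] with i h b hb hint
      have hd : (0 : ℝ) < Fintype.card (_ ⧸ K i) := by exact_mod_cast Fintype.card_pos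
      refine le_trans ?_ (tail_integral (x i) hκ (d := 2 * Fintype.card (_ ⧸ K i))
        (by positivity) hT1 hint fun t ht => ?_)
      · rw [le_div_iff₀ (by positivity)]
        linarith
      · obtain ⟨W, w1, w2⟩ := hW i (κ / (2 * t))
        rw [← w1]
        exact hT _ (U' i) (hP' i 2) (hJ i 2 (by norm_num)).1 t ht W w2 b hb)
  filter_upwards [key] with i h
  linarith [e' i]

theorem hasHeat_mfd {c : Par} {P : Type} (Γ : Gl c P) [Nonempty P] [Countable P] :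
    HasHeat (mfd Γ) := by
  obtain ⟨μ, hμ⟩ := exists_isVolume (mfd Γ)
  have := (volN_of_isVolume hμ).locallyFinite
  obtain ⟨L⟩ := nonempty_L2 hμ (fun k α β h h' => by
    rw [← down_up (Γ := Γ) α, ← down_up (Γ := Γ) β]
    exact (continuous_ipAt_down (isT_up h) (isT_up h')).integrable_of_hasCompactSupport
      ((hasCompactSupport_down (isT_up h)).mono fun _ => ne_of_ipAt_down)) (fun k α h x => by
    obtain ⟨p, y, hy, rfl⟩ := Etale.exists_rep (S := et Γ) x
    rw [← down_up (Γ := Γ) α, ipAt_down (isT_up h) (isT_up h) p hy]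
    exact ipUp_self_nonneg _)
  choose Pt hP using (upL2 L).exists_heat
  refine ⟨L, Pt, fun k => ?_⟩
  rw [← upL2_D]
  exact hP k

end Pool.Agent.Lib.MP_75c153_gt.Ft
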