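import Pool.Agent.Lib.MP_75c153_gt.Ft.VD
import Pool.Agent.Lib.MP_75c153_gt.Ft.VS

open MeasureTheory Filter Topology Set
open scoped ContDiff
open Pool.Agent.Lib.MP_570070_gt.An (Eu bas)

namespace Pool.Agent.Lib.MP_75c153_gt.Ft

variable {n : ℕ}

variable {T T' K K' K₁ : Set (Eu n)} {S : Finset (Fin n)}

theorem Red.mono (h : Red T K S) (hT : T ⊆ T') (hK : K' ⊆ K) : Red T' K' S := by
  obtain ⟨K₀, C, h1, h2, h3, h4⟩ := h
  exact ⟨K₀, C, h1, h2.trans hT, h3, fun V hV => h4 V (hV.mono hK)⟩

theorem red_univ (T K : Set (Eu n)) : Red T K Finset.univ := by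
  refine ⟨∅, 0, isCompact_empty, empty_subset _, le_rfl, fun V _ _ h0 =>
    ⟨fun _ => 0, Sm.zero, by simp, fun y => funext fun j => ?_, by simp⟩⟩
  simp [dvm, pd_const, h0 j (Finset.mem_univ j)]

theorem vp_sum {F G : Fin n → Eu n → ℝ} (hK : IsCompact K) (hF : ∀ j, Sm K (F j))
    (hG : ∀ j, Sm K (G j)) {C : ℝ} (h : ∀ j, ∫ y, G j y ^ 2 ≤ C * ∫ y, F j y ^ 2) :
    ∫ y, ∑ j, G j y ^ 2 ≤ C * ∫ y, ∑ j, F j y ^ 2 := by
  rw [integral_finsetSum _ fun j _ => (hG j).integrable_sq hK,
    integral_finsetSum _ fun j _ => (hF j).integrable_sq hK, Finset.mul_sum]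
  exact Finset.sum_le_sum fun j _ => h j

theorem vp_line (i : Fin n) {F : Eu n → ℝ} (hF : ContDiff ℝ ∞ F) (y : Eu n) (a b : ℝ) :
    IntervalIntegrable (fun t => F (Function.update y i t)) volume a b :=
  (hF.continuous.comp (continuous_const.update i continuous_id)).intervalIntegrable _ _

/-- The two divergence identities. -/
theorem vp_div (i : Fin n) {p q : ℝ} {u : ℝ → ℝ} (hu : ContDiff ℝ ∞ u) {F G H : Fin n → Eu n → ℝ}
    (hF : ∀ j, ContDiff ℝ ∞ (F j)) (hd : ∀ y, ∑ j, pd j (F j) y = 0)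
    (hp : ∀ y, F i (Function.update y i p) = 0) (hq : ∀ y, F i (Function.update y i q) = 0)
    (hG : ∀ j, G j = fun y => u (y i) * tot i p q (F j) y)
    (hH : ∀ j, H j = prim i p fun y => F j y - G j y) :
    (∀ y, ∑ j ∈ Finset.univ.erase i, pd j (G j) y = 0) ∧
      ∀ y, ∑ j ∈ Finset.univ.erase i, pd j (H j) y = -F i y := by
  have h0 : ∀ y, ∑ j ∈ Finset.univ.erase i, pd j (F j) y = -pd i (F i) y := fun y => by
    rw [Finset.sum_erase_eq_sub (Finset.mem_univ i), hd, zero_sub]
  have hui : ContDiff ℝ ∞ fun y : Eu n => u (y i) := hu.comp (contDiff_apply ℝ ℝ i)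
  have hGs : ∀ j, ContDiff ℝ ∞ (G j) := fun j => by
    rw [hG]
    exact hui.mul (contDiff_tot i p q (hF j))
  have h1 : ∀ y, ∑ j ∈ Finset.univ.erase i, pd j (G j) y = 0 := fun y => by
    have e : ∀ j ∈ Finset.univ.erase i,
        pd j (G j) y = u (y i) * ∫ t in p..q, pd j (F j) (Function.update y i t) := fun j hj => by
      have hji := Finset.ne_of_mem_erase hj
      rw [hG, pd_mul j (hui.differentiable (by simp) y)
        ((contDiff_tot i p q (hF j)).differentiable (by simp) y),
        pd_comp_apply j i (hu.differentiable (by simp) _), if_neg hji, zero_mul, zero_add,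
        pd_tot_ne hji p q (hF j), tot]
    rw [Finset.sum_congr rfl e, ← Finset.mul_sum, ← intervalIntegral.integral_finsetSum
      fun j _ => vp_line i (contDiff_pd j (hF j)) y p q]
    simp only [h0]
    rw [intervalIntegral.integral_neg, integral_pd_line i (hF i), hp, hq, sub_zero, neg_zero,
      mul_zero]
  refine ⟨h1, fun y => ?_⟩
  have e : ∀ j ∈ Finset.univ.erase i, pd j (H j) y = ∫ t in p..y i,
      (pd j (F j) (Function.update y i t) - pd j (G j) (Function.update y i t)) := fun j hj => by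
    rw [hH, pd_prim_ne (Finset.ne_of_mem_erase hj) p ((hF j).sub (hGs j)), prim]
    simp only [pd_sub j ((hF j).differentiable (by simp) _) ((hGs j).differentiable (by simp) _)]
  rw [Finset.sum_congr rfl e, ← intervalIntegral.integral_finsetSum
    fun j _ => vp_line i ((contDiff_pd j (hF j)).sub (contDiff_pd j (hGs j))) y p (y i)]
  simp only [Finset.sum_sub_distrib, h0, h1, sub_zero]
  rw [intervalIntegral.integral_neg, integral_pd_line i (hF i), hp, sub_zero,
    Function.update_eq_self]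

/-- Take a box lo, hi = -R, R around K and [a, b] (exists_big_box), a bump u on [a, b] (vb_bump)
and line_step for every component: V' y j = G j y for j ≠ i, V' y i = 0,
A y j i = H j y = - A y i j for j ≠ i, all other entries zero. With pd_tot_ne, pd_prim_ne and
integral_pd_line (V vanishes on the faces y i = lo i, hi i if R is large):
the sum over j ≠ i of pd j (G j) is u (y i) * tot i (- pd i (V i)) = 0, so dvg V' = 0,
and the sum over j ≠ i of pd j (H j) is prim i (- pd i (V i)) = - V i, so dvm A = V - V'.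
The support of A is in the image of K × [0, 1] under
(y, s) ↦ update y i (min (y i) a + s * (max (y i) b - min (y i) a)). -/
theorem Red.push (hK : IsCompact K) (i : Fin n) {a b : ℝ} (hab : a < b)
    (hT : ∀ y ∈ K, ∀ t ∈ Icc (min (y i) a) (max (y i) b), Function.update y i t ∈ T)
    (h₁ : ∀ y ∈ K, ∀ t ∈ Icc a b, Function.update y i t ∈ K₁) (h : Red T K₁ (insert i S)) :
    Red T K S := by
  obtain ⟨K₂, C₂, hK₂, hK₂T, hC₂, H₂⟩ := h
  obtain ⟨R, hR, hR0, hKR⟩ := exists_big_box hK (max |a| |b|)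
  have ha := (abs_le.1 ((le_max_left _ _).trans hR0)).1
  have hb := (abs_le.1 ((le_max_right _ _).trans hR0)).2
  obtain ⟨u, hu, hus, hu1⟩ := vb_bump hab
  obtain ⟨C, hC, L⟩ := line_step (lo := fun _ => -(R + 1)) (hi := fun _ => R + 1)
    (fun _ => by linarith) i (a := a) (b := b) (by linarith) (by linarith) hu hus hu1
  have hKB : K ⊆ Icc (fun _ => -(R + 1)) fun _ => R + 1 :=
    hKR.trans (Icc_subset_Icc (fun _ => by linarith) fun _ => by linarith)
  let φ : Eu n × ℝ → Eu n := fun p =>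
    Function.update p.1 i (min (p.1 i) a + p.2 * (max (p.1 i) b - min (p.1 i) a))
  have hφ : Continuous φ := continuous_fst.update i (by fun_prop)
  have hK₃ : IsCompact (φ '' K ×ˢ Icc 0 1) := (hK.prod isCompact_Icc).image hφ
  have hlt : ∀ s, min s a < max s b := fun s =>
    (min_le_right _ _).trans_lt (hab.trans_le (le_max_right _ _))
  refine ⟨φ '' K ×ˢ Icc 0 1 ∪ K₂, 8 * C + 2 * (C₂ * C), hK₃.union hK₂, union_subset ?_ hK₂T,
    by positivity, fun V hV hd hS => ?_⟩
  · rintro _ ⟨⟨y, s⟩, ⟨hy, h0, h1⟩, rfl⟩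
    have h2 := hlt (y i)
    exact hT y hy _ ⟨by nlinarith, by nlinarith⟩
  have hF := fun j => (hV.apply j).mono hKB
  obtain ⟨G, hG⟩ : ∃ G : Fin n → Eu n → ℝ,
      ∀ j, G j = fun y => u (y i) * tot i (-(R + 1)) (R + 1) (fun z => V z j) y := ⟨_, fun _ => rfl⟩
  obtain ⟨H, hH⟩ : ∃ H : Fin n → Eu n → ℝ,
      ∀ j, H j = prim i (-(R + 1)) fun y => V y j - G j y := ⟨_, fun _ => rfl⟩
  have P := fun j => L _ (hF j) (G j) (H j) (hG j) (hH j)
  have hface : ∀ y t, R < |t| → V (Function.update y i t) i = 0 := fun y t ht => by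
    by_contra h0
    have h1 := hKR ((hV.apply i).2 _ h0)
    have h2 := h1.1 i
    have h3 := h1.2 i
    rw [Function.update_self] at h2 h3
    exact ht.not_ge (abs_le.2 ⟨h2, h3⟩)
  obtain ⟨d1, d2⟩ := vp_div i hu (F := fun j z => V z j) (fun j => (hF j).1) hd
    (fun y => hface y _ (lt_abs.2 (Or.inr (by linarith))))
    (fun y => hface y _ (lt_abs.2 (Or.inl (by linarith)))) hG hH
  let e : Fin n → ℝ := fun j => if j = i then 1 else 0
  have he : ∀ f : Fin n → ℝ, ∑ j, e j * f j = f i := fun f => by simp [e]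
  have dG := fun j y => (P j).1.1.differentiable (by simp) y
  have dH := fun j y => (P j).2.1.1.differentiable (by simp) y
  have sG : ∀ j, Sm K₁ (G j) := fun j => ⟨(P j).1.1, fun y hy => by
    obtain ⟨h1, s, h2⟩ := (P j).2.2.2.1 y hy
    simpa using h₁ _ ((hV.apply j).2 _ h2) _ h1⟩
  have sH : ∀ j, Sm (φ '' K ×ˢ Icc 0 1) (H j) := fun j => ⟨(P j).2.1.1, fun y hy => by
    obtain ⟨s, h1, h2, h3⟩ := (P j).2.2.2.2.1 y hy
    have h4 := sub_pos.2 (hlt s)
    refine ⟨(Function.update y i s, (y i - min s a) / (max s b - min s a)),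
      ⟨(hV.apply j).2 _ h1, div_nonneg (sub_nonneg.2 h2) h4.le,
        (div_le_one h4).2 (sub_le_sub_right h3 _)⟩, ?_⟩
    simp only [φ, Function.update_self, Function.update_idem]
    rw [div_mul_cancel₀ _ h4.ne', add_sub_cancel, Function.update_eq_self]⟩
  have sV : Sm K₁ fun y j => G j y - e j * G i y := Sm.pi fun j =>
    ((sG j).sub ((sG i).smul (f := fun _ => e j) contDiff_const)).mono (union_self _).le
  have sA : Sm (φ '' K ×ˢ Icc 0 1) fun y j k => e k * H j y - e j * H k y :=
    Sm.pi fun j => Sm.pi fun k => (((sH j).smul (f := fun _ => e k) contDiff_const).sub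
      ((sH k).smul (f := fun _ => e j) contDiff_const)).mono (union_self _).le
  obtain ⟨A, hA, hA1, hA2, hA3⟩ := H₂ _ sV (fun y => by
    rw [← d1 y, Finset.sum_erase_eq_sub (Finset.mem_univ i), ← he fun j => pd j (G i) y,
      ← Finset.sum_sub_distrib]
    exact Finset.sum_congr rfl fun j _ => by
      rw [pd_sub j (dG j y) ((dG i y).const_mul _), pd_const_mul]) fun j hj y => by
    by_cases hji : j = i
    · simp [e, hji]
    · have h0 : G j y = 0 := not_not.1 fun h0 => by
        obtain ⟨-, s, h2⟩ := (P j).2.2.2.1 y h0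
        exact h2 (hS j ((Finset.mem_insert.1 hj).resolve_left hji) _)
      simp [e, hji, h0]
  refine ⟨_, sA.add hA, fun y j k => ?_, fun y => ?_, ?_⟩
  · simp only [Pi.add_apply, hA1 y j k]
    ring
  · rw [dvm_add (sA.1.differentiable (by simp) y) (hA.1.differentiable (by simp) y), hA2]
    funext j
    have h1 : dvm (fun y j k => e k * H j y - e j * H k y) y j =
        ∑ k, (e k * pd k (H j) y - e j * pd k (H k) y) := Finset.sum_congr rfl fun k _ => by
      rw [pd_sub k ((dH j y).const_mul _) ((dH k y).const_mul _), pd_const_mul, pd_const_mul]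
    have h2 := d2 y
    rw [Finset.sum_erase_eq_sub (Finset.mem_univ i), (P i).2.2.1] at h2
    rw [Pi.add_apply, h1, Finset.sum_sub_distrib, he fun k => pd k (H j) y, ← Finset.mul_sum,
      (P j).2.2.1, eq_add_of_sub_eq h2]
    ring
  · have b1 := vp_sum isCompact_Icc hF (fun j => (P j).1) fun j => (P j).2.2.2.2.2.2.1
    have b2 := vp_sum isCompact_Icc hF (fun j => (P j).2.1) fun j => (P j).2.2.2.2.2.2.2
    have iG := (Sm.pi (F := fun y j => G j y) fun j => (P j).1).integrable_sum_sq isCompact_Icc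
    have iH := (Sm.pi (F := fun y j => H j y) fun j => (P j).2.1).integrable_sum_sq isCompact_Icc
    have iA := hA.integrable_sum_sum_sq hK₂
    have b3 : ∫ y, ∑ j, (G j y - e j * G i y) ^ 2 ≤ ∫ y, ∑ j, G j y ^ 2 :=
      integral_mono_of_nonneg (Eventually.of_forall fun y => by positivity) iG
        (Eventually.of_forall fun y => Finset.sum_le_sum fun j _ => by
          by_cases hji : j = i
          · simp [e, hji, sq_nonneg]
          · simp [e, hji])
    have b4 : ∫ y, ∑ j, ∑ k, (((fun j k => e k * H j y - e j * H k y) + A y) j k) ^ 2 ≤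
        ∫ y, (8 * ∑ j, H j y ^ 2 + 2 * ∑ j, ∑ k, A y j k ^ 2) := by
      refine integral_mono_of_nonneg (Eventually.of_forall fun y => by positivity)
        ((iH.const_mul 8).add (iA.const_mul 2)) (Eventually.of_forall fun y => ?_)
      have h1 : ∀ j, e j ^ 2 = e j := fun j => by by_cases hji : j = i <;> simp [e, hji]
      have h2 : ∑ j, ∑ k, (4 * (e k * H j y ^ 2) + 4 * (e j * H k y ^ 2) + 2 * A y j k ^ 2) =
          8 * ∑ j, H j y ^ 2 + 2 * ∑ j, ∑ k, A y j k ^ 2 := by
        simp only [Finset.sum_add_distrib, ← Finset.mul_sum, he]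
        ring
      refine le_trans (Finset.sum_le_sum fun j _ => Finset.sum_le_sum fun k _ => ?_) h2.le
      rw [← h1 j, ← h1 k]
      simp only [Pi.add_apply, h1]
      nth_rw 2 [← h1 j, ← h1 k]
      nlinarith [sq_nonneg (e k * H j y + e j * H k y),
        sq_nonneg (e k * H j y - e j * H k y - A y j k)]
    rw [integral_add (iH.const_mul 8) (iA.const_mul 2), integral_const_mul, integral_const_mul] at b4
    nlinarith [mul_le_mul_of_nonneg_left (b3.trans b1) hC₂]

/-- Induction on the complement of S. -/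
theorem red_box {lo hi : Eu n} (h : ∀ i, lo i < hi i) (hT : Icc lo hi ⊆ T) (S : Finset (Fin n)) :
    Red T (Icc lo hi) S := by
  have hu : ∀ (i : Fin n), ∀ y ∈ Icc lo hi, ∀ t ∈ Icc (lo i) (hi i),
      Function.update y i t ∈ Icc lo hi := fun i y hy t ht =>
    ⟨le_update_iff.2 ⟨ht.1, fun j _ => hy.1 j⟩, update_le_iff.2 ⟨ht.2, fun j _ => hy.2 j⟩⟩
  rw [← compl_compl S]
  induction Sᶜ using Finset.induction_on with
  | empty =>
    rw [Finset.compl_empty]
    exact red_univ _ _
  | insert i U hi' ih =>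
    refine Red.push isCompact_Icc i (h i) (fun y hy t ht => hT (hu i y hy t ?_)) (hu i) ?_
    · rwa [min_eq_right (hy.1 i), max_eq_right (hy.2 i)] at ht
    · rwa [Finset.insert_compl_insert hi']

end Pool.Agent.Lib.MP_75c153_gt.Ft
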