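import Pool.Agent.Lib.MP_75c153_gt.Ft.VM
import Pool.Agent.Lib.MP_75c153_gt.Ft.VP
import Pool.Agent.Lib.MP_75c153_gt.Ft.GeoC

/-! Divergence free fields in one chart. -/

open MeasureTheory Filter Topology Set
open scoped ContDiff InnerProductSpace

namespace Pool.Agent.Lib.MP_75c153_gt.Ft

open Pool.Agent.Lib.MP_570070_gt.An

variable {c : Par}

/-- Points that are not below (s = 1) or not above (s = -1) a hole. -/
def Ud (c : Par) (b : Bool) (s : ℝ) : Set (Eu 5) :=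
  {y | y ∈ DRb c b ∧ -7 / 8 < sc (none : Ed c) y ∧
    ∀ j : Fin (c.m + 1), Real.exp (-8) < (y 0 - (j : ℕ)) ^ 2 + y 1 ^ 2 ∨ 0 < s * y 2}

theorem isOpen_Ud (b : Bool) (s : ℝ) : IsOpen (Ud c b s) :=
  isOpen_iff_mem_nhds.2 fun _ hy => ((isOpen_DRb b).eventually_mem hy.1).and
    (((geoa_sc (hy.1.1.1 none).1).continuousAt.eventually (lt_mem_nhds hy.2.1)).and
      (eventually_all.2 fun j =>
        ((isOpen_lt (f := fun _ : Eu 5 => Real.exp (-8))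
          (g := fun y : Eu 5 => (y 0 - (j : ℕ)) ^ 2 + y 1 ^ 2) continuous_const (by fun_prop)).union
          (isOpen_lt (f := fun _ : Eu 5 => (0 : ℝ)) (g := fun y : Eu 5 => s * y 2) continuous_const
            (by fun_prop))).mem_nhds (hy.2.2 j)))

theorem redd_mem {b : Bool} {y : Eu 5} : y ∈ DRb c b ↔
    (y 0 ^ 2 + y 1 ^ 2 + y 2 ^ 2 < Real.exp (c.m + 5) ^ 2 ∧
    ∀ j : Fin (c.m + 1), Real.exp (-8) < (y 0 - (j : ℕ)) ^ 2 + y 1 ^ 2 + y 2 ^ 2) ∧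
    |y 3 - 4 * tau b| < 3 ∧ |y 4| < 3 := by
  have e8 : Real.exp (-1 - 3) ^ 2 = Real.exp (-8) := by
    rw [sq, ← Real.exp_add]
    norm_num
  rw [← DRa_neg_one, mem_DRa le_rfl, e8, show (c.m + 4 - -1 : ℝ) = c.m + 5 by ring]

theorem redd_none {b : Bool} {y : Eu 5} (hy : y ∈ DRb c b) (h : -7 / 8 < sc (none : Ed c) y) :
    y 0 ^ 2 + y 1 ^ 2 + y 2 ^ 2 ≤ Real.exp (c.m + 39 / 8) ^ 2 := by
  have h1 := (geob_none (hy.1.1 none).1).1 h.le
  rw [show 2 * (c.m + 4 - -7 / 8 : ℝ) = (c.m + 39 / 8) + (c.m + 39 / 8) by ring, Real.exp_add,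
    ← sq] at h1
  simpa only [rsq, ctr, sub_zero] using h1

theorem redd_gap : Real.exp (c.m + 39 / 8) ^ 2 + 5 < Real.exp (c.m + 5) ^ 2 := by
  have hm : (0 : ℝ) ≤ c.m := Nat.cast_nonneg _
  have h1 := Real.add_one_le_exp (c.m + 39 / 8 : ℝ)
  have h2 := Real.add_one_le_exp (1 / 8 : ℝ)
  rw [show (c.m + 5 : ℝ) = (c.m + 39 / 8) + 1 / 8 by ring, Real.exp_add (c.m + 39 / 8), mul_pow]
  have h3 : 5 ^ 2 ≤ Real.exp (c.m + 39 / 8) ^ 2 := pow_le_pow_left₀ (by norm_num) (by linarith) 2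
  have h4 : (9 / 8) ^ 2 ≤ Real.exp (1 / 8) ^ 2 := pow_le_pow_left₀ (by norm_num) (by linarith) 2
  nlinarith

theorem redd_of {b : Bool} {y : Eu 5}
    (h1 : y 0 ^ 2 + y 1 ^ 2 + y 2 ^ 2 ≤ Real.exp (c.m + 39 / 8) ^ 2 + 5)
    (h2 : ∀ j : Fin (c.m + 1), Real.exp (-8) < (y 0 - (j : ℕ)) ^ 2 + y 1 ^ 2 + y 2 ^ 2)
    (h3 : |y 3 - 4 * tau b| < 3) (h4 : |y 4| < 3) : y ∈ DRb c b :=
  redd_mem.2 ⟨⟨h1.trans_lt redd_gap, h2⟩, h3, h4⟩

theorem redd_far {y : Eu 5} (h : 1 ≤ y 2 ^ 2) (j : Fin (c.m + 1)) :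
    Real.exp (-8) < (y 0 - (j : ℕ)) ^ 2 + y 1 ^ 2 + y 2 ^ 2 := by
  have h0 : Real.exp (-8) < 1 := Real.exp_lt_one_iff.2 (by norm_num)
  nlinarith [sq_nonneg (y 0 - (j : ℕ)), sq_nonneg (y 1)]

theorem redd_sq {b : Bool} {K : Set (Eu 5)} (hK : IsCompact K) (h : K ⊆ DRb c b) :
    ∃ t : ℝ, 0 < t ∧ t < 3 ∧ ∀ y ∈ K, |y 3 - 4 * tau b| ≤ t ∧ |y 4| ≤ t := by
  rcases K.eq_empty_or_nonempty with rfl | hne
  · exact ⟨1, one_pos, by norm_num, fun _ h => h.elim⟩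
  obtain ⟨z, hz, hmax⟩ := hK.exists_isMaxOn hne
    (f := fun y : Eu 5 => max |y 3 - 4 * tau b| |y 4|) (by fun_prop)
  have h1 := (redd_mem.1 (h hz)).2
  refine ⟨max (max |z 3 - 4 * tau b| |z 4|) 1, lt_max_of_lt_right one_pos,
    max_lt (max_lt h1.1 h1.2) (by norm_num), fun y hy => ?_⟩
  exact max_le_iff.1 (le_max_of_le_left (hmax hy))

theorem redd_between {x a b t : ℝ} (ht : t ∈ Icc (min x a) (max x b)) {B : ℝ} (ha : a ^ 2 ≤ B)
    (hb : b ^ 2 ≤ B) : t ^ 2 ≤ x ^ 2 + B := by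
  have h0 := sq_nonneg x
  have h1 := (sq_nonneg a).trans ha
  rcases le_total 0 t with h | h
  · rcases le_max_iff.1 ht.2 with h2 | h2 <;> nlinarith
  · rcases min_le_iff.1 ht.1 with h2 | h2 <;> nlinarith

/-- Let R' = exp (m + 4 + 7 / 8) and R = exp (m + 5); then R' ^ 2 + 5 < R ^ 2. In DRb the
conditions are (mem_DRb, geob_some, geob_none): rsq none < R ^ 2, rsq (some j) > exp (-8),
|y 3 - 4 tau b| < 3, |y 4| < 3. Choose t < 3 with |y 3 - 4 tau b|, |y 4| ≤ t on K (compactness).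
Red.push in direction 2 to [a, a + 1] with a = 1 for s = 1 and a = -2 for s = -1, with
K₁ = (y 0 ^ 2 + y 1 ^ 2 ≤ R' ^ 2, y 2 ∈ [a, a + 1], fibre in the square of size t), which is closed
and bounded; Red.push in direction 1 to [0, 1], with K₂ the box
[-R', R'] × [0, 1] × [a, a + 1] × square; red_box. -/
theorem red_Ud {b : Bool} {s : ℝ} (hs : s = 1 ∨ s = -1) {K : Set (Eu 5)} (hK : IsCompact K)
    (h : K ⊆ Ud c b s) : Red (DRb c b) K ∅ := by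
  obtain ⟨r, hr0, hr3, hr⟩ := redd_sq hK fun y hy => (h hy).1
  obtain ⟨a, ha1, ha2, ha3⟩ : ∃ a : ℝ, (∀ t ∈ Icc a (a + 1), 1 ≤ t ^ 2 ∧ t ^ 2 ≤ 4) ∧
      (a ^ 2 ≤ 4 ∧ (a + 1) ^ 2 ≤ 4) ∧
      ∀ x t, 0 < s * x → t ∈ Icc (min x a) (max x (a + 1)) → x ^ 2 ≤ t ^ 2 ∨ 1 ≤ t ^ 2 := by
    rcases hs with rfl | rfl
    · refine ⟨1, fun t ht => ⟨by nlinarith [ht.1], by nlinarith [ht.1, ht.2]⟩, by norm_num,
        fun x t hx ht => (min_le_iff.1 ht.1).imp (fun h => by nlinarith) fun h => by nlinarith⟩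
    · refine ⟨-2, fun t ht => ⟨by nlinarith [ht.2], by nlinarith [ht.1, ht.2]⟩, by norm_num,
        fun x t hx ht => (le_max_iff.1 ht.2).imp (fun h => by nlinarith) fun h => by nlinarith⟩
  have hR := Real.exp_pos (c.m + 39 / 8 : ℝ)
  have hn := fun y hy => redd_none (h (a := y) hy).1 (h hy).2.1
  have hK1 : IsCompact ((fun z : Eu 5 × ℝ => Function.update z.1 2 z.2) '' (K ×ˢ Icc a (a + 1))) :=
    (hK.prod isCompact_Icc).image (continuous_fst.update 2 continuous_snd)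
  refine Red.push hK 2 (lt_add_one a) (fun y hy t ht => ?_)
    (fun y hy t ht => mem_image_of_mem _ (mk_mem_prod hy ht)) (Red.push hK1 1 zero_lt_one ?_ ?_
      (red_box (lo := ![-Real.exp (c.m + 39 / 8), 0, a, 4 * tau b - r, -r])
        (hi := ![Real.exp (c.m + 39 / 8), 1, a + 1, 4 * tau b + r, r]) (fun i => ?_)
        (fun y hy => ?_) _))
  · have h1 := redd_mem.1 (h hy).1
    have h2 := redd_between ht ha2.1 ha2.2
    refine redd_of ?_ (fun j => ?_) (by simpa using h1.2.1) (by simpa using h1.2.2)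
    · simp
      linarith [hn y hy]
    · rcases (h hy).2.2 j with h3 | h3
      · simp
        nlinarith [sq_nonneg t]
      · rcases ha3 _ _ h3 ht with h4 | h4
        · simp
          linarith [h1.1.2 j]
        · exact redd_far (by simpa using h4) j
  · rintro _ ⟨⟨y, t⟩, ⟨hy, ht⟩, rfl⟩ u hu
    have h1 := redd_mem.1 (h hy).1
    have h2 := redd_between hu (B := 1) (by norm_num) (by norm_num)
    have h3 := ha1 t ht
    refine redd_of ?_ (redd_far (by simpa using h3.1)) (by simpa using h1.2.1)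
      (by simpa using h1.2.2)
    simp at h2 ⊢
    nlinarith [hn y hy, sq_nonneg (y 2)]
  · rintro _ ⟨⟨y, t⟩, ⟨hy, ht⟩, rfl⟩ u hu
    have h1 : |y 0| ≤ Real.exp (c.m + 39 / 8) :=
      abs_le_of_sq_le_sq (by nlinarith [hn y hy, sq_nonneg (y 1), sq_nonneg (y 2)]) hR.le
    have h2 := abs_le.1 h1
    have h3 := abs_le.1 (hr y hy).1
    have h4 := abs_le.1 (hr y hy).2
    refine ⟨fun i => ?_, fun i => ?_⟩ <;> fin_cases i <;> simp <;>
      linarith [hu.1, hu.2, ht.1, ht.2, h2.1, h2.2, h3.1, h3.2, h4.1, h4.2]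
  · fin_cases i <;> simp <;> linarith
  · have l0 : -Real.exp (c.m + 39 / 8) ≤ y 0 := hy.1 0
    have l1 : 0 ≤ y 1 := hy.1 1
    have l2 : a ≤ y 2 := hy.1 2
    have l3 : 4 * tau b - r ≤ y 3 := hy.1 3
    have l4 : -r ≤ y 4 := hy.1 4
    have u0 : y 0 ≤ Real.exp (c.m + 39 / 8) := hy.2 0
    have u1 : y 1 ≤ 1 := hy.2 1
    have u2 : y 2 ≤ a + 1 := hy.2 2
    have u3 : y 3 ≤ 4 * tau b + r := hy.2 3
    have u4 : y 4 ≤ r := hy.2 4
    have h3 := ha1 _ ⟨l2, u2⟩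
    refine redd_of ?_ (redd_far h3.1) (abs_lt.2 ⟨by linarith, by linarith⟩)
      (abs_lt.2 ⟨by linarith, by linarith⟩)
    nlinarith [sq_le_sq' l0 u0]

/-- red_mv with Ud 1 and Ud (-1); the intersection is the set of isPreconnected_cyl;
if y 2 > 0 the point is in Ud 1, if y 2 < 0 in Ud (-1), if y 2 = 0 in both. -/
theorem red_DR {b : Bool} {K : Set (Eu 5)} (hK : IsCompact K)
    (h : ∀ y ∈ K, y ∈ DRb c b ∧ -7 / 8 < sc (none : Ed c) y) : Red (DRb c b) K ∅ := by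
  refine red_mv hK (isOpen_Ud b 1) (isOpen_Ud b (-1)) ?_ (fun y hy => ?_)
    (fun _ h1 h2 => red_Ud (Or.inl rfl) h1 h2) fun _ h1 h2 => red_Ud (Or.inr rfl) h1 h2
  · have e : Ud c b 1 ∩ Ud c b (-1) = {y | y ∈ DRb c b ∧ -7 / 8 < sc (none : Ed c) y ∧
        ∀ j : Fin (c.m + 1), Real.exp (-8) < (y 0 - (j : ℕ)) ^ 2 + y 1 ^ 2} := by
      ext y
      refine ⟨fun h => ⟨h.1.1, h.1.2.1, fun j => ?_⟩, fun h =>
        ⟨⟨h.1, h.2.1, fun j => Or.inl (h.2.2 j)⟩, h.1, h.2.1, fun j => Or.inl (h.2.2 j)⟩⟩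
      rcases h.1.2.2 j with h1 | h1
      · exact h1
      · exact (h.2.2.2 j).resolve_right fun h2 => by linarith
    rw [e]
    exact isPreconnected_cyl b
  · rcases lt_trichotomy (y 2) 0 with h1 | h1 | h1
    · exact Or.inr ⟨(h y hy).1, (h y hy).2, fun _ => Or.inr (by linarith)⟩
    · refine Or.inl ⟨(h y hy).1, (h y hy).2, fun j => Or.inl ?_⟩
      simpa [h1] using (redd_mem.1 (h y hy).1).1.2 j
    · exact Or.inl ⟨(h y hy).1, (h y hy).2, fun _ => Or.inr (by linarith)⟩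

end Pool.Agent.Lib.MP_75c153_gt.Ft
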