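import Pool.Agent.Lib.MP_75c153_gt.Ft.Chart
import Pool.Agent.Lib.MP_75c153_gt.Ft.GeoC

/-! Functions of integral zero are codifferentials. -/

open MeasureTheory Filter Topology Set
open scoped ContDiff InnerProductSpace

namespace Pool.Agent.Lib.MP_75c153_gt.Ft

open Pool.Agent.Lib.MP_570070_gt.An

variable {c : Par} {b : Bool} {K S T : Set (Eu 5)}

/-- One chart: exists_div, exists_den, one_den, wcod_cov (solve dvg V = - F), norm_cov. -/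
theorem sol0_chart (hK : IsK c b K) (hT : IsOpen T) (hc : IsPreconnected T) (hKT : K ⊆ T)
    (hTb : T ⊆ DRb c b) : ∃ (K' : Set (Eu 5)) (C : ℝ), IsK c b K' ∧ K' ⊆ T ∧ 0 ≤ C ∧
      ∀ {P : Type} [Finite P] (Γ : Gl c P) (U : UpL2 Γ) (p₀ : P) (f : Fam P 0), IsT Γ f →
        LK Γ p₀ K f → ⟪U.one, U.j 0 f⟫_ℝ = 0 → ∃ ψ : Fam P 1, IsT Γ ψ ∧ LK Γ p₀ K' ψ ∧
          WCod U.D 0 (U.j 1 ψ) (U.j 0 f) ∧ ‖U.j 1 ψ‖ ^ 2 ≤ C * ‖U.j 0 f‖ ^ 2 := by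
  obtain ⟨K', C₁, hK', hT', hC₁, H₁⟩ := exists_div hT hc hK.cpt hKT
  have k' : IsK c b K' := ⟨hK', hT'.trans hTb⟩
  obtain ⟨C₂, hC₂, H₂⟩ := hK.exists_den
  obtain ⟨C₃, hC₃, H₃⟩ := k'.norm_cov
  refine ⟨K', C₃ * (C₁ * C₂), k', hT', by positivity, fun Γ U p₀ f hf hL h0 => ?_⟩
  obtain ⟨F, hF, e, hn⟩ := H₂ Γ U p₀ f hf hL
  rw [e, U.one_den hK hF] at h0
  obtain ⟨V, hV, hd, hb⟩ := H₁ (fun y => -F y) ⟨hF.1.neg, fun y hy => hF.2 y (neg_ne_zero.1 hy)⟩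
    (by rw [integral_neg, h0, neg_zero])
  refine ⟨_, (k'.isQ_cov hV).isT p₀, (k'.isQ_cov hV).lk p₀, ?_, (H₃ Γ U p₀ V hV).trans ?_⟩
  · have h1 := U.wcod_cov (p₀ := p₀) k' hV
    simp only [hd, neg_neg] at h1
    rwa [e]
  · simp only [neg_sq] at hb
    rw [mul_assoc, mul_assoc]
    exact mul_le_mul_of_nonneg_left (hb.trans (mul_le_mul_of_nonneg_left hn hC₁)) hC₃

/-- exists_den, one_den, exists_integral_sq_le. -/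
theorem mass_le (hK : IsK c b K) : ∃ C : ℝ, 0 ≤ C ∧
    ∀ {P : Type} [Finite P] (Γ : Gl c P) (U : UpL2 Γ) (p₀ : P) (f : Fam P 0), IsT Γ f →
      LK Γ p₀ K f → ⟪U.one, U.j 0 f⟫_ℝ ^ 2 ≤ C * ‖U.j 0 f‖ ^ 2 := by
  obtain ⟨C₁, hC₁, H₁⟩ := exists_integral_sq_le hK.cpt
  obtain ⟨C₂, hC₂, H₂⟩ := hK.exists_den
  refine ⟨C₁ * C₂, by positivity, fun Γ U p₀ f hf hL => ?_⟩
  obtain ⟨F, hF, e, hn⟩ := H₂ Γ U p₀ f hf hL
  rw [(congrArg _ e).trans (U.one_den hK hF), mul_assoc]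
  exact (H₁ F hF.1.continuous hF.2).trans (mul_le_mul_of_nonneg_left hn hC₁)

/-- A bump of mass one in the overlap of the two charts: exists_bump in the open set
(y ∈ T ∩ DRb c true, 1 / 4 < zsq y), β = xt (den B), exists_compact_same, LK.same, norm_den. -/
theorem exists_beta (hT : IsOpen T) (hTs : ∀ y ∈ T, ∀ y', Same c y y' → y' ∈ T)
    (hne : ∃ y ∈ T, y ∈ DRb c true ∧ zsq y = 1) : ∃ (N : Bool → Set (Eu 5)) (C : ℝ),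
      (∀ b, IsK c b (N b) ∧ N b ⊆ T) ∧ 0 ≤ C ∧
      ∀ {P : Type} [Finite P] (Γ : Gl c P) (U : UpL2 Γ) (p₀ : P), ∃ β : Fam P 0, IsT Γ β ∧
        (∀ b, LK Γ p₀ (N b) β) ∧ ⟪U.one, U.j 0 β⟫_ℝ = 1 ∧ ‖U.j 0 β‖ ^ 2 ≤ C := by
  obtain ⟨K, B, hK, hW, hB, -, h1⟩ := exists_bump (U := (T ∩ DRb c true) ∩ zsq ⁻¹' Ioi (1 / 4))
    ((contDiffOn_zsq.continuousOn.mono fun _ h => h.2.1).isOpen_inter_preimage
      (hT.inter (isOpen_DRb true)) isOpen_Ioi)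
    (let ⟨y, h1, h2, h3⟩ := hne; ⟨y, ⟨h1, h2⟩, by rw [mem_preimage, h3]; norm_num⟩)
  have k : IsK c true K := ⟨hK, fun y hy => (hW hy).1.2⟩
  obtain ⟨K', hK', h2, h3⟩ := exists_compact_same hK fun y hy =>
    ⟨k.subDR hy, lt_trans (by norm_num) (mem_Ioi.1 (hW hy).2)⟩
  obtain ⟨C, hC, H⟩ := k.norm_den
  refine ⟨fun b => cond b K K', C * ∫ y, B y ^ 2, ?_, by positivity, fun Γ U p₀ =>
    ⟨_, (k.isQ_den hB).isT p₀, ?_, (U.one_den k hB).trans h1, H Γ U p₀ B hB⟩⟩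
  · rintro (_ | _)
    · refine ⟨⟨hK', fun y' hy => ?_⟩, fun y' hy => ?_⟩ <;> obtain ⟨y, h4, h5, h6⟩ := h2 y' hy
      · exact ⟨h5.2.1, by rw [h6, (k.sub h4).2]; rfl⟩
      · exact hTs y (hW h4).1.1 y' h5
    · exact ⟨k, fun y hy => (hW hy).1.1⟩
  · rintro (_ | _)
    · exact ((k.isQ_den hB).lk p₀).same fun y hy => (h3 y hy).imp fun _ h => ⟨h.1, h.2.1⟩
    · exact (k.isQ_den hB).lk p₀

/-- One piece: f = f₁ + f₂ (j_hf, norm_hf_le), sol0_chart with K = Kb S b ∪ N b, T ∩ DRb c b for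
f b - m b • β, where m b is the mass of f b (mass_le); ψ is the sum of the two solutions. -/
theorem sol0_piece (hS : Cyl c S) (hT : IsOpen T) (hST : S ⊆ T)
    (hTs : ∀ y ∈ T, ∀ y', Same c y y' → y' ∈ T) (hc : ∀ b, IsPreconnected (T ∩ DRb c b))
    (hne : ∃ y ∈ T, y ∈ DRb c true ∧ zsq y = 1) : ∃ C : ℝ, 0 ≤ C ∧
      ∀ {P : Type} [Finite P] (Γ : Gl c P) (U : UpL2 Γ) (p₀ : P), ∃ β : U.H 0,
        ∀ f : Fam P 0, IsT Γ f → LK Γ p₀ S f → ∃ ψ : Fam P 1, IsT Γ ψ ∧ LK Γ p₀ T ψ ∧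
          WCod U.D 0 (U.j 1 ψ) (U.j 0 f - ⟪U.one, U.j 0 f⟫_ℝ • β) ∧
          ‖U.j 1 ψ‖ ^ 2 ≤ C * ‖U.j 0 f‖ ^ 2 := by
  obtain ⟨N, C₀, hN, hC₀, H₀⟩ := exists_beta hT hTs hne
  choose K' C₁ _ hKT hC₁ H₁ using fun b => sol0_chart ((hS.isK b).union (hN b).1)
    (hT.inter (isOpen_DRb b)) (hc b) (subset_inter (union_subset (fun _ hy => hST hy.1.1) (hN b).2)
      ((hS.isK b).union (hN b).1).sub) inter_subset_right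
  choose C₂ hC₂ H₂ using fun b => mass_le (hS.isK b)
  have hA : ∀ b, 0 ≤ C₁ b * (2 * (1 + C₂ b * C₀)) := fun b => by
    have := hC₁ b
    have := hC₂ b
    positivity
  refine ⟨_, mul_nonneg zero_le_two (add_nonneg (hA true) (hA false)), fun Γ U p₀ => ?_⟩
  obtain ⟨β, hβ, hL', h1, h2⟩ := H₀ Γ U p₀
  refine ⟨U.j 0 β, fun f hf' hL => ?_⟩
  have key : ∀ b, ∃ ψ : Fam _ 1, IsT Γ ψ ∧ LK Γ p₀ T ψ ∧ WCod U.D 0 (U.j 1 ψ)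
      (U.j 0 (hf Γ p₀ b f) - ⟪U.one, U.j 0 (hf Γ p₀ b f)⟫_ℝ • U.j 0 β) ∧
      ‖U.j 1 ψ‖ ^ 2 ≤ C₁ b * (2 * (1 + C₂ b * C₀)) * ‖U.j 0 f‖ ^ 2 := fun b => by
    have q := hS.isQ hf' hL b
    have t : IsT Γ (hf Γ p₀ b f) := q.isT p₀
    have l : LK Γ p₀ (Kb c S b) (hf Γ p₀ b f) := q.lk p₀
    have h3 := H₂ b Γ U p₀ _ t l
    have h4 := pow_le_pow_left₀ (norm_nonneg _) (U.norm_hf_le hS hf' hL b) 2
    generalize hf Γ p₀ b f = g at t l h3 h4 ⊢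
    have e := U.j_sub t (hβ.smul ⟪U.one, U.j 0 g⟫_ℝ)
    rw [U.j_smul hβ] at e
    obtain ⟨ψ, h5, h6, h7, h8⟩ := H₁ b Γ U p₀ _ (t.sub (hβ.smul ⟪U.one, U.j 0 g⟫_ℝ))
      ((l.mono subset_union_left).sub (((hL' b).mono subset_union_right).smul _))
      (by rw [e, inner_sub_right, real_inner_smul_right, h1, mul_one, sub_self])
    rw [e] at h7 h8
    refine ⟨ψ, h5, h6.mono fun y hy => (hKT b hy).1, h7, h8.trans ?_⟩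
    rw [mul_assoc]
    refine mul_le_mul_of_nonneg_left (((pow_le_pow_left₀ (norm_nonneg _) (norm_sub_le _ _) 2).trans
      add_sq_le).trans ?_) (hC₁ b)
    rw [norm_smul, mul_pow, Real.norm_eq_abs, sq_abs]
    have h9 := mul_le_mul (h3.trans (mul_le_mul_of_nonneg_left h4 (hC₂ b))) h2 (sq_nonneg _)
      (mul_nonneg (hC₂ b) (sq_nonneg _))
    linarith
  obtain ⟨ψ, a1, a2, a3, a4⟩ := key true
  obtain ⟨ψ', b1, b2, b3, b4⟩ := key false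
  refine ⟨ψ + ψ', a1.add b1, a2.add b2, ?_, ?_⟩ <;> rw [U.j_add a1 b1]
  · rw [U.j_hf hS hf' hL, inner_add_right, add_smul, ← sub_add_sub_comm]
    exact wcod_add a3 b3
  · linarith [(pow_le_pow_left₀ (norm_nonneg _) (norm_add_le (U.j 1 ψ) (U.j 1 ψ')) 2).trans add_sq_le]

/-- The whole piece: T = DR c = Wa c (-1) (isPreconnected_Wa, exists_sc_eq). -/
theorem sol0_Ia (c : Par) : ∃ C : ℝ, 0 ≤ C ∧
    ∀ {P : Type} [Finite P] (Γ : Gl c P) (U : UpL2 Γ) (p₀ : P), ∃ β : U.H 0,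
      ∀ f : Fam P 0, IsT Γ f → LK Γ p₀ (Ia c (-1 / 2)) f → ∃ ψ : Fam P 1, IsT Γ ψ ∧
        InPiece Γ p₀ ψ ∧ WCod U.D 0 (U.j 1 ψ) (U.j 0 f - ⟪U.one, U.j 0 f⟫_ℝ • β) ∧
        ‖U.j 1 ψ‖ ^ 2 ≤ C * ‖U.j 0 f‖ ^ 2 := by
  obtain ⟨C, hC, H⟩ := sol0_piece (cyl_Ia (c := c) (a := -1 / 2) (by norm_num)) isOpen_DR
    (fun _ h => h.1) (fun _ _ _ h => h.2.1)
    (fun b => (inter_eq_right.2 (DRb_subset b)).symm ▸ isPreconnected_DRb b)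
    (let ⟨y, h1, _, h2⟩ := exists_sc_eq (c := c) none (a := 0) (by norm_num) (by norm_num) true
    ⟨y, h1.1, h1, h2⟩)
  exact ⟨C, hC, fun Γ U p₀ => (H Γ U p₀).imp fun β h f h1 h2 => (h f h1 h2).imp fun ψ h =>
    ⟨h.1, h.2.1.inPiece, h.2.2⟩⟩

/-- A collar: T = (y ∈ DR c, |sc e y| < 3 / 4) (isPreconnected_collar); C is the sum of the
constants of the finitely many e. -/
theorem sol0_Ic (c : Par) : ∃ C : ℝ, 0 ≤ C ∧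
    ∀ {P : Type} [Finite P] (Γ : Gl c P) (U : UpL2 Γ) (p₀ : P) (e : Ed c) (f : Fam P 0),
      IsT Γ f → LK Γ p₀ (Ic e (1 / 2)) f → ⟪U.one, U.j 0 f⟫_ℝ = 0 → ∃ ψ : Fam P 1, IsT Γ ψ ∧
        LK Γ p₀ (Ic e (3 / 4)) ψ ∧ WCod U.D 0 (U.j 1 ψ) (U.j 0 f) ∧
        ‖U.j 1 ψ‖ ^ 2 ≤ C * ‖U.j 0 f‖ ^ 2 := by
  choose C hC H using fun e : Ed c => sol0_piece (T := DR c ∩ (fun y => |sc e y|) ⁻¹' Iio (3 / 4))
    (cyl_Ic e (a := 1 / 2) (by norm_num))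
    ((contDiffOn_sc e).continuousOn.abs.isOpen_inter_preimage isOpen_DR isOpen_Iio)
    (fun _ h => ⟨h.1, h.2.trans_lt (by norm_num)⟩)
    (fun _ h _ h' => ⟨h'.2.1, (congrArg abs (h'.sc_eq e)).trans_lt h.2⟩)
    (fun b => (Set.ext fun _ => ⟨fun h => ⟨⟨h.1.1, h.2⟩, h.1⟩, fun h => ⟨h.2, h.1.2⟩⟩ :
      {y | y ∈ DRb c b ∧ |sc e y| < 3 / 4} = DR c ∩ (fun y => |sc e y|) ⁻¹' Iio (3 / 4) ∩ DRb c b) ▸
        isPreconnected_collar e (by norm_num) b)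
    (let ⟨y, h1, h2, h3⟩ := exists_sc_eq e (a := 0) (by norm_num) (by norm_num) true
    ⟨y, ⟨h1.1, by simp [h2]⟩, h1, h3⟩)
  refine ⟨∑ e, C e, Finset.sum_nonneg fun e _ => hC e, fun Γ U p₀ e f h1 h2 h3 => ?_⟩
  obtain ⟨β, h⟩ := H e Γ U p₀
  obtain ⟨ψ, h4, h5, h6, h7⟩ := h f h1 h2
  rw [h3, zero_smul, sub_zero] at h6
  exact ⟨ψ, h4, h5.mono fun _ h => ⟨h.1, le_of_lt h.2⟩, h6, h7.trans (mul_le_mul_of_nonneg_right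
    (Finset.single_le_sum (fun e _ => hC e) (Finset.mem_univ e)) (sq_nonneg _))⟩

end Pool.Agent.Lib.MP_75c153_gt.Ft
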