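import Pool.Agent.Lib.MP_75c153_gt.Ft.Sol0
import Pool.Agent.Lib.MP_75c153_gt.Ft.RedD

/-! Coclosed 1-forms of a piece are codifferentials. -/

open MeasureTheory Filter Topology Set
open scoped ContDiff InnerProductSpace

namespace Pool.Agent.Lib.MP_75c153_gt.Ft

open Pool.Agent.Lib.MP_570070_gt.An

variable {c : Par} {b : Bool} {K : Set (Eu 5)}

/-- One chart: exists_cov, dvg_of_wcod (V agrees with vec (ψ p₀) near points of the chart and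
vanishes near the other points), red_DR, wcod_cov2, norm_cov2. -/
theorem sol1_chart (hK : IsK c b K) (h : ∀ y ∈ K, -7 / 8 < sc (none : Ed c) y) :
    ∃ (K' : Set (Eu 5)) (C : ℝ), IsK c b K' ∧ 0 ≤ C ∧
      ∀ {P : Type} (Γ : Gl c P) (U : UpL2 Γ) (p₀ : P) (ψ : Fam P 1), IsT Γ ψ →
        LK Γ p₀ K ψ → WCod U.D 0 (U.j 1 ψ) 0 → ∃ φ : Fam P 2, IsT Γ φ ∧ LK Γ p₀ K' φ ∧
          WCod U.D 1 (U.j 2 φ) (U.j 1 ψ) ∧ ‖U.j 2 φ‖ ^ 2 ≤ C * ‖U.j 1 ψ‖ ^ 2 := by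
  obtain ⟨C₁, c₁, h₁⟩ := hK.exists_cov
  obtain ⟨K', C₂, k1, k2, c₂, h₂⟩ := red_DR hK.cpt fun y hy => ⟨hK.sub hy, h y hy⟩
  have hK' : IsK c b K' := ⟨k1, k2⟩
  obtain ⟨C₃, c₃, h₃⟩ := hK'.norm_cov2
  refine ⟨K', C₃ * (C₂ * C₁), hK', by positivity, fun Γ U p₀ ψ hT hL h0 => ?_⟩
  obtain ⟨V, v1, v2, v3, v4⟩ := h₁ Γ U p₀ ψ hT hL
  have hd : ∀ y, dvg V y = 0 := fun y => by
    by_cases hy : y ∈ DRb c b
    · rw [dvg_congr (eventually_of_mem ((isOpen_DRb b).mem_nhds hy) v2)]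
      exact U.dvg_of_wcod hT h0 p₀ hy.1
    · by_contra hn
      exact hy (hK.sub ((v1.dvg hK.cpt.isClosed).2 y hn))
  obtain ⟨A, a1, a2, a3, a4⟩ := h₂ V v1 hd fun j hj => absurd hj (Finset.notMem_empty j)
  refine ⟨_, (hK'.isQ_cov2 a1).isT p₀, (hK'.isQ_cov2 a1).lk p₀, ?_, ?_⟩
  · have := U.wcod_cov2 (p₀ := p₀) hK' a1 a2
    simp only [a3] at this
    rwa [v3]
  · refine (h₃ Γ U p₀ A a1 a2).trans ?_
    rw [mul_assoc, mul_assoc]
    exact mul_le_mul_of_nonneg_left (a4.trans (mul_le_mul_of_nonneg_left v4 c₂)) c₃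

/-- The compact part of the overlap. -/
def Ka (c : Par) : Set (Eu 5) := {y | y ∈ Kb c (Ia c (-3 / 4)) true ∧ 1 / 3 ≤ zsq y}

theorem isK_Ka : IsK c true (Ka c) := by
  have h := (cyl_Ia (c := c) (a := -3 / 4) (by norm_num)).isK true
  exact ⟨h.cpt.of_isClosed_subset ((contDiffOn_zsq.continuousOn.mono
    h.subDR).preimage_isClosed_of_isClosed h.cpt.isClosed isClosed_Ici) fun _ hy => hy.1,
    fun _ hy => h.sub hy.1⟩

/-- The codifferential of the part in the chart true. exists_cov for hf true ψ gives V = rho • vec ψ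
on the chart; wcod_cov gives g = xt (den (- dvg V)); by dvg_smul, vec_smul and dvg_of_wcod,
dvg V = ∑ i, pd i rho * vec ψ i on the chart, which vanishes where zsq < 1 / 3 (rho_eq_one) and
outside Kb (Sm.dvg). Norm: norm_den, a bound for the coefficients on Ka (exists_bd, ipUp_vec or
ipUp_one_deg) and chart_le. -/
theorem cod_hf (c : Par) : ∃ C : ℝ, 0 ≤ C ∧
    ∀ {P : Type} (Γ : Gl c P) (U : UpL2 Γ) (p₀ : P) (ψ : Fam P 1), IsT Γ ψ →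
      LK Γ p₀ (Ia c (-3 / 4)) ψ → WCod U.D 0 (U.j 1 ψ) 0 → ∃ g : Fam P 0, IsT Γ g ∧
        LK Γ p₀ (Ka c) g ∧ WCod U.D 0 (U.j 1 (hf Γ p₀ true ψ)) (U.j 0 g) ∧
        ‖U.j 0 g‖ ^ 2 ≤ C * ‖U.j 1 ψ‖ ^ 2 := by
  have hS := cyl_Ia (c := c) (a := -3 / 4) (by norm_num)
  have hK := hS.isK true
  obtain ⟨C₁, -, h₁⟩ := hK.exists_cov
  obtain ⟨C₂, c₂, h₂⟩ := (isK_Ka (c := c)).norm_den
  have hβ : ContinuousOn (fun y => f1 fun i => pd i rho y) (DR c) :=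
    contDiff_f1.continuous.comp_continuousOn (continuousOn_pi.2 fun i =>
      (contDiffOn_rho.continuousOn_fderiv_of_isOpen isOpen_DR (by simp)).clm_apply
        continuousOn_const)
  obtain ⟨M, m0, hM⟩ := exists_bd isK_Ka.cpt isK_Ka.subDR
    ((continuousOn_ipUp hβ hβ).mul contDiffOn_vol.continuousOn)
  refine ⟨C₂ * M, by positivity, fun Γ U p₀ ψ hT hL h0 => ?_⟩
  have hQ := hS.isQ hT hL true
  obtain ⟨V, v1, v2, v3, -⟩ := h₁ Γ U p₀ (hf Γ p₀ true ψ) (hQ.isT p₀) (hQ.lk p₀)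
  have hd : ∀ y ∈ DRb c true, dvg V y = ∑ i, pd i rho y * vec c y (ψ p₀ y) i := fun y hy => by
    have e : V =ᶠ[𝓝 y] fun z => rho z • vec c z (ψ p₀ z) := by
      filter_upwards [(isOpen_DRb true).mem_nhds hy] with z hz
      rw [v2 z hz, hf, xt_self hz, vec_smul]
    have n := isOpen_DR.mem_nhds hy.1
    rw [dvg_congr e, dvg_smul ((contDiffOn_rho.contDiffAt n).differentiableAt (by simp))
      (((contDiffOn_vec subset_rfl (hT.smooth p₀)).contDiffAt n).differentiableAt (by simp)),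
      U.dvg_of_wcod hT h0 p₀ hy.1, mul_zero, add_zero]
  have hv := v1.dvg hK.cpt.isClosed
  have hF : Sm (Ka c) fun y => -dvg V y := by
    refine ⟨hv.1.neg, fun y hy => ?_⟩
    have h1 := hv.2 y (neg_ne_zero.1 hy)
    refine ⟨h1, not_lt.1 fun h2 => hy ?_⟩
    have e : rho =ᶠ[𝓝 y] fun _ => 1 := by
      filter_upwards [(contDiffOn_zsq.continuousOn.continuousAt
        (isOpen_DR.mem_nhds (hK.subDR h1))).eventually (gt_mem_nhds h2)] with z hz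
      exact rho_eq_one hz.le
    beta_reduce
    rw [hd y (hK.sub h1), neg_eq_zero]
    exact Finset.sum_eq_zero fun i _ => by rw [pd_congr i e, pd_const, zero_mul]
  refine ⟨_, (isK_Ka.isQ_den hF).isT p₀, (isK_Ka.isQ_den hF).lk p₀, ?_, ?_⟩
  · rw [v3]
    exact U.wcod_cov hK v1
  refine (h₂ Γ U p₀ _ hF).trans ?_
  rw [mul_assoc]
  refine mul_le_mul_of_nonneg_left (le_trans ?_
    (mul_le_mul_of_nonneg_left (U.chart_le isK_Ka hT p₀) m0)) c₂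
  have hψ := (hT.smooth p₀).continuousOn
  rw [← integral_eq_on (U := Ka c) fun y hy => hF.2 y ((pow_ne_zero_iff two_ne_zero).1 hy),
    ← integral_const_mul]
  refine setIntegral_mono_on (hF.integrable_sq isK_Ka.cpt).integrableOn
    ((continuousOn_const.mul (((continuousOn_ipUp hψ hψ).mul contDiffOn_vol.continuousOn).mono
      isK_Ka.subDR)).integrableOn_compact isK_Ka.cpt) isK_Ka.cpt.measurableSet fun y hy => ?_
  have h3 := ipUp_vec (c := c) (y := y) (f1 fun i => pd i rho y) (ψ p₀ y)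
  simp only [f1_bas] at h3
  have h4 := (vol_pos (isK_Ka.subDR hy)).le
  rw [neg_sq, hd y (isK_Ka.sub hy), ← h3, mul_pow]
  refine (mul_le_mul_of_nonneg_right (ipUp_sq_le _ _) (sq_nonneg _)).trans ?_
  rw [sq, mul_mul_mul_comm]
  exact mul_le_mul_of_nonneg_right (hM y hy) (mul_nonneg (ipUp_self_nonneg _) h4)

theorem sol1_sq {E : Type} [NormedAddCommGroup E] (u v : E) :
    ‖u + v‖ ^ 2 ≤ 2 * ‖u‖ ^ 2 + 2 * ‖v‖ ^ 2 := by
  nlinarith [pow_le_pow_left₀ (norm_nonneg _) (norm_add_le u v) 2, sq_nonneg (‖u‖ - ‖v‖)]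

/-- One piece. g of cod_hf has mass zero (D_one); sol0_chart in the set of isPreconnected_ann
(a = -7 / 8, b = true) gives γ with codifferential g and support K'; ψ₁ = hf true ψ - γ and
ψ₂ = hf false ψ + γ are coclosed (j_hf), with supports Kb true ∪ K' and Kb false ∪ K'' where K''
comes from exists_compact_same (LK.same); sol1_chart twice. -/
theorem sol1_piece (c : Par) : ∃ C : ℝ, 0 ≤ C ∧
    ∀ {P : Type} [Finite P] (Γ : Gl c P) (U : UpL2 Γ) (p₀ : P) (ψ : Fam P 1), IsT Γ ψ →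
      LK Γ p₀ (Ia c (-3 / 4)) ψ → WCod U.D 0 (U.j 1 ψ) 0 → ∃ φ : Fam P 2, IsT Γ φ ∧
        InPiece Γ p₀ φ ∧ WCod U.D 1 (U.j 2 φ) (U.j 1 ψ) ∧
        ‖U.j 2 φ‖ ^ 2 ≤ C * ‖U.j 1 ψ‖ ^ 2 := by
  have hS := cyl_Ia (c := c) (a := -3 / 4) (by norm_num)
  obtain ⟨G, g0, hG⟩ := cod_hf c
  have hO : IsOpen {y | y ∈ Wa c (-7 / 8) ∧ cb y = true ∧ 1 / 4 < zsq y ∧ zsq y < 4} := by
    have := (contDiffOn_zsq.continuousOn.mono fun y (hy : y ∈ Wa c (-7 / 8) ∩ DRb c true) =>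
      hy.2.1).isOpen_inter_preimage ((isOpen_Wa _).inter (isOpen_DRb true))
      (isOpen_Ioo (a := 1 / 4) (b := 4))
    refine (congrArg IsOpen (Set.ext fun y => ?_)).mp this
    exact ⟨fun h => ⟨h.1.1, h.1.2.2, h.2⟩, fun h => ⟨⟨h.1, h.1.1, h.2.1⟩, h.2.2⟩⟩
  obtain ⟨K', C₀, hK', k1, c₀, h₀⟩ := sol0_chart isK_Ka hO
    (isPreconnected_ann (by norm_num) (by norm_num) true)
    (fun y hy => ⟨⟨hy.1.2.1, fun e => lt_of_lt_of_le (by norm_num) (hy.1.1.1.2 e)⟩, hy.1.2.2,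
      lt_of_lt_of_le (by norm_num) hy.2, lt_of_le_of_lt hy.1.1.2 (by norm_num)⟩)
    fun y hy => ⟨hy.1.1, hy.2.1⟩
  obtain ⟨K'', k2, k3, k4⟩ := exists_compact_same hK'.cpt
    fun y hy => ⟨hK'.subDR hy, lt_trans (by norm_num) (k1 hy).2.2.1⟩
  have hK'' : IsK c false K'' := ⟨k2, fun y' hy' => by
    obtain ⟨y, hy, e1, e2⟩ := k3 y' hy'
    exact ⟨e1.2.1, by rw [e2, (hK'.sub hy).2, Bool.not_true]⟩⟩
  have hb : ∀ b, ∀ y ∈ Kb c (Ia c (-3 / 4)) b, -7 / 8 < sc (none : Ed c) y := fun b y hy =>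
    lt_of_lt_of_le (by norm_num) (hy.1.1.2 none)
  obtain ⟨K₁, C₁, -, c₁, h₁⟩ := sol1_chart ((hS.isK true).union hK')
    fun y hy => hy.elim (hb _ y) fun hy => (k1 hy).1.2 none
  obtain ⟨K₂, C₂, -, c₂, h₂⟩ := sol1_chart ((hS.isK false).union hK'')
    fun y' hy' => hy'.elim (hb _ y') fun hy' => by
      obtain ⟨y, hy, e1, -⟩ := k3 y' hy'
      rw [e1.sc_eq]
      exact (k1 hy).1.2 none
  refine ⟨2 * (C₁ + C₂) * (2 + 2 * (C₀ * G)), by positivity, fun Γ U p₀ ψ hT hL h0 => ?_⟩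
  obtain ⟨g, g1, g2, g3, g4⟩ := hG Γ U p₀ ψ hT hL h0
  obtain ⟨γ, a1, a2, a3, a4⟩ := h₀ Γ U p₀ g g1 g2
    ((g3 _ _ U.D_one).symm.trans (inner_zero_left _))
  have q : ∀ b, IsT Γ (hf Γ p₀ b ψ) := fun b => (hS.isQ hT hL b).isT p₀
  have l : ∀ b, LK Γ p₀ (Kb c (Ia c (-3 / 4)) b) (hf Γ p₀ b ψ) :=
    fun b => (hS.isQ hT hL b).lk p₀
  have e1 := U.j_sub (q true) a1
  have e2 := U.j_add (q false) a1
  have e3 : U.j 1 (hf Γ p₀ true ψ - γ) + U.j 1 (hf Γ p₀ false ψ + γ) = U.j 1 ψ := by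
    rw [e1, e2, U.j_hf hS hT hL]
    abel
  have w1 : WCod U.D 0 (U.j 1 (hf Γ p₀ true ψ - γ)) 0 := by
    have := wcod_sub g3 a3
    rwa [sub_self, ← e1] at this
  have w2 : WCod U.D 0 (U.j 1 (hf Γ p₀ false ψ + γ)) 0 := by
    have := wcod_sub h0 w1
    rwa [sub_self, ← e3, add_sub_cancel_left] at this
  obtain ⟨φ₁, b1, b2, b3, b4⟩ := h₁ Γ U p₀ _ ((q true).sub a1)
    (((l true).mono subset_union_left).sub (a2.mono subset_union_right)) w1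
  obtain ⟨φ₂, d1, d2, d3, d4⟩ := h₂ Γ U p₀ _ ((q false).add a1)
    (((l false).mono subset_union_left).add
      ((a2.same fun y hy => (k4 y hy).imp fun y' h => ⟨h.1, h.2.1⟩).mono subset_union_right)) w2
  refine ⟨φ₁ + φ₂, b1.add d1,
    ((b2.mono subset_union_left).add (d2.mono subset_union_right)).inPiece, ?_, ?_⟩
  · rw [U.j_add b1 d1, ← e3]
    exact wcod_add b3 d3
  have n0 : ‖U.j 1 γ‖ ^ 2 ≤ C₀ * G * ‖U.j 1 ψ‖ ^ 2 := by
    rw [mul_assoc]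
    exact a4.trans (mul_le_mul_of_nonneg_left g4 c₀)
  have n1 : ∀ b, ‖U.j 1 (hf Γ p₀ b ψ)‖ ^ 2 ≤ ‖U.j 1 ψ‖ ^ 2 := fun b =>
    pow_le_pow_left₀ (norm_nonneg _) (U.norm_hf_le hS hT hL b) 2
  have n2 : ‖U.j 1 (hf Γ p₀ true ψ - γ)‖ ^ 2 ≤ (2 + 2 * (C₀ * G)) * ‖U.j 1 ψ‖ ^ 2 := by
    have := sol1_sq (U.j 1 (hf Γ p₀ true ψ)) (-U.j 1 γ)
    rw [norm_neg, ← sub_eq_add_neg, ← e1] at this
    linarith [n1 true]
  have n3 : ‖U.j 1 (hf Γ p₀ false ψ + γ)‖ ^ 2 ≤ (2 + 2 * (C₀ * G)) * ‖U.j 1 ψ‖ ^ 2 := by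
    have := sol1_sq (U.j 1 (hf Γ p₀ false ψ)) (U.j 1 γ)
    rw [← e2] at this
    linarith [n1 false]
  have n4 := sol1_sq (U.j 2 φ₁) (U.j 2 φ₂)
  rw [U.j_add b1 d1]
  linarith [mul_le_mul_of_nonneg_left n2 c₁, mul_le_mul_of_nonneg_left n3 c₂]

end Pool.Agent.Lib.MP_75c153_gt.Ft
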