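import Pool.Agent.Lib.MP_570070_gt.Stage

/-! Finite quotients with many cuts, for any finite family of elements. -/

namespace Pool.Agent.Lib.MP_75c153_gt.Ft

open Matrix Pool.Agent.Lib.MP_570070_gt

variable {G J : Type} [Group G]

/-- A homomorphism to a finite group with a family of subgroups that is permuted by `x`,
normalised by the `ys j`, and such that every orbit has a member containing all `ys j`. -/
structure Stg (x : G) (ys : J → G) : Type 1 where
  H : Type
  [grp : Group H]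
  [fin : Finite H]
  π : G →* H
  ι : Type
  [fι : Fintype ι]
  σ : Equiv.Perm ι
  I : ι → Subgroup H
  shift : ∀ t h, π x * h * (π x)⁻¹ ∈ I (σ t) ↔ h ∈ I t
  norm : ∀ j t h, π (ys j) * h * (π (ys j))⁻¹ ∈ I t ↔ h ∈ I t
  hit : ∀ t, ∃ s : ℕ, ∀ j, π (ys j) ∈ I ((σ ^ s) t)

attribute [instance] Stg.grp Stg.fin Stg.fι

variable {x : G} {ys : J → G}

/-- The total size of the pairwise intersections. -/
noncomputable def Stg.tot (S : Stg x ys) : ℝ :=
  ∑ s, ∑ t, (Nat.card ↥(S.I s ⊓ S.I t) : ℝ)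

theorem Stg.tot_nonneg (S : Stg x ys) : 0 ≤ S.tot :=
  Finset.sum_nonneg fun _ _ => Finset.sum_nonneg fun _ _ => Nat.cast_nonneg _

/-- The diagonal map to the product of two stages. -/
def Stg.prod (S T : Stg x ys)
    (h : ∀ t u, ∃ s : ℕ, (∀ j, S.π (ys j) ∈ S.I ((S.σ ^ s) t)) ∧
      ∀ j, T.π (ys j) ∈ T.I ((T.σ ^ s) u)) : Stg x ys where
  H := S.H × T.H
  π := S.π.prod T.π
  ι := S.ι × T.ι
  σ := Equiv.prodCongr S.σ T.σ
  I := fun p => (S.I p.1).prod (T.I p.2)
  shift := fun t h => by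
    simp only [Subgroup.mem_prod]
    exact and_congr (S.shift t.1 h.1) (T.shift t.2 h.2)
  norm := fun j t h => by
    simp only [Subgroup.mem_prod]
    exact and_congr (S.norm j t.1 h.1) (T.norm j t.2 h.2)
  hit := fun t => by
    obtain ⟨s, h1, h2⟩ := h t.1 t.2
    have e : ∀ k : ℕ, ((Equiv.prodCongr S.σ T.σ : Equiv.Perm (S.ι × T.ι)) ^ k) t =
        ((S.σ ^ k) t.1, (T.σ ^ k) t.2) := by
      intro k
      induction k with
      | zero => rfl
      | succ k ih =>
        rw [pow_succ', pow_succ', pow_succ', Equiv.Perm.mul_apply, ih]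
        rfl
    refine ⟨s, fun j => ?_⟩
    rw [e]
    exact ⟨h1 j, h2 j⟩

theorem Stg.tot_prod (S T : Stg x ys) (h) : (S.prod T h).tot = S.tot * T.tot := by
  have e : ∀ p q : S.ι × T.ι, (Nat.card ↥((S.I p.1).prod (T.I p.2) ⊓ (S.I q.1).prod (T.I q.2)) : ℝ)
      = (Nat.card ↥(S.I p.1 ⊓ S.I q.1) : ℝ) * (Nat.card ↥(T.I p.2 ⊓ T.I q.2) : ℝ) := by
    intro p q
    have : (S.I p.1).prod (T.I p.2) ⊓ (S.I q.1).prod (T.I q.2) =
        (S.I p.1 ⊓ S.I q.1).prod (T.I p.2 ⊓ T.I q.2) := by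
      ext z
      simp only [Subgroup.mem_inf, Subgroup.mem_prod]
      tauto
    rw [this, Nat.card_congr (Subgroup.prodEquiv _ _).toEquiv, Nat.card_prod, Nat.cast_mul]
  change ∑ p : S.ι × T.ι, ∑ q : S.ι × T.ι,
    (Nat.card ↥((S.I p.1).prod (T.I p.2) ⊓ (S.I q.1).prod (T.I q.2)) : ℝ) = _
  simp only [e, Fintype.sum_prod_type, Stg.tot, Finset.sum_mul_sum]

/-- The trivial stage. -/
def Stg.triv (x : G) (ys : J → G) : Stg x ys where
  H := Unit
  π := 1
  ι := Unit
  σ := 1
  I := fun _ => ⊤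
  shift := fun _ _ => by simp
  norm := fun _ _ _ => by simp
  hit := fun _ => ⟨0, fun _ => by simp⟩

theorem Stg.triv_tot {β : ℝ} (hβ : 1 < β) :
    (Stg.triv x ys).tot < β * (Fintype.card (Stg.triv x ys).ι : ℝ) ^ 2 := by
  change ∑ _s : Unit, ∑ _t : Unit, (Nat.card ↥((⊤ : Subgroup Unit) ⊓ ⊤) : ℝ) <
    β * (Fintype.card Unit : ℝ) ^ 2
  simpa using hβ

/-- The element `1 + x ∑ c_j (1 - y_j)` of the integral group ring. -/
noncomputable def elj [Fintype J] (x : G) (ys : J → G) (cs : J → ℤ) : MonoidAlgebra ℤ G :=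
  1 + MonoidAlgebra.single x 1 * ∑ j, cs j • (1 - MonoidAlgebra.single (ys j) 1)

theorem Stg.sum_log_le [Fintype J] (cs : J → ℤ) (S : Stg x ys) [Fintype S.H] [DecidableEq S.H] {δ : ℝ}
    (hδ : S.tot < (1 + δ) * (Fintype.card S.ι : ℝ) ^ 2)
    (hM : (rep ((reg S.H).comp S.π) (elj x ys cs) *
      (rep ((reg S.H).comp S.π) (elj x ys cs))ᵀ).IsHermitian) :
    ((eigs hM).map Real.log).sum ≤
      l1 (elj x ys cs * bar (elj x ys cs) * (elj x ys cs * bar (elj x ys cs)) - elj x ys cs * bar (elj x ys cs)) *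
        (δ * Fintype.card S.H) := by
  set ρ := (reg S.H).comp S.π with hρ
  have hρ' : ∀ g, ρ g⁻¹ = (ρ g)ᴴ := fun g => by
    rw [conjTranspose_eq_transpose_of_trivial, hρ, MonoidHom.comp_apply, map_inv, reg_inv]
    rfl
  set T : Matrix S.H S.H ℝ := ∑ t, sumOf (S.I t) with hT
  set b : Matrix S.H S.H ℝ := ∑ j, cs j • (1 - ρ (ys j)) with hb
  have hA : rep ρ (elj x ys cs) = 1 + ρ x * b := by
    simp only [elj, map_add, map_one, map_mul, map_sum, map_sub, rep_single, one_smul, hb,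
      map_zsmul]
  have hTt : Tᵀ = T := by simp only [hT, transpose_sum, sumOf_transpose]
  have hbF : ∀ t, b * sumOf (S.I t) = sumOf (S.I t) * b := fun t => by
    simp only [hb, Finset.sum_mul, Finset.mul_sum, sub_mul, mul_sub, one_mul, mul_one,
      smul_mul_assoc, mul_smul_comm]
    exact Finset.sum_congr rfl fun j _ => congrArg _ (congrArg _ (conj_sumOf (S.norm j t)))
  have hNF : ∀ t, ρ x * b * sumOf (S.I t) = sumOf (S.I (S.σ t)) * (ρ x * b) := fun t => by
    rw [mul_assoc, hbF, ← mul_assoc, ← mul_assoc]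
    exact congrArg (· * b) (conj_sumOf (S.shift t))
  have hNF' : ∀ (k : ℕ) t, (ρ x * b) ^ k * sumOf (S.I t) =
      sumOf (S.I ((S.σ ^ k) t)) * (ρ x * b) ^ k := by
    intro k t
    induction k with
    | zero => simp
    | succ k ih => rw [pow_succ', mul_assoc, ih, ← mul_assoc, hNF, mul_assoc, pow_succ' S.σ]; rfl
  have hTN : Commute T (ρ x * b) := by
    rw [Commute, SemiconjBy, hT, Finset.sum_mul, ← Equiv.sum_comp S.σ,
      Finset.mul_sum (a := ρ x * b)]
    exact Finset.sum_congr rfl fun t _ => (hNF t).symm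
  choose s hs using S.hit
  have hz : ∀ t, (ρ x * b) ^ (s t + 1) * sumOf (S.I t) = 0 := fun t => by
    have : b * sumOf (S.I ((S.σ ^ s t) t)) = 0 := by
      rw [hb, Finset.sum_mul]
      refine Finset.sum_eq_zero fun j _ => ?_
      rw [smul_mul_assoc, sub_mul, one_mul]
      exact smul_eq_zero_of_right _ (sub_eq_zero.2 (mul_sumOf (hs t j)).symm)
    rw [pow_succ', mul_assoc, hNF', ← mul_assoc, mul_assoc (ρ x), this, mul_zero, zero_mul]
  have hzT : (ρ x * b) ^ (∑ t, (s t + 1)) * T = 0 := by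
    rw [hT, Finset.mul_sum]
    refine Finset.sum_eq_zero fun t _ => ?_
    obtain ⟨c, hc⟩ := Nat.exists_eq_add_of_le'
      (Finset.single_le_sum (f := fun t => s t + 1) (fun _ _ => Nat.zero_le _) (Finset.mem_univ t))
    rw [hc, pow_add, mul_assoc, hz, mul_zero]
  obtain ⟨U, V, hU, hUU, hTU, hV, hcU⟩ := exists_kerProj T hTt
  have hNU : Commute (ρ x * b) U := (hcU _ hTN).symm
  have hAU : Commute (rep ρ (elj x ys cs)) U := by
    rw [hA]
    exact (Commute.one_left U).add_left hNU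
  have hnil : IsNilpotent ((rep ρ (elj x ys cs) - 1) * (1 - U)) := by
    have h1 : IsNilpotent (ρ x * b * (1 - U)) := by
      refine ⟨∑ t, (s t + 1) + 1, ?_⟩
      rw [((Commute.one_right _).sub_right hNU).mul_pow, pow_succ', pow_succ', mul_assoc,
        ← mul_assoc _ (1 - U), hV, ← mul_assoc _ T, hzT]
      simp
    rw [hA, add_sub_cancel_left]
    exact h1
  refine (MP_570070_gt.sum_log_le hU hUU hAU hnil hM).trans ?_
  have hm : rep ρ (elj x ys cs) * (rep ρ (elj x ys cs))ᵀ = rep ρ (elj x ys cs * bar (elj x ys cs)) := by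
    rw [map_mul, rep_bar ρ hρ', conjTranspose_eq_transpose_of_trivial]
  rw [hm, ← map_mul, ← map_sub]
  generalize elj x ys cs * bar (elj x ys cs) * (elj x ys cs * bar (elj x ys cs)) -
    elj x ys cs * bar (elj x ys cs) = m
  have hcard : (0 : ℝ) < Fintype.card S.ι := by
    rcases (Nat.cast_nonneg (α := ℝ) (Fintype.card S.ι)).eq_or_lt with h | h
    · rw [← h] at hδ
      have := S.tot_nonneg
      simp only [ne_eq, OfNat.ofNat_ne_zero, not_false_eq_true, zero_pow, mul_zero] at hδ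
      linarith
    · exact h
  have hH : (0 : ℝ) ≤ Fintype.card S.H := Nat.cast_nonneg _
  have htr : U.trace ≤ δ * Fintype.card S.H := by
    have h1 := trace_kerProj_le hTt hU hUU hTU (Fintype.card S.ι)
    have h2 : T.trace = Fintype.card S.ι * Fintype.card S.H := by
      simp [hT, trace_sum, trace_sumOf]
    have h3 : (T * T).trace = S.tot * Fintype.card S.H := by
      rw [hT, Finset.sum_mul_sum]
      simp only [trace_sum, trace_sumOf_mul, Stg.tot, Finset.sum_mul]
    rw [h2, h3] at h1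
    have h4 := mul_le_mul_of_nonneg_right hδ.le hH
    refine le_of_mul_le_mul_left ?_ (pow_pos hcard 2)
    nlinarith
  refine le_trans ?_ (mul_le_mul_of_nonneg_left htr (l1_nonneg m))
  rw [rep_apply, Finset.sum_mul, trace_sum, l1, Finsupp.sum, Finset.sum_mul]
  refine Finset.sum_le_sum fun g _ => ?_
  rw [smul_mul_assoc, trace_smul, zsmul_eq_mul]
  refine (le_abs_self _).trans ?_
  rw [abs_mul]
  refine mul_le_mul_of_nonneg_left (abs_trace_orth_le ?_ hU hUU) (abs_nonneg _)
  rw [← conjTranspose_eq_transpose_of_trivial, ← hρ', ← map_mul, inv_mul_cancel, map_one]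

end Pool.Agent.Lib.MP_75c153_gt.Ft
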