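import Pool.Agent.Lib.MP_75c153_gt.Ft.GeoA0

/-!
The stereographic charts of the sphere.
-/

open MeasureTheory Filter Topology Set
open scoped ContDiff InnerProductSpace

namespace Pool.Agent.Lib.MP_75c153_gt.Ft

open Pool.Agent.Lib.MP_570070_gt.An

noncomputable section

variable {c : Par} {e : Ed c} {y : Eu 5}

/-- The Euclidean scalar product of 3-space. -/
def dot (u v : Eu 3) : ℝ := u 0 * v 0 + u 1 * v 1 + u 2 * v 2

/-- The determinant of three vectors. -/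
def det3 (u v w : Eu 3) : ℝ :=
  u 0 * (v 1 * w 2 - v 2 * w 1) + u 1 * (v 2 * w 0 - v 0 * w 2) + u 2 * (v 0 * w 1 - v 1 * w 0)

/-- The first three coordinates. -/
def xp (y : Eu 5) : Eu 3 := ![y 0, y 1, y 2]

theorem xp_zero (y : Eu 5) : xp y 0 = y 0 := rfl
theorem xp_one (y : Eu 5) : xp y 1 = y 1 := rfl
theorem xp_two (y : Eu 5) : xp y 2 = y 2 := rfl

theorem eu3_ext {u v : Eu 3} (h0 : u 0 = v 0) (h1 : u 1 = v 1) (h2 : u 2 = v 2) : u = v := by
  funext i
  fin_cases i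
  exacts [h0, h1, h2]

theorem eu5_ext {u v : Eu 5} (h0 : u 0 = v 0) (h1 : u 1 = v 1) (h2 : u 2 = v 2) (h3 : u 3 = v 3)
    (h4 : u 4 = v 4) : u = v := by
  funext i
  fin_cases i
  exacts [h0, h1, h2, h3, h4]

theorem dot_comm (u v : Eu 3) : dot u v = dot v u := by
  simp only [dot]
  ring

theorem rf_zero (v : Eu 3) : rf e v 0 = v 0 := rfl
theorem rf_one (v : Eu 3) : rf e v 1 = c.ε e * v 1 := rfl
theorem rf_two (v : Eu 3) : rf e v 2 = v 2 := rfl

theorem rf_rf (e : Ed c) (v : Eu 3) : rf e (rf e v) = v :=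
  eu3_ext rfl (by rw [rf_one, rf_one, ← mul_assoc, ← sq, eps_sq, one_mul]) rfl

theorem dot_rf (u v : Eu 3) : dot (rf e u) (rf e v) = dot u v := by
  simp only [dot, rf_zero, rf_one, rf_two]
  linear_combination u 1 * v 1 * eps_sq e

theorem dot_rf_left (u v : Eu 3) : dot (rf e u) v = dot u (rf e v) := by
  simp only [dot, rf_zero, rf_one, rf_two]
  ring

theorem det3_rf (u v w : Eu 3) : det3 (rf e u) (rf e v) (rf e w) = c.ε e * det3 u v w := by
  simp only [det3, rf_zero, rf_one, rf_two]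
  ring

/-- The reflection as a linear map. -/
def rfL (e : Ed c) : Eu 3 →L[ℝ] Eu 3 :=
  ContinuousLinearMap.pi ![.proj 0, c.ε e • .proj 1, .proj 2]

theorem rfL_apply (v : Eu 3) : rfL e v = rf e v := eu3_ext rfl rfl rfl

theorem rf_eq : rf e = rfL e := funext fun v => (rfL_apply v).symm

theorem mu_mul (y : Eu 5) : mu y * (1 + zc y ^ 2 + y 4 ^ 2) = 2 := by
  rw [mu, add_assoc, ← zsq, div_mul_cancel₀ _ (one_add_zsq_pos y).ne']

theorem sph_zero (y : Eu 5) : sph y 0 = mu y * zc y := by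
  change 2 * zc y / (1 + zsq y) = _
  rw [mu]
  ring

theorem sph_one (y : Eu 5) : sph y 1 = tau (cb y) * (mu y * y 4) := by
  change _ * (2 * y 4 / (1 + zsq y)) = _
  rw [mu]
  ring

theorem hgt_eq (y : Eu 5) : (1 - zsq y) / (1 + zsq y) = mu y - 1 := by
  have := (one_add_zsq_pos y).ne'
  rw [mu]
  field_simp
  ring

theorem sph_two (y : Eu 5) : sph y 2 = tau (cb y) * (mu y - 1) := by
  change _ * ((1 - zsq y) / (1 + zsq y)) = _
  rw [hgt_eq]

theorem one_add_sph (y : Eu 5) : 1 + tau (cb y) * sph y 2 = mu y := by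
  rw [sph_two, ← mul_assoc, tau_mul_self]
  ring

theorem dot_sph (y : Eu 5) : dot (sph y) (sph y) = 1 := by
  simp only [dot, sph_zero, sph_one, sph_two]
  linear_combination (mu y ^ 2 * y 4 ^ 2 + (mu y - 1) ^ 2) * tau_sq (cb y) + mu y * mu_mul y

theorem rho_eq (y : Eu 5) : rho y = Real.smoothTransition (1 / 2 + tau (cb y) * sph y 2) := by
  rw [rho, hgt_eq, ← one_add_sph, add_sub_cancel_left]

theorem nv_zero (y : Eu 5) : nv e y 0 = (y 0 - ctr e) / √(rsq e y) := rfl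
theorem nv_one (y : Eu 5) : nv e y 1 = y 1 / √(rsq e y) := rfl
theorem nv_two (y : Eu 5) : nv e y 2 = y 2 / √(rsq e y) := rfl

theorem dot_nv (h : 0 < rsq e y) : dot (nv e y) (nv e y) = 1 := by
  have h1 := Real.sq_sqrt h.le
  have h2 := (Real.sqrt_pos.2 h).ne'
  simp only [dot, nv_zero, nv_one, nv_two]
  field_simp
  rw [h1, rsq]

theorem pt_zero (x v : Eu 3) (b : Bool) : pt x v b 0 = x 0 := rfl
theorem pt_one (x v : Eu 3) (b : Bool) : pt x v b 1 = x 1 := rfl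
theorem pt_two (x v : Eu 3) (b : Bool) : pt x v b 2 = x 2 := rfl
theorem pt_three (x v : Eu 3) (b : Bool) :
    pt x v b 3 = 4 * tau b + v 0 / (1 + tau b * v 2) := rfl
theorem pt_four (x v : Eu 3) (b : Bool) : pt x v b 4 = tau b * v 1 / (1 + tau b * v 2) := rfl

theorem pt_sph (y : Eu 5) : pt (xp y) (sph y) (cb y) = y := by
  have h := (mu_pos y).ne'
  refine eu5_ext rfl rfl rfl ?_ ?_
  · rw [pt_three, one_add_sph, sph_zero, mul_div_cancel_left₀ _ h, zc]
    ring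
  · rw [pt_four, one_add_sph, sph_one, ← mul_assoc, tau_mul_self, one_mul,
      mul_div_cancel_left₀ _ h]

/-- Points of one square are determined by their images. -/
theorem eq_of_sph {y y' : Eu 5} (h0 : y' 0 = y 0) (h1 : y' 1 = y 1) (h2 : y' 2 = y 2)
    (h : sph y' = sph y) (hb : cb y' = cb y) : y' = y := by
  rw [← pt_sph y', ← pt_sph y, h, hb, xp, xp, h0, h1, h2]

theorem zc_pt {x v : Eu 3} {b : Bool} (hb : cb (pt x v b) = b) :
    zc (pt x v b) = v 0 / (1 + tau b * v 2) := by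
  rw [zc, hb, pt_three]
  ring

theorem zsq_pt {x v : Eu 3} {b : Bool} (hv : dot v v = 1) (h : 1 + tau b * v 2 ≠ 0)
    (hb : cb (pt x v b) = b) : zsq (pt x v b) = (1 - tau b * v 2) / (1 + tau b * v 2) := by
  rw [zsq, zc_pt hb, pt_four]
  rw [dot] at hv
  field_simp
  linear_combination hv + (v 1 ^ 2 + v 2 ^ 2) * tau_sq b

theorem mu_pt {x v : Eu 3} {b : Bool} (hv : dot v v = 1) (h : 1 + tau b * v 2 ≠ 0)
    (hb : cb (pt x v b) = b) : mu (pt x v b) = 1 + tau b * v 2 := by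
  rw [mu, zsq_pt hv h hb]
  field_simp
  ring

theorem sph_pt {x v : Eu 3} {b : Bool} (hv : dot v v = 1) (h : 1 + tau b * v 2 ≠ 0)
    (hb : cb (pt x v b) = b) : sph (pt x v b) = v := by
  refine eu3_ext ?_ ?_ ?_
  · rw [sph_zero, mu_pt hv h hb, zc_pt hb, mul_div_cancel₀ _ h]
  · rw [sph_one, mu_pt hv h hb, hb, pt_four, mul_div_cancel₀ _ h, ← mul_assoc, tau_mul_self,
      one_mul]
  · rw [sph_two, mu_pt hv h hb, hb, add_sub_cancel_left, ← mul_assoc, tau_mul_self, one_mul]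

/-- A unit vector that is not too far south is seen in the square b. -/
theorem pt_mem {v : Eu 3} {b : Bool} (x : Eu 3) (hv : dot v v = 1) (h : -3 / 5 ≤ tau b * v 2) :
    cb (pt x v b) = b ∧ zsq (pt x v b) ≤ 4 := by
  have h0 : 0 < 1 + tau b * v 2 := by linarith
  have h1 : (v 0 / (1 + tau b * v 2)) ^ 2 ≤ 2 ^ 2 := by
    rw [div_pow, div_le_iff₀ (pow_pos h0 2)]
    rw [dot] at hv
    have h2 : v 2 * v 2 = (tau b * v 2) ^ 2 := by rw [mul_pow, tau_sq]; ring
    nlinarith [mul_self_nonneg (v 1), mul_nonneg h0.le (show 0 ≤ 3 + 5 * (tau b * v 2) by linarith)]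
  have h2 := abs_le.1 (abs_le_of_sq_le_sq h1 zero_le_two)
  have hb : cb (pt x v b) = b := by
    rw [cb, pt_three]
    generalize v 0 / (1 + tau b * v 2) = t at h2
    cases b <;> simp only [tau, decide_eq_true_eq, decide_eq_false_iff_not, if_true,
      Bool.false_eq_true, if_false] <;> linarith [h2.1, h2.2]
  refine ⟨hb, ?_⟩
  rw [zsq_pt hv h0.ne' hb, div_le_iff₀ h0]
  linarith

theorem pt_mem' {v : Eu 3} {b : Bool} (x : Eu 3) (hv : dot v v = 1) (h : -4 / 5 < tau b * v 2) :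
    cb (pt x v b) = b ∧ zsq (pt x v b) < 9 := by
  have h0 : 0 < 1 + tau b * v 2 := by linarith
  have h1 : (v 0 / (1 + tau b * v 2)) ^ 2 < 3 ^ 2 := by
    rw [div_pow, div_lt_iff₀ (pow_pos h0 2)]
    rw [dot] at hv
    have h2 : v 2 * v 2 = (tau b * v 2) ^ 2 := by rw [mul_pow, tau_sq]; ring
    nlinarith [mul_self_nonneg (v 1), mul_pos h0 (show 0 < 4 + 5 * (tau b * v 2) by linarith)]
  have h2 := abs_lt.1 (abs_lt_of_sq_lt_sq h1 (by norm_num))
  have hb : cb (pt x v b) = b := by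
    rw [cb, pt_three]
    generalize v 0 / (1 + tau b * v 2) = t at h2
    cases b <;> simp only [tau, decide_eq_true_eq, decide_eq_false_iff_not, if_true,
      Bool.false_eq_true, if_false] <;> linarith [h2.1, h2.2]
  refine ⟨hb, ?_⟩
  rw [zsq_pt hv h0.ne' hb, div_lt_iff₀ h0]
  linarith

theorem abs_lt_of_zsq {y : Eu 5} (h : zsq y < 9) : |zc y| < 3 ∧ |y 4| < 3 := by
  rw [zsq] at h
  exact ⟨abs_lt_of_sq_lt_sq (by nlinarith [sq_nonneg (y 4)]) (by norm_num),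
    abs_lt_of_sq_lt_sq (by nlinarith [sq_nonneg (zc y)]) (by norm_num)⟩

theorem tau_decide (t : ℝ) : 0 ≤ tau (decide (0 ≤ t)) * t := by
  by_cases h : 0 ≤ t <;> simp [tau, h]
  linarith

theorem contDiffAt_mu (h : y 3 ≠ 0) : ContDiffAt ℝ ∞ mu y :=
  contDiffAt_const.div (contDiffAt_const.add (contDiffAt_zsq h)) (one_add_zsq_pos y).ne'

theorem contDiffAt_sph (h : y 3 ≠ 0) : ContDiffAt ℝ ∞ sph y := by
  refine contDiffAt_pi.2 fun i => ?_
  fin_cases i
  · exact funext sph_zero ▸ (contDiffAt_mu h).mul (contDiffAt_zc h)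
  · exact funext sph_one ▸
      (contDiffAt_tau h).mul ((contDiffAt_mu h).mul (contDiffAt_apply ℝ ℝ 4 y))
  · exact funext sph_two ▸ (contDiffAt_tau h).mul ((contDiffAt_mu h).sub contDiffAt_const)

theorem contDiffOn_sph : ContDiffOn ℝ ∞ sph (DR c) :=
  fun _ hy => (contDiffAt_sph (ne_of_zc hy.2.1)).contDiffWithinAt

theorem contDiffAt_nv (h : 0 < rsq e y) : ContDiffAt ℝ ∞ (nv e) y := by
  have h1 := (contDiff_rsq e).contDiffAt.sqrt h.ne'
  have h2 := (Real.sqrt_pos.2 h).ne'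
  refine contDiffAt_pi.2 fun i => ?_
  fin_cases i
  · exact ((contDiffAt_apply ℝ ℝ 0 y).sub contDiffAt_const).div h1 h2
  · exact (contDiffAt_apply ℝ ℝ 1 y).div h1 h2
  · exact (contDiffAt_apply ℝ ℝ 2 y).div h1 h2

theorem contDiffOn_nv (e : Ed c) : ContDiffOn ℝ ∞ (nv e) (DR c) :=
  fun _ hy => (contDiffAt_nv (hy.1 e).1).contDiffWithinAt

theorem contDiff_xp : ContDiff ℝ ∞ xp := by
  refine contDiff_pi.2 fun i => ?_
  fin_cases i
  exacts [contDiff_apply ℝ ℝ 0, contDiff_apply ℝ ℝ 1, contDiff_apply ℝ ℝ 2]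

theorem contDiffAt_pt {X V : Eu 5 → Eu 3} {b : Bool} (hX : ContDiffAt ℝ ∞ X y)
    (hV : ContDiffAt ℝ ∞ V y) (h : 1 + tau b * V y 2 ≠ 0) :
    ContDiffAt ℝ ∞ (fun z => pt (X z) (V z) b) y := by
  have h1 := contDiffAt_pi.1 hX
  have h2 := contDiffAt_pi.1 hV
  have h3 : ContDiffAt ℝ ∞ (fun z => 1 + tau b * V z 2) y :=
    contDiffAt_const.add (contDiffAt_const.mul (h2 2))
  refine contDiffAt_pi.2 fun i => ?_
  fin_cases i
  exacts [h1 0, h1 1, h1 2, contDiffAt_const.add ((h2 0).div h3 h),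
    (contDiffAt_const.mul (h2 1)).div h3 h]

/-- The derivative of sph in direction 3. -/
def s3 (y : Eu 5) : Eu 3 :=
  ![mu y - mu y ^ 2 * zc y ^ 2, -(tau (cb y) * (mu y ^ 2 * zc y * y 4)),
    -(tau (cb y) * (mu y ^ 2 * zc y))]

/-- The derivative of sph in direction 4. -/
def s4 (y : Eu 5) : Eu 3 :=
  ![-(mu y ^ 2 * zc y * y 4), tau (cb y) * (mu y - mu y ^ 2 * y 4 ^ 2),
    -(tau (cb y) * (mu y ^ 2 * y 4))]

theorem fderiv_sph (h : y 3 ≠ 0) (v : Eu 5) : fderiv ℝ sph y v = v 3 • s3 y + v 4 • s4 y := by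
  have p : ∀ i : Fin 5, HasFDerivAt (fun x : Eu 5 => x i)
      (ContinuousLinearMap.proj (R := ℝ) (φ := fun _ : Fin 5 => ℝ) i) y := fun i =>
    hasFDerivAt_apply i y
  have ht : HasFDerivAt (fun z => tau (cb z)) (0 : Eu 5 →L[ℝ] ℝ) y :=
    (hasFDerivAt_const (tau (cb y)) y).congr_of_eventuallyEq
      ((eventually_cb h).mono fun _ hz => congrArg tau hz)
  have hz : HasFDerivAt zc _ y := (p 3).sub (ht.const_mul 4)
  have hq : HasFDerivAt (fun z => 1 + zsq z) _ y := ((hz.pow 2).add ((p 4).pow 2)).const_add 1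
  have hm : HasFDerivAt mu _ y :=
    ((hasDerivAt_inv (one_add_zsq_pos y).ne').comp_hasFDerivAt y hq).const_mul 2
  have h0 : HasFDerivAt (fun z => sph z 0) _ y :=
    (hm.mul hz).congr_of_eventuallyEq (.of_forall sph_zero)
  have h1 : HasFDerivAt (fun z => sph z 1) _ y :=
    (ht.mul (hm.mul (p 4))).congr_of_eventuallyEq (.of_forall sph_one)
  have h2 : HasFDerivAt (fun z => sph z 2) _ y :=
    (ht.mul (hm.sub_const 1)).congr_of_eventuallyEq (.of_forall sph_two)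
  have hd := hasFDerivAt_pi'.1 ((contDiffAt_sph h).differentiableAt (by simp)).hasFDerivAt
  have e : ((1 + zsq y) ^ 2)⁻¹ = mu y ^ 2 / 4 := by
    rw [mu]
    field_simp
    norm_num
  refine eu3_ext ((DFunLike.congr_fun ((hd 0).unique h0) v).trans ?_)
    ((DFunLike.congr_fun ((hd 1).unique h1) v).trans ?_)
    ((DFunLike.congr_fun ((hd 2).unique h2) v).trans ?_) <;> simp [s3, s4, e] <;> ring

theorem dot_s33 (y : Eu 5) : dot (s3 y) (s3 y) = mu y ^ 2 := by
  simp only [dot, s3, Matrix.cons_val_zero, Matrix.cons_val_one, Matrix.cons_val]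
  linear_combination (mu y ^ 4 * zc y ^ 2 * (y 4 ^ 2 + 1)) * tau_sq (cb y) +
    mu y ^ 3 * zc y ^ 2 * mu_mul y

theorem dot_s44 (y : Eu 5) : dot (s4 y) (s4 y) = mu y ^ 2 := by
  simp only [dot, s4, Matrix.cons_val_zero, Matrix.cons_val_one, Matrix.cons_val]
  linear_combination ((mu y - mu y ^ 2 * y 4 ^ 2) ^ 2 + mu y ^ 4 * y 4 ^ 2) * tau_sq (cb y) +
    mu y ^ 3 * y 4 ^ 2 * mu_mul y

theorem dot_s34 (y : Eu 5) : dot (s3 y) (s4 y) = 0 := by
  simp only [dot, s3, s4, Matrix.cons_val_zero, Matrix.cons_val_one, Matrix.cons_val]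
  linear_combination (mu y ^ 4 * zc y * y 4 -
    mu y ^ 2 * zc y * y 4 * (mu y - mu y ^ 2 * y 4 ^ 2)) * tau_sq (cb y) +
    mu y ^ 3 * zc y * y 4 * mu_mul y

theorem dot_sph_s3 (y : Eu 5) : dot (sph y) (s3 y) = 0 := by
  simp only [dot, s3, sph_zero, sph_one, sph_two, Matrix.cons_val_zero, Matrix.cons_val_one,
    Matrix.cons_val]
  linear_combination (-(mu y ^ 3 * zc y * y 4 ^ 2) - (mu y - 1) * mu y ^ 2 * zc y) *
    tau_sq (cb y) - mu y ^ 2 * zc y * mu_mul y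

theorem dot_sph_s4 (y : Eu 5) : dot (sph y) (s4 y) = 0 := by
  simp only [dot, s4, sph_zero, sph_one, sph_two, Matrix.cons_val_zero, Matrix.cons_val_one,
    Matrix.cons_val]
  linear_combination (mu y * y 4 * (mu y - mu y ^ 2 * y 4 ^ 2) - (mu y - 1) * mu y ^ 2 * y 4) *
    tau_sq (cb y) - mu y ^ 2 * y 4 * mu_mul y

/-- The cross product of s3 and s4 is mu ^ 2 times sph. -/
theorem det3_s (u : Eu 3) (y : Eu 5) : det3 u (s3 y) (s4 y) = mu y ^ 2 * dot u (sph y) := by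
  simp only [det3, dot, s3, s4, sph_zero, sph_one, sph_two, Matrix.cons_val_zero,
    Matrix.cons_val_one, Matrix.cons_val]
  linear_combination (u 0 * mu y ^ 3 * zc y) * tau_sq (cb y) -
    u 2 * tau (cb y) * mu y ^ 2 * mu_mul y

theorem dot_fderiv_sph (h : y 3 ≠ 0) (v w : Eu 5) :
    dot (fderiv ℝ sph y v) (fderiv ℝ sph y w) = mu y ^ 2 * (v 3 * w 3 + v 4 * w 4) := by
  have h1 := dot_s33 y
  have h2 := dot_s44 y
  have h3 := dot_s34 y
  simp only [fderiv_sph h, dot, Pi.add_apply, Pi.smul_apply, smul_eq_mul] at h1 h2 h3 ⊢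
  linear_combination v 3 * w 3 * h1 + v 4 * w 4 * h2 + (v 3 * w 4 + v 4 * w 3) * h3

theorem det3_fderiv_sph (h : y 3 ≠ 0) (v w : Eu 5) :
    det3 (sph y) (fderiv ℝ sph y v) (fderiv ℝ sph y w) = mu y ^ 2 * (v 3 * w 4 - v 4 * w 3) := by
  have h1 := det3_s (sph y) y
  rw [dot_sph, mul_one] at h1
  simp only [fderiv_sph h, det3, Pi.add_apply, Pi.smul_apply, smul_eq_mul] at h1 ⊢
  linear_combination (v 3 * w 4 - v 4 * w 3) * h1

theorem fderiv_nv (h : 0 < rsq e y) (v : Eu 5) : fderiv ℝ (nv e) y v =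
    (√(rsq e y))⁻¹ • (xp v - dot (nv e y) (xp v) • nv e y) := by
  have p : ∀ i : Fin 5, HasFDerivAt (fun x : Eu 5 => x i)
      (ContinuousLinearMap.proj (R := ℝ) (φ := fun _ : Fin 5 => ℝ) i) y := fun i =>
    hasFDerivAt_apply i y
  have hρ := (Real.sqrt_pos.2 h).ne'
  have hq : HasFDerivAt (rsq e) _ y :=
    ((((p 0).sub_const (ctr e)).pow 2).add ((p 1).pow 2)).add ((p 2).pow 2)
  have hR := (hasDerivAt_inv hρ).comp_hasFDerivAt y (hq.sqrt h.ne')
  have h0 : HasFDerivAt (fun z => nv e z 0) _ y := ((p 0).sub_const (ctr e)).mul hR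
  have h1 : HasFDerivAt (fun z => nv e z 1) _ y := (p 1).mul hR
  have h2 : HasFDerivAt (fun z => nv e z 2) _ y := (p 2).mul hR
  have hd := hasFDerivAt_pi'.1 ((contDiffAt_nv h).differentiableAt (by simp)).hasFDerivAt
  refine eu3_ext ((DFunLike.congr_fun ((hd 0).unique h0) v).trans ?_)
    ((DFunLike.congr_fun ((hd 1).unique h1) v).trans ?_)
    ((DFunLike.congr_fun ((hd 2).unique h2) v).trans ?_) <;>
    simp [xp_zero, xp_one, xp_two, dot, nv_zero, nv_one, nv_two] <;> field_simp <;> ring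

theorem fderiv_sc (h : 0 < rsq e y) (v : Eu 5) :
    fderiv ℝ (sc e) y v = sg e * ((√(rsq e y))⁻¹ * dot (nv e y) (xp v)) := by
  have p : ∀ i : Fin 5, HasFDerivAt (fun x : Eu 5 => x i)
      (ContinuousLinearMap.proj (R := ℝ) (φ := fun _ : Fin 5 => ℝ) i) y := fun i =>
    hasFDerivAt_apply i y
  have hρ := (Real.sqrt_pos.2 h).ne'
  have hq : HasFDerivAt (rsq e) _ y :=
    ((((p 0).sub_const (ctr e)).pow 2).add ((p 1).pow 2)).add ((p 2).pow 2)
  have h3 : HasFDerivAt (sc e) _ y :=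
    (((hq.log h.ne').mul_const (2 : ℝ)⁻¹).sub_const (mid e)).const_mul (sg e)
  rw [h3.fderiv]
  have hs := Real.sq_sqrt h.le
  simp only [xp_zero, xp_one, xp_two, dot, nv_zero, nv_one, nv_two]
  generalize √(rsq e y) = q at hρ hs ⊢
  simp [← hs]
  field_simp

end

end Pool.Agent.Lib.MP_75c153_gt.Ft
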