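import Pool.Agent.Lib.MP_75c153_gt.Ft.Ext

/-! The Hodge star at a point. -/

open MeasureTheory Filter Topology Set
open scoped ContDiff InnerProductSpace

namespace Pool.Agent.Lib.MP_75c153_gt.Ft

open Pool.Agent.Lib.MP_570070_gt.An

variable {c : Par} {k l : ℕ} {y y' : Eu 5}

/-- The form u ↦ det2 h u v. -/
noncomputable def insL {n : ℕ} (h : k + l = n) (v : Fin l → Eu n) : Alt n k where
  toContinuousMultilinearMap :=
    ((detM n).domDomCongr ((Equiv.sumComm _ _).trans (spl h)).symm).currySum v
  map_eq_zero_of_eq' u i j hu hij :=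
    Matrix.det_zero_of_row_eq
      (M := Matrix.of fun i => Sum.elim v u (((Equiv.sumComm _ _).trans (spl h)).symm i))
      (i := spl h (Sum.inl i)) (j := spl h (Sum.inl j))
      (fun e => hij (Sum.inl_injective ((spl h).injective e))) (by
        funext a
        simp [hu])

theorem insL_apply {n : ℕ} (h : k + l = n) (u : Fin k → Eu n) (v : Fin l → Eu n) :
    insL h v u = det2 h u v := by
  change Matrix.det (Matrix.of fun i =>
    Sum.elim v u (((Equiv.sumComm _ _).trans (spl h)).symm i)) = _
  unfold det2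
  congr 2
  funext i
  rw [Equiv.symm_trans_apply]
  rcases (spl h).symm i with a | a <;> rfl

theorem sta_star_apply (h : k + l = 5) (α : Alt 5 k) (v : Fin l → Eu 5) :
    star c h y α v = ((k.factorial : ℝ))⁻¹ * vol c y * ∑ I : Fin k → Fin 5,
      α (fun a => fr c y (I a)) * det2 h (fun a => fr c y (I a)) v := by
  unfold Ft.star
  rw [ContinuousAlternatingMap.smul_apply, ContinuousAlternatingMap.sum_apply, smul_eq_mul]
  refine congrArg (((k.factorial : ℝ))⁻¹ * vol c y * ·) (Finset.sum_congr rfl fun I _ => ?_)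
  rw [ContinuousAlternatingMap.smul_apply, insR_apply, smul_eq_mul]

theorem star_apply (h : k + l = 5) (α : Alt 5 k) (v : Fin l → Eu 5) :
    star c h y α v = vol c y * ipUp c y α (insL h v) := by
  rw [sta_star_apply]
  simp only [ipUp, insL_apply]
  ring

theorem star_add (h : k + l = 5) (α β : Alt 5 k) :
    star c h y (α + β) = star c h y α + star c h y β := by
  ext v
  rw [ContinuousAlternatingMap.add_apply, star_apply, star_apply, star_apply, ipUp_add_left]
  ring
theorem star_smul (h : k + l = 5) (t : ℝ) (α : Alt 5 k) :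
    star c h y (t • α) = t • star c h y α := by
  ext v
  rw [ContinuousAlternatingMap.smul_apply, star_apply, star_apply, ipUp_smul_left, smul_eq_mul]
  ring
theorem star_zero (h : k + l = 5) : star c h y (0 : Alt 5 k) = 0 := by
  ext v
  rw [star_apply, ipUp_zero_left, mul_zero]
  rfl

/-- Matrix.det_mul (the rows are mapped by L). -/
theorem det2_comp {n : ℕ} (h : k + l = n) (L : Eu n →L[ℝ] Eu n) (u : Fin k → Eu n)
    (v : Fin l → Eu n) : det2 h (fun a => L (u a)) (fun a => L (v a)) =
      LinearMap.det (L : Eu n →ₗ[ℝ] Eu n) * det2 h u v := by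
  unfold det2
  have e : (Matrix.of fun i => Sum.elim (fun a => L (u a)) (fun a => L (v a)) ((spl h).symm i)) =
      (Matrix.of fun i => Sum.elim u v ((spl h).symm i)) *
        (LinearMap.toMatrix' (L : Eu n →ₗ[ℝ] Eu n)).transpose := by
    ext i j
    have e1 : ∀ w : Eu n, L w j =
        ∑ a, w a * (LinearMap.toMatrix' (L : Eu n →ₗ[ℝ] Eu n)) j a := fun w => by
      have := congrFun (LinearMap.toMatrix'_mulVec (L : Eu n →ₗ[ℝ] Eu n) w) j
      rw [ContinuousLinearMap.coe_coe] at this
      rw [← this, Matrix.mulVec, dotProduct]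
      exact Finset.sum_congr rfl fun a _ => mul_comm _ _
    rw [Matrix.mul_apply]
    simp only [Matrix.of_apply, Matrix.transpose_apply]
    rw [← e1]
    rcases (spl h).symm i with a | a <;> rfl
  rw [e, Matrix.det_mul, Matrix.det_transpose, LinearMap.det_toMatrix', mul_comm]

/-- The permutation that exchanges the two blocks. -/
def staSwap (h : k + l = 5) (h' : l + k = 5) : Equiv.Perm (Fin 5) :=
  (spl h').symm.trans ((Equiv.sumComm _ _).trans (spl h))

theorem sta_sign_swap (h : k + l = 5) (h' : l + k = 5) : Equiv.Perm.sign (staSwap h h') = 1 := by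
  obtain rfl : l = 5 - k := by omega
  have hk : k ≤ 5 := by omega
  interval_cases k <;> revert h h' <;> decide

/-- The block permutation is even because k l is even: Matrix.det_permute; cases on k ≤ 5 and
decide. -/
theorem det2_swap (h : k + l = 5) (h' : l + k = 5) (u : Fin k → Eu 5) (v : Fin l → Eu 5) :
    det2 h' v u = det2 h u v := by
  have e : (Matrix.of fun i => Sum.elim v u ((spl h').symm i)) =
      (Matrix.of fun i => Sum.elim u v ((spl h).symm i)).submatrix (staSwap h h') id := by
    ext i j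
    simp only [staSwap, Matrix.submatrix_apply, Matrix.of_apply, id, Equiv.trans_apply,
      Equiv.symm_apply_apply]
    rcases (spl h').symm i with a | a <;> rfl
  unfold det2
  rw [e, Matrix.det_permute, sta_sign_swap]
  simp

theorem sta_det2_fr (h : k + l = 5) (I : Fin k → Fin 5) (J : Fin l → Fin 5) :
    det2 h (fun a => fr c y (I a)) (fun a => fr c y (J a)) =
      (∏ a, (ell c y (I a))⁻¹) * (∏ a, (ell c y (J a))⁻¹) *
        det2 h (fun a => bas (I a)) fun a => bas (J a) := by
  rw [← insL_apply, apply_fr, insL_apply, ← insR_apply, apply_fr, insR_apply, mul_assoc]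

theorem sta_inj (h : k + l = 5) {I : Fin k → Fin 5} {J : Fin l → Fin 5}
    (h0 : det2 h (fun a => bas (I a)) (fun a => bas (J a)) ≠ 0) :
    Function.Injective (Sum.elim I J) := by
  intro a b hab
  by_contra hne
  refine h0 (Matrix.det_zero_of_row_eq (i := spl h a) (j := spl h b)
    (fun e => hne ((spl h).injective e)) ?_)
  funext j
  have e : ∀ x, Sum.elim (fun a => (bas (I a) : Eu 5)) (fun a => bas (J a)) x =
      bas (Sum.elim I J x) := fun x => by rcases x with x | x <;> rfl
  simp only [Matrix.of_apply, Equiv.symm_apply_apply, e, hab]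

/-- The determinant of frame vectors. -/
theorem vol_det2_fr (hy : y ∈ DR c) (h : k + l = 5) (I : Fin k → Fin 5) (J : Fin l → Fin 5) :
    vol c y * det2 h (fun a => fr c y (I a)) (fun a => fr c y (J a)) =
      det2 h (fun a => bas (I a)) fun a => bas (J a) := by
  rw [sta_det2_fr]
  by_cases h0 : det2 h (fun a => bas (I a)) (fun a => bas (J a)) = 0
  · simp [h0]
  have hb : Function.Bijective (Sum.elim I J) :=
    (Fintype.bijective_iff_injective_and_card _).2 ⟨sta_inj h h0, by simp [h]⟩
  have e : (∏ a, (ell c y (I a))⁻¹) * (∏ a, (ell c y (J a))⁻¹) = (vol c y)⁻¹ := by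
    rw [← prod_ell, ← Finset.prod_inv_distrib, ← hb.prod_comp fun i => (ell c y i)⁻¹,
      Fintype.prod_sum_type]
    rfl
  rw [e, ← mul_assoc, mul_inv_cancel₀ (vol_pos hy).ne', one_mul]

theorem det2_perm (h : k + l = 5) (σ : Equiv.Perm (Fin 5)) :
    det2 h (fun a => bas (σ (spl h (Sum.inl a)))) (fun a => bas (σ (spl h (Sum.inr a)))) =
      ((Equiv.Perm.sign σ : ℤ) : ℝ) := by
  have e : (Matrix.of fun i => Sum.elim (fun a => (bas (σ (spl h (Sum.inl a))) : Eu 5))
      (fun a => bas (σ (spl h (Sum.inr a)))) ((spl h).symm i)) =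
      (1 : Matrix (Fin 5) (Fin 5) ℝ).submatrix σ id := by
    ext i j
    obtain ⟨x, rfl⟩ := (spl h).surjective i
    simp only [Matrix.submatrix_apply, Matrix.of_apply, Equiv.symm_apply_apply]
    rcases x with x | x <;> simp [bas, Matrix.one_apply, Pi.single_apply, eq_comm]
  unfold det2
  rw [e, Matrix.det_permute, Matrix.det_one, mul_one]

theorem sta_perm (α : Alt 5 k) (u : Fin k → Eu 5) (π : Equiv.Perm (Fin k)) :
    α (fun a => u (π a)) = ((Equiv.Perm.sign π : ℤ) : ℝ) * α u := by
  have := α.toAlternatingMap.map_perm u π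
  rw [Units.smul_def, zsmul_eq_mul] at this
  exact this

theorem sta_sign_sq {m : ℕ} (π : Equiv.Perm (Fin m)) :
    ((Equiv.Perm.sign π : ℤ) : ℝ) * ((Equiv.Perm.sign π : ℤ) : ℝ) = 1 := by
  rw [← Int.cast_mul, ← Units.val_mul, Int.units_mul_self]
  simp

/-- Only the multi-indices I = σ ∘ inl ∘ π with π a permutation of Fin k contribute (otherwise two
arguments of α or two rows of the determinant agree); each contributes the same term
(AlternatingMap.map_perm for α and for insL), and there are k! of them. -/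
theorem star_perm (hy : y ∈ DR c) (h : k + l = 5) (α : Alt 5 k) (σ : Equiv.Perm (Fin 5)) :
    star c h y α (fun a => fr c y (σ (spl h (Sum.inr a)))) =
      ((Equiv.Perm.sign σ : ℤ) : ℝ) * α fun a => fr c y (σ (spl h (Sum.inl a))) := by
  have hinj : Function.Injective fun (π : Equiv.Perm (Fin k)) (a : Fin k) =>
      σ (spl h (Sum.inl (π a))) := fun π π' e => Equiv.ext fun a =>
    Sum.inl_injective ((spl h).injective (σ.injective (congrFun e a)))
  rw [sta_star_apply, mul_assoc, Finset.mul_sum]
  have e1 : ∀ I : Fin k → Fin 5, vol c y * (α (fun a => fr c y (I a)) *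
      det2 h (fun a => fr c y (I a)) fun a => fr c y (σ (spl h (Sum.inr a)))) =
      α (fun a => fr c y (I a)) *
        det2 h (fun a => bas (I a)) fun a => bas (σ (spl h (Sum.inr a))) := fun I => by
    rw [← vol_det2_fr hy h I fun a => σ (spl h (Sum.inr a))]
    ring
  simp only [e1]
  rw [← Fintype.sum_of_injective _ hinj (fun _ => ((Equiv.Perm.sign σ : ℤ) : ℝ) *
    α fun a => fr c y (σ (spl h (Sum.inl a)))) _ ?_ ?_]
  · rw [Finset.sum_const, Finset.card_univ, Fintype.card_perm, Fintype.card_fin, nsmul_eq_mul,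
      ← mul_assoc, inv_mul_cancel₀ (by exact_mod_cast k.factorial_ne_zero), one_mul]
  · intro I hI
    by_contra h0
    have hi := sta_inj h (J := fun a => σ (spl h (Sum.inr a))) (right_ne_zero_of_mul h0)
    have hx : ∀ a, ∃ a', σ (spl h (Sum.inl a')) = I a := fun a => by
      obtain ⟨x, hx⟩ := (σ.surjective.comp (spl h).surjective) (I a)
      rcases x with x | x
      · exact ⟨x, hx⟩
      · exact absurd (hi (a₁ := Sum.inr x) (a₂ := Sum.inl a) hx) Sum.inr_ne_inl
    choose π hπ using hx
    have hp : Function.Injective π := fun a b hab => Sum.inl_injective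
      (hi (a₁ := Sum.inl a) (a₂ := Sum.inl b) (by
        change I a = I b
        rw [← hπ, ← hπ, hab]))
    exact hI ⟨Equiv.ofBijective π (Finite.injective_iff_bijective.1 hp), funext hπ⟩
  · intro π
    rw [sta_perm α (fun a => fr c y (σ (spl h (Sum.inl a)))) π, ← insL_apply,
      sta_perm (insL h _) (fun a => bas (σ (spl h (Sum.inl a)))) π, insL_apply, det2_perm]
    linear_combination (-((Equiv.Perm.sign σ : ℤ) : ℝ) *
      α fun a => fr c y (σ (spl h (Sum.inl a)))) * sta_sign_sq π

/-- comp_ext and apply_fr reduce to injective multi-indices of frame vectors; an injective I is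
σ ∘ inl for a permutation σ (Equiv.Perm.exists_extending_pair); star_perm twice, for h' with the
permutation σ' that exchanges the blocks; the signs agree by det2_perm and det2_swap. -/
theorem star_star (hy : y ∈ DR c) (h : k + l = 5) (h' : l + k = 5) (α : Alt 5 k) :
    star c h' y (star c h y α) = α := by
  refine comp_ext fun I hI => ?_
  have hne : (∏ a, (ell c y (I a))⁻¹) ≠ 0 :=
    Finset.prod_ne_zero_iff.2 fun a _ => inv_ne_zero (ell_pos hy _).ne'
  refine mul_left_cancel₀ hne ?_
  rw [← apply_fr, ← apply_fr]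
  obtain ⟨σ, hσ⟩ := Equiv.Perm.exists_extending_pair
    (f := fun a : Fin k => spl h (Sum.inl a)) (g := I)
    ((spl h).injective.comp Sum.inl_injective) hI
  let σ' : Equiv.Perm (Fin 5) := (staSwap h h').trans σ
  have e1 : ∀ a, σ' (spl h' (Sum.inr a)) = σ (spl h (Sum.inl a)) := fun a => by
    simp [σ', staSwap]
  have e2 : ∀ a, σ' (spl h' (Sum.inl a)) = σ (spl h (Sum.inr a)) := fun a => by
    simp [σ', staSwap]
  have e3 : Equiv.Perm.sign σ' = Equiv.Perm.sign σ := by
    change Equiv.Perm.sign (σ * staSwap h h') = _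
    rw [Equiv.Perm.sign_mul, sta_sign_swap, mul_one]
  have h1 := star_perm hy h' (star c h y α) σ'
  have h2 := star_perm hy h α σ
  simp only [e1, e2, e3, hσ] at h1 h2
  rw [h1, h2, ← mul_assoc, sta_sign_sq, one_mul]

/-- apply_fr and vol_det2_fr (the product of the ell over a permutation is vol). -/
theorem ipUp_star_eq (hy : y ∈ DR c) (h : k + l = 5) (α : Alt 5 k) (γ : Alt 5 l) :
    ipUp c y (star c h y α) γ * vol c y = Bp h α γ := by
  unfold ipUp Bp
  simp only [sta_star_apply]
  rw [Finset.sum_comm]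
  simp only [Finset.mul_sum, Finset.sum_mul]
  refine Finset.sum_congr rfl fun J _ => Finset.sum_congr rfl fun I _ => ?_
  have h1 := vol_det2_fr hy h I J
  have h2 := h1
  rw [sta_det2_fr] at h2
  rw [apply_fr α, apply_fr γ]
  linear_combination ((k.factorial : ℝ)⁻¹ * (l.factorial : ℝ)⁻¹ * (α fun a => bas (I a)) *
      (γ fun a => bas (J a))) * h2 +
    ((k.factorial : ℝ)⁻¹ * (l.factorial : ℝ)⁻¹ * (α fun a => bas (I a)) * (γ fun a => bas (J a)) *
      (∏ a, (ell c y (I a))⁻¹) * (∏ a, (ell c y (J a))⁻¹) * vol c y) * h1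

theorem Bp_swap (h : k + l = 5) (h' : l + k = 5) (α : Alt 5 k) (γ : Alt 5 l) :
    Bp h' γ α = Bp h α γ := by
  unfold Bp
  rw [Finset.sum_comm, mul_comm ((l.factorial : ℝ))⁻¹]
  congr 1
  refine Finset.sum_congr rfl fun I _ => Finset.sum_congr rfl fun J _ => ?_
  rw [det2_swap h h']
  ring

/-- ipUp_star_eq, Bp_swap, star_star. -/
theorem ipUp_star (hy : y ∈ DR c) (h : k + l = 5) (α β : Alt 5 k) :
    ipUp c y (star c h y α) (star c h y β) = ipUp c y α β := by
  have h' : l + k = 5 := by omega
  refine mul_right_cancel₀ (vol_pos hy).ne' ?_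
  rw [ipUp_star_eq hy, ← Bp_swap h h', ← ipUp_star_eq hy, star_star hy, ipUp_comm]

theorem sta_osg_sq (o : Option (Ed c)) : osg o * osg o = 1 := by
  cases o <;> simp [osg]

/-- star_apply, Link.ipUp_lk, det2_comp, Link.det_lk, osg o ^ 2 = 1. -/
theorem Link.star_lk {o : Option (Ed c)} (hl : Link o y y') (h : k + l = 5) (α : Alt 5 k) :
    star c h y (α.compContinuousLinearMap (lk o y y')) =
      osg o • (star c h y' α).compContinuousLinearMap (lk o y y') := by
  ext v
  have e : (insL h (⇑(lk o y y') ∘ v)).compContinuousLinearMap (lk o y y') =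
      LinearMap.det (lk o y y' : Eu 5 →ₗ[ℝ] Eu 5) • insL h v := by
    ext u
    rw [ContinuousAlternatingMap.smul_apply, ContinuousAlternatingMap.compContinuousLinearMap_apply,
      insL_apply, insL_apply, smul_eq_mul]
    exact det2_comp h _ u v
  rw [ContinuousAlternatingMap.smul_apply, ContinuousAlternatingMap.compContinuousLinearMap_apply,
    star_apply, star_apply, ← hl.ipUp_lk α, e, ipUp_smul_right, smul_eq_mul]
  have h1 := hl.det_lk
  have h2 := sta_osg_sq o
  linear_combination (-osg o * ipUp c y (α.compContinuousLinearMap (lk o y y')) (insL h v)) * h1 -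
    (vol c y * ipUp c y (α.compContinuousLinearMap (lk o y y')) (insL h v)) * h2

/-- ext_contDiffAt; apply_fr, the determinant is multilinear in the same way (insL). -/
theorem contDiffOn_star (h : k + l = 5) {α : Eu 5 → Alt 5 k} (hα : ContDiffOn ℝ ∞ α (DR c)) :
    ContDiffOn ℝ ∞ (fun y => star c h y (α y)) (DR c) := by
  intro y hy
  have hn := isOpen_DR.mem_nhds hy
  refine (ext_contDiffAt fun v => ?_).contDiffWithinAt
  simp only [star_apply, ipUp, apply_fr]
  have hp : ∀ I : Fin k → Fin 5, ContDiffAt ℝ ∞ (fun z => ∏ a, (ell c z (I a))⁻¹) y := fun I =>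
    contDiffAt_prod fun a _ => ((contDiffOn_ell (I a)).contDiffAt hn).inv (ell_pos hy _).ne'
  refine (contDiffOn_vol.contDiffAt hn).mul (contDiffAt_const.mul (ContDiffAt.sum fun I _ =>
    ((hp I).mul ?_).mul ((hp I).mul contDiffAt_const)))
  exact (ContinuousAlternatingMap.apply ℝ (Eu 5) ℝ fun a => bas (I a)).contDiff.contDiffAt.comp y
    (hα.contDiffAt hn)

variable {P : Type} {Γ : Gl c P}

/-- IsT.of_link, Link.star_lk, Gl.tau_go. -/
theorem IsT.stF {Ω : Fam P k} (hΩ : IsT Γ Ω) (h : k + l = 5) : IsT Γ (stF Γ h Ω) := by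
  refine IsT.of_link (fun p => (contDiffOn_star h (hΩ.smooth p)).const_smul _)
    (fun p o y y' hl => ?_) (hΩ.fin.subset ?_)
  · simp only [Ft.stF]
    rw [hΩ.link p hl, hl.star_lk, Γ.tau_go, smul_smul, mul_comm]
    ext v
    simp
  · rintro p ⟨y, hy, h1⟩
    refine ⟨y, hy, fun h0 => h1 ?_⟩
    simp only [Ft.stF, h0, star_zero, smul_zero]

theorem stF_stF (h : k + l = 5) (h' : l + k = 5) (Ω : Fam P k) (p : P) (hy : y ∈ DR c) :
    Ft.stF Γ h' (Ft.stF Γ h Ω) p y = Ω p y := by
  simp only [Ft.stF, star_smul, star_star hy, smul_smul, tau_mul_self, one_smul]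

end Pool.Agent.Lib.MP_75c153_gt.Ft
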