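import Pool.Agent.Lib.MP_75c153_gt.Ft.StA
import Pool.Agent.Lib.MP_75c153_gt.Ft.VC

/-! The formula of Stokes in one chart. -/

open MeasureTheory Filter Topology Set
open scoped ContDiff InnerProductSpace

namespace Pool.Agent.Lib.MP_75c153_gt.Ft

open Pool.Agent.Lib.MP_570070_gt.An

variable {c : Par} {k l : ℕ} {y : Eu 5}

theorem Bp_add_left (h : k + l = 5) (α β : Alt 5 k) (γ : Alt 5 l) :
    Bp h (α + β) γ = Bp h α γ + Bp h β γ := by
  simp only [Bp, ContinuousAlternatingMap.add_apply, mul_add, add_mul, Finset.sum_add_distrib]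
theorem Bp_add_right (h : k + l = 5) (α : Alt 5 k) (γ δ : Alt 5 l) :
    Bp h α (γ + δ) = Bp h α γ + Bp h α δ := by
  simp only [Bp, ContinuousAlternatingMap.add_apply, mul_add, Finset.sum_add_distrib]
theorem Bp_smul_left (h : k + l = 5) (t : ℝ) (α : Alt 5 k) (γ : Alt 5 l) :
    Bp h (t • α) γ = t * Bp h α γ := by
  simp only [Bp, ContinuousAlternatingMap.smul_apply, smul_eq_mul, mul_left_comm _ t, mul_assoc,
    ← Finset.mul_sum]
theorem Bp_smul_right (h : k + l = 5) (t : ℝ) (α : Alt 5 k) (γ : Alt 5 l) :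
    Bp h α (t • γ) = t * Bp h α γ := by
  simp only [Bp, ContinuousAlternatingMap.smul_apply, smul_eq_mul, mul_left_comm _ t, mul_assoc,
    ← Finset.mul_sum]

/-- The pairing as a bilinear map. -/
noncomputable def stb_B (h : k + l = 5) : Alt 5 k →ₗ[ℝ] Alt 5 l →ₗ[ℝ] ℝ :=
  LinearMap.mk₂ ℝ (Bp h) (Bp_add_left h) (Bp_smul_left h) (Bp_add_right h) (Bp_smul_right h)

theorem stb_B_apply (h : k + l = 5) (α : Alt 5 k) (γ : Alt 5 l) : stb_B h α γ = Bp h α γ := rfl

/-- Both sides are the sign of insertNth: insL h₁ w (snoc u v) with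
ContinuousAlternatingMap.map_insertNth at Fin.last, and det2 h₁ (snoc u v) w = det2 h₂ u (cons v w)
because the two matrices are equal. -/
theorem det2_cons (h₁ : k + 1 + l = 5) (h₂ : k + (l + 1) = 5) (v : Eu 5) (u : Fin k → Eu 5)
    (w : Fin l → Eu 5) :
    det2 h₁ (Matrix.vecCons v u) w = (-1) ^ k * det2 h₂ u (Matrix.vecCons v w) := by
  have e1 := (insL h₁ w).neg_one_pow_smul_map_insertNth (Fin.last k) v u
  rw [insL_apply, insL_apply] at e1
  have e2 : det2 h₁ (Fin.insertNth (Fin.last k) v u) w = det2 h₂ u (Matrix.vecCons v w) := by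
    rw [det2, det2]
    congr 2
    funext i
    obtain ⟨x, rfl⟩ := (spl h₁).surjective i
    rw [Equiv.symm_apply_apply]
    rcases x with a | a
    · induction a using Fin.lastCases with
      | last =>
        have : spl h₁ (Sum.inl (Fin.last k)) = spl h₂ (Sum.inr 0) := Fin.ext (by simp [spl])
        rw [this, Equiv.symm_apply_apply]
        simp
      | cast a =>
        have : spl h₁ (Sum.inl a.castSucc) = spl h₂ (Sum.inl a) := Fin.ext (by simp [spl])
        rw [this, Equiv.symm_apply_apply]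
        simp
    · have : spl h₁ (Sum.inr a) = spl h₂ (Sum.inr a.succ) := Fin.ext (by simp [spl]; omega)
      rw [this, Equiv.symm_apply_apply]
      simp
  rw [← e1, e2]
  simp

theorem stb_sum (b : Fin 5 → Eu 5) (γ : Alt 5 (k + 1)) (ℓ : Eu 5 →L[ℝ] ℝ) (β : Alt 5 k) :
    ∑ I : Fin (k + 1) → Fin 5, γ (fun a => b (I a)) * wedge ℓ β (fun a => b (I a)) =
      (k + 1) * ∑ i : Fin 5, ∑ J : Fin k → Fin 5, ℓ (b i) *
        (γ (Matrix.vecCons (b i) fun a => b (J a)) * β fun a => b (J a)) := by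
  have h2 : ∀ p : Fin (k + 1), ∑ I : Fin (k + 1) → Fin 5, γ (fun a => b (I a)) *
      ((-1) ^ (p : ℕ) * (ℓ (b (I p)) * β (p.removeNth fun a => b (I a)))) =
      ∑ i : Fin 5, ∑ J : Fin k → Fin 5, ℓ (b i) *
        (γ (Matrix.vecCons (b i) fun a => b (J a)) * β fun a => b (J a)) := by
    intro p
    rw [← (Fin.insertNthEquiv (fun _ => Fin 5) p).sum_comp, Fintype.sum_prod_type]
    refine Finset.sum_congr rfl fun i _ => Finset.sum_congr rfl fun J _ => ?_
    have e : (fun a => b (Fin.insertNthEquiv (fun _ => Fin 5) p (i, J) a)) =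
        Fin.insertNth p (b i) fun a => b (J a) := by
      funext a
      induction a using p.succAboveCases <;> simp [Fin.insertNthEquiv]
    have e' : Fin.insertNthEquiv (fun _ => Fin 5) p (i, J) p = i := by
      simp [Fin.insertNthEquiv]
    rw [e, e', ← γ.neg_one_pow_smul_map_insertNth p, Fin.removeNth_insertNth]
    simp only [zsmul_eq_mul, Int.cast_pow, Int.cast_neg, Int.cast_one]
    ring
  simp only [wedge_apply, Finset.mul_sum (s := Finset.univ (α := Fin (k + 1)))]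
  rw [Finset.sum_comm, Finset.sum_congr rfl fun p _ => h2 p, Finset.sum_const, Finset.card_univ,
    Fintype.card_fin, nsmul_eq_mul, Nat.cast_add, Nat.cast_one]

/-- wedge_apply; for each place a split the multi-index with Fin.insertNthEquiv (as in
ipUp_wedge_le) and use map_insertNth for insL or insR; (k + 1) equal terms cancel a factor of the
factorial. Both sides become 1 / (k! l!) times the sum over i, I, J of
ℓ (bas i) α (bas I) γ (bas J) det2 h₁ (cons i I) J. -/
theorem Bp_wedge (h₁ : k + 1 + l = 5) (h₂ : k + (l + 1) = 5) (ℓ : Eu 5 →L[ℝ] ℝ) (α : Alt 5 k)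
    (γ : Alt 5 l) : Bp h₁ (wedge ℓ α) γ = (-1) ^ k * Bp h₂ α (wedge ℓ γ) := by
  have hk : (k.factorial : ℝ) ≠ 0 := Nat.cast_ne_zero.2 k.factorial_ne_zero
  have hl : (l.factorial : ℝ) ≠ 0 := Nat.cast_ne_zero.2 l.factorial_ne_zero
  have hk1 : (k : ℝ) + 1 ≠ 0 := by positivity
  have hl1 : (l : ℝ) + 1 ≠ 0 := by positivity
  set S : ℝ := ∑ I : Fin k → Fin 5, ∑ J : Fin l → Fin 5, ∑ i : Fin 5, ℓ (bas i) *
    (det2 h₂ (fun a => bas (I a)) (Matrix.vecCons (bas i) fun a => bas (J a)) *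
      (α (fun a => bas (I a)) * γ fun a => bas (J a))) with hS
  have e1 : ∑ I : Fin (k + 1) → Fin 5, ∑ J : Fin l → Fin 5,
      det2 h₁ (fun a => bas (I a)) (fun a => bas (J a)) * wedge ℓ α (fun a => bas (I a)) *
        γ (fun a => bas (J a)) = (k + 1) * ((-1) ^ k * S) := by
    rw [Finset.sum_comm, hS, Finset.sum_comm (γ := Fin k → Fin 5), Finset.mul_sum, Finset.mul_sum]
    refine Finset.sum_congr rfl fun J _ => ?_
    have := stb_sum bas (insL h₁ fun a => bas (J a)) ℓ α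
    simp only [insL_apply, det2_cons h₁ h₂] at this
    rw [← Finset.sum_mul, this, Finset.sum_comm, mul_assoc]
    congr 1
    rw [Finset.sum_mul, Finset.mul_sum]
    refine Finset.sum_congr rfl fun I _ => ?_
    rw [Finset.sum_mul, Finset.mul_sum]
    exact Finset.sum_congr rfl fun i _ => by ring
  have e2 : ∑ I : Fin k → Fin 5, ∑ J : Fin (l + 1) → Fin 5,
      det2 h₂ (fun a => bas (I a)) (fun a => bas (J a)) * α (fun a => bas (I a)) *
        wedge ℓ γ (fun a => bas (J a)) = (l + 1) * S := by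
    rw [hS, Finset.mul_sum]
    refine Finset.sum_congr rfl fun I _ => ?_
    have := stb_sum bas (insR h₂ fun a => bas (I a)) ℓ γ
    simp only [show ∀ u v, insR h₂ u v = det2 h₂ u v from insR_apply h₂] at this
    rw [Finset.sum_congr rfl fun J _ => mul_right_comm _ _ _, ← Finset.sum_mul, this,
      Finset.sum_comm, mul_assoc]
    congr 1
    rw [Finset.sum_mul]
    refine Finset.sum_congr rfl fun J _ => ?_
    rw [Finset.sum_mul]
    exact Finset.sum_congr rfl fun i _ => by ring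
  rw [Bp, Bp, e1, e2, Nat.factorial_succ, Nat.factorial_succ]
  push_cast
  field_simp

/-- ext v; extDeriv is alternatizeUncurryFin of fderiv; expand v i in the basis. -/
theorem extDeriv_eq_sum (α : Eu 5 → Alt 5 k) (y : Eu 5) :
    extDeriv α y = ∑ i, wedge (dx i) (fderiv ℝ α y (bas i)) := by
  ext v
  rw [extDeriv, ContinuousAlternatingMap.alternatizeUncurryFin_apply,
    ContinuousAlternatingMap.sum_apply]
  simp only [wedge_apply]
  rw [Finset.sum_comm]
  refine Finset.sum_congr rfl fun p _ => ?_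
  have e : v p = ∑ i, v p i • (bas i : Eu 5) := by
    funext j
    simp [bas, Pi.single_apply]
  rw [← Finset.mul_sum]
  conv_lhs => rw [e, map_sum, ContinuousAlternatingMap.sum_apply]
  simp [dx]

theorem ContDiffOn.Bp (h : k + l = 5) {α : Eu 5 → Alt 5 k} {γ : Eu 5 → Alt 5 l} {s : Set (Eu 5)}
    (hα : ContDiffOn ℝ ∞ α s) (hγ : ContDiffOn ℝ ∞ γ s) :
    ContDiffOn ℝ ∞ (fun y => Bp h (α y) (γ y)) s := by
  refine contDiffOn_const.mul (ContDiffOn.sum fun I _ => ContDiffOn.sum fun J _ => ?_)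
  exact (contDiffOn_const.mul ((comp_ev _).comp_contDiffOn hα)).mul
    ((comp_ev _).comp_contDiffOn hγ)

/-- The exterior product with a covector as a continuous linear map. -/
noncomputable def stb_W (ℓ : Eu 5 →L[ℝ] ℝ) : Alt 5 k →L[ℝ] Alt 5 (k + 1) :=
  (ContinuousAlternatingMap.alternatizeUncurryFinCLM ℝ (Eu 5) ℝ).comp
    (ContinuousLinearMap.smulRightL ℝ (Eu 5) (Alt 5 k) ℓ)

theorem stb_ev {α : Eu 5 → Alt 5 k} (hα : DifferentiableAt ℝ α y) (v : Fin k → Eu 5) :
    DifferentiableAt ℝ (fun z => α z v) y ∧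
      ∀ i, pd i (fun z => α z v) y = fderiv ℝ α y (bas i) v := by
  have h1 := (ContinuousAlternatingMap.apply ℝ (Eu 5) ℝ v).hasFDerivAt.comp y hα.hasFDerivAt
  exact ⟨h1.differentiableAt, fun i => congrArg (fun L : Eu 5 →L[ℝ] ℝ => L (bas i)) h1.fderiv⟩

theorem stb_pd (h : k + l = 5) (i : Fin 5) {α : Eu 5 → Alt 5 k} {γ : Eu 5 → Alt 5 l}
    (hα : DifferentiableAt ℝ α y) (hγ : DifferentiableAt ℝ γ y) :
    pd i (fun z => Bp h (α z) (γ z)) y =
      Bp h (fderiv ℝ α y (bas i)) (γ y) + Bp h (α y) (fderiv ℝ γ y (bas i)) := by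
  have d : ∀ (a : ℝ) u v, DifferentiableAt ℝ (fun z => a * α z u * γ z v) y := fun a u v =>
    ((stb_ev hα u).1.const_mul a).mul (stb_ev hγ v).1
  simp only [Bp]
  rw [pd_const_mul, pd_sum _ _ fun I _ => DifferentiableAt.fun_sum fun J _ => d _ _ _, ← mul_add,
    ← Finset.sum_add_distrib]
  congr 1
  refine Finset.sum_congr rfl fun I _ => ?_
  rw [pd_sum _ _ fun J _ => d _ _ _, ← Finset.sum_add_distrib]
  refine Finset.sum_congr rfl fun J _ => ?_
  rw [pd_mul i ((stb_ev hα _).1.const_mul _) (stb_ev hγ _).1, pd_const_mul, (stb_ev hα _).2,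
    (stb_ev hγ _).2]

/-- The product rule for the bilinear map (a, g) ↦ Bp h₁ (wedge (dx i) a) g. -/
theorem dvg_Bp (h₁ : k + 1 + l = 5) (h₂ : k + (l + 1) = 5) {α : Eu 5 → Alt 5 k}
    {γ : Eu 5 → Alt 5 l} (hα : DifferentiableAt ℝ α y) (hγ : DifferentiableAt ℝ γ y) :
    dvg (fun z i => Bp h₁ (wedge (dx i) (α z)) (γ z)) y =
      Bp h₁ (extDeriv α y) (γ y) + (-1) ^ k * Bp h₂ (α y) (extDeriv γ y) := by
  have e : ∀ i, pd i (fun z => Bp h₁ (wedge (dx i) (α z)) (γ z)) y =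
      stb_B h₁ (wedge (dx i) (fderiv ℝ α y (bas i))) (γ y) +
        (-1) ^ k * stb_B h₂ (α y) (wedge (dx i) (fderiv ℝ γ y (bas i))) := fun i => by
    have h1 := (stb_W (dx i)).hasFDerivAt.comp y hα.hasFDerivAt
    rw [stb_B_apply, stb_B_apply, ← Bp_wedge h₁ h₂]
    refine (stb_pd h₁ i h1.differentiableAt hγ).trans ?_
    rw [h1.fderiv]
    rfl
  rw [dvg, Finset.sum_congr rfl fun i _ => e i, Finset.sum_add_distrib, ← Finset.mul_sum,
    extDeriv_eq_sum, extDeriv_eq_sum, ← stb_B_apply, ← stb_B_apply, map_sum, map_sum,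
    LinearMap.sum_apply]

/-- The field of dvg_Bp extended by zero is Sm K (sm_indicator); integral_dvg, dvg_congr,
integrableOn_of_supp (extDeriv α also vanishes outside the closed set K). -/
theorem Bp_stokes (h₁ : k + 1 + l = 5) (h₂ : k + (l + 1) = 5) {b : Bool} {K : Set (Eu 5)}
    {α : Eu 5 → Alt 5 k} {γ : Eu 5 → Alt 5 l} (hα : IsQ c b K α)
    (hγ : ContDiffOn ℝ ∞ γ (DRb c b)) :
    ∫ y in DRb c b, Bp h₁ (extDeriv α y) (γ y) =
      (-1) ^ (k + 1) * ∫ y in DRb c b, Bp h₂ (α y) (extDeriv γ y) := by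
  have hU := isOpen_DRb (c := c) b
  have z1 : ∀ {k l : ℕ} (h : k + l = 5) (g : Alt 5 l), Bp h (0 : Alt 5 k) g = 0 := fun h g => by
    simp [← stb_B_apply]
  set V : Eu 5 → Eu 5 := fun z i => Bp h₁ (wedge (dx i) (α z)) (γ z) with hV
  have hVs : ContDiffOn ℝ ∞ V (DRb c b) := contDiffOn_pi.2 fun i =>
    ContDiffOn.Bp h₁ (ContDiffOn.wedge contDiffOn_const hα.smooth) hγ
  have hS : Sm K ((DRb c b).indicator V) := sm_indicator hU hVs hα.isK.cpt hα.isK.sub
    fun y hy h0 => hα.supp y hy fun h1 => h0 (by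
      funext i
      simp only [hV, h1, wedge_zero_right, z1, Pi.zero_apply])
  have h0 := integral_dvg hS hα.isK.cpt
  rw [← integral_eq_on (U := DRb c b)
    (fun y hy => hα.isK.sub ((hS.dvg hα.isK.cpt.isClosed).2 y hy)),
    setIntegral_congr_fun hU.measurableSet (g := fun y => Bp h₁ (extDeriv α y) (γ y) +
      (-1) ^ k * Bp h₂ (α y) (extDeriv γ y)) (fun y hy => by
        rw [dvg_congr (indicator_eventuallyEq V hU hy)]
        exact dvg_Bp h₁ h₂
          ((hα.smooth.contDiffAt (hU.mem_nhds hy)).differentiableAt (by simp))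
          ((hγ.contDiffAt (hU.mem_nhds hy)).differentiableAt (by simp)))] at h0
  have i1 : IntegrableOn (fun y => Bp h₁ (extDeriv α y) (γ y)) (DRb c b) := by
    refine integrableOn_of_supp hU
      (ContDiffOn.Bp h₁ (contDiffOn_extDeriv hU hα.smooth) hγ).continuousOn hα.isK.cpt hα.isK.sub
      fun y hy h1 => ?_
    by_contra hn
    have h2 : α =ᶠ[𝓝 y] fun _ => 0 := by
      filter_upwards [hU.mem_nhds hy, hα.isK.cpt.isClosed.isOpen_compl.mem_nhds hn] with z hz hz'
      by_contra h3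
      exact hz' (hα.supp z hz h3)
    refine h1 ?_
    rw [extDeriv_eq_sum, h2.fderiv_eq]
    simp [wedge_zero_right, z1]
  have i2 : IntegrableOn (fun y => Bp h₂ (α y) (extDeriv γ y)) (DRb c b) :=
    integrableOn_of_supp hU
      (ContDiffOn.Bp h₂ hα.smooth (contDiffOn_extDeriv hU hγ)).continuousOn hα.isK.cpt hα.isK.sub
      fun y hy h1 => hα.supp y hy fun h2 => h1 (by rw [h2, z1])
  rw [integral_add i1 (i2.const_mul _), integral_const_mul] at h0
  rw [pow_succ]
  linarith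

/-- The adjoint of the exterior product: wedge_apply, Fin.insertNthEquiv, map_insertNth. -/
theorem ipUp_wedge (γ : Alt 5 (k + 1)) (ℓ : Eu 5 →L[ℝ] ℝ) (β : Alt 5 k) :
    ipUp c y γ (wedge ℓ β) = ∑ i, ℓ (fr c y i) * ipUp c y (γ.curryLeft (fr c y i)) β := by
  have hk : (k.factorial : ℝ) ≠ 0 := Nat.cast_ne_zero.2 k.factorial_ne_zero
  have hk1 : (k : ℝ) + 1 ≠ 0 := by positivity
  rw [ipUp, stb_sum (fr c y)]
  simp only [ipUp, ContinuousAlternatingMap.curryLeft_apply_apply, ← Finset.mul_sum,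
    mul_left_comm _ ((k.factorial : ℝ))⁻¹]
  rw [Nat.factorial_succ]
  push_cast
  field_simp

/-- The volume form of the base. -/
noncomputable def w3 : Alt 5 3 := wedge (dx 0) (wedge (dx 1) (wedge (dx 2) (f0 1)))

theorem w3_apply (v : Fin 3 → Eu 5) : w3 v = det3 (xp (v 0)) (xp (v 1)) (xp (v 2)) := by
  simp [w3, wedge_apply, Fin.sum_univ_succ, f0_apply, dx, det3, xp, Fin.removeNth, Fin.succAbove]
  ring

theorem stb_dx (γ : Alt 5 (k + 1)) (j : Fin 5) (β : Alt 5 k) :
    ipUp c y γ (wedge (dx j) β) = (ell c y j)⁻¹ * ipUp c y (γ.curryLeft (fr c y j)) β := by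
  rw [ipUp_wedge, Finset.sum_eq_single j (fun i _ hi => by simp [dx, fr, bas, hi.symm]) (by simp)]
  simp [dx, fr, bas]

/-- ipUp_wedge three times. -/
theorem ipUp_w3 (γ : Alt 5 3) :
    ipUp c y γ w3 = (lam c y ^ 3)⁻¹ * γ ![fr c y 0, fr c y 1, fr c y 2] := by
  rw [w3, stb_dx, stb_dx, stb_dx, ipUp_zero_deg]
  simp only [c0, f0_apply, ContinuousAlternatingMap.curryLeft_apply_apply, ell,
    Matrix.cons_val_zero, Matrix.cons_val_one, Matrix.cons_val]
  ring

theorem ipUp_w3_self : ipUp c y w3 w3 = (lam c y ^ 6)⁻¹ := by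
  rw [ipUp_w3, w3_apply]
  simp [det3, xp, fr, bas, ell]
  ring

theorem stb_star (hy : y ∈ DR c) (h : 2 + 3 = 5) (α : Alt 5 2) :
    star c h y α ![fr c y 0, fr c y 1, fr c y 2] = (mu y)⁻¹ * (mu y)⁻¹ * α ![bas 3, bas 4] := by
  obtain ⟨σ, e3, s0, s1, s2, s3, s4⟩ : ∃ σ : Equiv.Perm (Fin 5), Equiv.Perm.sign σ = 1 ∧
      σ 0 = 3 ∧ σ 1 = 4 ∧ σ 2 = 0 ∧ σ 3 = 1 ∧ σ 4 = 2 :=
    ⟨finRotate 5 ^ 3, by rw [map_pow, sign_finRotate]; decide, by decide⟩
  have e1 : ![fr c y 0, fr c y 1, fr c y 2] =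
      fun a : Fin 3 => fr c y (σ (spl h (Sum.inr a))) := by
    funext a
    fin_cases a
    exacts [congrArg (fr c y) s2.symm, congrArg (fr c y) s3.symm, congrArg (fr c y) s4.symm]
  have e2 : ![bas 3, bas 4] = fun a : Fin 2 => (bas (σ (spl h (Sum.inl a))) : Eu 5) := by
    funext a
    fin_cases a
    exacts [congrArg bas s0.symm, congrArg bas s1.symm]
  have e4 : ∏ a, (ell c y (σ (spl h (Sum.inl a))))⁻¹ = (mu y)⁻¹ * (mu y)⁻¹ := by
    rw [Fin.prod_univ_two]
    exact congrArg₂ (fun i j => (ell c y i)⁻¹ * (ell c y j)⁻¹) s0 s1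
  rw [e1, e2, star_perm hy h α σ, apply_fr α, e3, e4]
  simp

/-- ipUp_w3 and star_perm for the even permutation (0 1 2 3 4) ↦ (3 4 0 1 2). -/
theorem ipUp_star_w3 (hy : y ∈ DR c) (α : Alt 5 2) :
    ipUp c y w3 (star c (k := 2) (l := 3) rfl y α) * vol c y = α ![bas 3, bas 4] := by
  have := (lam_pos hy).ne'
  have := (mu_pos y).ne'
  rw [ipUp_comm, ipUp_w3, stb_star hy, vol]
  field_simp

end Pool.Agent.Lib.MP_75c153_gt.Ft
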