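import Pool.Agent.Lib.MP_75c153_gt.Ft.Alpha
import Pool.Agent.Lib.MP_75c153_gt.Ft.StB

/-! The test 2-forms. -/

open MeasureTheory Filter Topology Set
open scoped ContDiff InnerProductSpace

namespace Pool.Agent.Lib.MP_75c153_gt.Ft

open Pool.Agent.Lib.MP_570070_gt.An

variable {c : Par} {P : Type} {Γ : Gl c P} {a : Ed c → Eu 3 → Eu 3} {γ : Eu 3 → ℝ}

/-- The product of two coordinate covectors. -/
noncomputable def tw (i j : Fin 5) : Alt 5 2 := wedge (dx i) (wedge (dx j) (f0 1))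

theorem tw_apply (i j : Fin 5) (v : Fin 2 → Eu 5) :
    tw i j v = v 0 i * v 1 j - v 1 i * v 0 j := by
  simp [tw, wedge_apply, f0_apply, dx, Fin.sum_univ_succ, Fin.removeNth]
  ring

/-- The base part of the test form. -/
noncomputable def ob (Γ : Gl c P) (a : Ed c → Eu 3 → Eu 3) (v : P → ℝ) (p : P) (x : Eu 3) : Eu 3 :=
  ∑ e, (c.ε e * v (Γ.σ e p)) • a e x

/-- The test form of v: v p times the area form of the fibre plus the contractions of the volume
form of the base with the fields a e. -/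
noncomputable def om (Γ : Gl c P) (a : Ed c → Eu 3 → Eu 3) (v : P → ℝ) : Fam P 2 := fun p y =>
  (v p * mu y ^ 2) • tw 3 4 + ob Γ a v p (xp y) 0 • tw 1 2 + ob Γ a v p (xp y) 1 • tw 2 0 +
    ob Γ a v p (xp y) 2 • tw 0 1

theorem om_apply (v : P → ℝ) (p : P) (y : Eu 5) (w : Fin 2 → Eu 5) : om Γ a v p y w =
    v p * (mu y ^ 2 * (w 0 3 * w 1 4 - w 0 4 * w 1 3)) +
      (ob Γ a v p (xp y) 0 * (w 0 1 * w 1 2 - w 0 2 * w 1 1) +
        ob Γ a v p (xp y) 1 * (w 0 2 * w 1 0 - w 0 0 * w 1 2) +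
        ob Γ a v p (xp y) 2 * (w 0 0 * w 1 1 - w 0 1 * w 1 0)) := by
  simp only [om, ContinuousAlternatingMap.add_apply, ContinuousAlternatingMap.smul_apply, tw_apply,
    smul_eq_mul]
  ring

theorem om_add (u v : P → ℝ) : om Γ a (u + v) = om Γ a u + om Γ a v := by
  funext p y
  ext w
  simp only [Pi.add_apply, ContinuousAlternatingMap.add_apply, om_apply, ob, mul_add, add_smul,
    Finset.sum_add_distrib]
  ring

theorem om_smul (t : ℝ) (v : P → ℝ) : om Γ a (t • v) = t • om Γ a v := by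
  funext p y
  ext w
  have h : ob Γ a (t • v) p (xp y) = t • ob Γ a v p (xp y) := by
    simp only [ob, Pi.smul_apply, smul_eq_mul, Finset.smul_sum, smul_smul, mul_left_comm]
  simp only [Pi.smul_apply, ContinuousAlternatingMap.smul_apply, om_apply, h, smul_eq_mul]
  ring

theorem IsAlpha.ob_smooth (h : IsAlpha c a γ) (v : P → ℝ) (p : P) {y : Eu 5} (hy : y ∈ DR c) :
    ContDiffAt ℝ ∞ (ob Γ a v p) (xp y) :=
  ContDiffAt.sum fun e _ => (h.smooth e y hy).const_smul _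

theorem IsAlpha.ob_xp (h : IsAlpha c a γ) (v : P → ℝ) (p : P) {y : Eu 5} (hy : y ∈ DR c)
    (i : Fin 3) : ContDiffAt ℝ ∞ (fun z => ob Γ a v p (xp z) i) y :=
  contDiffAt_pi.1 ((h.ob_smooth v p hy).comp y contDiff_xp.contDiffAt) i

theorem IsAlpha.ob_collar (h : IsAlpha c a γ) (v : P → ℝ) (p : P) {e : Ed c} {y : Eu 5}
    (hy : y ∈ DR c) (he : sc e y < 1) : ob Γ a v p (xp y) =
      (c.ε e * v (Γ.σ e p)) • (√(rsq e y) ^ 3)⁻¹ • ![y 0 - ctr e, y 1, y 2] := by
  obtain ⟨h1, h2⟩ := h.collar e y hy he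
  rw [ob, Finset.sum_eq_single e (fun e' _ hne => by rw [h2 e' hne, smul_zero])
    (fun h3 => absurd (Finset.mem_univ e) h3), h1]

theorem IsAlpha.isT_om [Finite P] (h : IsAlpha c a γ) (v : P → ℝ) : IsT Γ (om Γ a v) := by
  refine ⟨fun p y hy => ?_, fun p y y' hf => ?_, fun p e y y' hf => ?_, Set.toFinite _⟩
  · exact (((((contDiffAt_const.mul ((contDiffAt_mu (ne_of_zc hy.2.1)).pow 2)).smul
      contDiffAt_const).add ((h.ob_xp v p hy 0).smul contDiffAt_const)).add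
      ((h.ob_xp v p hy 1).smul contDiffAt_const)).add
      ((h.ob_xp v p hy 2).smul contDiffAt_const)).contDiffWithinAt
  · ext w
    simp only [ContinuousAlternatingMap.compContinuousLinearMap_apply, om_apply,
      Function.comp_apply, hf.area, hf.iv_zero, hf.iv_one, hf.iv_two, hf.xp_eq]
  · ext w
    have h1 := hf.symm.area (fl e y y' (w 0)) (fl e y y' (w 1))
    have h2 : ∀ u, fl e y' y (fl e y y' u) = u := fun u => DFunLike.congr_fun hf.fl_comp u
    rw [h2, h2] at h1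
    simp only [ContinuousAlternatingMap.compContinuousLinearMap_apply, om_apply,
      Function.comp_apply, hf.area, h.ob_collar v p hf.1 hf.sc_lt,
      h.ob_collar v _ hf.2.1 hf.symm.sc_lt, Γ.invol, h1, Pi.smul_apply, smul_eq_mul,
      Matrix.cons_val_zero, Matrix.cons_val_one, Matrix.cons_val]
    ring

theorem tf_wedge (ℓ : Eu 5 →L[ℝ] ℝ) (i j : Fin 5) (v : Fin 3 → Eu 5) : wedge ℓ (tw i j) v =
    ℓ (v 0) * (v 1 i * v 2 j - v 2 i * v 1 j) - ℓ (v 1) * (v 0 i * v 2 j - v 2 i * v 0 j) +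
      ℓ (v 2) * (v 0 i * v 1 j - v 1 i * v 0 j) := by
  simp [wedge_apply, tw_apply, Fin.sum_univ_succ, Fin.removeNth, Fin.succAbove]
  ring

theorem tf_d {w : Eu 5 → ℝ} {y : Eu 5} (hw : DifferentiableAt ℝ w y) (i j : Fin 5) :
    extDeriv (fun z => w z • tw i j) y = wedge (fderiv ℝ w y) (tw i j) := by
  rw [extDeriv_fun_smul' hw (differentiableAt_const _), extDeriv, fderiv_fun_const, Pi.zero_apply,
    ← ContinuousAlternatingMap.alternatizeUncurryFinCLM_apply, map_zero, smul_zero, zero_add]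

theorem tf_mu {y : Eu 5} (hy : y ∈ DR c) (t : ℝ) : ∃ s r : ℝ, ∀ v,
    fderiv ℝ (fun z => t * mu z ^ 2) y v = s * v 3 + r * v 4 := by
  have h0 : ∀ i : Fin 5, HasFDerivAt (fun y : Eu 5 => y i)
      (ContinuousLinearMap.proj (R := ℝ) (φ := fun _ : Fin 5 => ℝ) i) y := fun i =>
    hasFDerivAt_apply i y
  have h1 : (fun z => t * mu z ^ 2) =ᶠ[𝓝 y] (fun q => t * (2 / (1 + q)) ^ 2) ∘
      fun z => (z 3 - 4 * tau (cb y)) ^ 2 + z 4 ^ 2 := by
    filter_upwards [cb_eventually hy] with z hz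
    rw [← hz]
    rfl
  have h2 : DifferentiableAt ℝ (fun q => t * (2 / (1 + q)) ^ 2) (zsq y) := by
    have := (one_add_zsq_pos y).ne'
    fun_prop (disch := assumption)
  have h3 := h2.hasDerivAt.comp_hasFDerivAt
    (f := fun z : Eu 5 => (z 3 - 4 * tau (cb y)) ^ 2 + z 4 ^ 2) y
    ((((h0 3).sub_const (4 * tau (cb y))).pow 2).fun_add ((h0 4).pow 2))
  rw [h1.fderiv_eq]
  exact ⟨_, _, fun v => (DFunLike.congr_fun h3.fderiv v).trans (by
    simp only [smul_apply, add_apply, ContinuousLinearMap.proj_apply, smul_eq_mul, nsmul_eq_mul,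
      mul_add, ← mul_assoc]
    rfl)⟩

theorem tf_xp {F : Eu 3 → ℝ} {y : Eu 5} (hF : DifferentiableAt ℝ F (xp y)) (v : Eu 5) :
    fderiv ℝ (fun z => F (xp z)) y v =
      pd 0 F (xp y) * v 0 + pd 1 F (xp y) * v 1 + pd 2 F (xp y) * v 2 := by
  let L : Eu 5 →L[ℝ] Eu 3 := ContinuousLinearMap.pi ![.proj 0, .proj 1, .proj 2]
  have h1 : xp = L := funext fun z => eu3_ext rfl rfl rfl
  have h2 : HasFDerivAt xp L y := h1 ▸ L.hasFDerivAt
  have h3 : L v = v 0 • bas 0 + v 1 • bas 1 + v 2 • bas 2 :=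
    eu3_ext (by simp [L, bas]) (by simp [L, bas]) (by simp [L, bas])
  refine (DFunLike.congr_fun (hF.hasFDerivAt.comp y h2).fderiv v).trans ?_
  simp only [ContinuousLinearMap.comp_apply, h3, map_add, map_smul, smul_eq_mul, pd]
  ring

theorem IsAlpha.dvg_ob (h : IsAlpha c a γ) (v : P → ℝ) (p : P) {y : Eu 5} (hy : y ∈ DR c) :
    dvg (ob Γ a v p) (xp y) = -(ahat Γ v p * γ (xp y)) := by
  have h1 : ∀ i, pd i (fun x => ob Γ a v p x i) (xp y) =
      ∑ e, c.ε e * v (Γ.σ e p) * pd i (fun x => a e x i) (xp y) := fun i => by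
    simp only [ob, Finset.sum_apply, Pi.smul_apply, smul_eq_mul]
    rw [pd_sum _ i fun e _ => (differentiableAt_pi.1
      ((h.smooth e y hy).differentiableAt (by simp)) i).const_mul _]
    simp only [pd_const_mul]
  simp only [dvg, h1]
  rw [Finset.sum_comm, ahat, Finset.sum_mul, ← Finset.sum_neg_distrib]
  refine Finset.sum_congr rfl fun e _ => ?_
  rw [← Finset.mul_sum]
  refine (congrArg _ (h.div e y hy)).trans ?_
  ring

theorem IsAlpha.dF_om (h : IsAlpha c a γ) (v : P → ℝ) (p : P) {y : Eu 5} (hy : y ∈ DR c) :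
    dF (om Γ a v) p y = -(ahat Γ v p * γ (xp y)) • w3 := by
  have h0 : DifferentiableAt ℝ (fun z => v p * mu z ^ 2) y :=
    (contDiffAt_const.mul ((contDiffAt_mu (ne_of_zc hy.2.1)).pow 2)).differentiableAt (by simp)
  have h1 := fun i => (h.ob_xp (Γ := Γ) v p hy i).differentiableAt (by simp)
  have h2 := fun i => tf_xp (differentiableAt_pi.1
    ((h.ob_smooth (Γ := Γ) v p hy).differentiableAt (by simp)) i)
  obtain ⟨s, r, h3⟩ := tf_mu hy (v p)
  have h4 := h.dvg_ob (Γ := Γ) v p hy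
  rw [dvg, Fin.sum_univ_three] at h4
  have k0 := h0.smul_const (tw 3 4)
  have k1 := (h1 0).smul_const (tw 1 2)
  have k2 := (h1 1).smul_const (tw 2 0)
  have k3 := (h1 2).smul_const (tw 0 1)
  change extDeriv (fun z => _ + _ + _ + _) y = _ • wedge (dx 0) (tw 1 2)
  rw [extDeriv_fun_add ((k0.fun_add k1).fun_add k2) k3, extDeriv_fun_add (k0.fun_add k1) k2,
    extDeriv_fun_add k0 k1, tf_d h0, tf_d (h1 0), tf_d (h1 1), tf_d (h1 2), ← h4]
  ext w
  simp only [ContinuousAlternatingMap.add_apply, ContinuousAlternatingMap.smul_apply, tf_wedge, h2,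
    h3, dx, ContinuousLinearMap.proj_apply, smul_eq_mul]
  ring

theorem IsAlpha.integral_pos (h : IsAlpha c a γ) :
    0 < ∫ y in DR c, wg c y * γ (xp y) * mu y ^ 2 := by
  have h1 : ContinuousOn (fun y => wg c y * γ (xp y) * mu y ^ 2) (DR c) :=
    (contDiffOn_wg.continuousOn.mul (h.cont.comp contDiff_xp.continuous).continuousOn).mul
      (contDiffOn_mu.continuousOn.pow 2)
  rw [setIntegral_pos_iff_support_of_nonneg_ae ((ae_restrict_iff' isOpen_DR.measurableSet).2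
    (ae_of_all _ fun y hy => mul_nonneg (mul_nonneg (wg_nonneg hy) (h.nonneg _)) (sq_nonneg _)))
    (integrableOn_of_supp isOpen_DR h1 (isCompact_Kc (a := -1 / 2) (by norm_num)) (fun _ h => h.1)
      fun _ hy h => mem_Kc_of_wg hy (left_ne_zero_of_mul (left_ne_zero_of_mul h)))]
  obtain ⟨y, hy, h2, h3⟩ := h.pos
  refine ((h1.isOpen_inter_preimage isOpen_DR isOpen_Ioi).measure_pos volume
    ⟨y, hy, mul_pos (mul_pos ?_ h3) (pow_pos (mu_pos y) 2)⟩).trans_le
      (measure_mono fun z hz => ⟨ne_of_gt hz.2, hz.1⟩)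
  rw [wg, eta_eq_one fun e => by linarith [h.supp y h3.ne' e], one_mul]
  exact rho_pos h2

theorem IsAlpha.inner_d_star [Fintype P] (h : IsAlpha c a γ) (U : UpL2 Γ) (u v : P → ℝ) :
    ⟪U.j 3 (dF (om Γ a v)), U.j 3 (stF Γ (k := 2) (l := 3) rfl (om Γ a u))⟫_ℝ =
      -((∫ y in DR c, wg c y * γ (xp y) * mu y ^ 2) *
        ∑ p, ahat Γ v p * (tau (Γ.side p) * u p)) := by
  rw [U.inner_intF (h.isT_om v).dF ((h.isT_om u).stF _),
    intF_eq_sum Finset.univ fun p _ => Finset.mem_univ p, Finset.mul_sum, ← Finset.sum_neg_distrib]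
  refine Finset.sum_congr rfl fun p _ => ?_
  rw [← integral_mul_const, ← integral_neg]
  refine setIntegral_congr_fun isOpen_DR.measurableSet fun y hy => ?_
  have h1 := ipUp_star_w3 hy (om Γ a u p y)
  rw [om_apply] at h1
  simp only [h.dF_om v p hy, stF, ipUp_smul_left, ipUp_smul_right]
  simp [bas] at h1
  linear_combination (-(wg c y * ahat Γ v p * γ (xp y) * tau (Γ.side p))) * h1

theorem IsAlpha.norm_d [Fintype P] (h : IsAlpha c a γ) (U : UpL2 Γ) (v : P → ℝ) :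
    ‖U.j 3 (dF (om Γ a v))‖ ^ 2 =
      (∫ y in DR c, wg c y * (γ (xp y) ^ 2 * (lam c y ^ 6)⁻¹) * vol c y) *
        ∑ p, ahat Γ v p ^ 2 := by
  rw [U.norm_sq_intF (h.isT_om v).dF,
    intF_eq_sum Finset.univ fun p _ => Finset.mem_univ p, Finset.mul_sum]
  refine Finset.sum_congr rfl fun p _ => ?_
  rw [← integral_mul_const]
  refine setIntegral_congr_fun isOpen_DR.measurableSet fun y hy => ?_
  simp only [h.dF_om v p hy, ipUp_smul_left, ipUp_smul_right, ipUp_w3_self]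
  ring

end Pool.Agent.Lib.MP_75c153_gt.Ft
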