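import Pool.Agent.Lib.MP_75c153_gt.Ft.Poin
import Pool.Agent.Lib.MP_75c153_gt.Ft.H1
import Pool.Agent.Lib.MP_75c153_gt.Ft.MT
import Pool.Agent.Lib.MP_75c153_gt.Ft.Sym
import Pool.Agent.Lib.MP_75c153_gt.Ft.Spec
import Pool.Agent.Lib.MP_570070_gt.An.Clus

/-! Uniform decay of the heat trace in degree one. -/

open MeasureTheory Filter Topology Set
open scoped ContDiff InnerProductSpace

namespace Pool.Agent.Lib.MP_75c153_gt.Ft

open Pool.Agent.Lib.MP_570070_gt.An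

variable {c : Par} {P : Type} {Γ : Gl c P}

theorem UpL2.D_add (U : UpL2 Γ) (k : ℕ) (a : U.H k) (b : U.H (k + 1)) (a' : U.H k)
    (b' : U.H (k + 1)) (h : U.D k a b) (h' : U.D k a' b') : U.D k (a + a') (b + b') := by
  obtain ⟨Ω, h1, rfl, rfl⟩ := h
  obtain ⟨Ω', h2, rfl, rfl⟩ := h'
  exact ⟨Ω + Ω', h1.add h2, (U.j_add h1 h2).symm, (U.j_dF_add h1 h2).symm⟩

theorem UpL2.D_smul (U : UpL2 Γ) (k : ℕ) (t : ℝ) (a : U.H k) (b : U.H (k + 1)) (h : U.D k a b) :
    U.D k (t • a) (t • b) := by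
  obtain ⟨Ω, h1, rfl, rfl⟩ := h
  refine ⟨t • Ω, h1.smul t, (U.j_smul h1 t).symm, ?_⟩
  rw [← U.j_smul h1.dF]
  exact congrArg _ (funext₂ fun p y => (extDeriv_smul t (Ω p)).symm)

theorem UpL2.D_zero (U : UpL2 Γ) (k : ℕ) : U.D k 0 0 := by
  have h := U.D_smul k 0 _ _ (U.D_j IsT.zero)
  rwa [zero_smul, zero_smul] at h

theorem UpL2.D_chi (U : UpL2 Γ) (s : Finset P) : ∃ b, U.D 0 (∑ p ∈ s, U.chi p) b :=
  Finset.sum_induction U.chi (fun a => ∃ b, U.D 0 a b)
    (fun _ _ ⟨_, h⟩ ⟨_, h'⟩ => ⟨_, U.D_add 0 _ _ _ _ h h'⟩) ⟨0, U.D_zero 0⟩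
    fun p _ => ⟨_, U.D_j (isT_chi p)⟩

theorem tail_one_grp (c : Par) (B : ℝ) : ∃ C : ℝ, ∀ {Q : Type} [Group Q] [Fintype Q]
    (g : Ed c → Q), g none = 1 → Subgroup.closure (range g) = ⊤ → ∀ (U : UpL2 (grpGl c g))
    {Pt : ℝ → U.H 1 →L[ℝ] U.H 1}, IsHeat (dom U.D 1) Pt →
    (∀ t, 0 < t → trOn (U.on 1 (base Q)) (Pt t) ≠ ⊤) →
    (trOn (U.on 1 (base Q)) (Pt 2)).toReal ≤ B →
    ∀ b, Tendsto (fun t => (trOn (U.on 1 (base Q)) (Pt t)).toReal) atTop (𝓝 b) →
      ∀ t : ℝ, 4 ≤ t → (trOn (U.on 1 (base Q)) (Pt t)).toReal - b ≤ C * t ^ (-(1 / 4 : ℝ)) := by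
  classical
  obtain ⟨C₀, hC₀, H⟩ := exists_poin c
  obtain ⟨C₁, hC₁, H₁⟩ := exists_h1 c
  obtain ⟨C, hC⟩ := tail_zero_numeric ((C₀ + C₁) * max B 0) (Fintype.card (Ed c)) (by positivity)
    (Nat.cast_nonneg _)
  refine ⟨C, fun {Q} _ _ g h1 hg U Pt hP hf hB b hb => ?_⟩
  obtain ⟨𝒯⟩ := exists_tiling c g U hP
  have hS := U.coe_onS 1 (base Q)
  rw [← hS] at hf hB hb ⊢
  have conn := grpGl_conn c g h1 hg
  have hd : (1 : ℝ) ≤ Fintype.card Q := Nat.one_le_cast.2 Fintype.card_pos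
  have hc : Fintype.card (Q × Bool) = 2 * Fintype.card Q := by
    rw [Fintype.card_prod, Fintype.card_bool, mul_comm]
  have key : ∀ (cl : Q × Bool → Q × Bool) (Λ : ℕ), 1 ≤ Λ →
      (∀ x, (Finset.univ.filter fun p => cl p = x).card ≤ Λ) →
      (∀ p, Relation.ReflTransGen (fun a b => cl a = cl p ∧ cl b = cl p ∧
        ∃ e, (grpGl c g).σ e a = b) p (cl p)) → ∀ v η, U.D 0 v η →
      (∀ x, ⟪∑ p ∈ Finset.univ.filter fun p => cl p = x, U.chi p, v⟫_ℝ = 0) →
      ‖v‖ ^ 2 ≤ C₀ * (Λ : ℝ) ^ 2 * ‖η‖ ^ 2 := fun cl Λ a1 a2 a3 v η hv a4 => by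
    have a5 := H _ U cl Λ a1 a2 a3 v η (U.WD_of_D hv) v a4
    rw [real_inner_self_eq_norm_sq] at a5
    rcases (sq_nonneg ‖v‖).eq_or_lt with h0 | h0
    · rw [← h0]
      positivity
    · exact le_of_mul_le_mul_right (by rwa [← sq]) h0
  have bd : ∀ (x τ : ℝ), 1 ≤ x → 0 < τ → (C₀ * x ^ 2 + C₁) *
      (trOn (U.onS 1 (base Q) : Set (U.H 1)) (Pt 2)).toReal / τ ≤
        x ^ 2 * ((C₀ + C₁) * max B 0) / τ := fun x τ hx hτ => by
    refine div_le_div_of_nonneg_right ((mul_le_mul_of_nonneg_left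
      (hB.trans (le_max_left B 0)) (by positivity)).trans ?_) hτ.le
    rw [← mul_assoc]
    refine mul_le_mul_of_nonneg_right ?_ (le_max_right _ _)
    nlinarith [mul_le_mul_of_nonneg_left (one_le_pow₀ (n := 2) hx) hC₁]
  obtain ⟨-, r2⟩ := hC (fun t => (trOn (U.onS 1 (base Q) : Set (U.H 1)) (Pt t)).toReal - b) _ hd
    fun L hL τ hτ => by
      obtain ⟨cl, a1, a2, a3⟩ := exists_cluster (grpGl c g).σ (grpGl c g).invol conn hL
      choose β hβ using fun x : (Finset.univ.image cl) =>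
        U.D_chi (Finset.univ.filter fun p => cl p = x)
      have a4 := (tail_deg_one U.D_add U.D_smul U.D_zero (fun _ _ h => U.dd h) hβ
        (a₀ := C₀ * ((Fintype.card (Ed c) * L + 1 : ℕ) : ℝ) ^ 2) (by positivity) hC₁
        (fun v η hv h0 => key cl _ (Nat.le_add_left _ _) a2 a3 v η hv fun x => by
          by_cases hx : x ∈ Finset.univ.image cl
          · exact h0 ⟨x, hx⟩
          · rw [Finset.filter_false_of_mem fun p _ h =>
              hx (Finset.mem_image.2 ⟨p, Finset.mem_univ p, h⟩), Finset.sum_empty, inner_zero_left])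
        (H₁ _ U) hP 𝒯 hf hb hτ).1
      rw [Fintype.card_coe] at a4
      rw [hc] at a1
      push_cast at a1 a4
      have a5 : (0 : ℝ) ≤ 2 * Fintype.card Q / L + 1 := by positivity
      exact a4.trans (add_le_add (div_le_div_of_nonneg_right (by linarith) (by linarith))
        (bd _ τ (le_add_of_nonneg_left (by positivity)) hτ))
  have r3 := r2 0 le_rfl fun τ hτ => by
    have a4 := (tail_deg_one U.D_add U.D_smul U.D_zero (fun _ _ h => U.dd h)
      (κ := Unit) (χ := fun _ => U.one) (β := fun _ => 0) (fun _ => U.D_one)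
      (a₀ := C₀ * ((2 * Fintype.card Q : ℕ) : ℝ) ^ 2) (by positivity) hC₁
      (fun v η hv h0 => key (fun _ => (1, true)) _
        (by have := Fintype.card_pos (α := Q); omega)
        (fun x => (Finset.card_le_univ _).trans hc.le)
        (fun p => by simpa only [true_and] using conn p (1, true))
        v η hv fun x => by
          by_cases hx : (1, true) = x
          · rw [Finset.filter_true_of_mem fun _ _ => hx]
            simp only [U.chi_eq]
            rw [U.sum_m]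
            exact h0 ()
          · rw [Finset.filter_false_of_mem fun _ _ => hx, Finset.sum_empty, inner_zero_left])
      (H₁ _ U) hP 𝒯 hf hb hτ).2 fun _ => rfl
    push_cast at a4
    rw [sub_zero]
    exact a4.trans (bd _ τ (by linarith) hτ)
  simpa only [sub_zero] using r3

end Pool.Agent.Lib.MP_75c153_gt.Ft
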