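import Pool.Agent.Lib.MP_75c153_gt.Ft.Comp
import Pool.Agent.Lib.MP_75c153_gt.Ft.FlipB

open MeasureTheory Filter Topology Set
open scoped ContDiff InnerProductSpace

namespace Pool.Agent.Lib.MP_75c153_gt.Ft

open Pool.Agent.Lib.MP_570070_gt.An

variable {c : Par} {P P' : Type} {Γ : Gl c P} {Γ' : Gl c P'} {k : ℕ} {Ω Ω' : Fam P k}

theorem IsT.link (h : IsT Γ Ω) (p : P) {o : Option (Ed c)} {y y' : Eu 5} (hl : Link o y y') :
    Ω p y = (Ω (Γ.go o p) y').compContinuousLinearMap (lk o y y') := by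
  cases o
  exacts [h.same p y y' hl, h.flip p _ y y' hl]

theorem IsT.of_link (h1 : ∀ p, ContDiffOn ℝ ∞ (Ω p) (DR c))
    (h2 : ∀ p (o : Option (Ed c)) y y', Link o y y' →
      Ω p y = (Ω (Γ.go o p) y').compContinuousLinearMap (lk o y y'))
    (h3 : {p | ∃ y ∈ DR c, Ω p y ≠ 0}.Finite) : IsT Γ Ω :=
  ⟨h1, fun p y y' h => h2 p none y y' h, fun p e y y' h => h2 p (some e) y y' h, h3⟩

theorem IsFn.link {w : Fn P} (h : IsFn Γ w) (p : P) {o : Option (Ed c)} {y y' : Eu 5}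
    (hl : Link o y y') : w p y = w (Γ.go o p) y' := by
  cases o
  exacts [h.same p y y' hl, h.flip p _ y y' hl]

theorem IsT.zero : IsT Γ (0 : Fam P k) where
  smooth _ := contDiffOn_const
  same _ _ _ _ := by
    ext v
    simp
  flip _ _ _ _ _ := by
    ext v
    simp
  fin := by simp
theorem IsT.add (h : IsT Γ Ω) (h' : IsT Γ Ω') : IsT Γ (Ω + Ω') where
  smooth p := (h.smooth p).add (h'.smooth p)
  same p y y' hf := by
    simp only [Pi.add_apply]
    rw [h.same p y y' hf, h'.same p y y' hf]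
    ext v
    simp
  flip p e y y' hf := by
    simp only [Pi.add_apply]
    rw [h.flip p e y y' hf, h'.flip p e y y' hf]
    ext v
    simp
  fin := by
    refine (h.fin.union h'.fin).subset ?_
    rintro p ⟨y, hy, hne⟩
    by_contra hc
    simp only [mem_union, mem_ofPred_eq, not_or, not_exists, not_and, not_not] at hc
    exact hne (by simp only [Pi.add_apply, hc.1 y hy, hc.2 y hy, add_zero])
theorem IsT.smul (h : IsT Γ Ω) (t : ℝ) : IsT Γ (t • Ω) where
  smooth p := (h.smooth p).const_smul t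
  same p y y' hf := by
    simp only [Pi.smul_apply]
    rw [h.same p y y' hf]
    ext v
    simp
  flip p e y y' hf := by
    simp only [Pi.smul_apply]
    rw [h.flip p e y y' hf]
    ext v
    simp
  fin := by
    refine h.fin.subset ?_
    rintro p ⟨y, hy, hne⟩
    refine ⟨y, hy, fun h0 => hne ?_⟩
    simp only [Pi.smul_apply, h0, smul_zero]
theorem IsT.sub (h : IsT Γ Ω) (h' : IsT Γ Ω') : IsT Γ (Ω - Ω') := by
  have e : Ω - Ω' = Ω + (-1 : ℝ) • Ω' := by
    funext p y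
    ext v
    simp [sub_eq_add_neg]
  rw [e]
  exact h.add (h'.smul (-1))
theorem IsT.sum {ι : Type} (s : Finset ι) {F : ι → Fam P k} (h : ∀ i ∈ s, IsT Γ (F i)) :
    IsT Γ (∑ i ∈ s, F i) :=
  Finset.sum_induction F (IsT Γ) (fun _ _ => IsT.add) IsT.zero h
theorem IsT.congr (h : IsT Γ Ω) (he : ∀ p, ∀ y ∈ DR c, Ω' p y = Ω p y) : IsT Γ Ω' where
  smooth p := (h.smooth p).congr (he p)
  same p y y' hf := by rw [he p y hf.1, he _ y' hf.2.1, h.same p y y' hf]
  flip p e y y' hf := by rw [he p y hf.1, he _ y' hf.2.1, h.flip p e y y' hf]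
  fin := by
    refine h.fin.subset ?_
    rintro p ⟨y, hy, hne⟩
    exact ⟨y, hy, by rwa [← he p y hy]⟩

theorem IsT.differentiableAt (h : IsT Γ Ω) (p : P) {y : Eu 5} (hy : y ∈ DR c) :
    DifferentiableAt ℝ (Ω p) y :=
  ((h.smooth p).contDiffAt (isOpen_DR.mem_nhds hy)).differentiableAt (by simp)

theorem dF_congr (he : ∀ p, ∀ y ∈ DR c, Ω' p y = Ω p y) (p : P) {y : Eu 5} (hy : y ∈ DR c) :
    dF Ω' p y = dF Ω p y := by
  refine Filter.EventuallyEq.extDeriv_eq ?_
  filter_upwards [isOpen_DR.mem_nhds hy] with z hz using he p z hz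

theorem ualg_min : minSmoothness ℝ 2 ≤ ∞ := by
  rw [minSmoothness_of_isRCLikeNormedField]
  exact WithTop.coe_le_coe.2 le_top

/-- Flip.exists_local and extDeriv_pullback. -/
theorem IsT.dF (h : IsT Γ Ω) : IsT Γ (dF Ω) where
  smooth p := contDiffOn_extDeriv isOpen_DR (h.smooth p)
  same p y y' hf := by
    obtain ⟨τ, rfl, hτ, hev⟩ := hf.exists_local
    have e1 : Ω p =ᶠ[𝓝 y]
        fun z => (Ω p (τ z)).compContinuousLinearMap (fderiv ℝ τ z) := by
      filter_upwards [hev] with z hz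
      rw [hz.2.fderiv]
      exact h.same p z (τ z) hz.1
    show extDeriv (Ω p) y = (extDeriv (Ω p) (τ y)).compContinuousLinearMap _
    rw [e1.extDeriv_eq, extDeriv_pullback (h.differentiableAt _ hf.2.1) hτ ualg_min,
      hev.self_of_nhds.2.fderiv]
  flip p e y y' hf := by
    obtain ⟨τ, rfl, hτ, hev⟩ := hf.exists_local
    have e1 : Ω p =ᶠ[𝓝 y]
        fun z => (Ω (Γ.σ e p) (τ z)).compContinuousLinearMap (fderiv ℝ τ z) := by
      filter_upwards [hev] with z hz
      rw [hz.2.fderiv]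
      exact h.flip p e z (τ z) hz.1
    show extDeriv (Ω p) y = (extDeriv (Ω (Γ.σ e p)) (τ y)).compContinuousLinearMap _
    rw [e1.extDeriv_eq, extDeriv_pullback (h.differentiableAt _ hf.2.1) hτ ualg_min,
      hev.self_of_nhds.2.fderiv]
  fin := by
    refine h.fin.subset ?_
    rintro p ⟨y, hy, hne⟩
    by_contra hc
    simp only [mem_ofPred_eq, not_exists, not_and, not_not] at hc
    have e1 : Ω p =ᶠ[𝓝 y] fun _ => 0 := by
      filter_upwards [isOpen_DR.mem_nhds hy] with z hz using hc z hz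
    refine hne ?_
    show extDeriv (Ω p) y = 0
    rw [e1.extDeriv_eq, extDeriv]
    ext v
    simp [ContinuousAlternatingMap.alternatizeUncurryFin_apply]

theorem IsT.dF_dF (h : IsT Γ Ω) (p : P) {y : Eu 5} (hy : y ∈ DR c) :
    Ft.dF (Ft.dF Ω) p y = 0 :=
  extDeriv_extDeriv_apply ((h.smooth p).contDiffAt (isOpen_DR.mem_nhds hy)) ualg_min

theorem IsFn.differentiableAt {w : Fn P} (h : IsFn Γ w) (p : P) {y : Eu 5} (hy : y ∈ DR c) :
    DifferentiableAt ℝ (w p) y :=
  ((h.smooth p).contDiffAt (isOpen_DR.mem_nhds hy)).differentiableAt (by simp)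

theorem IsFn.fderiv_flip {w : Fn P} (h : IsFn Γ w) (p : P) {e : Ed c} {y y' : Eu 5}
    (hf : Flip e y y') :
    fderiv ℝ (w p) y = (fderiv ℝ (w (Γ.σ e p)) y').comp (fl e y y') := by
  obtain ⟨τ, rfl, -, hev⟩ := hf.exists_local
  have e1 : w p =ᶠ[𝓝 y] (w (Γ.σ e p)) ∘ τ := by
    filter_upwards [hev] with z hz using h.flip p e z (τ z) hz.1
  rw [e1.fderiv_eq]
  exact ((h.differentiableAt _ hf.2.1).hasFDerivAt.comp y hev.self_of_nhds.2).fderiv

theorem IsFn.fderiv_same {w : Fn P} (h : IsFn Γ w) (p : P) {y y' : Eu 5} (hf : Same c y y') :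
    fderiv ℝ (w p) y = (fderiv ℝ (w p) y').comp (iv y y') := by
  obtain ⟨τ, rfl, -, hev⟩ := hf.exists_local
  have e1 : w p =ᶠ[𝓝 y] (w p) ∘ τ := by
    filter_upwards [hev] with z hz using h.same p z (τ z) hz.1
  rw [e1.fderiv_eq]
  exact ((h.differentiableAt _ hf.2.1).hasFDerivAt.comp y hev.self_of_nhds.2).fderiv

/-- If the derivative is not zero the function is not zero at points of any neighbourhood. -/
theorem exists_ne_of_fderiv_ne {F : Eu 5 → ℝ} {y : Eu 5} (h : fderiv ℝ F y ≠ 0) {s : Set (Eu 5)}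
    (hs : s ∈ 𝓝 y) : ∃ z ∈ s, F z ≠ 0 := by
  by_contra hc
  simp only [not_exists, not_and, not_not] at hc
  have e1 : F =ᶠ[𝓝 y] fun _ => 0 := by
    filter_upwards [hs] with z hz using hc z hz
  exact h (by rw [e1.fderiv_eq]; simp)

theorem ualg_fin (τ : Tr Γ Γ') (h : IsT Γ Ω) {S : Set P'}
    (hS : ∀ p ∈ S, (∃ y ∈ DR c, τ.w p y ≠ 0) ∧ ∃ y ∈ DR c, Ω (τ.f p) y ≠ 0) : S.Finite := by
  refine Set.Finite.of_finite_image (f := τ.f) (h.fin.subset ?_) ?_
  · rintro _ ⟨p, hp, rfl⟩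
    exact (hS p hp).2
  · exact fun p hp q hq hpq => τ.inj p q (hS p hp).1 (hS q hq).1 hpq

/-- Finiteness: the support maps injectively (τ.inj) into the support of Ω. -/
theorem Tr.isT_mul (τ : Tr Γ Γ') (h : IsT Γ Ω) : IsT Γ' (τ.mul Ω) where
  smooth p := (τ.fn.smooth p).smul (h.smooth _)
  same p y y' hf := by
    simp only [Tr.mul]
    rw [← τ.fn.same p y y' hf, h.same _ y y' hf]
    ext v
    simp
  flip p e y y' hf := by
    simp only [Tr.mul]
    rw [← τ.fn.flip p e y y' hf]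
    by_cases h0 : τ.w p y = 0
    · rw [h0]
      ext v
      simp
    · rw [τ.eqv p e y hf.1 h0 hf.sc_lt, h.flip _ e y y' hf]
      ext v
      simp
  fin := by
    refine ualg_fin τ h ?_
    rintro p ⟨y, hy, hne⟩
    exact ⟨⟨y, hy, left_ne_zero_of_smul hne⟩, y, hy, right_ne_zero_of_smul hne⟩

theorem Tr.isT_wed (τ : Tr Γ Γ') (h : IsT Γ Ω) : IsT Γ' (τ.wed Ω) where
  smooth p :=
    ContDiffOn.wedge ((τ.fn.smooth p).fderiv_of_isOpen isOpen_DR (by simp)) (h.smooth _)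
  same p y y' hf := by
    simp only [Tr.wed]
    rw [wedge_comp, ← τ.fn.fderiv_same p hf, ← h.same _ y y' hf]
  flip p e y y' hf := by
    simp only [Tr.wed]
    rw [wedge_comp, ← τ.fn.fderiv_flip p hf]
    by_cases h0 : fderiv ℝ (τ.w p) y = 0
    · rw [h0, wedge_zero_left, wedge_zero_left]
    · have hn : DR c ∩ {z | sc e z < 1} ∈ 𝓝 y :=
        inter_mem (isOpen_DR.mem_nhds hf.1)
          ((geoa_sc (hf.1.1 e).1).continuousAt.eventually_lt continuousAt_const hf.sc_lt)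
      obtain ⟨z, hz, hw⟩ := exists_ne_of_fderiv_ne h0 hn
      rw [τ.eqv p e z hz.1 hw hz.2, ← h.flip _ e y y' hf]
  fin := by
    refine ualg_fin τ h ?_
    rintro p ⟨y, hy, hne⟩
    refine ⟨exists_ne_of_fderiv_ne (y := y) (fun h0 => hne ?_) (isOpen_DR.mem_nhds hy),
      y, hy, fun h0 => hne ?_⟩
    · simp only [Tr.wed, h0, wedge_zero_left]
    · simp only [Tr.wed, h0, wedge_zero_right]

theorem Tr.dF_mul (τ : Tr Γ Γ') (h : IsT Γ Ω) (p : P') {y : Eu 5} (hy : y ∈ DR c) :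
    dF (τ.mul Ω) p y = τ.mul (dF Ω) p y + τ.wed Ω p y :=
  extDeriv_fun_smul' (τ.fn.differentiableAt p hy) (h.differentiableAt _ hy)

theorem IsFn.isT_smul {w : Fn P} (hw : IsFn Γ w) (h : IsT Γ Ω) :
    IsT Γ fun p y => w p y • Ω p y :=
  (Tr.ofFn hw).isT_mul h

theorem IsFn.isT_ofFn {w : Fn P} (hw : IsFn Γ w) (hf : {p | ∃ y ∈ DR c, w p y ≠ 0}.Finite) :
    IsT Γ (ofFn w) where
  smooth p := contDiff_f0.comp_contDiffOn (hw.smooth p)
  same p y y' h := by
    simp only [ofFn]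
    rw [← hw.same p y y' h]
    ext v
    rfl
  flip p e y y' h := by
    simp only [ofFn]
    rw [← hw.flip p e y y' h]
    ext v
    rfl
  fin := by
    refine hf.subset ?_
    rintro p ⟨y, hy, hne⟩
    refine ⟨y, hy, fun h0 => hne ?_⟩
    simp only [ofFn, h0, f0_zero]

end Pool.Agent.Lib.MP_75c153_gt.Ft
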