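import Pool.Agent.Lib.MP_75c153_gt.Ft.VDefs
import Pool.Agent.Lib.MP_570070_gt.An.DivA

open MeasureTheory Filter Topology Set
open scoped ContDiff
open Pool.Agent.Lib.MP_570070_gt.An (Eu bas contDiff_integral_param diva_fderiv)

namespace Pool.Agent.Lib.MP_75c153_gt.Ft

variable {n : ℕ}

theorem va_update (i : Fin n) {g : Eu n × ℝ → ℝ} (hg : ContDiff ℝ ∞ g) :
    ContDiff ℝ ∞ fun q : Eu n × ℝ => Function.update q.1 i (g q) := by
  refine contDiff_pi.2 fun j => ?_
  by_cases h : j = i
  · subst h
    simpa only [Function.update_self] using hg
  · simp only [Function.update_of_ne h]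
    fun_prop

theorem contDiff_tot (i : Fin n) (a b : ℝ) {F : Eu n → ℝ} (hF : ContDiff ℝ ∞ F) :
    ContDiff ℝ ∞ (tot i a b F) :=
  contDiff_integral_param (G := fun q => F (Function.update q.1 i q.2))
    (hF.comp (va_update i contDiff_snd)) a b

/-- Substitute t = a + s (y i - a), s ∈ [0, 1]. -/
theorem contDiff_prim (i : Fin n) (a : ℝ) {F : Eu n → ℝ} (hF : ContDiff ℝ ∞ F) :
    ContDiff ℝ ∞ (prim i a F) := by
  have h : prim i a F = fun y =>
      (y i - a) * ∫ s in (0 : ℝ)..1, F (Function.update y i (a + (y i - a) * s)) := by
    funext y
    have h1 := intervalIntegral.smul_integral_comp_add_mul (a := 0) (b := 1)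
      (fun t => F (Function.update y i t)) (y i - a) a
    rw [mul_zero, add_zero, mul_one, add_sub_cancel, smul_eq_mul] at h1
    exact h1.symm
  rw [h]
  refine ContDiff.mul (by fun_prop) (contDiff_integral_param
    (G := fun q : Eu n × ℝ => F (Function.update q.1 i (a + (q.1 i - a) * q.2)))
    (hF.comp (va_update i ?_)) 0 1)
  fun_prop

/-- The derivative along the line s ↦ y + s • bas i and the fundamental theorem of calculus. -/
theorem pd_prim (i : Fin n) (a : ℝ) {F : Eu n → ℝ} (hF : ContDiff ℝ ∞ F) (y : Eu n) :
    pd i (prim i a F) y = F y := by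
  have h1 := ((contDiff_prim i a hF).differentiable (by simp)
    (Function.update y i (y i))).hasFDerivAt.comp_hasDerivAt (y i) (hasDerivAt_update y i (y i))
  have hc : Continuous fun t => F (Function.update y i t) :=
    hF.continuous.comp (continuous_const.update i continuous_id)
  have h2 := (hc.integral_hasStrictDerivAt a (y i)).hasDerivAt
  have h3 : prim i a F ∘ Function.update y i = fun s => ∫ t in a..s, F (Function.update y i t) := by
    funext s
    simp only [Function.comp_apply, prim, Function.update_self, Function.update_idem]
  rw [h3, Function.update_eq_self] at h1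
  rw [Function.update_eq_self] at h2
  exact h1.unique h2

theorem tot_update (i : Fin n) (a b : ℝ) (F : Eu n → ℝ) (y : Eu n) (t : ℝ) :
    tot i a b F (Function.update y i t) = tot i a b F y := by
  simp only [tot, Function.update_idem]

theorem prim_update_ne {i j : Fin n} (h : j ≠ i) (a : ℝ) (F : Eu n → ℝ) (y : Eu n) (s : ℝ) :
    prim i a F (Function.update y j s) =
      ∫ t in a..y i, F (Function.update (Function.update y i t) j s) := by
  simp only [prim, Function.update_of_ne h.symm, Function.update_comm h]

theorem tot_update_ne {i j : Fin n} (h : j ≠ i) (a b : ℝ) (F : Eu n → ℝ) (y : Eu n) (s : ℝ) :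
    tot i a b F (Function.update y j s) =
      ∫ t in a..b, F (Function.update (Function.update y i t) j s) := by
  simp only [tot, Function.update_comm h]

/-- The partial derivative is the derivative along the coordinate line. -/
theorem hasDerivAt_pd (i : Fin n) {F : Eu n → ℝ} {y : Eu n} (hF : DifferentiableAt ℝ F y) :
    HasDerivAt (fun s => F (Function.update y i s)) (pd i F y) (y i) := by
  have h : DifferentiableAt ℝ F (Function.update y i (y i)) := by
    rwa [Function.update_eq_self]
  have h1 := h.hasFDerivAt.comp_hasDerivAt (y i) (hasDerivAt_update y i (y i))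
  rwa [Function.update_eq_self] at h1

theorem contDiff_pd (i : Fin n) {F : Eu n → ℝ} (hF : ContDiff ℝ ∞ F) : ContDiff ℝ ∞ (pd i F) :=
  (hF.fderiv_right (m := ∞) (by simp)).clm_apply contDiff_const

theorem pd_tot_self (i : Fin n) (a b : ℝ) {F : Eu n → ℝ} (hF : ContDiff ℝ ∞ F) (y : Eu n) :
    pd i (tot i a b F) y = 0 := by
  have h := hasDerivAt_pd i ((contDiff_tot i a b hF).differentiable (by simp) y)
  simp only [tot_update] at h
  exact h.unique (hasDerivAt_const _ _)

/-- Differentiation under the integral along the line in the direction j. -/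
theorem va_line {i j : Fin n} (h : j ≠ i) (a b : ℝ) {F : Eu n → ℝ} (hF : ContDiff ℝ ∞ F)
    (y : Eu n) : HasDerivAt
      (fun s => ∫ t in a..b, F (Function.update (Function.update y i t) j s))
      (∫ t in a..b, pd j F (Function.update y i t)) (y j) := by
  have hG : ContDiff ℝ ∞ fun q : ℝ × ℝ => F (Function.update (Function.update y i q.2) j q.1) := by
    refine hF.comp (contDiff_pi.2 fun l => ?_)
    by_cases h1 : l = j
    · subst h1
      simpa only [Function.update_self] using contDiff_fst
    · by_cases h2 : l = i
      · subst h2
        simpa only [Function.update_of_ne h1, Function.update_self] using contDiff_snd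
      · simpa only [Function.update_of_ne h1, Function.update_of_ne h2] using contDiff_const
  have key : ∀ a b : ℝ, HasDerivAt
      (fun s => ∫ t in Ioc a b, F (Function.update (Function.update y i t) j s))
      (∫ t in Ioc a b, pd j F (Function.update y i t)) (y j) := fun a b => by
    simp only [← integral_Icc_eq_integral_Ioc]
    obtain ⟨h1, h2⟩ := diva_fderiv (isCompact_Icc (a := a) (b := b)) (hG.of_le (by simp)) (y j)
    refine h1.hasDerivAt.congr_deriv ?_
    refine (h2 1).trans (integral_congr_ae (Eventually.of_forall fun t => ?_))
    have h3 := (hG.differentiable (by simp) (y j, t)).hasFDerivAt.comp_hasDerivAt (y j)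
      ((hasDerivAt_id (y j)).prodMk (hasDerivAt_const (y j) t))
    have h4 := hasDerivAt_pd j (hF.differentiable (by simp) (Function.update y i t))
    rw [Function.update_of_ne h] at h4
    exact h3.unique h4
  exact (key a b).sub (key b a)

theorem pd_tot_ne {i j : Fin n} (h : j ≠ i) (a b : ℝ) {F : Eu n → ℝ} (hF : ContDiff ℝ ∞ F)
    (y : Eu n) : pd j (tot i a b F) y = tot i a b (pd j F) y := by
  have h1 := hasDerivAt_pd j ((contDiff_tot i a b hF).differentiable (by simp) y)
  simp only [tot_update_ne h] at h1
  exact h1.unique (va_line h a b hF y)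

theorem pd_prim_ne {i j : Fin n} (h : j ≠ i) (a : ℝ) {F : Eu n → ℝ} (hF : ContDiff ℝ ∞ F)
    (y : Eu n) : pd j (prim i a F) y = prim i a (pd j F) y := by
  have h1 := hasDerivAt_pd j ((contDiff_prim i a hF).differentiable (by simp) y)
  simp only [prim_update_ne h] at h1
  exact h1.unique (va_line h a (y i) hF y)

/-- Fundamental theorem of calculus along a coordinate line. -/
theorem integral_pd_line (i : Fin n) {F : Eu n → ℝ} (hF : ContDiff ℝ ∞ F) (y : Eu n) (a b : ℝ) :
    ∫ t in a..b, pd i F (Function.update y i t) =
      F (Function.update y i b) - F (Function.update y i a) := by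
  refine intervalIntegral.integral_eq_sub_of_hasDerivAt
    (f := fun s => F (Function.update y i s)) (fun t _ => ?_)
    (((contDiff_pd i hF).continuous.comp
      (continuous_const.update i continuous_id)).intervalIntegrable _ _)
  have h := hasDerivAt_pd i (hF.differentiable (by simp) (Function.update y i t))
  simpa only [Function.update_idem, Function.update_self] using h

end Pool.Agent.Lib.MP_75c153_gt.Ft
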