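import Pool.Agent.Lib.MP_75c153_gt.Ft.VDefs
import Pool.Agent.Lib.MP_570070_gt.An.DivB

open MeasureTheory Filter Topology Set
open scoped ContDiff
open Pool.Agent.Lib.MP_570070_gt.An (Eu bas divb_cs divb_cs')

namespace Pool.Agent.Lib.MP_75c153_gt.Ft

variable {n : ℕ}

theorem vb_box (lo hi : Eu (n + 1)) (i : Fin (n + 1)) (G : Eu (n + 1) → ℝ) :
    ∫ y in Icc lo hi, G y =
      ∫ p in Icc (lo i) (hi i) ×ˢ Icc (fun j => lo (i.succAbove j)) (fun j => hi (i.succAbove j)),
        G (i.insertNth p.1 p.2) ∂((volume : Measure ℝ).prod (volume : Measure (Fin n → ℝ))) := by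
  set e : ℝ × (Fin n → ℝ) ≃ᵐ (Fin (n + 1) → ℝ) :=
    (MeasurableEquiv.piFinSuccAbove (fun _ : Fin (n + 1) => ℝ) i).symm
  have hem : MeasurePreserving e :=
    (volume_preserving_piFinSuccAbove (fun _ : Fin (n + 1) => ℝ) i).symm _
  have he : e ⁻¹' Icc lo hi =
      Icc (lo i) (hi i) ×ˢ Icc (fun j => lo (i.succAbove j)) (fun j => hi (i.succAbove j)) :=
    ((Fin.insertNthOrderIso (fun _ : Fin (n + 1) => ℝ) i).preimage_Icc _ _).trans (Icc_prod_eq _ _)
  rw [← hem.map_eq, setIntegral_map_equiv, he, Measure.volume_eq_prod]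
  rfl

theorem vb_cont_ins (i : Fin (n + 1)) :
    Continuous fun p : ℝ × (Fin n → ℝ) => (i.insertNth p.1 p.2 : Eu (n + 1)) :=
  Continuous.finInsertNth (A := fun _ : Fin (n + 1) => ℝ) i continuous_fst continuous_snd

theorem vb_cont_upd (i : Fin n) {F : Eu n → ℝ} (hF : Continuous F) :
    Continuous (Function.uncurry fun (y : Eu n) (t : ℝ) => F (Function.update y i t)) :=
  hF.comp (continuous_fst.update i continuous_snd)

/-- Fubini in the direction i (measurePreserving_piFinSuccAbove or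
MeasurableEquiv.piFinSuccAbove, volume_pi, Measure.restrict of a box is a product). -/
theorem integral_mul_tot {lo hi : Eu n} (h : lo ≤ hi) (i : Fin n) {F : Eu n → ℝ}
    (hF : Continuous F) {u : ℝ → ℝ} (hu : Continuous u) :
    ∫ y in Icc lo hi, u (y i) * tot i (lo i) (hi i) F y =
      (∫ t in lo i..hi i, u t) * ∫ y in Icc lo hi, F y := by
  have _hu := hu
  obtain ⟨n, rfl⟩ := Nat.exists_eq_succ_of_ne_zero i.pos.ne'
  have h1 : ∀ p : ℝ × (Fin n → ℝ),
      u ((i.insertNth p.1 p.2 : Eu (n + 1)) i) * tot i (lo i) (hi i) F (i.insertNth p.1 p.2) =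
        u p.1 * ∫ t in Icc (lo i) (hi i), F (i.insertNth t p.2) := by
    intro p
    rw [Fin.insertNth_apply_same, tot, intervalIntegral.integral_of_le (h i),
      integral_Icc_eq_integral_Ioc]
    simp only [Fin.update_insertNth]
  rw [vb_box lo hi i, vb_box lo hi i F]
  simp only [h1]
  rw [setIntegral_prod_mul u (fun x : Fin n → ℝ => ∫ t in Icc (lo i) (hi i), F (i.insertNth t x)),
    intervalIntegral.integral_of_le (h i), integral_Icc_eq_integral_Ioc, ← Measure.prod_restrict,
    integral_prod_symm]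
  rw [Measure.prod_restrict]
  exact (hF.comp (vb_cont_ins i)).continuousOn.integrableOn_compact
    (isCompact_Icc.prod isCompact_Icc)

theorem continuous_tot (i : Fin n) (a b : ℝ) {F : Eu n → ℝ} (hF : Continuous F) :
    Continuous (tot i a b F) :=
  intervalIntegral.continuous_parametric_intervalIntegral_of_continuous' (vb_cont_upd i hF) a b

theorem continuous_prim (i : Fin n) (a : ℝ) {F : Eu n → ℝ} (hF : Continuous F) :
    Continuous (prim i a F) :=
  intervalIntegral.continuous_parametric_intervalIntegral_of_continuous (vb_cont_upd i hF)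
    (continuous_apply i)

theorem vb_sq_le {lo hi : Eu n} (h : lo ≤ hi) (i : Fin n) {F G : Eu n → ℝ}
    (hF : Continuous F) (hG : Continuous G)
    (hb : ∀ y ∈ Icc lo hi, G y ^ 2 ≤ (hi i - lo i) * tot i (lo i) (hi i) (fun z => F z ^ 2) y) :
    ∫ y in Icc lo hi, G y ^ 2 ≤ (hi i - lo i) ^ 2 * ∫ y in Icc lo hi, F y ^ 2 := by
  have hF2 : Continuous fun z => F z ^ 2 := hF.pow 2
  have h1 := integral_mul_tot h i hF2 (u := fun _ => hi i - lo i) continuous_const
  rw [intervalIntegral.integral_const, smul_eq_mul, ← sq] at h1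
  rw [← h1]
  exact setIntegral_mono_on ((hG.pow 2).continuousOn.integrableOn_compact isCompact_Icc)
    ((continuous_const.mul (continuous_tot i _ _ hF2)).continuousOn.integrableOn_compact
      isCompact_Icc) measurableSet_Icc hb

/-- Cauchy-Schwarz: the square is at most (hi i - lo i) * tot i (F ^ 2), then the first lemma. -/
theorem integral_tot_sq_le {lo hi : Eu n} (h : lo ≤ hi) (i : Fin n) {F : Eu n → ℝ}
    (hF : Continuous F) : ∫ y in Icc lo hi, tot i (lo i) (hi i) F y ^ 2 ≤
      (hi i - lo i) ^ 2 * ∫ y in Icc lo hi, F y ^ 2 :=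
  vb_sq_le h i hF (continuous_tot i _ _ hF) fun y _ =>
    divb_cs (h i) (f := fun t => F (Function.update y i t))
      (hF.comp (continuous_const.update i continuous_id))

theorem integral_prim_sq_le {lo hi : Eu n} (h : lo ≤ hi) (i : Fin n) {F : Eu n → ℝ}
    (hF : Continuous F) : ∫ y in Icc lo hi, prim i (lo i) F y ^ 2 ≤
      (hi i - lo i) ^ 2 * ∫ y in Icc lo hi, F y ^ 2 :=
  vb_sq_le h i hF (continuous_prim i _ hF) fun y hy =>
    divb_cs' (hy.1 i) (hy.2 i) (f := fun t => F (Function.update y i t))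
      (hF.comp (continuous_const.update i continuous_id))

theorem vb_bump {a b : ℝ} (h : a < b) : ∃ u : ℝ → ℝ, ContDiff ℝ ∞ u ∧
    (∀ t, u t ≠ 0 → t ∈ Icc a b) ∧ ∫ t in a..b, u t = 1 := by
  let f : ContDiffBump ((a + b) / 2) := ⟨(b - a) / 4, (b - a) / 2, by linarith, by linarith⟩
  have hs : ∀ t, f.normed volume t ≠ 0 → t ∈ Ioo a b := by
    intro t ht
    have h1 : t ∈ Function.support (f.normed volume) := ht
    rw [f.support_normed_eq, Metric.mem_ball, Real.dist_eq, abs_lt] at h1
    have h2 : f.rOut = (b - a) / 2 := rfl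
    rw [h2] at h1
    constructor <;> linarith [h1.1, h1.2]
  refine ⟨f.normed volume, f.contDiff_normed, fun t ht => Ioo_subset_Icc_self (hs t ht), ?_⟩
  rw [intervalIntegral.integral_eq_integral_of_support_subset
    (fun t ht => Ioo_subset_Ioc_self (hs t ht))]
  exact f.integral_normed

theorem vb_ne_zero {g : ℝ → ℝ} {a b : ℝ} (h : ∫ t in a..b, g t ≠ 0) : ∃ t, g t ≠ 0 := by
  by_contra hc
  push Not at hc
  simp [hc] at h

theorem vb_out {g : ℝ → ℝ} {a b x : ℝ} (hg : Continuous g)
    (hs : ∀ t, g t ≠ 0 → t ∈ Icc a b) (h0 : ∫ t in a..b, g t = 0) (hx : ∫ t in a..x, g t ≠ 0) :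
    x ∈ Icc a b := by
  by_contra hc
  apply hx
  have hz : ∀ p q : ℝ, (∀ t ∈ Ioo (min p q) (max p q), t ∉ Icc a b) → ∫ t in p..q, g t = 0 := by
    intro p q hpq
    rw [intervalIntegral.integral_congr_ae (g := fun _ => (0 : ℝ))]
    · simp
    · have : ∀ᵐ t : ℝ, t ≠ max p q := by
        simp [ae_iff]
      filter_upwards [this] with t ht htm
      by_contra hne
      exact hpq t ⟨htm.1, lt_of_le_of_ne htm.2 ht⟩ (hs t hne)
  rcases lt_or_ge x a with hxa | hxa
  · refine hz a x fun t ht htm => ?_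
    rw [max_eq_left hxa.le] at ht
    linarith [ht.2, htm.1]
  · have hbx : b < x := by
      by_contra hbx
      exact hc ⟨hxa, not_lt.1 hbx⟩
    rw [← intervalIntegral.integral_add_adjacent_intervals (b := b) (hg.intervalIntegrable _ _)
      (hg.intervalIntegrable _ _), h0, zero_add]
    refine hz b x fun t ht htm => ?_
    rw [min_eq_left hbx.le] at ht
    linarith [ht.1, htm.2]

end Pool.Agent.Lib.MP_75c153_gt.Ft
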