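import Pool.Agent.Lib.MP_75c153_gt.Ft.VB
import Pool.Agent.Lib.MP_75c153_gt.Ft.VC

open MeasureTheory Filter Topology Set
open scoped ContDiff
open Pool.Agent.Lib.MP_570070_gt.An (Eu bas)

namespace Pool.Agent.Lib.MP_75c153_gt.Ft

variable {n : ℕ}

theorem vd_ne_zero {g : ℝ → ℝ} {p q : ℝ} (h : ∫ t in p..q, g t ≠ 0) :
    ∃ t ∈ Ioo (min p q) (max p q), g t ≠ 0 := by
  by_contra hc
  push Not at hc
  apply h
  rw [intervalIntegral.integral_congr_ae (g := fun _ => (0 : ℝ))]
  · simp
  · have : ∀ᵐ t : ℝ, t ≠ max p q := by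
      simp [ae_iff]
    filter_upwards [this] with t ht htm
    exact hc t ⟨htm.1, lt_of_le_of_ne htm.2 ht⟩

theorem vd_intOn {lo hi : Eu n} {F : Eu n → ℝ} (hF : Continuous F) :
    IntegrableOn F (Icc lo hi) :=
  hF.continuousOn.integrableOn_compact isCompact_Icc

theorem vd_sq_box {lo hi : Eu n} {F : Eu n → ℝ} (hF : Sm (Icc lo hi) F) :
    ∫ y, F y ^ 2 = ∫ y in Icc lo hi, F y ^ 2 :=
  integral_eq_box fun y hy => hF.2 y fun h => hy (by rw [h]; ring)

/-- One step in the direction i inside a large box lo, hi; u is a bump on [a, b].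
G = u (y i) * tot i F and H = prim i (lo i) (F - G) (port of div_step of An/DivC.lean; the support
of H by vb_out type arguments: on each line the integrand has total integral zero). -/
theorem line_step {lo hi : Eu n} (h : lo ≤ hi) (i : Fin n) {a b : ℝ} (ha : lo i ≤ a)
    (hb : b ≤ hi i) {u : ℝ → ℝ} (hu : ContDiff ℝ ∞ u) (hus : ∀ t, u t ≠ 0 → t ∈ Icc a b)
    (hu1 : ∫ t in a..b, u t = 1) : ∃ C : ℝ, 0 ≤ C ∧ ∀ F : Eu n → ℝ, Sm (Icc lo hi) F →
      ∀ G H : Eu n → ℝ, (G = fun y => u (y i) * tot i (lo i) (hi i) F y) →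
        (H = prim i (lo i) fun y => F y - G y) →
        Sm (Icc lo hi) G ∧ Sm (Icc lo hi) H ∧ (∀ y, pd i H y = F y - G y) ∧
        (∀ y, G y ≠ 0 → y i ∈ Icc a b ∧ ∃ s, F (Function.update y i s) ≠ 0) ∧
        (∀ y, H y ≠ 0 → ∃ s, F (Function.update y i s) ≠ 0 ∧ y i ∈ Icc (min s a) (max s b)) ∧
        ∫ y, G y = ∫ y, F y ∧ ∫ y, G y ^ 2 ≤ C * ∫ y, F y ^ 2 ∧
        ∫ y, H y ^ 2 ≤ C * ∫ y, F y ^ 2 := by
  have hab : a ≤ b := by
    obtain ⟨t, ht⟩ := vb_ne_zero (g := u) (a := a) (b := b) (by rw [hu1]; exact one_ne_zero)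
    exact (hus t ht).1.trans (hus t ht).2
  have hui : ∀ p q, IntervalIntegrable u volume p q := hu.continuous.intervalIntegrable
  have hu2 : ∫ t in lo i..hi i, u t = 1 := by
    have e1 : ∫ t in lo i..a, u t = 0 := by
      by_contra hc
      obtain ⟨t, ht, h1⟩ := vd_ne_zero hc
      rw [max_eq_right ha] at ht
      exact absurd ht.2 (hus t h1).1.not_gt
    have e2 : ∫ t in b..hi i, u t = 0 := by
      by_contra hc
      obtain ⟨t, ht, h1⟩ := vd_ne_zero hc
      rw [min_eq_left hb] at ht
      exact absurd ht.1 (hus t h1).2.not_gt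
    rw [← intervalIntegral.integral_add_adjacent_intervals (hui _ a) (hui a _),
      ← intervalIntegral.integral_add_adjacent_intervals (hui a b) (hui b _), e1, e2, hu1]
    ring
  obtain ⟨M, hM⟩ := (isCompact_Icc (a := lo i) (b := hi i)).exists_bound_of_continuousOn
    hu.continuous.continuousOn
  refine ⟨M ^ 2 * (hi i - lo i) ^ 2 + (hi i - lo i) ^ 2 * (2 + 2 * (M ^ 2 * (hi i - lo i) ^ 2)),
    by positivity, fun F hF G H hG hH => ?_⟩
  have hGy : ∀ y, G y = u (y i) * tot i (lo i) (hi i) F y := fun y => by rw [hG]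
  have hGc : ContDiff ℝ ∞ G := by
    rw [hG]
    exact (hu.comp (contDiff_apply ℝ ℝ i)).mul (contDiff_tot i _ _ hF.1)
  have hD : ContDiff ℝ ∞ fun y => F y - G y := hF.1.sub hGc
  have hGs : ∀ y, G y ≠ 0 → y i ∈ Icc a b ∧ ∃ s, F (Function.update y i s) ≠ 0 := by
    intro y hy
    rw [hGy] at hy
    exact ⟨hus _ (left_ne_zero_of_mul hy), vb_ne_zero (right_ne_zero_of_mul hy)⟩
  have hline : ∀ y s, F (Function.update y i s) ≠ 0 → s ∈ Icc (lo i) (hi i) := by
    intro y s hs
    have h1 := hF.2 _ hs
    have h2 := h1.1 i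
    have h3 := h1.2 i
    rw [Function.update_self] at h2 h3
    exact ⟨h2, h3⟩
  have hbox : ∀ y s, F (Function.update y i s) ≠ 0 → lo i ≤ y i → y i ≤ hi i → y ∈ Icc lo hi := by
    intro y s hs h1 h2
    have h3 := hF.2 _ hs
    refine ⟨fun j => ?_, fun j => ?_⟩
    · rcases eq_or_ne j i with rfl | hj
      · exact h1
      · have h4 := h3.1 j
        rwa [Function.update_of_ne hj] at h4
    · rcases eq_or_ne j i with rfl | hj
      · exact h2
      · have h4 := h3.2 j
        rwa [Function.update_of_ne hj] at h4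
  have hHs : ∀ y, H y ≠ 0 →
      ∃ s, F (Function.update y i s) ≠ 0 ∧ y i ∈ Icc (min s a) (max s b) := by
    intro y hy
    have hc : Continuous fun t => F (Function.update y i t) :=
      hF.1.continuous.comp (continuous_const.update i continuous_id)
    have hc2 : Continuous fun t => u t * tot i (lo i) (hi i) F y :=
      hu.continuous.mul continuous_const
    have e : H y = ∫ t in lo i..y i,
        (F (Function.update y i t) - u t * tot i (lo i) (hi i) F y) := by
      rw [hH, prim]
      simp only [hGy, Function.update_self, tot_update]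
    have e0 : ∫ t in lo i..hi i,
        (F (Function.update y i t) - u t * tot i (lo i) (hi i) F y) = 0 := by
      rw [intervalIntegral.integral_sub (hc.intervalIntegrable _ _) (hc2.intervalIntegrable _ _),
        intervalIntegral.integral_mul_const, hu2, one_mul]
      exact sub_self _
    rw [e] at hy
    rcases lt_or_ge (y i) a with h1 | h1
    · obtain ⟨t, ht, h2⟩ := vd_ne_zero hy
      have h3 : u t = 0 := by_contra fun h4 =>
        absurd (ht.2.trans_le (max_le ha h1.le)) (hus t h4).1.not_gt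
      rw [h3, zero_mul, sub_zero] at h2
      refine ⟨t, h2, (min_le_left _ _).trans ?_, (h1.le.trans hab).trans (le_max_right _ _)⟩
      rcases lt_max_iff.1 ht.2 with h5 | h5
      · exact absurd h5 (hline y t h2).1.not_gt
      · exact h5.le
    rcases lt_or_ge b (y i) with h6 | h6
    · have hc3 : Continuous fun t =>
          F (Function.update y i t) - u t * tot i (lo i) (hi i) F y := hc.sub hc2
      rw [← intervalIntegral.integral_add_adjacent_intervals (b := hi i)
        (hc3.intervalIntegrable _ _) (hc3.intervalIntegrable _ _), e0, zero_add] at hy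
      obtain ⟨t, ht, h2⟩ := vd_ne_zero hy
      have h3 : u t = 0 := by_contra fun h4 =>
        absurd ((le_min hb h6.le).trans_lt ht.1) (hus t h4).2.not_gt
      rw [h3, zero_mul, sub_zero] at h2
      refine ⟨t, h2, (min_le_right _ _).trans h1, le_trans ?_ (le_max_left _ _)⟩
      rcases min_lt_iff.1 ht.1 with h5 | h5
      · exact absurd h5 (hline y t h2).2.not_gt
      · exact h5.le
    · obtain ⟨t, ht⟩ := vb_ne_zero hy
      have h7 : ∃ s, F (Function.update y i s) ≠ 0 := by
        by_cases h8 : F (Function.update y i t) = 0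
        · rw [h8, zero_sub, neg_ne_zero] at ht
          exact vb_ne_zero (right_ne_zero_of_mul ht)
        · exact ⟨t, h8⟩
      obtain ⟨s, hs⟩ := h7
      exact ⟨s, hs, (min_le_right _ _).trans h1, h6.trans (le_max_right _ _)⟩
  have hGm : Sm (Icc lo hi) G := ⟨hGc, fun y hy => by
    obtain ⟨h1, s, hs⟩ := hGs y hy
    exact hbox y s hs (ha.trans h1.1) (h1.2.trans hb)⟩
  have hHm : Sm (Icc lo hi) H := ⟨hH ▸ contDiff_prim i _ hD, fun y hy => by
    obtain ⟨s, hs, h1⟩ := hHs y hy
    exact hbox y s hs ((le_min (hline y s hs).1 ha).trans h1.1)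
      (h1.2.trans (max_le (hline y s hs).2 hb))⟩
  have hI : 0 ≤ ∫ y in Icc lo hi, F y ^ 2 := integral_nonneg fun y => sq_nonneg _
  have h4 : ∫ y in Icc lo hi, G y ^ 2 ≤
      M ^ 2 * (hi i - lo i) ^ 2 * ∫ y in Icc lo hi, F y ^ 2 := by
    calc ∫ y in Icc lo hi, G y ^ 2
        ≤ ∫ y in Icc lo hi, M ^ 2 * tot i (lo i) (hi i) F y ^ 2 := by
          refine setIntegral_mono_on (vd_intOn (hGc.continuous.pow 2))
            (vd_intOn (continuous_const.mul ((continuous_tot i _ _ hF.1.continuous).pow 2)))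
            measurableSet_Icc fun y hy => ?_
          rw [hGy, mul_pow]
          refine mul_le_mul_of_nonneg_right ?_ (sq_nonneg _)
          have h1 := hM (y i) ⟨hy.1 i, hy.2 i⟩
          rw [Real.norm_eq_abs] at h1
          exact sq_le_sq' (abs_le.1 h1).1 (abs_le.1 h1).2
      _ = M ^ 2 * ∫ y in Icc lo hi, tot i (lo i) (hi i) F y ^ 2 := integral_const_mul _ _
      _ ≤ M ^ 2 * ((hi i - lo i) ^ 2 * ∫ y in Icc lo hi, F y ^ 2) :=
          mul_le_mul_of_nonneg_left (integral_tot_sq_le h i hF.1.continuous) (sq_nonneg _)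
      _ = _ := by ring
  refine ⟨hGm, hHm, fun y => hH ▸ pd_prim i _ hD y, hGs, hHs, ?_, ?_, ?_⟩
  · rw [integral_eq_box hGm.2, integral_eq_box hF.2]
    simp only [hGy]
    rw [integral_mul_tot h i hF.1.continuous hu.continuous, hu2, one_mul]
  · rw [vd_sq_box hGm, vd_sq_box hF]
    refine h4.trans (mul_le_mul_of_nonneg_right ?_ hI)
    have : 0 ≤ (hi i - lo i) ^ 2 * (2 + 2 * (M ^ 2 * (hi i - lo i) ^ 2)) := by positivity
    linarith
  · rw [vd_sq_box hHm, vd_sq_box hF, hH]
    have e1 : Continuous fun y => 2 * F y ^ 2 := continuous_const.mul (hF.1.continuous.pow 2)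
    have e2 : Continuous fun y => 2 * G y ^ 2 := continuous_const.mul (hGc.continuous.pow 2)
    have h5 : ∫ y in Icc lo hi, (F y - G y) ^ 2 ≤
        (2 + 2 * (M ^ 2 * (hi i - lo i) ^ 2)) * ∫ y in Icc lo hi, F y ^ 2 := by
      calc ∫ y in Icc lo hi, (F y - G y) ^ 2
          ≤ ∫ y in Icc lo hi, (2 * F y ^ 2 + 2 * G y ^ 2) := by
            refine setIntegral_mono_on (vd_intOn (hD.continuous.pow 2)) (vd_intOn (e1.add e2))
              measurableSet_Icc fun y _ => ?_
            nlinarith [sq_nonneg (F y + G y)]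
        _ = 2 * (∫ y in Icc lo hi, F y ^ 2) + 2 * ∫ y in Icc lo hi, G y ^ 2 := by
            rw [integral_add (vd_intOn e1) (vd_intOn e2), integral_const_mul, integral_const_mul]
        _ ≤ _ := by linarith
    refine (integral_prim_sq_le h i hD.continuous).trans ?_
    refine (mul_le_mul_of_nonneg_left h5 (sq_nonneg _)).trans ?_
    have : 0 ≤ M ^ 2 * (hi i - lo i) ^ 2 * ∫ y in Icc lo hi, F y ^ 2 := by positivity
    nlinarith

/-- A function that separates in every variable is a product. Induction on a finite set s of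
coordinates with s.piecewise z y, then integrate in z (integral_fintype_prod_volume_eq_prod). -/
theorem eq_prod_mul_integral {u : Fin n → ℝ → ℝ} (hu : ∀ i, ∫ t, u i t = 1) {G : Eu n → ℝ}
    (h : ∀ i y t, u i t * G y = u i (y i) * G (Function.update y i t)) (y : Eu n) :
    G y = (∏ i, u i (y i)) * ∫ z, G z := by
  have key : ∀ (z : Eu n) (s : Finset (Fin n)),
      (∏ i ∈ s, u i (z i)) * G y = (∏ i ∈ s, u i (y i)) * G (s.piecewise z y) := by
    intro z s
    induction s using Finset.induction_on with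
    | empty => simp
    | insert a s ha ih =>
      have h1 := h a (s.piecewise z y) (z a)
      rw [Finset.piecewise_eq_of_notMem _ _ _ ha] at h1
      rw [Finset.prod_insert ha, Finset.prod_insert ha, Finset.piecewise_insert, mul_assoc, ih,
        mul_left_comm, h1]
      ring
  have h2 : ∫ z : Eu n, (∏ i, u i (z i)) * G y = ∫ z : Eu n, (∏ i, u i (y i)) * G z := by
    simp only [key, Finset.piecewise_univ]
  rw [integral_mul_const, integral_const_mul, integral_fintype_prod_volume_eq_prod] at h2
  simpa only [hu, Finset.prod_const_one, one_mul] using h2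

/-- Induction on a finite set J of directions: F = dvg V + G with G separated in the directions
of J (line_step, dvg_single), then eq_prod_mul_integral. -/
theorem solv_box {T : Set (Eu n)} {lo hi : Eu n} (h : ∀ i, lo i < hi i) (hT : Icc lo hi ⊆ T) :
    Solv T (Icc lo hi) := by
  have hle : lo ≤ hi := fun i => (h i).le
  choose u hu hus hu1 using fun i => vb_bump (h i)
  have key : ∀ J : Finset (Fin n), ∃ C : ℝ, 0 ≤ C ∧ ∀ F : Eu n → ℝ, Sm (Icc lo hi) F →
      ∃ (V : Eu n → Eu n) (G : Eu n → ℝ), Sm (Icc lo hi) V ∧ Sm (Icc lo hi) G ∧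
        (∀ y, dvg V y = F y - G y) ∧
        (∀ i ∈ J, ∀ y t, u i t * G y = u i (y i) * G (Function.update y i t)) ∧
        ∫ y, G y = ∫ y, F y ∧ ∫ y, G y ^ 2 ≤ C * ∫ y, F y ^ 2 ∧
        ∫ y, ∑ i, V y i ^ 2 ≤ C * ∫ y, F y ^ 2 := by
    intro J
    induction J using Finset.induction_on with
    | empty =>
      refine ⟨1, zero_le_one, fun F hF => ⟨fun _ => 0, F, Sm.zero, hF, fun y => ?_,
        fun i hi => absurd hi (Finset.notMem_empty i), rfl, (one_mul _).ge, ?_⟩⟩
      · simp only [dvg, pd_const, Finset.sum_const_zero, sub_self]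
      · simp only [Pi.zero_apply, ne_eq, OfNat.ofNat_ne_zero, not_false_eq_true, zero_pow,
          Finset.sum_const_zero, integral_zero, one_mul]
        exact integral_nonneg fun y => sq_nonneg _
    | insert j J hj ih =>
      obtain ⟨C, hC, ih⟩ := ih
      obtain ⟨C', hC', st⟩ := line_step hle j le_rfl le_rfl (hu j) (hus j) (hu1 j)
      refine ⟨2 * C + 2 * (C' * C), by positivity, fun F hF => ?_⟩
      obtain ⟨V, G, hV, hG, hd, hsep, hi1, hi2, hi3⟩ := ih F hF
      obtain ⟨G', hG'⟩ : ∃ G' : Eu n → ℝ, G' = fun y => u j (y j) * tot j (lo j) (hi j) G y :=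
        ⟨_, rfl⟩
      obtain ⟨H, hH⟩ : ∃ H : Eu n → ℝ, H = prim j (lo j) fun y => G y - G' y := ⟨_, rfl⟩
      obtain ⟨s1, s2, s3, -, -, s4, s5, s6⟩ := st G hG G' H hG' hH
      have hI : 0 ≤ ∫ y, F y ^ 2 := integral_nonneg fun y => sq_nonneg _
      have hW : Sm (Icc lo hi) fun y => (Pi.single j (H y) : Eu n) := Sm.pi fun i => by
        rcases eq_or_ne i j with rfl | hij
        · simpa only [Pi.single_eq_same] using s2
        · simpa only [Pi.single_eq_of_ne hij] using Sm.zero
      have hVW : Sm (Icc lo hi) fun y => V y + (Pi.single j (H y) : Eu n) :=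
        (hV.add hW).mono (union_self _).subset
      have h1 := mul_le_mul_of_nonneg_left hi2 hC'
      have h2 := mul_nonneg hC hI
      have h3 := mul_nonneg hC' h2
      refine ⟨_, G', hVW, s1, fun y => ?_, fun i hi y t => ?_, s4.trans hi1, by nlinarith, ?_⟩
      · rw [dvg_add (hV.1.differentiable (by simp) y) (hW.1.differentiable (by simp) y), hd,
          dvg_single, s3]
        ring
      · rw [hG']
        beta_reduce
        rcases Finset.mem_insert.1 hi with rfl | hi
        · rw [Function.update_self, tot_update, mul_left_comm]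
        · have hij : i ≠ j := fun e => hj (e ▸ hi)
          rw [Function.update_of_ne hij.symm, tot_update_ne hij, tot, mul_left_comm,
            mul_left_comm (u i (y i)), ← intervalIntegral.integral_const_mul (u i t),
            ← intervalIntegral.integral_const_mul (u i (y i))]
          simp only [hsep i hi _ t, Function.update_of_ne hij]
      · have e1 : Integrable fun y => 2 * ∑ i, V y i ^ 2 :=
          (hV.integrable_sum_sq isCompact_Icc).const_mul 2
        have e2 : Integrable fun y => 2 * H y ^ 2 := (s2.integrable_sq isCompact_Icc).const_mul 2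
        have h4 : ∫ y, ∑ i, (V y + (Pi.single j (H y) : Eu n)) i ^ 2 ≤
            ∫ y, (2 * ∑ i, V y i ^ 2 + 2 * H y ^ 2) := by
          refine integral_mono (hVW.integrable_sum_sq isCompact_Icc) (e1.add e2) fun y => ?_
          have h5 : ∑ i, (Pi.single j (H y) : Eu n) i ^ 2 = H y ^ 2 := by
            rw [Finset.sum_eq_single j (fun i _ hij => by rw [Pi.single_eq_of_ne hij]; ring)
              fun h => absurd (Finset.mem_univ j) h, Pi.single_eq_same]
          beta_reduce
          rw [← h5, Finset.mul_sum, Finset.mul_sum, ← Finset.sum_add_distrib]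
          refine Finset.sum_le_sum fun i _ => ?_
          rw [Pi.add_apply]
          nlinarith [sq_nonneg (V y i - (Pi.single j (H y) : Eu n) i)]
        rw [integral_add e1 e2, integral_const_mul, integral_const_mul] at h4
        nlinarith
  obtain ⟨C, hC, hk⟩ := key Finset.univ
  refine ⟨Icc lo hi, C, isCompact_Icc, hT, hC, fun F hF h0 => ?_⟩
  obtain ⟨V, G, hV, -, hd, hsep, hi1, -, hi3⟩ := hk F hF
  refine ⟨V, hV, fun y => ?_, hi3⟩
  have h1 : ∀ i, ∫ t, u i t = 1 := fun i => by
    rw [← hu1 i, intervalIntegral.integral_of_le (hle i), ← integral_Icc_eq_integral_Ioc,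
      setIntegral_eq_integral_of_forall_compl_eq_zero fun t ht => by_contra fun h2 =>
        ht (hus i t h2)]
  rw [hd, eq_prod_mul_integral h1 (fun i => hsep i (Finset.mem_univ i)) y, hi1, h0, mul_zero,
    sub_zero]

end Pool.Agent.Lib.MP_75c153_gt.Ft
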