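import Pool.Agent.Lib.MP_75c153_gt.Ft.VE

open MeasureTheory Filter Topology Set
open scoped ContDiff
open Pool.Agent.Lib.MP_570070_gt.An (Eu bas)

namespace Pool.Agent.Lib.MP_75c153_gt.Ft

variable {n : ℕ}

theorem vm_le {f g h : Eu n → ℝ} (hf : Integrable f) (hg : Integrable g) (h0 : ∀ y, 0 ≤ h y)
    (hh : ∀ y, h y ≤ 2 * f y + 2 * g y) : ∫ y, h y ≤ 2 * (∫ y, f y) + 2 * ∫ y, g y := by
  rw [← integral_const_mul, ← integral_const_mul, ← integral_add (hf.const_mul 2) (hg.const_mul 2)]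
  exact integral_mono_of_nonneg (ae_of_all _ h0) ((hf.const_mul 2).add (hg.const_mul 2))
    (ae_of_all _ hh)

/-- exists_split; F = ∑ i, pd i r * V i = dvg (r • V) has integral zero and support in K₁ ∩ K₂;
exists_div in U₁ ∩ U₂ gives X with dvg X = F; V₁ = r • V - X, V₂ = (1 - r) • V + X. -/
theorem red_mv {T K U₁ U₂ : Set (Eu n)} (hK : IsCompact K) (h₁ : IsOpen U₁) (h₂ : IsOpen U₂)
    (hc : IsPreconnected (U₁ ∩ U₂)) (hU : K ⊆ U₁ ∪ U₂)
    (r₁ : ∀ K₁, IsCompact K₁ → K₁ ⊆ U₁ → Red T K₁ ∅)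
    (r₂ : ∀ K₂, IsCompact K₂ → K₂ ⊆ U₂ → Red T K₂ ∅) : Red T K ∅ := by
  obtain ⟨r, K₁, K₂, M, hr, hr1, hK1, hK2, hU1, hU2, hM, hs⟩ := exists_split hK h₁ h₂ hU
  obtain ⟨K₀, C₀, hK0, hU0, hC0, g0⟩ := exists_div (h₁.inter h₂) hc (hK1.inter hK2)
    (inter_subset_inter hU1 hU2)
  obtain ⟨L₁, C₁, hL1, hT1, hC1, g1⟩ := r₁ _ (hK1.union hK0)
    (union_subset hU1 (hU0.trans inter_subset_left))
  obtain ⟨L₂, C₂, hL2, hT2, hC2, g2⟩ := r₂ _ (hK2.union hK0)
    (union_subset hU2 (hU0.trans inter_subset_right))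
  refine ⟨_, 2 * (C₁ + C₂) * (2 + 2 * C₀ * M), hL1.union hL2, union_subset hT1 hT2, by positivity,
    fun V hV hd _ => ?_⟩
  have dV := hV.1.differentiable (by simp)
  have hF : ∀ y, dvg (fun z => r z • V z) y = ∑ i, pd i r y * V y i := fun y => by
    rw [dvg_smul (hr.differentiable (by simp) y) (dV y), hd, mul_zero, add_zero]
  have s1 : Sm K₁ fun z => r z • V z := ⟨(hV.smul hr).1, fun y hy =>
    (hs y (hV.2 y (right_ne_zero_of_smul hy))).1 (left_ne_zero_of_smul hy)⟩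
  have s2 : Sm K₂ fun z => (1 - r z) • V z := ⟨(hV.smul (contDiff_const.sub hr)).1, fun y hy =>
    (hs y (hV.2 y (right_ne_zero_of_smul hy))).2.1 (sub_ne_zero.1 (left_ne_zero_of_smul hy)).symm⟩
  obtain ⟨X, hX, hXd, hXi⟩ := g0 _ ⟨(s1.dvg hK1.isClosed).1, fun y hy => by
    obtain ⟨i, -, hi⟩ := Finset.exists_ne_zero_of_sum_ne_zero ((hF y).symm.trans_ne hy)
    exact (hs y (hV.2 y (Function.ne_iff.2 ⟨i, right_ne_zero_of_mul hi⟩))).2.2.1 i
      (left_ne_zero_of_mul hi)⟩ (integral_dvg s1 hK1)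
  have iV := hV.integrable_sum_sq hK
  have hX2 : ∫ y, ∑ i, X y i ^ 2 ≤ C₀ * M * ∫ y, ∑ i, V y i ^ 2 := by
    rw [mul_assoc, ← integral_const_mul]
    refine hXi.trans (mul_le_mul_of_nonneg_left (integral_mono_of_nonneg
      (ae_of_all _ fun y => sq_nonneg _) (iV.const_mul M) (ae_of_all _ fun y => ?_)) hC0)
    change dvg (fun z => r z • V z) y ^ 2 ≤ M * ∑ i, V y i ^ 2
    rw [hF]
    by_cases hy : V y = 0
    · simp [hy]
    exact (Finset.sum_mul_sq_le_sq_mul_sq _ _ _).trans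
      (mul_le_mul_of_nonneg_right (hs y (hV.2 y hy)).2.2.2 (by positivity))
  have d1 : ∀ y, dvg (fun z => r z • V z - X z) y = 0 := fun y => by
    rw [dvg_sub (s1.1.differentiable (by simp) y) (hX.1.differentiable (by simp) y), hXd, sub_self]
  have e2 : ∀ z, (1 - r z) • V z + X z = V z - (r z • V z - X z) := fun z => by module
  obtain ⟨A₁, hA1, a1, b1, c1⟩ := g1 _ (s1.sub hX) d1 (by simp)
  obtain ⟨A₂, hA2, a2, b2, c2⟩ := g2 _ (s2.add hX) (fun y => by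
    simp only [e2]
    rw [dvg_sub (dV y) ((s1.sub hX).1.differentiable (by simp) y), hd, d1, sub_self]) (by simp)
  refine ⟨_, hA1.add hA2, fun y i j => ?_, fun y => ?_, ?_⟩
  · simp only [Pi.add_apply]
    rw [a1, a2, neg_add]
  · rw [dvm_add (hA1.1.differentiable (by simp) y) (hA2.1.differentiable (by simp) y), b1, b2, e2,
      add_sub_cancel]
  have iX := hX.integrable_sum_sq hK0
  have key : ∀ (s : Eu n → ℝ) (ε : ℝ), (∀ y, 0 ≤ s y ∧ s y ≤ 1) → ε ^ 2 = 1 →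
      ∫ y, ∑ i, (s y * V y i + ε * X y i) ^ 2 ≤ (2 + 2 * C₀ * M) * ∫ y, ∑ i, V y i ^ 2 := by
    intro s ε h0 hε
    refine (vm_le iV iX (fun y => by positivity) fun y => ?_).trans (by linarith)
    rw [Finset.mul_sum, Finset.mul_sum, ← Finset.sum_add_distrib]
    refine Finset.sum_le_sum fun i _ => ?_
    have h2 := mul_le_of_le_one_left (sq_nonneg (V y i)) (pow_le_one₀ (n := 2) (h0 y).1 (h0 y).2)
    have h3 : ε ^ 2 * X y i ^ 2 = X y i ^ 2 := by rw [hε, one_mul]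
    nlinarith [sq_nonneg (s y * V y i - ε * X y i)]
  have k1 := key r (-1) hr1 (by norm_num)
  have k2 := key (fun y => 1 - r y) 1 (fun y => ⟨by linarith [(hr1 y).2], by linarith [(hr1 y).1]⟩)
    (by norm_num)
  simp only [neg_mul, one_mul, ← sub_eq_add_neg] at k1 k2
  refine (vm_le (hA1.integrable_sum_sum_sq hL1) (hA2.integrable_sum_sum_sq hL2)
    (fun y => by positivity) fun y => ?_).trans ?_
  · simp only [Finset.mul_sum, ← Finset.sum_add_distrib, Pi.add_apply]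
    exact Finset.sum_le_sum fun j _ => Finset.sum_le_sum fun i _ => by
      nlinarith [sq_nonneg (A₁ y j i - A₂ y j i)]
  have m1 := c1.trans (mul_le_mul_of_nonneg_left k1 hC1)
  have m2 := c2.trans (mul_le_mul_of_nonneg_left k2 hC2)
  linarith

end Pool.Agent.Lib.MP_75c153_gt.Ft
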