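import Pool.Agent.Lib.MP_75c153_gt.Ft.UDefs
import Pool.Agent.Lib.MP_75c153_gt.Ft.FlipC

open MeasureTheory Filter Topology Set
open scoped ContDiff InnerProductSpace

namespace Pool.Agent.Lib.MP_75c153_gt.Ft

open Pool.Agent.Lib.MP_570070_gt.An

variable {c : Par} {k : ℕ} {y : Eu 5}

theorem wedge_apply (ℓ : Eu 5 →L[ℝ] ℝ) (α : Alt 5 k) (v : Fin (k + 1) → Eu 5) :
    wedge ℓ α v = ∑ i : Fin (k + 1), (-1) ^ (i : ℕ) * (ℓ (v i) * α (i.removeNth v)) := by
  rw [wedge, ContinuousAlternatingMap.alternatizeUncurryFin_apply]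
  refine Finset.sum_congr rfl fun i _ => ?_
  simp

theorem wedge_add_left (ℓ ℓ' : Eu 5 →L[ℝ] ℝ) (α : Alt 5 k) :
    wedge (ℓ + ℓ') α = wedge ℓ α + wedge ℓ' α := by
  ext v
  simp only [wedge_apply, ContinuousAlternatingMap.add_apply, add_apply,
    add_mul, mul_add, Finset.sum_add_distrib]
theorem wedge_add_right (ℓ : Eu 5 →L[ℝ] ℝ) (α β : Alt 5 k) :
    wedge ℓ (α + β) = wedge ℓ α + wedge ℓ β := by
  ext v
  simp only [wedge_apply, ContinuousAlternatingMap.add_apply, mul_add, Finset.sum_add_distrib]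
theorem wedge_smul_left (a : ℝ) (ℓ : Eu 5 →L[ℝ] ℝ) (α : Alt 5 k) :
    wedge (a • ℓ) α = a • wedge ℓ α := by
  ext v
  simp only [wedge_apply, ContinuousAlternatingMap.smul_apply, smul_apply,
    smul_eq_mul, Finset.mul_sum]
  exact Finset.sum_congr rfl fun i _ => by ring
theorem wedge_smul_right (a : ℝ) (ℓ : Eu 5 →L[ℝ] ℝ) (α : Alt 5 k) :
    wedge ℓ (a • α) = a • wedge ℓ α := by
  ext v
  simp only [wedge_apply, ContinuousAlternatingMap.smul_apply, smul_eq_mul, Finset.mul_sum]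
  exact Finset.sum_congr rfl fun i _ => by ring
theorem wedge_zero_left (α : Alt 5 k) : wedge 0 α = 0 := by
  ext v
  simp [wedge_apply]
theorem wedge_zero_right (ℓ : Eu 5 →L[ℝ] ℝ) : wedge ℓ (0 : Alt 5 k) = 0 := by
  ext v
  simp [wedge_apply]

theorem wedge_comp (ℓ : Eu 5 →L[ℝ] ℝ) (α : Alt 5 k) (A : Eu 5 →L[ℝ] Eu 5) :
    (wedge ℓ α).compContinuousLinearMap A =
      wedge (ℓ.comp A) (α.compContinuousLinearMap A) := by
  ext v
  rw [ContinuousAlternatingMap.compContinuousLinearMap_apply, wedge_apply, wedge_apply]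
  rfl

/-- Cauchy-Schwarz for the sum over i, then for each i split the multi-index with
Fin.insertNthEquiv; (k + 1) ^ 2 / (k + 1)! = (k + 1) / k!. -/
theorem ipUp_wedge_le (ℓ : Eu 5 →L[ℝ] ℝ) (α : Alt 5 k) :
    ipUp c y (wedge ℓ α) (wedge ℓ α) ≤ (k + 1) * gsq c y ℓ * ipUp c y α α := by
  set b := fr c y with hb
  set S : ℝ := ∑ J : Fin k → Fin 5, α (fun l => b (J l)) * α (fun l => b (J l)) with hS
  have h1 : ∀ I : Fin (k + 1) → Fin 5,
      wedge ℓ α (fun l => b (I l)) * wedge ℓ α (fun l => b (I l)) ≤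
        (k + 1) * ∑ i : Fin (k + 1), ℓ (b (I i)) ^ 2 *
          (α (fun l => b (i.removeNth I l)) * α (fun l => b (i.removeNth I l))) := by
    intro I
    rw [← sq, wedge_apply]
    refine (sq_sum_le_card_mul_sum_sq).trans (le_of_eq ?_)
    rw [Finset.card_univ, Fintype.card_fin, Nat.cast_add, Nat.cast_one]
    congr 1
    refine Finset.sum_congr rfl fun i _ => ?_
    have e : (i.removeNth fun l => b (I l)) = fun l => b (i.removeNth I l) := rfl
    rw [e, mul_pow, ← pow_mul, mul_comm (i : ℕ) 2, pow_mul, neg_one_sq, one_pow]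
    ring
  have h2 : ∀ i : Fin (k + 1), ∑ I : Fin (k + 1) → Fin 5, ℓ (b (I i)) ^ 2 *
      (α (fun l => b (i.removeNth I l)) * α (fun l => b (i.removeNth I l))) = gsq c y ℓ * S := by
    intro i
    rw [← (Fin.insertNthEquiv (fun _ => Fin 5) i).sum_comp, Fintype.sum_prod_type, gsq, hS,
      Finset.sum_mul_sum]
    refine Finset.sum_congr rfl fun a _ => Finset.sum_congr rfl fun J _ => ?_
    simp [Fin.insertNthEquiv, hb]
  have h3 : ∑ I : Fin (k + 1) → Fin 5,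
      wedge ℓ α (fun l => b (I l)) * wedge ℓ α (fun l => b (I l)) ≤
        (k + 1) * ((k + 1) * (gsq c y ℓ * S)) := by
    refine (Finset.sum_le_sum fun I _ => h1 I).trans (le_of_eq ?_)
    rw [← Finset.mul_sum, Finset.sum_comm, Finset.sum_congr rfl fun i _ => h2 i, Finset.sum_const,
      Finset.card_univ, Fintype.card_fin, nsmul_eq_mul, Nat.cast_add, Nat.cast_one]
  have hk : (0 : ℝ) < k.factorial := Nat.cast_pos.2 k.factorial_pos
  have hk1 : (0 : ℝ) < ((k + 1).factorial : ℕ) := Nat.cast_pos.2 (k + 1).factorial_pos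
  rw [ipUp, ipUp]
  refine (mul_le_mul_of_nonneg_left h3 (inv_pos.2 hk1).le).trans (le_of_eq ?_)
  rw [← hb, ← hS, Nat.factorial_succ, Nat.cast_mul, Nat.cast_add, Nat.cast_one]
  have hk2 : (k : ℝ) + 1 ≠ 0 := by positivity
  field_simp

/-- wedge is a bounded bilinear map (alternatizeUncurryFinCLM, ContinuousLinearMap.smulRightL). -/
theorem ContDiffOn.wedge {ℓ : Eu 5 → Eu 5 →L[ℝ] ℝ} {α : Eu 5 → Alt 5 k} {s : Set (Eu 5)}
    (hℓ : ContDiffOn ℝ ∞ ℓ s) (hα : ContDiffOn ℝ ∞ α s) :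
    ContDiffOn ℝ ∞ (fun y => wedge (ℓ y) (α y)) s := by
  have h1 : ContDiffOn ℝ ∞ (fun y => (ℓ y).smulRight (α y)) s := hℓ.smulRight hα
  exact (ContinuousAlternatingMap.alternatizeUncurryFinCLM ℝ (Eu 5) ℝ).contDiff.comp_contDiffOn h1

/-- Leibniz rule (fderiv_fun_smul). -/
theorem extDeriv_fun_smul' {w : Eu 5 → ℝ} {α : Eu 5 → Alt 5 k} (hw : DifferentiableAt ℝ w y)
    (hα : DifferentiableAt ℝ α y) :
    extDeriv (fun z => w z • α z) y = w y • extDeriv α y + wedge (fderiv ℝ w y) (α y) := by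
  rw [extDeriv, extDeriv, fderiv_fun_smul hw hα, ContinuousAlternatingMap.alternatizeUncurryFin_add,
    ContinuousAlternatingMap.alternatizeUncurryFin_smul, wedge]

theorem contDiffOn_extDeriv {α : Eu 5 → Alt 5 k} {s : Set (Eu 5)} (hs : IsOpen s)
    (hα : ContDiffOn ℝ ∞ α s) : ContDiffOn ℝ ∞ (extDeriv α) s := by
  have h1 : ContDiffOn ℝ ∞ (fderiv ℝ α) s := hα.fderiv_of_isOpen hs (by simp)
  exact (ContinuousAlternatingMap.alternatizeUncurryFinCLM ℝ (Eu 5) ℝ).contDiff.comp_contDiffOn h1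

theorem gsq_nonneg (ℓ : Eu 5 →L[ℝ] ℝ) : 0 ≤ gsq c y ℓ :=
  Finset.sum_nonneg fun _ _ => sq_nonneg _
theorem gsq_zero : gsq c y 0 = 0 := by simp [gsq]
theorem gsq_smul (a : ℝ) (ℓ : Eu 5 →L[ℝ] ℝ) : gsq c y (a • ℓ) = a ^ 2 * gsq c y ℓ := by
  simp only [gsq, smul_apply, smul_eq_mul, mul_pow, Finset.mul_sum]
theorem gsq_add_le (ℓ ℓ' : Eu 5 →L[ℝ] ℝ) :
    gsq c y (ℓ + ℓ') ≤ 2 * gsq c y ℓ + 2 * gsq c y ℓ' := by
  simp only [gsq, add_apply, Finset.mul_sum, ← Finset.sum_add_distrib]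
  refine Finset.sum_le_sum fun i _ => ?_
  nlinarith [sq_nonneg (ℓ (fr c y i) - ℓ' (fr c y i))]

/-- There are no forms of degree six or more. -/
theorem alt_six_eq_zero (α : Alt 5 (k + 6)) : α = 0 := by
  ext v
  refine α.toAlternatingMap.map_linearDependent v fun h => ?_
  have := h.fintype_card_le_finrank
  simp at this

end Pool.Agent.Lib.MP_75c153_gt.Ft
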